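import Pool.Agent.HS38.GT.Stm4

/-!
# Project GT, part 4, piece BC: base change of an equivariant representation to the algebraic closure
-/

set_option autoImplicit false

namespace Pool.Agent.HS38.GT

open MvPolynomial Finset Pool.Agent.Helper1x.EQ

namespace BC

/-- scaling commutes with a change of the field -/
theorem map_scale {F K X : Type} [Field F] [Field K] (f : F →+* K) (c : X → F) (c' : X → K) (hc : ∀ x, c' x = f (c x))
    (p : MvPolynomial X F) :
    MvPolynomial.map f (scale c p) = scale c' (MvPolynomial.map f p) := by
  induction p using MvPolynomial.induction_on with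
  | C a => rw [scale_C, MvPolynomial.map_C, scale_C]
  | add p q hp hq => rw [map_add, map_add, map_add, map_add, hp, hq]
  | mul_X p x hp =>
    rw [map_mul, map_mul, map_mul, map_mul, hp]
    congr 1
    simp [scale, hc]

variable {F K V A : Type} [Field F] [Field K] [Fintype V] [DecidableEq V] [Fintype A] [DecidableEq A]
  {ι : Type} [Fintype ι] [DecidableEq ι]

theorem gauge_map (f : F →+* K) (t : Finset V → V → A → Fˣ) (β : V → Option A) :
    gauge (fun L i a => Units.map (f : F →* K) (t L i a)) β = f (gauge t β) := by
  unfold gauge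
  have h1 : ∀ i, (β i).elim (1 : Kˣ) (fun a => Units.map (f : F →* K) (t (scope β) i a)) =
      Units.map (f : F →* K) ((β i).elim 1 (t (scope β) i)) := by
    intro i
    cases β i with
    | none => simp
    | some a => rfl
  have h2 : (∏ i, (β i).elim (1 : Kˣ) (fun a => Units.map (f : F →* K) (t (scope β) i a))) =
      Units.map (f : F →* K) (∏ i, (β i).elim 1 (t (scope β) i)) := by
    rw [map_prod]
    exact Finset.prod_congr rfl fun i _ => h1 i
  exact congrArg Units.val h2

theorem generic_map (f : F →+* K) (H : Finset (Finset V)) (t : Finset V → V → A → Fˣ) (ht : Generic4 H t) :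
    Generic4 H (fun L i a => Units.map (f : F →* K) (t L i a)) := by
  have hu : Function.Injective (Units.map (f : F →* K)) := by
    intro x y hxy
    apply Units.ext
    apply f.injective
    exact congrArg Units.val hxy
  refine ⟨?_, ?_⟩
  · intro i α
    have h1 := congrArg (Units.map (f : F →* K)) (ht.1 i α)
    rw [map_prod, map_one] at h1
    exact h1
  · intro e he h
    apply ht.2 e he
    apply hu
    rw [map_one, ← h, map_prod]
    refine Finset.prod_congr rfl fun K _ => ?_
    rw [map_prod]
    refine Finset.prod_congr rfl fun i _ => ?_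
    rw [map_prod]
    refine Finset.prod_congr rfl fun α _ => ?_
    rw [map_zpow]

theorem Z_map (f : F →+* K) (H : Finset (Finset V)) : MvPolynomial.map f (Z F A H) = Z K A H := by
  unfold Z
  simp [map_sum, map_prod]

theorem mapC {X : Type} (f : F →+* K) (B : Matrix ι ι F) :
    (B.map MvPolynomial.C).map (MvPolynomial.map f) = (B.map f).map (MvPolynomial.C (σ := X)) := by
  apply Matrix.ext
  intro i j
  rw [Matrix.map_apply, Matrix.map_apply, Matrix.map_apply, Matrix.map_apply, MvPolynomial.map_C]

theorem mapS {X : Type} (f : F →+* K) (c : X → F) (c' : X → K) (hc : ∀ x, c' x = f (c x))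
    (M : Matrix ι ι (MvPolynomial X F)) :
    (M.map (scale c)).map (MvPolynomial.map f) = (M.map (MvPolynomial.map f)).map (scale c') := by
  apply Matrix.ext
  intro i j
  rw [Matrix.map_apply, Matrix.map_apply, Matrix.map_apply, Matrix.map_apply, map_scale f c c' hc]

theorem det_unit (f : F →+* K) {B : Matrix ι ι F} (hB : IsUnit B.det) : IsUnit (B.map f).det := by
  have h1 : (B.map f).det = f B.det := by
    rw [RingHom.map_det]
    rfl
  rw [h1]
  exact hB.map f

theorem equiv_map {X : Type} (f : F →+* K) (c : X → F) (c' : X → K) (hc : ∀ x, c' x = f (c x))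
    (M : Matrix ι ι (MvPolynomial X F)) (hM : Equivariant c M) : Equivariant c' (M.map (MvPolynomial.map f)) := by
  obtain ⟨B, C', hB, hC, h⟩ := hM
  refine ⟨B.map f, C'.map f, det_unit f hB, det_unit f hC, ?_⟩
  rcases h with h | h
  · left
    have h1 := congrArg (fun N : Matrix ι ι (MvPolynomial X F) => N.map (MvPolynomial.map f)) h
    rw [mapS f c c' hc, Matrix.map_mul, Matrix.map_mul, mapC, mapC] at h1
    exact h1
  · right
    have h1 := congrArg (fun N : Matrix ι ι (MvPolynomial X F) => N.map (MvPolynomial.map f)) h
    rw [mapS f c c' hc, Matrix.map_mul, Matrix.map_mul, mapC, mapC, Matrix.transpose_map] at h1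
    exact h1

theorem degree_map {X : Type} (f : F →+* K) (p : MvPolynomial X F) :
    (MvPolynomial.map f p).totalDegree ≤ p.totalDegree := by
  unfold MvPolynomial.totalDegree
  exact Finset.sup_mono (MvPolynomial.support_map_subset f p)

theorem det_map (f : F →+* K) {X : Type} (M : Matrix ι ι (MvPolynomial X F)) :
    (M.map (MvPolynomial.map f)).det = MvPolynomial.map f M.det := by
  rw [RingHom.map_det]
  rfl

end BC

open BC in
theorem t_BC : S_BC := by
  intro F _ V A _ _ _ _ ι _ _ H t M ht hdeg hdet hM
  exact ⟨AlgebraicClosure F, inferInstance, inferInstance,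
    fun L i a => Units.map (algebraMap F (AlgebraicClosure F) : F →* AlgebraicClosure F) (t L i a),
    M.map (MvPolynomial.map (algebraMap F (AlgebraicClosure F))), generic_map _ H t ht,
    fun i j => (degree_map _ _).trans (hdeg i j), by rw [det_map, hdet, Z_map],
    equiv_map _ _ _ (gauge_map _ t) M hM⟩

end Pool.Agent.HS38.GT
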