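import Pool.Agent.HS38.GT.Stm5
import Pool.Agent.HS38.GT.BC

/-!
# Project GT, part 4, piece BC2: base change to the algebraic closure, entries of any degree
-/

set_option autoImplicit false

namespace Pool.Agent.HS38.GT

open MvPolynomial Finset Pool.Agent.Helper1x.EQ

open BC in
theorem t_BC2 : S_BC2 := by
  intro F _ V A _ _ _ _ ι _ _ H t M ht hdet hM
  exact ⟨AlgebraicClosure F, inferInstance, inferInstance,
    fun L i a => Units.map (algebraMap F (AlgebraicClosure F) : F →* AlgebraicClosure F) (t L i a),
    M.map (MvPolynomial.map (algebraMap F (AlgebraicClosure F))), generic_map _ H t ht,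
    fun _ _ => degree_map _ _, by rw [det_map, hdet, Z_map],
    equiv_map _ _ _ (gauge_map _ t) M hM⟩

end Pool.Agent.HS38.GT
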