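import Pool.Agent.HS38.GT.Stm2

/-!
# Project GT, part 2, piece BIN
-/

set_option autoImplicit false

namespace Pool.Agent.HS38.GT.BIN

open Finset

theorem choose_bd (n e : ℕ) (he : e ≤ n) (x : ℝ) (hx : 0 < x) :
    (n.choose e : ℝ) * x ^ e ≤ (1 + x) ^ n := by
  rw [add_comm, add_pow]
  have h1 := Finset.single_le_sum (f := fun k => x ^ k * 1 ^ (n - k) * (n.choose k : ℝ))
    (fun k _ => by positivity) (Finset.mem_range.2 (Nat.lt_succ_of_le he))
  simp only [one_pow, mul_one] at h1 ⊢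
  rw [mul_comm]
  exact h1

theorem mid (n : ℕ) : 2 ^ n ≤ (n + 1) * n.choose (n / 2) := by
  rw [← Nat.sum_range_choose n]
  refine (Finset.sum_le_card_nsmul _ _ _ fun r _ => Nat.choose_le_middle r n).trans ?_
  rw [Finset.card_range, smul_eq_mul]

end Pool.Agent.HS38.GT.BIN

namespace Pool.Agent.HS38.GT

open Finset Pool.Agent.HS38.GT.BIN

theorem t_BIN : S_BIN := by
  intro δ hδ hδ1
  have hl2 : (1 : ℝ) / 2 < Real.log 2 := by
    have := Real.log_two_gt_d9
    linarith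
  set x : ℝ := δ / 8 with hx
  have hx0 : 0 < x := by positivity
  have hx1 : x < 1 := by rw [hx]; linarith
  have hlx : 0 < -Real.log x := by
    have := Real.log_neg hx0 hx1
    linarith
  have h1x : 1 + x ≤ (2 : ℝ) ^ (δ / 4) := by
    rw [Real.rpow_def_of_pos (by norm_num)]
    have h1 := Real.add_one_le_exp (Real.log 2 * (δ / 4))
    have h2 : x ≤ Real.log 2 * (δ / 4) := by rw [hx]; nlinarith
    linarith
  obtain ⟨ε, hε0, hε4, hεx⟩ : ∃ ε : ℝ, 0 < ε ∧ ε ≤ 1 / 4 ∧ x ^ (-ε) ≤ (2 : ℝ) ^ (δ / 4) := by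
    refine ⟨min (1 / 4) (Real.log 2 * (δ / 4) / (-Real.log x)), ?_, min_le_left _ _, ?_⟩
    · apply lt_min (by norm_num)
      positivity
    · rw [Real.rpow_def_of_pos hx0, Real.rpow_def_of_pos (by norm_num : (0 : ℝ) < 2)]
      apply Real.exp_le_exp.2
      have h1 : min (1 / 4) (Real.log 2 * (δ / 4) / (-Real.log x)) * (-Real.log x) ≤
          Real.log 2 * (δ / 4) := by
        rw [← le_div_iff₀ hlx]
        exact min_le_right _ _
      linarith
  refine ⟨ε, hε0, by linarith, fun C => ?_⟩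
  have hr1 : (1 : ℝ) < (2 : ℝ) ^ (δ / 2) := Real.one_lt_rpow (by norm_num) (by positivity)
  have hlim := tendsto_pow_const_div_const_pow_of_one_lt 3 hr1
  have hev : ∀ᶠ n : ℕ in Filter.atTop, (n : ℝ) ^ 3 / ((2 : ℝ) ^ (δ / 2)) ^ n < 1 :=
    hlim.eventually_lt_const one_pos
  obtain ⟨n₁, hn₁⟩ := Filter.eventually_atTop.1 hev
  refine ⟨max n₁ (max 1 (2 * C)), fun n w h m hn hw hwn hh H => ?_⟩
  have hnn1 : n₁ ≤ n := (le_max_left _ _).trans hn
  have hn1 : 1 ≤ n := (le_max_left _ _).trans ((le_max_right _ _).trans hn)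
  have hn2C : 2 * C ≤ n := (le_max_right _ _).trans ((le_max_right _ _).trans hn)
  have hn0 : (0 : ℝ) < n := by exact_mod_cast hn1
  have hzw : n / 2 < w := by
    have h1 : (n / 2 : ℕ) ≤ (n : ℝ) / 2 := Nat.cast_div_le
    have h2 : ((n / 2 : ℕ) : ℝ) < w := by nlinarith
    exact_mod_cast h2
  have hH := H (n / 2) hzw
  have he : n - (w - n / 2) = n / 2 + (n - w) := by omega
  rw [he, Nat.choose_symm_add] at hH
  have hH2 : (n / 2 + (n - w)).choose (n - w) ≤ n.choose (n - w) :=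
    Nat.choose_le_choose _ (by omega)
  set e := n - w with he'
  have hee : (e : ℝ) ≤ ε * n := by
    have : (e : ℝ) = n - w := by rw [he', Nat.cast_sub hwn]
    rw [this]
    linarith
  have hch : (n.choose e : ℝ) ≤ (2 : ℝ) ^ (δ / 2 * n) := by
    have h1 := choose_bd n e (Nat.sub_le _ _) x hx0
    have h2 : (n.choose e : ℝ) ≤ (1 + x) ^ n * x ^ (-(e : ℝ)) := by
      rw [Real.rpow_neg hx0.le, Real.rpow_natCast, ← div_eq_mul_inv, le_div_iff₀ (by positivity)]
      exact h1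
    have h3 : (1 + x) ^ n ≤ (2 : ℝ) ^ (δ / 4 * n) := by
      rw [Real.rpow_mul (by norm_num), Real.rpow_natCast]
      exact pow_le_pow_left₀ (by positivity) h1x n
    have h4 : x ^ (-(e : ℝ)) ≤ (2 : ℝ) ^ (δ / 4 * n) := by
      calc x ^ (-(e : ℝ)) ≤ x ^ (-(ε * n)) :=
            Real.rpow_le_rpow_of_exponent_ge hx0 hx1.le (by linarith)
        _ = (x ^ (-ε)) ^ n := by
            rw [← Real.rpow_natCast, ← Real.rpow_mul hx0.le]
            congr 1
            ring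
        _ ≤ ((2 : ℝ) ^ (δ / 4)) ^ n := pow_le_pow_left₀ (by positivity) hεx n
        _ = (2 : ℝ) ^ (δ / 4 * n) := by rw [Real.rpow_mul (by norm_num), Real.rpow_natCast]
    calc (n.choose e : ℝ) ≤ (1 + x) ^ n * x ^ (-(e : ℝ)) := h2
      _ ≤ (2 : ℝ) ^ (δ / 4 * n) * (2 : ℝ) ^ (δ / 4 * n) :=
          mul_le_mul h3 h4 (by positivity) (by positivity)
      _ = (2 : ℝ) ^ (δ / 2 * n) := by
          rw [← Real.rpow_add (by norm_num)]
          congr 1
          ring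
  have hpoly : ((n : ℝ) + 1) * (C * n) ≤ (2 : ℝ) ^ (δ / 2 * n) := by
    have h1 := hn₁ n hnn1
    have h2 : (n : ℝ) ^ 3 ≤ (2 : ℝ) ^ (δ / 2 * n) := by
      rw [div_lt_one (by positivity)] at h1
      rw [Real.rpow_mul (by norm_num), Real.rpow_natCast]
      exact h1.le
    refine le_trans ?_ h2
    have h3 : (2 : ℝ) * C ≤ n := by exact_mod_cast hn2C
    have h4 : (1 : ℝ) ≤ n := by exact_mod_cast hn1
    have h5 : (0 : ℝ) ≤ C := Nat.cast_nonneg C
    calc ((n : ℝ) + 1) * (C * n) ≤ (2 * n) * (C * n) :=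
          mul_le_mul_of_nonneg_right (by linarith) (by positivity)
      _ = (2 * C) * n ^ 2 := by ring
      _ ≤ n * n ^ 2 := mul_le_mul_of_nonneg_right h3 (by positivity)
      _ = (n : ℝ) ^ 3 := by ring
  have hm0 : (0 : ℝ) ≤ m := Nat.cast_nonneg m
  have hfin : (2 : ℝ) ^ n ≤ (2 : ℝ) ^ (δ * n) * m := by
    have h1 : (2 : ℝ) ^ n ≤ ((n : ℝ) + 1) * (n.choose (n / 2) : ℝ) := by exact_mod_cast mid n
    have h2 : (n.choose (n / 2) : ℝ) ≤ (C * n) * m * (2 : ℝ) ^ (δ / 2 * n) := by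
      have h3 : (n.choose (n / 2) : ℝ) ≤ (h : ℝ) * m * (n.choose e : ℝ) := by
        exact_mod_cast hH.trans (Nat.mul_le_mul_left _ hH2)
      have h4 : (h : ℝ) ≤ C * n := by exact_mod_cast hh
      calc (n.choose (n / 2) : ℝ) ≤ (h : ℝ) * m * (n.choose e : ℝ) := h3
        _ ≤ (C * n) * m * (2 : ℝ) ^ (δ / 2 * n) :=
          mul_le_mul (mul_le_mul_of_nonneg_right h4 hm0) hch (by positivity) (by positivity)
    calc (2 : ℝ) ^ n ≤ ((n : ℝ) + 1) * (n.choose (n / 2) : ℝ) := h1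
      _ ≤ ((n : ℝ) + 1) * ((C * n) * m * (2 : ℝ) ^ (δ / 2 * n)) :=
          mul_le_mul_of_nonneg_left h2 (by positivity)
      _ = (((n : ℝ) + 1) * (C * n)) * ((2 : ℝ) ^ (δ / 2 * n) * m) := by ring
      _ ≤ (2 : ℝ) ^ (δ / 2 * n) * ((2 : ℝ) ^ (δ / 2 * n) * m) :=
          mul_le_mul_of_nonneg_right hpoly (by positivity)
      _ = (2 : ℝ) ^ (δ * n) * m := by
          rw [← mul_assoc, ← Real.rpow_add (by norm_num)]
          congr 2
          ring
  have e1 : (2 : ℝ) ^ ((1 - δ) * n) = (2 : ℝ) ^ n / (2 : ℝ) ^ (δ * n) := by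
    rw [← Real.rpow_natCast, ← Real.rpow_sub (by norm_num)]
    congr 1
    ring
  rw [e1, div_le_iff₀ (by positivity), mul_comm (m : ℝ)]
  exact hfin

end Pool.Agent.HS38.GT
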