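import Pool.Agent.HS38.GT.RegAutoF

/-!
# Gauge equivariant matrices with invertible constant part

With this case the lower bound holds for every polynomial which contains the monomials of the counting polynomial, so also
for limits of equivariant determinantal representations.
-/

set_option autoImplicit false

namespace Pool.Agent.HS38.GT

open MvPolynomial Finset Pool.Agent.Helper1x.EQ

namespace Bord

variable {V A : Type} [Fintype V] [DecidableEq V] [Fintype A] [DecidableEq A]

theorem cut_union_subset (H Y X : Finset (Finset V)) : cut H (Y ∪ X) ⊆ cut H Y ∪ X.biUnion id := by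
  intro i hi
  rw [cut, Finset.mem_filter] at hi
  obtain ⟨-, ⟨K, hK, hiK⟩, K', hK', hiK'⟩ := hi
  rw [Finset.mem_sdiff, Finset.mem_union, not_or] at hK'
  rw [Finset.mem_union] at hK ⊢
  rcases hK with hK | hK
  · left
    rw [cut, Finset.mem_filter]
    exact ⟨Finset.mem_univ _, ⟨K, hK, hiK⟩, K', Finset.mem_sdiff.2 ⟨hK'.1, hK'.2.1⟩, hiK'⟩
  · right
    exact Finset.mem_biUnion.2 ⟨K, hK, hiK⟩

theorem card_cut_union {H Y X : Finset (Finset V)} {k : ℕ} (hk : ∀ K ∈ X, K.card ≤ k) :
    (cut H (Y ∪ X)).card ≤ (cut H Y).card + k * X.card := by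
  refine (Finset.card_le_card (cut_union_subset H Y X)).trans ((Finset.card_union_le _ _).trans ?_)
  refine Nat.add_le_add_left ?_ _
  rw [mul_comm]
  exact Finset.card_biUnion_le_card_mul _ _ _ fun K hK => hk K hK

theorem narrow_add {H Y U : Finset (Finset V)} {w k d : ℕ} (hk : ∀ K ∈ H, K.card ≤ k) (hY : Narrow H univ w Y)
    (h1 : (cut H Y).card + k * d < w) (hU : U ⊆ H) (hUd : U.card ≤ d + 1) (h2 : (cut H (Y ∪ U)).card < w) :
    Narrow H univ w (Y ∪ U) := by
  have h3 : ∀ X : Finset (Finset V), X ⊆ U → X.card ≤ d → Narrow H univ w (Y ∪ X) := by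
    intro X
    induction X using Finset.induction_on with
    | empty =>
      intro _ _
      rw [Finset.union_empty]
      exact hY
    | insert K X hKX ih =>
      intro hX hXd
      have h4 : Y ∪ insert K X = insert K (Y ∪ X) := by
        ext; simp only [Finset.mem_union, Finset.mem_insert]; tauto
      have h5 := ih ((Finset.subset_insert _ _).trans hX) (by rw [Finset.card_insert_of_notMem hKX] at hXd; omega)
      rw [h4]
      refine Narrow.step _ K h5 (hU (hX (Finset.mem_insert_self _ _))) ?_
      rw [Finset.inter_univ, ← h4]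
      have h6 : (cut H (Y ∪ insert K X)).card ≤ (cut H Y).card + k * (insert K X).card :=
        card_cut_union fun K' hK' => hk K' (hU (hX hK'))
      have h7 : k * (insert K X).card ≤ k * d := Nat.mul_le_mul_left _ hXd
      omega
  rcases Nat.lt_or_ge d U.card with h4 | h4
  · obtain ⟨K, hK⟩ : U.Nonempty := Finset.card_pos.1 (by omega)
    have h5 : Y ∪ U = insert K (Y ∪ U.erase K) := by
      ext x
      simp only [Finset.mem_union, Finset.mem_insert, Finset.mem_erase]
      constructor
      · intro h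
        by_cases hx : x = K
        · exact Or.inl hx
        · rcases h with h | h
          · exact Or.inr (Or.inl h)
          · exact Or.inr (Or.inr ⟨hx, h⟩)
      · rintro (h | h | h)
        · rw [h]; exact Or.inr hK
        · exact Or.inl h
        · exact Or.inr h.2
    rw [h5]
    refine Narrow.step _ K (h3 _ (Finset.erase_subset _ _) (by rw [Finset.card_erase_of_mem hK]; omega)) (hU hK) ?_
    rw [Finset.inter_univ, ← h5]
    exact h2
  · exact h3 U (Finset.Subset.refl _) h4

/-- a chain of sets with small steps passes a large cut -/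
theorem exists_wide {H : Finset (Finset V)} {k d : ℕ} (hk : ∀ K ∈ H, K.card ≤ k) (h0 : k * d < lwidth H)
    (Y : ℕ → Finset (Finset V)) (U : ℕ → Finset (Finset V)) (hY0 : Y 0 = ∅) (hYs : ∀ s, Y (s + 1) = Y s ∪ U s)
    (hU : ∀ s, U s ⊆ H) (hUd : ∀ s, (U s).card ≤ d + 1) {n : ℕ} (hn : Y n = H) :
    ∃ s ≤ n, lwidth H - k * d ≤ (cut H (Y s)).card := by
  by_contra hcon
  push Not at hcon
  have h1 : ∀ s ≤ n, Narrow H univ (lwidth H) (Y s) := by
    intro s
    induction s with
    | zero =>
      intro _
      rw [hY0]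
      exact Narrow.empty (by omega)
    | succ s ih =>
      intro hs
      rw [hYs]
      refine narrow_add (d := d) hk (ih (by omega)) ?_ (hU s) (hUd s) ?_
      · have := hcon s (by omega)
        omega
      · rw [← hYs]
        have := hcon (s + 1) hs
        omega
  have h2 := h1 n le_rfl
  rw [hn] at h2
  have := t_NLIST V H (lwidth H) h2
  omega

/-- going around a cycle of a permutation -/
theorem cycle {F : Type} [Field F] {ι : Type} [Fintype ι] [DecidableEq ι] {H : Finset (Finset V)}
    {t : Finset V → V → A → Fˣ} {a : V → A} (htriv : ∀ U ⊆ H, wt t U a ^ 2 = 1 → U = ∅ ∨ U = H) {ψ : ι → Fˣ}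
    (σ : Equiv.Perm ι) (U : ι → Finset (Finset V)) (hU : ∀ l, U l ⊆ H) (hdis : ∀ l l', l ≠ l' → Disjoint (U l) (U l'))
    (hψ : ∀ l, ψ l = wt t (U l) a ^ 2 * ψ (σ l)) {l₁ : ι} (hl₁ : (U l₁).Nonempty) {k d : ℕ}
    (hk : ∀ K ∈ H, K.card ≤ k) (h0 : k * d < lwidth H) (hUd : ∀ l, (U l).card ≤ d + 1) :
    ∃ (l₂ : ι) (Y : Finset (Finset V)), Y ⊆ H ∧ lwidth H - k * d ≤ (cut H Y).card ∧ ψ l₁ = wt t Y a ^ 2 * ψ l₂ := by
  classical
  have hex : ∃ n, 1 ≤ n ∧ (σ ^ n) l₁ = l₁ := ⟨orderOf σ, orderOf_pos σ, by rw [pow_orderOf_eq_one]; rfl⟩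
  set n := Nat.find hex with hn
  have hn1 : 1 ≤ n := (Nat.find_spec hex).1
  have hn2 : (σ ^ n) l₁ = l₁ := (Nat.find_spec hex).2
  have hinj : ∀ r s, r < s → s < n → (σ ^ r) l₁ ≠ (σ ^ s) l₁ := by
    intro r s hrs hsn h
    have h1 : σ ^ s = σ ^ r * σ ^ (s - r) := by rw [← pow_add]; congr 1; omega
    rw [h1, Equiv.Perm.mul_apply] at h
    have h2 := (σ ^ r).injective h
    have h3 := Nat.find_min' hex (m := s - r) ⟨by omega, h2.symm⟩
    omega
  set Y : ℕ → Finset (Finset V) := fun s => (Finset.range s).biUnion fun r => U ((σ ^ r) l₁) with hY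
  have hY0 : Y 0 = ∅ := by simp [hY]
  have hYs : ∀ s, Y (s + 1) = Y s ∪ U ((σ ^ s) l₁) := by
    intro s
    simp only [hY]
    rw [Finset.range_add_one, Finset.biUnion_insert, Finset.union_comm]
  have hYH : ∀ s, Y s ⊆ H := by
    intro s
    simp only [hY]
    exact Finset.biUnion_subset.2 fun r _ => hU _
  have hrel : ∀ s, s ≤ n → ψ l₁ = wt t (Y s) a ^ 2 * ψ ((σ ^ s) l₁) := by
    intro s
    induction s with
    | zero =>
      intro _
      rw [hY0]
      simp [wt]
    | succ s ih =>
      intro hs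
      have h1 := ih (by omega)
      have h2 : Disjoint (Y s) (U ((σ ^ s) l₁)) := by
        simp only [hY]
        rw [Finset.disjoint_biUnion_left]
        intro r hr
        exact hdis _ _ (hinj r s (Finset.mem_range.1 hr) (by omega))
      have h3 : wt t (Y (s + 1)) a = wt t (Y s) a * wt t (U ((σ ^ s) l₁)) a := by
        rw [hYs]
        unfold wt
        rw [Finset.prod_union h2]
      have h4 : (σ ^ (s + 1)) l₁ = σ ((σ ^ s) l₁) := by
        rw [add_comm, pow_add, pow_one, Equiv.Perm.mul_apply]
      rw [h1, hψ ((σ ^ s) l₁), h3, h4, mul_pow]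
      simp only [mul_assoc]
  have hYn : Y n = H := by
    have h1 := hrel n le_rfl
    rw [hn2] at h1
    have h2 : wt t (Y n) a ^ 2 = 1 := by
      have h3 : (1 : Fˣ) * ψ l₁ = wt t (Y n) a ^ 2 * ψ l₁ := by rw [one_mul]; exact h1
      exact (mul_right_cancel h3).symm
    rcases htriv _ (hYH n) h2 with h3 | h3
    · exfalso
      obtain ⟨K, hK⟩ := hl₁
      have h4 : K ∈ Y n := by
        simp only [hY]
        exact Finset.mem_biUnion.2 ⟨0, Finset.mem_range.2 (by omega), by simpa using hK⟩
      rw [h3] at h4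
      exact absurd h4 (Finset.notMem_empty _)
    · exact h3
  obtain ⟨s, hs, hcut⟩ := exists_wide hk h0 Y (fun s => U ((σ ^ s) l₁)) hY0 hYs (fun s => hU _) (fun s => hUd _) hYn
  exact ⟨(σ ^ s) l₁, Y s, hYH s, hcut, hrel s hs⟩

end Bord

variable {V A : Type} [Fintype V] [DecidableEq V] [Fintype A] [DecidableEq A]

open Bord in
/-- matrices with invertible constant part over an algebraically closed field -/
theorem inv_lower {K : Type} [Field K] [IsAlgClosed K] {ι : Type} [Fintype ι] [DecidableEq ι] {H : Finset (Finset V)}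
    (h1 : CutGe H 1) {t : Finset V → V → A → Kˣ} (hg : Generic4 H t)
    {M : Matrix ι ι (MvPolynomial (V → Option A) K)} {d k : ℕ} (hk : ∀ K ∈ H, K.card ≤ k)
    (hdeg : ∀ i j, (M i j).totalDegree ≤ d + 1)
    (hf : ∀ a : V → A, coeff (mono (H.image fun K => restr K a)) M.det ≠ 0)
    (hconst : constantCoeff M.det ≠ 0) (hEq : Equivariant (gauge t) M) (hne : H.Nonempty) (h0 : k * d < lwidth H)
    (hA : Nonempty A) :
    Fintype.card A ^ (lwidth H - k * d) ≤ Fintype.card ι ^ 2 := by
  classical
  obtain ⟨B, C', hB, hC', hN⟩ := strict_sq hEq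
  set c : (V → Option A) → K := gauge (sqg t) with hc
  have hc0 : ∀ x, c x ≠ 0 := fun x => Units.ne_zero _
  set D : Matrix ι ι K := C'⁻¹ with hD
  have hDu : IsUnit D.det := by rw [hD, Matrix.isUnit_nonsing_inv_det_iff]; exact hC'
  set L : Matrix ι ι K := M.map constantCoeff with hL
  have hcoef : ∀ m : (V → Option A) →₀ ℕ, B * M.map (coeff m) = (m.prod fun x n => c x ^ n) • (M.map (coeff m) * D) := by
    intro m
    have h2 : (m.prod fun x n => c x ^ n) • M.map (coeff m) = B * M.map (coeff m) * C' := by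
      ext i j
      have h3 := congrArg (coeff m) (congrFun (congrFun hN i) j)
      rw [Matrix.map_apply, coeff_scale] at h3
      rw [Matrix.smul_apply, Matrix.map_apply, smul_eq_mul, h3, Matrix.mul_apply, Matrix.mul_apply, coeff_sum]
      refine Finset.sum_congr rfl fun k _ => ?_
      rw [Matrix.map_apply, coeff_mul_C, Matrix.mul_apply, Matrix.mul_apply, coeff_sum]
      congr 1
      refine Finset.sum_congr rfl fun k' _ => ?_
      rw [Matrix.map_apply, coeff_C_mul, Matrix.map_apply]
    rw [← Matrix.smul_mul, h2, Matrix.mul_assoc, hD, Matrix.mul_nonsing_inv _ hC', Matrix.mul_one]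
  have hL0 : M.map (coeff 0) = L := rfl
  have hBL : B * L = L * D := by
    have h2 := hcoef 0
    rw [hL0] at h2
    simpa using h2
  obtain ⟨P, Q, ψ, β, Sp, hPu, hQu, hcard, hdiag, hoff, hgr⟩ := t_GBAS K ι L B D hB hDu hBL
  have hLdet : L.det ≠ 0 := by
    have h5 := RingHom.map_det (constantCoeff (σ := V → Option A) (R := K)) M
    rw [RingHom.mapMatrix_apply] at h5
    rw [hL, ← h5]
    exact hconst
  have hrank : L.rank = Fintype.card ι :=
    Matrix.rank_of_isUnit L ((Matrix.isUnit_iff_isUnit_det _).2 (isUnit_iff_ne_zero.2 hLdet))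
  have hSp : Sp = ∅ := by
    rw [← Finset.card_eq_zero]
    omega
  have hone : P * L * Q = 1 := by
    rw [hdiag, hSp]
    simp
  have hβψ : ∀ l, β l = ψ l := fun l => hoff l (by rw [hSp]; exact Finset.notMem_empty _)
  set N : Matrix ι ι (MvPolynomial (V → Option A) K) := P.map MvPolynomial.C * M * Q.map MvPolynomial.C with hNdef
  have hmapC : ∀ S : Matrix ι ι K, (S.map MvPolynomial.C : Matrix ι ι (MvPolynomial (V → Option A) K)).det =
      MvPolynomial.C S.det := by
    intro S
    rw [RingHom.map_det, RingHom.mapMatrix_apply]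
  have hNdet : N.det = MvPolynomial.C (P.det * Q.det) * M.det := by
    rw [hNdef, Matrix.det_mul, Matrix.det_mul, hmapC, hmapC, map_mul]
    ring
  have hNc : ∀ m l b, coeff m (N l b) = (P * M.map (coeff m) * Q) l b := by
    intro m l b
    rw [hNdef, Matrix.mul_apply, Matrix.mul_apply, coeff_sum]
    refine Finset.sum_congr rfl fun k _ => ?_
    rw [Matrix.map_apply, coeff_mul_C, Matrix.mul_apply, Matrix.mul_apply, coeff_sum]
    congr 1
    refine Finset.sum_congr rfl fun k' _ => ?_
    rw [Matrix.map_apply, coeff_C_mul, Matrix.map_apply]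
  have hκ : P.det * Q.det ≠ 0 := mul_ne_zero hPu.ne_zero hQu.ne_zero
  -- for every assignment a pair of indices and a set of scopes with a large cut
  have hstep : ∀ a : V → A, ∃ (p : ι × ι) (Y : Finset (Finset V)), Y ⊆ H ∧ lwidth H - k * d ≤ (cut H Y).card ∧
      ψ p.1 = wt t Y a ^ 2 * ψ p.2 := by
    intro a
    obtain ⟨σ, U, hU1, hU2, hU3, hU4⟩ := perm_f H N a (by rw [hNdet, coeff_C_mul]; exact mul_ne_zero hκ (hf a))
    have hψ : ∀ l, ψ l = wt t (U l) a ^ 2 * ψ (σ l) := by
      intro l
      have h2 := hU4 l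
      rw [hNc] at h2
      have hχ : ((mono ((U l).image fun K => restr K a)).prod fun x n => c x ^ n) ≠ 0 := by
        rw [Finsupp.prod]
        exact Finset.prod_ne_zero_iff.2 fun x _ => pow_ne_zero _ (hc0 x)
      have h3 := hgr _ _ hχ (hcoef _) l (σ l) h2
      rw [mono_prod, hc, prod_gauge, wt_sqg] at h3
      rw [← hβψ l]
      exact Units.ext (by rw [h3, Units.val_mul])
    have hUd : ∀ l, (U l).card ≤ d + 1 := by
      intro l
      have h2 := hU4 l
      rw [hNc] at h2
      have h3 : M.map (coeff (mono ((U l).image fun K => restr K a))) ≠ 0 := by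
        intro h
        rw [h, Matrix.mul_zero, Matrix.zero_mul] at h2
        exact h2 rfl
      obtain ⟨i, j, hij⟩ : ∃ i j, coeff (mono ((U l).image fun K => restr K a)) (M i j) ≠ 0 := by
        by_contra hcon
        push Not at hcon
        exact h3 (Matrix.ext hcon)
      have h4 := (le_totalDegree (mem_support_iff.2 hij)).trans (hdeg i j)
      have h5 : ((mono ((U l).image fun K => restr K a)).sum fun _ e => e) = (U l).card := by
        have h6 : ((mono ((U l).image fun K => restr K a)).sum fun _ e => e) =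
            (mono ((U l).image fun K => restr K a)).degree := rfl
        rw [h6, mono_eq_sum, map_sum]
        simp
      omega
    obtain ⟨K₀, hK₀⟩ := hne
    obtain ⟨l₁, hl₁⟩ := hU3 K₀ hK₀
    obtain ⟨l₂, Y, h5, h6, h7⟩ := cycle (trivial_of_wt hg h1 a) σ U hU1 hU2 hψ ⟨K₀, hl₁⟩ hk h0 hUd
    exact ⟨(l₁, l₂), Y, h5, h6, h7⟩
  choose p U hUH hUc hUr using hstep
  set w₁ := lwidth H - k * d with hw₁
  have hwn : w₁ ≤ Fintype.card V := le_trans (Nat.sub_le _ _) (lwidth_le H)
  have hfib : ∀ r ∈ (univ : Finset (ι × ι)),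
      ((univ : Finset (V → A)).filter fun a => p a = r).card ≤ Fintype.card A ^ (Fintype.card V - w₁) := by
    intro r _
    rcases ((univ : Finset (V → A)).filter fun a => p a = r).eq_empty_or_nonempty with h5 | ⟨a, ha⟩
    · rw [h5, Finset.card_empty]
      exact Nat.zero_le _
    obtain ⟨c, hc1, hc2⟩ := Finset.exists_subset_card_eq (hUc a)
    have h6 : ((univ : Finset (V → A)).filter fun a => p a = r) ⊆
        Fintype.piFinset fun i => if i ∈ c then {a i} else univ := by
      intro a' ha'
      rw [Fintype.mem_piFinset]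
      intro i
      split_ifs with hi
      · rw [Finset.mem_singleton]
        have h7 : wt t (U a) a ^ 2 = wt t (U a') a' ^ 2 := by
          have h8 := hUr a
          have h9 := hUr a'
          rw [(Finset.mem_filter.1 ha).2] at h8
          rw [(Finset.mem_filter.1 ha').2] at h9
          exact mul_right_cancel (h8.symm.trans h9)
        have hic := hc1 hi
        rw [cut, Finset.mem_filter] at hic
        obtain ⟨-, ⟨K₁, hK₁, hiK₁⟩, K₂, hK₂, hiK₂⟩ := hic
        rw [Finset.mem_sdiff] at hK₂
        have h8 := gen_powF hg.toF (hUH a) (hUH a') a a' h7 i (a i) K₁ (hUH a hK₁) hiK₁ K₂ hK₂.1 hiK₂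
        by_contra hcon2
        simp [ex, hK₁, hK₂.2, hcon2] at h8
      · exact Finset.mem_univ _
    refine (Finset.card_le_card h6).trans ?_
    rw [Fintype.card_piFinset]
    have h7 : ∀ i, (if i ∈ c then ({a i} : Finset A) else univ).card = if i ∈ c then 1 else Fintype.card A := by
      intro i
      split_ifs
      · exact Finset.card_singleton _
      · exact Finset.card_univ
    rw [Finset.prod_congr rfl fun i _ => h7 i, Finset.prod_ite, Finset.prod_const_one, one_mul, Finset.prod_const]
    have h8 : (univ.filter fun i => ¬ i ∈ c) = cᶜ := by ext; simp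
    rw [h8, Finset.card_compl, hc2]
  have h2 := Finset.card_le_mul_card_image_of_maps_to (s := (univ : Finset (V → A)))
    (t := (univ : Finset (ι × ι))) (f := p) (fun a _ => Finset.mem_univ _) _ hfib
  rw [Finset.card_univ, Fintype.card_fun, Finset.card_univ, Fintype.card_prod, ← pow_two] at h2
  have h3 : Fintype.card A ^ Fintype.card V = Fintype.card A ^ (Fintype.card V - w₁) * Fintype.card A ^ w₁ := by
    rw [← pow_add]
    congr 1
    omega
  rw [h3] at h2
  exact Nat.le_of_mul_le_mul_left h2 (pow_pos Fintype.card_pos _)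

/-- **The lower bound without a condition on the constant term.** -/
theorem lower_sq {F : Type} [Field F] {ι : Type} [Fintype ι] [DecidableEq ι] {H : Finset (Finset V)}
    (hH1 : ∀ i, ∃ K ∈ H, i ∈ K) (h1 : CutGe H 1) (hq : 3 ≤ Fintype.card A ∨ 2 ≤ Fintype.card A ∧ CutGe H 2)
    {t : Finset V → V → A → Fˣ} (hg : Generic4 H t) {M : Matrix ι ι (MvPolynomial (V → Option A) F)} {d k : ℕ}
    (hk : ∀ K ∈ H, K.card ≤ k) (hdeg : ∀ i j, (M i j).totalDegree ≤ d + 1)
    (hf : ∀ a : V → A, coeff (∑ K ∈ H, Finsupp.single (restr K a) 1) M.det ≠ 0)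
    (hEq : Equivariant (gauge t) M) (hne : H.Nonempty) :
    Fintype.card A ^ (lwidth H - k * d) ≤ Fintype.card ι ^ 2 := by
  have hA : Nonempty A := Fintype.card_pos_iff.1 (by omega)
  have hι : 1 ≤ Fintype.card ι := by
    rw [Nat.one_le_iff_ne_zero]
    intro h
    have h2 : IsEmpty ι := Fintype.card_eq_zero_iff.1 h
    obtain ⟨o⟩ := hA
    have h3 := hf (fun _ => o)
    rw [Matrix.det_isEmpty, coeff_one, if_neg] at h3
    · exact h3 rfl
    · intro h4
      obtain ⟨K, hK⟩ := hne
      have h5 := congrArg (fun u : (V → Option A) →₀ ℕ => u (restr K (fun _ => o))) h4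
      simp only [Finsupp.coe_zero, Pi.zero_apply, Finsupp.finsetSum_apply] at h5
      have h6 := Finset.sum_eq_zero_iff.1 h5.symm K hK
      simp at h6
  rcases Nat.eq_zero_or_pos (lwidth H - k * d) with h0 | h0
  · rw [h0, pow_zero]
    exact Nat.one_le_pow _ _ hι
  by_cases hconst : constantCoeff M.det = 0
  · refine (exact_lower_f hH1 h1 hq hg hk hdeg hf hconst hEq hne).trans ?_
    rw [pow_two]
    exact Nat.le_mul_self _
  have hf' : ∀ a : V → A, coeff (mono (H.image fun K => restr K a)) M.det ≠ 0 := by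
    intro a
    rw [mono_eq_sum]
    exact hf a
  set f := algebraMap F (AlgebraicClosure F) with hfdef
  have hinj : Function.Injective f := f.injective
  have hf2 : ∀ a : V → A, coeff (mono (H.image fun K => restr K a)) (M.map (MvPolynomial.map f)).det ≠ 0 := by
    intro a h
    rw [BC.det_map, MvPolynomial.coeff_map] at h
    exact hf' a (hinj (h.trans (map_zero f).symm))
  have hc2 : constantCoeff (M.map (MvPolynomial.map f)).det ≠ 0 := by
    rw [BC.det_map, MvPolynomial.constantCoeff_map]
    intro h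
    exact hconst (hinj (h.trans (map_zero f).symm))
  exact inv_lower h1 (BC.generic_map f H t hg) hk (fun i j => (BC.degree_map f _).trans (hdeg i j)) hf2 hc2
    (BC.equiv_map f (gauge t) _ (BC.gauge_map f t) M hEq) hne (by omega) hA

end Pool.Agent.HS38.GT
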