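import Pool.Agent.HS38.GT.Stm

/-!
# Piece CLOW of project GT: the lower bound for gauge homogeneous programs
-/

set_option autoImplicit false

namespace Pool.Agent.HS38.GT

open MvPolynomial Finset Pool.Agent.Helper1x.EQ

namespace Clow

variable {V A : Type} [Fintype V] [DecidableEq V] [Fintype A] [DecidableEq A]

/-- the monomial of the restrictions of `a` to the scopes in `U` -/
noncomputable def mm (a : V → A) (U : Finset (Finset V)) : (V → Option A) →₀ ℕ :=
  ∑ K ∈ U, Finsupp.single (restr K a) 1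

theorem scope_restr (K : Finset V) (a : V → A) : scope (restr K a) = K := by
  ext i
  simp only [scope, restr, mem_filter, mem_univ, true_and]
  by_cases h : i ∈ K <;> simp [h]

theorem restr_eq {K K' : Finset V} {a a' : V → A} (h : restr K a = restr K' a') :
    K = K' ∧ ∀ i ∈ K, a i = a' i := by
  have h1 : K = K' := by
    rw [← scope_restr K a, ← scope_restr K' a', h]
  subst h1
  refine ⟨rfl, fun i hi => ?_⟩
  have h2 := congrFun h i
  simp only [restr, hi, if_true, Option.some.injEq] at h2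
  exact h2

theorem mm_apply (a : V → A) (U : Finset (Finset V)) (β : V → Option A) :
    mm a U β = if scope β ∈ U ∧ β = restr (scope β) a then 1 else 0 := by
  unfold mm
  rw [Finsupp.finset_sum_apply]
  by_cases h : scope β ∈ U ∧ β = restr (scope β) a
  · rw [if_pos h, Finset.sum_eq_single (scope β)]
    · rw [← h.2, Finsupp.single_eq_same]
    · intro K _ hK
      rw [Finsupp.single_apply, if_neg]
      intro h'
      apply hK
      rw [← h', scope_restr]
    · intro h'
      exact absurd h.1 h'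
  · rw [if_neg h]
    apply Finset.sum_eq_zero
    intro K hK
    rw [Finsupp.single_apply, if_neg]
    intro h'
    apply h
    rw [← h', scope_restr]
    exact ⟨hK, rfl⟩

theorem mm_restr (a : V → A) (U : Finset (Finset V)) (K : Finset V) :
    mm a U (restr K a) = if K ∈ U then 1 else 0 := by
  rw [mm_apply, scope_restr]
  simp

theorem mm_le_one (a : V → A) (U : Finset (Finset V)) (β : V → Option A) : mm a U β ≤ 1 := by
  rw [mm_apply]
  split_ifs <;> simp

/-- the summands of `mm a U` -/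
theorem mm_split {a : V → A} {U : Finset (Finset V)} {u v : (V → Option A) →₀ ℕ}
    (h : u + v = mm a U) : ∃ U₁ U₂ : Finset (Finset V), U₁ ∪ U₂ = U ∧ Disjoint U₁ U₂ ∧
      u = mm a U₁ ∧ v = mm a U₂ := by
  classical
  have hval : ∀ β, u β + v β = mm a U β := fun β => by rw [← h]; rfl
  refine ⟨U.filter fun K => u (restr K a) = 1, U.filter fun K => ¬ u (restr K a) = 1,
    Finset.filter_union_filter_not_eq _ _, Finset.disjoint_filter_filter_not _ _ _, ?_, ?_⟩
  · ext β
    rw [mm_apply]
    have h1 := hval β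
    rw [mm_apply] at h1
    by_cases hc : scope β ∈ U ∧ β = restr (scope β) a
    · rw [if_pos hc] at h1
      by_cases h2 : u β = 1
      · rw [if_pos, h2]
        refine ⟨?_, hc.2⟩
        rw [mem_filter, ← hc.2]
        exact ⟨hc.1, h2⟩
      · rw [if_neg]
        · omega
        · rintro ⟨h3, _⟩
          rw [mem_filter, ← hc.2] at h3
          exact h2 h3.2
    · rw [if_neg hc] at h1
      rw [if_neg]
      · omega
      · rintro ⟨h3, h4⟩
        exact hc ⟨(mem_filter.mp h3).1, h4⟩
  · ext β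
    rw [mm_apply]
    have h1 := hval β
    rw [mm_apply] at h1
    by_cases hc : scope β ∈ U ∧ β = restr (scope β) a
    · rw [if_pos hc] at h1
      by_cases h2 : u β = 1
      · rw [if_neg]
        · omega
        · rintro ⟨h3, _⟩
          rw [mem_filter, ← hc.2] at h3
          exact h3.2 h2
      · rw [if_pos]
        · omega
        · refine ⟨?_, hc.2⟩
          rw [mem_filter, ← hc.2]
          exact ⟨hc.1, h2⟩
    · rw [if_neg hc] at h1
      rw [if_neg]
      · omega
      · rintro ⟨h3, h4⟩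
        exact hc ⟨(mem_filter.mp h3).1, h4⟩

theorem mm_ne_zero {a : V → A} {U : Finset (Finset V)} (hU : U.Nonempty) : mm a U ≠ 0 := by
  obtain ⟨K, hK⟩ := hU
  intro h
  have h1 := mm_restr a U K
  rw [h, if_pos hK] at h1
  simp at h1

theorem mm_eq_single {a : V → A} {U : Finset (Finset V)} (hU : U.Nonempty) {x : V → Option A}
    (h : mm a U = Finsupp.single x 1) : ∃ K, U = {K} := by
  obtain ⟨K, hK⟩ := hU
  refine ⟨K, ?_⟩
  have hx : ∀ K' ∈ U, x = restr K' a := by
    intro K' hK'
    by_contra hne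
    have h1 := mm_restr a U K'
    rw [h, if_pos hK', Finsupp.single_apply, if_neg hne] at h1
    exact zero_ne_one h1
  ext K'
  rw [mem_singleton]
  constructor
  · intro hK'
    exact (restr_eq ((hx K' hK').symm.trans (hx K hK))).1
  · rintro rfl
    exact hK

section coeffs

variable {F : Type} [Field F]

theorem coeff_Sp {σ : Type} {l : List (MvPolynomial σ F × MvPolynomial σ F)} {f : MvPolynomial σ F}
    (hf : f ∈ Sp l) {u : σ →₀ ℕ} (hu : coeff u f ≠ 0) :
    u = 0 ∨ (∃ x, u = Finsupp.single x 1) ∨ ∃ s ∈ l, coeff u (s.1 * s.2) ≠ 0 := by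
  classical
  by_contra hcon
  push Not at hcon
  obtain ⟨h0, h1, h2⟩ := hcon
  apply hu
  have : Sp l ≤ LinearMap.ker (lcoeff F u) := by
    unfold Sp
    rw [Submodule.span_le]
    rintro p ((hp | ⟨x, rfl⟩) | ⟨s, hs, rfl⟩)
    · rw [Set.mem_singleton_iff] at hp
      subst hp
      simp only [SetLike.mem_coe, LinearMap.mem_ker, lcoeff_apply, coeff_one]
      rw [if_neg (Ne.symm h0)]
    · simp only [SetLike.mem_coe, LinearMap.mem_ker, lcoeff_apply]
      rw [coeff_X', if_neg]
      exact fun h => h1 x h.symm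
    · simp only [SetLike.mem_coe, LinearMap.mem_ker, lcoeff_apply]
      exact h2 s hs
  exact LinearMap.mem_ker.mp (this hf)

theorem mul_mem_Sp {σ : Type} {l : List (MvPolynomial σ F × MvPolynomial σ F)}
    {s : MvPolynomial σ F × MvPolynomial σ F} (hs : s ∈ l) : s.1 * s.2 ∈ Sp l :=
  Submodule.subset_span (Or.inr ⟨s, hs, rfl⟩)

theorem coeff_mm_mul {a : V → A} {U : Finset (Finset V)} {g h : MvPolynomial (V → Option A) F}
    (hc : coeff (mm a U) (g * h) ≠ 0) : ∃ U₁ U₂ : Finset (Finset V), U₁ ∪ U₂ = U ∧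
      Disjoint U₁ U₂ ∧ coeff (mm a U₁) g ≠ 0 ∧ coeff (mm a U₂) h ≠ 0 := by
  classical
  rw [coeff_mul] at hc
  obtain ⟨⟨u, v⟩, huv, hne⟩ := Finset.exists_ne_zero_of_sum_ne_zero hc
  rw [Finset.HasAntidiagonal.mem_antidiagonal] at huv
  obtain ⟨U₁, U₂, h1, h2, rfl, rfl⟩ := mm_split huv
  exact ⟨U₁, U₂, h1, h2, left_ne_zero_of_mul hne, right_ne_zero_of_mul hne⟩

/-- `a` is served by the product step `s` -/
def Good (H : Finset (Finset V)) (w : ℕ) (a : V → A)
    (s : MvPolynomial (V → Option A) F × MvPolynomial (V → Option A) F) (U₁ U₂ : Finset (Finset V)) :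
    Prop :=
  U₁ ⊆ H ∧ U₂ ⊆ H ∧ coeff (mm a U₁) s.1 ≠ 0 ∧ coeff (mm a U₂) s.2 ≠ 0 ∧
    w ≤ (cut H U₁ ∪ cut H U₂).card

theorem claim (H : Finset (Finset V)) {w : ℕ} (hw : 1 ≤ w) (a : V → A) :
    ∀ l : List (MvPolynomial (V → Option A) F × MvPolynomial (V → Option A) F), Valid l →
      ∀ f ∈ Sp l, ∀ U : Finset (Finset V), U.Nonempty → U ⊆ H → coeff (mm a U) f ≠ 0 →
      (∃ s ∈ l, ∃ U₁ U₂, Good H w a s U₁ U₂) ∨
        ∃ T : CTree V, T.Proper ∧ T.leaves = U ∧ T.width H < w := by
  intro l
  induction l with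
  | nil =>
    intro _ f hf U hU _ hc
    right
    rcases coeff_Sp hf hc with h | ⟨x, h⟩ | ⟨s, hs, _⟩
    · exact absurd h (mm_ne_zero hU)
    · obtain ⟨K, rfl⟩ := mm_eq_single hU h
      exact ⟨CTree.leaf K, trivial, rfl, hw⟩
    · simp at hs
  | cons s l ih =>
    intro hl f hf U hU hUH hc
    obtain ⟨hl', hs1, hs2⟩ := hl
    have lift : ((∃ s ∈ l, ∃ U₁ U₂, Good H w a s U₁ U₂) ∨
        ∃ T : CTree V, T.Proper ∧ T.leaves = U ∧ T.width H < w) →
      ((∃ s' ∈ s :: l, ∃ U₁ U₂, Good H w a s' U₁ U₂) ∨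
        ∃ T : CTree V, T.Proper ∧ T.leaves = U ∧ T.width H < w) := by
      rintro (⟨s', hs', h⟩ | h)
      · exact Or.inl ⟨s', List.mem_cons_of_mem _ hs', h⟩
      · exact Or.inr h
    rcases coeff_Sp hf hc with h | ⟨x, h⟩ | ⟨s', hs', h⟩
    · exact absurd h (mm_ne_zero hU)
    · right
      obtain ⟨K, rfl⟩ := mm_eq_single hU h
      exact ⟨CTree.leaf K, trivial, rfl, hw⟩
    · rcases List.mem_cons.mp hs' with rfl | hs''
      · obtain ⟨U₁, U₂, hun, hdis, h1, h2⟩ := coeff_mm_mul h
        rcases U₁.eq_empty_or_nonempty with rfl | hU₁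
        · rw [empty_union] at hun
          subst hun
          exact lift (ih hl' _ hs2 _ hU hUH h2)
        rcases U₂.eq_empty_or_nonempty with rfl | hU₂
        · rw [union_empty] at hun
          subst hun
          exact lift (ih hl' _ hs1 _ hU hUH h1)
        have hH₁ : U₁ ⊆ H := (hun ▸ subset_union_left).trans hUH
        have hH₂ : U₂ ⊆ H := (hun ▸ subset_union_right).trans hUH
        by_cases hcard : w ≤ (cut H U₁ ∪ cut H U₂).card
        · exact Or.inl ⟨s', List.mem_cons_self, U₁, U₂, hH₁, hH₂, h1, h2, hcard⟩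
        · rcases ih hl' _ hs1 _ hU₁ hH₁ h1 with ⟨s₁, hs₁, h3⟩ | ⟨T₁, hT1, hT2, hT3⟩
          · exact Or.inl ⟨s₁, List.mem_cons_of_mem _ hs₁, h3⟩
          rcases ih hl' _ hs2 _ hU₂ hH₂ h2 with ⟨s₁, hs₁, h3⟩ | ⟨T₂, hT1', hT2', hT3'⟩
          · exact Or.inl ⟨s₁, List.mem_cons_of_mem _ hs₁, h3⟩
          right
          refine ⟨CTree.node T₁ T₂, ⟨hT1, hT1', ?_⟩, ?_, ?_⟩
          · rw [hT2, hT2']
            exact hdis
          · show T₁.leaves ∪ T₂.leaves = U
            rw [hT2, hT2', hun]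
          · show max (cut H T₁.leaves ∪ cut H T₂.leaves).card (max (T₁.width H) (T₂.width H)) < w
            rw [hT2, hT2']
            simp only [max_lt_iff]
            exact ⟨by omega, hT3, hT3'⟩
      · exact lift (ih hl' _ (mul_mem_Sp hs'') _ hU hUH h)

theorem cnt_mm (a : V → A) (U : Finset (Finset V)) {K : Finset V} {i : V} (hi : i ∈ K) (α : A) :
    cnt K i α (mm a U) = if K ∈ U ∧ a i = α then 1 else 0 := by
  classical
  unfold cnt
  by_cases h : K ∈ U ∧ a i = α
  · rw [if_pos h, Finset.sum_eq_single (restr K a)]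
    · rw [mm_restr, if_pos h.1]
    · intro β hβ hne
      rw [mem_filter] at hβ
      rw [mm_apply, if_neg]
      rintro ⟨_, h2⟩
      apply hne
      rw [h2, hβ.2.1]
    · intro hn
      exfalso
      apply hn
      rw [mem_filter]
      refine ⟨mem_univ _, scope_restr K a, ?_⟩
      simp only [restr, hi, if_true, h.2]
  · rw [if_neg h]
    apply Finset.sum_eq_zero
    intro β hβ
    rw [mem_filter] at hβ
    rw [mm_apply, if_neg]
    rintro ⟨h1, h2⟩
    apply h
    rw [hβ.2.1] at h1 h2
    refine ⟨h1, ?_⟩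
    have h3 := hβ.2.2
    rw [h2] at h3
    simp only [restr, hi, if_true, Option.some.injEq] at h3
    exact h3

theorem agree {H : Finset (Finset V)} {p : MvPolynomial (V → Option A) F} (hp : Hom H p)
    {a a' : V → A} {U U' : Finset (Finset V)} (hUH : U ⊆ H) (h : coeff (mm a U) p ≠ 0)
    (h' : coeff (mm a' U') p ≠ 0) {i : V} (hi : i ∈ cut H U) : a' i = a i := by
  unfold cut at hi
  rw [mem_filter] at hi
  obtain ⟨_, ⟨K, hK, hiK⟩, K', hK', hiK'⟩ := hi
  rw [mem_sdiff] at hK'
  have h1 := hp _ (mem_support_iff.mpr h) _ (mem_support_iff.mpr h') i (a i) K (hUH hK) hiK K'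
    hK'.1 hiK'
  rw [cnt_mm _ _ hiK, cnt_mm _ _ hiK', cnt_mm _ _ hiK, cnt_mm _ _ hiK'] at h1
  by_contra hne
  rw [if_pos ⟨hK, rfl⟩, if_neg (fun h2 => hK'.2 h2.1), if_neg (fun h2 => hne h2.2),
    if_neg (fun h2 => hne h2.2)] at h1
  norm_num at h1

theorem prod_X_eq (a : V → A) (H : Finset (Finset V)) :
    ∏ K ∈ H, (X (restr K a) : MvPolynomial (V → Option A) F) = monomial (mm a H) 1 := by
  unfold mm
  rw [monomial_sum_one]
  rfl

theorem coeff_Z {H : Finset (Finset V)} (hH : ∀ i, ∃ K ∈ H, i ∈ K) (a : V → A) :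
    coeff (mm a H) (Z F A H) ≠ 0 := by
  classical
  unfold Z
  simp only [prod_X_eq]
  rw [coeff_sum, Finset.sum_eq_single a]
  · rw [coeff_monomial, if_pos rfl]
    exact one_ne_zero
  · intro a' _ hne
    rw [coeff_monomial, if_neg]
    intro heq
    apply hne
    funext i
    obtain ⟨K, hK, hi⟩ := hH i
    have h1 := mm_restr a' H K
    rw [heq, if_pos hK, mm_apply, scope_restr] at h1
    by_contra hni
    rw [if_neg] at h1
    · exact zero_ne_one h1
    · rintro ⟨_, h2⟩
      exact hni ((restr_eq h2).2 i hi)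
  · intro h
    exact absurd (mem_univ _) h

end coeffs

/-- the assignments which agree with `a` on `W` -/
theorem card_agree [Nonempty A] (a : V → A) (W : Finset V) (S : Finset (V → A))
    (hS : ∀ b ∈ S, ∀ i ∈ W, b i = a i) :
    S.card ≤ Fintype.card A ^ (Fintype.card V - W.card) := by
  classical
  have hinj : Set.InjOn (fun (b : V → A) (i : {i // i ∉ W}) => b i.1) (S : Set (V → A)) := by
    intro b hb b' hb' h
    funext i
    by_cases hi : i ∈ W
    · rw [hS b hb i hi, hS b' hb' i hi]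
    · exact congrFun h ⟨i, hi⟩
  have h1 := Finset.card_le_card_of_injOn (s := S) (t := (univ : Finset ({i // i ∉ W} → A)))
    (fun (b : V → A) (i : {i // i ∉ W}) => b i.1) (fun _ _ => mem_univ _) hinj
  refine h1.trans (le_of_eq ?_)
  rw [Finset.card_univ, Fintype.card_fun, Fintype.card_subtype_compl, Fintype.card_coe]

end Clow

open Clow in
theorem t_CLOW : S_CLOW := by
  intro F _ V A _ _ _ _ _ H hH2 hcov l hl hhom hZ
  classical
  have hHne : H.Nonempty := by
    rw [← Finset.card_pos]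
    omega
  rcases Nat.eq_zero_or_pos (cwidth H) with h0 | hpos
  · rw [h0, pow_zero]
    by_contra hlen
    have hnil : l = [] := by
      rw [← List.length_eq_zero_iff]
      omega
    subst hnil
    obtain ⟨a⟩ : Nonempty (V → A) := inferInstance
    rcases coeff_Sp hZ (coeff_Z (F := F) hcov a) with h | ⟨x, h⟩ | ⟨s, hs, _⟩
    · exact mm_ne_zero hHne h
    · obtain ⟨K, hK⟩ := mm_eq_single hHne h
      rw [hK, card_singleton] at hH2
      omega
    · simp at hs
  have hgood : ∀ a : V → A, ∃ s ∈ l, ∃ U₁ U₂, Good (F := F) H (cwidth H) a s U₁ U₂ := by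
    intro a
    rcases claim H hpos a l hl _ hZ H hHne (Subset.refl _) (coeff_Z hcov a) with
      h | ⟨T, h1, h2, h3⟩
    · exact h
    · have h4 : cwidth H ≤ T.width H := Nat.sInf_le ⟨T, h1, h2, rfl⟩
      omega
  choose s hs U₁ U₂ hg using hgood
  have hfib : ∀ p ∈ (univ : Finset (V → A)).image s,
      ((univ : Finset (V → A)).filter fun a => s a = p).card ≤
        Fintype.card A ^ (Fintype.card V - cwidth H) := by
    intro p hp
    obtain ⟨a, _, rfl⟩ := mem_image.mp hp
    obtain ⟨h1, h2, h3, h4, h5⟩ := hg a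
    refine (card_agree a (cut H (U₁ a) ∪ cut H (U₂ a)) _ ?_).trans ?_
    · intro b hb i hi
      rw [mem_filter] at hb
      obtain ⟨h1', h2', h3', h4', _⟩ := hg b
      rw [hb.2] at h3' h4'
      rcases mem_union.mp hi with hi | hi
      · exact agree (hhom _ (hs a)).1 h1 h3 h3' hi
      · exact agree (hhom _ (hs a)).2 h2 h4 h4' hi
    · exact Nat.pow_le_pow_right Fintype.card_pos (by omega)
  have hcount := Finset.card_le_mul_card_image (univ : Finset (V → A)) _ hfib
  rw [Finset.card_univ, Fintype.card_fun] at hcount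
  have himg : ((univ : Finset (V → A)).image s).card ≤ l.length := by
    refine (Finset.card_le_card (t := l.toFinset) ?_).trans (List.toFinset_card_le l)
    intro p hp
    obtain ⟨a, _, rfl⟩ := mem_image.mp hp
    exact List.mem_toFinset.mpr (hs a)
  have hwV : cwidth H ≤ Fintype.card V := by
    obtain ⟨a⟩ : Nonempty (V → A) := inferInstance
    exact (hg a).2.2.2.2.trans (Finset.card_le_univ _)
  have hsplit : Fintype.card A ^ Fintype.card V =
      Fintype.card A ^ (Fintype.card V - cwidth H) * Fintype.card A ^ cwidth H := by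
    rw [← pow_add]
    congr 1
    omega
  rw [hsplit] at hcount
  exact (Nat.le_of_mul_le_mul_left hcount (pow_pos Fintype.card_pos _)).trans himg

end Pool.Agent.HS38.GT
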