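import Pool.Agent.HS38.GT.Stm2

/-!
# Piece NLIST (helper61)
-/

set_option autoImplicit false
set_option linter.unusedSectionVars false

namespace Pool.Agent.HS38.GT

open MvPolynomial Finset Pool.Agent.Helper1x.EQ

namespace NLIST

variable {V : Type} [Fintype V] [DecidableEq V]

lemma exists_list {H : Finset (Finset V)} {w : ℕ} {U : Finset (Finset V)} (h : Narrow H univ w U) :
    0 < w ∧ ∃ l : List (Finset V), l.Nodup ∧ l.toFinset = U ∧
      ∀ s, s <:+ l → (cut H s.toFinset).card < w := by
  induction h with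
  | empty hw =>
    refine ⟨hw, [], List.nodup_nil, rfl, fun s hs => ?_⟩
    rw [List.suffix_nil] at hs
    subst hs
    have h0 : cut H ([] : List (Finset V)).toFinset = ∅ := by
      unfold cut
      ext i
      simp
    rw [h0, Finset.card_empty]
    exact hw
  | step U K _ hK hc ih =>
    obtain ⟨hw, l, h1, h2, h3⟩ := ih
    refine ⟨hw, ?_⟩
    by_cases hU : K ∈ U
    · exact ⟨l, h1, by rw [h2, Finset.insert_eq_of_mem hU], h3⟩
    · have hl : K ∉ l := fun h => hU (by rw [← h2]; exact List.mem_toFinset.2 h)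
      refine ⟨K :: l, List.nodup_cons.2 ⟨hl, h1⟩, by rw [List.toFinset_cons, h2], fun s hs => ?_⟩
      rcases List.suffix_cons_iff.1 hs with h4 | h4
      · rw [h4, List.toFinset_cons, h2]
        rwa [Finset.inter_univ] at hc
      · exact h3 s h4

end NLIST

open NLIST in
theorem t_NLIST : S_NLIST := by
  intro V _ _ H w h
  obtain ⟨hw, l, h1, h2, h3⟩ := exists_list h
  have h4 : lwidth H ≤ w - 1 := by
    refine Nat.sInf_le ⟨l, h1, h2, fun s hs => ?_⟩
    have := h3 s hs
    omega
  omega

end Pool.Agent.HS38.GT
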