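import Pool.Agent.HS38.GT.Reg
import Pool.Agent.HS38.GT.Nlist

/-!
# Regular gauge equivariant representations: the linear width
-/

set_option autoImplicit false

namespace Pool.Agent.HS38.GT

open MvPolynomial Finset Pool.Agent.Helper1x.EQ

variable {V A : Type} [Fintype V] [DecidableEq V] [Fintype A] [DecidableEq A]

omit [Fintype V] in
theorem wt_eq_prodF {F : Type} [Field F] {H : Finset (Finset V)} {t : Finset V → V → A → Fˣ}
    {U : Finset (Finset V)} (hU : U ⊆ H) (a : V → A) :
    ∏ K ∈ H, ∏ i ∈ K, ∏ α, t K i α ^ ex U a K i α = wt t U a := by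
  unfold wt
  rw [← Finset.prod_subset hU]
  · refine Finset.prod_congr rfl fun K hK => Finset.prod_congr rfl fun i _ => ?_
    rw [Finset.prod_eq_single (a i)]
    · simp [ex, hK]
    · intro α _ hne
      simp [ex, Ne.symm hne]
    · intro h2
      exact absurd (Finset.mem_univ _) h2
  · intro K _ hK
    apply Finset.prod_eq_one
    intro i _
    apply Finset.prod_eq_one
    intro α _
    simp [ex, hK]

theorem gen_powF {F : Type} [Field F] {H : Finset (Finset V)} {t : Finset V → V → A → Fˣ}
    (hg : GenericF H t) {U U' : Finset (Finset V)} (hU : U ⊆ H) (hU' : U' ⊆ H) (a a' : V → A)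
    (h : wt t U a ^ 2 = wt t U' a' ^ 2) :
    ∀ i, ∀ α, ∀ K ∈ H, i ∈ K → ∀ K' ∈ H, i ∈ K' →
      ex U a K i α - ex U' a' K i α = ex U a K' i α - ex U' a' K' i α := by
  obtain ⟨-, h2⟩ := hg
  have h3 : ∏ K ∈ H, ∏ i ∈ K, ∏ α, t K i α ^ (2 * (ex U a K i α - ex U' a' K i α)) = 1 := by
    have e : ∀ (K : Finset V) (i : V) (α : A), t K i α ^ (2 * (ex U a K i α - ex U' a' K i α)) =
        (t K i α ^ ex U a K i α) ^ 2 / (t K i α ^ ex U' a' K i α) ^ 2 := by
      intro K i α
      rw [← div_pow, div_eq_mul_inv, ← _root_.zpow_sub, mul_comm, _root_.zpow_mul]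
      rfl
    simp only [e, Finset.prod_div_distrib, Finset.prod_pow]
    rw [wt_eq_prodF hU, wt_eq_prodF hU', h, div_self']
  intro i α K hK hi K' hK' hi'
  have h4 := h2 (fun K i α => 2 * (ex U a K i α - ex U' a' K i α)) (fun K i α => by
    unfold ex
    split_ifs <;> simp) h3 i α K hK hi K' hK' hi'
  omega

omit [Fintype A] [DecidableEq A] in
theorem wt_full {F : Type} [Field F] {H : Finset (Finset V)} {t : Finset V → V → A → Fˣ} (ht : IsGauge H t)
    (a : V → A) : wt t H a = 1 := by
  unfold wt
  rw [Finset.prod_comm' (s' := fun i => H.filter fun K => i ∈ K) (t' := univ)]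
  · exact Finset.prod_eq_one fun i _ => ht i (a i)
  · intro K i
    simp

theorem coeff_ZH {F : Type} [Field F] {H : Finset (Finset V)} (hH : ∀ i, ∃ K ∈ H, i ∈ K) (a : V → A) :
    coeff (mono (H.image fun K => restr K a)) (Z F A H) = 1 := by
  classical
  unfold Z
  rw [coeff_sum, Finset.sum_eq_single a]
  · rw [prod_X_mono, coeff_monomial, if_pos rfl]
  · intro b _ hb
    rw [prod_X_mono, coeff_monomial, if_neg]
    intro h
    apply hb
    have h1 := mono_inj h
    funext i
    obtain ⟨K, hK, hi⟩ := hH i
    have h2 : restr K b ∈ H.image fun K => restr K a := by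
      rw [← h1]
      exact Finset.mem_image_of_mem _ hK
    obtain ⟨K', -, h3⟩ := Finset.mem_image.1 h2
    have h4 := restr_inj h3
    subst h4
    exact ((restr_eq_iff K' a b).1 h3 i hi).symm
  · intro h
    exact absurd (Finset.mem_univ _) h

theorem coeff_Z_low {F : Type} [Field F] {H : Finset (Finset V)} (a : V → A) {S' : Finset (V → Option A)}
    (hS' : S' ⊆ H.image fun K => restr K a) (hne : S' ≠ H.image fun K => restr K a) :
    coeff (mono S') (Z F A H) = 0 := by
  classical
  unfold Z
  rw [coeff_sum]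
  apply Finset.sum_eq_zero
  intro b _
  rw [prod_X_mono, coeff_monomial, if_neg]
  intro h
  have h1 := mono_inj h
  have h2 : S'.card = H.card := by
    rw [← h1, Finset.card_image_of_injective _ (restr_injective b)]
  have h3 : (H.image fun K => restr K a).card = H.card := Finset.card_image_of_injective _ (restr_injective a)
  exact hne (Finset.eq_of_subset_of_card_le hS' (by omega))

/-- going down by at most `r + 1` scopes -/
theorem upN_down {H : Finset (Finset V)} {k w : ℕ} (hk : ∀ K ∈ H, K.card ≤ k) {E U₂ : Finset (Finset V)}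
    (h2 : UpN H univ w E U₂) (hU₂ : U₂ ⊆ H) : ∀ (r : ℕ) (U₁ : Finset (Finset V)), U₁ ⊆ U₂ → (U₂ \ U₁).card ≤ r + 1 →
    (cut H U₁).card + k * r < w → UpN H univ w E U₁ := by
  intro r
  induction r with
  | zero =>
    intro U₁ h12 hcard hlt
    rcases (U₂ \ U₁).eq_empty_or_nonempty with h10 | ⟨x, hx⟩
    · have h11 : U₂ = U₁ := Finset.Subset.antisymm (Finset.sdiff_eq_empty_iff_subset.1 h10) h12
      rw [← h11]
      exact h2
    · have h11 : U₂ = insert x U₁ := by
        ext K
        rw [Finset.mem_insert]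
        constructor
        · intro hK2
          by_cases hK1 : K ∈ U₁
          · exact Or.inr hK1
          · exact Or.inl (Finset.card_le_one.1 hcard _ (Finset.mem_sdiff.2 ⟨hK2, hK1⟩) _ hx)
        · rintro (rfl | hK1)
          · exact (Finset.mem_sdiff.1 hx).1
          · exact h12 hK1
      rw [h11] at h2
      exact UpN.step _ x h2 (hU₂ (Finset.mem_sdiff.1 hx).1) (by rw [Finset.inter_univ]; omega)
  | succ r ih =>
    intro U₁ h12 hcard hlt
    rcases (U₂ \ U₁).eq_empty_or_nonempty with h10 | ⟨x, hx⟩
    · have h11 : U₂ = U₁ := Finset.Subset.antisymm (Finset.sdiff_eq_empty_iff_subset.1 h10) h12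
      rw [← h11]
      exact h2
    · obtain ⟨hx2, hx1⟩ := Finset.mem_sdiff.1 hx
      have hcut : (cut H (insert x U₁)).card ≤ (cut H U₁).card + k := by
        have h11 : cut H (insert x U₁) ⊆ cut H U₁ ∪ x := by
          intro i hi
          rw [Finset.mem_union]
          by_cases hix : i ∈ x
          · exact Or.inr hix
          left
          rw [cut, Finset.mem_filter] at hi ⊢
          obtain ⟨-, ⟨K₁, hK₁, hiK₁⟩, K₂, hK₂, hiK₂⟩ := hi
          rw [Finset.mem_sdiff, Finset.mem_insert, not_or] at hK₂
          rcases Finset.mem_insert.1 hK₁ with rfl | hK₁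
          · exact absurd hiK₁ hix
          · exact ⟨Finset.mem_univ _, ⟨K₁, hK₁, hiK₁⟩, K₂, Finset.mem_sdiff.2 ⟨hK₂.1, hK₂.2.2⟩, hiK₂⟩
        refine (Finset.card_le_card h11).trans ((Finset.card_union_le _ _).trans ?_)
        have := hk x (hU₂ hx2)
        omega
      have h3 : (U₂ \ insert x U₁).card ≤ r + 1 := by
        have h11 : U₂ \ insert x U₁ = (U₂ \ U₁).erase x := by
          ext K
          simp only [Finset.mem_sdiff, Finset.mem_insert, Finset.mem_erase, not_or]
          tauto
        rw [h11, Finset.card_erase_of_mem hx]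
        omega
      have hmul : k * (r + 1) = k * r + k := by ring
      refine UpN.step _ x (ih (insert x U₁) (Finset.insert_subset hx2 h12) h3 (by omega)) (hU₂ hx2) ?_
      rw [Finset.inter_univ]
      omega

/-- **Regular representations**, entries of degree at most `d + 1`, scopes with at most `k` elements. -/
theorem reg_lower_d {F : Type} [Field F] {ι : Type*} [Fintype ι] [DecidableEq ι] {H : Finset (Finset V)}
    (hH1 : ∀ i, ∃ K ∈ H, i ∈ K) {k d : ℕ} (hk : ∀ K ∈ H, K.card ≤ k) (hcon : ∀ U ⊆ H, U.Nonempty → U ≠ H → (cut H U).Nonempty)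
    {t : Finset V → V → A → Fˣ} (hg : GenericF H t)
    {M : Matrix ι ι (MvPolynomial (V → Option A) F)} (hdeg : ∀ i j, (M i j).totalDegree ≤ d + 1) (hreg : Regular M)
    (hdet : M.det = Z F A H) (hEq : Equivariant (gauge t) M) :
    Fintype.card A ^ (lwidth H - k * d) ≤ Fintype.card ι := by
  classical
  rcases Nat.eq_zero_or_pos (lwidth H - k * d) with h00 | h00
  · rw [h00, pow_zero]
    unfold Regular at hreg
    omega
  have h0 : 0 < lwidth H := by omega
  rcases isEmpty_or_nonempty A with hA | hA
  · rw [Fintype.card_eq_zero, zero_pow (by omega)]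
    exact Nat.zero_le _
  obtain ⟨o⟩ := hA
  set w := lwidth H with hw
  set w₁ := w - k * d with hw₁
  obtain ⟨B, C', hB, hC, hN⟩ := strict_sq hEq
  have hwt : ∀ (U : Finset (Finset V)) (a : V → A), ∏ x ∈ U.image (fun K => restr K a), gauge (sqg t) x =
      ((wt t U a ^ 2 : Fˣ) : F) := by
    intro U a
    rw [prod_gauge, wt_sqg]
  obtain ⟨μ, hμ0, hch⟩ := chain_r hdeg hreg hB hC hN (S₀ := H.image fun K => restr K (fun _ => o))
    (by rw [hdet, coeff_ZH hH1]; exact one_ne_zero)
    (by rw [hwt, wt_full hg.1, one_pow]; rfl)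
  have hSa : ∀ (a : V → A), ∀ S' ⊆ H.image (fun K => restr K a),
      S' = (H.filter fun K => restr K a ∈ S').image (fun K => restr K a) := by
    intro a S' hS'
    ext x
    rw [Finset.mem_image]
    constructor
    · intro hx
      obtain ⟨K, hK, rfl⟩ := Finset.mem_image.1 (hS' hx)
      exact ⟨K, Finset.mem_filter.2 ⟨hK, hx⟩, rfl⟩
    · rintro ⟨K, hK, rfl⟩
      exact (Finset.mem_filter.1 hK).2
  have hcutH : cut H H = ∅ := by
    ext i
    simp [cut]
  have hstep : ∀ a : V → A, ∃ U ⊆ H, w₁ ≤ (cut H U).card ∧ μ * ((wt t U a ^ 2 : Fˣ) : F) ∈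
      (C'⁻¹).charpoly.roots.toFinset := by
    intro a
    have hfull : (H.filter fun K => restr K a ∈ H.image (fun K => restr K a)) = H := by
      rw [Finset.filter_true_of_mem]
      exact fun K hK => Finset.mem_image_of_mem _ hK
    obtain ⟨S₁, S₂, h12, h2S, hcard, hgood, hbad, y, hy0, hy⟩ := hch (H.image fun K => restr K a)
      (by rw [hdet, coeff_ZH hH1]; exact one_ne_zero)
      (fun S' h1 h2 => by rw [hdet]; exact coeff_Z_low a h1 h2)
      (by
        intro S' hS' hne hneq
        rw [hSa a S' hS'] at hne hneq ⊢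
        set U := H.filter fun K => restr K a ∈ S' with hU
        rw [hwt]
        intro h1
        have h2 : wt t U a ^ 2 = wt t (∅ : Finset (Finset V)) a ^ 2 := by
          have h3 : wt t (∅ : Finset (Finset V)) a = 1 := by simp [wt]
          rw [h3, one_pow]
          exact Units.ext (by rw [h1]; rfl)
        have h3 := gen_powF hg (Finset.filter_subset _ _) (Finset.empty_subset _) a a h2
        obtain ⟨i, hi⟩ := hcon U (Finset.filter_subset _ _) ((Finset.image_nonempty).1 hne) (by
          intro h4
          apply hneq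
          rw [h4])
        rw [cut, Finset.mem_filter] at hi
        obtain ⟨-, ⟨K₁, hK₁, hiK₁⟩, K₂, hK₂, hiK₂⟩ := hi
        rw [Finset.mem_sdiff] at hK₂
        have h5 := h3 i (a i) K₁ (Finset.filter_subset _ _ hK₁) hiK₁ K₂ hK₂.1 hiK₂
        rw [← hU] at h5
        simp [ex, hK₁, hK₂.2] at h5)
      (fun S' => UpN H univ w H (H.filter fun K => restr K a ∈ S'))
      (by
        show UpN H univ w H _
        rw [hfull]
        exact UpN.top (by rw [hcutH, Finset.empty_inter, Finset.card_empty]; exact h0))
      (by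
        show ¬ UpN H univ w H _
        have : (H.filter fun K => restr K a ∈ (∅ : Finset (V → Option A))) = ∅ := by simp
        rw [this]
        intro h
        have h1 := t_NLIST V H w (h.narrow (Narrow.empty h0))
        omega)
    have h2 : (fun S' => UpN H univ w H (H.filter fun K => restr K a ∈ S')) S₂ := hgood
    have h1 : ¬ (fun S' => UpN H univ w H (H.filter fun K => restr K a ∈ S')) S₁ := hbad
    simp only at h1 h2
    refine ⟨H.filter fun K => restr K a ∈ S₁, Finset.filter_subset _ _, ?_, ?_⟩
    · by_contra hcon2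
      push Not at hcon2
      apply h1
      have hsub : (H.filter fun K => restr K a ∈ S₁) ⊆ H.filter fun K => restr K a ∈ S₂ := by
        intro K hK
        rw [Finset.mem_filter] at hK ⊢
        exact ⟨hK.1, h12 hK.2⟩
      refine upN_down hk h2 (Finset.filter_subset _ _) d _ hsub ?_ (by omega)
      refine le_trans ?_ hcard
      apply Finset.card_le_card_of_injOn (fun K => restr K a)
      · intro K hK
        rw [Finset.mem_coe, Finset.mem_sdiff, Finset.mem_filter, Finset.mem_filter] at hK
        rw [Finset.mem_coe, Finset.mem_sdiff]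
        exact ⟨hK.1.2, fun h => hK.2 ⟨hK.1.1, h⟩⟩
      · intro K _ K' _ h
        exact restr_inj h
    · have h3 := root_of_eigen hy0 hy
      rw [hSa a S₁ (h12.trans h2S), hwt] at h3
      exact h3
  choose U hUH hUc hUr using hstep
  have hR : ((C'⁻¹).charpoly.roots.toFinset).card ≤ Fintype.card ι := by
    refine (Multiset.toFinset_card_le _).trans ?_
    refine (Polynomial.card_roots' _).trans ?_
    rw [Matrix.charpoly_natDegree_eq_dim]
  have hwn : w₁ ≤ Fintype.card V := le_trans (Nat.sub_le _ _) (lwidth_le H)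
  have hfib : ∀ r ∈ (C'⁻¹).charpoly.roots.toFinset,
      ((univ : Finset (V → A)).filter fun a => μ * ((wt t (U a) a ^ 2 : Fˣ) : F) = r).card ≤
        Fintype.card A ^ (Fintype.card V - w₁) := by
    intro r _
    rcases ((univ : Finset (V → A)).filter fun a => μ * ((wt t (U a) a ^ 2 : Fˣ) : F) = r).eq_empty_or_nonempty with
      h5 | ⟨a, ha⟩
    · rw [h5, Finset.card_empty]
      exact Nat.zero_le _
    obtain ⟨c, hc1, hc2⟩ := Finset.exists_subset_card_eq (hUc a)
    have h6 : ((univ : Finset (V → A)).filter fun a => μ * ((wt t (U a) a ^ 2 : Fˣ) : F) = r) ⊆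
        Fintype.piFinset fun i => if i ∈ c then {a i} else univ := by
      intro a' ha'
      rw [Fintype.mem_piFinset]
      intro i
      split_ifs with hi
      · rw [Finset.mem_singleton]
        have h7 : wt t (U a) a ^ 2 = wt t (U a') a' ^ 2 := by
          have h8 := (Finset.mem_filter.1 ha).2.trans (Finset.mem_filter.1 ha').2.symm
          exact Units.ext (mul_left_cancel₀ hμ0 h8)
        have hic := hc1 hi
        rw [cut, Finset.mem_filter] at hic
        obtain ⟨-, ⟨K₁, hK₁, hiK₁⟩, K₂, hK₂, hiK₂⟩ := hic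
        rw [Finset.mem_sdiff] at hK₂
        have h8 := gen_powF hg (hUH a) (hUH a') a a' h7 i (a i) K₁ (hUH a hK₁) hiK₁ K₂ hK₂.1 hiK₂
        by_contra hcon2
        simp [ex, hK₁, hK₂.2, hcon2] at h8
      · exact Finset.mem_univ _
    refine (Finset.card_le_card h6).trans ?_
    rw [Fintype.card_piFinset]
    have h7 : ∀ i, (if i ∈ c then ({a i} : Finset A) else univ).card = if i ∈ c then 1 else Fintype.card A := by
      intro i
      split_ifs
      · exact Finset.card_singleton _
      · exact Finset.card_univ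
    rw [Finset.prod_congr rfl fun i _ => h7 i, Finset.prod_ite, Finset.prod_const_one, one_mul, Finset.prod_const]
    have h8 : (univ.filter fun i => ¬ i ∈ c) = cᶜ := by ext; simp
    rw [h8, Finset.card_compl, hc2]
  have h1 := Finset.card_le_mul_card_image_of_maps_to (s := (univ : Finset (V → A)))
    (t := (C'⁻¹).charpoly.roots.toFinset) (f := fun a => μ * ((wt t (U a) a ^ 2 : Fˣ) : F)) (fun a _ => hUr a) _ hfib
  rw [Finset.card_univ, Fintype.card_fun] at h1
  have h2 : Fintype.card A ^ Fintype.card V ≤ Fintype.card A ^ (Fintype.card V - w₁) * Fintype.card ι :=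
    h1.trans (Nat.mul_le_mul_left _ hR)
  have h3 : Fintype.card A ^ Fintype.card V = Fintype.card A ^ (Fintype.card V - w₁) * Fintype.card A ^ w₁ := by
    rw [← pow_add]
    congr 1
    omega
  rw [h3] at h2
  exact Nat.le_of_mul_le_mul_left h2 (pow_pos (Fintype.card_pos_iff.2 ⟨o⟩) _)

/-- **Regular representations.** -/
theorem reg_lower {F : Type} [Field F] {ι : Type*} [Fintype ι] [DecidableEq ι] {H : Finset (Finset V)}
    (hH1 : ∀ i, ∃ K ∈ H, i ∈ K) (hcon : ∀ U ⊆ H, U.Nonempty → U ≠ H → (cut H U).Nonempty)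
    {t : Finset V → V → A → Fˣ} (hg : GenericF H t)
    {M : Matrix ι ι (MvPolynomial (V → Option A) F)} (hdeg : ∀ i j, (M i j).totalDegree ≤ 1) (hreg : Regular M)
    (hdet : M.det = Z F A H) (hEq : Equivariant (gauge t) M) :
    Fintype.card A ^ lwidth H ≤ Fintype.card ι := by
  have h := reg_lower_d hH1 (k := Fintype.card V) (d := 0) (fun K _ => Finset.card_le_univ K) hcon hg hdeg hreg hdet hEq
  simpa using h

end Pool.Agent.HS38.GT
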