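import Pool.Agent.HS38.GT.Stm6
import Pool.Agent.HS38.GT.Clow
import Pool.Agent.HS38.GT.RegLow
import Pool.Agent.Helper1x.EQ.WS

/-!
# Project GT, part 5, piece CLC: the lower bound for circuits whose nodes are eigenvectors
-/

set_option autoImplicit false

namespace Pool.Agent.HS38.GT

open MvPolynomial Finset Pool.Agent.Helper1x.EQ Pool.Agent.H20VP

namespace CLC

variable {V A : Type} [Fintype V] [DecidableEq V] [Fintype A] [DecidableEq A] {F : Type} [Field F]

theorem mm_prod (c : (V → Option A) → F) (a : V → A) (U : Finset (Finset V)) :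
    (Clow.mm a U).prod (fun x n => c x ^ n) = ∏ K ∈ U, c (restr K a) := by
  classical
  unfold Clow.mm
  rw [← Finsupp.prod_finsetSum_index (fun _ => pow_zero _) (fun _ _ _ => pow_add _ _ _)]
  refine Finset.prod_congr rfl fun K _ => ?_
  exact (Finsupp.prod_single_index (h := fun x n => c x ^ n) (pow_zero _)).trans (pow_one _)

theorem wt_eq {t : Finset V → V → A → Fˣ} {p : MvPolynomial (V → Option A) F} (hp : Eig (gauge t) p)
    {a a' : V → A} {U U' : Finset (Finset V)} (h : coeff (Clow.mm a U) p ≠ 0)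
    (h' : coeff (Clow.mm a' U') p ≠ 0) : wt t U a = wt t U' a' := by
  classical
  obtain ⟨b, hb⟩ := hp
  have key : ∀ (a : V → A) (U : Finset (Finset V)), coeff (Clow.mm a U) p ≠ 0 →
      ((wt t U a : Fˣ) : F) = b := by
    intro a U h
    have h1 := congrArg (coeff (Clow.mm a U)) hb
    rw [coeff_scale, coeff_C_mul, mm_prod] at h1
    have h2 := mul_right_cancel₀ h h1
    rw [← h2]
    unfold wt
    rw [Units.coe_prod]
    exact Finset.prod_congr rfl fun K _ => (gauge_restr t K a).symm
  exact Units.ext ((key a U h).trans (key a' U' h').symm)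

theorem agreeE {H : Finset (Finset V)} {t : Finset V → V → A → Fˣ} (hgen : Generic4 H t)
    {p : MvPolynomial (V → Option A) F} (hp : Eig (gauge t) p)
    {a a' : V → A} {U U' : Finset (Finset V)} (hUH : U ⊆ H) (hUH' : U' ⊆ H)
    (h : coeff (Clow.mm a U) p ≠ 0) (h' : coeff (Clow.mm a' U') p ≠ 0) {i : V}
    (hi : i ∈ cut H U) : a' i = a i := by
  classical
  have hw := wt_eq hp h h'
  have hrel := hgen.2 (fun K i α => ex U a K i α - ex U' a' K i α) (by
    intro K i α
    unfold ex
    split_ifs <;> simp) (by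
    have e1 : ∀ K i α, t K i α ^ (ex U a K i α - ex U' a' K i α) =
        t K i α ^ ex U a K i α * (t K i α ^ ex U' a' K i α)⁻¹ := fun K i α => zpow_sub _ _ _
    simp only [e1, Finset.prod_mul_distrib, Finset.prod_inv_distrib]
    rw [wt_eq_prodF hUH, wt_eq_prodF hUH', hw, mul_inv_cancel])
  unfold cut at hi
  rw [mem_filter] at hi
  obtain ⟨_, ⟨K, hK, hiK⟩, K', hK', hiK'⟩ := hi
  rw [mem_sdiff] at hK'
  have h1 := hrel i (a i) K (hUH hK) hiK K' hK'.1 hiK'
  by_contra hne
  unfold ex at h1
  rw [if_pos ⟨hK, rfl⟩, if_neg (fun h2 => hne h2.2), if_neg (fun h2 => hK'.2 h2.1),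
    if_neg (fun h2 => hne h2.2)] at h1
  norm_num at h1

/-- `a` is served by the multiplication gate `g` -/
def GoodG (H : Finset (Finset V)) (Q : Circuit F (V → Option A)) (φ : Q.N → MvPolynomial (V → Option A) F)
    (w : ℕ) (a : V → A) (g : Q.N) (U₁ U₂ : Finset (Finset V)) : Prop :=
  ∃ x y, Q.gate g = .mul x y ∧ U₁ ⊆ H ∧ U₂ ⊆ H ∧ coeff (Clow.mm a U₁) (φ x) ≠ 0 ∧
    coeff (Clow.mm a U₂) (φ y) ≠ 0 ∧ w ≤ (cut H U₁ ∪ cut H U₂).card

theorem coeff_list_sum {X N : Type} (m : X →₀ ℕ) (φ : N → MvPolynomial X F) (l : List N)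
    (h : coeff m ((l.map φ).sum) ≠ 0) : ∃ n ∈ l, coeff m (φ n) ≠ 0 := by
  induction l with
  | nil => simp at h
  | cons n l ih =>
    by_cases h1 : coeff m (φ n) = 0
    · rw [List.map_cons, List.sum_cons, coeff_add, h1, zero_add] at h
      obtain ⟨n', h2, h3⟩ := ih h
      exact ⟨n', List.mem_cons_of_mem _ h2, h3⟩
    · exact ⟨n, List.mem_cons_self, h1⟩

theorem claim (H : Finset (Finset V)) (Q : Circuit F (V → Option A))
    (φ : Q.N → MvPolynomial (V → Option A) F) (hφ : ∀ n, φ n = (Q.gate n).value φ) (τ : Q.N → ℕ)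
    (hτ : ∀ m n, Q.Edge m n → τ m < τ n) {w : ℕ} (hw : 1 ≤ w) (a : V → A) :
    ∀ N : ℕ, ∀ n, τ n < N → ∀ U : Finset (Finset V), U.Nonempty → U ⊆ H →
      coeff (Clow.mm a U) (φ n) ≠ 0 →
      (∃ g U₁ U₂, GoodG H Q φ w a g U₁ U₂) ∨
        ∃ T : CTree V, T.Proper ∧ T.leaves = U ∧ T.width H < w := by
  classical
  intro N
  induction N with
  | zero => intro n hn; exact absurd hn (Nat.not_lt_zero _)
  | succ N ih =>
    intro n hn U hU hUH hc
    have hpred : ∀ m ∈ (Q.gate n).preds, τ m < N := fun m hm => by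
      have := hτ m n hm
      omega
    rw [hφ n] at hc
    cases hg : Q.gate n with
    | var x =>
      rw [hg] at hc
      right
      have h1 : Clow.mm a U = Finsupp.single x 1 := by
        by_contra hne
        apply hc
        change coeff (Clow.mm a U) (X x) = 0
        rw [coeff_X, if_neg (fun h => hne h.symm)]
      obtain ⟨K, rfl⟩ := Clow.mm_eq_single hU h1
      exact ⟨CTree.leaf K, trivial, rfl, hw⟩
    | const c =>
      rw [hg] at hc
      exfalso
      apply hc
      change coeff (Clow.mm a U) (C c) = 0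
      rw [coeff_C, if_neg (fun h => Clow.mm_ne_zero hU h.symm)]
    | add l =>
      rw [hg] at hc
      obtain ⟨m, hm, h1⟩ := coeff_list_sum _ φ l hc
      exact ih m (hpred m (by rw [hg]; exact hm)) U hU hUH h1
    | mul x y =>
      rw [hg] at hc
      have hx : τ x < N := hpred x (by rw [hg]; exact List.mem_cons_self)
      have hy : τ y < N := hpred y (by
        rw [hg]
        exact List.mem_cons_of_mem _ (List.mem_cons_self))
      obtain ⟨U₁, U₂, hun, hdis, h1, h2⟩ := Clow.coeff_mm_mul hc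
      rcases U₁.eq_empty_or_nonempty with rfl | hU₁
      · rw [empty_union] at hun
        subst hun
        exact ih y hy _ hU hUH h2
      rcases U₂.eq_empty_or_nonempty with rfl | hU₂
      · rw [union_empty] at hun
        subst hun
        exact ih x hx _ hU hUH h1
      have hH₁ : U₁ ⊆ H := (hun ▸ subset_union_left).trans hUH
      have hH₂ : U₂ ⊆ H := (hun ▸ subset_union_right).trans hUH
      by_cases hcard : w ≤ (cut H U₁ ∪ cut H U₂).card
      · exact Or.inl ⟨n, U₁, U₂, x, y, hg, hH₁, hH₂, h1, h2, hcard⟩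
      · rcases ih x hx _ hU₁ hH₁ h1 with h3 | ⟨T₁, hT1, hT2, hT3⟩
        · exact Or.inl h3
        rcases ih y hy _ hU₂ hH₂ h2 with h3 | ⟨T₂, hT1', hT2', hT3'⟩
        · exact Or.inl h3
        right
        refine ⟨CTree.node T₁ T₂, ⟨hT1, hT1', ?_⟩, ?_, ?_⟩
        · rw [hT2, hT2']
          exact hdis
        · show T₁.leaves ∪ T₂.leaves = U
          rw [hT2, hT2', hun]
        · show max (cut H T₁.leaves ∪ cut H T₂.leaves).card (max (T₁.width H) (T₂.width H)) < w
          rw [hT2, hT2']
          simp only [max_lt_iff]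
          exact ⟨by omega, hT3, hT3'⟩

theorem claim0 (Q : Circuit F (V → Option A))
    (φ : Q.N → MvPolynomial (V → Option A) F) (hφ : ∀ n, φ n = (Q.gate n).value φ) (τ : Q.N → ℕ)
    (hτ : ∀ m n, Q.Edge m n → τ m < τ n) (a : V → A) :
    ∀ N : ℕ, ∀ n, τ n < N → ∀ U : Finset (Finset V), U.Nonempty → coeff (Clow.mm a U) (φ n) ≠ 0 →
      (∃ g x y, Q.gate g = .mul x y) ∨ ∃ K, U = {K} := by
  classical
  intro N
  induction N with
  | zero => intro n hn; exact absurd hn (Nat.not_lt_zero _)
  | succ N ih =>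
    intro n hn U hU hc
    rw [hφ n] at hc
    cases hg : Q.gate n with
    | var x =>
      rw [hg] at hc
      right
      have h1 : Clow.mm a U = Finsupp.single x 1 := by
        by_contra hne
        apply hc
        change coeff (Clow.mm a U) (X x) = 0
        rw [coeff_X, if_neg (fun h => hne h.symm)]
      exact Clow.mm_eq_single hU h1
    | const c =>
      rw [hg] at hc
      exfalso
      apply hc
      change coeff (Clow.mm a U) (C c) = 0
      rw [coeff_C, if_neg (fun h => Clow.mm_ne_zero hU h.symm)]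
    | add l =>
      rw [hg] at hc
      obtain ⟨m, hm, h1⟩ := coeff_list_sum _ φ l hc
      refine ih m ?_ U hU h1
      have := hτ m n (by unfold Circuit.Edge; rw [hg]; exact hm)
      omega
    | mul x y => exact Or.inl ⟨n, x, y, hg⟩

end CLC

open CLC in
theorem t_CLC : S_CLC := by
  intro F _ V A _ _ _ _ _ H t hH2 hcov hgen Q hQ
  classical
  obtain ⟨φ, hφ, hout, heig⟩ := hQ
  let _ : Fintype Q.N := Q.fin
  obtain ⟨τ, hτ⟩ := exists_rank Q
  have hHne : H.Nonempty := by
    rw [← Finset.card_pos]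
    omega
  have hmuls : muls Q = ((univ : Finset Q.N).filter fun g => ∃ a b, Q.gate g = .mul a b).card := by
    unfold muls
    apply Nat.subtype_card
    intro x
    simp
  have hZ : ∀ a : V → A, coeff (Clow.mm a H) (φ Q.out) ≠ 0 := fun a => by
    rw [hout]
    exact Clow.coeff_Z hcov a
  rcases Nat.eq_zero_or_pos (cwidth H) with h0 | hpos
  · rw [h0, pow_zero, hmuls]
    obtain ⟨a⟩ : Nonempty (V → A) := inferInstance
    rcases claim0 Q φ hφ τ hτ a _ Q.out (Nat.lt_succ_self _) H hHne (hZ a) with ⟨g, x, y, hg⟩ | ⟨K, hK⟩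
    · apply Finset.card_pos.2
      exact ⟨g, mem_filter.2 ⟨mem_univ _, x, y, hg⟩⟩
    · rw [hK, card_singleton] at hH2
      omega
  have hgood : ∀ a : V → A, ∃ g U₁ U₂, GoodG H Q φ (cwidth H) a g U₁ U₂ := by
    intro a
    rcases claim H Q φ hφ τ hτ hpos a _ Q.out (Nat.lt_succ_self _) H hHne (Subset.refl _) (hZ a) with
      h | ⟨T, h1, h2, h3⟩
    · exact h
    · have h4 : cwidth H ≤ T.width H := Nat.sInf_le ⟨T, h1, h2, rfl⟩
      omega
  choose s U₁ U₂ hg using hgood
  have hfib : ∀ p ∈ (univ : Finset (V → A)).image s,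
      ((univ : Finset (V → A)).filter fun a => s a = p).card ≤
        Fintype.card A ^ (Fintype.card V - cwidth H) := by
    intro p hp
    obtain ⟨a, _, rfl⟩ := mem_image.mp hp
    obtain ⟨x, y, hxy, h1, h2, h3, h4, h5⟩ := hg a
    refine (Clow.card_agree a (cut H (U₁ a) ∪ cut H (U₂ a)) _ ?_).trans ?_
    · intro b hb i hi
      rw [mem_filter] at hb
      obtain ⟨x', y', hxy', h1', h2', h3', h4', _⟩ := hg b
      rw [hb.2, hxy] at hxy'
      obtain ⟨rfl, rfl⟩ : x = x' ∧ y = y' := by
        simpa using hxy'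
      rcases mem_union.mp hi with hi | hi
      · exact agreeE hgen (heig x) h1 h1' h3 h3' hi
      · exact agreeE hgen (heig y) h2 h2' h4 h4' hi
    · exact Nat.pow_le_pow_right Fintype.card_pos (by omega)
  have hcount := Finset.card_le_mul_card_image (univ : Finset (V → A)) _ hfib
  rw [Finset.card_univ, Fintype.card_fun] at hcount
  have himg : ((univ : Finset (V → A)).image s).card ≤ muls Q := by
    rw [hmuls]
    apply Finset.card_le_card
    intro p hp
    obtain ⟨a, _, rfl⟩ := mem_image.mp hp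
    obtain ⟨x, y, hxy, -⟩ := hg a
    exact mem_filter.2 ⟨mem_univ _, x, y, hxy⟩
  have hwV : cwidth H ≤ Fintype.card V := by
    obtain ⟨a⟩ : Nonempty (V → A) := inferInstance
    obtain ⟨x, y, hxy, h1, h2, h3, h4, h5⟩ := hg a
    exact h5.trans (Finset.card_le_univ _)
  have hsplit : Fintype.card A ^ Fintype.card V =
      Fintype.card A ^ (Fintype.card V - cwidth H) * Fintype.card A ^ cwidth H := by
    rw [← pow_add]
    congr 1
    omega
  rw [hsplit] at hcount
  exact (Nat.le_of_mul_le_mul_left hcount (pow_pos Fintype.card_pos _)).trans himg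

end Pool.Agent.HS38.GT
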