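import Pool.Agent.HS38.GT.Stm8
import Pool.Agent.HS38.GT.CLC

/-!
# Project GT, part 5, piece CLCT: the lower bound for circuits whose nodes are eigenvectors of a family of symmetries
-/

set_option autoImplicit false

namespace Pool.Agent.HS38.GT

open MvPolynomial Finset Pool.Agent.Helper1x.EQ Pool.Agent.H20VP

namespace CLCT

variable {V A : Type} [Fintype V] [DecidableEq V] [Fintype A] [DecidableEq A] {F : Type} [Field F]

theorem agreeT {H : Finset (Finset V)} {T : Set (Finset V → V → A → Fˣ)} (hsep : SepA H T)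
    {p : MvPolynomial (V → Option A) F} (hp : ∀ t ∈ T, Eig (gauge t) p)
    {a a' : V → A} {U U' : Finset (Finset V)} (hUH : U ⊆ H) (hUH' : U' ⊆ H)
    (h : coeff (Clow.mm a U) p ≠ 0) (h' : coeff (Clow.mm a' U') p ≠ 0) {i : V}
    (hi : i ∈ cut H U) : a' i = a i := by
  classical
  have hw : ∀ t ∈ T, wt t U a = wt t U' a' := fun t ht => CLC.wt_eq (hp t ht) h h'
  unfold cut at hi
  rw [mem_filter] at hi
  obtain ⟨_, ⟨K, hK, hiK⟩, K', hK', hiK'⟩ := hi
  rw [mem_sdiff] at hK'
  have h1 := hsep U hUH U' hUH' a a' hw i (a i) K (hUH hK) hiK K' hK'.1 hiK'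
  by_contra hne
  unfold ex at h1
  rw [if_pos ⟨hK, rfl⟩, if_neg (fun h2 => hK'.2 h2.1), if_neg (fun h2 => hne h2.2),
    if_neg (fun h2 => hne h2.2)] at h1
  norm_num at h1

end CLCT

open CLC CLCT in
theorem t_CLCT : S_CLCT := by
  intro F _ V A _ _ _ _ _ H T hH2 hcov hsep Q hQ
  classical
  obtain ⟨φ, hφ, hout, heig⟩ := hQ
  let _ : Fintype Q.N := Q.fin
  obtain ⟨τ, hτ⟩ := exists_rank Q
  have hHne : H.Nonempty := by
    rw [← Finset.card_pos]
    omega
  have hmuls : muls Q = ((univ : Finset Q.N).filter fun g => ∃ a b, Q.gate g = .mul a b).card := by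
    unfold muls
    apply Nat.subtype_card
    intro x
    simp
  have hZ : ∀ a : V → A, coeff (Clow.mm a H) (φ Q.out) ≠ 0 := fun a => by
    rw [hout]
    exact Clow.coeff_Z hcov a
  rcases Nat.eq_zero_or_pos (cwidth H) with h0 | hpos
  · rw [h0, pow_zero, hmuls]
    obtain ⟨a⟩ : Nonempty (V → A) := inferInstance
    rcases claim0 Q φ hφ τ hτ a _ Q.out (Nat.lt_succ_self _) H hHne (hZ a) with ⟨g, x, y, hg⟩ | ⟨K, hK⟩
    · apply Finset.card_pos.2
      exact ⟨g, mem_filter.2 ⟨mem_univ _, x, y, hg⟩⟩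
    · rw [hK, card_singleton] at hH2
      omega
  have hgood : ∀ a : V → A, ∃ g U₁ U₂, GoodG H Q φ (cwidth H) a g U₁ U₂ := by
    intro a
    rcases claim H Q φ hφ τ hτ hpos a _ Q.out (Nat.lt_succ_self _) H hHne (Subset.refl _) (hZ a) with
      h | ⟨T', h1, h2, h3⟩
    · exact h
    · have h4 : cwidth H ≤ T'.width H := Nat.sInf_le ⟨T', h1, h2, rfl⟩
      omega
  choose s U₁ U₂ hg using hgood
  have hfib : ∀ p ∈ (univ : Finset (V → A)).image s,
      ((univ : Finset (V → A)).filter fun a => s a = p).card ≤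
        Fintype.card A ^ (Fintype.card V - cwidth H) := by
    intro p hp
    obtain ⟨a, _, rfl⟩ := mem_image.mp hp
    obtain ⟨x, y, hxy, h1, h2, h3, h4, h5⟩ := hg a
    refine (Clow.card_agree a (cut H (U₁ a) ∪ cut H (U₂ a)) _ ?_).trans ?_
    · intro b hb i hi
      rw [mem_filter] at hb
      obtain ⟨x', y', hxy', h1', h2', h3', h4', _⟩ := hg b
      rw [hb.2, hxy] at hxy'
      obtain ⟨rfl, rfl⟩ : x = x' ∧ y = y' := by
        simpa using hxy'
      rcases mem_union.mp hi with hi | hi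
      · exact agreeT hsep (fun t ht => heig t ht x) h1 h1' h3 h3' hi
      · exact agreeT hsep (fun t ht => heig t ht y) h2 h2' h4 h4' hi
    · exact Nat.pow_le_pow_right Fintype.card_pos (by omega)
  have hcount := Finset.card_le_mul_card_image (univ : Finset (V → A)) _ hfib
  rw [Finset.card_univ, Fintype.card_fun] at hcount
  have himg : ((univ : Finset (V → A)).image s).card ≤ muls Q := by
    rw [hmuls]
    apply Finset.card_le_card
    intro p hp
    obtain ⟨a, _, rfl⟩ := mem_image.mp hp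
    obtain ⟨x, y, hxy, -⟩ := hg a
    exact mem_filter.2 ⟨mem_univ _, x, y, hxy⟩
  have hwV : cwidth H ≤ Fintype.card V := by
    obtain ⟨a⟩ : Nonempty (V → A) := inferInstance
    obtain ⟨x, y, hxy, h1, h2, h3, h4, h5⟩ := hg a
    exact h5.trans (Finset.card_le_univ _)
  have hsplit : Fintype.card A ^ Fintype.card V =
      Fintype.card A ^ (Fintype.card V - cwidth H) * Fintype.card A ^ cwidth H := by
    rw [← pow_add]
    congr 1
    omega
  rw [hsplit] at hcount
  exact (Nat.le_of_mul_le_mul_left hcount (pow_pos Fintype.card_pos _)).trans himg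

end Pool.Agent.HS38.GT
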