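import Pool.Agent.HS38.GT.Dup

/-!
# Piece CUP (helper70)
-/

set_option autoImplicit false
set_option linter.unusedSectionVars false

namespace Pool.Agent.HS38.GT

open MvPolynomial Finset Pool.Agent.Helper1x.EQ

namespace Cup

section prog

variable {F σ : Type} [Field F]

lemma Sp_mono {l l' : List (MvPolynomial σ F × MvPolynomial σ F)} (h : ∀ s ∈ l, s ∈ l') :
    Sp l ≤ Sp l' := by
  unfold Sp
  refine Submodule.span_mono ?_
  rintro p (h1 | ⟨s, hs, e⟩)
  · exact Or.inl h1
  · exact Or.inr ⟨s, h s hs, e⟩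

lemma valid_append {l l' : List (MvPolynomial σ F × MvPolynomial σ F)} (h : Valid l)
    (h' : Valid l') : Valid (l ++ l') := by
  induction l with
  | nil => exact h'
  | cons s l ih =>
    exact ⟨ih h.1, Sp_mono (fun s hs => List.mem_append_left _ hs) h.2.1,
      Sp_mono (fun s hs => List.mem_append_left _ hs) h.2.2⟩

lemma valid_append' {l l' : List (MvPolynomial σ F × MvPolynomial σ F)}
    (h : ∀ s ∈ l, s.1 ∈ Sp l' ∧ s.2 ∈ Sp l') (h' : Valid l') : Valid (l ++ l') := by
  induction l with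
  | nil => exact h'
  | cons s l ih =>
    have hs := h s (List.mem_cons_self ..)
    exact ⟨ih fun s hs => h s (List.mem_cons_of_mem _ hs),
      Sp_mono (fun s hs => List.mem_append_right _ hs) hs.1,
      Sp_mono (fun s hs => List.mem_append_right _ hs) hs.2⟩

lemma X_mem (l : List (MvPolynomial σ F × MvPolynomial σ F)) (x : σ) : X x ∈ Sp l :=
  Submodule.subset_span (Or.inl (Or.inr ⟨x, rfl⟩))

lemma mul_mem' {l : List (MvPolynomial σ F × MvPolynomial σ F)} {p q : MvPolynomial σ F}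
    (h : (p, q) ∈ l) : p * q ∈ Sp l :=
  Submodule.subset_span (Or.inr ⟨(p, q), h, rfl⟩)

end prog

section marg

variable {V A R : Type} [Fintype V] [DecidableEq V] [Fintype A] [DecidableEq A] [CommRing R]

/-- the sum over the assignments which agree with `b` outside `J` -/
def E (J : Finset V) (b : V → A) (f : (V → A) → R) : R :=
  ∑ a ∈ univ.filter (fun a : V → A => ∀ i, i ∉ J → a i = b i), f a

/-- `f` depends on the coordinates in `C` only -/
def Dep (C : Finset V) (f : (V → A) → R) : Prop := ∀ a a', (∀ i ∈ C, a i = a' i) → f a = f a'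

lemma E_fub {J₁ J₂ : Finset V} (h : Disjoint J₁ J₂) (b : V → A) (f : (V → A) → R) :
    E (J₁ ∪ J₂) b f = E J₁ b fun d => E J₂ d f := by
  unfold E
  symm
  rw [Finset.sum_comm' (s' := fun a => {fun i => if i ∈ J₁ then a i else b i})
    (t' := univ.filter (fun a : V → A => ∀ i, i ∉ J₁ ∪ J₂ → a i = b i))]
  · exact Finset.sum_congr rfl fun a _ => Finset.sum_singleton _ _
  · intro d a
    simp only [Finset.mem_filter, Finset.mem_univ, true_and, Finset.mem_singleton]
    constructor
    · rintro ⟨h1, h2⟩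
      refine ⟨?_, fun i hi => ?_⟩
      · funext i
        split_ifs with hi
        · exact (h2 i (Finset.disjoint_left.1 h hi)).symm
        · exact h1 i hi
      · rw [Finset.mem_union, not_or] at hi
        rw [h2 i hi.2, h1 i hi.1]
    · rintro ⟨rfl, h2⟩
      refine ⟨fun i hi => if_neg hi, fun i hi => ?_⟩
      simp only
      split_ifs with hi'
      · rfl
      · exact h2 i (by rw [Finset.mem_union, not_or]; exact ⟨hi', hi⟩)

lemma E_dep {J C : Finset V} {f : (V → A) → R} (hf : Dep C f) {b b' : V → A}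
    (hb : ∀ i ∈ C, i ∉ J → b i = b' i) : E J b f = E J b' f := by
  unfold E
  refine Finset.sum_bij' (fun a _ => fun i => if i ∈ J then a i else b' i)
    (fun a _ => fun i => if i ∈ J then a i else b i) ?_ ?_ ?_ ?_ ?_
  · intro a _
    rw [Finset.mem_filter]
    exact ⟨Finset.mem_univ _, fun i hi => if_neg hi⟩
  · intro a _
    rw [Finset.mem_filter]
    exact ⟨Finset.mem_univ _, fun i hi => if_neg hi⟩
  · intro a ha
    rw [Finset.mem_filter] at ha
    funext i
    simp only
    split_ifs with hi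
    · rfl
    · exact (ha.2 i hi).symm
  · intro a ha
    rw [Finset.mem_filter] at ha
    funext i
    simp only
    split_ifs with hi
    · rfl
    · exact (ha.2 i hi).symm
  · intro a ha
    rw [Finset.mem_filter] at ha
    refine hf _ _ fun i hi => ?_
    split_ifs with hi'
    · rfl
    · rw [ha.2 i hi', hb i hi hi']

lemma E_mul {J₁ J₂ C₁ C₂ : Finset V} (hJ : Disjoint J₁ J₂) {g h : (V → A) → R} (hg : Dep C₁ g)
    (hh : Dep C₂ h) (h1 : Disjoint C₁ J₂) (h2 : Disjoint C₂ J₁) (b : V → A) :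
    E (J₁ ∪ J₂) b (fun a => g a * h a) = E J₁ b g * E J₂ b h := by
  rw [E_fub hJ]
  have h3 : ∀ d, E J₂ d (fun a => g a * h a) = g d * E J₂ d h := by
    intro d
    unfold E
    rw [Finset.mul_sum]
    refine Finset.sum_congr rfl fun a ha => ?_
    rw [Finset.mem_filter] at ha
    simp only
    rw [hg a d fun i hi => ha.2 i (Finset.disjoint_left.1 h1 hi)]
  simp only [h3]
  conv_lhs => unfold E
  conv_rhs => rw [E, Finset.sum_mul]
  refine Finset.sum_congr rfl fun d hd => ?_
  rw [Finset.mem_filter] at hd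
  simp only
  congr 1
  exact E_dep hh fun i hi _ => hd.2 i (Finset.disjoint_left.1 h2 hi)

end marg

section ten

variable {V A : Type} [Fintype V] [DecidableEq V] [Fintype A] [DecidableEq A] (F : Type) [Field F]
  (H : Finset (Finset V))

/-- the variables all of whose scopes are in `U` -/
def inn (U : Finset (Finset V)) : Finset V :=
  univ.filter fun i => (∃ K ∈ U, i ∈ K) ∧ ∀ K ∈ H, i ∈ K → K ∈ U

/-- the variables of `U` -/
def vs (U : Finset (Finset V)) : Finset V := univ.filter fun i => ∃ K ∈ U, i ∈ K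

lemma mem_inn {U : Finset (Finset V)} {i : V} :
    i ∈ inn H U ↔ (∃ K ∈ U, i ∈ K) ∧ ∀ K ∈ H, i ∈ K → K ∈ U := by
  unfold inn
  rw [Finset.mem_filter]
  exact ⟨fun h => h.2, fun h => ⟨Finset.mem_univ _, h⟩⟩

lemma mem_vs {U : Finset (Finset V)} {i : V} : i ∈ vs U ↔ ∃ K ∈ U, i ∈ K := by
  unfold vs
  rw [Finset.mem_filter]
  exact ⟨fun h => h.2, fun h => ⟨Finset.mem_univ _, h⟩⟩

lemma mem_cut {U : Finset (Finset V)} {i : V} :
    i ∈ cut H U ↔ (∃ K ∈ U, i ∈ K) ∧ ∃ K ∈ H, K ∉ U ∧ i ∈ K := by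
  unfold cut
  rw [Finset.mem_filter]
  constructor
  · rintro ⟨-, h, K, hK, hi⟩
    rw [Finset.mem_sdiff] at hK
    exact ⟨h, K, hK.1, hK.2, hi⟩
  · rintro ⟨h, K, hK, hK', hi⟩
    exact ⟨Finset.mem_univ _, h, K, Finset.mem_sdiff.2 ⟨hK, hK'⟩, hi⟩

/-- the product of the variables of the scopes in `U` -/
noncomputable def pr (U : Finset (Finset V)) (a : V → A) : MvPolynomial (V → Option A) F :=
  ∏ K ∈ U, X (restr K a)

/-- the contracted tensor -/
noncomputable def T (U : Finset (Finset V)) (b : V → A) : MvPolynomial (V → Option A) F :=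
  E (inn H U) b (pr F U)

lemma pr_dep (U : Finset (Finset V)) : Dep (vs U) (pr (A := A) F U) := by
  intro a a' h
  unfold pr
  refine Finset.prod_congr rfl fun K hK => ?_
  congr 1
  funext i
  unfold restr
  split_ifs with hi
  · rw [h i (mem_vs.2 ⟨K, hK, hi⟩)]
  · rfl

lemma T_dep {U : Finset (Finset V)} {b b' : V → A} (h : ∀ i ∈ cut H U, b i = b' i) :
    T F H U b = T F H U b' := by
  refine E_dep (pr_dep F U) fun i hi hi' => h i ?_
  rw [mem_cut]
  rw [mem_vs] at hi
  refine ⟨hi, ?_⟩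
  by_contra hcon
  push Not at hcon
  refine hi' ((mem_inn H).2 ⟨hi, fun K hK hiK => ?_⟩)
  by_contra hK'
  exact hcon K hK hK' hiK

lemma T_node {U₁ U₂ : Finset (Finset V)} (h1 : U₁ ⊆ H) (h2 : U₂ ⊆ H) (hd : Disjoint U₁ U₂)
    (b : V → A) : T F H (U₁ ∪ U₂) b =
      E ((cut H U₁ ∪ cut H U₂) \ cut H (U₁ ∪ U₂)) b fun d => T F H U₁ d * T F H U₂ d := by
  have hn : ∀ K, K ∈ U₁ → K ∉ U₂ := fun K h => Finset.disjoint_left.1 hd h
  have e1 : inn H (U₁ ∪ U₂) = (cut H U₁ ∪ cut H U₂) \ cut H (U₁ ∪ U₂) ∪ (inn H U₁ ∪ inn H U₂) := by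
    ext i
    rw [Finset.mem_union, Finset.mem_sdiff, Finset.mem_union, Finset.mem_union, mem_inn, mem_inn,
      mem_inn, mem_cut, mem_cut, mem_cut]
    constructor
    · rintro ⟨⟨K, hK, hi⟩, h⟩
      by_cases c1 : ∀ K ∈ H, i ∈ K → K ∈ U₁
      · right; left
        rw [Finset.mem_union] at hK
        rcases hK with hK | hK
        · exact ⟨⟨K, hK, hi⟩, c1⟩
        · exact absurd hK (hn K (c1 K (h2 hK) hi))
      · by_cases c2 : ∀ K ∈ H, i ∈ K → K ∈ U₂
        · right; right
          rw [Finset.mem_union] at hK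
          rcases hK with hK | hK
          · exact absurd (c2 K (h1 hK) hi) (hn K hK)
          · exact ⟨⟨K, hK, hi⟩, c2⟩
        · left
          push Not at c1 c2
          obtain ⟨K₁, k1, k2, k3⟩ := c1
          obtain ⟨K₂, l1, l2, l3⟩ := c2
          refine ⟨?_, ?_⟩
          · rw [Finset.mem_union] at hK
            rcases hK with hK | hK
            · exact Or.inl ⟨⟨K, hK, hi⟩, K₁, k1, k3, k2⟩
            · exact Or.inr ⟨⟨K, hK, hi⟩, K₂, l1, l3, l2⟩
          · rintro ⟨-, K', m1, m2, m3⟩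
            exact m2 (h K' m1 m3)
    · rintro (⟨h, h'⟩ | ⟨⟨K, hK, hi⟩, h⟩ | ⟨⟨K, hK, hi⟩, h⟩)
      · have h3 : ∃ K ∈ U₁ ∪ U₂, i ∈ K := by
          rcases h with ⟨⟨K, hK, hi⟩, -⟩ | ⟨⟨K, hK, hi⟩, -⟩
          · exact ⟨K, Finset.mem_union_left _ hK, hi⟩
          · exact ⟨K, Finset.mem_union_right _ hK, hi⟩
        refine ⟨h3, fun K hK hi => ?_⟩
        by_contra hK'
        exact h' ⟨h3, K, hK, hK', hi⟩
      · exact ⟨⟨K, Finset.mem_union_left _ hK, hi⟩, fun K hK hi => Finset.mem_union_left _ (h K hK hi)⟩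
      · exact ⟨⟨K, Finset.mem_union_right _ hK, hi⟩,
          fun K hK hi => Finset.mem_union_right _ (h K hK hi)⟩
  have e2 : Disjoint ((cut H U₁ ∪ cut H U₂) \ cut H (U₁ ∪ U₂)) (inn H U₁ ∪ inn H U₂) := by
    rw [Finset.disjoint_left]
    intro i hi hi'
    rw [Finset.mem_sdiff, Finset.mem_union, mem_cut, mem_cut] at hi
    rw [Finset.mem_union, mem_inn, mem_inn] at hi'
    rcases hi.1 with ⟨⟨K, k1, k2⟩, K', l1, l2, l3⟩ | ⟨⟨K, k1, k2⟩, K', l1, l2, l3⟩
    · rcases hi' with ⟨-, h⟩ | ⟨-, h⟩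
      · exact l2 (h K' l1 l3)
      · exact hn K k1 (h K (h1 k1) k2)
    · rcases hi' with ⟨-, h⟩ | ⟨-, h⟩
      · exact hn K (h K (h2 k1) k2) k1
      · exact l2 (h K' l1 l3)
  have e3 : Disjoint (inn H U₁) (inn H U₂) := by
    rw [Finset.disjoint_left]
    intro i hi hi'
    rw [mem_inn] at hi hi'
    obtain ⟨⟨K, hK, hiK⟩, -⟩ := hi
    exact hn K hK (hi'.2 K (h1 hK) hiK)
  have e4 : Disjoint (vs U₁) (inn H U₂) := by
    rw [Finset.disjoint_left]
    intro i hi hi'
    rw [mem_vs] at hi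
    rw [mem_inn] at hi'
    obtain ⟨K, hK, hiK⟩ := hi
    exact hn K hK (hi'.2 K (h1 hK) hiK)
  have e5 : Disjoint (vs U₂) (inn H U₁) := by
    rw [Finset.disjoint_left]
    intro i hi hi'
    rw [mem_vs] at hi
    rw [mem_inn] at hi'
    obtain ⟨K, hK, hiK⟩ := hi
    exact hn K (hi'.2 K (h2 hK) hiK) hK
  unfold T
  rw [e1, E_fub e2]
  congr 1
  funext d
  have e6 : pr (A := A) F (U₁ ∪ U₂) = fun a => pr F U₁ a * pr F U₂ a := by
    funext a
    unfold pr
    exact Finset.prod_union hd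
  rw [e6]
  exact E_mul e3 (pr_dep F U₁) (pr_dep F U₂) e4 e5 d

/-! ### homogeneity -/

lemma cnt_mono (U : Finset (Finset V)) (a : V → A) (K : Finset V) (i : V) (hi : i ∈ K) (α : A) :
    cnt K i α (∑ K' ∈ U, Finsupp.single (restr K' a) 1) = if K ∈ U ∧ a i = α then 1 else 0 := by
  unfold cnt
  have h1 : ∀ β : V → Option A, (∑ K' ∈ U, Finsupp.single (restr K' a) 1 : (V → Option A) →₀ ℕ) β =
      ∑ K' ∈ U, if restr K' a = β then 1 else 0 := by
    intro β
    rw [Finsupp.finsetSum_apply]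
    refine Finset.sum_congr rfl fun K' _ => ?_
    rw [Finsupp.single_apply]
  rw [Finset.sum_congr rfl fun β _ => h1 β, Finset.sum_comm]
  have h2 : ∀ K' ∈ U, (∑ β ∈ univ.filter (fun β : V → Option A => scope β = K ∧ β i = some α),
      if restr K' a = β then 1 else 0) = if K' = K then (if a i = α then 1 else 0) else 0 := by
    intro K' _
    rw [Finset.sum_ite_eq]
    simp only [Finset.mem_filter]
    by_cases hK : K' = K
    · rw [if_pos hK]
      subst hK
      by_cases ha : a i = α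
      · rw [if_pos ha, if_pos]
        refine ⟨Finset.mem_univ _, Dup.scope_restr _ _, ?_⟩
        unfold restr
        rw [if_pos hi, ha]
      · rw [if_neg ha, if_neg]
        rintro ⟨-, -, h⟩
        unfold restr at h
        rw [if_pos hi] at h
        exact ha (Option.some.inj h)
    · rw [if_neg hK, if_neg]
      rintro ⟨-, h, -⟩
      rw [Dup.scope_restr] at h
      exact hK h
  rw [Finset.sum_congr rfl h2, Finset.sum_ite_eq']
  by_cases hK : K ∈ U
  · rw [if_pos hK]
    by_cases ha : a i = α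
    · rw [if_pos ha, if_pos ⟨hK, ha⟩]
    · rw [if_neg ha, if_neg fun h => ha h.2]
  · rw [if_neg hK, if_neg fun h => hK h.1]

lemma supp_T {U : Finset (Finset V)} {b : V → A} {u : (V → Option A) →₀ ℕ}
    (hu : u ∈ (T F H U b).support) :
    ∃ a : V → A, (∀ i, i ∉ inn H U → a i = b i) ∧ u = ∑ K' ∈ U, Finsupp.single (restr K' a) 1 := by
  classical
  unfold T E at hu
  have h1 := MvPolynomial.support_sum hu
  rw [Finset.mem_biUnion] at h1
  obtain ⟨a, ha, h2⟩ := h1
  rw [Finset.mem_filter] at ha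
  refine ⟨a, ha.2, ?_⟩
  have h3 : pr F U a = monomial (∑ K' ∈ U, Finsupp.single (restr K' a) 1) 1 := by
    unfold pr
    rw [MvPolynomial.monomial_sum_one]
    rfl
  rw [h3] at h2
  exact Finset.mem_singleton.1 (MvPolynomial.support_monomial_subset h2)

lemma hom_T (U : Finset (Finset V)) (b : V → A) : Hom H (T F H U b) := by
  intro u hu u' hu' i α K hK hi K' hK' hi'
  obtain ⟨a, ha, rfl⟩ := supp_T F H hu
  obtain ⟨a', ha', rfl⟩ := supp_T F H hu'
  rw [cnt_mono U a K i hi, cnt_mono U a K' i hi', cnt_mono U a' K i hi, cnt_mono U a' K' i hi']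
  by_cases h : i ∈ inn H U
  · rw [mem_inn] at h
    have h1 := h.2 K hK hi
    have h2 := h.2 K' hK' hi'
    simp only [h1, h2, true_and, sub_self]
  · rw [ha i h, ha' i h]

/-! ### the program -/

lemma exists_tree : ∀ U : Finset (Finset V), U.Nonempty → ∃ T : CTree V, T.Proper ∧ T.leaves = U := by
  intro U
  induction U using Finset.induction_on with
  | empty => intro h; exact absurd h Finset.not_nonempty_empty
  | insert K U hK ih =>
    intro _
    rcases U.eq_empty_or_nonempty with h | h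
    · subst h
      exact ⟨CTree.leaf K, trivial, rfl⟩
    · obtain ⟨T, h1, h2⟩ := ih h
      refine ⟨CTree.node (CTree.leaf K) T, ⟨trivial, h1, ?_⟩, ?_⟩
      · rw [h2]
        exact Finset.disjoint_singleton_left.2 hK
      · change {K} ∪ T.leaves = _
        rw [h2]
        rfl

lemma leaves_ne (t : CTree V) : 0 < t.leaves.card := by
  induction t with
  | leaf K => exact Nat.one_pos
  | node l r hl hr => exact hl.trans_le (Finset.card_le_card Finset.subset_union_left)

lemma prog [Nonempty A] (w : ℕ) : ∀ t : CTree V, t.Proper → t.leaves ⊆ H → t.width H ≤ w →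
    ∃ l : List (MvPolynomial (V → Option A) F × MvPolynomial (V → Option A) F), Valid l ∧
      (∀ s ∈ l, Hom H s.1 ∧ Hom H s.2) ∧ (∀ b, T F H t.leaves b ∈ Sp l) ∧
      l.length ≤ (t.leaves.card - 1) * Fintype.card A ^ w := by
  intro t
  induction t with
  | leaf K =>
    intro _ _ _
    refine ⟨[], trivial, fun s hs => absurd hs (List.not_mem_nil), fun b => ?_, Nat.zero_le _⟩
    unfold T E
    refine Submodule.sum_mem _ fun a _ => ?_
    unfold pr
    change ∏ K' ∈ {K}, X (restr K' a) ∈ _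
    rw [Finset.prod_singleton]
    exact X_mem _ _
  | node t₁ t₂ ih₁ ih₂ =>
    intro hp hs hw
    obtain ⟨p1, p2, p3⟩ := hp
    have s1 : t₁.leaves ⊆ H := Finset.subset_union_left.trans hs
    have s2 : t₂.leaves ⊆ H := Finset.subset_union_right.trans hs
    have w0 : (cut H t₁.leaves ∪ cut H t₂.leaves).card ≤ w := (le_max_left _ _).trans hw
    have w1 : t₁.width H ≤ w := (le_max_left _ _).trans ((le_max_right _ _).trans hw)
    have w2 : t₂.width H ≤ w := (le_max_right _ _).trans ((le_max_right _ _).trans hw)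
    obtain ⟨l₁, v1, g1, m1, c1⟩ := ih₁ p1 s1 w1
    obtain ⟨l₂, v2, g2, m2, c2⟩ := ih₂ p2 s2 w2
    obtain ⟨a₀⟩ := ‹Nonempty A›
    set W := cut H t₁.leaves ∪ cut H t₂.leaves with hW
    let ext : ({i // i ∈ W} → A) → V → A := fun c i => if h : i ∈ W then c ⟨i, h⟩ else a₀
    let st : ({i // i ∈ W} → A) → MvPolynomial (V → Option A) F × MvPolynomial (V → Option A) F :=
      fun c => (T F H t₁.leaves (ext c), T F H t₂.leaves (ext c))
    let L := (univ : Finset ({i // i ∈ W} → A)).toList.map st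
    have hLm : ∀ c, st c ∈ L := fun c =>
      List.mem_map_of_mem (Finset.mem_toList.2 (Finset.mem_univ c))
    have hLlen : L.length = Fintype.card A ^ W.card := by
      rw [List.length_map, Finset.length_toList, Finset.card_univ, Fintype.card_fun,
        Fintype.card_coe]
    have hLin : ∀ s ∈ L, ∃ c, s = st c := by
      intro s hs
      obtain ⟨c, -, rfl⟩ := List.mem_map.1 hs
      exact ⟨c, rfl⟩
    refine ⟨L ++ (l₁ ++ l₂), valid_append' ?_ (valid_append v1 v2), ?_, fun b => ?_, ?_⟩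
    · intro s hs
      obtain ⟨c, rfl⟩ := hLin s hs
      exact ⟨Sp_mono (fun s hs => List.mem_append_left _ hs) (m1 _),
        Sp_mono (fun s hs => List.mem_append_right _ hs) (m2 _)⟩
    · intro s hs
      rcases List.mem_append.1 hs with hs | hs
      · obtain ⟨c, rfl⟩ := hLin s hs
        exact ⟨hom_T F H _ _, hom_T F H _ _⟩
      · rcases List.mem_append.1 hs with hs | hs
        · exact g1 s hs
        · exact g2 s hs
    · change T F H (t₁.leaves ∪ t₂.leaves) b ∈ _
      rw [T_node F H s1 s2 p3]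
      unfold E
      refine Submodule.sum_mem _ fun d _ => ?_
      have e1 : T F H t₁.leaves d = T F H t₁.leaves (ext fun i => d i) := T_dep F H fun i hi => by
        simp only [ext]
        rw [dif_pos (Finset.mem_union_left _ hi)]
      have e2 : T F H t₂.leaves d = T F H t₂.leaves (ext fun i => d i) := T_dep F H fun i hi => by
        simp only [ext]
        rw [dif_pos (Finset.mem_union_right _ hi)]
      rw [e1, e2]
      exact mul_mem' (List.mem_append_left _ (hLm fun i => d i))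
    · have hc : (CTree.node t₁ t₂).leaves.card = t₁.leaves.card + t₂.leaves.card :=
        Finset.card_union_of_disjoint p3
      rw [List.length_append, List.length_append, hLlen, hc]
      have hA : 0 < Fintype.card A := Fintype.card_pos_iff.2 ⟨a₀⟩
      have h3 : Fintype.card A ^ W.card ≤ Fintype.card A ^ w := Nat.pow_le_pow_right hA w0
      have h1 := leaves_ne t₁
      have h2 := leaves_ne t₂
      obtain ⟨n₁, e1⟩ : ∃ n, t₁.leaves.card = n + 1 := ⟨t₁.leaves.card - 1, by omega⟩
      obtain ⟨n₂, e2⟩ : ∃ n, t₂.leaves.card = n + 1 := ⟨t₂.leaves.card - 1, by omega⟩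
      rw [e1, Nat.add_sub_cancel] at c1
      rw [e2, Nat.add_sub_cancel] at c2
      have e3 : n₁ + 1 + (n₂ + 1) - 1 = n₁ + n₂ + 1 := by omega
      rw [e1, e2, e3, add_mul, add_mul, one_mul]
      omega

end ten

end Cup

open Cup in
theorem t_CUP : S_CUP := by
  intro F _ V A _ _ _ _ _ H hH hcov
  obtain ⟨t₀, h1, h2⟩ := exists_tree H hH
  obtain ⟨t, p1, p2, p3⟩ : cwidth H ∈ {w | ∃ T : CTree V, T.Proper ∧ T.leaves = H ∧ T.width H = w} :=
    Nat.sInf_mem ⟨_, t₀, h1, h2, rfl⟩
  obtain ⟨l, g1, g2, g3, g4⟩ := prog (A := A) F H (cwidth H) t p1 p2.le p3.le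
  rw [p2] at g4
  refine ⟨l, g1, g2, ?_, g4⟩
  obtain ⟨a₀⟩ := ‹Nonempty A›
  have h3 := g3 fun _ => a₀
  rw [p2] at h3
  have h4 : T F H H (fun _ => a₀) = Z F A H := by
    unfold T E Z
    refine Finset.sum_congr ?_ fun _ _ => rfl
    rw [Finset.filter_true_of_mem]
    intro a _ i hi
    exact absurd ((mem_inn H).2 ⟨hcov i, fun K hK _ => hK⟩) hi
  rwa [h4] at h3

end Pool.Agent.HS38.GT
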