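import Pool.Agent.HS38.GT.Stm6
import Pool.Agent.HS38.GT.Cup

/-!
# Piece CUP2 of project GT, part 5 (helper55; adapted from `Cup.lean` of helper70)
-/

set_option autoImplicit false
set_option linter.unusedSectionVars false

namespace Pool.Agent.HS38.GT

open MvPolynomial Finset Pool.Agent.Helper1x.EQ

namespace CUP2

section prog

variable {F σ : Type} [Field F]

/-- one step -/
def Stp (l : List (MvPolynomial σ F)) (p : MvPolynomial σ F) : Prop :=
  (∃ x, p = X x) ∨ (∃ b, p = C b) ∨ ∃ g ∈ l, ∃ h ∈ l, p = g + h ∨ p = g * h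

lemma Stp.mono {l l' : List (MvPolynomial σ F)} (h : ∀ s ∈ l, s ∈ l') {p : MvPolynomial σ F}
    (hp : Stp l p) : Stp l' p := by
  rcases hp with h1 | h1 | ⟨g, hg, k, hk, e⟩
  · exact Or.inl h1
  · exact Or.inr (Or.inl h1)
  · exact Or.inr (Or.inr ⟨g, h g hg, k, h k hk, e⟩)

lemma sl_append {l l' : List (MvPolynomial σ F)} (h : SL l) (h' : SL l') : SL (l ++ l') := by
  induction l with
  | nil => exact h'
  | cons s l ih => exact ⟨ih h.1, Stp.mono (fun s hs => List.mem_append_left _ hs) h.2⟩

lemma sl_append' {l l' : List (MvPolynomial σ F)} (h : ∀ s ∈ l, Stp l' s) (h' : SL l') :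
    SL (l ++ l') := by
  induction l with
  | nil => exact h'
  | cons s l ih =>
    exact ⟨ih fun s hs => h s (List.mem_cons_of_mem _ hs),
      Stp.mono (fun s hs => List.mem_append_right _ hs) (h s (List.mem_cons_self ..))⟩

/-- the sum of a list -/
lemma sum_prog (P : MvPolynomial σ F → Prop) (hP : ∀ p q, P p → P q → P (p + q)) :
    ∀ fs : List (MvPolynomial σ F), fs ≠ [] → ∀ l, SL l → (∀ f ∈ fs, f ∈ l) → (∀ f ∈ fs, P f) →
      ∃ l', SL (l' ++ l) ∧ (∀ p ∈ l', P p) ∧ fs.sum ∈ l' ++ l ∧ l'.length + 1 ≤ fs.length ∧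
        P fs.sum := by
  intro fs
  induction fs with
  | nil => intro h; exact absurd rfl h
  | cons f fs ih =>
    intro _ l hl hm hp
    by_cases hfs : fs = []
    · subst hfs
      refine ⟨[], hl, fun p hp => absurd hp (List.not_mem_nil), ?_, le_rfl, ?_⟩
      · rw [List.sum_cons, List.sum_nil, add_zero]
        exact hm f (List.mem_cons_self ..)
      · rw [List.sum_cons, List.sum_nil, add_zero]
        exact hp f (List.mem_cons_self ..)
    · obtain ⟨l', g1, g2, g3, g4, g5⟩ := ih hfs l hl (fun f hf => hm f (List.mem_cons_of_mem _ hf))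
        (fun f hf => hp f (List.mem_cons_of_mem _ hf))
      have hP' : P (f + fs.sum) := hP _ _ (hp f (List.mem_cons_self ..)) g5
      refine ⟨(f + fs.sum) :: l', ⟨g1, Or.inr (Or.inr ⟨f, ?_, fs.sum, g3, Or.inl rfl⟩)⟩, ?_, ?_, ?_,
        ?_⟩
      · exact List.mem_append_right _ (hm f (List.mem_cons_self ..))
      · intro p hp'
        rcases List.mem_cons.1 hp' with rfl | hp'
        · exact hP'
        · exact g2 p hp'
      · rw [List.sum_cons]
        exact List.mem_cons_self ..
      · rw [List.length_cons, List.length_cons]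
        omega
      · rw [List.sum_cons]
        exact hP'

/-- several sums -/
lemma multi {ι : Type} (G : MvPolynomial σ F → Prop) (P : ι → MvPolynomial σ F → Prop)
    (hP : ∀ i p q, P i p → P i q → P i (p + q)) (hG : ∀ i p, P i p → G p)
    (fs : ι → List (MvPolynomial σ F)) (l : List (MvPolynomial σ F)) (hl : SL l) (m : ℕ) :
    ∀ ts : List ι, (∀ i ∈ ts, fs i ≠ [] ∧ (fs i).length ≤ m ∧ ∀ f ∈ fs i, f ∈ l ∧ P i f) →
      ∃ l', SL (l' ++ l) ∧ (∀ p ∈ l', G p) ∧ (∀ i ∈ ts, (fs i).sum ∈ l' ++ l) ∧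
        l'.length ≤ ts.length * m := by
  intro ts
  induction ts with
  | nil =>
    intro _
    exact ⟨[], hl, fun p hp => absurd hp (List.not_mem_nil), fun i hi => absurd hi
      (List.not_mem_nil), Nat.zero_le _⟩
  | cons i ts ih =>
    intro h
    obtain ⟨l', g1, g2, g3, g4⟩ := ih fun j hj => h j (List.mem_cons_of_mem _ hj)
    obtain ⟨h1, h2, h3⟩ := h i (List.mem_cons_self ..)
    obtain ⟨l'', k1, k2, k3, k4, -⟩ := sum_prog (P i) (hP i) (fs i) h1 (l' ++ l) g1
      (fun f hf => List.mem_append_right _ (h3 f hf).1) (fun f hf => (h3 f hf).2)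
    refine ⟨l'' ++ l', ?_, ?_, ?_, ?_⟩
    · rw [List.append_assoc]
      exact k1
    · intro p hp
      rcases List.mem_append.1 hp with hp | hp
      · exact hG i p (k2 p hp)
      · exact g2 p hp
    · intro j hj
      rw [List.append_assoc]
      rcases List.mem_cons.1 hj with rfl | hj
      · exact k3
      · exact List.mem_append_right _ (g3 j hj)
    · rw [List.length_append, List.length_cons, add_mul, one_mul]
      omega

end prog

section ten

variable {V A : Type} [Fintype V] [DecidableEq V] [Fintype A] [DecidableEq A] (F : Type) [Field F]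
  (H : Finset (Finset V))

open Cup

theorem gauge_restr (t : Finset V → V → A → Fˣ) (K : Finset V) (a : V → A) :
    gauge t (restr K a) = ((∏ i ∈ K, t K i (a i) : Fˣ) : F) := by
  unfold gauge
  congr 1
  rw [Dup.scope_restr, ← Finset.prod_subset (Finset.subset_univ K)]
  · refine Finset.prod_congr rfl fun i hi => ?_
    simp [restr, hi]
  · intro i _ hi
    simp [restr, hi]

/-- the eigenvalue of the contracted tensor -/
def lam (t : Finset V → V → A → Fˣ) (U : Finset (Finset V)) (b : V → A) : Fˣ :=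
  ∏ K ∈ U, ∏ i ∈ K, t K i (b i)

lemma lam_congr {t : Finset V → V → A → Fˣ} (ht : IsGauge H t) {U : Finset (Finset V)}
    (hU : U ⊆ H) {a b : V → A} (h : ∀ i, i ∉ inn H U → a i = b i) :
    lam F t U a = lam F t U b := by
  have h1 : ∀ c : V → A, lam F t U c = ∏ i, ∏ K ∈ U.filter (fun K => i ∈ K), t K i (c i) := by
    intro c
    unfold lam
    rw [Finset.prod_comm' (t' := univ) (s' := fun i => U.filter (fun K => i ∈ K))]
    intro K i
    simp only [Finset.mem_filter, Finset.mem_univ, and_true]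
  rw [h1, h1]
  refine Finset.prod_congr rfl fun i _ => ?_
  by_cases hi : i ∈ inn H U
  · rw [mem_inn] at hi
    have h2 : U.filter (fun K => i ∈ K) = H.filter (fun K => i ∈ K) := by
      ext K
      rw [Finset.mem_filter, Finset.mem_filter]
      exact ⟨fun h => ⟨hU h.1, h.2⟩, fun h => ⟨hi.2 K h.1 h.2, h.2⟩⟩
    rw [h2, ht i (a i), ht i (b i)]
  · rw [h i hi]

/-- eigenvector with the given eigenvalue -/
def EigV (U : Finset (Finset V)) (b : V → A) (p : MvPolynomial (V → Option A) F) : Prop :=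
  ∀ t : Finset V → V → A → Fˣ, IsGauge H t →
    scale (gauge t) p = C ((lam F t U b : Fˣ) : F) * p

lemma EigV.add {U : Finset (Finset V)} {b : V → A} {p q : MvPolynomial (V → Option A) F}
    (hp : EigV F H U b p) (hq : EigV F H U b q) : EigV F H U b (p + q) := by
  intro t ht
  rw [map_add, hp t ht, hq t ht, mul_add]

lemma EigV.sum {ι : Type} {U : Finset (Finset V)} {b : V → A} (s : Finset ι)
    (p : ι → MvPolynomial (V → Option A) F) (hp : ∀ i ∈ s, EigV F H U b (p i)) :
    EigV F H U b (∑ i ∈ s, p i) := by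
  intro t ht
  rw [map_sum, Finset.mul_sum]
  exact Finset.sum_congr rfl fun i hi => hp i hi t ht

lemma EigV.eig {U : Finset (Finset V)} {b : V → A} {p : MvPolynomial (V → Option A) F}
    (hp : EigV F H U b p) : ∀ t : Finset V → V → A → Fˣ, IsGauge H t → Eig (gauge t) p :=
  fun t ht => ⟨_, hp t ht⟩

lemma eigV_pr {U : Finset (Finset V)} (hU : U ⊆ H) {a b : V → A}
    (h : ∀ i, i ∉ inn H U → a i = b i) : EigV F H U b (pr F U a) := by
  intro t ht
  rw [← lam_congr F H ht hU h]
  unfold pr lam
  rw [map_prod, Units.coe_prod, map_prod, ← Finset.prod_mul_distrib]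
  refine Finset.prod_congr rfl fun K _ => ?_
  rw [← gauge_restr]
  unfold scale
  rw [MvPolynomial.aeval_X]

lemma eigV_T {U : Finset (Finset V)} (hU : U ⊆ H) (b : V → A) : EigV F H U b (T F H U b) := by
  unfold T E
  refine EigV.sum F H _ _ fun a ha => ?_
  rw [Finset.mem_filter] at ha
  exact eigV_pr F H hU ha.2

lemma inn_sub {U₁ U₂ : Finset (Finset V)} {i : V}
    (hi : i ∈ (cut H U₁ ∪ cut H U₂) \ cut H (U₁ ∪ U₂)) : i ∈ inn H (U₁ ∪ U₂) := by
  rw [Finset.mem_sdiff, Finset.mem_union, mem_cut, mem_cut, mem_cut] at hi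
  rw [mem_inn]
  have h3 : ∃ K ∈ U₁ ∪ U₂, i ∈ K := by
    rcases hi.1 with ⟨⟨K, hK, hi⟩, -⟩ | ⟨⟨K, hK, hi⟩, -⟩
    · exact ⟨K, Finset.mem_union_left _ hK, hi⟩
    · exact ⟨K, Finset.mem_union_right _ hK, hi⟩
  refine ⟨h3, fun K hK hiK => ?_⟩
  by_contra hK'
  exact hi.2 ⟨h3, K, hK, hK', hiK⟩

lemma eigV_mul {U₁ U₂ : Finset (Finset V)} (h1 : U₁ ⊆ H) (h2 : U₂ ⊆ H) (hd : Disjoint U₁ U₂)
    {d b : V → A} (h : ∀ i, i ∉ inn H (U₁ ∪ U₂) → d i = b i) :
    EigV F H (U₁ ∪ U₂) b (T F H U₁ d * T F H U₂ d) := by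
  intro t ht
  rw [map_mul, eigV_T F H h1 d t ht, eigV_T F H h2 d t ht,
    ← lam_congr F H ht (Finset.union_subset h1 h2) h]
  have e : lam F t (U₁ ∪ U₂) d = lam F t U₁ d * lam F t U₂ d := by
    unfold lam
    exact Finset.prod_union hd
  rw [e, Units.val_mul, map_mul]
  ring

/-- the number of the assignments which agree with `b` outside `J` -/
lemma card_agree (J : Finset V) (b : V → A) :
    (univ.filter (fun a : V → A => ∀ i, i ∉ J → a i = b i)).card = Fintype.card A ^ J.card := by
  have h1 : (univ.filter (fun a : V → A => ∀ i, i ∉ J → a i = b i)).card =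
      Fintype.card ({i // i ∈ J} → A) := by
    rw [← Finset.card_univ]
    refine Finset.card_bij' (fun a _ => fun i => a i)
      (fun c _ => fun i => if h : i ∈ J then c ⟨i, h⟩ else b i) ?_ ?_ ?_ ?_
    · intro a _
      exact Finset.mem_univ _
    · intro c _
      rw [Finset.mem_filter]
      exact ⟨Finset.mem_univ _, fun i hi => dif_neg hi⟩
    · intro a ha
      rw [Finset.mem_filter] at ha
      funext i
      simp only
      split_ifs with hi
      · rfl
      · exact (ha.2 i hi).symm
    · intro c _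
      funext i
      simp only
      rw [dif_pos i.2]
  rw [h1, Fintype.card_fun, Fintype.card_coe]

lemma filter_ne [Nonempty A] (J : Finset V) (b : V → A) :
    (univ.filter (fun a : V → A => ∀ i, i ∉ J → a i = b i)).toList ≠ [] := by
  rw [Ne, Finset.toList_eq_nil, ← Finset.card_eq_zero, card_agree]
  exact (pow_pos (Fintype.card_pos) _).ne'

lemma sum_E (J : Finset V) (b : V → A) (f : (V → A) → MvPolynomial (V → Option A) F) :
    ((univ.filter (fun a : V → A => ∀ i, i ∉ J → a i = b i)).toList.map f).sum = E J b f := by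
  unfold E
  rw [Finset.sum_map_toList]

/-- one contraction: given all the terms, the sums -/
lemma contract [Nonempty A] {U : Finset (Finset V)} (C' J : Finset V) (hC : cut H U ⊆ C')
    (f : (V → A) → MvPolynomial (V → Option A) F)
    (hf : ∀ b, T F H U b = E J b f)
    (hE : ∀ b d : V → A, (∀ i, i ∉ J → d i = b i) → EigV F H U b (f d))
    (l : List (MvPolynomial (V → Option A) F)) (hl : SL l) (hfl : ∀ d, f d ∈ l) :
    ∃ l', SL (l' ++ l) ∧
      (∀ p ∈ l', ∀ t : Finset V → V → A → Fˣ, IsGauge H t → Eig (gauge t) p) ∧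
      (∀ b, T F H U b ∈ l' ++ l) ∧
      l'.length ≤ Fintype.card A ^ C'.card * Fintype.card A ^ J.card := by
  classical
  obtain ⟨a₀⟩ := ‹Nonempty A›
  have : Nonempty A := ⟨a₀⟩
  let ext : ({i // i ∈ C'} → A) → V → A := fun c i => if h : i ∈ C' then c ⟨i, h⟩ else a₀
  let fs : ({i // i ∈ C'} → A) → List (MvPolynomial (V → Option A) F) := fun c =>
    (univ.filter (fun a : V → A => ∀ i, i ∉ J → a i = ext c i)).toList.map f
  obtain ⟨l', g1, g2, g3, g4⟩ := multi
    (fun p => ∀ t : Finset V → V → A → Fˣ, IsGauge H t → Eig (gauge t) p)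
    (fun c p => EigV F H U (ext c) p) (fun c p q hp hq => EigV.add F H hp hq)
    (fun c p hp => EigV.eig F H hp) fs l hl (Fintype.card A ^ J.card)
    (univ : Finset ({i // i ∈ C'} → A)).toList (by
      intro c _
      refine ⟨?_, ?_, ?_⟩
      · intro h
        exact filter_ne J (ext c) (List.map_eq_nil_iff.1 h)
      · show (List.map f _).length ≤ _
        rw [List.length_map, Finset.length_toList, card_agree]
      · intro p hp
        obtain ⟨d, hd, rfl⟩ := List.mem_map.1 hp
        rw [Finset.mem_toList, Finset.mem_filter] at hd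
        exact ⟨hfl d, hE _ _ hd.2⟩)
  refine ⟨l', g1, g2, fun b => ?_, ?_⟩
  · have h1 := g3 (fun i => b i) (Finset.mem_toList.2 (Finset.mem_univ _))
    have h2 : (fs fun i => b i).sum = T F H U b := by
      show (List.map f _).sum = _
      rw [sum_E, ← hf]
      refine T_dep F H fun i hi => ?_
      simp only [ext]
      rw [dif_pos (hC hi)]
    rwa [h2] at h1
  · rw [Finset.length_toList, Finset.card_univ, Fintype.card_fun, Fintype.card_coe] at g4
    exact g4

lemma prog [Nonempty A] (w : ℕ) : ∀ t : CTree V, t.Proper → t.leaves ⊆ H → t.width H ≤ w →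
    ∃ l : List (MvPolynomial (V → Option A) F), SL l ∧
      (∀ p ∈ l, ∀ t : Finset V → V → A → Fˣ, IsGauge H t → Eig (gauge t) p) ∧
      (∀ b, T F H t.leaves b ∈ l) ∧
      l.length ≤ 2 * (t.leaves.card - 1) * Fintype.card A ^ w +
        2 * ∑ K ∈ t.leaves, Fintype.card A ^ K.card := by
  classical
  intro t
  have hA : 0 < Fintype.card A := Fintype.card_pos
  obtain ⟨a₀⟩ := ‹Nonempty A›
  have : Nonempty A := ⟨a₀⟩
  induction t with
  | leaf K =>
    intro _ hs _
    have hKH : K ∈ H := hs (Finset.mem_singleton_self K)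
    obtain ⟨ext, hext⟩ : ∃ ext : ({i // i ∈ K} → A) → V → A, ∀ c i (h : i ∈ K), ext c i = c ⟨i, h⟩ :=
      ⟨fun c i => if h : i ∈ K then c ⟨i, h⟩ else a₀, fun c i h => dif_pos h⟩
    obtain ⟨vx, hvx⟩ : ∃ vx : ({i // i ∈ K} → A) → MvPolynomial (V → Option A) F,
      ∀ c, vx c = pr F {K} (ext c) := ⟨_, fun c => rfl⟩
    obtain ⟨l₀, hl₀⟩ : ∃ l₀ : List (MvPolynomial (V → Option A) F),
      l₀ = (univ : Finset ({i // i ∈ K} → A)).toList.map vx := ⟨_, rfl⟩
    have hpr : ∀ d : V → A, pr F {K} d = X (restr K d) := fun d => by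
      unfold pr
      rw [Finset.prod_singleton]
    have hSL₀ : SL l₀ := by
      have := sl_append' (l := l₀) (l' := []) (fun s hs => by
        rw [hl₀] at hs
        obtain ⟨c, -, rfl⟩ := List.mem_map.1 hs
        exact Or.inl ⟨restr K (ext c), by rw [hvx, hpr]⟩) trivial
      rwa [List.append_nil] at this
    have hv : ∀ c, vx c ∈ l₀ := fun c => by
      rw [hl₀]
      exact List.mem_map_of_mem (Finset.mem_toList.2 (Finset.mem_univ c))
    have hX : ∀ d : V → A, pr F {K} d ∈ l₀ := by
      intro d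
      have e : restr K d = restr K (ext fun i => d i) := by
        funext i
        unfold restr
        split_ifs with hi
        · rw [hext _ _ hi]
        · rfl
      have e2 : pr F {K} d = vx fun i => d i := by
        rw [hvx, hpr, hpr, e]
      rw [e2]
      exact hv _
    obtain ⟨l', g1, g2, g3, g4⟩ := contract F H (U := {K}) (cut H {K}) (inn H {K}) le_rfl
      (pr F {K}) (fun b => rfl) (fun b d h => eigV_pr F H (Finset.singleton_subset_iff.2 hKH) h)
      l₀ hSL₀ hX
    refine ⟨l' ++ l₀, g1, ?_, g3, ?_⟩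
    · intro p hp
      rcases List.mem_append.1 hp with hp | hp
      · exact g2 p hp
      · rw [hl₀] at hp
        obtain ⟨c, -, hc⟩ := List.mem_map.1 hp
        have h0 : EigV F H {K} (ext c) (pr F {K} (ext c)) :=
          eigV_pr F H (Finset.singleton_subset_iff.2 hKH) (fun i _ => rfl)
        rw [← hc, hvx]
        exact EigV.eig F H h0
    · have h1 : l₀.length = Fintype.card A ^ K.card := by
        rw [hl₀, List.length_map, Finset.length_toList, Finset.card_univ, Fintype.card_fun,
          Fintype.card_coe]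
      have h2 : (cut H {K}).card + (inn H {K}).card ≤ K.card := by
        rw [← Finset.card_union_of_disjoint]
        · refine Finset.card_le_card (Finset.union_subset ?_ ?_)
          · intro i hi
            rw [mem_cut] at hi
            obtain ⟨⟨K', hK', hi⟩, -⟩ := hi
            rwa [Finset.mem_singleton.1 hK'] at hi
          · intro i hi
            rw [mem_inn] at hi
            obtain ⟨⟨K', hK', hi⟩, -⟩ := hi
            rwa [Finset.mem_singleton.1 hK'] at hi
        · rw [Finset.disjoint_left]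
          intro i hi hi'
          rw [mem_cut] at hi
          rw [mem_inn] at hi'
          obtain ⟨-, K', k1, k2, k3⟩ := hi
          exact k2 (hi'.2 K' k1 k3)
      have h3 : Fintype.card A ^ (cut H {K}).card * Fintype.card A ^ (inn H {K}).card ≤
          Fintype.card A ^ K.card := by
        rw [← pow_add]
        exact Nat.pow_le_pow_right hA h2
      rw [List.length_append, h1]
      change _ ≤ _ + 2 * ∑ K' ∈ {K}, Fintype.card A ^ K'.card
      rw [Finset.sum_singleton]
      omega
  | node t₁ t₂ ih₁ ih₂ =>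
    intro hp hs hw
    obtain ⟨p1, p2, p3⟩ := hp
    have s1 : t₁.leaves ⊆ H := Finset.subset_union_left.trans hs
    have s2 : t₂.leaves ⊆ H := Finset.subset_union_right.trans hs
    have w0 : (cut H t₁.leaves ∪ cut H t₂.leaves).card ≤ w := (le_max_left _ _).trans hw
    have w1 : t₁.width H ≤ w := (le_max_left _ _).trans ((le_max_right _ _).trans hw)
    have w2 : t₂.width H ≤ w := (le_max_right _ _).trans ((le_max_right _ _).trans hw)
    obtain ⟨l₁, v1, g1, m1, c1⟩ := ih₁ p1 s1 w1
    obtain ⟨l₂, v2, g2, m2, c2⟩ := ih₂ p2 s2 w2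
    set W := cut H t₁.leaves ∪ cut H t₂.leaves with hW
    obtain ⟨ext, hext⟩ : ∃ ext : ({i // i ∈ W} → A) → V → A, ∀ c i (h : i ∈ W), ext c i = c ⟨i, h⟩ :=
      ⟨fun c i => if h : i ∈ W then c ⟨i, h⟩ else a₀, fun c i h => dif_pos h⟩
    obtain ⟨st, hst0⟩ : ∃ st : ({i // i ∈ W} → A) → MvPolynomial (V → Option A) F,
      ∀ c, st c = T F H t₁.leaves (ext c) * T F H t₂.leaves (ext c) := ⟨_, fun c => rfl⟩
    obtain ⟨L, hL⟩ : ∃ L : List (MvPolynomial (V → Option A) F),
      L = (univ : Finset ({i // i ∈ W} → A)).toList.map st := ⟨_, rfl⟩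
    have hLm : ∀ c, st c ∈ L := fun c => by
      rw [hL]
      exact List.mem_map_of_mem (Finset.mem_toList.2 (Finset.mem_univ c))
    have hLlen : L.length = Fintype.card A ^ W.card := by
      rw [hL, List.length_map, Finset.length_toList, Finset.card_univ, Fintype.card_fun,
        Fintype.card_coe]
    have hLin : ∀ s ∈ L, ∃ c, s = st c := by
      intro s hs
      rw [hL] at hs
      obtain ⟨c, -, rfl⟩ := List.mem_map.1 hs
      exact ⟨c, rfl⟩
    have hst : ∀ d : V → A, T F H t₁.leaves d * T F H t₂.leaves d = st fun i => d i := by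
      intro d
      have e1 : T F H t₁.leaves d = T F H t₁.leaves (ext fun i => d i) := T_dep F H fun i hi => by
        rw [hext _ _ (Finset.mem_union_left _ hi)]
      have e2 : T F H t₂.leaves d = T F H t₂.leaves (ext fun i => d i) := T_dep F H fun i hi => by
        rw [hext _ _ (Finset.mem_union_right _ hi)]
      rw [hst0, e1, e2]
    have hl : SL (L ++ (l₁ ++ l₂)) := by
      refine sl_append' ?_ (sl_append v1 v2)
      intro s hs
      obtain ⟨c, rfl⟩ := hLin s hs
      exact Or.inr (Or.inr ⟨_, List.mem_append_left _ (m1 _), _, List.mem_append_right _ (m2 _),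
        Or.inr (hst0 c)⟩)
    obtain ⟨l', k1, k2, k3, k4⟩ := contract F H (U := t₁.leaves ∪ t₂.leaves)
      (cut H (t₁.leaves ∪ t₂.leaves)) (W \ cut H (t₁.leaves ∪ t₂.leaves)) le_rfl
      (fun d => T F H t₁.leaves d * T F H t₂.leaves d) (fun b => T_node F H s1 s2 p3 b)
      (fun b d h => eigV_mul F H s1 s2 p3 fun i hi => h i fun hi' => hi (inn_sub H hi'))
      (L ++ (l₁ ++ l₂)) hl (fun d => by
        rw [hst]
        exact List.mem_append_left _ (hLm _))
    refine ⟨l' ++ (L ++ (l₁ ++ l₂)), k1, ?_, k3, ?_⟩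
    · intro s hs
      rcases List.mem_append.1 hs with hs | hs
      · exact k2 s hs
      · rcases List.mem_append.1 hs with hs | hs
        · obtain ⟨c, hc⟩ := hLin s hs
          have h0 : EigV F H (t₁.leaves ∪ t₂.leaves) (ext c)
              (T F H t₁.leaves (ext c) * T F H t₂.leaves (ext c)) :=
            eigV_mul F H s1 s2 p3 (fun i _ => rfl)
          rw [← hst0, ← hc] at h0
          exact EigV.eig F H h0
        · rcases List.mem_append.1 hs with hs | hs
          · exact g1 s hs
          · exact g2 s hs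
    · have hc : (CTree.node t₁ t₂).leaves.card = t₁.leaves.card + t₂.leaves.card :=
        Finset.card_union_of_disjoint p3
      have hsum : ∑ K ∈ (CTree.node t₁ t₂).leaves, Fintype.card A ^ K.card =
          ∑ K ∈ t₁.leaves, Fintype.card A ^ K.card + ∑ K ∈ t₂.leaves, Fintype.card A ^ K.card :=
        Finset.sum_union p3
      have hcut : cut H (t₁.leaves ∪ t₂.leaves) ⊆ W := by
        intro i hi
        rw [mem_cut] at hi
        obtain ⟨⟨K, hK, hiK⟩, K', k1, k2, k3⟩ := hi
        rw [Finset.mem_union, not_or] at k2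
        rw [hW, Finset.mem_union, mem_cut, mem_cut]
        rcases Finset.mem_union.1 hK with hK | hK
        · exact Or.inl ⟨⟨K, hK, hiK⟩, K', k1, k2.1, k3⟩
        · exact Or.inr ⟨⟨K, hK, hiK⟩, K', k1, k2.2, k3⟩
      have h5 : (cut H (t₁.leaves ∪ t₂.leaves)).card + (W \ cut H (t₁.leaves ∪ t₂.leaves)).card =
          W.card := by
        rw [add_comm]
        exact Finset.card_sdiff_add_card_eq_card hcut
      rw [← pow_add, h5] at k4
      rw [List.length_append, List.length_append, List.length_append, hLlen, hc, hsum]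
      have h3 : Fintype.card A ^ W.card ≤ Fintype.card A ^ w := Nat.pow_le_pow_right hA w0
      have h1 := leaves_ne t₁
      have h2 := leaves_ne t₂
      obtain ⟨n₁, e1⟩ : ∃ n, t₁.leaves.card = n + 1 := ⟨t₁.leaves.card - 1, by omega⟩
      obtain ⟨n₂, e2⟩ : ∃ n, t₂.leaves.card = n + 1 := ⟨t₂.leaves.card - 1, by omega⟩
      rw [e1, Nat.add_sub_cancel] at c1
      rw [e2, Nat.add_sub_cancel] at c2
      have e3 : n₁ + 1 + (n₂ + 1) - 1 = n₁ + n₂ + 1 := by omega
      rw [e1, e2, e3]
      have e4 : 2 * (n₁ + n₂ + 1) * Fintype.card A ^ w = 2 * n₁ * Fintype.card A ^ w +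
          2 * n₂ * Fintype.card A ^ w + 2 * Fintype.card A ^ w := by ring
      rw [e4, mul_add]
      omega

end ten

end CUP2

open Cup CUP2 in
theorem t_CUP2 : S_CUP2 := by
  intro F _ V A _ _ _ _ _ H hH hcov
  obtain ⟨t₀, h1, h2⟩ := exists_tree H hH
  obtain ⟨t, p1, p2, p3⟩ : cwidth H ∈ {w | ∃ T : CTree V, T.Proper ∧ T.leaves = H ∧ T.width H = w} :=
    Nat.sInf_mem ⟨_, t₀, h1, h2, rfl⟩
  obtain ⟨l, g1, g2, g3, g4⟩ := CUP2.prog (A := A) F H (cwidth H) t p1 p2.le p3.le
  rw [p2] at g4
  refine ⟨l, g1, g2, ?_, g4⟩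
  obtain ⟨a₀⟩ := ‹Nonempty A›
  have h3 := g3 fun _ => a₀
  rw [p2] at h3
  have h4 : T F H H (fun _ => a₀) = Z F A H := by
    unfold T E Z
    refine Finset.sum_congr ?_ fun _ _ => rfl
    rw [Finset.filter_true_of_mem]
    intro a _ i hi
    exact absurd ((mem_inn H).2 ⟨hcov i, fun K hK _ => hK⟩) hi
  rwa [h4] at h3

end Pool.Agent.HS38.GT
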