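import Pool.Agent.HS38.GT.Stm10
import Pool.Agent.HS38.GT.CUP2

/-!
# Piece CUP3 of project GT, part 5 (helper23; adapted from `CUP2.lean` of helper55)
-/

set_option autoImplicit false
set_option linter.unusedSectionVars false

namespace Pool.Agent.HS38.GT

open MvPolynomial Finset Pool.Agent.Helper1x.EQ

namespace CUP3

section ten

variable {V A : Type} [Fintype V] [DecidableEq V] [Fintype A] [DecidableEq A] (F : Type) [Field F]
  (H : Finset (Finset V))

open Cup CUP2

/-- the exponents -/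
def ex2 (U : Finset (Finset V)) (b : V → A) (K : Finset V) (i : V) (α : A) : ℤ :=
  if K ∈ U ∧ b i = α then 1 else 0

lemma ex2_congr {U : Finset (Finset V)} {a b : V → A} (h : ∀ i, i ∉ inn H U → a i = b i)
    (i : V) (α : A) {K K' : Finset V} (hK : K ∈ H) (hi : i ∈ K) (hK' : K' ∈ H) (hi' : i ∈ K') :
    ex2 U a K i α - ex2 U a K' i α = ex2 U b K i α - ex2 U b K' i α := by
  unfold ex2
  by_cases h' : i ∈ inn H U
  · rw [mem_inn] at h'
    have h1 := h'.2 K hK hi
    have h2 := h'.2 K' hK' hi'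
    simp only [h1, h2, true_and, sub_self]
  · rw [h i h']

/-- all the monomials have the exponents of `U`, `b` -/
def HomV (U : Finset (Finset V)) (b : V → A) (p : MvPolynomial (V → Option A) F) : Prop :=
  ∀ u ∈ p.support, ∀ i α, ∀ K ∈ H, i ∈ K → ∀ K' ∈ H, i ∈ K' →
    (cnt K i α u : ℤ) - cnt K' i α u = ex2 U b K i α - ex2 U b K' i α

lemma HomV.add {U : Finset (Finset V)} {b : V → A} {p q : MvPolynomial (V → Option A) F}
    (hp : HomV F H U b p) (hq : HomV F H U b q) : HomV F H U b (p + q) := by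
  classical
  intro u hu
  rcases Finset.mem_union.1 (MvPolynomial.support_add hu) with h | h
  · exact hp u h
  · exact hq u h

lemma HomV.hom {U : Finset (Finset V)} {b : V → A} {p : MvPolynomial (V → Option A) F}
    (hp : HomV F H U b p) : Hom H p := by
  intro u hu u' hu' i α K hK hi K' hK' hi'
  rw [hp u hu i α K hK hi K' hK' hi', hp u' hu' i α K hK hi K' hK' hi']

lemma homV_mono {U : Finset (Finset V)} {a b : V → A} (h : ∀ i, i ∉ inn H U → a i = b i)
    (i : V) (α : A) {K K' : Finset V} (hK : K ∈ H) (hi : i ∈ K) (hK' : K' ∈ H) (hi' : i ∈ K') :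
    (cnt K i α (∑ K' ∈ U, Finsupp.single (restr K' a) 1) : ℤ) -
      cnt K' i α (∑ K' ∈ U, Finsupp.single (restr K' a) 1) =
      ex2 U b K i α - ex2 U b K' i α := by
  rw [cnt_mono U a K i hi, cnt_mono U a K' i hi', ← ex2_congr H h i α hK hi hK' hi']
  unfold ex2
  push_cast
  rfl

lemma homV_pr {U : Finset (Finset V)} {a b : V → A}
    (h : ∀ i, i ∉ inn H U → a i = b i) : HomV F H U b (pr F U a) := by
  classical
  intro u hu i α K hK hi K' hK' hi'
  have h3 : pr F U a = monomial (∑ K' ∈ U, Finsupp.single (restr K' a) 1) 1 := by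
    unfold pr
    rw [MvPolynomial.monomial_sum_one]
    rfl
  rw [h3] at hu
  rw [Finset.mem_singleton.1 (MvPolynomial.support_monomial_subset hu)]
  exact homV_mono H h i α hK hi hK' hi'

lemma homV_T (U : Finset (Finset V)) (b : V → A) : HomV F H U b (T F H U b) := by
  intro u hu i α K hK hi K' hK' hi'
  obtain ⟨a, ha, rfl⟩ := supp_T F H hu
  exact homV_mono H ha i α hK hi hK' hi'

lemma cnt_add (K : Finset V) (i : V) (α : A) (u v : (V → Option A) →₀ ℕ) :
    cnt K i α (u + v) = cnt K i α u + cnt K i α v := by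
  unfold cnt
  rw [← Finset.sum_add_distrib]
  rfl

lemma homV_mul {U₁ U₂ : Finset (Finset V)} (hd : Disjoint U₁ U₂)
    {d b : V → A} (h : ∀ i, i ∉ inn H (U₁ ∪ U₂) → d i = b i) :
    HomV F H (U₁ ∪ U₂) b (T F H U₁ d * T F H U₂ d) := by
  classical
  intro u hu i α K hK hi K' hK' hi'
  obtain ⟨v, hv, w, hw, rfl⟩ := Finset.mem_add.1 (MvPolynomial.support_mul _ _ hu)
  have h1 := homV_T F H U₁ d v hv i α K hK hi K' hK' hi'
  have h2 := homV_T F H U₂ d w hw i α K hK hi K' hK' hi'
  rw [← ex2_congr H h i α hK hi hK' hi', cnt_add, cnt_add]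
  have e : ∀ K : Finset V, ex2 (U₁ ∪ U₂) d K i α = ex2 U₁ d K i α + ex2 U₂ d K i α := by
    intro K
    unfold ex2
    by_cases hK1 : K ∈ U₁
    · have hK2 : K ∉ U₂ := Finset.disjoint_left.1 hd hK1
      simp [hK1, hK2]
    · simp [hK1]
  rw [e, e]
  push_cast
  linarith

/-- both properties -/
def PV (U : Finset (Finset V)) (b : V → A) (p : MvPolynomial (V → Option A) F) : Prop :=
  EigV F H U b p ∧ HomV F H U b p

lemma PV.add {U : Finset (Finset V)} {b : V → A} {p q : MvPolynomial (V → Option A) F}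
    (hp : PV F H U b p) (hq : PV F H U b q) : PV F H U b (p + q) :=
  ⟨EigV.add F H hp.1 hq.1, HomV.add F H hp.2 hq.2⟩

lemma PV.good {U : Finset (Finset V)} {b : V → A} {p : MvPolynomial (V → Option A) F}
    (hp : PV F H U b p) : (∀ t : Finset V → V → A → Fˣ, IsGauge H t → Eig (gauge t) p) ∧ Hom H p :=
  ⟨EigV.eig F H hp.1, HomV.hom F H hp.2⟩

lemma pv_pr {U : Finset (Finset V)} (hU : U ⊆ H) {a b : V → A}
    (h : ∀ i, i ∉ inn H U → a i = b i) : PV F H U b (pr F U a) :=
  ⟨eigV_pr F H hU h, homV_pr F H h⟩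

lemma pv_mul {U₁ U₂ : Finset (Finset V)} (h1 : U₁ ⊆ H) (h2 : U₂ ⊆ H) (hd : Disjoint U₁ U₂)
    {d b : V → A} (h : ∀ i, i ∉ inn H (U₁ ∪ U₂) → d i = b i) :
    PV F H (U₁ ∪ U₂) b (T F H U₁ d * T F H U₂ d) :=
  ⟨eigV_mul F H h1 h2 hd h, homV_mul F H hd h⟩

/-- one contraction: given all the terms, the sums -/
lemma contract3 [Nonempty A] {U : Finset (Finset V)} (C' J : Finset V) (hC : cut H U ⊆ C')
    (f : (V → A) → MvPolynomial (V → Option A) F)
    (hf : ∀ b, T F H U b = E J b f)
    (hE : ∀ b d : V → A, (∀ i, i ∉ J → d i = b i) → PV F H U b (f d))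
    (l : List (MvPolynomial (V → Option A) F)) (hl : SL l) (hfl : ∀ d, f d ∈ l) :
    ∃ l', SL (l' ++ l) ∧
      (∀ p ∈ l', (∀ t : Finset V → V → A → Fˣ, IsGauge H t → Eig (gauge t) p) ∧ Hom H p) ∧
      (∀ b, T F H U b ∈ l' ++ l) ∧
      l'.length ≤ Fintype.card A ^ C'.card * Fintype.card A ^ J.card := by
  classical
  obtain ⟨a₀⟩ := ‹Nonempty A›
  have : Nonempty A := ⟨a₀⟩
  let ext : ({i // i ∈ C'} → A) → V → A := fun c i => if h : i ∈ C' then c ⟨i, h⟩ else a₀
  let fs : ({i // i ∈ C'} → A) → List (MvPolynomial (V → Option A) F) := fun c =>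
    (univ.filter (fun a : V → A => ∀ i, i ∉ J → a i = ext c i)).toList.map f
  obtain ⟨l', g1, g2, g3, g4⟩ := multi
    (fun p => (∀ t : Finset V → V → A → Fˣ, IsGauge H t → Eig (gauge t) p) ∧ Hom H p)
    (fun c p => PV F H U (ext c) p) (fun c p q hp hq => PV.add F H hp hq)
    (fun c p hp => PV.good F H hp) fs l hl (Fintype.card A ^ J.card)
    (univ : Finset ({i // i ∈ C'} → A)).toList (by
      intro c _
      refine ⟨?_, ?_, ?_⟩
      · intro h
        exact filter_ne J (ext c) (List.map_eq_nil_iff.1 h)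
      · show (List.map f _).length ≤ _
        rw [List.length_map, Finset.length_toList, card_agree]
      · intro p hp
        obtain ⟨d, hd, rfl⟩ := List.mem_map.1 hp
        rw [Finset.mem_toList, Finset.mem_filter] at hd
        exact ⟨hfl d, hE _ _ hd.2⟩)
  refine ⟨l', g1, g2, fun b => ?_, ?_⟩
  · have h1 := g3 (fun i => b i) (Finset.mem_toList.2 (Finset.mem_univ _))
    have h2 : (fs fun i => b i).sum = T F H U b := by
      show (List.map f _).sum = _
      rw [sum_E, ← hf]
      refine T_dep F H fun i hi => ?_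
      simp only [ext]
      rw [dif_pos (hC hi)]
    rwa [h2] at h1
  · rw [Finset.length_toList, Finset.card_univ, Fintype.card_fun, Fintype.card_coe] at g4
    exact g4

lemma prog3 [Nonempty A] (w : ℕ) : ∀ t : CTree V, t.Proper → t.leaves ⊆ H → t.width H ≤ w →
    ∃ l : List (MvPolynomial (V → Option A) F), SL l ∧
      (∀ p ∈ l, (∀ t : Finset V → V → A → Fˣ, IsGauge H t → Eig (gauge t) p) ∧ Hom H p) ∧
      (∀ b, T F H t.leaves b ∈ l) ∧
      l.length ≤ 2 * (t.leaves.card - 1) * Fintype.card A ^ w +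
        2 * ∑ K ∈ t.leaves, Fintype.card A ^ K.card := by
  classical
  intro t
  have hA : 0 < Fintype.card A := Fintype.card_pos
  obtain ⟨a₀⟩ := ‹Nonempty A›
  have : Nonempty A := ⟨a₀⟩
  induction t with
  | leaf K =>
    intro _ hs _
    have hKH : K ∈ H := hs (Finset.mem_singleton_self K)
    obtain ⟨ext, hext⟩ : ∃ ext : ({i // i ∈ K} → A) → V → A, ∀ c i (h : i ∈ K), ext c i = c ⟨i, h⟩ :=
      ⟨fun c i => if h : i ∈ K then c ⟨i, h⟩ else a₀, fun c i h => dif_pos h⟩
    obtain ⟨vx, hvx⟩ : ∃ vx : ({i // i ∈ K} → A) → MvPolynomial (V → Option A) F,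
      ∀ c, vx c = pr F {K} (ext c) := ⟨_, fun c => rfl⟩
    obtain ⟨l₀, hl₀⟩ : ∃ l₀ : List (MvPolynomial (V → Option A) F),
      l₀ = (univ : Finset ({i // i ∈ K} → A)).toList.map vx := ⟨_, rfl⟩
    have hpr : ∀ d : V → A, pr F {K} d = X (restr K d) := fun d => by
      unfold pr
      rw [Finset.prod_singleton]
    have hSL₀ : SL l₀ := by
      have := sl_append' (l := l₀) (l' := []) (fun s hs => by
        rw [hl₀] at hs
        obtain ⟨c, -, rfl⟩ := List.mem_map.1 hs
        exact Or.inl ⟨restr K (ext c), by rw [hvx, hpr]⟩) trivial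
      rwa [List.append_nil] at this
    have hv : ∀ c, vx c ∈ l₀ := fun c => by
      rw [hl₀]
      exact List.mem_map_of_mem (Finset.mem_toList.2 (Finset.mem_univ c))
    have hX : ∀ d : V → A, pr F {K} d ∈ l₀ := by
      intro d
      have e : restr K d = restr K (ext fun i => d i) := by
        funext i
        unfold restr
        split_ifs with hi
        · rw [hext _ _ hi]
        · rfl
      have e2 : pr F {K} d = vx fun i => d i := by
        rw [hvx, hpr, hpr, e]
      rw [e2]
      exact hv _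
    obtain ⟨l', g1, g2, g3, g4⟩ := contract3 F H (U := {K}) (cut H {K}) (inn H {K}) le_rfl
      (pr F {K}) (fun b => rfl) (fun b d h => pv_pr F H (Finset.singleton_subset_iff.2 hKH) h)
      l₀ hSL₀ hX
    refine ⟨l' ++ l₀, g1, ?_, g3, ?_⟩
    · intro p hp
      rcases List.mem_append.1 hp with hp | hp
      · exact g2 p hp
      · rw [hl₀] at hp
        obtain ⟨c, -, hc⟩ := List.mem_map.1 hp
        have h0 : PV F H {K} (ext c) (pr F {K} (ext c)) :=
          pv_pr F H (Finset.singleton_subset_iff.2 hKH) (fun i _ => rfl)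
        rw [← hc, hvx]
        exact PV.good F H h0
    · have h1 : l₀.length = Fintype.card A ^ K.card := by
        rw [hl₀, List.length_map, Finset.length_toList, Finset.card_univ, Fintype.card_fun,
          Fintype.card_coe]
      have h2 : (cut H {K}).card + (inn H {K}).card ≤ K.card := by
        rw [← Finset.card_union_of_disjoint]
        · refine Finset.card_le_card (Finset.union_subset ?_ ?_)
          · intro i hi
            rw [mem_cut] at hi
            obtain ⟨⟨K', hK', hi⟩, -⟩ := hi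
            rwa [Finset.mem_singleton.1 hK'] at hi
          · intro i hi
            rw [mem_inn] at hi
            obtain ⟨⟨K', hK', hi⟩, -⟩ := hi
            rwa [Finset.mem_singleton.1 hK'] at hi
        · rw [Finset.disjoint_left]
          intro i hi hi'
          rw [mem_cut] at hi
          rw [mem_inn] at hi'
          obtain ⟨-, K', k1, k2, k3⟩ := hi
          exact k2 (hi'.2 K' k1 k3)
      have h3 : Fintype.card A ^ (cut H {K}).card * Fintype.card A ^ (inn H {K}).card ≤
          Fintype.card A ^ K.card := by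
        rw [← pow_add]
        exact Nat.pow_le_pow_right hA h2
      rw [List.length_append, h1]
      change _ ≤ _ + 2 * ∑ K' ∈ {K}, Fintype.card A ^ K'.card
      rw [Finset.sum_singleton]
      omega
  | node t₁ t₂ ih₁ ih₂ =>
    intro hp hs hw
    obtain ⟨p1, p2, p3⟩ := hp
    have s1 : t₁.leaves ⊆ H := Finset.subset_union_left.trans hs
    have s2 : t₂.leaves ⊆ H := Finset.subset_union_right.trans hs
    have w0 : (cut H t₁.leaves ∪ cut H t₂.leaves).card ≤ w := (le_max_left _ _).trans hw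
    have w1 : t₁.width H ≤ w := (le_max_left _ _).trans ((le_max_right _ _).trans hw)
    have w2 : t₂.width H ≤ w := (le_max_right _ _).trans ((le_max_right _ _).trans hw)
    obtain ⟨l₁, v1, g1, m1, c1⟩ := ih₁ p1 s1 w1
    obtain ⟨l₂, v2, g2, m2, c2⟩ := ih₂ p2 s2 w2
    set W := cut H t₁.leaves ∪ cut H t₂.leaves with hW
    obtain ⟨ext, hext⟩ : ∃ ext : ({i // i ∈ W} → A) → V → A, ∀ c i (h : i ∈ W), ext c i = c ⟨i, h⟩ :=
      ⟨fun c i => if h : i ∈ W then c ⟨i, h⟩ else a₀, fun c i h => dif_pos h⟩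
    obtain ⟨st, hst0⟩ : ∃ st : ({i // i ∈ W} → A) → MvPolynomial (V → Option A) F,
      ∀ c, st c = T F H t₁.leaves (ext c) * T F H t₂.leaves (ext c) := ⟨_, fun c => rfl⟩
    obtain ⟨L, hL⟩ : ∃ L : List (MvPolynomial (V → Option A) F),
      L = (univ : Finset ({i // i ∈ W} → A)).toList.map st := ⟨_, rfl⟩
    have hLm : ∀ c, st c ∈ L := fun c => by
      rw [hL]
      exact List.mem_map_of_mem (Finset.mem_toList.2 (Finset.mem_univ c))
    have hLlen : L.length = Fintype.card A ^ W.card := by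
      rw [hL, List.length_map, Finset.length_toList, Finset.card_univ, Fintype.card_fun,
        Fintype.card_coe]
    have hLin : ∀ s ∈ L, ∃ c, s = st c := by
      intro s hs
      rw [hL] at hs
      obtain ⟨c, -, rfl⟩ := List.mem_map.1 hs
      exact ⟨c, rfl⟩
    have hst : ∀ d : V → A, T F H t₁.leaves d * T F H t₂.leaves d = st fun i => d i := by
      intro d
      have e1 : T F H t₁.leaves d = T F H t₁.leaves (ext fun i => d i) := T_dep F H fun i hi => by
        rw [hext _ _ (Finset.mem_union_left _ hi)]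
      have e2 : T F H t₂.leaves d = T F H t₂.leaves (ext fun i => d i) := T_dep F H fun i hi => by
        rw [hext _ _ (Finset.mem_union_right _ hi)]
      rw [hst0, e1, e2]
    have hl : SL (L ++ (l₁ ++ l₂)) := by
      refine sl_append' ?_ (sl_append v1 v2)
      intro s hs
      obtain ⟨c, rfl⟩ := hLin s hs
      exact Or.inr (Or.inr ⟨_, List.mem_append_left _ (m1 _), _, List.mem_append_right _ (m2 _),
        Or.inr (hst0 c)⟩)
    obtain ⟨l', k1, k2, k3, k4⟩ := contract3 F H (U := t₁.leaves ∪ t₂.leaves)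
      (cut H (t₁.leaves ∪ t₂.leaves)) (W \ cut H (t₁.leaves ∪ t₂.leaves)) le_rfl
      (fun d => T F H t₁.leaves d * T F H t₂.leaves d) (fun b => T_node F H s1 s2 p3 b)
      (fun b d h => pv_mul F H s1 s2 p3 fun i hi => h i fun hi' => hi (inn_sub H hi'))
      (L ++ (l₁ ++ l₂)) hl (fun d => by
        rw [hst]
        exact List.mem_append_left _ (hLm _))
    refine ⟨l' ++ (L ++ (l₁ ++ l₂)), k1, ?_, k3, ?_⟩
    · intro s hs
      rcases List.mem_append.1 hs with hs | hs
      · exact k2 s hs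
      · rcases List.mem_append.1 hs with hs | hs
        · obtain ⟨c, hc⟩ := hLin s hs
          have h0 : PV F H (t₁.leaves ∪ t₂.leaves) (ext c)
              (T F H t₁.leaves (ext c) * T F H t₂.leaves (ext c)) :=
            pv_mul F H s1 s2 p3 (fun i _ => rfl)
          rw [← hst0, ← hc] at h0
          exact PV.good F H h0
        · rcases List.mem_append.1 hs with hs | hs
          · exact g1 s hs
          · exact g2 s hs
    · have hc : (CTree.node t₁ t₂).leaves.card = t₁.leaves.card + t₂.leaves.card :=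
        Finset.card_union_of_disjoint p3
      have hsum : ∑ K ∈ (CTree.node t₁ t₂).leaves, Fintype.card A ^ K.card =
          ∑ K ∈ t₁.leaves, Fintype.card A ^ K.card + ∑ K ∈ t₂.leaves, Fintype.card A ^ K.card :=
        Finset.sum_union p3
      have hcut : cut H (t₁.leaves ∪ t₂.leaves) ⊆ W := by
        intro i hi
        rw [mem_cut] at hi
        obtain ⟨⟨K, hK, hiK⟩, K', k1, k2, k3⟩ := hi
        rw [Finset.mem_union, not_or] at k2
        rw [hW, Finset.mem_union, mem_cut, mem_cut]
        rcases Finset.mem_union.1 hK with hK | hK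
        · exact Or.inl ⟨⟨K, hK, hiK⟩, K', k1, k2.1, k3⟩
        · exact Or.inr ⟨⟨K, hK, hiK⟩, K', k1, k2.2, k3⟩
      have h5 : (cut H (t₁.leaves ∪ t₂.leaves)).card + (W \ cut H (t₁.leaves ∪ t₂.leaves)).card =
          W.card := by
        rw [add_comm]
        exact Finset.card_sdiff_add_card_eq_card hcut
      rw [← pow_add, h5] at k4
      rw [List.length_append, List.length_append, List.length_append, hLlen, hc, hsum]
      have h3 : Fintype.card A ^ W.card ≤ Fintype.card A ^ w := Nat.pow_le_pow_right hA w0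
      have h1 := leaves_ne t₁
      have h2 := leaves_ne t₂
      obtain ⟨n₁, e1⟩ : ∃ n, t₁.leaves.card = n + 1 := ⟨t₁.leaves.card - 1, by omega⟩
      obtain ⟨n₂, e2⟩ : ∃ n, t₂.leaves.card = n + 1 := ⟨t₂.leaves.card - 1, by omega⟩
      rw [e1, Nat.add_sub_cancel] at c1
      rw [e2, Nat.add_sub_cancel] at c2
      have e3 : n₁ + 1 + (n₂ + 1) - 1 = n₁ + n₂ + 1 := by omega
      rw [e1, e2, e3]
      have e4 : 2 * (n₁ + n₂ + 1) * Fintype.card A ^ w = 2 * n₁ * Fintype.card A ^ w +
          2 * n₂ * Fintype.card A ^ w + 2 * Fintype.card A ^ w := by ring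
      rw [e4, mul_add]
      omega

end ten

end CUP3

open Cup CUP2 CUP3 in
theorem t_CUP3 : S_CUP3 := by
  intro F _ V A _ _ _ _ _ H hH hcov
  obtain ⟨t₀, h1, h2⟩ := exists_tree H hH
  obtain ⟨t, p1, p2, p3⟩ : cwidth H ∈ {w | ∃ T : CTree V, T.Proper ∧ T.leaves = H ∧ T.width H = w} :=
    Nat.sInf_mem ⟨_, t₀, h1, h2, rfl⟩
  obtain ⟨l, g1, g2, g3, g4⟩ := CUP3.prog3 (A := A) F H (cwidth H) t p1 p2.le p3.le
  rw [p2] at g4
  refine ⟨l, g1, g2, ?_, g4⟩
  obtain ⟨a₀⟩ := ‹Nonempty A›
  have h3 := g3 fun _ => a₀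
  rw [p2] at h3
  have h4 : T F H H (fun _ => a₀) = Z F A H := by
    unfold T E Z
    refine Finset.sum_congr ?_ fun _ _ => rfl
    rw [Finset.filter_true_of_mem]
    intro a _ i hi
    exact absurd ((mem_inn H).2 ⟨hcov i, fun K hK _ => hK⟩) hi
  rwa [h4] at h3

end Pool.Agent.HS38.GT
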