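import Pool.Agent.HS38.GT.Stm

/-!
# CW: the contraction width of the hypergraph of all scopes with `k` elements
-/

set_option autoImplicit false

namespace Pool.Agent.HS38.GT.CW

open Finset Pool.Agent.HS38.GT

variable {V : Type} [Fintype V] [DecidableEq V]

lemma exists_tree (H : Finset (Finset V)) (hH : H.Nonempty) : ∃ T : CTree V, T.Proper ∧ T.leaves = H := by
  induction hH using Finset.Nonempty.cons_induction with
  | singleton K => exact ⟨.leaf K, trivial, rfl⟩
  | cons K s hK _ ih =>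
    obtain ⟨T, h1, h2⟩ := ih
    refine ⟨.node (.leaf K) T, ⟨trivial, h1, ?_⟩, ?_⟩
    · rw [h2]
      exact disjoint_singleton_left.2 hK
    · show ({K} : Finset (Finset V)) ∪ T.leaves = cons K s hK
      rw [h2, cons_eq_insert, insert_eq]

lemma width_le (H : Finset (Finset V)) (T : CTree V) : T.width H ≤ Fintype.card V := by
  induction T with
  | leaf K => exact Nat.zero_le _
  | node l r hl hr => exact max_le (card_le_univ _) (max_le hl hr)

lemma exists_scope {k : ℕ} (hk : 2 ≤ k) (hk' : k < Fintype.card V) (i j : V) :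
    ∃ K ∈ scopes V k, i ∈ K ∧ j ∈ K := by
  have h1 : ({i, j} : Finset V).card ≤ k := (card_le_two).trans hk
  obtain ⟨K, h2, h3⟩ := exists_superset_card_eq h1 hk'.le
  refine ⟨K, ?_, h2 (by simp), h2 (by simp)⟩
  unfold scopes
  rw [mem_powersetCard]
  exact ⟨subset_univ _, h3⟩

lemma width_ge {k : ℕ} (hk : 2 ≤ k) (hk' : k < Fintype.card V) (T : CTree V)
    (hT : ∃ i, ∀ K ∈ scopes V k, i ∈ K → K ∈ T.leaves) : Fintype.card V ≤ T.width (scopes V k) := by
  induction T with
  | leaf K =>
    exfalso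
    obtain ⟨i, hi⟩ := hT
    have h1 : K = univ := by
      refine eq_univ_of_forall fun j => ?_
      obtain ⟨K', h2, h3, h4⟩ := exists_scope hk hk' i j
      have h5 : K' ∈ ({K} : Finset (Finset V)) := hi K' h2 h3
      rw [mem_singleton] at h5
      rwa [← h5]
    obtain ⟨K', h2, h3, -⟩ := exists_scope hk hk' i i
    have h5 : K' ∈ ({K} : Finset (Finset V)) := hi K' h2 h3
    rw [mem_singleton] at h5
    unfold scopes at h2
    rw [mem_powersetCard, h5, h1, card_univ] at h2
    omega
  | node l r hl hr =>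
    by_cases h1 : ∃ i, ∀ K ∈ scopes V k, i ∈ K → K ∈ l.leaves
    · exact (hl h1).trans ((le_max_left _ _).trans (le_max_right _ _))
    by_cases h2 : ∃ i, ∀ K ∈ scopes V k, i ∈ K → K ∈ r.leaves
    · exact (hr h2).trans ((le_max_right _ _).trans (le_max_right _ _))
    push_neg at h1 h2
    refine le_trans ?_ (le_max_left _ _)
    have h3 : cut (scopes V k) l.leaves ∪ cut (scopes V k) r.leaves = univ := by
      refine eq_univ_of_forall fun i => ?_
      obtain ⟨i₀, hi₀⟩ := hT
      obtain ⟨K, h4, h5, h6⟩ := exists_scope hk hk' i i₀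
      have h7 : K ∈ l.leaves ∪ r.leaves := hi₀ K h4 h6
      rw [mem_union] at h7 ⊢
      rcases h7 with h7 | h7
      · left
        obtain ⟨K', h8, h9, h10⟩ := h1 i
        unfold cut
        rw [mem_filter]
        exact ⟨mem_univ _, ⟨K, h7, h5⟩, K', Finset.mem_sdiff.2 ⟨h8, h10⟩, h9⟩
      · right
        obtain ⟨K', h8, h9, h10⟩ := h2 i
        unfold cut
        rw [mem_filter]
        exact ⟨mem_univ _, ⟨K, h7, h5⟩, K', Finset.mem_sdiff.2 ⟨h8, h10⟩, h9⟩
    rw [h3, card_univ]

end Pool.Agent.HS38.GT.CW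

namespace Pool.Agent.HS38.GT

open Finset

theorem t_CW : S_CW := by
  intro V _ _ k hk hk'
  have hV : Nonempty V := Fintype.card_pos_iff.1 (by omega)
  obtain ⟨v⟩ := hV
  obtain ⟨K, hK, -, -⟩ := CW.exists_scope hk hk' v v
  have hne : {w | ∃ T : CTree V, T.Proper ∧ T.leaves = scopes V k ∧ T.width (scopes V k) = w}.Nonempty := by
    obtain ⟨T, h1, h2⟩ := CW.exists_tree (scopes V k) ⟨K, hK⟩
    exact ⟨_, T, h1, h2, rfl⟩
  obtain ⟨T, h1, h2, h3⟩ := Nat.sInf_mem hne
  unfold cwidth
  rw [← h3]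
  refine le_antisymm (CW.width_le _ _) (CW.width_ge hk hk' T ⟨v, fun K hK _ => ?_⟩)
  rw [h2]
  exact hK

end Pool.Agent.HS38.GT
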