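import Pool.Agent.Helper1x.EQ.Chain

/-!
# Equivariant matrices with entries of degree at most `d`: sets of variables whose weights are eigenvalues

Adapted from `Pool/Agent/Helper1x/EQ/Ker.lean`, `Core.lean`, `Chain.lean` (the case `d = 1`).
-/

set_option autoImplicit false

namespace Pool.Agent.HS38.GT

open Matrix Pool.Agent.Helper1x.EQ

section ker

variable {K ι : Type*} [Field K] [Fintype ι] [DecidableEq ι]

theorem kernels' {L A : Matrix ι ι K} {A' : Matrix ι ι (Polynomial K)}
    (hA : A'.map (Polynomial.evalRingHom 0) = A)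
    (h : (L.map Polynomial.C + (Polynomial.X : Polynomial K) • A').det = Polynomial.X) :
    ∃ u w : ι → K, L *ᵥ u = 0 ∧ w ᵥ* L = 0 ∧ w ⬝ᵥ (A *ᵥ u) = 1 ∧
      (∀ x, L *ᵥ x = 0 → ∃ a : K, x = a • u) ∧ (∀ y, y ᵥ* L = 0 → ∃ a : K, y = a • w) := by
  classical
  have hev : (L.map Polynomial.C + (Polynomial.X : Polynomial K) • A').map
      (Polynomial.evalRingHom 0) = L := by
    ext i j
    simp
  have hdet : L.det = 0 := by
    have h1 := congrArg (Polynomial.evalRingHom (0 : K)) h
    rw [RingHom.map_det, RingHom.mapMatrix_apply, hev] at h1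
    simpa using h1
  obtain ⟨u, hu0, hu⟩ := Matrix.exists_mulVec_eq_zero_iff.2 hdet
  set Ls := L.map Polynomial.C + (Polynomial.X : Polynomial K) • A' with hLs
  have h2 : Ls *ᵥ (fun i => Polynomial.C (u i)) =
      (Polynomial.X : Polynomial K) • (A' *ᵥ fun i => Polynomial.C (u i)) := by
    funext i
    have h3 : (L *ᵥ u) i = 0 := by rw [hu]; rfl
    simp only [hLs, Matrix.add_mulVec, Pi.add_apply, Matrix.smul_mulVec, Pi.smul_apply, smul_eq_mul]
    have h4 : ((L.map Polynomial.C) *ᵥ (fun i => Polynomial.C (u i))) i = Polynomial.C ((L *ᵥ u) i) := by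
      simp [Matrix.mulVec, dotProduct, map_sum]
    rw [h4, h3]
    simp
  have h3 : Ls.adjugate *ᵥ (A' *ᵥ fun i => Polynomial.C (u i)) = fun i => Polynomial.C (u i) := by
    have h4 : Ls.adjugate *ᵥ (Ls *ᵥ (fun i => Polynomial.C (u i))) =
        (Polynomial.X : Polynomial K) • (fun i => Polynomial.C (u i)) := by
      rw [Matrix.mulVec_mulVec, Matrix.adjugate_mul, h, Matrix.smul_mulVec, Matrix.one_mulVec]
    rw [h2, Matrix.mulVec_smul] at h4
    funext i
    have h5 := congrFun h4 i
    simp only [Pi.smul_apply, smul_eq_mul] at h5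
    exact mul_left_cancel₀ Polynomial.X_ne_zero h5
  have h4 : L.adjugate *ᵥ (A *ᵥ u) = u := by
    funext i
    have h5 := congrArg (Polynomial.evalRingHom (0 : K)) (congrFun h3 i)
    have h6 : Ls.adjugate.map (Polynomial.evalRingHom (0 : K)) = L.adjugate := by
      rw [← RingHom.mapMatrix_apply, RingHom.map_adjugate, RingHom.mapMatrix_apply, hev]
    rw [← h6, ← hA]
    simp only [Matrix.mulVec, dotProduct, map_sum, map_mul, Matrix.map_apply] at h5 ⊢
    simpa using h5
  -- a nonzero entry of the adjugate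
  have h5 : ∃ i j, L.adjugate i j ≠ 0 := by
    by_contra hcon
    push Not at hcon
    apply hu0
    rw [← h4]
    funext i
    simp [Matrix.mulVec, dotProduct, hcon]
  obtain ⟨i, j, hij⟩ := h5
  have hker : ∀ x, L *ᵥ x = 0 → ∃ a : K, x = a • u := fun x hx => kernel_line hij hx hu hu0
  -- the columns of the adjugate
  have hcol : ∀ l, L *ᵥ (fun k => L.adjugate k l) = 0 := by
    intro l
    funext k
    have h6 := congrFun (congrFun (Matrix.mul_adjugate L) k) l
    rw [hdet, zero_smul] at h6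
    simpa [Matrix.mul_apply, Matrix.mulVec, dotProduct] using h6
  choose w hw using fun l => hker _ (hcol l)
  have hR : ∀ k l, L.adjugate k l = u k * w l := by
    intro k l
    have := congrFun (hw l) k
    simp only [Pi.smul_apply, smul_eq_mul] at this
    rw [this, mul_comm]
  have hui : u i ≠ 0 := by
    intro h0
    apply hij
    rw [hR, h0, zero_mul]
  have hwL : w ᵥ* L = 0 := by
    funext k
    have h6 := congrFun (congrFun (Matrix.adjugate_mul L) i) k
    rw [hdet, zero_smul, Matrix.mul_apply] at h6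
    simp only [hR, mul_assoc, ← Finset.mul_sum] at h6
    have h7 := (mul_eq_zero.1 h6).resolve_left hui
    simpa [Matrix.vecMul, dotProduct] using h7
  have hwA : w ⬝ᵥ (A *ᵥ u) = 1 := by
    have h6 := congrFun h4 i
    rw [Matrix.mulVec] at h6
    simp only [dotProduct, hR, mul_assoc, ← Finset.mul_sum] at h6
    have h7 : u i * (w ⬝ᵥ (A *ᵥ u)) = u i * 1 := by rw [mul_one]; exact h6
    exact mul_left_cancel₀ hui h7
  refine ⟨u, w, hu, hwL, hwA, hker, ?_⟩
  intro y hy
  have h6 : (Lᵀ).adjugate j i ≠ 0 := by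
    rw [← Matrix.adjugate_transpose]
    exact hij
  have hw0 : w ≠ 0 := by
    intro h0
    rw [h0, zero_dotProduct] at hwA
    exact zero_ne_one hwA
  exact kernel_line h6 (by rw [Matrix.mulVec_transpose]; exact hy) (by rw [Matrix.mulVec_transpose]; exact hwL) hw0

end ker

variable {K ι X : Type*} [Field K] [Fintype ι] [DecidableEq ι] [DecidableEq X]

omit [Fintype ι] [DecidableEq ι] in
theorem coeff_lin (ρ : X) (p : MvPolynomial X K) (n : ℕ) :
    (lin ρ p).coeff n = MvPolynomial.coeff (Finsupp.single ρ n) p := by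
  induction p using MvPolynomial.induction_on' with
  | monomial m a =>
    unfold lin
    rw [MvPolynomial.aeval_monomial, MvPolynomial.coeff_monomial]
    by_cases h : ∃ x, x ≠ ρ ∧ m x ≠ 0
    · obtain ⟨x, hx, hm⟩ := h
      have h1 : (m.prod fun i k => (if i = ρ then (Polynomial.X : Polynomial K) else 0) ^ k) = 0 := by
        apply Finset.prod_eq_zero (Finsupp.mem_support_iff.2 hm)
        simp only [if_neg hx]
        exact zero_pow hm
      rw [h1, mul_zero, Polynomial.coeff_zero, if_neg]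
      intro h2
      apply hm
      rw [h2, Finsupp.single_apply, if_neg (Ne.symm hx)]
    · push Not at h
      have hm : m = Finsupp.single ρ (m ρ) := by
        ext x
        by_cases hx : x = ρ
        · subst hx; simp
        · rw [h x hx, Finsupp.single_apply, if_neg (Ne.symm hx)]
      have h1 : (m.prod fun i k => (if i = ρ then (Polynomial.X : Polynomial K) else 0) ^ k) =
          Polynomial.X ^ m ρ := by
        conv_lhs => rw [hm]
        rw [Finsupp.prod_single_index (by simp), if_pos rfl]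
      rw [h1, Polynomial.algebraMap_eq, Polynomial.coeff_C_mul, Polynomial.coeff_X_pow]
      by_cases hn : n = m ρ
      · rw [if_pos hn, mul_one, if_pos]
        rw [hn]; exact hm
      · rw [if_neg hn, mul_zero, if_neg]
        intro h2
        apply hn
        rw [h2, Finsupp.single_eq_same]
  | add p q hp hq => rw [map_add, Polynomial.coeff_add, hp, hq, MvPolynomial.coeff_add]

theorem core_d {dd : ℕ} {N : Matrix ι ι (MvPolynomial X K)} (hdeg : ∀ i j, (N i j).totalDegree ≤ dd)
    {B D : Matrix ι ι K} {c : X → K}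
    (hN : N.map (scale c) * D.map MvPolynomial.C = B.map MvPolynomial.C * N) {ρ : X} (hρ : c ρ = 1)
    (hdet : lin ρ N.det = Polynomial.X) :
    ∃ (μ δ : K) (P : Matrix ι ι (MvPolynomial X K)) (u φ : ι → K), δ ≠ 0 ∧ u ≠ 0 ∧ D *ᵥ u = μ • u ∧
      φ ⬝ᵥ u = 1 ∧ (∀ i j, (P i j).totalDegree ≤ dd) ∧
      (∀ i j, MvPolynomial.coeff 0 (P i j) = (1 : Matrix ι ι K) i j) ∧
      P.map (scale c) * D.map MvPolynomial.C = D.map MvPolynomial.C * P ∧
      N.det = MvPolynomial.C δ *
        (P - vecMulVec (fun i => MvPolynomial.C (u i)) (fun i => MvPolynomial.C (φ i))).det := by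
  classical
  set L : Matrix ι ι K := N.map (MvPolynomial.coeff 0) with hL
  set A : Matrix ι ι K := N.map (MvPolynomial.coeff (Finsupp.single ρ 1)) with hA
  set A' : Matrix ι ι (Polynomial K) := N.map (fun p => (lin ρ p).divX) with hA'
  -- the restriction to the line
  have h1 : N.map (lin ρ) = L.map Polynomial.C + (Polynomial.X : Polynomial K) • A' := by
    ext1 i j
    show lin ρ (N i j) = Polynomial.C (MvPolynomial.coeff 0 (N i j)) +
      Polynomial.X * (lin ρ (N i j)).divX
    conv_lhs => rw [← Polynomial.divX_mul_X_add (lin ρ (N i j))]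
    rw [coeff_lin, Finsupp.single_zero, mul_comm, add_comm]
  have hAA : A'.map (Polynomial.evalRingHom 0) = A := by
    ext1 i j
    show Polynomial.evalRingHom 0 ((lin ρ (N i j)).divX) = MvPolynomial.coeff (Finsupp.single ρ 1) (N i j)
    rw [Polynomial.coe_evalRingHom,
      ← Polynomial.coeff_zero_eq_eval_zero, Polynomial.coeff_divX, zero_add, coeff_lin]
  have h2 : (L.map Polynomial.C + (Polynomial.X : Polynomial K) • A').det = Polynomial.X := by
    rw [← h1, ← hdet]
    exact ((lin ρ).map_det N).symm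
  obtain ⟨u, w, hu, hw, hwu, hku, hkw⟩ := kernels' hAA h2
  -- intertwining relations
  have hc0 : ∀ (p : MvPolynomial X K), MvPolynomial.coeff 0 (scale c p) = MvPolynomial.coeff 0 p := by
    intro p
    rw [coeff_scale]
    simp
  have hcρ : ∀ (p : MvPolynomial X K), MvPolynomial.coeff (Finsupp.single ρ 1) (scale c p) =
      MvPolynomial.coeff (Finsupp.single ρ 1) p := by
    intro p
    rw [coeff_scale, Finsupp.prod_single_index (by simp), hρ]
    simp
  have hLD : L * D = B * L := by
    ext i j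
    have h3 := congrArg (MvPolynomial.coeff 0) (congrFun (congrFun hN i) j)
    rw [Matrix.mul_apply, Matrix.mul_apply, MvPolynomial.coeff_sum, MvPolynomial.coeff_sum] at h3
    rw [Matrix.mul_apply, Matrix.mul_apply]
    simpa [hL, coeff_mul_C, MvPolynomial.coeff_C_mul, hc0] using h3
  have hAD : A * D = B * A := by
    ext i j
    have h3 := congrArg (MvPolynomial.coeff (Finsupp.single ρ 1)) (congrFun (congrFun hN i) j)
    rw [Matrix.mul_apply, Matrix.mul_apply, MvPolynomial.coeff_sum, MvPolynomial.coeff_sum] at h3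
    rw [Matrix.mul_apply, Matrix.mul_apply]
    simpa [hA, coeff_mul_C, MvPolynomial.coeff_C_mul, hcρ] using h3
  -- the eigenvalue
  obtain ⟨μ, hμ⟩ := hku (D *ᵥ u) (by rw [Matrix.mulVec_mulVec, hLD, ← Matrix.mulVec_mulVec, hu, Matrix.mulVec_zero])
  obtain ⟨μ', hμ'⟩ := hkw (w ᵥ* B) (by rw [Matrix.vecMul_vecMul, ← hLD, ← Matrix.vecMul_vecMul, hw, Matrix.zero_vecMul])
  have hμμ : μ' = μ := by
    have h3 : w ⬝ᵥ (A *ᵥ (D *ᵥ u)) = μ := by
      rw [hμ, Matrix.mulVec_smul, dotProduct_smul, hwu, smul_eq_mul, mul_one]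
    rw [Matrix.mulVec_mulVec, hAD, ← Matrix.mulVec_mulVec, Matrix.dotProduct_mulVec, hμ', smul_dotProduct, hwu,
      smul_eq_mul, mul_one] at h3
    exact h3
  subst hμμ
  have hu0 : u ≠ 0 := by
    intro h0
    rw [h0, Matrix.mulVec_zero, dotProduct_zero] at hwu
    exact zero_ne_one hwu
  -- the invertible matrix
  set φ : ι → K := w ᵥ* A with hφ
  have hφu : φ ⬝ᵥ u = 1 := by rw [hφ, ← Matrix.dotProduct_mulVec]; exact hwu
  set L' : Matrix ι ι K := L + vecMulVec (A *ᵥ u) φ with hL'
  have hvm : ∀ (a b x : ι → K), vecMulVec a b *ᵥ x = (b ⬝ᵥ x) • a := by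
    intro a b x
    funext i
    simp only [Matrix.mulVec, vecMulVec_apply, dotProduct, Pi.smul_apply, smul_eq_mul, Finset.sum_mul]
    exact Finset.sum_congr rfl fun j _ => by ring
  have hL'u : L' *ᵥ u = A *ᵥ u := by
    rw [hL', Matrix.add_mulVec, hu, hvm, hφu, one_smul, zero_add]
  have hdet' : L'.det ≠ 0 := by
    intro h0
    obtain ⟨x, hx0, hx⟩ := Matrix.exists_mulVec_eq_zero_iff.2 h0
    rw [hL', Matrix.add_mulVec, hvm] at hx
    have h3 : φ ⬝ᵥ x = 0 := by
      have h4 : w ⬝ᵥ (L *ᵥ x + (φ ⬝ᵥ x) • A *ᵥ u) = 0 := by rw [hx, dotProduct_zero]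
      rw [dotProduct_add, Matrix.dotProduct_mulVec, hw, zero_dotProduct, dotProduct_smul, hwu, smul_eq_mul,
        mul_one, zero_add] at h4
      exact h4
    rw [h3, zero_smul, add_zero] at hx
    obtain ⟨a, ha⟩ := hku x hx
    rw [ha, dotProduct_smul, hφu, smul_eq_mul, mul_one] at h3
    rw [h3, zero_smul] at ha
    exact hx0 ha
  have hunit : IsUnit L'.det := isUnit_iff_ne_zero.2 hdet'
  have hL'D : L' * D = B * L' := by
    rw [hL', Matrix.add_mul, Matrix.mul_add, hLD]
    congr 1
    rw [vMV_mul, mul_vMV, hφ, Matrix.vecMul_vecMul, hAD, ← Matrix.vecMul_vecMul, hμ', Matrix.mulVec_mulVec, ← hAD,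
      ← Matrix.mulVec_mulVec, hμ, Matrix.mulVec_smul, Matrix.smul_vecMul]
    ext i j
    simp only [vecMulVec_apply, Pi.smul_apply, smul_eq_mul]
    ring
  have hGB : L'⁻¹ * B = D * L'⁻¹ := by
    have h3 : L'⁻¹ * (B * L') * L'⁻¹ = L'⁻¹ * (L' * D) * L'⁻¹ := by rw [hL'D]
    rw [Matrix.mul_assoc, Matrix.mul_assoc B, Matrix.mul_nonsing_inv _ hunit, Matrix.mul_one, ← Matrix.mul_assoc L'⁻¹ L' D,
      Matrix.nonsing_inv_mul _ hunit, Matrix.one_mul] at h3
    exact h3
  have hGu : L'⁻¹ *ᵥ (A *ᵥ u) = u := by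
    rw [← hL'u, Matrix.mulVec_mulVec, Matrix.nonsing_inv_mul _ hunit, Matrix.one_mulVec]
  set G : Matrix ι ι K := L'⁻¹ with hG
  set V : Matrix ι ι (MvPolynomial X K) :=
    vecMulVec (fun i => MvPolynomial.C (u i)) (fun i => MvPolynomial.C (φ i)) with hV
  have hVmap : V = (vecMulVec u φ).map MvPolynomial.C := by
    ext1 i j
    simp [hV, vecMulVec_apply]
  have hmapmul : ∀ (S T : Matrix ι ι K), (S * T).map MvPolynomial.C =
      (S.map MvPolynomial.C * T.map MvPolynomial.C : Matrix ι ι (MvPolynomial X K)) := by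
    intro S T
    ext1 i j
    simp [Matrix.mul_apply, map_sum]
  refine ⟨μ', L'.det, G.map MvPolynomial.C * N + V, u, φ, hdet', hu0, hμ, hφu, ?_, ?_, ?_, ?_⟩
  · intro i j
    rw [Matrix.add_apply, Matrix.mul_apply]
    refine (MvPolynomial.totalDegree_add _ _).trans (max_le ?_ ?_)
    · refine (MvPolynomial.totalDegree_finsetSum _ _).trans (Finset.sup_le fun k _ => ?_)
      refine (MvPolynomial.totalDegree_mul _ _).trans ?_
      rw [Matrix.map_apply, MvPolynomial.totalDegree_C, zero_add]
      exact hdeg k j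
    · rw [hVmap, Matrix.map_apply, MvPolynomial.totalDegree_C]
      exact Nat.zero_le _
  · intro i j
    have h3 : G * L + vecMulVec u φ = 1 := by
      have h4 : G * L' = 1 := Matrix.nonsing_inv_mul _ hunit
      rw [hL', Matrix.mul_add] at h4
      rw [← h4, mul_vMV, hGu]
    rw [← h3, hVmap, Matrix.add_apply, Matrix.add_apply, MvPolynomial.coeff_add, Matrix.mul_apply, Matrix.mul_apply,
      MvPolynomial.coeff_sum, Matrix.map_apply, MvPolynomial.coeff_C, if_pos rfl]
    congr 1
    refine Finset.sum_congr rfl fun k _ => ?_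
    rw [Matrix.map_apply, MvPolynomial.coeff_C_mul]
    rfl
  · have h3 : (G.map MvPolynomial.C * N + V).map (scale c) = G.map MvPolynomial.C * N.map (scale c) + V := by
      ext1 i j
      simp only [Matrix.map_apply, Matrix.add_apply, Matrix.mul_apply, map_add, map_sum, map_mul, scale_C]
      congr 1
      rw [hVmap, Matrix.map_apply, scale_C]
    rw [h3, Matrix.add_mul, Matrix.mul_assoc, hN, ← Matrix.mul_assoc, ← hmapmul, hGB, hmapmul, Matrix.mul_add,
      Matrix.mul_assoc]
    congr 1
    rw [hVmap, ← hmapmul, ← hmapmul]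
    congr 1
    rw [vMV_mul, mul_vMV, hφ, Matrix.vecMul_vecMul, hAD, ← Matrix.vecMul_vecMul, hμ', hμ, Matrix.smul_vecMul]
    ext i j
    simp only [vecMulVec_apply, Pi.smul_apply, smul_eq_mul]
    ring
  · have h3 : L'.map MvPolynomial.C * (G.map MvPolynomial.C * N + V - V) = N := by
      rw [add_sub_cancel_right, ← Matrix.mul_assoc, ← hmapmul, Matrix.mul_nonsing_inv _ hunit]
      have : ((1 : Matrix ι ι K).map MvPolynomial.C : Matrix ι ι (MvPolynomial X K)) = 1 := by
        ext1 i j
        simp only [Matrix.map_apply, Matrix.one_apply]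
        split_ifs <;> simp
      rw [this, Matrix.one_mul]
    have h4 := congrArg Matrix.det h3
    rw [Matrix.det_mul] at h4
    rw [← h4]
    congr 1
    have h5 := RingHom.map_det (MvPolynomial.C : K →+* MvPolynomial X K) L'
    rw [RingHom.mapMatrix_apply] at h5
    exact h5.symm

theorem coeff_step_d {dd : ℕ} {P : Matrix ι ι (MvPolynomial X K)} (hdeg : ∀ i j, (P i j).totalDegree ≤ dd)
    (h0 : ∀ i j, MvPolynomial.coeff 0 (P i j) = (1 : Matrix ι ι K) i j) {Y : ι → MvPolynomial X K}
    {d : MvPolynomial X K} {u : ι → K} (hY : P *ᵥ Y = d • fun i => MvPolynomial.C (u i)) {m : X →₀ ℕ}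
    (hm : ∀ a b, a + b = m → a ≠ 0 → a.degree ≤ dd → ∀ j, MvPolynomial.coeff b (Y j) = 0) (i : ι) :
    MvPolynomial.coeff m (Y i) = MvPolynomial.coeff m d * u i := by
  classical
  have h1 := congrArg (MvPolynomial.coeff m) (congrFun hY i)
  simp only [Matrix.mulVec, dotProduct, Pi.smul_apply, smul_eq_mul] at h1
  rw [coeff_mul_C, MvPolynomial.coeff_sum] at h1
  rw [← h1]
  have h2 : ∀ j, MvPolynomial.coeff m (P i j * Y j) = (1 : Matrix ι ι K) i j * MvPolynomial.coeff m (Y j) := by
    intro j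
    rw [MvPolynomial.coeff_mul, Finset.sum_eq_single (0, m)]
    · rw [h0]
    · rintro ⟨a, b⟩ hab hne
      rw [Finset.HasAntidiagonal.mem_antidiagonal] at hab
      simp only at hab ⊢
      by_contra hcon
      have ha : MvPolynomial.coeff a (P i j) ≠ 0 := fun h => hcon (by rw [h, zero_mul])
      have hb : MvPolynomial.coeff b (Y j) ≠ 0 := fun h => hcon (by rw [h, mul_zero])
      have h3 := degree_le_of_coeff (hdeg i j) ha
      by_cases h5 : a = 0
      · apply hne
        rw [h5, zero_add] at hab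
        rw [h5, hab]
      · exact hb (hm a b hab h5 h3 j)
    · intro h
      exfalso
      apply h
      rw [Finset.HasAntidiagonal.mem_antidiagonal]
      simp
  rw [Finset.sum_congr rfl fun j _ => h2 j]
  simp [Matrix.one_apply]

omit [Field K] [Fintype ι] [DecidableEq ι] in
/-- a decomposition of a squarefree monomial -/
theorem mono_split {S : Finset X} {a b : X →₀ ℕ} (h : a + b = mono S) :
    a.support ⊆ S ∧ a.degree = a.support.card ∧ b = mono (S \ a.support) := by
  have h1 : ∀ x, a x + b x = if x ∈ S then 1 else 0 := by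
    intro x
    rw [← mono_apply, ← h, Finsupp.add_apply]
  refine ⟨?_, ?_, ?_⟩
  · intro x hx
    rw [Finsupp.mem_support_iff] at hx
    have h2 := h1 x
    by_contra hcon
    rw [if_neg hcon] at h2
    omega
  · rw [Finsupp.degree_apply, Finset.card_eq_sum_ones]
    refine Finset.sum_congr rfl fun x hx => ?_
    rw [Finsupp.mem_support_iff] at hx
    have h2 := h1 x
    split_ifs at h2 <;> omega
  · ext x
    have h2 := h1 x
    rw [mono_apply]
    by_cases hS : x ∈ S
    · rw [if_pos hS] at h2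
      by_cases ha : a x = 0
      · rw [if_pos (by simp [hS, ha])]
        omega
      · rw [if_neg (by simp [ha])]
        omega
    · rw [if_neg hS] at h2
      rw [if_neg (by simp [hS])]
      omega

/-- Descent: for every property `Good` of sets of variables which holds for `S` and not for the empty set there are
`S₁ ⊆ S₂ ⊆ S` with at most `d` elements in the difference such that `S₂` is good, `S₁` is not good and the weight of `S₁`
times `μ` is an eigenvalue. -/
theorem chain_d {dd : ℕ} {N : Matrix ι ι (MvPolynomial X K)} (hdeg : ∀ i j, (N i j).totalDegree ≤ dd)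
    {B D : Matrix ι ι K} (hD : IsUnit D.det) {c : X → K}
    (hN : N.map (scale c) * D.map MvPolynomial.C = B.map MvPolynomial.C * N) {ρ : X} (hρ : c ρ = 1)
    (hdet : lin ρ N.det = Polynomial.X) :
    ∃ μ : K, μ ≠ 0 ∧
      ∀ S : Finset X, MvPolynomial.coeff (mono S) N.det ≠ 0 →
        (∀ S' ⊆ S, S'.Nonempty → S' ≠ S → ∏ x ∈ S', c x ≠ 1) →
        ∀ Good : Finset X → Prop, Good S → ¬ Good ∅ →
        ∃ S₁ S₂ : Finset X, S₁ ⊆ S₂ ∧ S₂ ⊆ S ∧ (S₂ \ S₁).card ≤ dd ∧ Good S₂ ∧ ¬ Good S₁ ∧
          ∃ y : ι → K, y ≠ 0 ∧ D *ᵥ y = (μ * ∏ x ∈ S₁, c x) • y := by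
  classical
  obtain ⟨μ, δ, P, u, φ, hδ, hu0, hμ, hφu, hPdeg, hP0, hPD, hNP⟩ := core_d hdeg hN hρ hdet
  have hμ0 : μ ≠ 0 := by
    intro h0
    apply hu0
    have h1 : D⁻¹ *ᵥ (D *ᵥ u) = u := by rw [Matrix.mulVec_mulVec, Matrix.nonsing_inv_mul _ hD, Matrix.one_mulVec]
    rw [hμ, h0, zero_smul, Matrix.mulVec_zero] at h1
    exact h1.symm
  refine ⟨μ, hμ0, ?_⟩
  intro S hS hgen Good hGood hGood0
  set d := P.det with hd
  set Y : ι → MvPolynomial X K := P.adjugate *ᵥ (fun i => MvPolynomial.C (u i)) with hYdef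
  have hY : P *ᵥ Y = d • fun i => MvPolynomial.C (u i) := by
    rw [hYdef, Matrix.mulVec_mulVec, Matrix.mul_adjugate, Matrix.smul_mulVec, Matrix.one_mulVec]
  -- invariance of the determinant
  have hdC : (D.map MvPolynomial.C : Matrix ι ι (MvPolynomial X K)).det = MvPolynomial.C D.det := by
    rw [RingHom.map_det, RingHom.mapMatrix_apply]
  have hD0 : D.det ≠ 0 := hD.ne_zero
  have hCD0 : (MvPolynomial.C D.det : MvPolynomial X K) ≠ 0 := by
    rw [Ne, MvPolynomial.C_eq_zero]
    exact hD0
  have hdinv : scale c d = d := by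
    have h1 := congrArg Matrix.det hPD
    rw [Matrix.det_mul, Matrix.det_mul, hdC, mul_comm] at h1
    have h2 := mul_left_cancel₀ hCD0 h1
    exact ((scale c).map_det P).trans h2
  -- equivariance of `Y`
  have hadj : P.adjugate.map (scale c) * D.map MvPolynomial.C = D.map MvPolynomial.C * P.adjugate := by
    have h1 := congrArg Matrix.adjugate hPD
    rw [Matrix.adjugate_mul_distrib, Matrix.adjugate_mul_distrib] at h1
    have h2 : (P.map (scale c)).adjugate = P.adjugate.map (scale c) := by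
      have := (scale c).map_adjugate P
      exact this.symm
    rw [h2] at h1
    have h3 : (D.map MvPolynomial.C : Matrix ι ι (MvPolynomial X K)) *
        ((D.map MvPolynomial.C).adjugate * P.adjugate.map (scale c)) * D.map MvPolynomial.C =
        D.map MvPolynomial.C * (P.adjugate * (D.map MvPolynomial.C).adjugate) * D.map MvPolynomial.C := by rw [h1]
    rw [← Matrix.mul_assoc, Matrix.mul_adjugate, hdC, Matrix.smul_mul, Matrix.one_mul, Matrix.smul_mul,
      Matrix.mul_assoc (D.map MvPolynomial.C), Matrix.mul_assoc P.adjugate, Matrix.adjugate_mul, hdC,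
      Matrix.mul_smul, Matrix.mul_one, Matrix.mul_smul] at h3
    ext1 i j
    have h4 := congrFun (congrFun h3 i) j
    simp only [Matrix.smul_apply, smul_eq_mul] at h4
    exact mul_left_cancel₀ hCD0 h4
  have hYeq : ∀ i, MvPolynomial.C μ * scale c (Y i) = ∑ j, MvPolynomial.C (D i j) * Y j := by
    intro i
    have h1 : (P.adjugate.map (scale c) * D.map MvPolynomial.C) *ᵥ (fun i => MvPolynomial.C (u i)) =
        (D.map MvPolynomial.C * P.adjugate) *ᵥ (fun i => MvPolynomial.C (u i)) := by rw [hadj]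
    rw [← Matrix.mulVec_mulVec, ← Matrix.mulVec_mulVec, ← hYdef] at h1
    have h2 : (D.map MvPolynomial.C : Matrix ι ι (MvPolynomial X K)) *ᵥ (fun i => MvPolynomial.C (u i)) =
        (MvPolynomial.C μ : MvPolynomial X K) • fun i => MvPolynomial.C (u i) := by
      funext k
      have h3 := congrFun hμ k
      simp only [Matrix.mulVec, dotProduct, Pi.smul_apply, smul_eq_mul, Matrix.map_apply] at h3 ⊢
      rw [← map_mul, ← h3, map_sum]
      simp
    rw [h2, Matrix.mulVec_smul] at h1
    have h3 := congrFun h1 i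
    simp only [Pi.smul_apply, smul_eq_mul] at h3
    have h4 : (P.adjugate.map (scale c) *ᵥ fun i => MvPolynomial.C (u i)) i = scale c (Y i) := by
      rw [hYdef]
      simp only [Matrix.mulVec, dotProduct, map_sum, map_mul, scale_C, Matrix.map_apply]
    rw [h4] at h3
    rw [h3]
    rfl
  have hYm : ∀ m : X →₀ ℕ, D *ᵥ (fun i => MvPolynomial.coeff m (Y i)) =
      (μ * m.prod fun x n => c x ^ n) • fun i => MvPolynomial.coeff m (Y i) := by
    intro m
    funext i
    have h1 := congrArg (MvPolynomial.coeff m) (hYeq i)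
    rw [MvPolynomial.coeff_C_mul, coeff_scale, MvPolynomial.coeff_sum] at h1
    simp only [MvPolynomial.coeff_C_mul] at h1
    simp only [Matrix.mulVec, dotProduct, Pi.smul_apply, smul_eq_mul]
    rw [← h1, mul_assoc]
  -- the coefficients of `d`
  have hdm : ∀ S' ⊆ S, S'.Nonempty → S' ≠ S → MvPolynomial.coeff (mono S') d = 0 := by
    intro S' h1 h2 h3
    have h4 := congrArg (MvPolynomial.coeff (mono S')) hdinv
    rw [coeff_scale, mono_prod] at h4
    by_contra hcon
    apply hgen S' h1 h2 h3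
    exact mul_right_cancel₀ hcon (by rw [h4, one_mul])
  have hd0 : d ≠ 0 := by
    intro h0
    have h1 : MvPolynomial.constantCoeff d = 1 := by
      rw [hd, RingHom.map_det, RingHom.mapMatrix_apply]
      have h2 : P.map MvPolynomial.constantCoeff = (1 : Matrix ι ι K) := by
        ext1 i j
        exact hP0 i j
      rw [h2, Matrix.det_one]
    rw [h0, map_zero] at h1
    exact zero_ne_one h1
  have hF : ∀ m : X →₀ ℕ, MvPolynomial.coeff m N.det =
      δ * (MvPolynomial.coeff m d - ∑ i, φ i * MvPolynomial.coeff m (Y i)) := by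
    intro m
    rw [hNP, MvPolynomial.coeff_C_mul, det_sub_rank_one P hd0, MvPolynomial.coeff_sub]
    congr 2
    rw [dotProduct, MvPolynomial.coeff_sum]
    refine Finset.sum_congr rfl fun i _ => ?_
    rw [MvPolynomial.coeff_C_mul]
  -- the steps
  have hstep : ∀ S' : Finset X, (∀ R ⊆ S', R.Nonempty → R.card ≤ dd → ∀ j, MvPolynomial.coeff (mono (S' \ R)) (Y j) = 0) →
      ∀ i, MvPolynomial.coeff (mono S') (Y i) = MvPolynomial.coeff (mono S') d * u i := by
    intro S' h i
    refine coeff_step_d hPdeg hP0 hY (fun a b hab ha hda j => ?_) i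
    obtain ⟨h1, h2, h3⟩ := mono_split hab
    rw [h3]
    refine h _ h1 ?_ (by rw [← h2]; exact hda) j
    rw [Finsupp.support_nonempty_iff]
    exact ha
  have hA : ∃ R ⊆ S, R.Nonempty ∧ R.card ≤ dd ∧ ∃ j, MvPolynomial.coeff (mono (S \ R)) (Y j) ≠ 0 := by
    by_contra hcon
    push Not at hcon
    apply hS
    have h1 := hstep S hcon
    rw [hF]
    simp only [h1]
    have h2 : ∑ i, φ i * (MvPolynomial.coeff (mono S) d * u i) = MvPolynomial.coeff (mono S) d * (φ ⬝ᵥ u) := by
      rw [dotProduct, Finset.mul_sum]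
      exact Finset.sum_congr rfl fun i _ => by ring
    rw [h2, hφu]
    ring
  have hB : ∀ S' ⊆ S, S'.Nonempty → S' ≠ S → (∃ j, MvPolynomial.coeff (mono S') (Y j) ≠ 0) →
      ∃ R ⊆ S', R.Nonempty ∧ R.card ≤ dd ∧ ∃ j, MvPolynomial.coeff (mono (S' \ R)) (Y j) ≠ 0 := by
    rintro S' h1 h2 h3 ⟨j, hj⟩
    by_contra hcon
    push Not at hcon
    apply hj
    rw [hstep S' hcon j, hdm S' h1 h2 h3, zero_mul]
  have heig : ∀ S' : Finset X, (∃ j, MvPolynomial.coeff (mono S') (Y j) ≠ 0) →
      ∃ y : ι → K, y ≠ 0 ∧ D *ᵥ y = (μ * ∏ x ∈ S', c x) • y := by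
    rintro S' ⟨j, hj⟩
    refine ⟨fun i => MvPolynomial.coeff (mono S') (Y i), fun h0 => hj (congrFun h0 j), ?_⟩
    rw [hYm, mono_prod]
  have hC : ∀ n : ℕ, ∀ S' ⊆ S, S'.card = n → S' ≠ S → (∃ j, MvPolynomial.coeff (mono S') (Y j) ≠ 0) → Good S' →
      ∃ S₁ S₂ : Finset X, S₁ ⊆ S₂ ∧ S₂ ⊆ S ∧ (S₂ \ S₁).card ≤ dd ∧ Good S₂ ∧ ¬ Good S₁ ∧
          ∃ y : ι → K, y ≠ 0 ∧ D *ᵥ y = (μ * ∏ x ∈ S₁, c x) • y := by
    intro n
    induction n using Nat.strong_induction_on with
    | _ n ih =>
      intro S' h1 h2 h3 h4 h5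
      have hne : S'.Nonempty := by
        rw [Finset.nonempty_iff_ne_empty]
        intro h0
        rw [h0] at h5
        exact hGood0 h5
      obtain ⟨R, hR1, hR2, hR3, hR4⟩ := hB S' h1 hne h3 h4
      have hlt : (S' \ R).card < S'.card := by
        rw [Finset.card_sdiff_of_subset hR1]
        have := Finset.card_pos.2 hR2
        have := Finset.card_pos.2 hne
        omega
      by_cases hg : Good (S' \ R)
      · refine ih (S' \ R).card (by omega) (S' \ R) (Finset.sdiff_subset.trans h1) rfl ?_ hR4 hg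
        intro h0
        rw [h0] at hlt
        have := Finset.card_le_card h1
        omega
      · refine ⟨S' \ R, S', Finset.sdiff_subset, h1, ?_, h5, hg, heig _ hR4⟩
        rw [Finset.sdiff_sdiff_eq_self hR1]
        exact hR3
  obtain ⟨R, hR1, hR2, hR3, hR4⟩ := hA
  have hlt : (S \ R).card < S.card := by
    rw [Finset.card_sdiff_of_subset hR1]
    have := Finset.card_pos.2 hR2
    have := Finset.card_le_card hR1
    omega
  by_cases hg : Good (S \ R)
  · refine hC _ (S \ R) Finset.sdiff_subset rfl ?_ hR4 hg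
    intro h0
    rw [h0] at hlt
    exact lt_irrefl _ hlt
  · refine ⟨S \ R, S, Finset.sdiff_subset, le_rfl, ?_, hGood, hg, heig _ hR4⟩
    rw [Finset.sdiff_sdiff_eq_self hR1]
    exact hR3

end Pool.Agent.HS38.GT
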