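import Pool.Agent.HS38.GT.ChainD

/-!
# Families of symmetries of a matrix with entries of degree at most `d`

As `ChainD.lean`, with the vectors chosen before the symmetry: every symmetry of the matrix which fixes the variable `ρ`
has all the coefficient vectors as eigenvectors.
-/

set_option autoImplicit false

namespace Pool.Agent.HS38.GT

open Matrix Pool.Agent.Helper1x.EQ

variable {K ι X : Type*} [Field K] [Fintype ι] [DecidableEq ι] [DecidableEq X]

/-- `(c, B, D)` is a symmetry of `N` which fixes `ρ` -/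
def IsSymm (N : Matrix ι ι (MvPolynomial X K)) (ρ : X) (c : X → K) (B D : Matrix ι ι K) : Prop :=
  IsUnit D.det ∧ c ρ = 1 ∧ N.map (scale c) * D.map MvPolynomial.C = B.map MvPolynomial.C * N

theorem core_f {dd : ℕ} {N : Matrix ι ι (MvPolynomial X K)} (hdeg : ∀ i j, (N i j).totalDegree ≤ dd) {ρ : X}
    (hdet : lin ρ N.det = Polynomial.X) :
    ∃ (δ : K) (P : Matrix ι ι (MvPolynomial X K)) (u φ : ι → K), δ ≠ 0 ∧ u ≠ 0 ∧
      φ ⬝ᵥ u = 1 ∧ (∀ i j, (P i j).totalDegree ≤ dd) ∧
      (∀ i j, MvPolynomial.coeff 0 (P i j) = (1 : Matrix ι ι K) i j) ∧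
      N.det = MvPolynomial.C δ *
        (P - vecMulVec (fun i => MvPolynomial.C (u i)) (fun i => MvPolynomial.C (φ i))).det ∧
      ∀ (c : X → K) (B D : Matrix ι ι K), IsSymm N ρ c B D → ∃ μ : K, D *ᵥ u = μ • u ∧
        P.map (scale c) * D.map MvPolynomial.C = D.map MvPolynomial.C * P := by
  classical
  set L : Matrix ι ι K := N.map (MvPolynomial.coeff 0) with hL
  set A : Matrix ι ι K := N.map (MvPolynomial.coeff (Finsupp.single ρ 1)) with hA
  set A' : Matrix ι ι (Polynomial K) := N.map (fun p => (lin ρ p).divX) with hA'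
  -- the restriction to the line
  have h1 : N.map (lin ρ) = L.map Polynomial.C + (Polynomial.X : Polynomial K) • A' := by
    ext1 i j
    show lin ρ (N i j) = Polynomial.C (MvPolynomial.coeff 0 (N i j)) +
      Polynomial.X * (lin ρ (N i j)).divX
    conv_lhs => rw [← Polynomial.divX_mul_X_add (lin ρ (N i j))]
    rw [coeff_lin, Finsupp.single_zero, mul_comm, add_comm]
  have hAA : A'.map (Polynomial.evalRingHom 0) = A := by
    ext1 i j
    show Polynomial.evalRingHom 0 ((lin ρ (N i j)).divX) = MvPolynomial.coeff (Finsupp.single ρ 1) (N i j)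
    rw [Polynomial.coe_evalRingHom,
      ← Polynomial.coeff_zero_eq_eval_zero, Polynomial.coeff_divX, zero_add, coeff_lin]
  have h2 : (L.map Polynomial.C + (Polynomial.X : Polynomial K) • A').det = Polynomial.X := by
    rw [← h1, ← hdet]
    exact ((lin ρ).map_det N).symm
  obtain ⟨u, w, hu, hw, hwu, hku, hkw⟩ := kernels' hAA h2
  have hu0 : u ≠ 0 := by
    intro h0
    rw [h0, Matrix.mulVec_zero, dotProduct_zero] at hwu
    exact zero_ne_one hwu
  -- the invertible matrix
  set φ : ι → K := w ᵥ* A with hφ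
  have hφu : φ ⬝ᵥ u = 1 := by rw [hφ, ← Matrix.dotProduct_mulVec]; exact hwu
  set L' : Matrix ι ι K := L + vecMulVec (A *ᵥ u) φ with hL'
  have hvm : ∀ (a b x : ι → K), vecMulVec a b *ᵥ x = (b ⬝ᵥ x) • a := by
    intro a b x
    funext i
    simp only [Matrix.mulVec, vecMulVec_apply, dotProduct, Pi.smul_apply, smul_eq_mul, Finset.sum_mul]
    exact Finset.sum_congr rfl fun j _ => by ring
  have hL'u : L' *ᵥ u = A *ᵥ u := by
    rw [hL', Matrix.add_mulVec, hu, hvm, hφu, one_smul, zero_add]
  have hdet' : L'.det ≠ 0 := by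
    intro h0
    obtain ⟨x, hx0, hx⟩ := Matrix.exists_mulVec_eq_zero_iff.2 h0
    rw [hL', Matrix.add_mulVec, hvm] at hx
    have h3 : φ ⬝ᵥ x = 0 := by
      have h4 : w ⬝ᵥ (L *ᵥ x + (φ ⬝ᵥ x) • A *ᵥ u) = 0 := by rw [hx, dotProduct_zero]
      rw [dotProduct_add, Matrix.dotProduct_mulVec, hw, zero_dotProduct, dotProduct_smul, hwu, smul_eq_mul,
        mul_one, zero_add] at h4
      exact h4
    rw [h3, zero_smul, add_zero] at hx
    obtain ⟨a, ha⟩ := hku x hx
    rw [ha, dotProduct_smul, hφu, smul_eq_mul, mul_one] at h3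
    rw [h3, zero_smul] at ha
    exact hx0 ha
  have hunit : IsUnit L'.det := isUnit_iff_ne_zero.2 hdet'
  have hGu : L'⁻¹ *ᵥ (A *ᵥ u) = u := by
    rw [← hL'u, Matrix.mulVec_mulVec, Matrix.nonsing_inv_mul _ hunit, Matrix.one_mulVec]
  set G : Matrix ι ι K := L'⁻¹ with hG
  set V : Matrix ι ι (MvPolynomial X K) :=
    vecMulVec (fun i => MvPolynomial.C (u i)) (fun i => MvPolynomial.C (φ i)) with hV
  have hVmap : V = (vecMulVec u φ).map MvPolynomial.C := by
    ext1 i j
    simp [hV, vecMulVec_apply]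
  have hmapmul : ∀ (S T : Matrix ι ι K), (S * T).map MvPolynomial.C =
      (S.map MvPolynomial.C * T.map MvPolynomial.C : Matrix ι ι (MvPolynomial X K)) := by
    intro S T
    ext1 i j
    simp [Matrix.mul_apply, map_sum]
  refine ⟨L'.det, G.map MvPolynomial.C * N + V, u, φ, hdet', hu0, hφu, ?_, ?_, ?_, ?_⟩
  · intro i j
    rw [Matrix.add_apply, Matrix.mul_apply]
    refine (MvPolynomial.totalDegree_add _ _).trans (max_le ?_ ?_)
    · refine (MvPolynomial.totalDegree_finsetSum _ _).trans (Finset.sup_le fun k _ => ?_)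
      refine (MvPolynomial.totalDegree_mul _ _).trans ?_
      rw [Matrix.map_apply, MvPolynomial.totalDegree_C, zero_add]
      exact hdeg k j
    · rw [hVmap, Matrix.map_apply, MvPolynomial.totalDegree_C]
      exact Nat.zero_le _
  · intro i j
    have h3 : G * L + vecMulVec u φ = 1 := by
      have h4 : G * L' = 1 := Matrix.nonsing_inv_mul _ hunit
      rw [hL', Matrix.mul_add] at h4
      rw [← h4, mul_vMV, hGu]
    rw [← h3, hVmap, Matrix.add_apply, Matrix.add_apply, MvPolynomial.coeff_add, Matrix.mul_apply, Matrix.mul_apply,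
      MvPolynomial.coeff_sum, Matrix.map_apply, MvPolynomial.coeff_C, if_pos rfl]
    congr 1
    refine Finset.sum_congr rfl fun k _ => ?_
    rw [Matrix.map_apply, MvPolynomial.coeff_C_mul]
    rfl
  · have h3 : L'.map MvPolynomial.C * (G.map MvPolynomial.C * N + V - V) = N := by
      rw [add_sub_cancel_right, ← Matrix.mul_assoc, ← hmapmul, Matrix.mul_nonsing_inv _ hunit]
      have : ((1 : Matrix ι ι K).map MvPolynomial.C : Matrix ι ι (MvPolynomial X K)) = 1 := by
        ext1 i j
        simp only [Matrix.map_apply, Matrix.one_apply]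
        split_ifs <;> simp
      rw [this, Matrix.one_mul]
    have h4 := congrArg Matrix.det h3
    rw [Matrix.det_mul] at h4
    rw [← h4]
    congr 1
    have h5 := RingHom.map_det (MvPolynomial.C : K →+* MvPolynomial X K) L'
    rw [RingHom.mapMatrix_apply] at h5
    exact h5.symm
  · rintro c B D ⟨hD, hρ, hN⟩
    -- intertwining relations
    have hc0 : ∀ (p : MvPolynomial X K), MvPolynomial.coeff 0 (scale c p) = MvPolynomial.coeff 0 p := by
      intro p
      rw [coeff_scale]
      simp
    have hcρ : ∀ (p : MvPolynomial X K), MvPolynomial.coeff (Finsupp.single ρ 1) (scale c p) =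
        MvPolynomial.coeff (Finsupp.single ρ 1) p := by
      intro p
      rw [coeff_scale, Finsupp.prod_single_index (by simp), hρ]
      simp
    have hLD : L * D = B * L := by
      ext i j
      have h3 := congrArg (MvPolynomial.coeff 0) (congrFun (congrFun hN i) j)
      rw [Matrix.mul_apply, Matrix.mul_apply, MvPolynomial.coeff_sum, MvPolynomial.coeff_sum] at h3
      rw [Matrix.mul_apply, Matrix.mul_apply]
      simpa [hL, coeff_mul_C, MvPolynomial.coeff_C_mul, hc0] using h3
    have hAD : A * D = B * A := by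
      ext i j
      have h3 := congrArg (MvPolynomial.coeff (Finsupp.single ρ 1)) (congrFun (congrFun hN i) j)
      rw [Matrix.mul_apply, Matrix.mul_apply, MvPolynomial.coeff_sum, MvPolynomial.coeff_sum] at h3
      rw [Matrix.mul_apply, Matrix.mul_apply]
      simpa [hA, coeff_mul_C, MvPolynomial.coeff_C_mul, hcρ] using h3
    -- the eigenvalue
    obtain ⟨μ, hμ⟩ := hku (D *ᵥ u) (by rw [Matrix.mulVec_mulVec, hLD, ← Matrix.mulVec_mulVec, hu, Matrix.mulVec_zero])
    obtain ⟨μ', hμ'⟩ := hkw (w ᵥ* B) (by rw [Matrix.vecMul_vecMul, ← hLD, ← Matrix.vecMul_vecMul, hw, Matrix.zero_vecMul])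
    have hμμ : μ' = μ := by
      have h3 : w ⬝ᵥ (A *ᵥ (D *ᵥ u)) = μ := by
        rw [hμ, Matrix.mulVec_smul, dotProduct_smul, hwu, smul_eq_mul, mul_one]
      rw [Matrix.mulVec_mulVec, hAD, ← Matrix.mulVec_mulVec, Matrix.dotProduct_mulVec, hμ', smul_dotProduct, hwu,
        smul_eq_mul, mul_one] at h3
      exact h3
    subst hμμ
    have hL'D : L' * D = B * L' := by
      rw [hL', Matrix.add_mul, Matrix.mul_add, hLD]
      congr 1
      rw [vMV_mul, mul_vMV, hφ, Matrix.vecMul_vecMul, hAD, ← Matrix.vecMul_vecMul, hμ', Matrix.mulVec_mulVec, ← hAD,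
        ← Matrix.mulVec_mulVec, hμ, Matrix.mulVec_smul, Matrix.smul_vecMul]
      ext i j
      simp only [vecMulVec_apply, Pi.smul_apply, smul_eq_mul]
      ring
    have hGB : G * B = D * G := by
      have h3 : L'⁻¹ * (B * L') * L'⁻¹ = L'⁻¹ * (L' * D) * L'⁻¹ := by rw [hL'D]
      rw [Matrix.mul_assoc, Matrix.mul_assoc B, Matrix.mul_nonsing_inv _ hunit, Matrix.mul_one, ← Matrix.mul_assoc L'⁻¹ L' D,
        Matrix.nonsing_inv_mul _ hunit, Matrix.one_mul] at h3
      exact h3
    refine ⟨μ', hμ, ?_⟩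
    have h3 : (G.map MvPolynomial.C * N + V).map (scale c) = G.map MvPolynomial.C * N.map (scale c) + V := by
      ext1 i j
      simp only [Matrix.map_apply, Matrix.add_apply, Matrix.mul_apply, map_add, map_sum, map_mul, scale_C]
      congr 1
      rw [hVmap, Matrix.map_apply, scale_C]
    rw [h3, Matrix.add_mul, Matrix.mul_assoc, hN, ← Matrix.mul_assoc, ← hmapmul, hGB, hmapmul, Matrix.mul_add,
      Matrix.mul_assoc]
    congr 1
    rw [hVmap, ← hmapmul, ← hmapmul]
    congr 1
    rw [vMV_mul, mul_vMV, hφ, Matrix.vecMul_vecMul, hAD, ← Matrix.vecMul_vecMul, hμ', hμ, Matrix.smul_vecMul]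
    ext i j
    simp only [vecMulVec_apply, Pi.smul_apply, smul_eq_mul]
    ring

/-- Descent for a family of symmetries. The vectors `y S` do not depend on the symmetry. -/
theorem chain_f {dd : ℕ} {N : Matrix ι ι (MvPolynomial X K)} (hdeg : ∀ i j, (N i j).totalDegree ≤ dd)
    {ρ : X} (hdet : lin ρ N.det = Polynomial.X) :
    ∃ y : Finset X → ι → K,
      (∀ (c : X → K) (B D : Matrix ι ι K), IsSymm N ρ c B D → ∃ μ : K, μ ≠ 0 ∧
        ∀ S, D *ᵥ y S = (μ * ∏ x ∈ S, c x) • y S) ∧
      ∀ S : Finset X, MvPolynomial.coeff (mono S) N.det ≠ 0 →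
        (∀ S' ⊆ S, S'.Nonempty → S' ≠ S → ∃ (c : X → K) (B D : Matrix ι ι K), IsSymm N ρ c B D ∧
          ∏ x ∈ S', c x ≠ 1) →
        ∀ Good : Finset X → Prop, Good S → ¬ Good ∅ →
        ∃ S₁ S₂ : Finset X, S₁ ⊆ S₂ ∧ S₂ ⊆ S ∧ (S₂ \ S₁).card ≤ dd ∧ Good S₂ ∧ ¬ Good S₁ ∧ y S₁ ≠ 0 := by
  classical
  obtain ⟨δ, P, u, φ, hδ, hu0, hφu, hPdeg, hP0, hNP, hsym⟩ := core_f hdeg hdet
  set d := P.det with hd
  set Y : ι → MvPolynomial X K := P.adjugate *ᵥ (fun i => MvPolynomial.C (u i)) with hYdef
  have hY : P *ᵥ Y = d • fun i => MvPolynomial.C (u i) := by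
    rw [hYdef, Matrix.mulVec_mulVec, Matrix.mul_adjugate, Matrix.smul_mulVec, Matrix.one_mulVec]
  have hCD0 : ∀ D : Matrix ι ι K, IsUnit D.det → (MvPolynomial.C D.det : MvPolynomial X K) ≠ 0 := by
    intro D hD
    rw [Ne, MvPolynomial.C_eq_zero]
    exact hD.ne_zero
  have hdC : ∀ D : Matrix ι ι K, (D.map MvPolynomial.C : Matrix ι ι (MvPolynomial X K)).det = MvPolynomial.C D.det := by
    intro D
    rw [RingHom.map_det, RingHom.mapMatrix_apply]
  -- invariance of the determinant
  have hdinv : ∀ (c : X → K) (B D : Matrix ι ι K), IsSymm N ρ c B D → scale c d = d := by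
    intro c B D hs
    obtain ⟨μ, hμ, hPD⟩ := hsym c B D hs
    have h1 := congrArg Matrix.det hPD
    rw [Matrix.det_mul, Matrix.det_mul, hdC, mul_comm] at h1
    have h2 := mul_left_cancel₀ (hCD0 D hs.1) h1
    exact ((scale c).map_det P).trans h2
  refine ⟨fun S i => MvPolynomial.coeff (mono S) (Y i), ?_, ?_⟩
  · intro c B D hs
    obtain ⟨hD, hρ, hN⟩ := id hs
    obtain ⟨μ, hμ, hPD⟩ := hsym c B D hs
    have hμ0 : μ ≠ 0 := by
      intro h0
      apply hu0
      have h1 : D⁻¹ *ᵥ (D *ᵥ u) = u := by rw [Matrix.mulVec_mulVec, Matrix.nonsing_inv_mul _ hD, Matrix.one_mulVec]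
      rw [hμ, h0, zero_smul, Matrix.mulVec_zero] at h1
      exact h1.symm
    refine ⟨μ, hμ0, ?_⟩
    -- equivariance of `Y`
    have hadj : P.adjugate.map (scale c) * D.map MvPolynomial.C = D.map MvPolynomial.C * P.adjugate := by
      have h1 := congrArg Matrix.adjugate hPD
      rw [Matrix.adjugate_mul_distrib, Matrix.adjugate_mul_distrib] at h1
      have h2 : (P.map (scale c)).adjugate = P.adjugate.map (scale c) := by
        have := (scale c).map_adjugate P
        exact this.symm
      rw [h2] at h1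
      have h3 : (D.map MvPolynomial.C : Matrix ι ι (MvPolynomial X K)) *
          ((D.map MvPolynomial.C).adjugate * P.adjugate.map (scale c)) * D.map MvPolynomial.C =
          D.map MvPolynomial.C * (P.adjugate * (D.map MvPolynomial.C).adjugate) * D.map MvPolynomial.C := by rw [h1]
      rw [← Matrix.mul_assoc, Matrix.mul_adjugate, hdC, Matrix.smul_mul, Matrix.one_mul, Matrix.smul_mul,
        Matrix.mul_assoc (D.map MvPolynomial.C), Matrix.mul_assoc P.adjugate, Matrix.adjugate_mul, hdC,
        Matrix.mul_smul, Matrix.mul_one, Matrix.mul_smul] at h3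
      ext1 i j
      have h4 := congrFun (congrFun h3 i) j
      simp only [Matrix.smul_apply, smul_eq_mul] at h4
      exact mul_left_cancel₀ (hCD0 D hD) h4
    have hYeq : ∀ i, MvPolynomial.C μ * scale c (Y i) = ∑ j, MvPolynomial.C (D i j) * Y j := by
      intro i
      have h1 : (P.adjugate.map (scale c) * D.map MvPolynomial.C) *ᵥ (fun i => MvPolynomial.C (u i)) =
          (D.map MvPolynomial.C * P.adjugate) *ᵥ (fun i => MvPolynomial.C (u i)) := by rw [hadj]
      rw [← Matrix.mulVec_mulVec, ← Matrix.mulVec_mulVec, ← hYdef] at h1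
      have h2 : (D.map MvPolynomial.C : Matrix ι ι (MvPolynomial X K)) *ᵥ (fun i => MvPolynomial.C (u i)) =
          (MvPolynomial.C μ : MvPolynomial X K) • fun i => MvPolynomial.C (u i) := by
        funext k
        have h3 := congrFun hμ k
        simp only [Matrix.mulVec, dotProduct, Pi.smul_apply, smul_eq_mul, Matrix.map_apply] at h3 ⊢
        rw [← map_mul, ← h3, map_sum]
        simp
      rw [h2, Matrix.mulVec_smul] at h1
      have h3 := congrFun h1 i
      simp only [Pi.smul_apply, smul_eq_mul] at h3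
      have h4 : (P.adjugate.map (scale c) *ᵥ fun i => MvPolynomial.C (u i)) i = scale c (Y i) := by
        rw [hYdef]
        simp only [Matrix.mulVec, dotProduct, map_sum, map_mul, scale_C, Matrix.map_apply]
      rw [h4] at h3
      rw [h3]
      rfl
    intro S
    funext i
    have h1 := congrArg (MvPolynomial.coeff (mono S)) (hYeq i)
    rw [MvPolynomial.coeff_C_mul, coeff_scale, MvPolynomial.coeff_sum, mono_prod] at h1
    simp only [MvPolynomial.coeff_C_mul] at h1
    simp only [Matrix.mulVec, dotProduct, Pi.smul_apply, smul_eq_mul]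
    rw [← h1, mul_assoc]
  · intro S hS hgen Good hGood hGood0
    -- the coefficients of `d`
    have hdm : ∀ S' ⊆ S, S'.Nonempty → S' ≠ S → MvPolynomial.coeff (mono S') d = 0 := by
      intro S' h1 h2 h3
      obtain ⟨c, B, D, hs, hc⟩ := hgen S' h1 h2 h3
      have h4 := congrArg (MvPolynomial.coeff (mono S')) (hdinv c B D hs)
      rw [coeff_scale, mono_prod] at h4
      by_contra hcon
      apply hc
      exact mul_right_cancel₀ hcon (by rw [h4, one_mul])
    have hd0 : d ≠ 0 := by
      intro h0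
      have h1 : MvPolynomial.constantCoeff d = 1 := by
        rw [hd, RingHom.map_det, RingHom.mapMatrix_apply]
        have h2 : P.map MvPolynomial.constantCoeff = (1 : Matrix ι ι K) := by
          ext1 i j
          exact hP0 i j
        rw [h2, Matrix.det_one]
      rw [h0, map_zero] at h1
      exact zero_ne_one h1
    have hF : ∀ m : X →₀ ℕ, MvPolynomial.coeff m N.det =
        δ * (MvPolynomial.coeff m d - ∑ i, φ i * MvPolynomial.coeff m (Y i)) := by
      intro m
      rw [hNP, MvPolynomial.coeff_C_mul, det_sub_rank_one P hd0, MvPolynomial.coeff_sub]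
      congr 2
      rw [dotProduct, MvPolynomial.coeff_sum]
      refine Finset.sum_congr rfl fun i _ => ?_
      rw [MvPolynomial.coeff_C_mul]
    -- the steps
    have hstep : ∀ S' : Finset X, (∀ R ⊆ S', R.Nonempty → R.card ≤ dd → ∀ j, MvPolynomial.coeff (mono (S' \ R)) (Y j) = 0) →
        ∀ i, MvPolynomial.coeff (mono S') (Y i) = MvPolynomial.coeff (mono S') d * u i := by
      intro S' h i
      refine coeff_step_d hPdeg hP0 hY (fun a b hab ha hda j => ?_) i
      obtain ⟨h1, h2, h3⟩ := mono_split hab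
      rw [h3]
      refine h _ h1 ?_ (by rw [← h2]; exact hda) j
      rw [Finsupp.support_nonempty_iff]
      exact ha
    have hA : ∃ R ⊆ S, R.Nonempty ∧ R.card ≤ dd ∧ ∃ j, MvPolynomial.coeff (mono (S \ R)) (Y j) ≠ 0 := by
      by_contra hcon
      push Not at hcon
      apply hS
      have h1 := hstep S hcon
      rw [hF]
      simp only [h1]
      have h2 : ∑ i, φ i * (MvPolynomial.coeff (mono S) d * u i) = MvPolynomial.coeff (mono S) d * (φ ⬝ᵥ u) := by
        rw [dotProduct, Finset.mul_sum]
        exact Finset.sum_congr rfl fun i _ => by ring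
      rw [h2, hφu]
      ring
    have hB : ∀ S' ⊆ S, S'.Nonempty → S' ≠ S → (∃ j, MvPolynomial.coeff (mono S') (Y j) ≠ 0) →
        ∃ R ⊆ S', R.Nonempty ∧ R.card ≤ dd ∧ ∃ j, MvPolynomial.coeff (mono (S' \ R)) (Y j) ≠ 0 := by
      rintro S' h1 h2 h3 ⟨j, hj⟩
      by_contra hcon
      push Not at hcon
      apply hj
      rw [hstep S' hcon j, hdm S' h1 h2 h3, zero_mul]
    have heig : ∀ S' : Finset X, (∃ j, MvPolynomial.coeff (mono S') (Y j) ≠ 0) →
        (fun i => MvPolynomial.coeff (mono S') (Y i)) ≠ (0 : ι → K) := by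
      rintro S' ⟨j, hj⟩ h0
      exact hj (congrFun h0 j)
    have hC : ∀ n : ℕ, ∀ S' ⊆ S, S'.card = n → S' ≠ S → (∃ j, MvPolynomial.coeff (mono S') (Y j) ≠ 0) → Good S' →
        ∃ S₁ S₂ : Finset X, S₁ ⊆ S₂ ∧ S₂ ⊆ S ∧ (S₂ \ S₁).card ≤ dd ∧ Good S₂ ∧ ¬ Good S₁ ∧
            (fun i => MvPolynomial.coeff (mono S₁) (Y i)) ≠ (0 : ι → K) := by
      intro n
      induction n using Nat.strong_induction_on with
      | _ n ih =>
        intro S' h1 h2 h3 h4 h5
        have hne : S'.Nonempty := by
          rw [Finset.nonempty_iff_ne_empty]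
          intro h0
          rw [h0] at h5
          exact hGood0 h5
        obtain ⟨R, hR1, hR2, hR3, hR4⟩ := hB S' h1 hne h3 h4
        have hlt : (S' \ R).card < S'.card := by
          rw [Finset.card_sdiff_of_subset hR1]
          have := Finset.card_pos.2 hR2
          have := Finset.card_pos.2 hne
          omega
        by_cases hg : Good (S' \ R)
        · refine ih (S' \ R).card (by omega) (S' \ R) (Finset.sdiff_subset.trans h1) rfl ?_ hR4 hg
          intro h0
          rw [h0] at hlt
          have := Finset.card_le_card h1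
          omega
        · refine ⟨S' \ R, S', Finset.sdiff_subset, h1, ?_, h5, hg, heig _ hR4⟩
          rw [Finset.sdiff_sdiff_eq_self hR1]
          exact hR3
    obtain ⟨R, hR1, hR2, hR3, hR4⟩ := hA
    have hlt : (S \ R).card < S.card := by
      rw [Finset.card_sdiff_of_subset hR1]
      have := Finset.card_pos.2 hR2
      have := Finset.card_le_card hR1
      omega
    by_cases hg : Good (S \ R)
    · refine hC _ (S \ R) Finset.sdiff_subset rfl ?_ hR4 hg
      intro h0
      rw [h0] at hlt
      exact lt_irrefl _ hlt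
    · refine ⟨S \ R, S, Finset.sdiff_subset, le_rfl, ?_, hGood, hg, heig _ hR4⟩
      rw [Finset.sdiff_sdiff_eq_self hR1]
      exact hR3

omit [DecidableEq ι] in
/-- Joint eigenvectors with different eigenvalues are linearly independent. -/
theorem card_of_joint {σ : Type*} (T : Finset σ) (y : σ → ι → K) (hy : ∀ s ∈ T, y s ≠ 0)
    (h : ∀ s ∈ T, ∀ s' ∈ T, s ≠ s' → ∃ (D : Matrix ι ι K) (l : σ → K), (∀ r ∈ T, D *ᵥ y r = l r • y r) ∧ l s ≠ l s') :
    T.card ≤ Fintype.card ι := by
  classical
  have key : ∀ T' ⊆ T, ∀ a : σ → K, ∑ s ∈ T', a s • y s = 0 → ∀ s ∈ T', a s = 0 := by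
    intro T'
    induction T' using Finset.strongInduction with
    | _ T' ih =>
      intro hT' a ha s hs
      by_cases h1 : ∃ s' ∈ T', s' ≠ s
      · obtain ⟨s', hs', hne⟩ := h1
        obtain ⟨D, l, hD, hl⟩ := h s (hT' hs) s' (hT' hs') (Ne.symm hne)
        have h2 : ∑ r ∈ T', (a r * l r) • y r = 0 := by
          have h3 := congrArg (fun x => D *ᵥ x) ha
          simp only [Matrix.mulVec_zero] at h3
          rw [← h3, Matrix.mulVec_sum]
          refine Finset.sum_congr rfl fun r hr => ?_
          rw [Matrix.mulVec_smul, hD r (hT' hr), smul_smul]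
        have h3 : ∑ r ∈ T'.erase s', (a r * (l r - l s')) • y r = 0 := by
          have h4 : ∑ r ∈ T', (a r * (l r - l s')) • y r = 0 := by
            have h5 : ∀ r, (a r * (l r - l s')) • y r = (a r * l r) • y r - l s' • (a r • y r) := by
              intro r
              rw [smul_smul, ← sub_smul]
              congr 1
              ring
            rw [Finset.sum_congr rfl fun r _ => h5 r, Finset.sum_sub_distrib, h2, ← Finset.smul_sum, ha, smul_zero,
              sub_zero]
          rw [← Finset.sum_erase_add _ _ hs'] at h4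
          simpa using h4
        have h4 := ih (T'.erase s') (Finset.erase_ssubset hs') ((Finset.erase_subset _ _).trans hT') _ h3 s
          (Finset.mem_erase.2 ⟨Ne.symm hne, hs⟩)
        exact (mul_eq_zero.1 h4).resolve_right (sub_ne_zero.2 hl)
      · push Not at h1
        have h2 : T' = {s} := by
          ext x
          rw [Finset.mem_singleton]
          exact ⟨fun hx => h1 x hx, fun hx => hx ▸ hs⟩
        rw [h2, Finset.sum_singleton] at ha
        exact (smul_eq_zero.1 ha).resolve_right (hy s (hT' hs))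
  have hli : LinearIndependent K (fun s : T => y s) := by
    rw [Fintype.linearIndependent_iff]
    intro g hg i
    have h1 : ∑ s ∈ T, (if h : s ∈ T then g ⟨s, h⟩ else 0) • y s = 0 := by
      rw [← Finset.sum_coe_sort T]
      rw [← hg]
      refine Finset.sum_congr rfl fun s _ => ?_
      rw [dif_pos s.2]
    have h2 := key T le_rfl _ h1 i.1 i.2
    rwa [dif_pos i.2] at h2
  have h1 := hli.fintype_card_le_finrank
  rwa [Fintype.card_coe, Module.finrank_fintype_fun_eq_card] at h1

end Pool.Agent.HS38.GT
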