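import Pool.Agent.HS38.GT.Up3

/-!
# The classification of sequences of networks
-/

set_option autoImplicit false

namespace Pool.Agent.HS38.GT

open MvPolynomial Finset Pool.Agent.Helper1x.EQ Pool.Agent.H20VP

/-- polynomially bounded -/
def PolyBounded (f : ℕ → ℕ) : Prop := ∃ c : ℕ, ∀ n, f n ≤ n ^ c + c

theorem PolyBounded.mono {f g : ℕ → ℕ} (h : PolyBounded g) (hfg : ∀ n, f n ≤ g n) : PolyBounded f := by
  obtain ⟨c, hc⟩ := h
  exact ⟨c, fun n => (hfg n).trans (hc n)⟩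

theorem PolyBounded.mul {f g : ℕ → ℕ} (hf : PolyBounded f) (hg : PolyBounded g) : PolyBounded fun n => f n * g n := by
  obtain ⟨a, ha⟩ := hf
  obtain ⟨b, hb⟩ := hg
  refine ⟨a + b + (1 + a) * (1 + b), fun n => ?_⟩
  refine (Nat.mul_le_mul (ha n) (hb n)).trans ?_
  rcases Nat.eq_zero_or_pos n with rfl | hn
  · have h1 : ∀ k : ℕ, 0 ^ k + k ≤ 1 + k := fun k => Nat.add_le_add_right (by rcases k with _ | k <;> simp) _
    exact (Nat.mul_le_mul (h1 a) (h1 b)).trans (le_trans (Nat.le_add_left _ _) (Nat.le_add_left _ _))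
  by_cases h1 : n = 1
  · subst h1
    rw [one_pow, one_pow]
    exact le_trans (Nat.le_add_left _ _) (Nat.le_add_left _ _)
  · have h2 : ∀ k : ℕ, n ^ k + k ≤ n ^ k * (1 + k) := by
      intro k
      have := Nat.one_le_pow k n hn
      nlinarith
    have h3 : (1 + a) * (1 + b) ≤ n ^ ((1 + a) * (1 + b)) := (Nat.lt_pow_self (by omega)).le
    calc (n ^ a + a) * (n ^ b + b) ≤ (n ^ a * (1 + a)) * (n ^ b * (1 + b)) := Nat.mul_le_mul (h2 a) (h2 b)
      _ = n ^ (a + b) * ((1 + a) * (1 + b)) := by rw [pow_add]; ring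
      _ ≤ n ^ (a + b) * n ^ ((1 + a) * (1 + b)) := Nat.mul_le_mul_left _ h3
      _ = n ^ (a + b + (1 + a) * (1 + b)) := by rw [← pow_add]
      _ ≤ _ := Nat.le_add_right _ _

theorem PolyBounded.succ {f : ℕ → ℕ} (hf : PolyBounded f) : PolyBounded fun n => f n + 1 := by
  obtain ⟨a, ha⟩ := hf
  refine ⟨a + 2, fun n => ?_⟩
  show f n + 1 ≤ n ^ (a + 2) + (a + 2)
  have h1 := ha n
  have h2 : n ^ a ≤ n ^ (a + 2) + 1 := by
    rcases Nat.eq_zero_or_pos n with rfl | hn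
    · have h3 : (0 : ℕ) ^ a ≤ 1 := by rcases a with _ | a <;> simp
      exact h3.trans (Nat.le_add_left _ _)
    · exact (Nat.pow_le_pow_right hn (by omega)).trans (Nat.le_add_right _ _)
  omega

theorem PolyBounded.const (k : ℕ) : PolyBounded fun _ => k := ⟨k, fun n => Nat.le_add_left _ _⟩

theorem muls_le_size {K X : Type} (Q : Circuit K X) : muls Q ≤ Q.size := by
  have hfin : Finite Q.N := @Finite.of_fintype _ Q.fin
  unfold muls Circuit.size
  have h1 : Nat.card {n : Q.N // ∃ a b, Q.gate n = .mul a b} ≤ Nat.card Q.N :=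
    Finite.card_subtype_le _
  rwa [@Nat.card_eq_fintype_card Q.N Q.fin] at h1

theorem classification (hC : S_CUP3) (hL : S_LSK3) (F A : Type) [Field F] [Fintype A] [DecidableEq A] (V : ℕ → Type)
    [∀ n, Fintype (V n)] [∀ n, DecidableEq (V n)] (H : ∀ n, Finset (Finset (V n))) (hA : 2 ≤ Fintype.card A)
    (h2 : ∀ n, 2 ≤ (H n).card) (hH : ∀ n, ∀ i, ∃ K ∈ H n, i ∈ K) (h1 : ∀ n, CutGe (H n) 1)
    (hq : 3 ≤ Fintype.card A ∨ ∀ n, CutGe (H n) 2) (hN : PolyBounded fun n => ∑ K ∈ H n, Fintype.card A ^ K.card) :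
    ((∃ c, ∀ n, ∃ Q : Circuit F (V n → Option A), Symmetric (H n) Q (Z F A (H n)) ∧ Q.size ≤ n ^ c + c) ↔
      PolyBounded fun n => Fintype.card A ^ cwidth (H n)) ∧
    ((∃ c, ∀ n, ∃ Q : Circuit F (V n → Option A), Q.WeaklySkew ∧ Symmetric (H n) Q (Z F A (H n)) ∧ Q.size ≤ n ^ c + c) ↔
      PolyBounded fun n => Fintype.card A ^ lwidth (H n)) ∧
    ∀ t : ∀ n, Finset (V n) → V n → A → Fˣ, (∀ n, Generic4 (H n) (t n)) →
      ((∃ c, ∀ n, ∃ m ≤ n ^ c + c, ∃ M : Matrix (Fin m) (Fin m) (MvPolynomial (V n → Option A) F),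
        IsDetRep M (Z F A (H n)) ∧ Equivariant (HS38.GT.gauge (t n)) M) ↔
        PolyBounded fun n => Fintype.card A ^ lwidth (H n)) := by
  have hne : ∀ n, (H n).Nonempty := fun n => Finset.card_pos.1 (by have := h2 n; omega)
  have : Nonempty A := Fintype.card_pos_iff.1 (by omega)
  have hq' : ∀ n, 3 ≤ Fintype.card A ∨ CutGe (H n) 2 := fun n => hq.imp id fun h => h n
  have hcard : ∀ n, (H n).card ≤ ∑ K ∈ H n, Fintype.card A ^ K.card := by
    intro n
    rw [Finset.card_eq_sum_ones]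
    exact Finset.sum_le_sum fun K _ => Nat.one_le_pow _ _ (by omega)
  refine ⟨⟨?_, ?_⟩, ⟨?_, ?_⟩, fun t ht => ⟨?_, ?_⟩⟩
  · rintro ⟨c, hc⟩
    refine ⟨c, fun n => ?_⟩
    obtain ⟨Q, h3, h4⟩ := hc n
    exact (low_circuit_sym (h2 n) (hH n) (contains_Z (hH n)) h3).trans ((muls_le_size Q).trans h4)
  · intro h
    have h3 : PolyBounded fun n => 2 * (((∑ K ∈ H n, Fintype.card A ^ K.card) + 1) *
        (Fintype.card A ^ cwidth (H n) + 1)) := (PolyBounded.const 2).mul (hN.succ.mul h.succ)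
    obtain ⟨c, hc⟩ := h3
    refine ⟨c, fun n => ?_⟩
    obtain ⟨Q, -, h5, h6, -⟩ := up_circuit3 (F := F) (A := A) hC (hne n) (hH n)
    refine ⟨Q, Or.inl h6, h5.trans (le_trans ?_ (hc n))⟩
    show _ ≤ 2 * (((∑ K ∈ H n, Fintype.card A ^ K.card) + 1) * (Fintype.card A ^ cwidth (H n) + 1))
    have h7 := hcard n
    have h8 : ((H n).card - 1) * Fintype.card A ^ cwidth (H n) ≤
        (∑ K ∈ H n, Fintype.card A ^ K.card) * Fintype.card A ^ cwidth (H n) := Nat.mul_le_mul_right _ (by omega)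
    have h9 : 2 * ((H n).card - 1) * Fintype.card A ^ cwidth (H n) =
        2 * (((H n).card - 1) * Fintype.card A ^ cwidth (H n)) := by ring
    have h10 : 2 * (((∑ K ∈ H n, Fintype.card A ^ K.card) + 1) * (Fintype.card A ^ cwidth (H n) + 1)) =
        2 * ((∑ K ∈ H n, Fintype.card A ^ K.card) * Fintype.card A ^ cwidth (H n)) +
        2 * (∑ K ∈ H n, Fintype.card A ^ K.card) + 2 * Fintype.card A ^ cwidth (H n) + 2 := by ring
    rw [h9, h10]
    omega
  · rintro ⟨c, hc⟩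
    have h3 : PolyBounded fun n => (n ^ c + c) + 1 := PolyBounded.succ ⟨c, fun n => le_rfl⟩
    refine h3.mono fun n => ?_
    obtain ⟨Q, h4, h5, h6⟩ := hc n
    have h7 := (low_ws_sym (hne n) (hH n) (h1 n) hA (hq' n) (contains_Z (hH n)) h4 h5).2 (constantCoeff_Z F (hne n))
    exact h7.trans (Nat.add_le_add_right h6 1)
  · intro h
    have h3 : PolyBounded fun n => 4 * ((∑ K ∈ H n, Fintype.card A ^ K.card) * Fintype.card A ^ lwidth (H n)) :=
      (PolyBounded.const 4).mul (hN.mul h)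
    obtain ⟨c, hc⟩ := h3
    refine ⟨c, fun n => ?_⟩
    obtain ⟨Q, -, h4, h5, h6, -⟩ := up_ws3 (F := F) (A := A) hL (hne n) (hH n)
    refine ⟨Q, h4, Or.inl h6, h5.trans (le_trans (le_of_eq ?_) (hc n))⟩
    show _ = 4 * ((∑ K ∈ H n, Fintype.card A ^ K.card) * Fintype.card A ^ lwidth (H n))
    ring
  · rintro ⟨c, hc⟩
    refine ⟨c, fun n => ?_⟩
    obtain ⟨m, hm, M, h3, h4⟩ := hc n
    have h8 := (low_det (hne n) (hH n) (h1 n) hA (hq' n) (ht n) (contains_Z (hH n)) (k := Fintype.card (V n)) (d := 0)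
      (M := M) (fun K _ => Finset.card_le_univ K) (by simpa using h3.1) h3.2 h4).2 (constantCoeff_Z F (hne n))
    exact le_trans (by simpa using h8) hm
  · intro h
    have h3 : PolyBounded fun n => ((∑ K ∈ H n, Fintype.card A ^ K.card) * Fintype.card A ^ lwidth (H n)) + 1 :=
      (hN.mul h).succ
    obtain ⟨c, hc⟩ := h3
    refine ⟨c, fun n => ?_⟩
    obtain ⟨m, hm, M, h4, h5⟩ := up_det (F := F) (A := A) (hne n) (hH n)
    refine ⟨m, hm.trans (le_trans ?_ (hc n)), M, h4, ?_⟩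
    · have h7 := hcard n
      have h8 : ((H n).card - 1) * Fintype.card A ^ lwidth (H n) ≤
          (∑ K ∈ H n, Fintype.card A ^ K.card) * Fintype.card A ^ lwidth (H n) := Nat.mul_le_mul_right _ (by omega)
      exact Nat.add_le_add_right h8 1
    · obtain ⟨B, C', hB, hC', h9⟩ := h5 _ ⟨t n, (ht n).1, rfl⟩
      exact ⟨B, C', hB, hC', Or.inl h9⟩

end Pool.Agent.HS38.GT
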