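import Pool.Agent.HS38.GT.Stm4

/-!
# Piece CON: the combinatorial contradiction
-/

set_option autoImplicit false
set_option linter.unusedSectionVars false

namespace Pool.Agent.HS38.GT

open MvPolynomial Finset Pool.Agent.Helper1x.EQ

namespace CON

section

variable {V A : Type} [Fintype V] [DecidableEq V] [Fintype A] [DecidableEq A] {F : Type} [Field F]
  {H : Finset (Finset V)} {t : Finset V → V → A → Fˣ}

theorem wt_eq {U : Finset (Finset V)} (hU : U ⊆ H) (a : V → A) :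
    ∏ K ∈ H, ∏ i ∈ K, ∏ α, t K i α ^ ex U a K i α = wt t U a := by
  unfold wt
  rw [← Finset.prod_subset hU]
  · refine Finset.prod_congr rfl fun K hK => Finset.prod_congr rfl fun i _ => ?_
    rw [Finset.prod_eq_single (a i)]
    · simp [ex, hK]
    · intro α _ hne
      simp [ex, Ne.symm hne]
    · intro h2
      exact absurd (Finset.mem_univ _) h2
  · intro K _ hK
    apply Finset.prod_eq_one
    intro i _
    apply Finset.prod_eq_one
    intro α _
    simp [ex, hK]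

theorem ex_bd (U : Finset (Finset V)) (a : V → A) (K : Finset V) (i : V) (α : A) :
    0 ≤ ex U a K i α ∧ ex U a K i α ≤ 1 := by
  unfold ex
  split_ifs <;> simp

theorem gen4 (hg : Generic4 H t) {P1 P2 P3 P4 : Finset (Finset V)} (h1 : P1 ⊆ H) (h2 : P2 ⊆ H)
    (h3 : P3 ⊆ H) (h4 : P4 ⊆ H) (a b c d : V → A)
    (h : wt t P1 a ^ 2 * wt t P2 b ^ 2 = wt t P3 c ^ 2 * wt t P4 d ^ 2) :
    ∀ i, ∀ α, ∀ K ∈ H, i ∈ K → ∀ K' ∈ H, i ∈ K' →
      ex P1 a K i α + ex P2 b K i α - ex P3 c K i α - ex P4 d K i α =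
      ex P1 a K' i α + ex P2 b K' i α - ex P3 c K' i α - ex P4 d K' i α := by
  obtain ⟨-, hg2⟩ := hg
  have h5 : ∏ K ∈ H, ∏ i ∈ K, ∏ α, t K i α ^
      (2 * (ex P1 a K i α + ex P2 b K i α - ex P3 c K i α - ex P4 d K i α)) = 1 := by
    have e : ∀ (K : Finset V) (i : V) (α : A), t K i α ^
        (2 * (ex P1 a K i α + ex P2 b K i α - ex P3 c K i α - ex P4 d K i α)) =
        ((t K i α ^ ex P1 a K i α) ^ 2 * (t K i α ^ ex P2 b K i α) ^ 2) /
          ((t K i α ^ ex P3 c K i α) ^ 2 * (t K i α ^ ex P4 d K i α) ^ 2) := by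
      intro K i α
      rw [mul_comm (2 : ℤ), _root_.zpow_mul, _root_.zpow_sub, _root_.zpow_sub, _root_.zpow_add]
      rw [show (2 : ℤ) = ((2 : ℕ) : ℤ) from rfl, _root_.zpow_natCast]
      rw [mul_pow, mul_pow, mul_pow, inv_pow, inv_pow, div_eq_mul_inv, mul_inv, mul_assoc]
    simp only [e, Finset.prod_div_distrib, Finset.prod_mul_distrib, Finset.prod_pow]
    rw [wt_eq h1, wt_eq h2, wt_eq h3, wt_eq h4, h, div_self']
  intro i α K hK hi K' hK' hi'
  have h6 := hg2 (fun K i α => 2 * (ex P1 a K i α + ex P2 b K i α - ex P3 c K i α - ex P4 d K i α))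
    (fun K i α => by
      have q1 := ex_bd P1 a K i α
      have q2 := ex_bd P2 b K i α
      have q3 := ex_bd P3 c K i α
      have q4 := ex_bd P4 d K i α
      rw [abs_le]
      constructor <;> omega) h5 i α K hK hi K' hK' hi'
  omega

theorem not_cut {U : Finset (Finset V)} (hU : U ⊆ H) {i : V}
    (h : ∀ K ∈ H, i ∈ K → ∀ K' ∈ H, i ∈ K' → (K ∈ U → K' ∈ U)) : i ∉ cut H U := by
  intro hi
  unfold cut at hi
  obtain ⟨_, ⟨K, hK, hiK⟩, K', hK', hiK'⟩ := mem_filter.1 hi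
  rw [mem_sdiff] at hK'
  exact hK'.2 (h K (hU hK) hiK K' hK'.1 hiK' hK)

theorem ex_ne {U : Finset (Finset V)} {a : V → A} {K : Finset V} {i : V} {α : A} (h : a i ≠ α) :
    ex U a K i α = 0 := by
  unfold ex
  rw [if_neg (fun h' => h h'.2)]

theorem ex_eq {U : Finset (Finset V)} {a : V → A} {K : Finset V} {i : V} {α : A} (h : a i = α) :
    ex U a K i α = if K ∈ U then 1 else 0 := by
  unfold ex
  simp [h]

theorem exc_ne {U : Finset (Finset V)} {x y : A} {K : Finset V} {i : V} (h : x ≠ y) :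
    ex U (fun _ => x) K i y = 0 := ex_ne (a := fun _ => x) h

theorem exc_eq {U : Finset (Finset V)} {x : A} {K : Finset V} {i : V} :
    ex U (fun _ => x) K i x = if K ∈ U then 1 else 0 := ex_eq (a := fun _ => x) rfl

variable {σ : Type} [Fintype σ] [DecidableEq σ]

/-- the data of one assignment -/
structure Dat (H : Finset (Finset V)) (t : Finset V → V → A → Fˣ) (ψ β : σ → Fˣ) (a : V → A)
    (π : Equiv.Perm σ) (U : σ → Finset (Finset V)) : Prop where
  sub : ∀ l, U l ⊆ H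
  ne : ∀ l, (U l).Nonempty
  dis : ∀ l l', l ≠ l' → Disjoint (U l) (U l')
  eq : ∀ l, β l = wt t (U l) a ^ 2 * ψ (π l)

variable {ψ β : σ → Fˣ}

section

variable {a : V → A} {π : Equiv.Perm σ} {U : σ → Finset (Finset V)}

theorem Dat.subB (D : Dat H t ψ β a π U) (L : Finset σ) : L.biUnion U ⊆ H :=
  biUnion_subset.2 fun l _ => D.sub l

theorem Dat.neB (D : Dat H t ψ β a π U) {L : Finset σ} (hL : L.Nonempty) :
    (L.biUnion U).Nonempty := by
  obtain ⟨l, hl⟩ := hL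
  obtain ⟨K, hK⟩ := D.ne l
  exact ⟨K, mem_biUnion.2 ⟨l, hl, hK⟩⟩

theorem Dat.uniq (D : Dat H t ψ β a π U) {l l' : σ} {K : Finset V} (h1 : K ∈ U l) (h2 : K ∈ U l') :
    l = l' := by
  by_contra h3
  exact disjoint_left.1 (D.dis l l' h3) h1 h2

theorem Dat.neH (D : Dat H t ψ β a π U) {L : Finset σ} {l : σ} (hl : l ∉ L) : L.biUnion U ≠ H := by
  intro h
  obtain ⟨K, hK⟩ := D.ne l
  have h1 : K ∈ L.biUnion U := by rw [h]; exact D.sub l hK
  obtain ⟨l', hl', hK'⟩ := mem_biUnion.1 h1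
  exact hl (D.uniq hK hK' ▸ hl')

theorem Dat.wtB (D : Dat H t ψ β a π U) (L : Finset σ) :
    wt t (L.biUnion U) a = ∏ l ∈ L, wt t (U l) a := by
  unfold wt
  rw [prod_biUnion]
  intro l _ l' _ hll
  exact D.dis l l' hll

end

section Two

variable {x y : A} {π₁ π₂ : Equiv.Perm σ} {U₁ U₂ : σ → Finset (Finset V)}

/-- the orbits of `π₂ * π₁⁻¹` are everything -/
theorem orbit (hg : Generic4 H t) (hcut : CutGe H 1) (hxy : x ≠ y)
    (D₁ : Dat H t ψ β (fun _ => x) π₁ U₁) (D₂ : Dat H t ψ β (fun _ => y) π₂ U₂) (b b' : σ) :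
    ∃ s : ℕ, ((π₂ * π₁⁻¹) ^ s) b = b' := by
  classical
  set τ : Equiv.Perm σ := π₂ * π₁⁻¹ with hτ
  set O : Finset σ := univ.filter fun b' => ∃ s : ℕ, (τ ^ s) b = b' with hO
  have hbO : b ∈ O := mem_filter.2 ⟨mem_univ _, 0, rfl⟩
  have hinv : ∀ c ∈ O, τ c ∈ O := by
    intro c hc
    obtain ⟨_, s, rfl⟩ := mem_filter.1 hc
    exact mem_filter.2 ⟨mem_univ _, s + 1, by rw [pow_succ', Equiv.Perm.mul_apply]⟩
  have hmap : O.map τ.toEmbedding = O := by
    refine eq_of_subset_of_card_le ?_ (by rw [card_map])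
    intro r hr
    obtain ⟨r', hr', rfl⟩ := mem_map.1 hr
    exact hinv r' hr'
  have hψ : ∏ c ∈ O, ψ (τ c) = ∏ c ∈ O, ψ c := by
    conv_rhs => rw [← hmap, prod_map]
    rfl
  set L : Finset σ := univ.filter fun l => π₁ l ∈ O with hL
  have hLO : L.map π₁.toEmbedding = O := by
    ext c
    rw [mem_map]
    constructor
    · rintro ⟨l, hl, rfl⟩
      exact (mem_filter.1 hl).2
    · intro hc
      refine ⟨π₁.symm c, mem_filter.2 ⟨mem_univ _, ?_⟩, ?_⟩
      · rw [Equiv.apply_symm_apply]; exact hc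
      · show π₁ (π₁.symm c) = c
        rw [Equiv.apply_symm_apply]
  have hτπ : ∀ l, τ (π₁ l) = π₂ l := by
    intro l
    show π₂ (π₁.symm (π₁ l)) = π₂ l
    rw [Equiv.symm_apply_apply]
  have h1 : ∏ l ∈ L, β l = (∏ l ∈ L, wt t (U₁ l) (fun _ => x)) ^ 2 * ∏ c ∈ O, ψ c := by
    rw [← hLO, prod_map, prod_congr rfl fun l _ => D₁.eq l, prod_mul_distrib, prod_pow]
    rfl
  have h2 : ∏ l ∈ L, β l = (∏ l ∈ L, wt t (U₂ l) (fun _ => y)) ^ 2 * ∏ c ∈ O, ψ c := by
    rw [← hψ, ← hLO, prod_map, prod_congr rfl fun l _ => D₂.eq l, prod_mul_distrib, prod_pow]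
    congr 1
    refine prod_congr rfl fun l _ => ?_
    show ψ (π₂ l) = ψ (τ (π₁ l))
    rw [hτπ]
  have h3 : wt t (L.biUnion U₁) (fun _ => x) ^ 2 * wt t (∅ : Finset (Finset V)) (fun _ => x) ^ 2 =
      wt t (L.biUnion U₂) (fun _ => y) ^ 2 * wt t (∅ : Finset (Finset V)) (fun _ => x) ^ 2 := by
    rw [D₁.wtB, D₂.wtB]
    congr 1
    rw [h1] at h2
    exact mul_right_cancel h2
  have h4 := gen4 hg (D₁.subB L) (empty_subset H) (D₂.subB L) (empty_subset H) _ _ _ _ h3
  have h5 : L.biUnion U₁ = H := by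
    by_contra hne
    have hLne : L.Nonempty := ⟨π₁.symm b, mem_filter.2 ⟨mem_univ _, by
      rw [Equiv.apply_symm_apply]; exact hbO⟩⟩
    have h6 := hcut _ (D₁.subB L) (D₁.neB hLne) hne
    have h7 : cut H (L.biUnion U₁) = ∅ := by
      rw [eq_empty_iff_forall_notMem]
      intro i
      refine not_cut (D₁.subB L) fun K hK hi K' hK' hi' hKU => ?_
      have h8 := h4 i x K hK hi K' hK' hi'
      simp only [exc_eq, exc_ne hxy.symm, if_pos hKU, if_neg (notMem_empty K),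
        if_neg (notMem_empty K')] at h8
      by_contra hno
      rw [if_neg hno] at h8
      omega
    rw [h7, card_empty] at h6
    omega
  by_contra hno
  have h6 : b' ∉ O := fun h => hno (mem_filter.1 h).2
  have h7 : π₁.symm b' ∉ L := by
    intro h
    have := (mem_filter.1 h).2
    rw [Equiv.apply_symm_apply] at this
    exact h6 this
  exact D₁.neH h7 h5

/-- paths -/
theorem path (hg : Generic4 H t) (hcut : CutGe H 1) (hxy : x ≠ y)
    (D₁ : Dat H t ψ β (fun _ => x) π₁ U₁) (D₂ : Dat H t ψ β (fun _ => y) π₂ U₂) {b b' : σ}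
    (hbb : b ≠ b') : ∃ L : Finset σ, L.Nonempty ∧ (∃ l, l ∉ L) ∧
      ψ b' * wt t (L.biUnion U₂) (fun _ => y) ^ 2 = ψ b * wt t (L.biUnion U₁) (fun _ => x) ^ 2 := by
  classical
  set τ : Equiv.Perm σ := π₂ * π₁⁻¹ with hτ
  have hex := orbit hg hcut hxy D₁ D₂ b b'
  rw [← hτ] at hex
  set s : ℕ := Nat.find hex with hs
  have hs1 : (τ ^ s) b = b' := Nat.find_spec hex
  have hs2 : ∀ r < s, (τ ^ r) b ≠ b' := fun r hr => Nat.find_min hex hr
  have hs0 : 1 ≤ s := by
    rcases Nat.eq_zero_or_pos s with h | h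
    · rw [h] at hs1
      exact absurd hs1 hbb
    · exact h
  have hinj : ∀ r < s, ∀ r' < s, (τ ^ r) b = (τ ^ r') b → r = r' := by
    have key : ∀ r r', r < r' → r' < s → (τ ^ r) b ≠ (τ ^ r') b := by
      intro r r' hrr hr' h
      refine hs2 (s - r' + r) (by omega) ?_
      have h1 : (τ ^ (s - r')) ((τ ^ r') b) = b' := by
        rw [← Equiv.Perm.mul_apply, ← pow_add, ← hs1]
        congr 2
        omega
      rw [pow_add, Equiv.Perm.mul_apply, h, h1]
    intro r hr r' hr' h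
    rcases lt_trichotomy r r' with h1 | h1 | h1
    · exact absurd h (key r r' h1 hr')
    · exact h1
    · exact absurd h.symm (key r' r h1 hr)
  set lr : ℕ → σ := fun r => π₁.symm ((τ ^ r) b) with hlr
  have hstep : ∀ r, wt t (U₂ (lr r)) (fun _ => y) ^ 2 * ψ ((τ ^ (r + 1)) b) =
      wt t (U₁ (lr r)) (fun _ => x) ^ 2 * ψ ((τ ^ r) b) := by
    intro r
    have h1 := D₁.eq (lr r)
    have h2 := D₂.eq (lr r)
    have h3 : π₁ (lr r) = (τ ^ r) b := by rw [hlr]; exact Equiv.apply_symm_apply _ _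
    have h4 : π₂ (lr r) = (τ ^ (r + 1)) b := by
      rw [pow_succ', Equiv.Perm.mul_apply, ← h3]
      show π₂ (lr r) = π₂ (π₁.symm (π₁ (lr r)))
      rw [Equiv.symm_apply_apply]
    rw [h3] at h1
    rw [h4] at h2
    rw [← h1, ← h2]
  have hprod : ∀ m, ψ ((τ ^ m) b) * (∏ r ∈ range m, wt t (U₂ (lr r)) (fun _ => y)) ^ 2 =
      ψ b * (∏ r ∈ range m, wt t (U₁ (lr r)) (fun _ => x)) ^ 2 := by
    intro m
    induction m with
    | zero => simp
    | succ m ih =>
      rw [prod_range_succ, prod_range_succ, mul_pow, mul_pow]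
      have h1 := hstep m
      calc ψ ((τ ^ (m + 1)) b) * ((∏ r ∈ range m, wt t (U₂ (lr r)) (fun _ => y)) ^ 2 *
            wt t (U₂ (lr m)) (fun _ => y) ^ 2) =
            (wt t (U₂ (lr m)) (fun _ => y) ^ 2 * ψ ((τ ^ (m + 1)) b)) *
              (∏ r ∈ range m, wt t (U₂ (lr r)) (fun _ => y)) ^ 2 := by
              rw [mul_comm (wt t (U₂ (lr m)) (fun _ => y) ^ 2), mul_assoc,
                mul_comm (wt t (U₂ (lr m)) (fun _ => y) ^ 2)]
        _ = (wt t (U₁ (lr m)) (fun _ => x) ^ 2 * ψ ((τ ^ m) b)) *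
              (∏ r ∈ range m, wt t (U₂ (lr r)) (fun _ => y)) ^ 2 := by rw [h1]
        _ = wt t (U₁ (lr m)) (fun _ => x) ^ 2 *
              (ψ ((τ ^ m) b) * (∏ r ∈ range m, wt t (U₂ (lr r)) (fun _ => y)) ^ 2) := by
              rw [mul_assoc]
        _ = wt t (U₁ (lr m)) (fun _ => x) ^ 2 *
              (ψ b * (∏ r ∈ range m, wt t (U₁ (lr r)) (fun _ => x)) ^ 2) := by rw [ih]
        _ = _ := by
              rw [mul_comm (wt t (U₁ (lr m)) (fun _ => x) ^ 2), mul_assoc]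
  have hlinj : ∀ r ∈ range s, ∀ r' ∈ range s, lr r = lr r' → r = r' := by
    intro r hr r' hr' h
    exact hinj r (mem_range.1 hr) r' (mem_range.1 hr') (π₁.symm.injective h)
  refine ⟨(range s).image lr, ⟨lr 0, mem_image.2 ⟨0, mem_range.2 hs0, rfl⟩⟩,
    ⟨π₁.symm b', ?_⟩, ?_⟩
  · intro h
    obtain ⟨r, hr, h1⟩ := mem_image.1 h
    exact hs2 r (mem_range.1 hr) (π₁.symm.injective h1)
  · rw [D₂.wtB, D₁.wtB, prod_image (fun r hr r' hr' h => hlinj r hr r' hr' h),
      prod_image (fun r hr r' hr' h => hlinj r hr r' hr' h)]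
    have h1 := hprod s
    rw [hs1] at h1
    exact h1

/-- one more assignment -/
theorem third (hg : Generic4 H t) (hcut : CutGe H 1) (hxy : x ≠ y)
    (D₁ : Dat H t ψ β (fun _ => x) π₁ U₁) (D₂ : Dat H t ψ β (fun _ => y) π₂ U₂)
    {a : V → A} {π : Equiv.Perm σ} {U : σ → Finset (Finset V)} (D : Dat H t ψ β a π U)
    (hW : CutGe H ((univ.filter fun i => a i = y).card + 1)) (l : σ) {i : V} (hi : a i ≠ x) :
    ∀ K ∈ H, i ∈ K → ∀ K' ∈ H, i ∈ K' → (K ∈ U₁ l → K' ∈ U₁ l) := by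
  classical
  have h0 : wt t (U l) a ^ 2 * ψ (π l) = wt t (U₁ l) (fun _ => x) ^ 2 * ψ (π₁ l) := by
    rw [← D.eq, ← D₁.eq]
  have hbb : π₁ l = π l := by
    by_contra hne
    obtain ⟨L, hL1, ⟨l', hl'⟩, hL2⟩ := path hg hcut hxy D₁ D₂ hne
    have h1 : wt t (U l) a ^ 2 * wt t (L.biUnion U₁) (fun _ => x) ^ 2 =
        wt t (U₁ l) (fun _ => x) ^ 2 * wt t (L.biUnion U₂) (fun _ => y) ^ 2 := by
      have h2 : (wt t (U l) a ^ 2 * wt t (L.biUnion U₁) (fun _ => x) ^ 2) * ψ (π₁ l) =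
          (wt t (U₁ l) (fun _ => x) ^ 2 * wt t (L.biUnion U₂) (fun _ => y) ^ 2) * ψ (π₁ l) := by
        calc (wt t (U l) a ^ 2 * wt t (L.biUnion U₁) (fun _ => x) ^ 2) * ψ (π₁ l) =
            wt t (U l) a ^ 2 * (ψ (π₁ l) * wt t (L.biUnion U₁) (fun _ => x) ^ 2) := by
              rw [mul_assoc, mul_comm (wt t (L.biUnion U₁) (fun _ => x) ^ 2)]
          _ = wt t (U l) a ^ 2 * (ψ (π l) * wt t (L.biUnion U₂) (fun _ => y) ^ 2) := by rw [hL2]
          _ = (wt t (U l) a ^ 2 * ψ (π l)) * wt t (L.biUnion U₂) (fun _ => y) ^ 2 := by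
              rw [mul_assoc]
          _ = (wt t (U₁ l) (fun _ => x) ^ 2 * ψ (π₁ l)) *
              wt t (L.biUnion U₂) (fun _ => y) ^ 2 := by rw [h0]
          _ = _ := by
              rw [mul_assoc, mul_assoc, mul_comm (ψ (π₁ l))]
      exact mul_right_cancel h2
    have h3 := gen4 hg (D.sub l) (D₁.subB L) (D₁.sub l) (D₂.subB L) _ _ _ _ h1
    have h4 := hW _ (D₂.subB L) (D₂.neB hL1) (D₂.neH hl')
    have h5 : cut H (L.biUnion U₂) ⊆ univ.filter fun i => a i = y := by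
      intro j hj
      by_contra hno
      have haj : a j ≠ y := fun h => hno (mem_filter.2 ⟨mem_univ _, h⟩)
      refine not_cut (D₂.subB L) (fun K hK hi K' hK' hi' hKU => ?_) hj
      have h8 := h3 j y K hK hi K' hK' hi'
      simp only [ex_ne haj, exc_ne hxy, exc_eq, if_pos hKU] at h8
      by_contra hno
      rw [if_neg hno] at h8
      omega
    have h6 := card_le_card h5
    omega
  rw [← hbb] at h0
  have h1 : wt t (U l) a ^ 2 * wt t (∅ : Finset (Finset V)) a ^ 2 =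
      wt t (U₁ l) (fun _ => x) ^ 2 * wt t (∅ : Finset (Finset V)) a ^ 2 := by
    rw [mul_right_cancel h0]
  have h3 := gen4 hg (D.sub l) (empty_subset H) (D₁.sub l) (empty_subset H) _ _ _ _ h1
  intro K hK hiK K' hK' hiK' hKU
  have h8 := h3 i x K hK hiK K' hK' hiK'
  simp only [ex_ne hi, exc_eq, if_pos hKU] at h8
  by_contra hno
  rw [if_neg hno] at h8
  omega

end Two

end

end CON

open CON in
theorem t_CON : S_CON := by
  classical
  intro F _ V A _ _ _ _ H t hg hcov hcut hcase σ _ _ ψ β hall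
  by_contra hc
  have hc2 : 1 < Fintype.card σ := by omega
  have hD : ∀ a : V → A, ∃ (π : Equiv.Perm σ) (U : σ → Finset (Finset V)), Dat H t ψ β a π U := by
    intro a
    obtain ⟨π, U, h1, h2, _, h4⟩ := hall a
    exact ⟨π, U, fun l => (h1 l).1, fun l => (h1 l).2, h2, h4⟩
  obtain ⟨l, l', hll⟩ := Fintype.exists_pair_of_one_lt_card hc2
  have fin : ∀ (x y : A), x ≠ y → ∀ (π₁ : Equiv.Perm σ) (U₁ : σ → Finset (Finset V)),
      Dat H t ψ β (fun _ => x) π₁ U₁ →
      (∀ i, ∀ K ∈ H, i ∈ K → ∀ K' ∈ H, i ∈ K' → (K ∈ U₁ l → K' ∈ U₁ l)) → False := by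
    intro x y _ π₁ U₁ D₁ h
    have h1 : U₁ l ≠ H := by
      have h2 := D₁.neH (L := {l}) (l := l') (by simpa using hll.symm)
      rwa [singleton_biUnion] at h2
    have h2 := hcut _ (D₁.sub l) (D₁.ne l) h1
    have h3 : cut H (U₁ l) = ∅ := by
      rw [eq_empty_iff_forall_notMem]
      intro i
      exact not_cut (D₁.sub l) (h i)
    rw [h3, card_empty] at h2
    omega
  rcases hcase with h3 | ⟨h2, hcut2⟩
  · obtain ⟨x, y, z, hxy, hxz, hyz⟩ := Fintype.two_lt_card_iff.1 (by omega : 2 < Fintype.card A)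
    obtain ⟨π₁, U₁, D₁⟩ := hD fun _ => x
    obtain ⟨π₂, U₂, D₂⟩ := hD fun _ => y
    obtain ⟨π, U, D⟩ := hD fun _ => z
    refine fin x y hxy π₁ U₁ D₁ fun i => ?_
    refine third hg hcut hxy D₁ D₂ D ?_ l hxz.symm
    have h4 : (univ.filter fun _ : V => z = y) = ∅ := by
      rw [filter_eq_empty_iff]
      intro i _ h
      exact hyz h.symm
    rw [h4, card_empty]
    exact hcut
  · obtain ⟨x, y, hxy⟩ := Fintype.exists_pair_of_one_lt_card (by omega : 1 < Fintype.card A)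
    obtain ⟨π₁, U₁, D₁⟩ := hD fun _ => x
    obtain ⟨π₂, U₂, D₂⟩ := hD fun _ => y
    refine fin x y hxy π₁ U₁ D₁ fun i => ?_
    obtain ⟨π, U, D⟩ := hD (Function.update (fun _ => x) i y)
    refine third hg hcut hxy D₁ D₂ D ?_ l (by rw [Function.update_self]; exact hxy.symm)
    have h4 : (univ.filter fun j : V => Function.update (fun _ => x) i y j = y) = {i} := by
      ext j
      rw [mem_filter, mem_singleton]
      constructor
      · rintro ⟨_, h⟩
        by_contra hne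
        rw [Function.update_of_ne hne] at h
        exact hxy h
      · rintro rfl
        exact ⟨mem_univ _, Function.update_self _ _ _⟩
    rw [h4, card_singleton]
    exact hcut2

end Pool.Agent.HS38.GT
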