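import Pool.Agent.HS38.GT.DLow

/-!
# Counting eigenvalues for the scopes with `k` elements
-/

set_option autoImplicit false

namespace Pool.Agent.HS38.GT

open MvPolynomial Finset Pool.Agent.Helper1x.EQ

variable {V A : Type} [Fintype V] [DecidableEq V] [Fintype A] [DecidableEq A]

theorem mem_scopes {k : ℕ} {K : Finset V} : K ∈ scopes V k ↔ K.card = k := by
  simp [scopes, Finset.mem_powersetCard]

theorem scopes_pair {k : ℕ} (hk : 2 ≤ k) (hkn : k ≤ Fintype.card V) (i j : V) : ∃ K ∈ scopes V k, i ∈ K ∧ j ∈ K := by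
  have h1 : ({i, j} : Finset V).card ≤ k := (Finset.card_le_two).trans hk
  obtain ⟨K, h2, _, h3⟩ := Finset.exists_subsuperset_card_eq (Finset.subset_univ ({i, j} : Finset V)) h1
    (by rw [Finset.card_univ]; exact hkn)
  exact ⟨K, mem_scopes.2 h3, h2 (by simp), h2 (by simp)⟩

theorem card_one {k : ℕ} (hk : 1 ≤ k) (i : V) :
    (Fintype.card V - 1).choose (k - 1) ≤ ((scopes V k).filter fun K => i ∈ K).card := by
  have h1 : (((univ : Finset V).erase i).powersetCard (k - 1)).card = (Fintype.card V - 1).choose (k - 1) := by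
    rw [Finset.card_powersetCard, Finset.card_erase_of_mem (Finset.mem_univ i), Finset.card_univ]
  rw [← h1]
  apply Finset.card_le_card_of_injOn (fun K => insert i K)
  · intro K hK
    rw [Finset.mem_coe, Finset.mem_powersetCard] at hK
    rw [Finset.mem_coe, Finset.mem_filter, mem_scopes]
    have hi : i ∉ K := fun h => Finset.notMem_erase i _ (hK.1 h)
    refine ⟨?_, Finset.mem_insert_self _ _⟩
    rw [Finset.card_insert_of_notMem hi, hK.2]
    omega
  · intro K hK K' hK' h
    rw [Finset.mem_coe, Finset.mem_powersetCard] at hK hK'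
    have hi : i ∉ K := fun h => Finset.notMem_erase i _ (hK.1 h)
    have hi' : i ∉ K' := fun h => Finset.notMem_erase i _ (hK'.1 h)
    have h2 := congrArg (fun S : Finset V => S.erase i) h
    simpa [hi, hi'] using h2

theorem card_two {k : ℕ} (hk : 2 ≤ k) {i j : V} (hij : i ≠ j) :
    (Fintype.card V - 2).choose (k - 2) ≤ ((scopes V k).filter fun K => i ∈ K ∧ j ∈ K).card := by
  have h1 : ((((univ : Finset V).erase i).erase j).powersetCard (k - 2)).card =
      (Fintype.card V - 2).choose (k - 2) := by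
    rw [Finset.card_powersetCard, Finset.card_erase_of_mem (Finset.mem_erase.2 ⟨Ne.symm hij, Finset.mem_univ j⟩),
      Finset.card_erase_of_mem (Finset.mem_univ i), Finset.card_univ]
    rfl
  rw [← h1]
  have key : ∀ K, K ∈ (((univ : Finset V).erase i).erase j).powersetCard (k - 2) → i ∉ K ∧ j ∉ K ∧ K.card = k - 2 := by
    intro K hK
    rw [Finset.mem_powersetCard] at hK
    refine ⟨fun h => ?_, fun h => Finset.notMem_erase j _ (hK.1 h), hK.2⟩
    have := hK.1 h
    simp at this
  apply Finset.card_le_card_of_injOn (fun K => insert i (insert j K))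
  · intro K hK
    obtain ⟨h2, h3, h4⟩ := key K hK
    rw [Finset.mem_coe, Finset.mem_filter, mem_scopes]
    refine ⟨?_, Finset.mem_insert_self _ _, Finset.mem_insert_of_mem (Finset.mem_insert_self _ _)⟩
    rw [Finset.card_insert_of_notMem, Finset.card_insert_of_notMem h3, h4]
    · omega
    · simp [hij, h2]
  · intro K hK K' hK' h
    obtain ⟨h2, h3, -⟩ := key K hK
    obtain ⟨h2', h3', -⟩ := key K' hK'
    ext x
    have h5 := Finset.ext_iff.1 h x
    simp only [Finset.mem_insert] at h5
    constructor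
    · intro hx
      have := h5.1 (Or.inr (Or.inr hx))
      rcases this with rfl | rfl | h6
      · exact absurd hx h2
      · exact absurd hx h3
      · exact h6
    · intro hx
      have := h5.2 (Or.inr (Or.inr hx))
      rcases this with rfl | rfl | h6
      · exact absurd hx h2'
      · exact absurd hx h3'
      · exact h6

/-- the variables with a value different from `o` which are in no scope of `U` -/
def unt (o : A) (a : V → A) (U : Finset (Finset V)) : Finset V := univ.filter fun i => a i ≠ o ∧ ∀ K ∈ U, i ∉ K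

theorem unt_card {k d r : ℕ} (hk : 2 ≤ k) (hkn : k < Fintype.card V) (hr : r + 2 ≤ Fintype.card V)
    (hd : (k - 1) * d < (r + 1) * (Fintype.card V - 2).choose (k - 2)) (o : A) (a : V → A)
    {U U₂ : Finset (Finset V)} {i₀ : V} (h2 : U₂ ⊆ scopes V k) (hcard : (U₂ \ U).card ≤ d)
    (hfull : ∀ K ∈ scopes V k, i₀ ∈ K → K ∈ U₂) : i₀ ∉ unt o a U ∧ (unt o a U).card ≤ r := by
  obtain ⟨n, hn⟩ : ∃ n, Fintype.card V = n + 2 := ⟨Fintype.card V - 2, by omega⟩
  obtain ⟨l, hl⟩ : ∃ l, k = l + 2 := ⟨k - 2, by omega⟩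
  have hi₀ : i₀ ∉ unt o a U := by
    intro hi
    rw [unt, Finset.mem_filter] at hi
    have h3 : ((scopes V k).filter fun K => i₀ ∈ K) ⊆ U₂ \ U := by
      intro K hK
      rw [Finset.mem_filter] at hK
      rw [Finset.mem_sdiff]
      exact ⟨hfull K hK.1 hK.2, fun h => hi.2.2 K h hK.2⟩
    have h4 := (card_one (by omega : 1 ≤ k) i₀).trans ((Finset.card_le_card h3).trans hcard)
    have h5 : (n + 1) * n.choose l = (n + 1).choose (l + 1) * (l + 1) := Nat.add_one_mul_choose_eq n l
    have e1 : Fintype.card V - 1 = n + 1 := by omega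
    have e2 : Fintype.card V - 2 = n := by omega
    have e3 : k - 1 = l + 1 := by omega
    have e4 : k - 2 = l := by omega
    rw [e1, e3] at h4
    rw [e2, e3, e4] at hd
    have h6 : (r + 1) * n.choose l ≤ (n + 1) * n.choose l := Nat.mul_le_mul_right _ (by omega)
    have h7 : (l + 1) * (n + 1).choose (l + 1) ≤ (l + 1) * d := Nat.mul_le_mul_left _ h4
    rw [h5] at h6
    rw [mul_comm] at h7
    omega
  refine ⟨hi₀, ?_⟩
  have h3 : ∑ i ∈ unt o a U, ((U₂ \ U).filter fun K => i ∈ K ∧ i₀ ∈ K).card ≤ (k - 1) * d := by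
    have h4 : ∀ i ∈ unt o a U, ((U₂ \ U).filter fun K => i ∈ K ∧ i₀ ∈ K).card =
        ∑ K ∈ U₂ \ U, if i ∈ K ∧ i₀ ∈ K then 1 else 0 := by
      intro i _
      rw [Finset.card_filter]
    rw [Finset.sum_congr rfl h4, Finset.sum_comm]
    have h5 : ∀ K ∈ U₂ \ U, (∑ i ∈ unt o a U, if i ∈ K ∧ i₀ ∈ K then 1 else 0) ≤ k - 1 := by
      intro K hK
      rw [← Finset.card_filter]
      by_cases hiK : i₀ ∈ K
      · have h6 : ((unt o a U).filter fun i => i ∈ K ∧ i₀ ∈ K) ⊆ K.erase i₀ := by
          intro i hi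
          rw [Finset.mem_filter] at hi
          rw [Finset.mem_erase]
          refine ⟨?_, hi.2.1⟩
          rintro rfl
          exact hi₀ hi.1
        refine (Finset.card_le_card h6).trans ?_
        rw [Finset.card_erase_of_mem hiK, mem_scopes.1 (h2 (Finset.mem_sdiff.1 hK).1)]
      · have h6 : ((unt o a U).filter fun i => i ∈ K ∧ i₀ ∈ K) = ∅ := by
          apply Finset.filter_false_of_mem
          intro i _ h
          exact hiK h.2
        rw [h6, Finset.card_empty]
        exact Nat.zero_le _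
    refine (Finset.sum_le_sum h5).trans ?_
    rw [Finset.sum_const, smul_eq_mul, mul_comm]
    exact Nat.mul_le_mul_left _ hcard
  have h4 : (unt o a U).card * (Fintype.card V - 2).choose (k - 2) ≤
      ∑ i ∈ unt o a U, ((U₂ \ U).filter fun K => i ∈ K ∧ i₀ ∈ K).card := by
    rw [← smul_eq_mul, ← Finset.sum_const]
    apply Finset.sum_le_sum
    intro i hi
    have hne : i ≠ i₀ := by
      rintro rfl
      exact hi₀ hi
    refine (card_two hk hne).trans ?_
    apply Finset.card_le_card
    intro K hK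
    rw [Finset.mem_filter] at hK ⊢
    rw [unt, Finset.mem_filter] at hi
    exact ⟨Finset.mem_sdiff.2 ⟨hfull K hK.1 hK.2.2, fun h => hi.2.2 K h hK.2.1⟩, hK.2⟩
  have h5 := lt_of_le_of_lt (h4.trans h3) hd
  have h6 := Nat.lt_of_mul_lt_mul_right h5
  omega

theorem agree {F : Type} [Field F] {H : Finset (Finset V)} {o : A} {t : Finset V → V → A → Fˣ}
    (hg : Generic H o t) {U U' : Finset (Finset V)} (hU : U ⊆ H) (hU' : U' ⊆ H) (a a' : V → A)
    (h : wt t U a ^ 2 = wt t U' a' ^ 2) (hnf : ∀ i, a i ≠ o → ∃ K ∈ H, i ∈ K ∧ K ∉ U) (i : V) (hi : a i ≠ o)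
    (hi' : i ∉ unt o a U) : a' i = a i ∧ ∀ K ∈ H, i ∈ K → (K ∈ U ↔ K ∈ U') := by
  have h1 := gen_pow hg hU hU' a a' h i (a i) hi
  obtain ⟨K', hK'H, hiK', hK'⟩ := hnf i hi
  obtain ⟨K, hK, hiK⟩ : ∃ K ∈ U, i ∈ K := by
    by_contra hcon
    push Not at hcon
    exact hi' (Finset.mem_filter.2 ⟨Finset.mem_univ _, hi, hcon⟩)
  have h2 := h1 K (hU hK) hiK K' hK'H hiK'
  have h3 : K ∈ U' ∧ a' i = a i := by
    by_contra hcon
    have h4 : ex U' a' K i (a i) = 0 := by
      unfold ex
      rw [if_neg hcon]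
    have h5 : ex U a K i (a i) = 1 := by simp [ex, hK]
    have h6 : ex U a K' i (a i) = 0 := by simp [ex, hK']
    have h7 : 0 ≤ ex U' a' K' i (a i) := by
      unfold ex
      split_ifs <;> norm_num
    rw [h4, h5, h6] at h2
    omega
  refine ⟨h3.2, fun K₁ hK₁ hiK₁ => ?_⟩
  have h4 := h1 K₁ hK₁ hiK₁ K (hU hK) hiK
  have h5 : ex U a K i (a i) = 1 := by simp [ex, hK]
  have h6 : ex U' a' K i (a i) = 1 := by simp [ex, h3]
  rw [h5, h6] at h4
  by_cases h7 : K₁ ∈ U <;> by_cases h8 : K₁ ∈ U' <;> simp_all [ex]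

theorem card_const (o : A) (K₀ : Finset V) :
    (univ.filter fun a : V → A => ∀ i ∈ K₀, a i = o).card = Fintype.card A ^ (Fintype.card V - K₀.card) := by
  have h1 : (univ.filter fun a : V → A => ∀ i ∈ K₀, a i = o) =
      Fintype.piFinset fun i => if i ∈ K₀ then {o} else univ := by
    ext a
    rw [Finset.mem_filter, Fintype.mem_piFinset]
    constructor
    · rintro ⟨-, h⟩ i
      split_ifs with hi
      · exact Finset.mem_singleton.2 (h i hi)
      · exact Finset.mem_univ _
    · intro h
      refine ⟨Finset.mem_univ _, fun i hi => ?_⟩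
      have := h i
      rw [if_pos hi, Finset.mem_singleton] at this
      exact this
  rw [h1, Fintype.card_piFinset]
  have h2 : ∀ i, (if i ∈ K₀ then ({o} : Finset A) else univ).card = if i ∈ K₀ then 1 else Fintype.card A := by
    intro i
    split_ifs
    · exact Finset.card_singleton _
    · exact Finset.card_univ
  rw [Finset.prod_congr rfl fun i _ => h2 i, Finset.prod_ite, Finset.prod_const_one, one_mul, Finset.prod_const]
  congr 1
  have h3 := Finset.card_filter_add_card_filter_not (s := (univ : Finset V)) (fun i => i ∈ K₀)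
  have h4 : (univ.filter fun i => i ∈ K₀) = K₀ := by ext; simp
  rw [h4, Finset.card_univ] at h3
  omega

/-- the number of functions which differ from `o` at at most `r` places -/
def ball (V : Type) [Fintype V] [DecidableEq V] (A : Type) [Fintype A] [DecidableEq A] (o : A) (r : ℕ) :
    Finset (V → A) := univ.filter fun p => (univ.filter fun i => p i ≠ o).card ≤ r

theorem count_of_inj {F : Type} {k m : ℕ} {K₀ : Finset V} (hK₀ : K₀.card = k)
    (o : A) {R : Finset F} (hR : R.card ≤ m) {Y : Type} [DecidableEq Y] [DecidableEq F] (Q : Finset Y) (f : (V → A) → F)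
    (g : (V → A) → Y)
    (hf : ∀ a : V → A, (∃ i ∈ K₀, a i ≠ o) → f a ∈ R ∧ g a ∈ Q)
    (hinj : ∀ a a' : V → A, (∃ i ∈ K₀, a i ≠ o) → (∃ i ∈ K₀, a' i ≠ o) → f a = f a' → g a = g a' → a = a') :
    Fintype.card A ^ Fintype.card V ≤ m * Q.card + Fintype.card A ^ (Fintype.card V - k) := by
  classical
  have h1 : (univ.filter fun a : V → A => ∃ i ∈ K₀, a i ≠ o).card ≤ (R ×ˢ Q).card := by
    apply Finset.card_le_card_of_injOn (fun a => (f a, g a))
    · intro a ha
      rw [Finset.mem_coe, Finset.mem_filter] at ha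
      rw [Finset.mem_coe, Finset.mem_product]
      exact hf a ha.2
    · intro a ha a' ha' h
      rw [Finset.mem_coe, Finset.mem_filter] at ha ha'
      exact hinj a a' ha.2 ha'.2 (congrArg Prod.fst h) (congrArg Prod.snd h)
  rw [Finset.card_product] at h1
  have h2 := Finset.card_filter_add_card_filter_not (s := (univ : Finset (V → A))) (fun a => ∃ i ∈ K₀, a i ≠ o)
  have h3 : (univ.filter fun a : V → A => ¬ ∃ i ∈ K₀, a i ≠ o) = univ.filter fun a : V → A => ∀ i ∈ K₀, a i = o := by
    ext a
    simp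
  rw [h3, card_const, hK₀, Finset.card_univ, Fintype.card_fun] at h2
  have h4 : R.card * Q.card ≤ m * Q.card := Nat.mul_le_mul_right _ hR
  omega

/-- entries of degree at most `d` -/
theorem det_lower {F : Type} [Field F] {ι : Type*} [Fintype ι] [DecidableEq ι] {k d r : ℕ} (hk : 2 ≤ k)
    (hkn : k < Fintype.card V) (hr : r + 2 ≤ Fintype.card V)
    (hd : (k - 1) * d < (r + 1) * (Fintype.card V - 2).choose (k - 2)) (o : A)
    {t : Finset V → V → A → Fˣ} (hg : Generic (scopes V k) o t)
    {M : Matrix ι ι (MvPolynomial (V → Option A) F)} (hdeg : ∀ i j, (M i j).totalDegree ≤ d)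
    (hdet : M.det = Z F A (scopes V k)) (hEq : Equivariant (gauge t) M) :
    Fintype.card A ^ Fintype.card V ≤ Fintype.card ι * (ball V A o r).card +
      Fintype.card A ^ (Fintype.card V - k) := by
  classical
  obtain ⟨K₀, hK₀⟩ : (scopes V k).Nonempty := by
    rw [scopes, Finset.powersetCard_nonempty, Finset.card_univ]
    omega
  obtain ⟨R, μ, hμ0, hR, hstep⟩ := exists_step (scopes_pair hk hkn.le) o hK₀ hg hdeg hdet hEq
  have : Nonempty V := Fintype.card_pos_iff.1 (by omega)
  choose! U U₂ i₀ h1 h2 h3 h4 h5 h6 h7 using hstep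
  have hun : ∀ a : V → A, (∃ i ∈ K₀, a i ≠ o) → (unt o a (U a)).card ≤ r := fun a ha =>
    (unt_card hk hkn hr hd o a (h2 a ha) (h3 a ha) (h5 a ha)).2
  refine count_of_inj (mem_scopes.1 hK₀) o hR (ball V A o r) (fun a => μ * ((wt t (U a) a ^ 2 : Fˣ) : F))
    (fun a i => if i ∈ unt o a (U a) then a i else o) ?_ ?_
  · intro a ha
    refine ⟨h7 a ha, ?_⟩
    rw [ball, Finset.mem_filter]
    refine ⟨Finset.mem_univ _, le_trans (Finset.card_le_card ?_) (hun a ha)⟩
    intro i hi
    rw [Finset.mem_filter] at hi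
    by_contra hcon
    exact hi.2 (if_neg hcon)
  · intro a a' ha ha' hf hgg
    have hw : wt t (U a) a ^ 2 = wt t (U a') a' ^ 2 := Units.ext (mul_left_cancel₀ hμ0 hf)
    have hA := agree hg ((h1 a ha).trans (h2 a ha)) ((h1 a' ha').trans (h2 a' ha')) a a' hw (h6 a ha)
    have hA' := agree hg ((h1 a' ha').trans (h2 a' ha')) ((h1 a ha).trans (h2 a ha)) a' a hw.symm (h6 a' ha')
    have key : ∀ i, a i ≠ o → a' i = a i := by
      intro i hi
      by_cases hu : i ∈ unt o a (U a)
      · have h8 := congrFun hgg i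
        simp only [if_pos hu] at h8
        by_cases hu' : i ∈ unt o a' (U a')
        · rw [if_pos hu'] at h8
          exact h8.symm
        · rw [if_neg hu'] at h8
          exact absurd h8 hi
      · exact (hA i hi hu).1
    have key' : ∀ i, a' i ≠ o → a i = a' i := by
      intro i hi
      by_cases hu : i ∈ unt o a' (U a')
      · have h8 := congrFun hgg i
        simp only [if_pos hu] at h8
        by_cases hu' : i ∈ unt o a (U a)
        · rw [if_pos hu'] at h8
          exact h8
        · rw [if_neg hu'] at h8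
          exact absurd h8.symm hi
      · exact (hA' i hi hu).1
    funext i
    by_cases hi : a i = o
    · by_cases hi' : a' i = o
      · rw [hi, hi']
      · exact key' i hi'
    · exact (key i hi).symm

/-- entries of degree at most one, scopes with two elements -/
theorem det_lower_two {F : Type} [Field F] {ι : Type*} [Fintype ι] [DecidableEq ι]
    (hn : 3 ≤ Fintype.card V) (o : A)
    {t : Finset V → V → A → Fˣ} (hg : Generic (scopes V 2) o t)
    {M : Matrix ι ι (MvPolynomial (V → Option A) F)} (hdeg : ∀ i j, (M i j).totalDegree ≤ 1)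
    (hdet : M.det = Z F A (scopes V 2)) (hEq : Equivariant (gauge t) M) :
    Fintype.card A ^ Fintype.card V ≤ Fintype.card ι * Fintype.card A + Fintype.card A ^ (Fintype.card V - 2) := by
  classical
  obtain ⟨K₀, hK₀⟩ : (scopes V 2).Nonempty := by
    rw [scopes, Finset.powersetCard_nonempty, Finset.card_univ]
    omega
  obtain ⟨R, μ, hμ0, hR, hstep⟩ := exists_step (scopes_pair le_rfl (by omega)) o hK₀ hg hdeg hdet hEq
  have : Nonempty V := Fintype.card_pos_iff.1 (by omega)
  choose! U U₂ i₀ h1 h2 h3 h4 h5 h6 h7 using hstep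
  have hun : ∀ a : V → A, (∃ i ∈ K₀, a i ≠ o) → i₀ a ∉ unt o a (U a) ∧ (unt o a (U a)).card ≤ 1 := fun a ha =>
    unt_card (r := 1) (d := 1) le_rfl (by omega) (by omega) (by simp) o a (h2 a ha) (h3 a ha) (h5 a ha)
  have h8 := count_of_inj (mem_scopes.1 hK₀) o hR (univ : Finset A) (fun a => μ * ((wt t (U a) a ^ 2 : Fˣ) : F))
    (fun a => if h : (unt o a (U a)).Nonempty then a h.choose else o) (fun a ha => ⟨h7 a ha, Finset.mem_univ _⟩) ?_
  · rwa [Finset.card_univ] at h8
  intro a a' ha ha' hf hgg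
  have hw : wt t (U a) a ^ 2 = wt t (U a') a' ^ 2 := Units.ext (mul_left_cancel₀ hμ0 hf)
  have hA := agree hg ((h1 a ha).trans (h2 a ha)) ((h1 a' ha').trans (h2 a' ha')) a a' hw (h6 a ha)
  have hA' := agree hg ((h1 a' ha').trans (h2 a' ha')) ((h1 a ha).trans (h2 a ha)) a' a hw.symm (h6 a' ha')
  -- the untouched variable, if there is one, is the same
  have hval : ∀ b : V → A, (h : (unt o b (U b)).Nonempty) → ∀ j ∈ unt o b (U b),
      (∃ i ∈ K₀, b i ≠ o) → (if h : (unt o b (U b)).Nonempty then b h.choose else o) = b j := by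
    intro b h j hj hb
    rw [dif_pos h]
    congr 1
    exact Finset.card_le_one.1 (hun b hb).2 _ h.choose_spec _ hj
  have hsame : ∀ j ∈ unt o a (U a), ∀ j' ∈ unt o a' (U a'), j = j' := by
    intro j hj j' hj'
    have hj1 := Finset.mem_filter.1 hj
    have hj1' := Finset.mem_filter.1 hj'
    -- `i₀ a` is touched
    have hi₀ := (hun a ha).1
    have hne : j ≠ i₀ a := by
      rintro rfl
      exact hi₀ hj
    have hag := hA (i₀ a) (h4 a ha) hi₀
    have hne' : j' ≠ i₀ a := by
      intro h
      obtain ⟨K, hK, hiK⟩ : ∃ K ∈ U a, i₀ a ∈ K := by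
        by_contra hcon
        push Not at hcon
        exact hi₀ (Finset.mem_filter.2 ⟨Finset.mem_univ _, h4 a ha, hcon⟩)
      have h9 := (hag.2 K (h2 a ha (h1 a ha hK)) hiK).1 hK
      exact hj1'.2.2 K h9 (by rw [h]; exact hiK)
    have hpair : ∀ x : V, x ≠ i₀ a → ({i₀ a, x} : Finset V) ∈ scopes V 2 := by
      intro x hx
      rw [mem_scopes, Finset.card_pair (Ne.symm hx)]
    have e1 : ({i₀ a, j} : Finset V) ∈ U₂ a \ U a := by
      rw [Finset.mem_sdiff]
      exact ⟨h5 a ha _ (hpair j hne) (by simp), fun h => hj1.2.2 _ h (by simp)⟩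
    have e2 : ({i₀ a, j'} : Finset V) ∈ U₂ a \ U a := by
      rw [Finset.mem_sdiff]
      refine ⟨h5 a ha _ (hpair j' hne') (by simp), fun h => ?_⟩
      have h9 := (hag.2 _ (hpair j' hne') (by simp)).1 h
      exact hj1'.2.2 _ h9 (by simp)
    have h9 := Finset.card_le_one.1 (h3 a ha) _ e1 _ e2
    have h10 : j ∈ ({i₀ a, j'} : Finset V) := by
      rw [← h9]
      simp
    rw [Finset.mem_insert, Finset.mem_singleton] at h10
    exact h10.resolve_left hne
  have key : ∀ i, a i ≠ o → a' i = a i := by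
    intro i hi
    by_cases hu : i ∈ unt o a (U a)
    · have h9 := hval a ⟨i, hu⟩ i hu ha
      have h10 := hgg
      rw [h9] at h10
      by_cases hne : (unt o a' (U a')).Nonempty
      · obtain ⟨j', hj'⟩ := hne
        rw [hval a' ⟨j', hj'⟩ j' hj' ha', ← hsame i hu j' hj'] at h10
        exact h10.symm
      · rw [dif_neg hne] at h10
        exact absurd h10 hi
    · exact (hA i hi hu).1
  have key' : ∀ i, a' i ≠ o → a i = a' i := by
    intro i hi
    by_cases hu : i ∈ unt o a' (U a')
    · have h9 := hval a' ⟨i, hu⟩ i hu ha'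
      have h10 := hgg
      rw [h9] at h10
      by_cases hne : (unt o a (U a)).Nonempty
      · obtain ⟨j, hj⟩ := hne
        rw [hval a ⟨j, hj⟩ j hj ha, hsame j hj i hu] at h10
        exact h10
      · rw [dif_neg hne] at h10
        exact absurd h10.symm hi
    · exact (hA' i hi hu).1
  funext i
  by_cases hi : a i = o
  · by_cases hi' : a' i = o
    · rw [hi, hi']
    · exact key' i hi'
  · exact (key i hi).symm

end Pool.Agent.HS38.GT
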