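import Pool.Agent.Helper1x.EQ.Sym

/-!
# Counting polynomials of constraint hypergraphs, gauge symmetries, programs, contraction trees

`V` is the set of variables, `A` the domain, a scope is a finite set of variables. A partial assignment is a
function `V → Option A`. The polynomial ring has one variable for every partial assignment.
-/

set_option autoImplicit false

namespace Pool.Agent.HS38.GT

open MvPolynomial Finset

variable {V A : Type} [Fintype V] [DecidableEq V] [Fintype A] [DecidableEq A]

/-- the restriction of the assignment `a` to the scope `K` -/
def restr (K : Finset V) (a : V → A) : V → Option A := fun i => if i ∈ K then some (a i) else none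

/-- the scope of a partial assignment -/
def scope (β : V → Option A) : Finset V := univ.filter fun i => (β i).isSome

/-- the counting polynomial of the set `H` of scopes -/
noncomputable def Z (F : Type) [Field F] (A : Type) [Fintype A] (H : Finset (Finset V)) :
    MvPolynomial (V → Option A) F := ∑ a : V → A, ∏ K ∈ H, X (restr K a)

/-- the substitution given by the numbers `t K i α`: the variable of the partial assignment `β` with scope `K` is
multiplied by the product of the `t K i (β i)`, `i ∈ K` -/
def gauge {F : Type} [Field F] (t : Finset V → V → A → Fˣ) (β : V → Option A) : F :=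
  ((∏ i, (β i).elim 1 (t (scope β) i) : Fˣ) : F)

/-- the product of the numbers `t K i α` over the scopes `K` which contain `i` is one -/
def IsGauge {F : Type} [Field F] (H : Finset (Finset V)) (t : Finset V → V → A → Fˣ) : Prop :=
  ∀ i α, ∏ K ∈ H.filter (fun K => i ∈ K), t K i α = 1

/-- The numbers `t K i o` are one, and there are no further multiplicative relations with exponents of absolute value at
most two between the numbers `t K i α`, `K ∈ H`, `i ∈ K`, `α ≠ o`, than the consequences of `IsGauge`. -/
def Generic {F : Type} [Field F] (H : Finset (Finset V)) (o : A) (t : Finset V → V → A → Fˣ) : Prop :=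
  IsGauge H t ∧ (∀ K i, t K i o = 1) ∧
    ∀ e : Finset V → V → A → ℤ, (∀ K i α, |e K i α| ≤ 2) →
      ∏ K ∈ H, ∏ i ∈ K, ∏ α ∈ univ.erase o, t K i α ^ e K i α = 1 →
      ∀ i, ∀ α, α ≠ o → ∀ K ∈ H, i ∈ K → ∀ K' ∈ H, i ∈ K' → e K i α = e K' i α

/-- the scopes with `k` elements -/
def scopes (V : Type) [Fintype V] [DecidableEq V] (k : ℕ) : Finset (Finset V) := (univ : Finset V).powersetCard k

/-! ### straight-line programs, only product steps are counted -/

/-- what is obtained from the product steps in the list `l` without a further product step: the linear combinations of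
one, the variables and the products in `l` -/
noncomputable def Sp {F σ : Type} [Field F] (l : List (MvPolynomial σ F × MvPolynomial σ F)) :
    Submodule F (MvPolynomial σ F) :=
  Submodule.span F ({1} ∪ Set.range X ∪ {p | ∃ s ∈ l, p = s.1 * s.2})

/-- a program: a list of product steps, the last one first; the factors of each step are obtained from the earlier ones -/
def Valid {F σ : Type} [Field F] : List (MvPolynomial σ F × MvPolynomial σ F) → Prop
  | [] => True
  | s :: l => Valid l ∧ s.1 ∈ Sp l ∧ s.2 ∈ Sp l

/-- the number of occurrences of the value `α` at `i` in the scope `K` in the monomial `u` -/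
def cnt (K : Finset V) (i : V) (α : A) (u : (V → Option A) →₀ ℕ) : ℕ :=
  ∑ β ∈ univ.filter (fun β : V → Option A => scope β = K ∧ β i = some α), u β

/-- homogeneous for all gauge gradings: the differences of the numbers `cnt K i α u`, `cnt K' i α u` are the same for all
monomials `u` of `p` -/
def Hom {F : Type} [Field F] (H : Finset (Finset V)) (p : MvPolynomial (V → Option A) F) : Prop :=
  ∀ u ∈ p.support, ∀ u' ∈ p.support, ∀ i α, ∀ K ∈ H, i ∈ K → ∀ K' ∈ H, i ∈ K' →
    (cnt K i α u : ℤ) - cnt K' i α u = cnt K i α u' - cnt K' i α u'

/-! ### contraction trees -/

/-- a binary tree with scopes at the leaves -/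
inductive CTree (V : Type) : Type
  | leaf (K : Finset V) : CTree V
  | node (l r : CTree V) : CTree V

/-- the set of the scopes at the leaves -/
def CTree.leaves : CTree V → Finset (Finset V)
  | .leaf K => {K}
  | .node l r => l.leaves ∪ r.leaves

/-- no scope occurs at two leaves -/
def CTree.Proper : CTree V → Prop
  | .leaf _ => True
  | .node l r => l.Proper ∧ r.Proper ∧ Disjoint l.leaves r.leaves

/-- the variables which occur in a scope in `U` and in a scope in `H` outside `U` -/
def cut (H U : Finset (Finset V)) : Finset V :=
  univ.filter fun i => (∃ K ∈ U, i ∈ K) ∧ ∃ K ∈ H \ U, i ∈ K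

/-- the largest number of variables which take part in one contraction -/
def CTree.width (H : Finset (Finset V)) : CTree V → ℕ
  | .leaf _ => 0
  | .node l r => max (cut H l.leaves ∪ cut H r.leaves).card (max (l.width H) (r.width H))

/-- the contraction width of `H`: the least width of a contraction tree -/
noncomputable def cwidth (H : Finset (Finset V)) : ℕ :=
  sInf {w | ∃ T : CTree V, T.Proper ∧ T.leaves = H ∧ T.width H = w}

end Pool.Agent.HS38.GT
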