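import Pool.Agent.HS38.GT.ChainD
import Pool.Agent.HS38.GT.Defs

/-!
# Gauge equivariant determinantal representations: the lower bound
-/

set_option autoImplicit false

namespace Pool.Agent.HS38.GT

open MvPolynomial Finset Pool.Agent.Helper1x.EQ

variable {V A : Type} [Fintype V] [DecidableEq V] [Fintype A] [DecidableEq A]

omit [Fintype A] [DecidableEq A] in
theorem scope_restr (K : Finset V) (a : V → A) : scope (restr K a) = K := by
  ext i
  simp only [scope, restr, mem_filter, mem_univ, true_and]
  split_ifs with h <;> simp [h]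

omit [Fintype A] [DecidableEq A] [Fintype V] in
theorem restr_eq_iff (K : Finset V) (a b : V → A) : restr K a = restr K b ↔ ∀ i ∈ K, a i = b i := by
  constructor
  · intro h i hi
    have := congrFun h i
    simpa [restr, hi] using this
  · intro h
    funext i
    unfold restr
    split_ifs with hi
    · rw [h i hi]
    · rfl

omit [Fintype A] [DecidableEq A] in
theorem restr_inj {K K' : Finset V} {a b : V → A} (h : restr K a = restr K' b) : K = K' := by
  rw [← scope_restr K a, h, scope_restr]

omit [Fintype A] [DecidableEq A] in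
theorem restr_injective (a : V → A) : Function.Injective (fun K : Finset V => restr K a) := fun _ _ h => restr_inj h

/-- the weight of a set of scopes -/
def wt {F : Type} [Field F] (t : Finset V → V → A → Fˣ) (U : Finset (Finset V)) (a : V → A) : Fˣ :=
  ∏ K ∈ U, ∏ i ∈ K, t K i (a i)

omit [Fintype A] [DecidableEq A] in
theorem gauge_restr {F : Type} [Field F] (t : Finset V → V → A → Fˣ) (K : Finset V) (a : V → A) :
    gauge t (restr K a) = ((∏ i ∈ K, t K i (a i) : Fˣ) : F) := by
  unfold gauge
  congr 1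
  rw [scope_restr, ← Finset.prod_subset (Finset.subset_univ K)]
  · refine Finset.prod_congr rfl fun i hi => ?_
    simp [restr, hi]
  · intro i _ hi
    simp [restr, hi]

omit [Fintype A] in
theorem prod_gauge {F : Type} [Field F] (t : Finset V → V → A → Fˣ) (U : Finset (Finset V)) (a : V → A) :
    ∏ x ∈ U.image (fun K => restr K a), gauge t x = ((wt t U a : Fˣ) : F) := by
  rw [Finset.prod_image (fun K _ K' _ h => restr_inj h)]
  unfold wt
  rw [Units.coe_prod]
  exact Finset.prod_congr rfl fun K _ => gauge_restr t K a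

/-- the exponents of the weight -/
def ex (U : Finset (Finset V)) (a : V → A) (K : Finset V) (i : V) (α : A) : ℤ := if K ∈ U ∧ a i = α then 1 else 0

theorem wt_eq_prod {F : Type} [Field F] {H : Finset (Finset V)} {o : A} {t : Finset V → V → A → Fˣ}
    (h1 : ∀ K i, t K i o = 1) {U : Finset (Finset V)} (hU : U ⊆ H) (a : V → A) :
    ∏ K ∈ H, ∏ i ∈ K, ∏ α ∈ univ.erase o, t K i α ^ ex U a K i α = wt t U a := by
  unfold wt
  rw [← Finset.prod_subset hU]
  · refine Finset.prod_congr rfl fun K hK => Finset.prod_congr rfl fun i _ => ?_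
    by_cases h : a i = o
    · rw [h, h1]
      apply Finset.prod_eq_one
      intro α hα
      have : ¬ a i = α := by
        rw [h]
        exact fun h' => (Finset.ne_of_mem_erase hα) h'.symm
      simp [ex, this]
    · rw [Finset.prod_eq_single (a i)]
      · simp [ex, hK]
      · intro α _ hne
        simp [ex, Ne.symm hne]
      · intro h2
        exact absurd (Finset.mem_erase.2 ⟨h, Finset.mem_univ _⟩) h2
  · intro K _ hK
    apply Finset.prod_eq_one
    intro i _
    apply Finset.prod_eq_one
    intro α _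
    simp [ex, hK]

theorem gen_pow {F : Type} [Field F] {H : Finset (Finset V)} {o : A} {t : Finset V → V → A → Fˣ}
    (hg : Generic H o t) {U U' : Finset (Finset V)} (hU : U ⊆ H) (hU' : U' ⊆ H) (a a' : V → A)
    (h : wt t U a ^ 2 = wt t U' a' ^ 2) :
    ∀ i, ∀ α, α ≠ o → ∀ K ∈ H, i ∈ K → ∀ K' ∈ H, i ∈ K' →
      ex U a K i α - ex U' a' K i α = ex U a K' i α - ex U' a' K' i α := by
  obtain ⟨-, h1, h2⟩ := hg
  have h3 : ∏ K ∈ H, ∏ i ∈ K, ∏ α ∈ univ.erase o, t K i α ^ (2 * (ex U a K i α - ex U' a' K i α)) = 1 := by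
    have e : ∀ (K : Finset V) (i : V) (α : A), t K i α ^ (2 * (ex U a K i α - ex U' a' K i α)) =
        (t K i α ^ ex U a K i α) ^ 2 / (t K i α ^ ex U' a' K i α) ^ 2 := by
      intro K i α
      rw [← div_pow, div_eq_mul_inv, ← _root_.zpow_sub, mul_comm, _root_.zpow_mul]
      rfl
    simp only [e, Finset.prod_div_distrib, Finset.prod_pow]
    rw [wt_eq_prod h1 hU, wt_eq_prod h1 hU', h, div_self']
  intro i α hα K hK hi K' hK' hi'
  have h4 := h2 (fun K i α => 2 * (ex U a K i α - ex U' a' K i α)) (fun K i α => by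
    unfold ex
    split_ifs <;> simp) h3 i α hα K hK hi K' hK' hi'
  omega

/-- the base point -/
noncomputable def base (F : Type) [Field F] (H : Finset (Finset V)) (o : A) (K₀ : Finset V) (β : V → Option A) : F :=
  if scope β ∈ H ∧ scope β ≠ K₀ ∧ ∀ i, β i ≠ none → β i = some o then 1 else 0

omit [Fintype A] in
theorem base_restr (F : Type) [Field F] (H : Finset (Finset V)) (o : A) (K₀ K : Finset V) (hK : K ∈ H) (b : V → A) :
    base F H o K₀ (restr K b) = if K ≠ K₀ ∧ ∀ i ∈ K, b i = o then 1 else 0 := by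
  unfold base
  rw [scope_restr]
  congr 1
  rw [eq_iff_iff]
  constructor
  · rintro ⟨_, h2, h3⟩
    refine ⟨h2, fun i hi => ?_⟩
    have := h3 i (by simp [restr, hi])
    simpa [restr, hi] using this
  · rintro ⟨h2, h3⟩
    refine ⟨hK, h2, fun i hi => ?_⟩
    by_cases hiK : i ∈ K
    · simp [restr, hiK, h3 i hiK]
    · simp [restr, hiK] at hi

theorem trans_Z {F : Type} [Field F] (H : Finset (Finset V)) (x0 : (V → Option A) → F) :
    trans x0 (Z F A H) = ∑ b : V → A, ∏ K ∈ H, (X (restr K b) + C (x0 (restr K b))) := by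
  unfold Z
  rw [map_sum]
  refine Finset.sum_congr rfl fun b _ => ?_
  rw [map_prod]
  exact Finset.prod_congr rfl fun K _ => trans_X _ _

theorem lin_Z {F : Type} [Field F] {H : Finset (Finset V)} (hH : ∀ i, ∃ K ∈ H, i ∈ K) (o : A) {K₀ : Finset V}
    (hK₀ : K₀ ∈ H) : lin (restr K₀ (fun _ => o)) (trans (base F H o K₀) (Z F A H)) = Polynomial.X := by
  classical
  rw [trans_Z, map_sum]
  have hfac : ∀ (b : V → A) (K : Finset V), K ∈ H →
      lin (restr K₀ (fun _ => o)) (X (restr K b) + C (base F H o K₀ (restr K b))) =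
      if ∀ i ∈ K, b i = o then (if K = K₀ then (Polynomial.X : Polynomial F) else 1) else 0 := by
    intro b K hK
    have h1 : ∀ a : F, lin (K := F) (restr K₀ (fun _ : V => o)) (C a) = Polynomial.C a := by
      intro a
      have := (lin (K := F) (restr K₀ (fun _ : V => o))).commutes a
      rwa [MvPolynomial.algebraMap_eq, Polynomial.algebraMap_eq] at this
    rw [map_add, h1, base_restr F H o K₀ K hK]
    unfold lin
    rw [MvPolynomial.aeval_X]
    by_cases hb : ∀ i ∈ K, b i = o
    · by_cases hK' : K = K₀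
      · subst hK'
        have h2 : restr K b = restr K (fun _ => o) := (restr_eq_iff K b _).2 hb
        rw [if_pos h2, if_neg (fun h => h.1 rfl), if_pos hb, if_pos rfl, map_zero, add_zero]
      · have : restr K b ≠ restr K₀ (fun _ => o) := fun h => hK' (restr_inj h)
        rw [if_neg this, if_pos ⟨hK', hb⟩, if_pos hb, if_neg hK']
        simp
    · have : restr K b ≠ restr K₀ (fun _ => o) := by
        intro h
        have h2 := restr_inj h
        subst h2
        exact hb ((restr_eq_iff K b _).1 h)
      rw [if_neg this, if_neg (fun h => hb h.2), if_neg hb]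
      simp
  rw [Finset.sum_eq_single (fun _ => o)]
  · rw [map_prod, Finset.prod_congr rfl fun K hK => hfac _ K hK]
    simp only [implies_true, if_true]
    rw [Finset.prod_ite_eq' H K₀, if_pos hK₀]
  · intro b _ hb
    obtain ⟨i, hi⟩ : ∃ i, b i ≠ o := by
      by_contra hcon
      push Not at hcon
      exact hb (funext hcon)
    obtain ⟨K, hK, hiK⟩ := hH i
    rw [map_prod]
    apply Finset.prod_eq_zero hK
    rw [hfac b K hK, if_neg]
    intro h
    exact hi (h i hiK)
  · intro h
    exact absurd (Finset.mem_univ _) h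

omit [Fintype A] in
theorem prod_X_mono {F : Type} [Field F] (U : Finset (Finset V)) (a : V → A) :
    ∏ K ∈ U, (X (restr K a) : MvPolynomial (V → Option A) F) =
      monomial (mono (U.image fun K => restr K a)) 1 := by
  unfold mono
  rw [Finset.sum_image (fun K _ K' _ h => restr_inj h), MvPolynomial.monomial_sum_index, map_one, one_mul]
  rfl

theorem mono_inj {X' : Type*} [DecidableEq X'] : Function.Injective (mono : Finset X' → (X' →₀ ℕ)) := by
  intro S T h
  ext x
  have h1 := DFunLike.congr_fun h x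
  rw [mono_apply, mono_apply] at h1
  by_cases hS : x ∈ S <;> by_cases hT : x ∈ T <;> simp_all

/-- the scopes at which `a` is not constant `o` -/
def act (H : Finset (Finset V)) (o : A) (a : V → A) : Finset (Finset V) := H.filter fun K => ∃ i ∈ K, a i ≠ o

theorem coeff_Z {F : Type} [Field F] {H : Finset (Finset V)} (hH : ∀ i, ∃ K ∈ H, i ∈ K) (o : A) {K₀ : Finset V}
    (hK₀ : K₀ ∈ H) (a : V → A) (ha : ∃ i ∈ K₀, a i ≠ o) :
    coeff (mono ((act H o a).image fun K => restr K a)) (trans (base F H o K₀) (Z F A H)) = 1 := by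
  classical
  rw [trans_Z, coeff_sum, Finset.sum_eq_single a]
  · rw [Finset.prod_add, coeff_sum, Finset.sum_eq_single (act H o a)]
    · rw [prod_X_mono, ← map_prod, mul_comm, coeff_C_mul, coeff_monomial, if_pos rfl, mul_one]
      apply Finset.prod_eq_one
      intro K hK
      rw [Finset.mem_sdiff] at hK
      have h1 : ∀ i ∈ K, a i = o := by
        intro i hi
        by_contra hne
        exact hK.2 (Finset.mem_filter.2 ⟨hK.1, i, hi, hne⟩)
      rw [base_restr F H o K₀ K hK.1, if_pos]
      refine ⟨?_, h1⟩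
      rintro rfl
      obtain ⟨i, hi, hne⟩ := ha
      exact hne (h1 i hi)
    · intro U hU hne
      rw [prod_X_mono, ← map_prod, mul_comm, coeff_C_mul, coeff_monomial, if_neg, mul_zero]
      intro h
      exact hne (Finset.image_injective (restr_injective a) (mono_inj h))
    · intro h
      exact absurd (Finset.mem_powerset.2 (Finset.filter_subset _ _)) h
  · intro b _ hb
    rw [Finset.prod_add, coeff_sum]
    apply Finset.sum_eq_zero
    intro U hU
    rw [Finset.mem_powerset] at hU
    rw [prod_X_mono, ← map_prod, mul_comm, coeff_C_mul, coeff_monomial]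
    by_cases h : mono (U.image fun K => restr K b) = mono ((act H o a).image fun K => restr K a)
    · rw [if_pos h, mul_one]
      have h1 := mono_inj h
      have h2 : ∀ K, K ∈ U → K ∈ act H o a ∧ restr K b = restr K a := by
        intro K hK
        have h3 : restr K b ∈ (act H o a).image fun K => restr K a := by
          rw [← h1]
          exact Finset.mem_image_of_mem _ hK
        obtain ⟨K', hK', h4⟩ := Finset.mem_image.1 h3
        have h5 := restr_inj h4
        subst h5
        exact ⟨hK', h4.symm⟩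
      have h3 : ∀ K, K ∈ act H o a → K ∈ U := by
        intro K hK
        have h4 : restr K a ∈ U.image fun K => restr K b := by
          rw [h1]
          exact Finset.mem_image_of_mem _ hK
        obtain ⟨K', hK', h5⟩ := Finset.mem_image.1 h4
        have h6 := restr_inj h5
        subst h6
        exact hK'
      obtain ⟨i, hi⟩ : ∃ i, b i ≠ a i := by
        by_contra hcon
        push Not at hcon
        exact hb (funext hcon)
      obtain ⟨K, hK, hiK⟩ := hH i
      have hKU : K ∉ U := by
        intro hKU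
        exact hi ((restr_eq_iff K b a).1 (h2 K hKU).2 i hiK)
      apply Finset.prod_eq_zero (Finset.mem_sdiff.2 ⟨hK, hKU⟩)
      rw [base_restr F H o K₀ K hK, if_neg]
      rintro ⟨-, h4⟩
      have h5 : a i = o := by
        by_contra hne
        exact hKU (h3 K (Finset.mem_filter.2 ⟨hK, i, hiK, hne⟩))
      exact hi (by rw [h4 i hiK, h5])
    · rw [if_neg h, mul_zero]
  · intro h
    exact absurd (Finset.mem_univ _) h

/-- the main step: for every assignment which is not constant `o` on `K₀` there is a set of scopes `U` whose weight is an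
eigenvalue -/
theorem exists_step {F : Type} [Field F] {ι : Type*} [Fintype ι] [DecidableEq ι] {d : ℕ} {H : Finset (Finset V)}
    (hH : ∀ i j, ∃ K ∈ H, i ∈ K ∧ j ∈ K) (o : A) {K₀ : Finset V} (hK₀ : K₀ ∈ H)
    {t : Finset V → V → A → Fˣ} (hg : Generic H o t)
    {M : Matrix ι ι (MvPolynomial (V → Option A) F)} (hdeg : ∀ i j, (M i j).totalDegree ≤ d) (hdet : M.det = Z F A H)
    (hEq : Equivariant (gauge t) M) :
    ∃ (R : Finset F) (μ : F), μ ≠ 0 ∧ R.card ≤ Fintype.card ι ∧ ∀ a : V → A, (∃ i ∈ K₀, a i ≠ o) →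
      ∃ (U U₂ : Finset (Finset V)) (i₀ : V), U ⊆ U₂ ∧ U₂ ⊆ H ∧ (U₂ \ U).card ≤ d ∧ a i₀ ≠ o ∧
        (∀ K ∈ H, i₀ ∈ K → K ∈ U₂) ∧ (∀ i, a i ≠ o → ∃ K ∈ H, i ∈ K ∧ K ∉ U) ∧
        μ * ((wt t U a ^ 2 : Fˣ) : F) ∈ R := by
  classical
  have hH1 : ∀ i, ∃ K ∈ H, i ∈ K := fun i => by
    obtain ⟨K, hK, hi, _⟩ := hH i i
    exact ⟨K, hK, hi⟩
  obtain ⟨hg1, hgo, hg2⟩ := id hg
  obtain ⟨B, C', hB, hC', hBC⟩ := hEq.square
  set c : (V → Option A) → F := gauge t with hc
  set c2 : (V → Option A) → F := fun x => c x * c x with hc2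
  set x0 := base F H o K₀ with hx0
  set N : Matrix ι ι (MvPolynomial (V → Option A) F) := M.map (trans x0) with hN
  have hNdet : N.det = trans x0 (Z F A H) := by
    rw [← hdet]
    exact ((trans x0).map_det M).symm
  have hone : ∀ K : Finset V, c (restr K (fun _ => o)) = 1 := by
    intro K
    rw [hc, gauge_restr]
    simp [hgo]
  have hx1 : ∀ β, c β * x0 β = x0 β := by
    intro β
    rw [hx0]
    unfold base
    split_ifs with h
    · have h1 : β = restr (scope β) (fun _ => o) := by
        funext i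
        by_cases hi : β i = none
        · simp [restr, scope, hi]
        · rw [h.2.2 i hi]
          have : i ∈ scope β := by
            simp [scope, Option.isSome_iff_ne_none, hi]
          simp [restr, this]
      rw [h1, hone, one_mul]
    · rw [mul_zero]
  have hx2 : ∀ β, c2 β * x0 β = x0 β := by
    intro β
    rw [hc2]
    simp only
    rw [mul_assoc, hx1, hx1]
  have hNeq : N.map (scale c2) * (C'⁻¹).map MvPolynomial.C = B.map MvPolynomial.C * N := by
    have h1 : M.map (scale c2) * (C'⁻¹).map MvPolynomial.C = B.map MvPolynomial.C * M := by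
      rw [hBC, Matrix.mul_assoc, ← map_C_mul, Matrix.mul_nonsing_inv _ hC', map_C_one, Matrix.mul_one]
    have hTs : ∀ S : Matrix ι ι F, (S.map MvPolynomial.C).map (trans x0) =
        (S.map MvPolynomial.C : Matrix ι ι (MvPolynomial (V → Option A) F)) := by
      intro S
      ext1 i j
      rw [Matrix.map_apply, Matrix.map_apply, trans_C]
    have hmul : ∀ S T : Matrix ι ι (MvPolynomial (V → Option A) F),
        (S * T).map (trans x0) = S.map (trans x0) * T.map (trans x0) := by
      intro S T
      ext1 i j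
      simp [Matrix.mul_apply, map_sum]
    have h2 : N.map (scale c2) = (M.map (scale c2)).map (trans x0) := by
      ext1 i j
      rw [hN, Matrix.map_apply, Matrix.map_apply, Matrix.map_apply, Matrix.map_apply, scale_trans hx2]
    rw [h2]
    have h3 := congrArg (fun S : Matrix ι ι (MvPolynomial (V → Option A) F) => S.map (trans x0)) h1
    simp only [hmul, hTs] at h3
    exact h3
  obtain ⟨μ, hμ0, hch⟩ := chain_d (N := N) (fun i j => (totalDegree_trans x0 _).trans (hdeg i j)) (D := C'⁻¹)
    (by rw [Matrix.isUnit_nonsing_inv_det_iff]; exact hC') hNeq (ρ := restr K₀ (fun _ => o))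
    (by rw [hc2]; simp only; rw [hone, mul_one]) (by rw [hNdet]; exact lin_Z hH1 o hK₀)
  refine ⟨(C'⁻¹).charpoly.roots.toFinset, μ, hμ0, ?_, ?_⟩
  · refine (Multiset.toFinset_card_le _).trans ?_
    refine (Polynomial.card_roots' _).trans ?_
    rw [Matrix.charpoly_natDegree_eq_dim]
  intro a ha
  have hw2 : ∀ U : Finset (Finset V), ∏ x ∈ U.image (fun K => restr K a), c2 x = ((wt t U a ^ 2 : Fˣ) : F) := by
    intro U
    rw [hc2]
    simp only
    rw [Finset.prod_mul_distrib, hc, prod_gauge, Units.val_pow_eq_pow_val, sq]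
  have hSa : ∀ S' ⊆ (act H o a).image (fun K => restr K a),
      S' = (H.filter fun K => restr K a ∈ S').image (fun K => restr K a) := by
    intro S' hS'
    ext x
    rw [Finset.mem_image]
    constructor
    · intro hx
      obtain ⟨K, hK, rfl⟩ := Finset.mem_image.1 (hS' hx)
      exact ⟨K, Finset.mem_filter.2 ⟨(Finset.mem_filter.1 hK).1, hx⟩, rfl⟩
    · rintro ⟨K, hK, rfl⟩
      exact (Finset.mem_filter.1 hK).2
  obtain ⟨S₁, S₂, h12, h2S, hcard, hgood, hbad, y, hy0, hy⟩ := hch ((act H o a).image fun K => restr K a)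
    (by rw [hNdet, coeff_Z hH1 o hK₀ a ha]; exact one_ne_zero)
    (by
      intro S' hS' hne hneq
      rw [hSa S' hS'] at hne hneq ⊢
      set U := H.filter fun K => restr K a ∈ S' with hU
      rw [hw2]
      intro h1
      have h2 : wt t U a ^ 2 = wt t (∅ : Finset (Finset V)) a ^ 2 := by
        have h3 : wt t (∅ : Finset (Finset V)) a = 1 := by simp [wt]
        rw [h3, one_pow]
        exact Units.ext (by rw [h1]; rfl)
      have h3 := gen_pow hg (Finset.filter_subset _ _) (Finset.empty_subset _) a a h2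
      have h4 : ∀ i, a i ≠ o → ∀ K ∈ H, i ∈ K → ∀ K' ∈ H, i ∈ K' → K ∈ U → K' ∈ U := by
        intro i hi K hK hiK K' hK' hiK' hKU
        have h5 := h3 i (a i) hi K hK hiK K' hK' hiK'
        by_contra hcon
        rw [← hU] at h5
        simp [ex, hKU, hcon] at h5
      have hUa : ∀ K ∈ U, K ∈ act H o a := by
        intro K hK
        have h5 := (Finset.mem_filter.1 hK).2
        obtain ⟨K', hK', h6⟩ := Finset.mem_image.1 (hS' h5)
        rw [← restr_inj h6]
        exact hK'
      obtain ⟨K₁, hK₁⟩ := (Finset.image_nonempty).1 hne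
      obtain ⟨hK₁H, i₁, hi₁, ho₁⟩ := Finset.mem_filter.1 (hUa K₁ hK₁)
      apply hneq
      congr 1
      apply Finset.Subset.antisymm hUa
      intro K hK
      obtain ⟨hKH, i, hi, ho⟩ := Finset.mem_filter.1 hK
      obtain ⟨K₂, hK₂, hi2, hi12⟩ := hH i i₁
      have h5 := h4 i₁ ho₁ K₁ hK₁H hi₁ K₂ hK₂ hi12 hK₁
      exact h4 i ho K₂ hK₂ hi2 K hKH hi h5)
    (fun S' => ∃ i, a i ≠ o ∧ ∀ K ∈ H, i ∈ K → restr K a ∈ S')
    (by
      obtain ⟨i, hi, ho⟩ := ha
      exact ⟨i, ho, fun K hK hiK => Finset.mem_image_of_mem _ (Finset.mem_filter.2 ⟨hK, i, hiK, ho⟩)⟩)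
    (by
      rintro ⟨i, ho, h⟩
      obtain ⟨K, hK, hi⟩ := hH1 i
      exact absurd (h K hK hi) (Finset.notMem_empty _))
  obtain ⟨i₀, hi₀, hfull⟩ := hgood
  refine ⟨H.filter fun K => restr K a ∈ S₁, H.filter fun K => restr K a ∈ S₂, i₀, ?_, Finset.filter_subset _ _, ?_, hi₀,
    ?_, ?_, ?_⟩
  · intro K hK
    rw [Finset.mem_filter] at hK ⊢
    exact ⟨hK.1, h12 hK.2⟩
  · refine le_trans ?_ hcard
    apply Finset.card_le_card_of_injOn (fun K => restr K a)
    · intro K hK
      rw [Finset.mem_coe, Finset.mem_sdiff, Finset.mem_filter, Finset.mem_filter] at hK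
      rw [Finset.mem_coe, Finset.mem_sdiff]
      exact ⟨hK.1.2, fun h => hK.2 ⟨hK.1.1, h⟩⟩
    · intro K _ K' _ h
      exact restr_inj h
  · intro K hK hi
    exact Finset.mem_filter.2 ⟨hK, hfull K hK hi⟩
  · intro i hi
    by_contra hcon
    push Not at hcon
    apply hbad
    refine ⟨i, hi, fun K hK hiK => ?_⟩
    exact (Finset.mem_filter.1 (hcon K hK hiK)).2
  · have h1 := root_of_eigen hy0 hy
    rw [hSa S₁ (h12.trans h2S), hw2] at h1
    exact h1

end Pool.Agent.HS38.GT
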