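import Pool.Agent.HS38.GT.Stm

/-!
# Piece DUP (helper70)
-/

set_option autoImplicit false
set_option linter.unusedSectionVars false

namespace Pool.Agent.HS38.GT

open MvPolynomial Finset Pool.Agent.Helper1x.EQ

namespace Dup

section mat

variable {S R : Type} [Fintype S] [DecidableEq S] [CommRing R] (n : ℕ) (x : S → ℕ → R)

/-- the block of the chains -/
def blk (a : S) : Matrix (Fin n) (Fin n) R := fun j j' =>
  if j = j' then 1 else if (j' : ℕ) = j + 1 then - x a j' else 0

/-- the row -/
def row : Matrix Unit (Fin n × S) R := fun _ q => if (q.1 : ℕ) = 0 then - x q.2 0 else 0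

/-- the column -/
def col : Matrix (Fin n × S) Unit R := fun q _ => if (q.1 : ℕ) + 1 = n then x q.2 n else 0

/-- the corner -/
def cor : Matrix Unit Unit R := fun _ _ => if n = 0 then ∑ a, x a 0 else 0

/-- the matrix -/
def mat : Matrix (Unit ⊕ Fin n × S) (Unit ⊕ Fin n × S) R :=
  Matrix.fromBlocks (cor n x) (row n x) (col n x) (Matrix.blockDiagonal (blk n x))

/-- the solution of the linear system -/
def sol : Matrix (Fin n × S) Unit R := fun q _ => ∏ l ∈ Ico ((q.1 : ℕ) + 1) (n + 1), x q.2 l

lemma det_blk (a : S) : (blk n x a).det = 1 := by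
  rw [Matrix.det_of_isUpperTriangular]
  · refine Finset.prod_eq_one fun i _ => ?_
    unfold blk
    rw [if_pos rfl]
  · intro i j hij
    unfold blk
    have h : (j : ℕ) < i := hij
    rw [if_neg, if_neg]
    · omega
    · intro h'
      rw [h'] at h
      exact lt_irrefl _ h

lemma sol_eq : Matrix.blockDiagonal (blk n x) * sol n x = col n x := by
  ext ⟨j, a⟩ u
  rw [Matrix.mul_apply, Fintype.sum_prod_type]
  have h1 : ∀ j' : Fin n, ∑ a', Matrix.blockDiagonal (blk n x) (j, a) (j', a') * sol n x (j', a') u =
      blk n x a j j' * sol n x (j', a) u := by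
    intro j'
    rw [Finset.sum_eq_single a]
    · rw [Matrix.blockDiagonal_apply, if_pos rfl]
    · intro b _ hb
      rw [Matrix.blockDiagonal_apply, if_neg (fun h => hb h.symm), zero_mul]
    · intro h
      exact absurd (Finset.mem_univ _) h
  rw [Finset.sum_congr rfl fun j' _ => h1 j']
  unfold sol col
  simp only
  by_cases hj : (j : ℕ) + 1 = n
  · rw [if_pos hj, Finset.sum_eq_single j]
    · unfold blk
      rw [if_pos rfl, one_mul, hj, Nat.Ico_succ_singleton, Finset.prod_singleton]
    · intro b _ hb
      unfold blk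
      rw [if_neg fun h => hb h.symm, if_neg, zero_mul]
      have := b.2
      omega
    · intro h
      exact absurd (Finset.mem_univ _) h
  · have hj' : (j : ℕ) + 1 < n := by have := j.2; omega
    rw [if_neg hj]
    have h2 : ∀ j' : Fin n, blk n x a j j' * ∏ l ∈ Ico ((j' : ℕ) + 1) (n + 1), x a l =
        (if j = j' then ∏ l ∈ Ico ((j : ℕ) + 1) (n + 1), x a l else 0) +
        (if (⟨j + 1, hj'⟩ : Fin n) = j' then - ∏ l ∈ Ico ((j : ℕ) + 1) (n + 1), x a l else 0) := by
      intro j'
      unfold blk
      by_cases e1 : j = j'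
      · subst e1
        rw [if_pos rfl, if_pos rfl, one_mul, if_neg, add_zero]
        intro h
        have := congrArg Fin.val h
        simp only at this
        omega
      · rw [if_neg e1, if_neg e1, zero_add]
        by_cases e2 : (⟨j + 1, hj'⟩ : Fin n) = j'
        · subst e2
          rw [if_pos rfl, if_pos rfl, Finset.prod_eq_prod_Ico_succ_bot (show (j : ℕ) + 1 < n + 1 by omega)]
          ring
        · rw [if_neg e2, if_neg, zero_mul]
          intro h
          exact e2 (Fin.ext h.symm)
    rw [Finset.sum_congr rfl fun j' _ => h2 j', Finset.sum_add_distrib, Finset.sum_ite_eq,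
      Finset.sum_ite_eq, if_pos (Finset.mem_univ _), if_pos (Finset.mem_univ _), add_neg_cancel]

lemma det_mat : (mat n x).det = ∑ a, ∏ l ∈ range (n + 1), x a l := by
  have h1 : mat n x * Matrix.fromBlocks 1 0 (- sol n x) 1 =
      Matrix.fromBlocks (cor n x - row n x * sol n x) (row n x) 0 (Matrix.blockDiagonal (blk n x)) := by
    unfold mat
    rw [Matrix.fromBlocks_multiply]
    simp only [Matrix.mul_one, Matrix.mul_zero, Matrix.mul_neg, zero_add, sol_eq, add_neg_cancel,
      sub_eq_add_neg]
  have h2 := congrArg Matrix.det h1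
  rw [Matrix.det_mul, Matrix.det_fromBlocks_zero₁₂, Matrix.det_one, Matrix.det_one, mul_one, mul_one,
    Matrix.det_fromBlocks_zero₂₁, Matrix.det_blockDiagonal,
    Finset.prod_eq_one (fun a _ => det_blk n x a), mul_one] at h2
  rw [h2, Matrix.det_unique, Matrix.sub_apply, Matrix.mul_apply, Fintype.sum_prod_type_right]
  unfold cor row sol
  simp only
  rcases Nat.eq_zero_or_pos n with h | h
  · subst h
    rw [if_pos rfl]
    simp
  · rw [if_neg h.ne', zero_sub, ← Finset.sum_neg_distrib]
    refine Finset.sum_congr rfl fun a _ => ?_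
    rw [Finset.sum_eq_single (⟨0, h⟩ : Fin n)]
    · rw [if_pos rfl, Finset.prod_range_eq_mul_Ico _ (Nat.succ_pos n)]
      ring
    · intro b _ hb
      rw [if_neg, zero_mul]
      intro h'
      exact hb (Fin.ext h')
    · intro h'
      exact absurd (Finset.mem_univ _) h'

end mat

section

variable {V A : Type} [Fintype V] [DecidableEq V] [Fintype A] [DecidableEq A]

lemma scope_restr (K : Finset V) (a : V → A) : scope (restr K a) = K := by
  ext i
  unfold scope restr
  rw [Finset.mem_filter]
  by_cases h : i ∈ K
  · simp [h]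
  · simp [h]

lemma gauge_restr {F : Type} [Field F] (t : Finset V → V → A → Fˣ) (K : Finset V) (a : V → A) :
    gauge t (restr K a) = ((∏ i ∈ K, t K i (a i) : Fˣ) : F) := by
  unfold gauge
  rw [scope_restr]
  congr 1
  rw [← Finset.prod_subset (Finset.subset_univ K)]
  · refine Finset.prod_congr rfl fun i hi => ?_
    unfold restr
    rw [if_pos hi]
    rfl
  · intro i _ hi
    unfold restr
    rw [if_neg hi]
    rfl

lemma prod_gauge {F : Type} [Field F] {H : Finset (Finset V)} {t : Finset V → V → A → Fˣ}
    (ht : IsGauge H t) (a : V → A) : ∏ K ∈ H, gauge t (restr K a) = 1 := by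
  rw [Finset.prod_congr rfl fun K _ => gauge_restr t K a, ← Units.coe_prod]
  have h : ∏ K ∈ H, ∏ i ∈ K, t K i (a i) = 1 := by
    have h1 : ∀ K ∈ H, ∏ i ∈ K, t K i (a i) = ∏ i, if i ∈ K then t K i (a i) else 1 := by
      intro K _
      rw [Finset.prod_ite_mem, Finset.univ_inter]
    rw [Finset.prod_congr rfl h1, Finset.prod_comm]
    refine Finset.prod_eq_one fun i _ => ?_
    rw [← Finset.prod_filter]
    exact ht i (a i)
  rw [h, Units.val_one]

lemma gauge_ne {F : Type} [Field F] (t : Finset V → V → A → Fˣ) (β : V → Option A) : gauge t β ≠ 0 :=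
  Units.ne_zero _

end

end Dup

open Dup in
theorem t_DUP : S_DUP := by
  intro F _ V A _ _ _ _ H hH
  obtain ⟨n, hn⟩ : ∃ n, H.card = n + 1 := ⟨H.card - 1, by
    have := Finset.card_pos.2 hH
    omega⟩
  let k : ℕ → Finset V := fun l => if h : l < H.card then (H.equivFin.symm ⟨l, h⟩ : Finset V) else ∅
  have hk : ∀ (R : Type) [CommMonoid R] (f : Finset V → R), ∏ l ∈ range (n + 1), f (k l) =
      ∏ K ∈ H, f K := by
    intro R _ f
    rw [← hn, Finset.prod_range, ← Finset.prod_coe_sort H, ← Equiv.prod_comp H.equivFin.symm]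
    refine Finset.prod_congr rfl fun i _ => ?_
    simp only [k, i.2, dif_pos, Fin.eta]
  let x : (V → A) → ℕ → MvPolynomial (V → Option A) F := fun a l => X (restr (k l) a)
  have hc : Fintype.card (Unit ⊕ Fin n × (V → A)) = (H.card - 1) * Fintype.card A ^ Fintype.card V + 1 := by
    rw [Fintype.card_sum, Fintype.card_prod, Fintype.card_unit, Fintype.card_fin, Fintype.card_fun, hn,
      Nat.add_sub_cancel, add_comm]
  let e := Fintype.equivFinOfCardEq hc
  have hd : ∀ i j, (mat n x i j).totalDegree ≤ 1 := by
    have hX : ∀ β : V → Option A, (X β : MvPolynomial (V → Option A) F).totalDegree ≤ 1 := fun β => by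
      rw [totalDegree_X]
    rintro (i | ⟨i, a⟩) (j | ⟨j, b⟩)
    · change (cor n x i j).totalDegree ≤ 1
      unfold cor
      split_ifs
      · exact totalDegree_finsetSum_le fun a _ => hX _
      · rw [totalDegree_zero]; omega
    · change (row n x i (j, b)).totalDegree ≤ 1
      unfold row
      split_ifs
      · rw [totalDegree_neg]; exact hX _
      · rw [totalDegree_zero]; omega
    · change (col n x (i, a) j).totalDegree ≤ 1
      unfold col
      split_ifs
      · exact hX _
      · rw [totalDegree_zero]; omega
    · change (Matrix.blockDiagonal (blk n x) (i, a) (j, b)).totalDegree ≤ 1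
      rw [Matrix.blockDiagonal_apply]
      unfold blk
      split_ifs
      · rw [totalDegree_one]; omega
      · rw [totalDegree_neg]; exact hX _
      · rw [totalDegree_zero]; omega
      · rw [totalDegree_zero]; omega
  refine ⟨(mat n x).submatrix e.symm e.symm, ⟨fun i j => hd _ _, ?_⟩, fun t ht => ?_⟩
  · rw [Matrix.det_submatrix_equiv_self, det_mat]
    unfold Z
    exact Finset.sum_congr rfl fun a _ => hk _ fun K => X (restr K a)
  · let c := gauge (F := F) t
    have hc0 : ∀ β, c β ≠ 0 := gauge_ne t
    have hc1 : ∀ a, ∏ l ∈ range (n + 1), c (restr (k l) a) = 1 := fun a => by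
      rw [hk F fun K => c (restr K a)]
      exact prod_gauge ht a
    let b : Unit ⊕ Fin n × (V → A) → F :=
      Sum.elim (fun _ => 1) fun q => (∏ l ∈ range ((q.1 : ℕ) + 1), c (restr (k l) q.2))⁻¹
    have hb0 : ∀ q, b q ≠ 0 := by
      rintro (q | q)
      · exact one_ne_zero
      · exact inv_ne_zero (Finset.prod_ne_zero_iff.2 fun l _ => hc0 _)
    have key : ∀ q r, scale c (mat n x q r) = C (b q) * mat n x q r * C (b r)⁻¹ := by
      have hS : ∀ l a, scale c (x a l) = C (c (restr (k l) a)) * x a l := fun l a => scale_X _ _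
      have hprod : ∀ (j : ℕ) a, ∏ l ∈ range (j + 1), c (restr (k l) a) ≠ 0 := fun j a =>
        Finset.prod_ne_zero_iff.2 fun l _ => hc0 _
      rintro (i | ⟨i, a⟩) (j | ⟨j, a'⟩)
      · change scale c (cor n x i j) = C 1 * cor n x i j * C 1⁻¹
        rw [inv_one, C_1, one_mul, mul_one]
        unfold cor
        split_ifs with h
        · rw [map_sum]
          refine Finset.sum_congr rfl fun a _ => ?_
          rw [hS]
          have h1 := hc1 a
          rw [h, zero_add, Finset.prod_range_one] at h1
          rw [h1, C_1, one_mul]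
        · exact map_zero _
      · change scale c (row n x i (j, a')) = C 1 * row n x i (j, a') *
          C ((∏ l ∈ range ((j : ℕ) + 1), c (restr (k l) a'))⁻¹)⁻¹
        rw [inv_inv, C_1, one_mul]
        unfold row
        simp only
        split_ifs with h
        · rw [h, zero_add, Finset.prod_range_one, map_neg, hS]
          ring
        · rw [map_zero, zero_mul]
      · change scale c (col n x (i, a) j) = C ((∏ l ∈ range ((i : ℕ) + 1), c (restr (k l) a))⁻¹) *
          col n x (i, a) j * C 1⁻¹
        rw [inv_one, C_1, mul_one]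
        unfold col
        simp only
        split_ifs with h
        · have h1 := hc1 a
          rw [Finset.prod_range_succ] at h1
          rw [h, hS]
          congr 2
          exact eq_inv_of_mul_eq_one_right h1
        · rw [map_zero, mul_zero]
      · change scale c (Matrix.blockDiagonal (blk n x) (i, a) (j, a')) =
          C ((∏ l ∈ range ((i : ℕ) + 1), c (restr (k l) a))⁻¹) *
          Matrix.blockDiagonal (blk n x) (i, a) (j, a') *
          C ((∏ l ∈ range ((j : ℕ) + 1), c (restr (k l) a'))⁻¹)⁻¹
        rw [Matrix.blockDiagonal_apply, inv_inv]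
        unfold blk
        split_ifs with h1 h2 h3
        · subst h1 h2
          rw [map_one, mul_one, ← C_mul, inv_mul_cancel₀ (hprod _ _), C_1]
        · subst h1
          simp only at h3 ⊢
          rw [map_neg, hS, h3, Finset.prod_range_succ _ ((i : ℕ) + 1), C_mul]
          have h4 : (C (∏ l ∈ range ((i : ℕ) + 1), c (restr (k l) a))⁻¹ *
              C (∏ l ∈ range ((i : ℕ) + 1), c (restr (k l) a)) : MvPolynomial (V → Option A) F) = 1 := by
            rw [← C_mul, inv_mul_cancel₀ (hprod _ _), C_1]
          linear_combination (C (c (restr (k (i + 1)) a)) * x a (i + 1)) * h4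
        · rw [map_zero, mul_zero, zero_mul]
        · rw [map_zero, mul_zero, zero_mul]
    refine ⟨Matrix.diagonal (b ∘ e.symm), Matrix.diagonal fun i => (b (e.symm i))⁻¹, ?_, ?_, Or.inl ?_⟩
    · rw [Matrix.det_diagonal, isUnit_iff_ne_zero]
      exact Finset.prod_ne_zero_iff.2 fun i _ => hb0 _
    · rw [Matrix.det_diagonal, isUnit_iff_ne_zero]
      exact Finset.prod_ne_zero_iff.2 fun i _ => inv_ne_zero (hb0 _)
    · rw [Matrix.diagonal_map (map_zero _), Matrix.diagonal_map (map_zero _)]
      ext1 i j
      rw [Matrix.mul_diagonal, Matrix.diagonal_mul, Matrix.map_apply, Matrix.submatrix_apply]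
      exact key (e.symm i) (e.symm j)

end Pool.Agent.HS38.GT
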