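import Pool.Agent.HS38.GT.ChainF
import Pool.Agent.HS38.GT.DCount

/-!
# Gauge equivariant determinantal representations: families of symmetries at the variables in `W`
-/

set_option autoImplicit false

namespace Pool.Agent.HS38.GT

open MvPolynomial Finset Pool.Agent.Helper1x.EQ

variable {V A : Type} [Fintype V] [DecidableEq V] [Fintype A] [DecidableEq A]

/-- there are invertible matrices `B` and `C` with `M (c x) = B M (x) C` -/
def Strict {K X ι : Type*} [Field K] [Fintype ι] [DecidableEq ι] (c : X → K)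
    (M : Matrix ι ι (MvPolynomial X K)) : Prop :=
  ∃ B C : Matrix ι ι K, IsUnit B.det ∧ IsUnit C.det ∧
    M.map (scale c) = B.map MvPolynomial.C * M * C.map MvPolynomial.C

/-- the family `T` of gauge symmetries separates the scopes at the variables in `W` -/
def Sep {F : Type} [Field F] (H : Finset (Finset V)) (W : Finset V) (o : A) (T : Set (Finset V → V → A → Fˣ)) : Prop :=
  (∀ t ∈ T, ∀ K i, t K i o = 1) ∧
    ∀ U ⊆ H, ∀ U' ⊆ H, ∀ a a' : V → A, (∀ t ∈ T, wt t U a = wt t U' a') →
      ∀ i ∈ W, ∀ α, α ≠ o → ∀ K ∈ H, i ∈ K → ∀ K' ∈ H, i ∈ K' →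
        (ex U a K i α = ex U a K' i α ↔ ex U' a' K i α = ex U' a' K' i α)

theorem base_fix {F : Type} [Field F] {H : Finset (Finset V)} {o : A} {K₀ : Finset V} {t : Finset V → V → A → Fˣ}
    (ht : ∀ K i, t K i o = 1) (β : V → Option A) : gauge t β * base F H o K₀ β = base F H o K₀ β := by
  unfold base
  split_ifs with h
  · have h1 : β = restr (scope β) (fun _ => o) := by
      funext i
      by_cases hi : β i = none
      · simp [restr, scope, hi]
      · rw [h.2.2 i hi]
        have : i ∈ scope β := by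
          simp [scope, Option.isSome_iff_ne_none, hi]
        simp [restr, this]
    rw [h1, gauge_restr]
    simp [ht]
  · rw [mul_zero]

/-- a symmetry of `M` is a symmetry of the translated matrix -/
theorem symm_of_strict {F : Type} [Field F] {ι : Type*} [Fintype ι] [DecidableEq ι] {H : Finset (Finset V)} {o : A}
    {K₀ : Finset V} {t : Finset V → V → A → Fˣ} (ht : ∀ K i, t K i o = 1)
    {M : Matrix ι ι (MvPolynomial (V → Option A) F)} (hM : Strict (gauge t) M) :
    ∃ B D : Matrix ι ι F, IsSymm (M.map (trans (base F H o K₀))) (restr K₀ (fun _ => o)) (gauge t) B D := by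
  classical
  obtain ⟨B, C', hB, hC', hBC⟩ := hM
  refine ⟨B, C'⁻¹, by rw [Matrix.isUnit_nonsing_inv_det_iff]; exact hC', ?_, ?_⟩
  · rw [gauge_restr]
    simp [ht]
  set x0 := base F H o K₀ with hx0
  have h1 : M.map (scale (gauge t)) * (C'⁻¹).map MvPolynomial.C = B.map MvPolynomial.C * M := by
    rw [hBC, Matrix.mul_assoc, ← map_C_mul, Matrix.mul_nonsing_inv _ hC', map_C_one, Matrix.mul_one]
  have hTs : ∀ S : Matrix ι ι F, (S.map MvPolynomial.C).map (trans x0) =
      (S.map MvPolynomial.C : Matrix ι ι (MvPolynomial (V → Option A) F)) := by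
    intro S
    ext1 i j
    rw [Matrix.map_apply, Matrix.map_apply, trans_C]
  have hmul : ∀ S T : Matrix ι ι (MvPolynomial (V → Option A) F),
      (S * T).map (trans x0) = S.map (trans x0) * T.map (trans x0) := by
    intro S T
    ext1 i j
    simp [Matrix.mul_apply, map_sum]
  have h2 : (M.map (trans x0)).map (scale (gauge t)) = (M.map (scale (gauge t))).map (trans x0) := by
    ext1 i j
    rw [Matrix.map_apply, Matrix.map_apply, Matrix.map_apply, Matrix.map_apply, scale_trans]
    exact fun β => base_fix ht β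
  rw [h2]
  have h3 := congrArg (fun S : Matrix ι ι (MvPolynomial (V → Option A) F) => S.map (trans x0)) h1
  simp only [hmul, hTs] at h3
  exact h3

/-- the main step: for every assignment with support in `W` which is not constant `o` on `K₀` there is a set of scopes `U`
with a nonzero joint eigenvector -/
theorem exists_step_f {F : Type} [Field F] {ι : Type*} [Fintype ι] [DecidableEq ι] {d : ℕ} {H : Finset (Finset V)}
    (hH : ∀ i j, ∃ K ∈ H, i ∈ K ∧ j ∈ K) {W : Finset V} (o : A) {K₀ : Finset V} (hK₀ : K₀ ∈ H)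
    {T : Set (Finset V → V → A → Fˣ)} (hT : Sep H W o T)
    {M : Matrix ι ι (MvPolynomial (V → Option A) F)} (hdeg : ∀ i j, (M i j).totalDegree ≤ d) (hdet : M.det = Z F A H)
    (hEq : ∀ t ∈ T, Strict (gauge t) M) :
    ∃ y : Finset (V → Option A) → ι → F,
      (∀ t ∈ T, ∃ (D : Matrix ι ι F) (μ : F), μ ≠ 0 ∧ ∀ (U : Finset (Finset V)) (a : V → A),
        D.mulVec (y (U.image fun K => restr K a)) = (μ * ((wt t U a : Fˣ) : F)) • y (U.image fun K => restr K a)) ∧
      ∀ a : V → A, (∀ i, a i ≠ o → i ∈ W) → (∃ i ∈ K₀, a i ≠ o) →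
      ∃ (U U₂ : Finset (Finset V)) (i₀ : V), U ⊆ U₂ ∧ U₂ ⊆ H ∧ (U₂ \ U).card ≤ d ∧ a i₀ ≠ o ∧
        (∀ K ∈ H, i₀ ∈ K → K ∈ U₂) ∧ (∀ i, a i ≠ o → ∃ K ∈ H, i ∈ K ∧ K ∉ U) ∧
        y (U.image fun K => restr K a) ≠ 0 := by
  classical
  have hH1 : ∀ i, ∃ K ∈ H, i ∈ K := fun i => by
    obtain ⟨K, hK, hi, _⟩ := hH i i
    exact ⟨K, hK, hi⟩
  set x0 := base F H o K₀ with hx0
  set N : Matrix ι ι (MvPolynomial (V → Option A) F) := M.map (trans x0) with hN
  have hNdet : N.det = trans x0 (Z F A H) := by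
    rw [← hdet]
    exact ((trans x0).map_det M).symm
  obtain ⟨y, hy1, hy2⟩ := chain_f (N := N) (fun i j => (totalDegree_trans x0 _).trans (hdeg i j))
    (ρ := restr K₀ (fun _ => o)) (by rw [hNdet]; exact lin_Z hH1 o hK₀)
  refine ⟨y, ?_, ?_⟩
  · intro t ht
    obtain ⟨B, D, hs⟩ := symm_of_strict (H := H) (K₀ := K₀) (hT.1 t ht) (hEq t ht)
    obtain ⟨μ, hμ, hD⟩ := hy1 _ B D hs
    refine ⟨D, μ, hμ, fun U a => ?_⟩
    rw [hD, prod_gauge]
  intro a haW ha
  have hSa : ∀ S' ⊆ (act H o a).image (fun K => restr K a),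
      S' = (H.filter fun K => restr K a ∈ S').image (fun K => restr K a) := by
    intro S' hS'
    ext x
    rw [Finset.mem_image]
    constructor
    · intro hx
      obtain ⟨K, hK, rfl⟩ := Finset.mem_image.1 (hS' hx)
      exact ⟨K, Finset.mem_filter.2 ⟨(Finset.mem_filter.1 hK).1, hx⟩, rfl⟩
    · rintro ⟨K, hK, rfl⟩
      exact (Finset.mem_filter.1 hK).2
  obtain ⟨S₁, S₂, h12, h2S, hcard, hgood, hbad, hy0⟩ := hy2 ((act H o a).image fun K => restr K a)
    (by rw [hNdet, coeff_Z hH1 o hK₀ a ha]; exact one_ne_zero)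
    (by
      intro S' hS' hne hneq
      rw [hSa S' hS'] at hne hneq ⊢
      set U := H.filter fun K => restr K a ∈ S' with hU
      by_contra hcon
      push Not at hcon
      have h2 : ∀ t ∈ T, wt t U a = wt t (∅ : Finset (Finset V)) a := by
        intro t ht
        obtain ⟨B, D, hs⟩ := symm_of_strict (H := H) (K₀ := K₀) (hT.1 t ht) (hEq t ht)
        have h3 := hcon _ B D hs
        rw [prod_gauge] at h3
        have h4 : wt t (∅ : Finset (Finset V)) a = 1 := by simp [wt]
        rw [h4]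
        exact Units.ext (by rw [h3]; rfl)
      have h3 := hT.2 U (Finset.filter_subset _ _) ∅ (Finset.empty_subset _) a a h2
      have h4 : ∀ i, a i ≠ o → ∀ K ∈ H, i ∈ K → ∀ K' ∈ H, i ∈ K' → K ∈ U → K' ∈ U := by
        intro i hi K hK hiK K' hK' hiK' hKU
        have h5 := (h3 i (haW i hi) (a i) hi K hK hiK K' hK' hiK').2 (by simp [ex])
        by_contra hcon
        simp [ex, hKU, hcon] at h5
      have hUa : ∀ K ∈ U, K ∈ act H o a := by
        intro K hK
        have h5 := (Finset.mem_filter.1 hK).2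
        obtain ⟨K', hK', h6⟩ := Finset.mem_image.1 (hS' h5)
        rw [← restr_inj h6]
        exact hK'
      obtain ⟨K₁, hK₁⟩ := (Finset.image_nonempty).1 hne
      obtain ⟨hK₁H, i₁, hi₁, ho₁⟩ := Finset.mem_filter.1 (hUa K₁ hK₁)
      apply hneq
      congr 1
      apply Finset.Subset.antisymm hUa
      intro K hK
      obtain ⟨hKH, i, hi, ho⟩ := Finset.mem_filter.1 hK
      obtain ⟨K₂, hK₂, hi2, hi12⟩ := hH i i₁
      have h5 := h4 i₁ ho₁ K₁ hK₁H hi₁ K₂ hK₂ hi12 hK₁
      exact h4 i ho K₂ hK₂ hi2 K hKH hi h5)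
    (fun S' => ∃ i, a i ≠ o ∧ ∀ K ∈ H, i ∈ K → restr K a ∈ S')
    (by
      obtain ⟨i, hi, ho⟩ := ha
      exact ⟨i, ho, fun K hK hiK => Finset.mem_image_of_mem _ (Finset.mem_filter.2 ⟨hK, i, hiK, ho⟩)⟩)
    (by
      rintro ⟨i, ho, h⟩
      obtain ⟨K, hK, hi⟩ := hH1 i
      exact absurd (h K hK hi) (Finset.notMem_empty _))
  obtain ⟨i₀, hi₀, hfull⟩ := hgood
  refine ⟨H.filter fun K => restr K a ∈ S₁, H.filter fun K => restr K a ∈ S₂, i₀, ?_, Finset.filter_subset _ _, ?_, hi₀,
    ?_, ?_, ?_⟩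
  · intro K hK
    rw [Finset.mem_filter] at hK ⊢
    exact ⟨hK.1, h12 hK.2⟩
  · refine le_trans ?_ hcard
    apply Finset.card_le_card_of_injOn (fun K => restr K a)
    · intro K hK
      rw [Finset.mem_coe, Finset.mem_sdiff, Finset.mem_filter, Finset.mem_filter] at hK
      rw [Finset.mem_coe, Finset.mem_sdiff]
      exact ⟨hK.1.2, fun h => hK.2 ⟨hK.1.1, h⟩⟩
    · intro K _ K' _ h
      exact restr_inj h
  · intro K hK hi
    exact Finset.mem_filter.2 ⟨hK, hfull K hK hi⟩
  · intro i hi
    by_contra hcon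
    push Not at hcon
    apply hbad
    refine ⟨i, hi, fun K hK hiK => ?_⟩
    exact (Finset.mem_filter.1 (hcon K hK hiK)).2
  · rw [← hSa S₁ (h12.trans h2S)]
    exact hy0

omit [Fintype A] in
theorem agree_f {F : Type} [Field F] {H : Finset (Finset V)} {W : Finset V} {o : A} {T : Set (Finset V → V → A → Fˣ)}
    (hT : Sep H W o T) {U U' : Finset (Finset V)} (hU : U ⊆ H) (hU' : U' ⊆ H) (a a' : V → A)
    (h : ∀ t ∈ T, wt t U a = wt t U' a') (hnf : ∀ i, a i ≠ o → ∃ K ∈ H, i ∈ K ∧ K ∉ U) (i : V) (hiW : i ∈ W)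
    (hi : a i ≠ o) (hi' : i ∉ unt o a U) :
    a' i = a i ∧ ((∀ K ∈ H, i ∈ K → (K ∈ U ↔ K ∈ U')) ∨ (∀ K ∈ H, i ∈ K → (K ∈ U ↔ K ∉ U'))) := by
  have h1 := hT.2 U hU U' hU' a a' h i hiW (a i) hi
  obtain ⟨K', hK'H, hiK', hK'⟩ := hnf i hi
  obtain ⟨K, hK, hiK⟩ : ∃ K ∈ U, i ∈ K := by
    by_contra hcon
    push Not at hcon
    exact hi' (Finset.mem_filter.2 ⟨Finset.mem_univ _, hi, hcon⟩)
  have hai : a' i = a i := by
    by_contra hcon
    have h2 := (h1 K (hU hK) hiK K' hK'H hiK').2 (by simp [ex, hcon])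
    simp [ex, hK, hK'] at h2
  refine ⟨hai, ?_⟩
  have h3 : ∀ K₁ ∈ H, i ∈ K₁ → ((K₁ ∈ U ↔ K ∈ U) ↔ (K₁ ∈ U' ↔ K ∈ U')) := by
    intro K₁ hK₁ hiK₁
    have h4 := h1 K₁ hK₁ hiK₁ K (hU hK) hiK
    by_cases h5 : K₁ ∈ U <;> by_cases h6 : K₁ ∈ U' <;> by_cases h7 : K ∈ U' <;> simp_all [ex]
  by_cases h7 : K ∈ U'
  · left
    intro K₁ hK₁ hiK₁
    have h4 := h3 K₁ hK₁ hiK₁
    tauto
  · right
    intro K₁ hK₁ hiK₁
    have h4 := h3 K₁ hK₁ hiK₁
    tauto

/-- the number of different characters is at most the size of the matrix -/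
theorem card_chars {F : Type} [Field F] {ι : Type*} [Fintype ι] [DecidableEq ι] {T : Set (Finset V → V → A → Fˣ)}
    {y : Finset (V → Option A) → ι → F}
    (hy : ∀ t ∈ T, ∃ (D : Matrix ι ι F) (μ : F), μ ≠ 0 ∧ ∀ (U : Finset (Finset V)) (a : V → A),
        D.mulVec (y (U.image fun K => restr K a)) = (μ * ((wt t U a : Fˣ) : F)) • y (U.image fun K => restr K a))
    (U : (V → A) → Finset (Finset V)) (G : Finset (V → A))
    (hG : ∀ a ∈ G, y ((U a).image fun K => restr K a) ≠ 0) :
    ∃ (f : (V → A) → ℕ) (R : Finset ℕ), R.card ≤ Fintype.card ι ∧ (∀ a ∈ G, f a ∈ R) ∧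
      ∀ a ∈ G, ∀ a' ∈ G, f a = f a' → ∀ t ∈ T, wt t (U a) a = wt t (U a') a' := by
  classical
  set e := Fintype.equivFin (V → A)
  -- the equivalence relation
  set s : Setoid (V → A) := ⟨fun a a' => ∀ t ∈ T, wt t (U a) a = wt t (U a') a',
    ⟨fun _ _ _ => rfl, fun h t ht => (h t ht).symm, fun h h' t ht => (h t ht).trans (h' t ht)⟩⟩ with hs
  set rep : (V → A) → (V → A) := fun a => (Quotient.mk s a).out with hrep
  have hrel : ∀ a, ∀ t ∈ T, wt t (U (rep a)) (rep a) = wt t (U a) a := fun a => Quotient.mk_out a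
  have hG' : ∀ a ∈ G, ∃ b ∈ G, (e b).val = (e b).val ∧ (∀ t ∈ T, wt t (U b) b = wt t (U a) a) ∧
      ∀ c ∈ G, (∀ t ∈ T, wt t (U c) c = wt t (U a) a) → (e b).val ≤ (e c).val := by
    intro a ha
    have hne : (G.filter fun c => ∀ t ∈ T, wt t (U c) c = wt t (U a) a).Nonempty :=
      ⟨a, Finset.mem_filter.2 ⟨ha, fun _ _ => rfl⟩⟩
    obtain ⟨b, hb, hmin⟩ := Finset.exists_min_image _ (fun c => (e c).val) hne
    rw [Finset.mem_filter] at hb
    exact ⟨b, hb.1, rfl, hb.2, fun c hc hct => hmin c (Finset.mem_filter.2 ⟨hc, hct⟩)⟩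
  choose! b hb1 _ hb2 hb3 using hG'
  have hbeq : ∀ a ∈ G, ∀ a' ∈ G, (∀ t ∈ T, wt t (U a) a = wt t (U a') a') → b a = b a' := by
    intro a ha a' ha' h
    have h1 := hb3 a ha (b a') (hb1 a' ha') (fun t ht => (hb2 a' ha' t ht).trans (h t ht).symm)
    have h2 := hb3 a' ha' (b a) (hb1 a ha) (fun t ht => (hb2 a ha t ht).trans (h t ht))
    exact e.injective (Fin.ext (le_antisymm h1 h2))
  refine ⟨fun a => (e (b a)).val, (G.image b).image fun c => (e c).val, ?_, ?_, ?_⟩
  · refine Finset.card_image_le.trans ?_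
    refine card_of_joint (G.image b) (fun c => y ((U c).image fun K => restr K c)) ?_ ?_
    · intro c hc
      obtain ⟨a, ha, rfl⟩ := Finset.mem_image.1 hc
      exact hG _ (hb1 a ha)
    · intro c hc c' hc' hne
      obtain ⟨a, ha, rfl⟩ := Finset.mem_image.1 hc
      obtain ⟨a', ha', rfl⟩ := Finset.mem_image.1 hc'
      obtain ⟨t, ht, hwt⟩ : ∃ t ∈ T, wt t (U (b a)) (b a) ≠ wt t (U (b a')) (b a') := by
        by_contra hcon
        push Not at hcon
        apply hne
        exact hbeq a ha a' ha' fun t ht => (hb2 a ha t ht).symm.trans ((hcon t ht).trans (hb2 a' ha' t ht))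
      obtain ⟨D, μ, hμ, hD⟩ := hy t ht
      refine ⟨D, fun c => μ * ((wt t (U c) c : Fˣ) : F), fun r _ => hD _ _, ?_⟩
      intro h
      exact hwt (Units.ext (mul_left_cancel₀ hμ h))
  · intro a ha
    exact Finset.mem_image_of_mem _ (Finset.mem_image_of_mem _ ha)
  · intro a ha a' ha' h t ht
    have h1 : b a = b a' := e.injective (Fin.ext h)
    rw [← hb2 a ha t ht, h1, hb2 a' ha' t ht]

/-- the assignments with support in `W` -/
def supp (W : Finset V) (o : A) : Finset (V → A) := univ.filter fun a => ∀ i, a i ≠ o → i ∈ W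

theorem count_of_inj_f {W K₀ : Finset V} (hKW : K₀ ⊆ W) {m : ℕ} (o : A) {R : Finset ℕ} (hR : R.card ≤ m) {Y : Type}
    [DecidableEq Y] (Q : Finset Y) (f : (V → A) → ℕ) (g : (V → A) → Y)
    (hf : ∀ a : V → A, (∀ i, a i ≠ o → i ∈ W) → (∃ i ∈ K₀, a i ≠ o) → f a ∈ R ∧ g a ∈ Q)
    (hinj : ∀ a a' : V → A, (∀ i, a i ≠ o → i ∈ W) → (∀ i, a' i ≠ o → i ∈ W) → (∃ i ∈ K₀, a i ≠ o) →
      (∃ i ∈ K₀, a' i ≠ o) → f a = f a' → g a = g a' → a = a') :
    Fintype.card A ^ W.card ≤ m * Q.card + Fintype.card A ^ (W.card - K₀.card) := by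
  classical
  have h1 : ((supp W o).filter fun a : V → A => ∃ i ∈ K₀, a i ≠ o).card ≤ (R ×ˢ Q).card := by
    apply Finset.card_le_card_of_injOn (fun a => (f a, g a))
    · intro a ha
      rw [Finset.mem_coe, Finset.mem_filter, supp, Finset.mem_filter] at ha
      rw [Finset.mem_coe, Finset.mem_product]
      exact hf a ha.1.2 ha.2
    · intro a ha a' ha' h
      rw [Finset.mem_coe, Finset.mem_filter, supp, Finset.mem_filter] at ha ha'
      exact hinj a a' ha.1.2 ha'.1.2 ha.2 ha'.2 (congrArg Prod.fst h) (congrArg Prod.snd h)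
  rw [Finset.card_product] at h1
  have h2 := Finset.card_filter_add_card_filter_not (s := supp W o) (fun a : V → A => ∃ i ∈ K₀, a i ≠ o)
  have hWn : W.card ≤ Fintype.card V := by
    rw [← Finset.card_univ]
    exact Finset.card_le_card (Finset.subset_univ _)
  have h3 : (supp W o).filter (fun a : V → A => ¬ ∃ i ∈ K₀, a i ≠ o) =
      univ.filter fun a : V → A => ∀ i ∈ Wᶜ ∪ K₀, a i = o := by
    ext a
    rw [supp, Finset.mem_filter, Finset.mem_filter, Finset.mem_filter]
    constructor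
    · rintro ⟨⟨-, h⟩, h'⟩
      push Not at h'
      refine ⟨Finset.mem_univ _, fun i hi => ?_⟩
      rcases Finset.mem_union.1 hi with hi | hi
      · by_contra hcon
        exact (Finset.mem_compl.1 hi) (h i hcon)
      · exact h' i hi
    · rintro ⟨-, h⟩
      refine ⟨⟨Finset.mem_univ _, fun i hi => ?_⟩, ?_⟩
      · by_contra hcon
        exact hi (h i (Finset.mem_union_left _ (Finset.mem_compl.2 hcon)))
      · push Not
        exact fun i hi => h i (Finset.mem_union_right _ hi)
  have h4 : supp W o = univ.filter fun a : V → A => ∀ i ∈ Wᶜ, a i = o := by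
    ext a
    rw [supp, Finset.mem_filter, Finset.mem_filter]
    constructor
    · rintro ⟨-, h⟩
      refine ⟨Finset.mem_univ _, fun i hi => ?_⟩
      by_contra hcon
      exact (Finset.mem_compl.1 hi) (h i hcon)
    · rintro ⟨-, h⟩
      refine ⟨Finset.mem_univ _, fun i hi => ?_⟩
      by_contra hcon
      exact hi (h i (Finset.mem_compl.2 hcon))
  have h5 : (supp W o).card = Fintype.card A ^ W.card := by
    rw [h4, card_const, Finset.card_compl]
    congr 1
    omega
  have h6 : (Wᶜ ∪ K₀).card = Fintype.card V - W.card + K₀.card := by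
    rw [Finset.card_union_of_disjoint, Finset.card_compl]
    rw [Finset.disjoint_left]
    intro i hi hi'
    exact (Finset.mem_compl.1 hi) (hKW hi')
  have hKWc := Finset.card_le_card hKW
  rw [h3, card_const, h5, h6] at h2
  have h7 : Fintype.card V - (Fintype.card V - W.card + K₀.card) = W.card - K₀.card := by omega
  rw [h7] at h2
  have h8 : R.card * Q.card ≤ m * Q.card := Nat.mul_le_mul_right _ hR
  omega

/-- the assignments with support in `W` which differ from `o` at at most `r` places -/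
def ballW (W : Finset V) (o : A) (r : ℕ) : Finset (V → A) :=
  univ.filter fun p => (univ.filter fun i => p i ≠ o) ⊆ W ∧ (univ.filter fun i => p i ≠ o).card ≤ r

/-- entries of degree at most `d` -/
theorem det_lower_f {F : Type} [Field F] {ι : Type*} [Fintype ι] [DecidableEq ι] {k d r : ℕ} (hk : 2 ≤ k)
    (hkn : k < Fintype.card V) (hr : r + 2 ≤ Fintype.card V)
    (hd : (k - 1) * d < (r + 1) * (Fintype.card V - 2).choose (k - 2)) {W : Finset V} (hW : k ≤ W.card) (o : A)
    {T : Set (Finset V → V → A → Fˣ)} (hT : Sep (scopes V k) W o T)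
    {M : Matrix ι ι (MvPolynomial (V → Option A) F)} (hdeg : ∀ i j, (M i j).totalDegree ≤ d)
    (hdet : M.det = Z F A (scopes V k)) (hEq : ∀ t ∈ T, Strict (gauge t) M) :
    Fintype.card A ^ W.card ≤ Fintype.card ι * (ballW W o r).card + Fintype.card A ^ (W.card - k) := by
  classical
  obtain ⟨K₀, hK₀W, hK₀c⟩ := Finset.exists_subset_card_eq hW
  have hK₀ : K₀ ∈ scopes V k := mem_scopes.2 hK₀c
  obtain ⟨y, hy, hstep⟩ := exists_step_f (scopes_pair hk hkn.le) o hK₀ hT hdeg hdet hEq
  have : Nonempty V := Fintype.card_pos_iff.1 (by omega)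
  choose! U U₂ i₀ h1 h2 h3 h4 h5 h6 h7 using hstep
  obtain ⟨f, R, hR, hfR, hfe⟩ := card_chars hy U
    (univ.filter fun a : V → A => (∀ i, a i ≠ o → i ∈ W) ∧ ∃ i ∈ K₀, a i ≠ o) (fun a ha => by
      rw [Finset.mem_filter] at ha
      exact h7 a ha.2.1 ha.2.2)
  have hmem : ∀ a : V → A, (∀ i, a i ≠ o → i ∈ W) → (∃ i ∈ K₀, a i ≠ o) →
      a ∈ univ.filter fun a : V → A => (∀ i, a i ≠ o → i ∈ W) ∧ ∃ i ∈ K₀, a i ≠ o := fun a h h' =>
    Finset.mem_filter.2 ⟨Finset.mem_univ _, h, h'⟩
  rw [← hK₀c]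
  refine count_of_inj_f hK₀W o hR (ballW W o r) f (fun a i => if i ∈ unt o a (U a) then a i else o) ?_ ?_
  · intro a haW ha
    have hun := (unt_card hk hkn hr hd o a (h2 a haW ha) (h3 a haW ha) (h5 a haW ha)).2
    refine ⟨hfR a (hmem a haW ha), ?_⟩
    rw [ballW, Finset.mem_filter]
    have hsub : (univ.filter fun i => (if i ∈ unt o a (U a) then a i else o) ≠ o) ⊆ unt o a (U a) := by
      intro i hi
      rw [Finset.mem_filter] at hi
      by_contra hcon
      exact hi.2 (if_neg hcon)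
    refine ⟨Finset.mem_univ _, ?_, le_trans (Finset.card_le_card hsub) hun⟩
    intro i hi
    exact haW i (Finset.mem_filter.1 (hsub hi)).2.1
  · intro a a' haW haW' ha ha' hf hgg
    have hw := hfe a (hmem a haW ha) a' (hmem a' haW' ha') hf
    have hA := agree_f hT ((h1 a haW ha).trans (h2 a haW ha)) ((h1 a' haW' ha').trans (h2 a' haW' ha')) a a' hw
      (h6 a haW ha)
    have hA' := agree_f hT ((h1 a' haW' ha').trans (h2 a' haW' ha')) ((h1 a haW ha).trans (h2 a haW ha)) a' a
      (fun t ht => (hw t ht).symm) (h6 a' haW' ha')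
    have key : ∀ i, a i ≠ o → a' i = a i := by
      intro i hi
      by_cases hu : i ∈ unt o a (U a)
      · have h8 := congrFun hgg i
        simp only [if_pos hu] at h8
        by_cases hu' : i ∈ unt o a' (U a')
        · rw [if_pos hu'] at h8
          exact h8.symm
        · rw [if_neg hu'] at h8
          exact absurd h8 hi
      · exact (hA i (haW i hi) hi hu).1
    have key' : ∀ i, a' i ≠ o → a i = a' i := by
      intro i hi
      by_cases hu : i ∈ unt o a' (U a')
      · have h8 := congrFun hgg i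
        simp only [if_pos hu] at h8
        by_cases hu' : i ∈ unt o a (U a)
        · rw [if_pos hu'] at h8
          exact h8
        · rw [if_neg hu'] at h8
          exact absurd h8.symm hi
      · exact (hA' i (haW' i hi) hi hu).1
    funext i
    by_cases hi : a i = o
    · by_cases hi' : a' i = o
      · rw [hi, hi']
      · exact key' i hi'
    · exact (key i hi).symm

/-- entries of degree at most one, scopes with two elements -/
theorem det_lower_two_f {F : Type} [Field F] {ι : Type*} [Fintype ι] [DecidableEq ι]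
    (hn : 4 ≤ Fintype.card V) {W : Finset V} (hW : 2 ≤ W.card) (o : A)
    {T : Set (Finset V → V → A → Fˣ)} (hT : Sep (scopes V 2) W o T)
    {M : Matrix ι ι (MvPolynomial (V → Option A) F)} (hdeg : ∀ i j, (M i j).totalDegree ≤ 1)
    (hdet : M.det = Z F A (scopes V 2)) (hEq : ∀ t ∈ T, Strict (gauge t) M) :
    Fintype.card A ^ W.card ≤ Fintype.card ι * Fintype.card A + Fintype.card A ^ (W.card - 2) := by
  classical
  obtain ⟨K₀, hK₀W, hK₀c⟩ := Finset.exists_subset_card_eq hW
  have hK₀ : K₀ ∈ scopes V 2 := mem_scopes.2 hK₀c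
  obtain ⟨y, hy, hstep⟩ := exists_step_f (scopes_pair le_rfl (by omega)) o hK₀ hT hdeg hdet hEq
  have : Nonempty V := Fintype.card_pos_iff.1 (by omega)
  choose! U U₂ i₀ h1 h2 h3 h4 h5 h6 h7 using hstep
  obtain ⟨f, R, hR, hfR, hfe⟩ := card_chars hy U
    (univ.filter fun a : V → A => (∀ i, a i ≠ o → i ∈ W) ∧ ∃ i ∈ K₀, a i ≠ o) (fun a ha => by
      rw [Finset.mem_filter] at ha
      exact h7 a ha.2.1 ha.2.2)
  have hmem : ∀ a : V → A, (∀ i, a i ≠ o → i ∈ W) → (∃ i ∈ K₀, a i ≠ o) →
      a ∈ univ.filter fun a : V → A => (∀ i, a i ≠ o → i ∈ W) ∧ ∃ i ∈ K₀, a i ≠ o := fun a h h' =>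
    Finset.mem_filter.2 ⟨Finset.mem_univ _, h, h'⟩
  have hun : ∀ a : V → A, (∀ i, a i ≠ o → i ∈ W) → (∃ i ∈ K₀, a i ≠ o) →
      i₀ a ∉ unt o a (U a) ∧ (unt o a (U a)).card ≤ 1 := fun a haW ha =>
    unt_card (r := 1) (d := 1) le_rfl (by omega) (by omega) (by simp) o a (h2 a haW ha) (h3 a haW ha) (h5 a haW ha)
  rw [← hK₀c, ← Finset.card_univ (α := A)]
  have h8 := count_of_inj_f hK₀W o hR (univ : Finset A) f
    (fun a => if h : (unt o a (U a)).Nonempty then a h.choose else o)
    (fun a haW ha => ⟨hfR a (hmem a haW ha), Finset.mem_univ _⟩) ?_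
  · exact h8
  intro a a' haW haW' ha ha' hf hgg
  have hw := hfe a (hmem a haW ha) a' (hmem a' haW' ha') hf
  have hUH := (h1 a haW ha).trans (h2 a haW ha)
  have hUH' := (h1 a' haW' ha').trans (h2 a' haW' ha')
  have hA := agree_f hT hUH hUH' a a' hw (h6 a haW ha)
  have hA' := agree_f hT hUH' hUH a' a (fun t ht => (hw t ht).symm) (h6 a' haW' ha')
  have hval : ∀ b : V → A, (h : (unt o b (U b)).Nonempty) → ∀ j ∈ unt o b (U b), (∀ i, b i ≠ o → i ∈ W) →
      (∃ i ∈ K₀, b i ≠ o) → (if h : (unt o b (U b)).Nonempty then b h.choose else o) = b j := by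
    intro b h j hj hbW hb
    rw [dif_pos h]
    congr 1
    exact Finset.card_le_one.1 (hun b hbW hb).2 _ h.choose_spec _ hj
  have hpair : ∀ x z : V, x ≠ z → ({x, z} : Finset V) ∈ scopes V 2 := by
    intro x z hx
    rw [mem_scopes, Finset.card_pair hx]
  -- the only scope which contains `i₀` and is not in `U`
  have hmiss : ∀ b : V → A, (∀ i, b i ≠ o → i ∈ W) → (∃ i ∈ K₀, b i ≠ o) → ∀ j ∈ unt o b (U b),
      j ≠ i₀ b ∧ ∀ K ∈ scopes V 2, i₀ b ∈ K → (K ∈ U b ↔ K ≠ {i₀ b, j}) := by
    intro b hbW hb j hj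
    have hj1 := Finset.mem_filter.1 hj
    have hne : j ≠ i₀ b := by
      rintro rfl
      exact (hun b hbW hb).1 hj
    refine ⟨hne, fun K hK hiK => ⟨?_, ?_⟩⟩
    · rintro hKU rfl
      exact hj1.2.2 _ hKU (by simp)
    · intro hKne
      by_contra hcon
      have e1 : ({i₀ b, j} : Finset V) ∈ U₂ b \ U b := by
        rw [Finset.mem_sdiff]
        exact ⟨h5 b hbW hb _ (hpair _ _ (Ne.symm hne)) (by simp), fun h => hj1.2.2 _ h (by simp)⟩
      have e2 : K ∈ U₂ b \ U b := by
        rw [Finset.mem_sdiff]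
        exact ⟨h5 b hbW hb _ hK hiK, hcon⟩
      exact hKne (Finset.card_le_one.1 (h3 b hbW hb) _ e2 _ e1)
  have hsame : ∀ j ∈ unt o a (U a), ∀ j' ∈ unt o a' (U a'), j = j' := by
    intro j hj j' hj'
    have hj1 := Finset.mem_filter.1 hj
    have hj1' := Finset.mem_filter.1 hj'
    obtain ⟨hne, hms⟩ := hmiss a haW ha j hj
    obtain ⟨hne', hms'⟩ := hmiss a' haW' ha' j' hj'
    have hi₀ := (hun a haW ha).1
    have hi₀' := (hun a' haW' ha').1
    have hiW := haW _ (h4 a haW ha)
    rcases (hA (i₀ a) hiW (h4 a haW ha) hi₀).2 with hag | hag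
    · -- the same scopes
      have hjj : j' ≠ i₀ a := by
        intro h
        -- a scope at `i₀ a` in `U a`, so in `U a'`
        obtain ⟨x, hx⟩ : ∃ x, x ∉ ({i₀ a, j} : Finset V) := by
          by_contra hcon
          push Not at hcon
          have h9 : (univ : Finset V) ⊆ {i₀ a, j} := fun x _ => hcon x
          have h10 := Finset.card_le_card h9
          rw [Finset.card_univ] at h10
          have := Finset.card_le_two (a := i₀ a) (b := j)
          omega
        simp only [Finset.mem_insert, Finset.mem_singleton, not_or] at hx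
        have h9 : ({i₀ a, x} : Finset V) ∈ U a := (hms _ (hpair _ _ (Ne.symm hx.1)) (by simp)).2 (by
          intro h10
          have h11 : x ∈ ({i₀ a, j} : Finset V) := by rw [← h10]; simp
          simp only [Finset.mem_insert, Finset.mem_singleton] at h11
          tauto)
        have h10 := (hag _ (hpair _ _ (Ne.symm hx.1)) (by simp)).1 h9
        exact hj1'.2.2 _ h10 (by rw [h]; simp)
      have h9 : ({i₀ a, j'} : Finset V) ∉ U a := by
        intro h
        exact hj1'.2.2 _ ((hag _ (hpair _ _ (Ne.symm hjj)) (by simp)).1 h) (by simp)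
      have h10 : ({i₀ a, j'} : Finset V) = {i₀ a, j} := by
        by_contra hcon
        exact h9 ((hms _ (hpair _ _ (Ne.symm hjj)) (by simp)).2 hcon)
      have h11 : j ∈ ({i₀ a, j'} : Finset V) := by rw [h10]; simp
      simp only [Finset.mem_insert, Finset.mem_singleton] at h11
      exact h11.resolve_left hne
    · -- complementary sets of scopes
      exfalso
      have hin : ({i₀ a, j} : Finset V) ∈ U a' := by
        by_contra hcon
        have h9 := (hag _ (hpair _ _ (Ne.symm hne)) (by simp)).2 hcon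
        exact (hms _ (hpair _ _ (Ne.symm hne)) (by simp)).1 h9 rfl
      have honly : ∀ K ∈ scopes V 2, i₀ a ∈ K → K ∈ U a' → K = {i₀ a, j} := by
        intro K hK hiK hKU
        by_contra hcon
        exact (hag K hK hiK).1 ((hms K hK hiK).2 hcon) hKU
      have hji : j' ≠ i₀ a := by
        intro h
        exact hj1'.2.2 _ hin (by rw [h]; simp)
      have hii : i₀ a' ≠ i₀ a := by
        intro h
        -- two scopes at `i₀ a'` in `U a'`
        obtain ⟨x, hx⟩ : ∃ x, x ∉ ({i₀ a, j, j'} : Finset V) := by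
          by_contra hcon
          push Not at hcon
          have h9 : (univ : Finset V) ⊆ {i₀ a, j, j'} := fun x _ => hcon x
          have h10 := Finset.card_le_card h9
          rw [Finset.card_univ] at h10
          have := Finset.card_le_three (a := i₀ a) (b := j) (c := j')
          omega
        simp only [Finset.mem_insert, Finset.mem_singleton, not_or] at hx
        have h9 : ({i₀ a, x} : Finset V) ∈ U a' := by
          have h10 := hms' {i₀ a', x} (hpair _ _ (by rw [h]; exact Ne.symm hx.1)) (by simp)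
          rw [h] at h10
          refine h10.2 ?_
          intro h11
          have h12 : x ∈ ({i₀ a, j'} : Finset V) := by rw [← h11]; simp
          simp only [Finset.mem_insert, Finset.mem_singleton] at h12
          tauto
        have h10 := honly _ (hpair _ _ (Ne.symm hx.1)) (by simp) h9
        have h11 : x ∈ ({i₀ a, j} : Finset V) := by rw [← h10]; simp
        simp only [Finset.mem_insert, Finset.mem_singleton] at h11
        tauto
      have h9 : ({i₀ a', i₀ a} : Finset V) ∈ U a' := by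
        refine (hms' _ (hpair _ _ hii) (by simp)).2 ?_
        intro h11
        have h12 : i₀ a ∈ ({i₀ a', j'} : Finset V) := by rw [← h11]; simp
        simp only [Finset.mem_insert, Finset.mem_singleton] at h12
        rcases h12 with h12 | h12
        · exact hii h12.symm
        · exact hji h12.symm
      have h10 := honly _ (hpair _ _ hii) (by simp) h9
      have h11 : i₀ a' = j := by
        have h12 : i₀ a' ∈ ({i₀ a, j} : Finset V) := by rw [← h10]; simp
        simp only [Finset.mem_insert, Finset.mem_singleton] at h12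
        exact h12.resolve_left hii
      -- `j` is untouched in `U a` and neither untouched nor full in `U a'`
      have h12 := hA' (i₀ a') (haW' _ (h4 a' haW' ha')) (h4 a' haW' ha') hi₀'
      have h13 := h12.1
      obtain ⟨K₁, hK₁H, hK₁i, hK₁⟩ := h6 a' haW' ha' (i₀ a') (h4 a' haW' ha')
      rcases h12.2 with h14 | h14
      · have h15 := (h14 _ (hpair _ _ hii) (by simp)).1 h9
        exact hj1.2.2 _ h15 (by rw [h11]; simp)
      · have h15 : K₁ ∈ U a := by
          by_contra hcon
          exact hK₁ ((h14 K₁ hK₁H hK₁i).2 hcon)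
        exact hj1.2.2 _ h15 (by rw [← h11]; exact hK₁i)
  have key : ∀ i, a i ≠ o → a' i = a i := by
    intro i hi
    by_cases hu : i ∈ unt o a (U a)
    · have h9 := hval a ⟨i, hu⟩ i hu haW ha
      have h10 := hgg
      rw [h9] at h10
      by_cases hne : (unt o a' (U a')).Nonempty
      · obtain ⟨j', hj'⟩ := hne
        rw [hval a' ⟨j', hj'⟩ j' hj' haW' ha', ← hsame i hu j' hj'] at h10
        exact h10.symm
      · rw [dif_neg hne] at h10
        exact absurd h10 hi
    · exact (hA i (haW i hi) hi hu).1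
  have key' : ∀ i, a' i ≠ o → a i = a' i := by
    intro i hi
    by_cases hu : i ∈ unt o a' (U a')
    · have h9 := hval a' ⟨i, hu⟩ i hu haW' ha'
      have h10 := hgg
      rw [h9] at h10
      by_cases hne : (unt o a (U a)).Nonempty
      · obtain ⟨j, hj⟩ := hne
        rw [hval a ⟨j, hj⟩ j hj haW ha, hsame j hj i hu] at h10
        exact h10
      · rw [dif_neg hne] at h10
        exact absurd h10.symm hi
    · exact (hA' i (haW' i hi) hi hu).1
  funext i
  by_cases hi : a i = o
  · by_cases hi' : a' i = o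
    · rw [hi, hi']
    · exact key' i hi'
  · exact (key i hi).symm

end Pool.Agent.HS38.GT
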