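import Pool.Agent.HS38.GT.PermC

/-!
# Gauge homogeneous circuits over arbitrary fields
-/

set_option autoImplicit false

namespace Pool.Agent.HS38.GT

open MvPolynomial Finset Pool.Agent.Helper1x.EQ Pool.Agent.H20VP

namespace FinF

/-- change of the constants in a gate label -/
def mapGate {F K X N : Type} (g : F → K) : Gate F X N → Gate K X N
  | .var x => .var x
  | .const c => .const (g c)
  | .add l => .add l
  | .mul a b => .mul a b

theorem preds_map {F K X N : Type} (g : F → K) (γ : Gate F X N) : (mapGate g γ).preds = γ.preds := by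
  cases γ <;> rfl

theorem mul_map {F K X N : Type} (g : F → K) (γ : Gate F X N) (a b : N) : mapGate g γ = .mul a b ↔ γ = .mul a b := by
  cases γ <;> simp [mapGate]

/-- change of the field of a circuit -/
def mapC {F K X : Type} (g : F → K) (Q : Circuit F X) : Circuit K X where
  N := Q.N
  fin := Q.fin
  gate n := mapGate g (Q.gate n)
  out := Q.out
  acyclic n := by
    simp only [preds_map]
    exact Q.acyclic n
  sink n := by
    simp only [preds_map]
    exact Q.sink n

theorem edge_map {F K X : Type} (g : F → K) (Q : Circuit F X) : (mapC g Q).Edge = Q.Edge := by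
  funext a b
  show (a ∈ (mapGate g (Q.gate b)).preds) = (a ∈ (Q.gate b).preds)
  rw [preds_map]

theorem ws_map {F K X : Type} (g : F → K) {Q : Circuit F X} (h : Q.WeaklySkew) : (mapC g Q).WeaklySkew := by
  intro n a b hab
  have h1 : Q.gate n = .mul a b := (mul_map g (Q.gate n) a b).1 hab
  have h2 : ∀ x y z, Q.Cut x y z → (mapC g Q).Cut x y z := by
    intro x y z hxyz
    unfold Circuit.Cut Circuit.Below at hxyz ⊢
    rw [edge_map]
    exact hxyz
  exact (h n a b h1).imp (h2 _ _ _) (h2 _ _ _)

theorem muls_map {F K X : Type} (g : F → K) (Q : Circuit F X) : muls (mapC g Q) = muls Q := by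
  unfold muls
  refine Nat.card_congr (Equiv.subtypeEquivRight fun n => ?_)
  exact exists_congr fun a => exists_congr fun b => mul_map g (Q.gate n) a b

theorem value_map {F K X N : Type} [Field F] [Field K] (g : F →+* K) (φ : N → MvPolynomial X F) (γ : Gate F X N) :
    (mapGate g γ).value (fun n => MvPolynomial.map g (φ n)) = MvPolynomial.map g (γ.value φ) := by
  cases γ with
  | var x => simp [mapGate, Gate.value]
  | const c => simp [mapGate, Gate.value]
  | add l =>
    simp only [mapGate, Gate.value]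
    rw [map_list_sum, List.map_map]
    rfl
  | mul a b => simp [mapGate, Gate.value]

end FinF

section

variable {F V A : Type} [Field F] [Fintype V] [DecidableEq V] [Fintype A] [DecidableEq A] {H : Finset (Finset V)}

/-- homogeneous polynomials are eigenvectors of gauge substitutions -/
theorem eig_of_hom {t : Finset V → V → A → Fˣ} (ht : IsGauge H t) (ht1 : ∀ K i α, K ∉ GenAux.S H i → t K i α = 1)
    {p : MvPolynomial (V → Option A) F} (hp : Hom H p) : Eig (HS38.GT.gauge t) p := by
  apply PermC.eig_of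
  intro u hu u' hu'
  rw [GEN2x.prod_gauge H t ht1, GEN2x.prod_gauge H t ht1]
  congr 1
  have h1 : (∏ K ∈ H, ∏ i ∈ K, ∏ α : A, t K i α ^ ((cnt K i α u : ℕ) : ℤ)) *
      (∏ K ∈ H, ∏ i ∈ K, ∏ α : A, t K i α ^ ((cnt K i α u' : ℕ) : ℤ))⁻¹ = 1 := by
    rw [← Finset.prod_inv_distrib, ← Finset.prod_mul_distrib]
    have h2 : ∀ K ∈ H, (∏ i ∈ K, ∏ α : A, t K i α ^ ((cnt K i α u : ℕ) : ℤ)) *
        (∏ i ∈ K, ∏ α : A, t K i α ^ ((cnt K i α u' : ℕ) : ℤ))⁻¹ =
        ∏ i ∈ K, ∏ α : A, t K i α ^ (((cnt K i α u : ℕ) : ℤ) - cnt K i α u') := by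
      intro K _
      rw [← Finset.prod_inv_distrib, ← Finset.prod_mul_distrib]
      refine Finset.prod_congr rfl fun i _ => ?_
      rw [← Finset.prod_inv_distrib, ← Finset.prod_mul_distrib]
      refine Finset.prod_congr rfl fun α _ => ?_
      rw [_root_.zpow_sub]
    rw [Finset.prod_congr rfl h2, GenAux.prod_swap]
    refine Finset.prod_eq_one fun i _ => ?_
    rw [Finset.prod_comm]
    refine Finset.prod_eq_one fun α _ => ?_
    rcases (GenAux.S H i).eq_empty_or_nonempty with h3 | ⟨K₀, hK₀⟩
    · rw [h3, Finset.prod_empty]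
    · have h4 := GenAux.mem_S.1 hK₀
      have h5 : ∀ K ∈ GenAux.S H i, t K i α ^ (((cnt K i α u : ℕ) : ℤ) - cnt K i α u') =
          t K i α ^ (((cnt K₀ i α u : ℕ) : ℤ) - cnt K₀ i α u') := by
        intro K hK
        have h6 := GenAux.mem_S.1 hK
        have h7 := hp u hu u' hu' i α K h6.1 h6.2 K₀ h4.1 h4.2
        congr 1
        linarith
      rw [Finset.prod_congr rfl h5, Finset.prod_zpow]
      have h8 : ∏ K ∈ GenAux.S H i, t K i α = 1 := ht i α
      rw [h8, one_zpow]
  exact mul_inv_eq_one.1 h1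

end

/-- the circuit computes `f` and the polynomials at all nodes are homogeneous for all gauge gradings -/
def GradedCircuit {F V A : Type} [Field F] [Fintype V] [DecidableEq V] [Fintype A] [DecidableEq A]
    (H : Finset (Finset V)) (Q : Circuit F (V → Option A)) (f : MvPolynomial (V → Option A) F) : Prop :=
  ∃ φ : Q.N → MvPolynomial (V → Option A) F, (∀ n, φ n = (Q.gate n).value φ) ∧ φ Q.out = f ∧ ∀ n, Hom H (φ n)

section

variable {F V A : Type} [Field F] [Fintype V] [DecidableEq V] [Fintype A] [DecidableEq A] {H : Finset (Finset V)}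

theorem exists_normal (K : Type) [Field K] [Infinite K] (A : Type) [Fintype A] [DecidableEq A] (H : Finset (Finset V)) :
    ∃ t : Finset V → V → A → Kˣ, Generic4 H t ∧ ∀ L i α, L ∉ GenAux.S H i → t L i α = 1 := by
  classical
  obtain ⟨t, ht⟩ := t_GEN4 K V A H
  have hval : ∀ L i α, L ∈ GenAux.S H i → (if L ∈ GenAux.S H i then t L i α else 1) = t L i α := fun L i α h => if_pos h
  refine ⟨fun L i α => if L ∈ GenAux.S H i then t L i α else 1, ⟨?_, ?_⟩, fun L i α h => if_neg h⟩
  · intro i α
    refine Eq.trans ?_ (ht.1 i α)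
    exact Finset.prod_congr rfl fun L hL => hval L i α (GenAux.mem_S.2 (Finset.mem_filter.1 hL))
  · intro e he h
    refine ht.2 e he ?_
    refine Eq.trans ?_ h
    refine Finset.prod_congr rfl fun L hL => Finset.prod_congr rfl fun i hi => Finset.prod_congr rfl fun α _ => ?_
    show t L i α ^ e L i α = (if L ∈ GenAux.S H i then t L i α else 1) ^ e L i α
    rw [hval L i α (GenAux.mem_S.2 ⟨hL, hi⟩)]

open FinF in
/-- a graded circuit gives a circuit with a generic symmetry over the algebraic closure -/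
theorem graded_base {Q : Circuit F (V → Option A)} {f : MvPolynomial (V → Option A) F} (h : GradedCircuit H Q f) :
    ∃ t : Finset V → V → A → (AlgebraicClosure F)ˣ, Generic4 H t ∧
      HomCircuit {HS38.GT.gauge t} (mapC (algebraMap F (AlgebraicClosure F)) Q)
        (MvPolynomial.map (algebraMap F (AlgebraicClosure F)) f) := by
  obtain ⟨φ, h1, h2, h3⟩ := h
  obtain ⟨t, ht, ht1⟩ := exists_normal (AlgebraicClosure F) A H
  refine ⟨t, ht, fun n => MvPolynomial.map (algebraMap F (AlgebraicClosure F)) (φ n), ?_, ?_, ?_⟩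
  · intro n
    have h4 := value_map (algebraMap F (AlgebraicClosure F)) φ (Q.gate n)
    rw [← h1 n] at h4
    exact h4.symm
  · show MvPolynomial.map (algebraMap F (AlgebraicClosure F)) (φ Q.out) = _
    rw [h2]
  · intro c hc n
    rw [Set.mem_singleton_iff] at hc
    rw [hc]
    refine eig_of_hom ht.1 ht1 ?_
    intro u hu u' hu'
    exact h3 n u (MvPolynomial.support_map_subset _ _ hu) u' (MvPolynomial.support_map_subset _ _ hu')

theorem contains_map {f : MvPolynomial (V → Option A) F} (hf : Contains H f) :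
    Contains H (MvPolynomial.map (algebraMap F (AlgebraicClosure F)) f) := by
  intro a h
  rw [MvPolynomial.coeff_map] at h
  exact hf a ((algebraMap F (AlgebraicClosure F)).injective (h.trans (map_zero _).symm))

open FinF in
theorem low_circuit_graded [Nonempty A] (h2 : 2 ≤ H.card) (hH : ∀ i, ∃ K ∈ H, i ∈ K)
    {f : MvPolynomial (V → Option A) F} (hf : Contains H f) {Q : Circuit F (V → Option A)} (hQ : GradedCircuit H Q f) :
    Fintype.card A ^ cwidth H ≤ muls Q := by
  obtain ⟨t, ht, h3⟩ := graded_base hQ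
  have h4 := low_circuit h2 hH (Or.inl ⟨t, ht, rfl⟩) (contains_map hf) h3
  rwa [muls_map] at h4

open FinF in
theorem low_ws_graded (hne : H.Nonempty) (hH : ∀ i, ∃ K ∈ H, i ∈ K) (h1 : CutGe H 1) (hA : 2 ≤ Fintype.card A)
    (hq : 3 ≤ Fintype.card A ∨ CutGe H 2)
    {f : MvPolynomial (V → Option A) F} (hf : Contains H f) {Q : Circuit F (V → Option A)} (hws : Q.WeaklySkew)
    (hQ : GradedCircuit H Q f) :
    Fintype.card A ^ lwidth H ≤ (Q.size + 1) ^ 2 ∧
      (constantCoeff f = 0 → Fintype.card A ^ lwidth H ≤ Q.size + 1) := by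
  obtain ⟨t, ht, h3⟩ := graded_base hQ
  have h4 := low_ws hne hH h1 hA hq ht (contains_map hf) (ws_map _ hws) h3
  refine ⟨h4.1, fun h0 => h4.2 ?_⟩
  rw [MvPolynomial.constantCoeff_map, h0, map_zero]

end

/-- the symmetric circuits for `f`: the polynomials at the nodes are homogeneous for all gauge gradings, or eigenvectors of
one generic gauge substitution, or permuted up to scalars by one free gauge substitution -/
def Symmetric {F V A : Type} [Field F] [Fintype V] [DecidableEq V] [Fintype A] [DecidableEq A] (H : Finset (Finset V))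
    (Q : Circuit F (V → Option A)) (f : MvPolynomial (V → Option A) F) : Prop :=
  GradedCircuit H Q f ∨
    (∃ t : Finset V → V → A → Fˣ, Generic4 H t ∧ HomCircuit {HS38.GT.gauge t} Q f) ∨
    ∃ t : Finset V → V → A → Fˣ, FreeGauge H t ∧ PermCircuit (HS38.GT.gauge t) Q f

section

variable {F V A : Type} [Field F] [Fintype V] [DecidableEq V] [Fintype A] [DecidableEq A] {H : Finset (Finset V)}

theorem low_circuit_sym [Nonempty A] (h2 : 2 ≤ H.card) (hH : ∀ i, ∃ K ∈ H, i ∈ K)
    {f : MvPolynomial (V → Option A) F} (hf : Contains H f) {Q : Circuit F (V → Option A)} (hQ : Symmetric H Q f) :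
    Fintype.card A ^ cwidth H ≤ muls Q := by
  rcases hQ with hQ | hQ
  · exact low_circuit_graded h2 hH hf hQ
  · obtain ⟨t, ht, h3⟩ := SymCircuit.hom hQ
    exact low_circuit h2 hH (Or.inl ⟨t, ht, rfl⟩) hf h3

theorem low_ws_sym (hne : H.Nonempty) (hH : ∀ i, ∃ K ∈ H, i ∈ K) (h1 : CutGe H 1) (hA : 2 ≤ Fintype.card A)
    (hq : 3 ≤ Fintype.card A ∨ CutGe H 2)
    {f : MvPolynomial (V → Option A) F} (hf : Contains H f) {Q : Circuit F (V → Option A)} (hws : Q.WeaklySkew)
    (hQ : Symmetric H Q f) :
    Fintype.card A ^ lwidth H ≤ (Q.size + 1) ^ 2 ∧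
      (constantCoeff f = 0 → Fintype.card A ^ lwidth H ≤ Q.size + 1) := by
  rcases hQ with hQ | hQ
  · exact low_ws_graded hne hH h1 hA hq hf hws hQ
  · obtain ⟨t, ht, h3⟩ := SymCircuit.hom hQ
    exact low_ws hne hH h1 hA hq ht hf hws h3

end

end Pool.Agent.HS38.GT
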