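import Pool.Agent.HS38.GT.Stm2

/-!
# Piece MINC of project GT: a minimal set which is not narrow is connected
-/

set_option autoImplicit false

namespace Pool.Agent.HS38.GT.MINC

open Finset Pool.Agent.HS38.GT
open scoped Classical

variable {V : Type} [Fintype V] [DecidableEq V] {H : Finset (Finset V)} {w : ℕ}

theorem sub {S : Finset V} {U : Finset (Finset V)} (h : Narrow H S w U) : U ⊆ H := by
  induction h with
  | empty _ => exact Finset.empty_subset _
  | step U K _ hK _ ih => exact Finset.insert_subset hK ih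

theorem zero (hw : 0 < w) (U : Finset (Finset V)) (hU : U ⊆ H) : Narrow H ∅ w U := by
  induction U using Finset.induction_on with
  | empty => exact Narrow.empty hw
  | insert K U _ ih =>
    refine Narrow.step U K (ih fun x hx => hU (Finset.mem_insert_of_mem hx))
      (hU (Finset.mem_insert_self K U)) ?_
    rw [Finset.inter_empty, Finset.card_empty]
    exact hw

theorem mem_cut {U : Finset (Finset V)} {i : V} :
    i ∈ cut H U ↔ (∃ K ∈ U, i ∈ K) ∧ ∃ K ∈ H, K ∉ U ∧ i ∈ K := by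
  rw [cut, Finset.mem_filter]
  constructor
  · rintro ⟨_, h, K, hK, hi⟩
    rw [Finset.mem_sdiff] at hK
    exact ⟨h, K, hK.1, hK.2, hi⟩
  · rintro ⟨h, K, hK, hKU, hi⟩
    exact ⟨Finset.mem_univ _, h, K, Finset.mem_sdiff.2 ⟨hK, hKU⟩, hi⟩

theorem partA {S' S'' : Finset V}
    (hno : ∀ K ∈ H, (∃ i ∈ S', i ∈ K) → (∃ i ∈ S'', i ∈ K) → False)
    {U : Finset (Finset V)} (h : Narrow H S' w U) :
    Narrow H (S' ∪ S'') w (U ∩ H.filter fun K => ∃ i ∈ S', i ∈ K) := by
  induction h with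
  | empty hw =>
    rw [Finset.empty_inter]
    exact Narrow.empty hw
  | step U K hU hK hc ih =>
    by_cases hKS : ∃ i ∈ S', i ∈ K
    · have hKH : K ∈ H.filter fun K => ∃ i ∈ S', i ∈ K := Finset.mem_filter.2 ⟨hK, hKS⟩
      rw [Finset.insert_inter_of_mem hKH]
      refine Narrow.step _ K ih hK (lt_of_le_of_lt (Finset.card_le_card ?_) hc)
      intro i hi
      rw [Finset.mem_inter, mem_cut] at hi
      obtain ⟨⟨⟨K0, hK0, hi0⟩, K1, hK1, hK1', hi1⟩, hS⟩ := hi
      have hK0' : K0 ∈ insert K U ∧ K0 ∈ H ∧ ∃ i ∈ S', i ∈ K0 := by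
        rcases Finset.mem_insert.1 hK0 with h1 | h1
        · rw [h1]
          exact ⟨Finset.mem_insert_self _ _, hK, hKS⟩
        · rw [Finset.mem_inter, Finset.mem_filter] at h1
          exact ⟨Finset.mem_insert_of_mem h1.1, h1.2⟩
      have hiS : i ∈ S' := by
        rcases Finset.mem_union.1 hS with h1 | h1
        · exact h1
        · exact (hno K0 hK0'.2.1 hK0'.2.2 ⟨i, h1, hi0⟩).elim
      rw [Finset.mem_inter, mem_cut]
      refine ⟨⟨⟨K0, hK0'.1, hi0⟩, K1, hK1, fun h2 => hK1' ?_, hi1⟩, hiS⟩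
      rcases Finset.mem_insert.1 h2 with h3 | h3
      · rw [h3]
        exact Finset.mem_insert_self _ _
      · exact Finset.mem_insert_of_mem (Finset.mem_inter.2 ⟨h3, Finset.mem_filter.2 ⟨hK1, i, hiS, hi1⟩⟩)
    · have hKH : K ∉ H.filter fun K => ∃ i ∈ S', i ∈ K := fun h1 => hKS (Finset.mem_filter.1 h1).2
      rw [Finset.insert_inter_of_notMem hKH]
      exact ih

theorem partB {S' S'' : Finset V}
    (hno : ∀ K ∈ H, (∃ i ∈ S', i ∈ K) → (∃ i ∈ S'', i ∈ K) → False)
    (h0 : Narrow H (S' ∪ S'') w (H.filter fun K => ∃ i ∈ S', i ∈ K))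
    {U : Finset (Finset V)} (h : Narrow H S'' w U) :
    Narrow H (S' ∪ S'') w ((H.filter fun K => ∃ i ∈ S', i ∈ K) ∪ U) := by
  induction h with
  | empty hw =>
    rw [Finset.union_empty]
    exact h0
  | step U K hU hK hc ih =>
    rw [Finset.union_insert]
    refine Narrow.step _ K ih hK (lt_of_le_of_lt (Finset.card_le_card ?_) hc)
    intro i hi
    rw [Finset.mem_inter, mem_cut] at hi
    obtain ⟨⟨⟨K0, hK0, hi0⟩, K1, hK1, hK1', hi1⟩, hS⟩ := hi
    have hiS : i ∈ S'' := by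
      rcases Finset.mem_union.1 hS with h1 | h1
      · exact (hK1' (Finset.mem_insert_of_mem (Finset.mem_union_left _
          (Finset.mem_filter.2 ⟨hK1, i, h1, hi1⟩)))).elim
      · exact h1
    rw [Finset.mem_inter, mem_cut]
    refine ⟨⟨⟨K0, ?_, hi0⟩, K1, hK1, fun h2 => hK1' ?_, hi1⟩, hiS⟩
    · rcases Finset.mem_insert.1 hK0 with h1 | h1
      · rw [h1]
        exact Finset.mem_insert_self _ _
      · rcases Finset.mem_union.1 h1 with h2 | h2
        · rw [Finset.mem_filter] at h2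
          exact (hno K0 h2.1 h2.2 ⟨i, hiS, hi0⟩).elim
        · exact Finset.mem_insert_of_mem h2
    · rcases Finset.mem_insert.1 h2 with h3 | h3
      · rw [h3]
        exact Finset.mem_insert_self _ _
      · exact Finset.mem_insert_of_mem (Finset.mem_union_right _ h3)

theorem merge {S' S'' : Finset V}
    (hno : ∀ K ∈ H, (∃ i ∈ S', i ∈ K) → (∃ i ∈ S'', i ∈ K) → False)
    (h1 : Narrow H S' w H) (h2 : Narrow H S'' w H) : Narrow H (S' ∪ S'') w H := by
  have h3 := partA hno h1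
  rw [Finset.inter_eq_right.2 (Finset.filter_subset _ _)] at h3
  have h4 := partB hno h3 h2
  rwa [Finset.union_eq_right.2 (Finset.filter_subset _ _)] at h4

end Pool.Agent.HS38.GT.MINC

namespace Pool.Agent.HS38.GT

open Finset MINC
open scoped Classical

theorem t_MINC : S_MINC := by
  intro V _ _ H S w hw hS
  obtain ⟨S₁, hS₁, hmin⟩ := Finset.exists_min_image (S.powerset.filter fun T => ¬ Narrow H T w H)
    Finset.card ⟨S, Finset.mem_filter.2 ⟨Finset.mem_powerset_self S, hS⟩⟩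
  rw [Finset.mem_filter, Finset.mem_powerset] at hS₁
  have hmin' : ∀ T ⊆ S₁, T.card < S₁.card → Narrow H T w H := by
    intro T hT hc
    by_contra h
    exact absurd (hmin T (Finset.mem_filter.2 ⟨Finset.mem_powerset.2 (hT.trans hS₁.1), h⟩)) (not_le.2 hc)
  refine ⟨S₁, hS₁.1, ?_, hS₁.2, ?_⟩
  · rw [Finset.nonempty_iff_ne_empty]
    rintro rfl
    exact hS₁.2 (zero hw H (Finset.Subset.refl _))
  · intro U hU hUn hU1 hU2 K₁ hK₁ hK₁S
    by_contra hK₁U
    obtain ⟨i₁, hi₁, hi₁K⟩ := hK₁S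
    obtain ⟨K₀, hK₀⟩ := hUn
    obtain ⟨i₀, hi₀, hi₀K⟩ := hU1 K₀ hK₀
    have h1 : Narrow H (S₁.filter fun i => ∃ K ∈ U, i ∈ K) w H := by
      apply hmin' _ (Finset.filter_subset _ _)
      apply Finset.card_lt_card
      rw [Finset.ssubset_iff_of_subset (Finset.filter_subset _ _)]
      exact ⟨i₁, hi₁, fun h => hK₁U (hU2 i₁ hi₁ (Finset.mem_filter.1 h).2 K₁ hK₁ hi₁K)⟩
    have h2 : Narrow H (S₁.filter fun i => ¬ ∃ K ∈ U, i ∈ K) w H := by
      apply hmin' _ (Finset.filter_subset _ _)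
      apply Finset.card_lt_card
      rw [Finset.ssubset_iff_of_subset (Finset.filter_subset _ _)]
      exact ⟨i₀, hi₀, fun h => (Finset.mem_filter.1 h).2 ⟨K₀, hK₀, hi₀K⟩⟩
    have h3 := merge (S' := S₁.filter fun i => ∃ K ∈ U, i ∈ K)
      (S'' := S₁.filter fun i => ¬ ∃ K ∈ U, i ∈ K) (fun K hK h4 h5 => by
        obtain ⟨i, hi, hiK⟩ := h4
        obtain ⟨j, hj, hjK⟩ := h5
        rw [Finset.mem_filter] at hi hj
        exact hj.2 ⟨K, hU2 i hi.1 hi.2 K hK hiK, hjK⟩) h1 h2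
    rw [Finset.filter_union_filter_not_eq] at h3
    exact hS₁.2 h3

end Pool.Agent.HS38.GT
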