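import Pool.Agent.HS38.GT.RegAuto
import Pool.Agent.HS38.GT.Nlist
import Pool.Agent.HS38.GT.Minc
import Pool.Agent.HS38.GT.Bin

/-!
# Sparse instances
-/

set_option autoImplicit false

namespace Pool.Agent.HS38.GT

open MvPolynomial Finset Pool.Agent.Helper1x.EQ

/-- the two kinds of symmetry: one generic gauge symmetry, or all elementary gauge symmetries with a number `s ≠ 1` for the
values different from `o` -/
def Sym {F : Type} [Field F] {V A : Type} [Fintype V] [DecidableEq V] [Fintype A] [DecidableEq A] {ι : Type} [Fintype ι]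
    [DecidableEq ι] (H : Finset (Finset V)) (M : Matrix ι ι (MvPolynomial (V → Option A) F)) : Prop :=
  (∃ t : Finset V → V → A → Fˣ, Generic4 H t ∧ Equivariant (gauge t) M) ∨
    ∃ (o : A) (s : Fˣ), s ≠ 1 ∧ ∀ i, ∀ α, α ≠ o → ∀ K ∈ H, i ∈ K → ∀ K' ∈ H, i ∈ K' →
      Strict (gauge (elem s i α K K')) M

theorem sparse (hG : S_GBAS) (hP : S_PERM) (hR : S_RET) (hC : S_CON) (hBC : S_BC) (hS : S_SP2) :
    ∀ ε : ℝ, 0 < ε → ε < 1 → ∃ C n₀ : ℕ, ∀ n : ℕ, n₀ ≤ n → ∃ H : Finset (Finset (Fin n)),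
      H.card ≤ C * n ∧ (∀ K ∈ H, K.card = 2) ∧
      ∀ (F : Type) [Field F] (ι : Type) [Fintype ι] [DecidableEq ι]
        (M : Matrix ι ι (MvPolynomial (Fin n → Option Bool) F)),
        (∀ i j, (M i j).totalDegree ≤ 1) → M.det = Z F Bool H → Sym H M →
        (2 : ℝ) ^ ((1 - ε) * n) ≤ Fintype.card ι := by
  intro ε hε hε1
  obtain ⟨ε₁, h1, h2, hbin⟩ := t_BIN ε hε hε1
  obtain ⟨C, n₀, h3⟩ := hS (min ε ε₁) (lt_min hε h1) (lt_of_le_of_lt (min_le_left _ _) hε1)
  obtain ⟨n₁, h4⟩ := hbin C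
  refine ⟨C, max n₀ (max n₁ 1), fun n hn => ?_⟩
  obtain ⟨H, hH1, hH2, hH3, hH4, hH5⟩ := h3 n ((le_max_left _ _).trans hn)
  have hn1 : 1 ≤ n := ((le_max_right _ _).trans (le_max_right _ _)).trans hn
  have hH : H.Nonempty := by
    obtain ⟨K, hK, _⟩ := hH3 ⟨0, hn1⟩
    exact ⟨K, hK⟩
  refine ⟨H, hH1, hH2, fun F _ ι _ _ M hdeg hdet hsym => ?_⟩
  rcases hsym with ⟨t, ht, hEq⟩ | ⟨o, s, hs, hEq⟩
  · have h5 := exact_lower hG hP hR hC hBC hH3 (fun U hU hUn hUne => le_trans (by norm_num) (hH4 U hU hUn hUne))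
      (Or.inr ⟨by simp, hH4⟩) ht hdeg hdet hEq hH
    rw [Fintype.card_bool] at h5
    have h6 : ((2 : ℝ) ^ ((1 - ε) * n)) ≤ (2 : ℝ) ^ ((lwidth H : ℕ) : ℝ) := by
      apply Real.rpow_le_rpow_of_exponent_le (by norm_num)
      refine le_trans ?_ hH5
      have : min ε ε₁ ≤ ε := min_le_left _ _
      have hn0 : (0 : ℝ) ≤ n := Nat.cast_nonneg n
      nlinarith
    refine h6.trans ?_
    rw [Real.rpow_natCast]
    exact_mod_cast h5
  · have hT := sep_elems (F := F) H univ o hs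
    refine h4 n (lwidth H) H.card (Fintype.card ι) (((le_max_left _ _).trans (le_max_right _ _)).trans hn) ?_ ?_ hH1 ?_
    · refine le_trans ?_ hH5
      have : min ε ε₁ ≤ ε₁ := min_le_right _ _
      have hn0 : (0 : ℝ) ≤ n := Nat.cast_nonneg n
      nlinarith
    · have := lwidth_le H
      rwa [Fintype.card_fin] at this
    · intro z hz
      have h5 := lin_lower t_NLIST t_MINC hH3 o hT hdeg hdet (by
        rintro t ⟨i, -, α, hα, K, hK, hi, K', hK', hi', rfl⟩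
        exact hEq i α hα K hK hi K' hK' hi') le_rfl hz
      rw [Fintype.card_bool, Fintype.card_fin] at h5
      simpa using h5

end Pool.Agent.HS38.GT
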