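import Pool.Agent.HS38.GT.Stm

/-!
# Project GT, common part of the pieces GEN1 and GEN2: gauge families from free families
-/

set_option autoImplicit false
set_option linter.unusedSectionVars false

namespace Pool.Agent.HS38.GT.GenAux

open Finset

variable {F : Type} [Field F] {V A : Type} [Fintype V] [DecidableEq V] [Fintype A] [DecidableEq A]

/-- a scope in `H` which contains `i` -/
noncomputable def k0 (H : Finset (Finset V)) (i : V) : Finset V :=
  open Classical in if h : ∃ K, K ∈ H ∧ i ∈ K then h.choose else ∅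

/-- the scopes in `H` which contain `i` -/
def S (H : Finset (Finset V)) (i : V) : Finset (Finset V) := H.filter (fun K => i ∈ K)

theorem mem_S {H : Finset (Finset V)} {i : V} {K : Finset V} : K ∈ S H i ↔ K ∈ H ∧ i ∈ K := by
  unfold S
  rw [mem_filter]

theorem k0_mem {H : Finset (Finset V)} {i : V} (h : (S H i).Nonempty) : k0 H i ∈ S H i := by
  obtain ⟨K, hK⟩ := h
  have h2 : ∃ K, K ∈ H ∧ i ∈ K := ⟨K, mem_S.1 hK⟩
  unfold k0
  rw [dif_pos h2]
  exact mem_S.2 h2.choose_spec

/-- the other scopes in `H` which contain `i` -/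
noncomputable def R (H : Finset (Finset V)) (i : V) : Finset (Finset V) := (S H i).erase (k0 H i)

/-- the gauge family given by a free family -/
noncomputable def mk (H : Finset (Finset V)) (p : Finset V → V → A → Fˣ) (K : Finset V) (i : V) (α : A) : Fˣ :=
  if K ∈ S H i then (if K = k0 H i then ∏ K' ∈ R H i, (p K' i α)⁻¹ else p K i α) else 1

theorem mk_out {H : Finset (Finset V)} (p : Finset V → V → A → Fˣ) {K : Finset V} {i : V} (α : A)
    (h : K ∉ S H i) : mk H p K i α = 1 := if_neg h

theorem mk_R {H : Finset (Finset V)} (p : Finset V → V → A → Fˣ) {K : Finset V} {i : V} (α : A)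
    (h : K ∈ R H i) : mk H p K i α = p K i α := by
  unfold R at h
  unfold mk
  rw [if_pos (mem_of_mem_erase h), if_neg (ne_of_mem_erase h)]

theorem prod_S (H : Finset (Finset V)) (p : Finset V → V → A → Fˣ) (i : V) (α : A) (e : Finset V → ℤ) :
    ∏ K ∈ S H i, mk H p K i α ^ e K = ∏ K ∈ R H i, p K i α ^ (e K - e (k0 H i)) := by
  rcases (S H i).eq_empty_or_nonempty with h | h
  · unfold R
    rw [h, erase_empty, prod_empty, prod_empty]
  · have h1 := k0_mem h
    rw [← mul_prod_erase (S H i) _ h1]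
    have h2 : mk H p (k0 H i) i α = ∏ K' ∈ R H i, (p K' i α)⁻¹ := by
      unfold mk
      rw [if_pos h1, if_pos rfl]
    have h3 : ∏ K ∈ (S H i).erase (k0 H i), mk H p K i α ^ e K = ∏ K ∈ R H i, p K i α ^ e K :=
      prod_congr rfl fun K hK => by rw [mk_R p α hK]
    rw [h2, h3, ← prod_zpow, ← prod_mul_distrib]
    refine prod_congr rfl fun K _ => ?_
    rw [inv_zpow, ← zpow_neg, ← zpow_add]
    congr 1
    ring

theorem isGauge_mk (H : Finset (Finset V)) (p : Finset V → V → A → Fˣ) : IsGauge H (mk H p) := by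
  intro i α
  have h := prod_S H p i α (fun _ => 1)
  simp only [zpow_one, sub_self, zpow_zero, prod_const_one] at h
  exact h

theorem prod_swap (H : Finset (Finset V)) (f : Finset V → V → Fˣ) :
    ∏ K ∈ H, ∏ i ∈ K, f K i = ∏ i : V, ∏ K ∈ S H i, f K i := by
  refine prod_comm' ?_
  intro K i
  rw [mem_S]
  simp

theorem prod_all (H : Finset (Finset V)) (p : Finset V → V → A → Fˣ) (T : Finset A)
    (e : Finset V → V → A → ℤ) : ∏ K ∈ H, ∏ i ∈ K, ∏ α ∈ T, mk H p K i α ^ e K i α =
      ∏ i : V, ∏ α ∈ T, ∏ K ∈ R H i, p K i α ^ (e K i α - e (k0 H i) i α) := by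
  rw [prod_swap]
  refine prod_congr rfl fun i _ => ?_
  rw [prod_comm]
  exact prod_congr rfl fun α _ => prod_S H p i α (fun K => e K i α)

end Pool.Agent.HS38.GT.GenAux
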