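import Pool.Agent.HS38.GT.Defs

/-!
# Project GT, part 2 (helper38): determinants and the linear width, sparse instances

Statements of the pieces, with proofs. A file `Pool/Agent/HS38/GT/<Name>.lean` proves
`theorem Pool.Agent.HS38.GT.t_<NAME> : S_<NAME>` (import `Pool.Agent.HS38.GT.Stm2`; put private lemmas into the namespace
`Pool.Agent.HS38.GT.<NAME>`).

`cut H U` (file `Defs.lean`) is the set of the variables which are in a scope in `U` and in a scope in `H \ U`.
-/

set_option autoImplicit false

namespace Pool.Agent.HS38.GT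

open MvPolynomial Finset Pool.Agent.Helper1x.EQ

section

variable {V A : Type} [Fintype V] [DecidableEq V] [Fintype A] [DecidableEq A]

/-- the linear width of `H`: the scopes are put in a row, the width of the row is the largest number of variables which
occur before and after a place; the linear width is the least width of a row. (The last element of the list is the first
one, the initial pieces are the suffixes of the list.) -/
noncomputable def lwidth (H : Finset (Finset V)) : ℕ :=
  sInf {w | ∃ l : List (Finset V), l.Nodup ∧ l.toFinset = H ∧ ∀ s, s <:+ l → (cut H s.toFinset).card ≤ w}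

/-- `U` can be reached from the empty set by adding scopes one by one such that always less than `w` variables of `S` are
in the cut -/
inductive Narrow (H : Finset (Finset V)) (S : Finset V) (w : ℕ) : Finset (Finset V) → Prop
  | empty : 0 < w → Narrow H S w ∅
  | step (U : Finset (Finset V)) (K : Finset V) : Narrow H S w U → K ∈ H → (cut H (insert K U) ∩ S).card < w →
      Narrow H S w (insert K U)

/-- there are invertible matrices `B` and `C` with `M (c x) = B M (x) C` -/
def Strict2 {K X ι : Type*} [Field K] [Fintype ι] [DecidableEq ι] (c : X → K)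
    (M : Matrix ι ι (MvPolynomial X K)) : Prop :=
  ∃ B C : Matrix ι ι K, IsUnit B.det ∧ IsUnit C.det ∧
    M.map (scale c) = B.map MvPolynomial.C * M * C.map MvPolynomial.C

end

/-- NLIST (easy). Proof. By induction on `Narrow H univ w U` there is a list `l` without repetitions, all elements in `H`,
`l.toFinset = U`, such that `(cut H s.toFinset).card < w` for all suffixes `s` of `l`: for `∅` the empty list
(`cut H ∅ = ∅`), in the step `K :: l` if `K ∉ U`, and `l` if `K ∈ U`. For `U = H` this is an element `w - 1` of the set in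
the definition of `lwidth` (`Nat.sInf_le`); `0 < w` by induction. -/
def S_NLIST : Prop := ∀ (V : Type) [Fintype V] [DecidableEq V] (H : Finset (Finset V)) (w : ℕ),
  Narrow H univ w H → lwidth H < w

/-- MINC (a minimal set which is not narrow is connected). Proof. (0) `Narrow H ∅ w U` for all `U ⊆ H` (induction on `U`).
(1) Merging: let `S' ∪ S''` be such that no scope in `H` meets both `S'` and `S''`, and let `Narrow H S' w H`,
`Narrow H S'' w H`. Then `Narrow H (S' ∪ S'') w H`. For this let `H' = H.filter (meets S')`. `Narrow H S' w U` implies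
`Narrow H (S' ∪ S'') w (U ∩ H')` by induction: if `K ∈ H'` then `insert K U ∩ H' = insert K (U ∩ H')` and
`cut H (insert K (U ∩ H')) ∩ (S' ∪ S'') ⊆ cut H (insert K U) ∩ S'` (a variable in `S''` is in no scope in `H'`, and for a
variable in `S'` all scopes containing it are in `H'`); if `K ∉ H'` the set does not change. So `Narrow H (S' ∪ S'') w H'`
(`U = H`). Then `Narrow H S'' w U` implies `Narrow H (S' ∪ S'') w (H' ∪ U)` by induction
(`cut H (insert K (H' ∪ U)) ∩ (S' ∪ S'') ⊆ cut H (insert K U) ∩ S''`: for a variable in `S'` all scopes containing it are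
in `H'`, and a variable in `S''` is in no scope in `H'`). `U = H`.
(2) Take `S₁ ⊆ S` of least cardinality with `¬ Narrow H S₁ w H`. It is nonempty by (0). Let `U` be as in the last part,
and `K₁ ∈ H`, `K₁ ∉ U` a scope which meets `S₁`. `S' = {i ∈ S₁ | ∃ K ∈ U, i ∈ K}`, `S'' = S₁ \ S'`. Both are not empty
(`K₁` meets `S''`: a variable `i ∈ K₁ ∩ S'` would give `K₁ ∈ U`), so both are smaller than `S₁`, so narrow. A scope which meets
`S'` is in `U`, so it does not meet `S''`. (1) gives a contradiction. -/
def S_MINC : Prop := ∀ (V : Type) [Fintype V] [DecidableEq V] (H : Finset (Finset V)) (S : Finset V) (w : ℕ), 0 < w →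
  ¬ Narrow H S w H → ∃ S₁ ⊆ S, S₁.Nonempty ∧ ¬ Narrow H S₁ w H ∧
    ∀ U ⊆ H, U.Nonempty → (∀ K ∈ U, ∃ i ∈ S₁, i ∈ K) →
      (∀ i ∈ S₁, (∃ K ∈ U, i ∈ K) → ∀ K ∈ H, i ∈ K → K ∈ U) →
      ∀ K ∈ H, (∃ i ∈ S₁, i ∈ K) → K ∈ U

/-- LUP (upper bound: transfer matrices along a row of the scopes). Proof. Let `l` be a list for `lwidth H` (`Nat.sInf_mem`; the
set is not empty: `H.toList`, `w = card V`), `D = H.card = l.length ≥ 1`, `K_1, …, K_D` the scopes in the order from the last
element of the list to the first one, `U_j = {K_1, …, K_j}`, `c_j = cut H U_j`, so `c_0 = c_D = ∅`, `c_j.card ≤ lwidth H`. A state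
is a pair `(j, s)`, `1 ≤ j < D`, `s : V → Option A` with `scope s = c_j`; there are at most `(D - 1) * q ^ lwidth H` states. Fix
`o : A`. `G j s = ∑_a ∏_{K ∈ U_j} X (restr K a)`, over all `a : V → A` with `restr c_j a = s` and `a i = o` for all `i` which are
in no scope of `U_j`; `G D (none) = Z F A H` (every variable is in a scope). `E j s s' = ∑_β X β`, over all `β` with
`scope β = K_{j+1}` and [for all `i`: `β i` agrees with `s i` if both are not `none`, `β i` agrees with `s' i` if both are not
`none`, `s i` agrees with `s' i` if both are not `none`]. Then `G (j + 1) s' = ∑_s G j s * E j s s'` (a variable of `K_{j+1}` is in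
`c_j`, or in `c_{j+1}`, or in no other scope; a variable in no scope of `U_j` which is not in `K_{j+1}` has the value `o` on both
sides). Matrix with rows and columns root and the states: `M root (1, s) = G 1 s` (a linear form), `M (j,s) (j,s) = -1`,
`M (j,s) (j+1,s') = E j s s'`, `M (D-1,s) root = E (D-1) s none`, all other entries `0`; for `D = 1` the only entry is `Z`.
With the row vector `v`, `v root = 1`, `v (j,s) = G j s`: `v M = Z e_root`. So `det M * v = Z • (e_root ᵥ* adjugate M)`,
at `root`: `det M = Z * adjugate M root root`, and this is the determinant of the block of the states, which is triangular with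
`-1` in the diagonal. Correct the sign with the first row. Degree `≤ 1` is clear. Equivariance: diagonal matrices `B`, `C = B⁻¹`
(up to order), `b root = 1`, `b (j, s) = ∏_{i ∈ c_j} ∏_{K ∈ U_j, i ∈ K} (t K i (s i))⁻¹`; check at each entry: for `i ∈ c_j ∩ c_{j+1}`
the quotient is `t K_{j+1} i (s i)` or `1`; for `i ∈ c_{j+1} \ c_j` it is `t K_{j+1} i (s' i)`; for `i ∈ c_j \ c_{j+1}` it is
`t K_{j+1} i (s i)` by `IsGauge`; the other `i ∈ K_{j+1}` are in no other scope and `t K_{j+1} i α = 1` by `IsGauge`.
(Compare `Dup.lean`, the case where the states are all `(j, a)`, and `Cup.lean`.) -/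
def S_LUP : Prop := ∀ (F : Type) [Field F] (V A : Type) [Fintype V] [DecidableEq V] [Fintype A] [DecidableEq A]
  [Nonempty A] (H : Finset (Finset V)), H.Nonempty → (∀ i, ∃ K ∈ H, i ∈ K) →
  ∃ m : ℕ, m ≤ (H.card - 1) * Fintype.card A ^ lwidth H + 1 ∧
    ∃ M : Matrix (Fin m) (Fin m) (MvPolynomial (V → Option A) F),
      IsDetRep M (Z F A H) ∧ ∀ t : Finset V → V → A → Fˣ, IsGauge H t → Strict2 (gauge t) M

/-- GW (graphs without large holes have large linear width). Proof. `lwidth H` is attained by a list `l` (`Nat.sInf_mem`; the set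
is not empty: `H.toList`, `w = card V`). For a suffix with set `U ⊆ H` let `P U` be the set of the `i` all of whose scopes are in
`U` and `Q U` the set of the `i` none of whose scopes is in `U`; these two sets are disjoint (every `i` is in a scope) and
`cut H U` is the complement of their union. There is no `K = {x, y} ∈ H` with `x ∈ P U`, `y ∈ Q U`, so `(P U).card < s` or
`(Q U).card < s`. `P ∅ = ∅`, `Q H = ∅`. If `n - 2 s = 0` nothing is to be shown; so let `2 s < n`. Let `U` be the longest suffix
with `(P U).card < s` (`1 ≤ s`, otherwise `X = Y = ∅` contradicts the hypothesis). If `U = H` then `cut H H = ∅`, but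
`P H = univ` has `n > s` elements, so `U ≠ H`. For the next one, `U' = insert K U`, `s ≤ (P U').card`, so `(Q U').card < s` and
`(Q U).card ≤ (Q U').card + 2 ≤ s + 1` (`K` has two elements). So `n - (s - 1) - (s + 1) ≤ (cut H U).card ≤ lwidth H`. -/
def S_GW : Prop := ∀ (V : Type) [Fintype V] [DecidableEq V] (H : Finset (Finset V)) (s : ℕ),
  (∀ K ∈ H, K.card = 2) → (∀ i, ∃ K ∈ H, i ∈ K) →
  (∀ X Y : Finset V, Disjoint X Y → s ≤ X.card → s ≤ Y.card → ∃ x ∈ X, ∃ y ∈ Y, {x, y} ∈ H) →
  Fintype.card V - 2 * s ≤ lwidth H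

/-- RAND (sparse graphs without large holes exist). Proof. Let `C₁` be such that `4 * (1 - ε²)^C₁ < 1`. For `n ≥ n₀` let
`s = ⌈ε n⌉₊`. Consider the functions `f : Fin (C₁ * n) → Fin n × Fin n`; there are `(n²)^(C₁ n)` of them. For `X, Y` with
`s ≤ X.card`, `s ≤ Y.card` at most `(n² - s²)^(C₁ n)` of them have no value in `X ×ˢ Y`; there are at most `4^n` pairs
`(X, Y)`, and `4^n (n² - s²)^(C₁ n) < (n²)^(C₁ n)`. So some `f` has a value in all `X ×ˢ Y`. Let `H` be the set of all
`{(f j).1, (f j).2}` with two elements, and in addition the pairs `{i, i + 1}`, `i + 1 < n`, and `{0, 1}` (so that every `i` is in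
a scope, `n ≥ 2`). `H.card ≤ C₁ n + n`. -/
def S_RAND : Prop := ∀ ε : ℝ, 0 < ε → ε < 1 → ∃ C n₀ : ℕ, ∀ n : ℕ, n₀ ≤ n →
  ∃ H : Finset (Finset (Fin n)), H.card ≤ C * n ∧ (∀ K ∈ H, K.card = 2) ∧ (∀ i, ∃ K ∈ H, i ∈ K) ∧
    ∀ X Y : Finset (Fin n), Disjoint X Y → ε * n ≤ X.card → ε * n ≤ Y.card → ∃ x ∈ X, ∃ y ∈ Y, {x, y} ∈ H

/-- BIN (numbers). Proof. Let `x = δ / 8 ∧ 1` be such that `1 + x ≤ 2^(δ/4)` (e.g. `1 + x ≤ exp x`, `x ≤ (δ / 4) log 2`, `x ≤ 1`) and
`ε ≤ 1/4` such that `x^(-ε) ≤ 2^(δ/4)`. Take `z = n / 2 < w`. `e = n - w ≤ ε n`, `n - (w - z) = z + e ≤ n`,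
`(z + e).choose z = (z + e).choose e ≤ n.choose e`, and `n.choose e * x^e ≤ (1 + x)^n` (one term of the binomial theorem), so
`n.choose e ≤ 2^(δ n / 4) * x^(-ε n) ≤ 2^(δ n / 2)`. `2^n ≤ (n + 1) * n.choose (n / 2)` (`Nat.choose_le_middle`,
`Nat.sum_range_choose`). So `2^n ≤ (n + 1) * h * m * 2^(δ n / 2) ≤ (n + 1) * C * n * 2^(δ n / 2) * m`, and
`(n + 1) * C * n ≤ 2^(δ n / 2)` for `n ≥ n₀`. -/
def S_BIN : Prop := ∀ δ : ℝ, 0 < δ → δ < 1 → ∃ ε : ℝ, 0 < ε ∧ ε < 1 ∧ ∀ C : ℕ, ∃ n₀ : ℕ, ∀ n w h m : ℕ, n₀ ≤ n →
  (1 - ε) * n ≤ w → w ≤ n → h ≤ C * n →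
  (∀ z, z < w → n.choose z ≤ h * m * (n - (w - z)).choose z) →
  (2 : ℝ) ^ ((1 - δ) * n) ≤ m

end Pool.Agent.HS38.GT
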