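import Pool.Agent.HS38.GT.Fam
import Pool.Agent.HS38.GT.Stm2

/-!
# Gauge equivariant determinantal representations: the lower bound by the linear width
-/

set_option autoImplicit false

namespace Pool.Agent.HS38.GT

open MvPolynomial Finset Pool.Agent.Helper1x.EQ

variable {V A : Type} [Fintype V] [DecidableEq V] [Fintype A] [DecidableEq A]

/-- every nonempty set of scopes meeting `S` which is closed consists of all scopes meeting `S` -/
def Conn (H : Finset (Finset V)) (S : Finset V) : Prop :=
  ∀ U ⊆ H, U.Nonempty → (∀ K ∈ U, ∃ i ∈ S, i ∈ K) →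
    (∀ i ∈ S, (∃ K ∈ U, i ∈ K) → ∀ K ∈ H, i ∈ K → K ∈ U) →
    ∀ K ∈ H, (∃ i ∈ S, i ∈ K) → K ∈ U

/-- the main step for connected supports -/
theorem exists_step_g {F : Type} [Field F] {ι : Type*} [Fintype ι] [DecidableEq ι] {d : ℕ} {H : Finset (Finset V)}
    (hH1 : ∀ i, ∃ K ∈ H, i ∈ K) {W : Finset V} (o : A) {K₀ : Finset V} (hK₀ : K₀ ∈ H)
    {T : Set (Finset V → V → A → Fˣ)} (hT : Sep H W o T)
    {M : Matrix ι ι (MvPolynomial (V → Option A) F)} (hdeg : ∀ i j, (M i j).totalDegree ≤ d) (hdet : M.det = Z F A H)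
    (hEq : ∀ t ∈ T, Strict (gauge t) M) :
    ∃ y : Finset (V → Option A) → ι → F,
      (∀ t ∈ T, ∃ (D : Matrix ι ι F) (μ : F), μ ≠ 0 ∧ ∀ (U : Finset (Finset V)) (a : V → A),
        D.mulVec (y (U.image fun K => restr K a)) = (μ * ((wt t U a : Fˣ) : F)) • y (U.image fun K => restr K a)) ∧
      ∀ a : V → A, (∀ i, a i ≠ o → i ∈ W) → (∃ i ∈ K₀, a i ≠ o) → Conn H (univ.filter fun i => a i ≠ o) →
        ∀ Good : Finset (Finset V) → Prop, Good (act H o a) → ¬ Good ∅ →
        ∃ (U U₂ : Finset (Finset V)), U ⊆ U₂ ∧ U₂ ⊆ act H o a ∧ (U₂ \ U).card ≤ d ∧ Good U₂ ∧ ¬ Good U ∧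
        y (U.image fun K => restr K a) ≠ 0 := by
  classical
  set x0 := base F H o K₀ with hx0
  set N : Matrix ι ι (MvPolynomial (V → Option A) F) := M.map (trans x0) with hN
  have hNdet : N.det = trans x0 (Z F A H) := by
    rw [← hdet]
    exact ((trans x0).map_det M).symm
  obtain ⟨y, hy1, hy2⟩ := chain_f (N := N) (fun i j => (totalDegree_trans x0 _).trans (hdeg i j))
    (ρ := restr K₀ (fun _ => o)) (by rw [hNdet]; exact lin_Z hH1 o hK₀)
  refine ⟨y, ?_, ?_⟩
  · intro t ht
    obtain ⟨B, D, hs⟩ := symm_of_strict (H := H) (K₀ := K₀) (hT.1 t ht) (hEq t ht)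
    obtain ⟨μ, hμ, hD⟩ := hy1 _ B D hs
    refine ⟨D, μ, hμ, fun U a => ?_⟩
    rw [hD, prod_gauge]
  intro a haW ha hconn Good hgood hbad
  have hSa : ∀ S' ⊆ (act H o a).image (fun K => restr K a),
      S' = (H.filter fun K => restr K a ∈ S').image (fun K => restr K a) := by
    intro S' hS'
    ext x
    rw [Finset.mem_image]
    constructor
    · intro hx
      obtain ⟨K, hK, rfl⟩ := Finset.mem_image.1 (hS' hx)
      exact ⟨K, Finset.mem_filter.2 ⟨(Finset.mem_filter.1 hK).1, hx⟩, rfl⟩
    · rintro ⟨K, hK, rfl⟩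
      exact (Finset.mem_filter.1 hK).2
  have hUact : ∀ S' ⊆ (act H o a).image (fun K => restr K a), (H.filter fun K => restr K a ∈ S') ⊆ act H o a := by
    intro S' hS' K hK
    have h5 := (Finset.mem_filter.1 hK).2
    obtain ⟨K', hK', h6⟩ := Finset.mem_image.1 (hS' h5)
    rw [← restr_inj h6]
    exact hK'
  have hact : (H.filter fun K => restr K a ∈ (act H o a).image (fun K => restr K a)) = act H o a := by
    apply Finset.Subset.antisymm (hUact _ le_rfl)
    intro K hK
    exact Finset.mem_filter.2 ⟨(Finset.mem_filter.1 hK).1, Finset.mem_image_of_mem _ hK⟩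
  obtain ⟨S₁, S₂, h12, h2S, hcard, hg2, hb1, hy0⟩ := hy2 ((act H o a).image fun K => restr K a)
    (by rw [hNdet, coeff_Z hH1 o hK₀ a ha]; exact one_ne_zero)
    (by
      intro S' hS' hne hneq
      rw [hSa S' hS'] at hne hneq ⊢
      set U := H.filter fun K => restr K a ∈ S' with hU
      by_contra hcon
      push Not at hcon
      have h2 : ∀ t ∈ T, wt t U a = wt t (∅ : Finset (Finset V)) a := by
        intro t ht
        obtain ⟨B, D, hs⟩ := symm_of_strict (H := H) (K₀ := K₀) (hT.1 t ht) (hEq t ht)
        have h3 := hcon _ B D hs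
        rw [prod_gauge] at h3
        have h4 : wt t (∅ : Finset (Finset V)) a = 1 := by simp [wt]
        rw [h4]
        exact Units.ext (by rw [h3]; rfl)
      have h3 := hT.2 U (Finset.filter_subset _ _) ∅ (Finset.empty_subset _) a a h2
      apply hneq
      congr 1
      apply Finset.Subset.antisymm (hUact S' hS')
      intro K hK
      obtain ⟨hKH, i, hi, ho⟩ := Finset.mem_filter.1 hK
      refine hconn U (Finset.filter_subset _ _) ((Finset.image_nonempty).1 hne) ?_ ?_ K hKH
        ⟨i, Finset.mem_filter.2 ⟨Finset.mem_univ _, ho⟩, hi⟩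
      · intro K' hK'
        obtain ⟨-, j, hj, hjo⟩ := Finset.mem_filter.1 (hUact S' hS' hK')
        exact ⟨j, Finset.mem_filter.2 ⟨Finset.mem_univ _, hjo⟩, hj⟩
      · rintro j hj ⟨K', hK', hjK'⟩ K'' hK'' hjK''
        have hjo := (Finset.mem_filter.1 hj).2
        have h5 := (h3 j (haW j hjo) (a j) hjo K' (Finset.mem_filter.1 hK').1 hjK' K'' hK'' hjK'').2 (by simp [ex])
        by_contra hcon2
        simp [ex, hK', hcon2] at h5)
    (fun S' => Good (H.filter fun K => restr K a ∈ S'))
    (by
      show Good _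
      rw [hact]
      exact hgood)
    (by
      show ¬ Good _
      have : (H.filter fun K => restr K a ∈ (∅ : Finset (V → Option A))) = ∅ := by simp
      rw [this]
      exact hbad)
  refine ⟨H.filter fun K => restr K a ∈ S₁, H.filter fun K => restr K a ∈ S₂, ?_, hUact S₂ h2S, ?_, hg2, hb1, ?_⟩
  · intro K hK
    rw [Finset.mem_filter] at hK ⊢
    exact ⟨hK.1, h12 hK.2⟩
  · refine le_trans ?_ hcard
    apply Finset.card_le_card_of_injOn (fun K => restr K a)
    · intro K hK
      rw [Finset.mem_coe, Finset.mem_sdiff, Finset.mem_filter, Finset.mem_filter] at hK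
      rw [Finset.mem_coe, Finset.mem_sdiff]
      exact ⟨hK.1.2, fun h => hK.2 ⟨hK.1.1, h⟩⟩
    · intro K _ K' _ h
      exact restr_inj h
  · rw [← hSa S₁ (h12.trans h2S)]
    exact hy0

omit [Fintype A] in
/-- the number of different characters is at most the size of the matrix -/
theorem card_chars' {F : Type} [Field F] {ι : Type*} [Fintype ι] [DecidableEq ι] {T : Set (Finset V → V → A → Fˣ)}
    {y : Finset (V → Option A) → ι → F}
    (hy : ∀ t ∈ T, ∃ (D : Matrix ι ι F) (μ : F), μ ≠ 0 ∧ ∀ (U : Finset (Finset V)) (a : V → A),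
        D.mulVec (y (U.image fun K => restr K a)) = (μ * ((wt t U a : Fˣ) : F)) • y (U.image fun K => restr K a))
    {σ : Type} [Fintype σ] [DecidableEq σ] (U : σ → Finset (Finset V)) (p : σ → V → A) (G : Finset σ)
    (hG : ∀ a ∈ G, y ((U a).image fun K => restr K (p a)) ≠ 0) :
    ∃ (f : σ → ℕ) (R : Finset ℕ), R.card ≤ Fintype.card ι ∧ (∀ a ∈ G, f a ∈ R) ∧
      ∀ a ∈ G, ∀ a' ∈ G, f a = f a' → ∀ t ∈ T, wt t (U a) (p a) = wt t (U a') (p a') := by
  classical
  set e := Fintype.equivFin σ
  have hG' : ∀ a ∈ G, ∃ b ∈ G, (e b).val = (e b).val ∧ (∀ t ∈ T, wt t (U b) (p b) = wt t (U a) (p a)) ∧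
      ∀ c ∈ G, (∀ t ∈ T, wt t (U c) (p c) = wt t (U a) (p a)) → (e b).val ≤ (e c).val := by
    intro a ha
    have hne : (G.filter fun c => ∀ t ∈ T, wt t (U c) (p c) = wt t (U a) (p a)).Nonempty :=
      ⟨a, Finset.mem_filter.2 ⟨ha, fun _ _ => rfl⟩⟩
    obtain ⟨b, hb, hmin⟩ := Finset.exists_min_image _ (fun c => (e c).val) hne
    rw [Finset.mem_filter] at hb
    exact ⟨b, hb.1, rfl, hb.2, fun c hc hct => hmin c (Finset.mem_filter.2 ⟨hc, hct⟩)⟩
  choose! b hb1 _ hb2 hb3 using hG'
  have hbeq : ∀ a ∈ G, ∀ a' ∈ G, (∀ t ∈ T, wt t (U a) (p a) = wt t (U a') (p a')) → b a = b a' := by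
    intro a ha a' ha' h
    have h1 := hb3 a ha (b a') (hb1 a' ha') (fun t ht => (hb2 a' ha' t ht).trans (h t ht).symm)
    have h2 := hb3 a' ha' (b a) (hb1 a ha) (fun t ht => (hb2 a ha t ht).trans (h t ht))
    exact e.injective (Fin.ext (le_antisymm h1 h2))
  refine ⟨fun a => (e (b a)).val, (G.image b).image fun c => (e c).val, ?_, ?_, ?_⟩
  · refine Finset.card_image_le.trans ?_
    refine card_of_joint (G.image b) (fun c => y ((U c).image fun K => restr K (p c))) ?_ ?_
    · intro c hc
      obtain ⟨a, ha, rfl⟩ := Finset.mem_image.1 hc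
      exact hG _ (hb1 a ha)
    · intro c hc c' hc' hne
      obtain ⟨a, ha, rfl⟩ := Finset.mem_image.1 hc
      obtain ⟨a', ha', rfl⟩ := Finset.mem_image.1 hc'
      obtain ⟨t, ht, hwt⟩ : ∃ t ∈ T, wt t (U (b a)) (p (b a)) ≠ wt t (U (b a')) (p (b a')) := by
        by_contra hcon
        push Not at hcon
        apply hne
        exact hbeq a ha a' ha' fun t ht => (hb2 a ha t ht).symm.trans ((hcon t ht).trans (hb2 a' ha' t ht))
      obtain ⟨D, μ, hμ, hD⟩ := hy t ht
      refine ⟨D, fun c => μ * ((wt t (U c) (p c) : Fˣ) : F), fun r _ => hD _ _, ?_⟩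
      intro h
      exact hwt (Units.ext (mul_left_cancel₀ hμ h))
  · intro a ha
    exact Finset.mem_image_of_mem _ (Finset.mem_image_of_mem _ ha)
  · intro a ha a' ha' h t ht
    have h1 : b a = b a' := e.injective (Fin.ext h)
    rw [← hb2 a ha t ht, h1, hb2 a' ha' t ht]

/-! ### narrow chains -/

omit [Fintype A] [DecidableEq A] in
theorem lwidth_le (H : Finset (Finset V)) : lwidth H ≤ Fintype.card V :=
  Nat.sInf_le ⟨H.toList, H.nodup_toList, H.toList_toFinset, fun _ _ => Finset.card_le_univ _⟩

/-- `U` can be completed to `E` by adding scopes one by one such that always less than `w` variables of `S` are in the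
cut -/
inductive UpN (H : Finset (Finset V)) (S : Finset V) (w : ℕ) (E : Finset (Finset V)) : Finset (Finset V) → Prop
  | top : (cut H E ∩ S).card < w → UpN H S w E E
  | step (U : Finset (Finset V)) (K : Finset V) : UpN H S w E (insert K U) → K ∈ H → (cut H U ∩ S).card < w →
      UpN H S w E U

theorem UpN.card_lt {H : Finset (Finset V)} {S : Finset V} {w : ℕ} {E U : Finset (Finset V)} (h : UpN H S w E U) :
    (cut H U ∩ S).card < w := by
  cases h with
  | top h => exact h
  | step K _ _ _ h => exact h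

theorem UpN.narrow {H : Finset (Finset V)} {S : Finset V} {w : ℕ} {E U : Finset (Finset V)} (h : UpN H S w E U) :
    Narrow H S w U → Narrow H S w E := by
  induction h with
  | top h => exact id
  | step U K h1 h2 h3 ih => exact fun h => ih (Narrow.step U K h h2 h1.card_lt)

theorem Narrow.pos {H : Finset (Finset V)} {S : Finset V} {w : ℕ} {U : Finset (Finset V)} (h : Narrow H S w U) :
    0 < w := by
  induction h with
  | empty h => exact h
  | step U K h1 h2 h3 ih => exact ih

/-- from all scopes meeting `S` to all scopes -/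
theorem narrow_all {H : Finset (Finset V)} {S : Finset V} {w : ℕ} {E : Finset (Finset V)} (hE : E ⊆ H)
    (hES : ∀ K ∈ H, (∃ i ∈ S, i ∈ K) → K ∈ E) (h : Narrow H S w E) : Narrow H S w H := by
  have key : ∀ X ⊆ H, Narrow H S w (X ∪ E) := by
    intro X
    induction X using Finset.induction_on with
    | empty => intro _; simpa using h
    | insert K X hK ih =>
      intro hX
      have h1 := ih ((Finset.subset_insert _ _).trans hX)
      rw [Finset.insert_union]
      refine Narrow.step _ K h1 (hX (Finset.mem_insert_self _ _)) ?_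
      have h2 : cut H (insert K (X ∪ E)) ∩ S = ∅ := by
        ext i
        simp only [Finset.mem_inter, cut, Finset.mem_filter, Finset.mem_univ, true_and, Finset.notMem_empty, iff_false,
          not_and]
        rintro ⟨-, K', hK', hi⟩ hiS
        rw [Finset.mem_sdiff] at hK'
        exact hK'.2 (Finset.mem_insert_of_mem (Finset.mem_union_right _ (hES K' hK'.1 ⟨i, hiS, hi⟩)))
      rw [h2, Finset.card_empty]
      exact h1.pos
  have h1 := key H le_rfl
  rwa [Finset.union_eq_left.2 hE] at h1

theorem Narrow.mono_S {H : Finset (Finset V)} {S : Finset V} {w z : ℕ} {U : Finset (Finset V)} (h : Narrow H S w U)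
    (hS : Sᶜ.card ≤ z) : Narrow H univ (w + z) U := by
  induction h with
  | empty h => exact Narrow.empty (by omega)
  | step U K h1 h2 h3 ih =>
    refine Narrow.step U K ih h2 ?_
    have h4 : cut H (insert K U) ∩ univ ⊆ (cut H (insert K U) ∩ S) ∪ Sᶜ := by
      intro i hi
      rw [Finset.mem_union, Finset.mem_inter, Finset.mem_compl]
      by_cases hiS : i ∈ S
      · exact Or.inl ⟨(Finset.mem_inter.1 hi).1, hiS⟩
      · exact Or.inr hiS
    have h5 := (Finset.card_le_card h4).trans (Finset.card_union_le _ _)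
    omega

/-! ### counting -/

/-- the functions with exactly `z` values `o` which agree with `v` on `c` -/
theorem card_lab (o : A) (c : Finset V) (v : V → A) (hv : ∀ i ∈ c, v i ≠ o) (z : ℕ) :
    (univ.filter fun b : V → A => (∀ i ∈ c, b i = v i) ∧ (univ.filter fun i => b i = o).card = z).card =
      (Fintype.card V - c.card).choose z * (Fintype.card A - 1) ^ (Fintype.card V - c.card - z) := by
  classical
  set P : Finset V → Finset (V → A) := fun J =>
    Fintype.piFinset fun i => if i ∈ c then {v i} else if i ∈ J then {o} else univ.erase o with hP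
  have h1 : (univ.filter fun b : V → A => (∀ i ∈ c, b i = v i) ∧ (univ.filter fun i => b i = o).card = z) =
      ((cᶜ).powersetCard z).biUnion P := by
    ext b
    rw [Finset.mem_filter, Finset.mem_biUnion]
    constructor
    · rintro ⟨-, h1, h2⟩
      refine ⟨univ.filter fun i => b i = o, ?_, ?_⟩
      · rw [Finset.mem_powersetCard]
        refine ⟨fun i hi => ?_, h2⟩
        rw [Finset.mem_compl]
        intro hic
        exact hv i hic ((h1 i hic).symm.trans (Finset.mem_filter.1 hi).2)
      · rw [hP, Fintype.mem_piFinset]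
        intro i
        split_ifs with h3 h4
        · exact Finset.mem_singleton.2 (h1 i h3)
        · exact Finset.mem_singleton.2 (Finset.mem_filter.1 h4).2
        · refine Finset.mem_erase.2 ⟨fun h => h4 (Finset.mem_filter.2 ⟨Finset.mem_univ _, h⟩), Finset.mem_univ _⟩
    · rintro ⟨J, hJ, hb⟩
      rw [Finset.mem_powersetCard] at hJ
      rw [hP, Fintype.mem_piFinset] at hb
      have h3 : (univ.filter fun i => b i = o) = J := by
        ext i
        rw [Finset.mem_filter]
        have h4 := hb i
        constructor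
        · rintro ⟨-, h5⟩
          split_ifs at h4 with h6 h7
          · exact absurd ((Finset.mem_singleton.1 h4).symm.trans h5) (hv i h6)
          · exact h7
          · exact absurd h5 (Finset.ne_of_mem_erase h4)
        · intro hi
          rw [if_neg (Finset.mem_compl.1 (hJ.1 hi)), if_pos hi] at h4
          exact ⟨Finset.mem_univ _, Finset.mem_singleton.1 h4⟩
      refine ⟨Finset.mem_univ _, fun i hi => ?_, by rw [h3]; exact hJ.2⟩
      have h4 := hb i
      rw [if_pos hi] at h4
      exact Finset.mem_singleton.1 h4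
  have h2 : ∀ J ∈ (cᶜ).powersetCard z, ∀ b ∈ P J, (univ.filter fun i => b i = o) = J := by
    intro J hJ b hb
    rw [Finset.mem_powersetCard] at hJ
    rw [hP, Fintype.mem_piFinset] at hb
    ext i
    rw [Finset.mem_filter]
    have h4 := hb i
    constructor
    · rintro ⟨-, h5⟩
      split_ifs at h4 with h6 h7
      · exact absurd ((Finset.mem_singleton.1 h4).symm.trans h5) (hv i h6)
      · exact h7
      · exact absurd h5 (Finset.ne_of_mem_erase h4)
    · intro hi
      rw [if_neg (Finset.mem_compl.1 (hJ.1 hi)), if_pos hi] at h4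
      exact ⟨Finset.mem_univ _, Finset.mem_singleton.1 h4⟩
  rw [h1, Finset.card_biUnion]
  · have h3 : ∀ J ∈ (cᶜ).powersetCard z, (P J).card = (Fintype.card A - 1) ^ (Fintype.card V - c.card - z) := by
      intro J hJ
      rw [Finset.mem_powersetCard] at hJ
      rw [hP, Fintype.card_piFinset]
      have h4 : ∀ i, (if i ∈ c then ({v i} : Finset A) else if i ∈ J then {o} else univ.erase o).card =
          if i ∈ c ∪ J then 1 else Fintype.card A - 1 := by
        intro i
        by_cases h5 : i ∈ c
        · simp [h5]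
        · by_cases h6 : i ∈ J
          · simp [h5, h6]
          · simp [h5, h6, Finset.card_erase_of_mem]
      rw [Finset.prod_congr rfl fun i _ => h4 i, Finset.prod_ite, Finset.prod_const_one, one_mul, Finset.prod_const]
      congr 1
      have h5 : (univ.filter fun i => ¬ i ∈ c ∪ J) = (c ∪ J)ᶜ := by ext; simp
      have h6 : Disjoint c J := by
        rw [Finset.disjoint_left]
        intro i hi hi'
        exact (Finset.mem_compl.1 (hJ.1 hi')) hi
      rw [h5, Finset.card_compl, Finset.card_union_of_disjoint h6, hJ.2]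
      omega
    rw [Finset.sum_congr rfl h3, Finset.sum_const, Finset.card_powersetCard, Finset.card_compl, smul_eq_mul]
  · intro J hJ J' hJ' hne
    rw [Function.onFun, Finset.disjoint_left]
    intro b hb hb'
    exact hne ((h2 J hJ b hb).symm.trans (h2 J' hJ' b hb'))

/-- the lower bound by the linear width -/
theorem lin_lower (hNL : S_NLIST) (hMC : S_MINC) {F : Type} [Field F] {ι : Type*} [Fintype ι] [DecidableEq ι]
    {H : Finset (Finset V)} (hH1 : ∀ i, ∃ K ∈ H, i ∈ K) (o : A)
    {T : Set (Finset V → V → A → Fˣ)} (hT : Sep H univ o T)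
    {M : Matrix ι ι (MvPolynomial (V → Option A) F)} (hdeg : ∀ i j, (M i j).totalDegree ≤ 1) (hdet : M.det = Z F A H)
    (hEq : ∀ t ∈ T, Strict (gauge t) M) {w z : ℕ} (hw : w ≤ lwidth H) (hz : z < w) :
    (Fintype.card A - 1) ^ (w - z) * (Fintype.card V).choose z ≤
      H.card * Fintype.card ι * (Fintype.card V - (w - z)).choose z := by
  classical
  have hwn : w ≤ Fintype.card V := hw.trans (lwidth_le H)
  -- the minimal set
  have h1 : ∀ b : V → A, (univ.filter fun i => b i = o).card = z → ∃ S₁ : Finset V, (∀ i ∈ S₁, b i ≠ o) ∧ S₁.Nonempty ∧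
      ¬ Narrow H S₁ (w - z) H ∧ Conn H S₁ := by
    intro b hb
    obtain ⟨S₁, h2, h3, h4, h5⟩ := hMC V H (univ.filter fun i => b i ≠ o) (w - z) (by omega) (by
      intro h
      have h2 : (univ.filter fun i => b i ≠ o)ᶜ = univ.filter fun i => b i = o := by
        ext i
        simp
      have h3 := h.mono_S (z := z) (by rw [h2, hb])
      have h4 := hNL V H _ h3
      omega)
    exact ⟨S₁, fun i hi => (Finset.mem_filter.1 (h2 hi)).2, h3, h4, h5⟩
  choose! S₁ hS₁ hS₁n hS₁w hS₁c using h1
  have h2 : ∀ b : V → A, (univ.filter fun i => b i = o).card = z → ∃ K ∈ H, ∃ i ∈ K, i ∈ S₁ b := by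
    intro b hb
    obtain ⟨i, hi⟩ := hS₁n b hb
    obtain ⟨K, hK, hiK⟩ := hH1 i
    exact ⟨K, hK, i, hiK, hi⟩
  choose! K₀ hK₀ hK₀S using h2
  set p : (V → A) → V → A := fun b i => if i ∈ S₁ b then b i else o with hp
  have hsupp : ∀ b : V → A, (univ.filter fun i => b i = o).card = z →
      (univ.filter fun i => p b i ≠ o) = S₁ b := by
    intro b hb
    ext i
    rw [Finset.mem_filter]
    by_cases hi : i ∈ S₁ b
    · simp [hp, hi, hS₁ b hb i hi]
    · simp [hp, hi]
  set L : Finset (V → A) := univ.filter fun b => (univ.filter fun i => b i = o).card = z with hL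
  set N' := (Fintype.card V - (w - z)).choose z * (Fintype.card A - 1) ^ (Fintype.card V - (w - z) - z) with hN'
  -- for fixed `K`
  have key : ∀ K ∈ H, (L.filter fun b => K₀ b = K).card ≤ N' * Fintype.card ι := by
    intro K hK
    obtain ⟨y, hy, hstep⟩ := exists_step_g hH1 o hK hT hdeg hdet hEq
    have h3 : ∀ b ∈ L.filter (fun b => K₀ b = K), ∃ U ⊆ H, w - z ≤ (cut H U ∩ S₁ b).card ∧
        y (U.image fun K => restr K (p b)) ≠ 0 := by
      intro b hb
      rw [Finset.mem_filter, hL, Finset.mem_filter] at hb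
      obtain ⟨⟨-, hbz⟩, hbK⟩ := hb
      have hE : ∀ K ∈ H, (∃ i ∈ S₁ b, i ∈ K) → K ∈ act H o (p b) := by
        rintro K hK ⟨i, hi, hiK⟩
        refine Finset.mem_filter.2 ⟨hK, i, hiK, ?_⟩
        have : i ∈ univ.filter fun i => p b i ≠ o := by rw [hsupp b hbz]; exact hi
        exact (Finset.mem_filter.1 this).2
      have hcutE : cut H (act H o (p b)) ∩ S₁ b = ∅ := by
        ext i
        simp only [Finset.mem_inter, cut, Finset.mem_filter, Finset.mem_univ, true_and, Finset.notMem_empty, iff_false,
          not_and]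
        rintro ⟨-, K', hK', hi⟩ hiS
        rw [Finset.mem_sdiff] at hK'
        exact hK'.2 (hE K' hK'.1 ⟨i, hiS, hi⟩)
      obtain ⟨U, U₂, h4, h5, h6, h7, h8, h9⟩ := hstep (p b) (fun i _ => Finset.mem_univ _) (by
        obtain ⟨i, hi, hiS⟩ := hK₀S b hbz
        rw [hbK] at hi
        refine ⟨i, hi, ?_⟩
        have : i ∈ univ.filter fun i => p b i ≠ o := by rw [hsupp b hbz]; exact hiS
        exact (Finset.mem_filter.1 this).2) (by rw [hsupp b hbz]; exact hS₁c b hbz)
        (UpN H (S₁ b) (w - z) (act H o (p b)))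
        (UpN.top (by rw [hcutE, Finset.card_empty]; omega))
        (by
          intro h
          apply hS₁w b hbz
          exact narrow_all (Finset.filter_subset _ _) hE (h.narrow (Narrow.empty (by omega))))
      refine ⟨U, (h4.trans h5).trans (Finset.filter_subset _ _), ?_, h9⟩
      by_contra hcon
      push Not at hcon
      apply h8
      rcases (U₂ \ U).eq_empty_or_nonempty with h10 | ⟨K', hK'⟩
      · have h11 : U₂ = U := Finset.Subset.antisymm (Finset.sdiff_eq_empty_iff_subset.1 h10) h4
        rw [← h11]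
        exact h7
      · have h11 : U₂ = insert K' U := by
          ext x
          rw [Finset.mem_insert]
          constructor
          · intro hx
            by_cases hxU : x ∈ U
            · exact Or.inr hxU
            · exact Or.inl (Finset.card_le_one.1 h6 _ (Finset.mem_sdiff.2 ⟨hx, hxU⟩) _ hK')
          · rintro (rfl | hx)
            · exact (Finset.mem_sdiff.1 hK').1
            · exact h4 hx
        rw [h11] at h7
        exact UpN.step U K' h7 ((h5.trans (Finset.filter_subset _ _)) (Finset.mem_sdiff.1 hK').1) hcon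
    choose! U hUH hUc hUy using h3
    obtain ⟨f, R, hR, hfR, hfe⟩ := card_chars' hy U p (L.filter fun b => K₀ b = K) hUy
    have h4 : ∀ r ∈ R, ((L.filter fun b => K₀ b = K).filter fun b => f b = r).card ≤ N' := by
      intro r _
      rcases ((L.filter fun b => K₀ b = K).filter fun b => f b = r).eq_empty_or_nonempty with h5 | ⟨b, hb⟩
      · rw [h5, Finset.card_empty]
        exact Nat.zero_le _
      rw [Finset.mem_filter] at hb
      obtain ⟨hb1, hb2⟩ := hb
      obtain ⟨c, hc1, hc2⟩ := Finset.exists_subset_card_eq (hUc b hb1)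
      have hbz := (Finset.mem_filter.1 (Finset.mem_filter.1 hb1).1).2
      have hcv : ∀ i ∈ c, b i ≠ o := fun i hi => hS₁ b hbz i (Finset.mem_inter.1 (hc1 hi)).2
      have h6 : ((L.filter fun b => K₀ b = K).filter fun b => f b = r) ⊆
          univ.filter fun b' : V → A => (∀ i ∈ c, b' i = b i) ∧ (univ.filter fun i => b' i = o).card = z := by
        intro b' hb'
        rw [Finset.mem_filter] at hb'
        obtain ⟨hb1', hb2'⟩ := hb'
        have hbz' := (Finset.mem_filter.1 (Finset.mem_filter.1 hb1').1).2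
        refine Finset.mem_filter.2 ⟨Finset.mem_univ _, fun i hi => ?_, hbz'⟩
        have h7 := hfe b hb1 b' hb1' (hb2.trans hb2'.symm)
        obtain ⟨hic, hiS⟩ := Finset.mem_inter.1 (hc1 hi)
        rw [cut, Finset.mem_filter] at hic
        obtain ⟨-, ⟨K₁, hK₁, hiK₁⟩, K₂, hK₂, hiK₂⟩ := hic
        rw [Finset.mem_sdiff] at hK₂
        have hpi : p b i = b i := by simp [hp, hiS]
        have h8 := hT.2 (U b) (hUH b hb1) (U b') (hUH b' hb1') (p b) (p b') h7 i (Finset.mem_univ _) (p b i)
          (by rw [hpi]; exact hcv i hi) K₁ (hUH b hb1 hK₁) hiK₁ K₂ hK₂.1 hiK₂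
        have h9 : p b' i = p b i := by
          by_contra hcon
          have h10 := h8.2 (by simp [ex, hcon])
          simp [ex, hK₁, hK₂.2] at h10
        have h10 : i ∈ S₁ b' := by
          by_contra hcon
          have h11 : p b' i = o := by simp [hp, hcon]
          exact hcv i hi (by rw [← hpi, ← h9, h11])
        have h11 : p b' i = b' i := by simp [hp, h10]
        rw [← h11, h9, hpi]
      refine (Finset.card_le_card h6).trans ?_
      rw [card_lab o c b hcv z, hc2]
    have h5 := Finset.card_le_mul_card_image_of_maps_to (s := L.filter fun b => K₀ b = K) (t := R) (f := f) hfR N' h4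
    exact h5.trans (Nat.mul_le_mul_left _ hR)
  have h3 : L.card ≤ N' * Fintype.card ι * H.card :=
    Finset.card_le_mul_card_image_of_maps_to (s := L) (t := H) (f := K₀)
      (fun b hb => hK₀ b (Finset.mem_filter.1 hb).2) _ key
  have h4 : L.card = (Fintype.card V).choose z * (Fintype.card A - 1) ^ (Fintype.card V - z) := by
    have h5 := card_lab (V := V) o ∅ (fun _ => o) (by simp) z
    simpa [hL] using h5
  rw [h4, hN'] at h3
  rcases Nat.eq_zero_or_pos (Fintype.card A - 1) with h5 | h5
  · rw [h5, zero_pow (by omega), zero_mul]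
    exact Nat.zero_le _
  have e1 : Fintype.card V - z = (w - z) + (Fintype.card V - w) := by omega
  have e2 : Fintype.card V - (w - z) - z = Fintype.card V - w := by omega
  rw [e1, e2, pow_add] at h3
  have h6 : 0 < (Fintype.card A - 1) ^ (Fintype.card V - w) := pow_pos h5 _
  refine Nat.le_of_mul_le_mul_right ?_ h6
  calc (Fintype.card A - 1) ^ (w - z) * (Fintype.card V).choose z * (Fintype.card A - 1) ^ (Fintype.card V - w)
      = (Fintype.card V).choose z * ((Fintype.card A - 1) ^ (w - z) * (Fintype.card A - 1) ^ (Fintype.card V - w)) := by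
        ring
    _ ≤ _ := h3
    _ = _ := by ring

end Pool.Agent.HS38.GT
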