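import Pool.Agent.HS38.GT.Stm6
import Pool.Agent.HS38.GT.CW

/-!
# LWC: linear width and contraction width
-/

set_option autoImplicit false

namespace Pool.Agent.HS38.GT.LWC

open Finset Pool.Agent.HS38.GT

variable {V : Type} [Fintype V] [DecidableEq V]

lemma cut_union_subset (H S S' : Finset (Finset V)) : cut H (S ∪ S') ⊆ cut H S ∪ cut H S' := by
  intro i hi
  unfold cut at hi ⊢
  rw [mem_filter] at hi
  rw [mem_union, mem_filter, mem_filter]
  obtain ⟨-, ⟨K, hK, hiK⟩, K', hK', hiK'⟩ := hi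
  rw [mem_sdiff, mem_union, not_or] at hK'
  rw [mem_union] at hK
  rcases hK with hK | hK
  · exact Or.inl ⟨mem_univ _, ⟨K, hK, hiK⟩, K', mem_sdiff.2 ⟨hK'.1, hK'.2.1⟩, hiK'⟩
  · exact Or.inr ⟨mem_univ _, ⟨K, hK, hiK⟩, K', mem_sdiff.2 ⟨hK'.1, hK'.2.2⟩, hiK'⟩

lemma cut_empty (H : Finset (Finset V)) : cut H ∅ = ∅ := by
  unfold cut
  rw [filter_eq_empty_iff]
  rintro i - ⟨⟨K, hK, -⟩, -⟩
  simp at hK

lemma suffix_append {α : Type} {s l₁ l₂ : List α} (h : s <:+ l₂ ++ l₁) :
    s <:+ l₁ ∨ ∃ s', s' <:+ l₂ ∧ s = s' ++ l₁ := by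
  obtain ⟨t, ht⟩ := h
  rcases List.append_eq_append_iff.1 ht with ⟨e, h1, h2⟩ | ⟨e, h1, h2⟩
  · exact Or.inr ⟨e, ⟨t, h1.symm⟩, h2⟩
  · exact Or.inl ⟨e, h2.symm⟩

omit [Fintype V] in
lemma leaves_nonempty (T : CTree V) : T.leaves.Nonempty := by
  induction T with
  | leaf K => exact singleton_nonempty K
  | node l r hl hr => exact hl.mono subset_union_left

/-- the list for two parts, the second one is not larger -/
lemma step (H S₁ S₂ : Finset (Finset V)) (w : ℕ) (hd : Disjoint S₁ S₂) (h2 : S₂.Nonempty) (hle : S₂.card ≤ S₁.card)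
    (hc1 : (cut H S₁).card ≤ w) (l₁ l₂ : List (Finset V)) (hn1 : l₁.Nodup) (hn2 : l₂.Nodup)
    (hl1 : l₁.toFinset = S₁) (hl2 : l₂.toFinset = S₂)
    (hs1 : ∀ s, s <:+ l₁ → (cut H s.toFinset).card ≤ w * (Nat.log 2 S₁.card + 1))
    (hs2 : ∀ s, s <:+ l₂ → (cut H s.toFinset).card ≤ w * (Nat.log 2 S₂.card + 1)) :
    ∃ l : List (Finset V), l.Nodup ∧ l.toFinset = S₁ ∪ S₂ ∧
      ∀ s, s <:+ l → (cut H s.toFinset).card ≤ w * (Nat.log 2 (S₁ ∪ S₂).card + 1) := by
  have hcard : (S₁ ∪ S₂).card = S₁.card + S₂.card := card_union_of_disjoint hd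
  have hpos : 0 < S₂.card := h2.card_pos
  refine ⟨l₂ ++ l₁, ?_, ?_, ?_⟩
  · rw [List.nodup_append]
    refine ⟨hn2, hn1, fun a ha b hb hab => ?_⟩
    subst hab
    exact (disjoint_left.1 hd) (hl1 ▸ List.mem_toFinset.2 hb) (hl2 ▸ List.mem_toFinset.2 ha)
  · rw [List.toFinset_append, hl1, hl2, union_comm]
  · intro s hs
    rcases suffix_append hs with hs | ⟨s', hs', rfl⟩
    · refine (hs1 s hs).trans (Nat.mul_le_mul_left _ (Nat.succ_le_succ (Nat.log_mono_right ?_)))
      rw [hcard]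
      omega
    · rw [List.toFinset_append, hl1]
      have h3 : (cut H (s'.toFinset ∪ S₁)).card ≤ (cut H s'.toFinset).card + (cut H S₁).card :=
        (card_le_card (cut_union_subset H _ _)).trans (card_union_le _ _)
      have h4 := hs2 s' hs'
      have h5 : Nat.log 2 S₂.card + 1 ≤ Nat.log 2 (S₁ ∪ S₂).card := by
        have h6 : Nat.log 2 (S₂.card * 2) = Nat.log 2 S₂.card + 1 := Nat.log_mul_base (by norm_num) (by omega)
        rw [← h6]
        refine Nat.log_mono_right ?_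
        rw [hcard]
        omega
      calc (cut H (s'.toFinset ∪ S₁)).card ≤ w * (Nat.log 2 S₂.card + 1) + w := by omega
        _ = w * ((Nat.log 2 S₂.card + 1) + 1) := by ring
        _ ≤ w * (Nat.log 2 (S₁ ∪ S₂).card + 1) := Nat.mul_le_mul_left _ (by omega)

lemma main (H : Finset (Finset V)) (w : ℕ) (T : CTree V) (hT : T.Proper) (hw : T.width H ≤ w)
    (hc : (cut H T.leaves).card ≤ w) :
    ∃ l : List (Finset V), l.Nodup ∧ l.toFinset = T.leaves ∧
      ∀ s, s <:+ l → (cut H s.toFinset).card ≤ w * (Nat.log 2 T.leaves.card + 1) := by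
  induction T with
  | leaf K =>
    refine ⟨[K], List.nodup_singleton K, by simp [CTree.leaves], fun s hs => ?_⟩
    have h1 : (CTree.leaf K).leaves.card = 1 := card_singleton K
    rw [h1]
    have h2 : s = [] ∨ s = [K] := by
      rcases List.suffix_cons_iff.1 hs with h | h
      · exact Or.inr h
      · exact Or.inl (List.suffix_nil.1 h)
    rcases h2 with rfl | rfl
    · rw [List.toFinset_nil, cut_empty]
      exact Nat.zero_le _
    · have h3 : ([K] : List (Finset V)).toFinset = (CTree.leaf K).leaves := by simp [CTree.leaves]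
      rw [h3]
      simpa using hc
  | node l r hl hr =>
    obtain ⟨hpl, hpr, hd⟩ := hT
    have hw1 : (cut H l.leaves ∪ cut H r.leaves).card ≤ w := (le_max_left _ _).trans hw
    have hw2 : l.width H ≤ w := ((le_max_left _ _).trans (le_max_right _ _)).trans hw
    have hw3 : r.width H ≤ w := ((le_max_right _ _).trans (le_max_right _ _)).trans hw
    have hcl : (cut H l.leaves).card ≤ w := (card_le_card subset_union_left).trans hw1
    have hcr : (cut H r.leaves).card ≤ w := (card_le_card subset_union_right).trans hw1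
    obtain ⟨l₁, hn1, he1, hs1⟩ := hl hpl hw2 hcl
    obtain ⟨l₂, hn2, he2, hs2⟩ := hr hpr hw3 hcr
    change ∃ l' : List (Finset V), l'.Nodup ∧ l'.toFinset = l.leaves ∪ r.leaves ∧
      ∀ s, s <:+ l' → (cut H s.toFinset).card ≤ w * (Nat.log 2 (l.leaves ∪ r.leaves).card + 1)
    rcases le_total r.leaves.card l.leaves.card with h | h
    · exact step H _ _ w hd (leaves_nonempty r) h hcl l₁ l₂ hn1 hn2 he1 he2 hs1 hs2
    · rw [union_comm]
      exact step H _ _ w hd.symm (leaves_nonempty l) h hcr l₂ l₁ hn2 hn1 he2 he1 hs2 hs1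

end Pool.Agent.HS38.GT.LWC

namespace Pool.Agent.HS38.GT

open Finset

theorem t_LWC : S_LWC := by
  intro V _ _ H hH
  have hne : {w | ∃ T : CTree V, T.Proper ∧ T.leaves = H ∧ T.width H = w}.Nonempty := by
    obtain ⟨T, h1, h2⟩ := CW.exists_tree H hH
    exact ⟨_, T, h1, h2, rfl⟩
  obtain ⟨T, h1, h2, h3⟩ := Nat.sInf_mem hne
  have h4 : T.width H = cwidth H := h3
  have h5 : cut H H = ∅ := by
    unfold cut
    rw [filter_eq_empty_iff]
    rintro i - ⟨-, K, hK, -⟩
    simp at hK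
  obtain ⟨l, hn, hl, hs⟩ := LWC.main H (cwidth H) T h1 h4.le (by rw [h2, h5]; exact Nat.zero_le _)
  rw [h2] at hl hs
  exact Nat.sInf_le ⟨l, hn, hl, hs⟩

end Pool.Agent.HS38.GT
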