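import Pool.Agent.HS38.GT.Stm2
import Pool.Agent.HS38.GT.Cup

/-!
# Piece LUP (helper61): transfer matrices along a row of the scopes
-/

set_option autoImplicit false
set_option linter.unusedSectionVars false

namespace Pool.Agent.HS38.GT

open MvPolynomial Finset Pool.Agent.Helper1x.EQ

namespace LUP

section det

variable {ι R : Type} [Fintype ι] [DecidableEq ι] [CommRing R]

lemma det_unip (lev : ι → ℕ) (E' : Matrix ι ι R) (hE : ∀ i j, lev j ≤ lev i → E' i j = 0) :
    (1 - E').det = 1 := by
  have hT : Matrix.BlockTriangular (1 - E') lev := by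
    intro i j hij
    rw [Matrix.sub_apply, hE i j hij.le, Matrix.one_apply_ne, sub_zero]
    rintro rfl
    exact lt_irrefl _ hij
  rw [hT.det]
  refine Finset.prod_eq_one fun a _ => ?_
  have h1 : (1 - E').toSquareBlock lev a = 1 := by
    ext ⟨i, hi⟩ ⟨j, hj⟩
    rw [Matrix.toSquareBlock_def, Matrix.of_apply, Matrix.sub_apply, hE i j (by rw [hi, hj]),
      sub_zero, Matrix.one_apply, Matrix.one_apply]
    simp only [Subtype.mk.injEq]
  rw [h1, Matrix.det_one]

/-- the matrix -/
def mat (E' : Matrix ι ι R) (a : R) (b c : ι → R) : Matrix (Unit ⊕ ι) (Unit ⊕ ι) R :=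
  Matrix.fromBlocks (Matrix.of fun _ _ => a) (Matrix.of fun _ j => - b j)
    (Matrix.of fun i _ => c i) (1 - E')

lemma det_mat (lev : ι → ℕ) (E' : Matrix ι ι R) (hE : ∀ i j, lev j ≤ lev i → E' i j = 0) (a : R)
    (b c G : ι → R) (hG : ∀ j, G j = b j + ∑ i, G i * E' i j) :
    (mat E' a b c).det = a + ∑ i, G i * c i := by
  have h1 : (Matrix.fromBlocks 1 (Matrix.of fun _ i => G i) 0 1 :
      Matrix (Unit ⊕ ι) (Unit ⊕ ι) R) * mat E' a b c =
      Matrix.fromBlocks (Matrix.of fun _ _ => a + ∑ i, G i * c i) 0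
        (Matrix.of fun i _ => c i) (1 - E') := by
    unfold mat
    rw [Matrix.fromBlocks_multiply]
    congr 1
    · rw [Matrix.one_mul]
      ext i j
      simp [Matrix.add_apply, Matrix.mul_apply]
    · rw [Matrix.one_mul]
      ext i j
      rw [Matrix.add_apply, Matrix.mul_apply, Matrix.zero_apply]
      simp only [Matrix.sub_apply, mul_sub, Finset.sum_sub_distrib, Matrix.of_apply]
      have h2 : ∑ x, G x * (1 : Matrix ι ι R) x j = G j := by
        simp [Matrix.one_apply]
      rw [h2]
      linear_combination hG j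
    · rw [Matrix.zero_mul, Matrix.one_mul, zero_add]
    · rw [Matrix.zero_mul, Matrix.one_mul, zero_add]
  have h2 := congrArg Matrix.det h1
  rw [Matrix.det_mul, Matrix.det_fromBlocks_zero₂₁, Matrix.det_one, Matrix.det_one, one_mul,
    one_mul, Matrix.det_fromBlocks_zero₁₂, det_unip lev E' hE, mul_one] at h2
  rw [h2, Matrix.det_unique]
  rfl

end det

section seq

variable {V A : Type} [Fintype V] [DecidableEq V] [Fintype A] [DecidableEq A]

/-- the variables all of whose scopes are in `U` -/
def dn (H U : Finset (Finset V)) : Finset V := univ.filter fun i => ∀ K ∈ H, i ∈ K → K ∈ U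

lemma mem_dn {H U : Finset (Finset V)} {i : V} : i ∈ dn H U ↔ ∀ K ∈ H, i ∈ K → K ∈ U := by
  unfold dn
  rw [Finset.mem_filter]
  exact ⟨fun h => h.2, fun h => ⟨Finset.mem_univ _, h⟩⟩

/-- a row of the scopes -/
structure Row (H : Finset (Finset V)) (D : ℕ) (K : ℕ → Finset V) (U : ℕ → Finset (Finset V)) :
    Prop where
  zero : U 0 = ∅
  last : U D = H
  nm : ∀ j < D, K j ∉ U j
  ins : ∀ j < D, U (j + 1) = insert (K j) (U j)

variable {H : Finset (Finset V)} {D : ℕ} {K : ℕ → Finset V} {U : ℕ → Finset (Finset V)}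

lemma Row.mono (h : Row H D K U) {j k : ℕ} (hjk : j ≤ k) (hk : k ≤ D) : U j ⊆ U k := by
  induction k, hjk using Nat.le_induction with
  | base => exact Finset.Subset.refl _
  | succ k hjk ih =>
    rw [h.ins k (by omega)]
    exact (ih (by omega)).trans (Finset.subset_insert _ _)

lemma Row.sub (h : Row H D K U) {j : ℕ} (hj : j ≤ D) : U j ⊆ H := by
  have := h.mono hj le_rfl
  rwa [h.last] at this

lemma Row.mem (h : Row H D K U) {j : ℕ} (hj : j < D) : K j ∈ H := by
  apply h.sub (j := j + 1) hj
  rw [h.ins j hj]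
  exact Finset.mem_insert_self _ _

lemma Row.dn_mono (h : Row H D K U) {j : ℕ} (hj : j < D) : dn H (U j) ⊆ dn H (U (j + 1)) := by
  intro i hi
  rw [mem_dn] at hi ⊢
  exact fun L hL hiL => h.mono (Nat.le_succ j) hj (hi L hL hiL)

lemma Row.not_mem (h : Row H D K U) {j : ℕ} (hj : j < D) {i : V} (hi : i ∈ dn H (U j)) :
    i ∉ K j := fun hiK => h.nm j hj (mem_dn.1 hi _ (h.mem hj) hiK)

lemma mem_cut' {U : Finset (Finset V)} {i : V} :
    i ∈ cut H U ↔ (∃ K ∈ U, i ∈ K) ∧ ∃ K ∈ H, K ∉ U ∧ i ∈ K := by
  unfold cut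
  simp only [Finset.mem_filter, Finset.mem_univ, true_and, Finset.mem_sdiff, and_assoc]

lemma cut_dn {U : Finset (Finset V)} {i : V} (hi : i ∈ cut H U) : i ∉ dn H U := by
  rw [mem_cut'] at hi
  obtain ⟨-, L, hL, hLU, hiL⟩ := hi
  intro h
  exact hLU (mem_dn.1 h L hL hiL)

lemma cut_or {U : Finset (Finset V)} {i : V} {L : Finset V} (hL : L ∈ U) (hi : i ∈ L)
    (h : i ∉ cut H U) : i ∈ dn H U := by
  rw [mem_dn]
  intro M hM hiM
  by_contra hMU
  exact h (mem_cut'.2 ⟨⟨L, hL, hi⟩, M, hM, hMU, hiM⟩)

/-- the assignment with the value `o` outside `C` -/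
def rho (C : Finset V) (o : A) (d : V → A) : V → A := fun i => if i ∈ C then d i else o

/-- the states -/
def St (C : Finset V) (o : A) : Finset (V → A) :=
  Fintype.piFinset fun i => if i ∈ C then univ else {o}

lemma rho_mem (C : Finset V) (o : A) (d : V → A) : rho C o d ∈ St C o := by
  unfold St rho
  rw [Fintype.mem_piFinset]
  intro i
  split_ifs
  · exact Finset.mem_univ _
  · exact Finset.mem_singleton_self _

lemma card_St (C : Finset V) (o : A) : (St C o).card = Fintype.card A ^ C.card := by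
  unfold St
  rw [Fintype.card_piFinset]
  have h1 : ∀ i, (if i ∈ C then (univ : Finset A) else {o}).card =
      if i ∈ C then Fintype.card A else 1 := by
    intro i
    split_ifs
    · rfl
    · rfl
  rw [Finset.prod_congr rfl fun i _ => h1 i, Finset.prod_ite_mem, Finset.univ_inter,
    Finset.prod_const]

lemma St_empty (o : A) : St (∅ : Finset V) o = {fun _ => o} := by
  ext s
  unfold St
  rw [Fintype.mem_piFinset, Finset.mem_singleton]
  constructor
  · intro h
    funext i
    have := h i
    simpa using this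
  · rintro rfl i
    simp

variable (F : Type) [Field F] (H) (K) (U)

/-- the entries of the transfer matrices -/
noncomputable def T (o : A) (j : ℕ) (s b : V → A) : MvPolynomial (V → Option A) F :=
  ∑ d ∈ univ.filter (fun d : V → A => (∀ i, i ∉ dn H (U (j + 1)) \ dn H (U j) → d i = b i) ∧
    rho (cut H (U j)) o d = s), X (restr (K j) d)

/-- the partial sums -/
noncomputable def g (j : ℕ) (b : V → A) : MvPolynomial (V → Option A) F :=
  Cup.E (dn H (U j)) b fun a => ∏ L ∈ U j, (X (restr L a) : MvPolynomial (V → Option A) F)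

variable {H K U}

lemma g_dep {j : ℕ} {b b' : V → A} (hb : ∀ i ∈ cut H (U j), b i = b' i) :
    g H U F j b = g H U F j b' := by
  unfold g
  refine Cup.E_dep (C := cut H (U j) ∪ dn H (U j)) ?_ ?_
  · intro a a' h
    refine Finset.prod_congr rfl fun L hL => ?_
    congr 1
    funext i
    unfold restr
    split_ifs with hi
    · congr 1
      apply h
      rw [Finset.mem_union]
      by_cases h1 : i ∈ cut H (U j)
      · exact Or.inl h1
      · exact Or.inr (cut_or hL hi h1)
    · rfl
  · intro i hi hi'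
    rw [Finset.mem_union] at hi
    exact hb i (hi.resolve_right hi')

/-- the recursion -/
lemma Row.step (h : Row H D K U) (o : A) {j : ℕ} (hj : j < D) (b : V → A) :
    g H U F (j + 1) b = ∑ s ∈ St (cut H (U j)) o, g H U F j s * T H K U F o j s b := by
  have e1 : dn H (U (j + 1)) = (dn H (U (j + 1)) \ dn H (U j)) ∪ dn H (U j) :=
    (Finset.sdiff_union_of_subset (h.dn_mono hj)).symm
  have e2 : g H U F (j + 1) b = Cup.E (dn H (U (j + 1)) \ dn H (U j)) b fun d =>
      Cup.E (dn H (U j)) d fun a => ∏ L ∈ U (j + 1),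
        (X (restr L a) : MvPolynomial (V → Option A) F) := by
    unfold g
    conv_lhs => rw [e1]
    exact Cup.E_fub Finset.sdiff_disjoint b _
  have e3 : ∀ d : V → A, (Cup.E (dn H (U j)) d fun a => ∏ L ∈ U (j + 1),
        (X (restr L a) : MvPolynomial (V → Option A) F)) =
      g H U F j d * X (restr (K j) d) := by
    intro d
    unfold g Cup.E
    rw [Finset.sum_mul]
    refine Finset.sum_congr rfl fun a ha => ?_
    rw [Finset.mem_filter] at ha
    beta_reduce
    rw [h.ins j hj, Finset.prod_insert (h.nm j hj), mul_comm]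
    congr 2
    funext i
    unfold restr
    split_ifs with hi
    · rw [ha.2 i fun h' => h.not_mem hj h' hi]
    · rfl
  rw [e2]
  simp only [e3]
  unfold Cup.E
  rw [← Finset.sum_fiberwise_of_maps_to (t := St (cut H (U j)) o) (g := rho (cut H (U j)) o)
    (fun d _ => rho_mem _ _ d)]
  refine Finset.sum_congr rfl fun s _ => ?_
  unfold T
  rw [Finset.mul_sum, Finset.filter_filter]
  refine Finset.sum_congr rfl fun d hd => ?_
  rw [Finset.mem_filter] at hd
  congr 1
  apply g_dep
  intro i hi
  rw [← hd.2.2]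
  unfold rho
  rw [if_pos hi]

lemma Row.g_zero (h : Row H D K U) (hH : ∀ i, ∃ L ∈ H, i ∈ L) (b : V → A) :
    g H U F 0 b = 1 := by
  unfold g
  have e : dn H (U 0) = ∅ := by
    rw [Finset.eq_empty_iff_forall_notMem]
    intro i hi
    rw [mem_dn, h.zero] at hi
    obtain ⟨L, hL, hiL⟩ := hH i
    exact Finset.notMem_empty _ (hi L hL hiL)
  rw [e, h.zero]
  unfold Cup.E
  have e2 : (univ.filter fun a : V → A => ∀ i, i ∉ (∅ : Finset V) → a i = b i) = {b} := by
    ext a
    simp only [Finset.mem_filter, Finset.mem_univ, true_and, Finset.mem_singleton,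
      Finset.notMem_empty, not_false_eq_true, forall_true_left]
    exact funext_iff.symm
  rw [e2, Finset.sum_singleton, Finset.prod_empty]

lemma Row.g_last (h : Row H D K U) (b : V → A) : g H U F D b = Z F A H := by
  unfold g Z
  have e : dn H (U D) = univ := by
    rw [Finset.eq_univ_iff_forall]
    intro i
    rw [mem_dn, h.last]
    exact fun L hL _ => hL
  rw [e, h.last]
  unfold Cup.E
  refine Finset.sum_congr ?_ fun _ _ => rfl
  ext a
  simp

lemma deg_T (o : A) (j : ℕ) (s b : V → A) : (T H K U F o j s b).totalDegree ≤ 1 := by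
  unfold T
  refine totalDegree_finsetSum_le fun d _ => ?_
  rw [totalDegree_X]

variable {F}

/-- the gauge factor of a partial product -/
noncomputable def Wt (t : Finset V → V → A → Fˣ) (U' : Finset (Finset V)) (d : V → A) : F :=
  ∏ L ∈ U', gauge t (restr L d)

lemma Wt_ne (t : Finset V → V → A → Fˣ) (U' : Finset (Finset V)) (d : V → A) : Wt t U' d ≠ 0 :=
  Finset.prod_ne_zero_iff.2 fun _ _ => Dup.gauge_ne t _

lemma Wt_congr {t : Finset V → V → A → Fˣ} (ht : IsGauge H t) {U' : Finset (Finset V)}
    (hU : U' ⊆ H) {d d' : V → A} (h : ∀ i ∈ cut H U', d i = d' i) : Wt t U' d = Wt t U' d' := by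
  unfold Wt
  have e1 : ∀ d : V → A, ∏ L ∈ U', gauge t (restr L d) =
      ((∏ i, ∏ L ∈ U'.filter (fun L => i ∈ L), t L i (d i) : Fˣ) : F) := by
    intro d
    rw [Finset.prod_congr rfl fun L _ => Dup.gauge_restr t L d, ← Units.coe_prod]
    congr 1
    have h1 : ∀ L ∈ U', ∏ i ∈ L, t L i (d i) = ∏ i, if i ∈ L then t L i (d i) else 1 := by
      intro L _
      rw [Finset.prod_ite_mem, Finset.univ_inter]
    rw [Finset.prod_congr rfl h1, Finset.prod_comm]
    refine Finset.prod_congr rfl fun i _ => ?_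
    rw [← Finset.prod_filter]
  rw [e1, e1]
  congr 1
  refine Finset.prod_congr rfl fun i _ => ?_
  by_cases hi : i ∈ cut H U'
  · rw [h i hi]
  · by_cases h2 : ∃ L ∈ U', i ∈ L
    · obtain ⟨L, hL, hiL⟩ := h2
      have h3 := mem_dn.1 (cut_or hL hiL hi)
      have e2 : U'.filter (fun L => i ∈ L) = H.filter (fun L => i ∈ L) := by
        ext M
        rw [Finset.mem_filter, Finset.mem_filter]
        exact ⟨fun hM => ⟨hU hM.1, hM.2⟩, fun hM => ⟨h3 M hM.1 hM.2, hM.2⟩⟩
      rw [e2, ht i, ht i]
    · push Not at h2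
      have e2 : U'.filter (fun L => i ∈ L) = ∅ := by
        rw [Finset.filter_eq_empty_iff]
        exact fun M hM hiM => h2 M hM hiM
      rw [e2, Finset.prod_empty, Finset.prod_empty]

/-- the gauge and the entries -/
lemma Row.scale_T (h : Row H D K U) {t : Finset V → V → A → Fˣ} (ht : IsGauge H t) (o : A)
    {j : ℕ} (hj : j < D) (s b : V → A) :
    scale (gauge t) (T H K U F o j s b) =
      C ((Wt t (U j) s)⁻¹ * Wt t (U (j + 1)) b) * T H K U F o j s b := by
  unfold T
  rw [map_sum, Finset.mul_sum]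
  refine Finset.sum_congr rfl fun d hd => ?_
  rw [Finset.mem_filter] at hd
  obtain ⟨-, h1, h2⟩ := hd
  rw [scale_X]
  congr 2
  have e1 : Wt t (U (j + 1)) d = gauge t (restr (K j) d) * Wt t (U j) d := by
    unfold Wt
    rw [h.ins j hj, Finset.prod_insert (h.nm j hj)]
  have e2 : Wt t (U j) d = Wt t (U j) s := by
    refine Wt_congr ht (h.sub hj.le) fun i hi => ?_
    rw [← h2]
    unfold rho
    rw [if_pos hi]
  have e3 : Wt t (U (j + 1)) d = Wt t (U (j + 1)) b := by
    refine Wt_congr ht (h.sub hj) fun i hi => ?_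
    apply h1
    intro h3
    exact cut_dn hi (Finset.mem_sdiff.1 h3).1
  rw [← e3, e1, e2]
  have h0 := Wt_ne t (U j) s
  field_simp

end seq

section list

variable {V : Type} [Fintype V] [DecidableEq V]

lemma row_of_list {H : Finset (Finset V)} {l : List (Finset V)} (hl : l.Nodup)
    (hH : l.toFinset = H) : Row H l.length (fun j => l.reverse.getD j ∅)
      (fun j => (l.reverse.take j).toFinset) := by
  have hlen : l.reverse.length = l.length := List.length_reverse
  have hnd : l.reverse.Nodup := List.nodup_reverse.2 hl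
  have htk : ∀ j < l.length, l.reverse.take (j + 1) = l.reverse.take j ++
      [l.reverse.getD j ∅] := by
    intro j hj
    have hj' : j < l.reverse.length := by omega
    rw [List.take_succ_eq_append_getElem hj', List.getD_eq_getElem _ _ hj']
  refine ⟨?_, ?_, fun j hj => ?_, fun j hj => ?_⟩
  · simp
  · rw [← hlen, List.take_length, List.toFinset_reverse, hH]
  · rw [List.mem_toFinset]
    have h1 : (l.reverse.take (j + 1)).Nodup := (List.take_sublist _ _).nodup hnd
    rw [htk j hj, List.nodup_append] at h1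
    intro h2
    exact h1.2.2 _ h2 _ (List.mem_singleton_self _) rfl
  · rw [htk j hj]
    ext M
    simp only [List.mem_toFinset, List.mem_append, List.mem_singleton, Finset.mem_insert]
    exact or_comm

end list

end LUP

open LUP in
theorem t_LUP : S_LUP := by
  intro F _ V A _ _ _ _ _ H hne hcov
  -- the row
  have hex : {w | ∃ l : List (Finset V), l.Nodup ∧ l.toFinset = H ∧
      ∀ s, s <:+ l → (cut H s.toFinset).card ≤ w}.Nonempty :=
    ⟨Fintype.card V, H.toList, Finset.nodup_toList H, Finset.toList_toFinset H,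
      fun s _ => Finset.card_le_univ _⟩
  obtain ⟨l, hl1, hl2, hl3⟩ := Nat.sInf_mem hex
  have hl3' : ∀ s, s <:+ l → (cut H s.toFinset).card ≤ lwidth H := hl3
  have hR := row_of_list hl1 hl2
  obtain ⟨n, hn⟩ : ∃ n, l.length = n + 1 := by
    refine ⟨l.length - 1, ?_⟩
    have h1 : H.card ≤ l.length := by
      rw [← hl2]
      exact List.toFinset_card_le l
    have := Finset.card_pos.2 hne
    omega
  have hn' : H.card = n + 1 := by
    rw [← hl2, List.toFinset_card_of_nodup hl1, hn]
  rw [hn] at hR
  obtain ⟨K, hK⟩ : ∃ K : ℕ → Finset V, K = fun j => l.reverse.getD j ∅ := ⟨_, rfl⟩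
  obtain ⟨U, hU⟩ : ∃ U : ℕ → Finset (Finset V), U = fun j => (l.reverse.take j).toFinset :=
    ⟨_, rfl⟩
  rw [← hK, ← hU] at hR
  have hcut : ∀ j, (cut H (U j)).card ≤ lwidth H := by
    intro j
    rw [hU]
    beta_reduce
    rw [List.take_reverse, List.toFinset_reverse]
    exact hl3' _ (List.drop_suffix _ _)
  let o : A := Classical.arbitrary A
  let oo : V → A := fun _ => o
  let ι : Type := Σ j : Fin n, ↥(St (cut H (U ((j : ℕ) + 1))) o)
  let P := MvPolynomial (V → Option A) F
  let TT : ℕ → (V → A) → (V → A) → P := fun j s b => T H K U F o j s b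
  let ca : P := if n = 0 then TT 0 oo oo else 0
  let cb : ι → P := fun p => if (p.1 : ℕ) = 0 then TT 0 oo p.2.1 else 0
  let cc : ι → P := fun p => if (p.1 : ℕ) + 1 = n then TT n p.2.1 oo else 0
  let E' : Matrix ι ι P := Matrix.of fun p p' =>
    if (p'.1 : ℕ) = p.1 + 1 then TT (p.1 + 1) p.2.1 p'.2.1 else 0
  let gg : ι → P := fun p => g H U F (p.1 + 1) p.2.1
  have hE : ∀ p p' : ι, (p'.1 : ℕ) ≤ p.1 → E' p p' = 0 := by
    intro p p' h
    change (if (p'.1 : ℕ) = p.1 + 1 then _ else (0 : P)) = 0
    rw [if_neg (by omega)]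
  have hstep : ∀ j, j < n + 1 → ∀ b, g H U F (j + 1) b =
      ∑ s ∈ St (cut H (U j)) o, g H U F j s * TT j s b := fun j hj b => hR.step F o hj b
  have hc0 : cut H (U 0) = ∅ := by
    rw [hR.zero]
    unfold cut
    ext i
    simp
  have hstep0 : ∀ b, g H U F 1 b = TT 0 oo b := by
    intro b
    have h1 := hstep 0 (Nat.succ_pos n) b
    rw [hc0, St_empty, Finset.sum_singleton, hR.g_zero F hcov, one_mul] at h1
    exact h1
  -- a sum over the states of one level
  have hlev : ∀ (j : Fin n) (f : ι → P), (∀ p : ι, p.1 ≠ j → f p = 0) →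
      ∑ p, f p = ∑ s : ↥(St (cut H (U ((j : ℕ) + 1))) o), f ⟨j, s⟩ := by
    intro j f hf
    rw [Fintype.sum_sigma, Finset.sum_eq_single j]
    · intro j' _ hj'
      exact Finset.sum_eq_zero fun s _ => hf ⟨j', s⟩ hj'
    · intro h
      exact absurd (Finset.mem_univ _) h
  have hG : ∀ p : ι, gg p = cb p + ∑ q, gg q * E' q p := by
    rintro ⟨j', s'⟩
    change g H U F ((j' : ℕ) + 1) s'.1 = (if (j' : ℕ) = 0 then TT 0 oo s'.1 else 0) +
      ∑ q : ι, g H U F ((q.1 : ℕ) + 1) q.2.1 *
        (if (j' : ℕ) = q.1 + 1 then TT (q.1 + 1) q.2.1 s'.1 else 0)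
    obtain ⟨b', hb'⟩ : ∃ b' : V → A, b' = s'.1 := ⟨_, rfl⟩
    rw [← hb']
    by_cases h0 : (j' : ℕ) = 0
    · rw [if_pos h0, h0, zero_add, hstep0, Finset.sum_eq_zero, add_zero]
      intro q _
      rw [if_neg (by omega), mul_zero]
    · obtain ⟨k, hk⟩ : ∃ k, (j' : ℕ) = k + 1 := ⟨j' - 1, by omega⟩
      have hkn : k < n := by have := j'.2; omega
      rw [if_neg h0, zero_add, hlev ⟨k, hkn⟩]
      · simp only [hk, if_true]
        rw [hstep (k + 1) (by omega) b', ← Finset.sum_coe_sort]
      · intro q hq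
        rw [if_neg, mul_zero]
        intro h
        apply hq
        apply Fin.ext
        simp only
        omega
  have hdet : (mat E' ca cb cc).det = Z F A H := by
    rw [det_mat (fun p : ι => (p.1 : ℕ)) E' hE ca cb cc gg hG]
    change (if n = 0 then TT 0 oo oo else 0) + ∑ q : ι, g H U F ((q.1 : ℕ) + 1) q.2.1 *
      (if (q.1 : ℕ) + 1 = n then TT n q.2.1 oo else 0) = _
    rcases Nat.eq_zero_or_pos n with h0 | h0
    · subst h0
      rw [if_pos rfl, ← hstep0, Finset.sum_eq_zero, add_zero]
      · exact hR.g_last F oo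
      · rintro ⟨q, _⟩ _
        exact q.elim0
    · obtain ⟨k, rfl⟩ : ∃ k, n = k + 1 := ⟨n - 1, by omega⟩
      have hkn : k < k + 1 := by omega
      rw [if_neg h0.ne', zero_add, hlev ⟨k, hkn⟩]
      · rw [← hR.g_last F oo, hstep (k + 1) (Nat.lt_succ_self _) oo]
        simp only [if_true]
        exact Finset.sum_coe_sort (St (cut H (U (k + 1))) o)
          (fun s => g H U F (k + 1) s * TT (k + 1) s oo)
      · intro q hq
        rw [if_neg, mul_zero]
        intro h
        apply hq
        apply Fin.ext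
        simp only
        omega
  have hdT : ∀ j s b, (TT j s b).totalDegree ≤ 1 := fun j s b => deg_T F o j s b
  have hd0 : (0 : P).totalDegree ≤ 1 := by
    rw [totalDegree_zero]; omega
  have hdeg : ∀ i j, (mat E' ca cb cc i j).totalDegree ≤ 1 := by
    rintro (i | i) (j | j)
    · change (if n = 0 then TT 0 oo oo else 0 : P).totalDegree ≤ 1
      split_ifs
      · exact hdT _ _ _
      · exact hd0
    · change (-(if (j.1 : ℕ) = 0 then TT 0 oo j.2.1 else 0) : P).totalDegree ≤ 1
      rw [totalDegree_neg]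
      split_ifs
      · exact hdT _ _ _
      · exact hd0
    · change (if (i.1 : ℕ) + 1 = n then TT n i.2.1 oo else 0 : P).totalDegree ≤ 1
      split_ifs
      · exact hdT _ _ _
      · exact hd0
    · change ((1 : Matrix ι ι P) i j -
        (if (j.1 : ℕ) = i.1 + 1 then TT (i.1 + 1) i.2.1 j.2.1 else 0) : P).totalDegree ≤ 1
      refine (totalDegree_sub _ _).trans (max_le ?_ ?_)
      · rw [Matrix.one_apply]
        split_ifs
        · rw [totalDegree_one]; omega
        · exact hd0
      · split_ifs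
        · exact hdT _ _ _
        · exact hd0
  have hcard : Fintype.card (Unit ⊕ ι) ≤ (H.card - 1) * Fintype.card A ^ lwidth H + 1 := by
    rw [Fintype.card_sum, Fintype.card_unit, Fintype.card_sigma, hn', Nat.add_sub_cancel, add_comm]
    refine Nat.add_le_add_right ?_ 1
    have h1 : ∀ j : Fin n, Fintype.card ↥(St (cut H (U ((j : ℕ) + 1))) o) ≤
        Fintype.card A ^ lwidth H := by
      intro j
      rw [Fintype.card_coe, card_St]
      exact Nat.pow_le_pow_right Fintype.card_pos (hcut _)
    refine (Finset.sum_le_sum fun j _ => h1 j).trans ?_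
    rw [Finset.sum_const, Finset.card_univ, Fintype.card_fin, smul_eq_mul]
  let e := Fintype.equivFin (Unit ⊕ ι)
  refine ⟨Fintype.card (Unit ⊕ ι), hcard, (mat E' ca cb cc).submatrix e.symm e.symm,
    ⟨fun i j => hdeg _ _, ?_⟩, fun t ht => ?_⟩
  · rw [Matrix.det_submatrix_equiv_self, hdet]
  · let W : ℕ → (V → A) → F := fun j d => Wt t (U j) d
    have hW : ∀ j d, W j d ≠ 0 := fun j d => Wt_ne t (U j) d
    have hW0 : ∀ d, W 0 d = 1 := by
      intro d
      change Wt t (U 0) d = 1
      unfold Wt
      rw [hR.zero, Finset.prod_empty]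
    have hW1 : ∀ d, W (n + 1) d = 1 := by
      intro d
      change Wt t (U (n + 1)) d = 1
      unfold Wt
      rw [hR.last]
      exact Dup.prod_gauge ht d
    have hS : ∀ j, j < n + 1 → ∀ s b, scale (gauge t) (TT j s b) =
        C ((W j s)⁻¹ * W (j + 1) b) * TT j s b := fun j hj s b => hR.scale_T ht o hj s b
    let β : Unit ⊕ ι → F := Sum.elim (fun _ => 1) fun p => (W (p.1 + 1) p.2.1)⁻¹
    have hβ : ∀ q, β q ≠ 0 := by
      rintro (q | q)
      · exact one_ne_zero
      · exact inv_ne_zero (hW _ _)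
    have key : ∀ q r, scale (gauge t) (mat E' ca cb cc q r) =
        C (β q) * mat E' ca cb cc q r * C (β r)⁻¹ := by
      have k1 : ∀ (j : ℕ) (b : V → A), scale (gauge t) (-(if j = 0 then TT 0 oo b else 0) : P) =
          C 1 * (-(if j = 0 then TT 0 oo b else 0) : P) * C ((W (j + 1) b)⁻¹)⁻¹ := by
        intro j b
        rw [inv_inv, C_1, one_mul]
        split_ifs with h
        · subst h
          rw [map_neg, hS 0 (Nat.succ_pos _), hW0, inv_one, one_mul]
          ring
        · rw [neg_zero, map_zero, zero_mul]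
      have k2 : ∀ (i : ℕ) (b : V → A), scale (gauge t) (if i + 1 = n then TT n b oo else 0 : P) =
          C ((W (i + 1) b)⁻¹) * (if i + 1 = n then TT n b oo else 0 : P) * C 1⁻¹ := by
        intro i b
        rw [inv_one, C_1, mul_one]
        split_ifs with h
        · rw [hS n (Nat.lt_succ_self n), hW1, mul_one, h]
        · rw [map_zero, mul_zero]
      have k3 : ∀ (i j : ℕ) (b b' : V → A), i < n → scale (gauge t)
          (if j = i + 1 then TT (i + 1) b b' else 0 : P) = C ((W (i + 1) b)⁻¹) *
            (if j = i + 1 then TT (i + 1) b b' else 0 : P) * C ((W (j + 1) b')⁻¹)⁻¹ := by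
        intro i j b b' hi
        rw [inv_inv]
        split_ifs with h
        · subst h
          rw [hS (i + 1) (by omega), C_mul]
          ring
        · rw [map_zero, mul_zero, zero_mul]
      rintro (i | i) (j | j)
      · change scale (gauge t) (if n = 0 then TT 0 oo oo else 0 : P) =
          C 1 * (if n = 0 then TT 0 oo oo else 0 : P) * C 1⁻¹
        rw [inv_one, C_1, one_mul, mul_one]
        split_ifs with h
        · subst h
          rw [hS 0 (Nat.succ_pos _), hW0, hW1, inv_one, one_mul, C_1, one_mul]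
        · exact map_zero _
      · exact k1 _ _
      · exact k2 _ _
      · have e1 : mat E' ca cb cc (Sum.inr i) (Sum.inr j) = (1 : Matrix ι ι P) i j -
            (if (j.1 : ℕ) = i.1 + 1 then TT (i.1 + 1) i.2.1 j.2.1 else 0) := rfl
        have e2 := k3 i.1 j.1 i.2.1 j.2.1 i.1.2
        have e3 : scale (gauge t) ((1 : Matrix ι ι P) i j) =
            C (β (Sum.inr i)) * (1 : Matrix ι ι P) i j * C (β (Sum.inr j))⁻¹ := by
          rw [Matrix.one_apply]
          split_ifs with h
          · subst h
            rw [map_one, mul_one, ← C_mul, mul_inv_cancel₀ (hβ _), C_1]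
          · rw [map_zero, mul_zero, zero_mul]
        rw [e1, map_sub, mul_sub, sub_mul, e3]
        exact congrArg (fun z => _ - z) e2
    refine ⟨Matrix.diagonal (β ∘ e.symm), Matrix.diagonal fun i => (β (e.symm i))⁻¹, ?_, ?_, ?_⟩
    · rw [Matrix.det_diagonal, isUnit_iff_ne_zero]
      exact Finset.prod_ne_zero_iff.2 fun i _ => hβ _
    · rw [Matrix.det_diagonal, isUnit_iff_ne_zero]
      exact Finset.prod_ne_zero_iff.2 fun i _ => inv_ne_zero (hβ _)
    · rw [Matrix.diagonal_map (map_zero _), Matrix.diagonal_map (map_zero _)]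
      ext1 i j
      rw [Matrix.mul_diagonal, Matrix.diagonal_mul, Matrix.map_apply, Matrix.submatrix_apply]
      exact key (e.symm i) (e.symm j)

end Pool.Agent.HS38.GT
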