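import Pool.Agent.HS38.GT.Stm3
import Pool.Agent.HS38.GT.Lup

/-!
# Piece LUP2 (helper61): the matrix of LUP is regular
-/

set_option autoImplicit false
set_option linter.unusedSectionVars false

namespace Pool.Agent.HS38.GT

open MvPolynomial Finset Pool.Agent.Helper1x.EQ

namespace LUP

lemma cc_T (F : Type) [Field F] {V A : Type} [Fintype V] [DecidableEq V] [Fintype A]
    [DecidableEq A] {H : Finset (Finset V)} {K : ℕ → Finset V} {U : ℕ → Finset (Finset V)} (o : A)
    (j : ℕ) (s b : V → A) : constantCoeff (T H K U F o j s b) = 0 := by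
  unfold T
  rw [map_sum]
  exact Finset.sum_eq_zero fun d _ => constantCoeff_X (R := F) (restr (K j) d)

lemma regular_aux {X F ι κ : Type} [Field F] [Fintype ι] [DecidableEq ι] [Fintype κ]
    [DecidableEq κ] {E' : Matrix ι ι (MvPolynomial X F)} {a : MvPolynomial X F}
    {b c : ι → MvPolynomial X F} (e : Unit ⊕ ι ≃ κ) (hc : ∀ p, constantCoeff (c p) = 0)
    (hb : ∀ p, constantCoeff (b p) = 0) (hE : ∀ p q, constantCoeff (E' p q) = 0)
    (ha : constantCoeff a = 0) :
    Regular ((mat E' a b c).submatrix e.symm e.symm) := by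
  classical
  unfold Regular
  have h1 : (mat E' a b c).map constantCoeff =
      Matrix.diagonal (Sum.elim (fun _ => (0 : F)) fun _ => (1 : F)) := by
    ext (i | i) (j | j)
    · change constantCoeff a = _
      rw [ha]
      have : i = j := Subsingleton.elim _ _
      subst this
      rw [Matrix.diagonal_apply_eq]
      rfl
    · change constantCoeff (- b j) = _
      rw [map_neg, hb, neg_zero, Matrix.diagonal_apply_ne _ (by simp)]
    · change constantCoeff (c i) = _
      rw [hc, Matrix.diagonal_apply_ne _ (by simp)]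
    · change constantCoeff ((1 : Matrix ι ι (MvPolynomial X F)) i j - E' i j) = _
      rw [map_sub, hE, sub_zero]
      by_cases h : i = j
      · subst h
        rw [Matrix.one_apply_eq, map_one, Matrix.diagonal_apply_eq]
        rfl
      · rw [Matrix.one_apply_ne h, map_zero, Matrix.diagonal_apply_ne]
        intro h2
        exact h (Sum.inr_injective h2)
  have h2 : ((mat E' a b c).submatrix e.symm e.symm).map constantCoeff =
      ((mat E' a b c).map constantCoeff).submatrix e.symm e.symm := rfl
  rw [h2, h1, Matrix.rank_submatrix, Matrix.rank_diagonal, ← Fintype.card_congr e,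
    Fintype.card_sum, Fintype.card_unit]
  have h3 : Fintype.card {i : Unit ⊕ ι // Sum.elim (fun _ => (0 : F)) (fun _ => (1 : F)) i ≠ 0} =
      Fintype.card ι := by
    refine (Fintype.card_of_bijective (f := fun i : ι =>
      (⟨Sum.inr i, one_ne_zero⟩ : {i : Unit ⊕ ι // Sum.elim (fun _ => (0 : F))
        (fun _ => (1 : F)) i ≠ 0})) ⟨?_, ?_⟩).symm
    · intro i j hij
      exact Sum.inr_injective (congrArg Subtype.val hij)
    · rintro ⟨i | i, hi⟩
      · exact absurd rfl hi
      · exact ⟨i, rfl⟩
  rw [h3, add_comm]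

end LUP

open LUP in
theorem t_LUP2 : S_LUP2 := by
  intro F _ V A _ _ _ _ _ H hne hcov
  -- the row
  have hex : {w | ∃ l : List (Finset V), l.Nodup ∧ l.toFinset = H ∧
      ∀ s, s <:+ l → (cut H s.toFinset).card ≤ w}.Nonempty :=
    ⟨Fintype.card V, H.toList, Finset.nodup_toList H, Finset.toList_toFinset H,
      fun s _ => Finset.card_le_univ _⟩
  obtain ⟨l, hl1, hl2, hl3⟩ := Nat.sInf_mem hex
  have hl3' : ∀ s, s <:+ l → (cut H s.toFinset).card ≤ lwidth H := hl3
  have hR := row_of_list hl1 hl2
  obtain ⟨n, hn⟩ : ∃ n, l.length = n + 1 := by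
    refine ⟨l.length - 1, ?_⟩
    have h1 : H.card ≤ l.length := by
      rw [← hl2]
      exact List.toFinset_card_le l
    have := Finset.card_pos.2 hne
    omega
  have hn' : H.card = n + 1 := by
    rw [← hl2, List.toFinset_card_of_nodup hl1, hn]
  rw [hn] at hR
  obtain ⟨K, hK⟩ : ∃ K : ℕ → Finset V, K = fun j => l.reverse.getD j ∅ := ⟨_, rfl⟩
  obtain ⟨U, hU⟩ : ∃ U : ℕ → Finset (Finset V), U = fun j => (l.reverse.take j).toFinset :=
    ⟨_, rfl⟩
  rw [← hK, ← hU] at hR
  have hcut : ∀ j, (cut H (U j)).card ≤ lwidth H := by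
    intro j
    rw [hU]
    beta_reduce
    rw [List.take_reverse, List.toFinset_reverse]
    exact hl3' _ (List.drop_suffix _ _)
  let o : A := Classical.arbitrary A
  let oo : V → A := fun _ => o
  let ι : Type := Σ j : Fin n, ↥(St (cut H (U ((j : ℕ) + 1))) o)
  let P := MvPolynomial (V → Option A) F
  let TT : ℕ → (V → A) → (V → A) → P := fun j s b => T H K U F o j s b
  let ca : P := if n = 0 then TT 0 oo oo else 0
  let cb : ι → P := fun p => if (p.1 : ℕ) = 0 then TT 0 oo p.2.1 else 0
  let cc : ι → P := fun p => if (p.1 : ℕ) + 1 = n then TT n p.2.1 oo else 0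
  let E' : Matrix ι ι P := Matrix.of fun p p' =>
    if (p'.1 : ℕ) = p.1 + 1 then TT (p.1 + 1) p.2.1 p'.2.1 else 0
  let gg : ι → P := fun p => g H U F (p.1 + 1) p.2.1
  have hE : ∀ p p' : ι, (p'.1 : ℕ) ≤ p.1 → E' p p' = 0 := by
    intro p p' h
    change (if (p'.1 : ℕ) = p.1 + 1 then _ else (0 : P)) = 0
    rw [if_neg (by omega)]
  have hstep : ∀ j, j < n + 1 → ∀ b, g H U F (j + 1) b =
      ∑ s ∈ St (cut H (U j)) o, g H U F j s * TT j s b := fun j hj b => hR.step F o hj b
  have hc0 : cut H (U 0) = ∅ := by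
    rw [hR.zero]
    unfold cut
    ext i
    simp
  have hstep0 : ∀ b, g H U F 1 b = TT 0 oo b := by
    intro b
    have h1 := hstep 0 (Nat.succ_pos n) b
    rw [hc0, St_empty, Finset.sum_singleton, hR.g_zero F hcov, one_mul] at h1
    exact h1
  -- a sum over the states of one level
  have hlev : ∀ (j : Fin n) (f : ι → P), (∀ p : ι, p.1 ≠ j → f p = 0) →
      ∑ p, f p = ∑ s : ↥(St (cut H (U ((j : ℕ) + 1))) o), f ⟨j, s⟩ := by
    intro j f hf
    rw [Fintype.sum_sigma, Finset.sum_eq_single j]
    · intro j' _ hj'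
      exact Finset.sum_eq_zero fun s _ => hf ⟨j', s⟩ hj'
    · intro h
      exact absurd (Finset.mem_univ _) h
  have hG : ∀ p : ι, gg p = cb p + ∑ q, gg q * E' q p := by
    rintro ⟨j', s'⟩
    change g H U F ((j' : ℕ) + 1) s'.1 = (if (j' : ℕ) = 0 then TT 0 oo s'.1 else 0) +
      ∑ q : ι, g H U F ((q.1 : ℕ) + 1) q.2.1 *
        (if (j' : ℕ) = q.1 + 1 then TT (q.1 + 1) q.2.1 s'.1 else 0)
    obtain ⟨b', hb'⟩ : ∃ b' : V → A, b' = s'.1 := ⟨_, rfl⟩
    rw [← hb']
    by_cases h0 : (j' : ℕ) = 0
    · rw [if_pos h0, h0, zero_add, hstep0, Finset.sum_eq_zero, add_zero]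
      intro q _
      rw [if_neg (by omega), mul_zero]
    · obtain ⟨k, hk⟩ : ∃ k, (j' : ℕ) = k + 1 := ⟨j' - 1, by omega⟩
      have hkn : k < n := by have := j'.2; omega
      rw [if_neg h0, zero_add, hlev ⟨k, hkn⟩]
      · simp only [hk, if_true]
        rw [hstep (k + 1) (by omega) b', ← Finset.sum_coe_sort]
      · intro q hq
        rw [if_neg, mul_zero]
        intro h
        apply hq
        apply Fin.ext
        simp only
        omega
  have hdet : (mat E' ca cb cc).det = Z F A H := by
    rw [det_mat (fun p : ι => (p.1 : ℕ)) E' hE ca cb cc gg hG]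
    change (if n = 0 then TT 0 oo oo else 0) + ∑ q : ι, g H U F ((q.1 : ℕ) + 1) q.2.1 *
      (if (q.1 : ℕ) + 1 = n then TT n q.2.1 oo else 0) = _
    rcases Nat.eq_zero_or_pos n with h0 | h0
    · subst h0
      rw [if_pos rfl, ← hstep0, Finset.sum_eq_zero, add_zero]
      · exact hR.g_last F oo
      · rintro ⟨q, _⟩ _
        exact q.elim0
    · obtain ⟨k, rfl⟩ : ∃ k, n = k + 1 := ⟨n - 1, by omega⟩
      have hkn : k < k + 1 := by omega
      rw [if_neg h0.ne', zero_add, hlev ⟨k, hkn⟩]
      · rw [← hR.g_last F oo, hstep (k + 1) (Nat.lt_succ_self _) oo]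
        simp only [if_true]
        exact Finset.sum_coe_sort (St (cut H (U (k + 1))) o)
          (fun s => g H U F (k + 1) s * TT (k + 1) s oo)
      · intro q hq
        rw [if_neg, mul_zero]
        intro h
        apply hq
        apply Fin.ext
        simp only
        omega
  have hdT : ∀ j s b, (TT j s b).totalDegree ≤ 1 := fun j s b => deg_T F o j s b
  have hd0 : (0 : P).totalDegree ≤ 1 := by
    rw [totalDegree_zero]; omega
  have hT0 : ∀ j s b, constantCoeff (TT j s b) = 0 := fun j s b => cc_T F o j s b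
  have hca0 : constantCoeff ca = 0 := by
    change constantCoeff (if n = 0 then TT 0 oo oo else 0 : P) = 0
    split_ifs
    · exact hT0 _ _ _
    · exact map_zero _
  have hcb0 : ∀ p, constantCoeff (cb p) = 0 := by
    intro p
    change constantCoeff (if (p.1 : ℕ) = 0 then TT 0 oo p.2.1 else 0 : P) = 0
    split_ifs
    · exact hT0 _ _ _
    · exact map_zero _
  have hcc0 : ∀ p, constantCoeff (cc p) = 0 := by
    intro p
    change constantCoeff (if (p.1 : ℕ) + 1 = n then TT n p.2.1 oo else 0 : P) = 0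
    split_ifs
    · exact hT0 _ _ _
    · exact map_zero _
  have hcE0 : ∀ p q, constantCoeff (E' p q) = 0 := by
    intro p q
    change constantCoeff (if (q.1 : ℕ) = p.1 + 1 then TT (p.1 + 1) p.2.1 q.2.1 else 0 : P) = 0
    split_ifs
    · exact hT0 _ _ _
    · exact map_zero _
  have hdeg : ∀ i j, (mat E' ca cb cc i j).totalDegree ≤ 1 := by
    rintro (i | i) (j | j)
    · change (if n = 0 then TT 0 oo oo else 0 : P).totalDegree ≤ 1
      split_ifs
      · exact hdT _ _ _
      · exact hd0
    · change (-(if (j.1 : ℕ) = 0 then TT 0 oo j.2.1 else 0) : P).totalDegree ≤ 1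
      rw [totalDegree_neg]
      split_ifs
      · exact hdT _ _ _
      · exact hd0
    · change (if (i.1 : ℕ) + 1 = n then TT n i.2.1 oo else 0 : P).totalDegree ≤ 1
      split_ifs
      · exact hdT _ _ _
      · exact hd0
    · change ((1 : Matrix ι ι P) i j -
        (if (j.1 : ℕ) = i.1 + 1 then TT (i.1 + 1) i.2.1 j.2.1 else 0) : P).totalDegree ≤ 1
      refine (totalDegree_sub _ _).trans (max_le ?_ ?_)
      · rw [Matrix.one_apply]
        split_ifs
        · rw [totalDegree_one]; omega
        · exact hd0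
      · split_ifs
        · exact hdT _ _ _
        · exact hd0
  have hcard : Fintype.card (Unit ⊕ ι) ≤ (H.card - 1) * Fintype.card A ^ lwidth H + 1 := by
    rw [Fintype.card_sum, Fintype.card_unit, Fintype.card_sigma, hn', Nat.add_sub_cancel, add_comm]
    refine Nat.add_le_add_right ?_ 1
    have h1 : ∀ j : Fin n, Fintype.card ↥(St (cut H (U ((j : ℕ) + 1))) o) ≤
        Fintype.card A ^ lwidth H := by
      intro j
      rw [Fintype.card_coe, card_St]
      exact Nat.pow_le_pow_right Fintype.card_pos (hcut _)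
    refine (Finset.sum_le_sum fun j _ => h1 j).trans ?_
    rw [Finset.sum_const, Finset.card_univ, Fintype.card_fin, smul_eq_mul]
  let e := Fintype.equivFin (Unit ⊕ ι)
  refine ⟨Fintype.card (Unit ⊕ ι), hcard, (mat E' ca cb cc).submatrix e.symm e.symm,
    ⟨fun i j => hdeg _ _, ?_⟩, ?_, fun t ht => ?_⟩
  · rw [Matrix.det_submatrix_equiv_self, hdet]
  · exact regular_aux e hcc0 hcb0 hcE0 hca0
  · let W : ℕ → (V → A) → F := fun j d => Wt t (U j) d
    have hW : ∀ j d, W j d ≠ 0 := fun j d => Wt_ne t (U j) d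
    have hW0 : ∀ d, W 0 d = 1 := by
      intro d
      change Wt t (U 0) d = 1
      unfold Wt
      rw [hR.zero, Finset.prod_empty]
    have hW1 : ∀ d, W (n + 1) d = 1 := by
      intro d
      change Wt t (U (n + 1)) d = 1
      unfold Wt
      rw [hR.last]
      exact Dup.prod_gauge ht d
    have hS : ∀ j, j < n + 1 → ∀ s b, scale (gauge t) (TT j s b) =
        C ((W j s)⁻¹ * W (j + 1) b) * TT j s b := fun j hj s b => hR.scale_T ht o hj s b
    let β : Unit ⊕ ι → F := Sum.elim (fun _ => 1) fun p => (W (p.1 + 1) p.2.1)⁻¹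
    have hβ : ∀ q, β q ≠ 0 := by
      rintro (q | q)
      · exact one_ne_zero
      · exact inv_ne_zero (hW _ _)
    have key : ∀ q r, scale (gauge t) (mat E' ca cb cc q r) =
        C (β q) * mat E' ca cb cc q r * C (β r)⁻¹ := by
      have k1 : ∀ (j : ℕ) (b : V → A), scale (gauge t) (-(if j = 0 then TT 0 oo b else 0) : P) =
          C 1 * (-(if j = 0 then TT 0 oo b else 0) : P) * C ((W (j + 1) b)⁻¹)⁻¹ := by
        intro j b
        rw [inv_inv, C_1, one_mul]
        split_ifs with h
        · subst h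
          rw [map_neg, hS 0 (Nat.succ_pos _), hW0, inv_one, one_mul]
          ring
        · rw [neg_zero, map_zero, zero_mul]
      have k2 : ∀ (i : ℕ) (b : V → A), scale (gauge t) (if i + 1 = n then TT n b oo else 0 : P) =
          C ((W (i + 1) b)⁻¹) * (if i + 1 = n then TT n b oo else 0 : P) * C 1⁻¹ := by
        intro i b
        rw [inv_one, C_1, mul_one]
        split_ifs with h
        · rw [hS n (Nat.lt_succ_self n), hW1, mul_one, h]
        · rw [map_zero, mul_zero]
      have k3 : ∀ (i j : ℕ) (b b' : V → A), i < n → scale (gauge t)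
          (if j = i + 1 then TT (i + 1) b b' else 0 : P) = C ((W (i + 1) b)⁻¹) *
            (if j = i + 1 then TT (i + 1) b b' else 0 : P) * C ((W (j + 1) b')⁻¹)⁻¹ := by
        intro i j b b' hi
        rw [inv_inv]
        split_ifs with h
        · subst h
          rw [hS (i + 1) (by omega), C_mul]
          ring
        · rw [map_zero, mul_zero, zero_mul]
      rintro (i | i) (j | j)
      · change scale (gauge t) (if n = 0 then TT 0 oo oo else 0 : P) =
          C 1 * (if n = 0 then TT 0 oo oo else 0 : P) * C 1⁻¹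
        rw [inv_one, C_1, one_mul, mul_one]
        split_ifs with h
        · subst h
          rw [hS 0 (Nat.succ_pos _), hW0, hW1, inv_one, one_mul, C_1, one_mul]
        · exact map_zero _
      · exact k1 _ _
      · exact k2 _ _
      · have e1 : mat E' ca cb cc (Sum.inr i) (Sum.inr j) = (1 : Matrix ι ι P) i j -
            (if (j.1 : ℕ) = i.1 + 1 then TT (i.1 + 1) i.2.1 j.2.1 else 0) := rfl
        have e2 := k3 i.1 j.1 i.2.1 j.2.1 i.1.2
        have e3 : scale (gauge t) ((1 : Matrix ι ι P) i j) =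
            C (β (Sum.inr i)) * (1 : Matrix ι ι P) i j * C (β (Sum.inr j))⁻¹ := by
          rw [Matrix.one_apply]
          split_ifs with h
          · subst h
            rw [map_one, mul_one, ← C_mul, mul_inv_cancel₀ (hβ _), C_1]
          · rw [map_zero, mul_zero, zero_mul]
        rw [e1, map_sub, mul_sub, sub_mul, e3]
        exact congrArg (fun z => _ - z) e2
    refine ⟨Matrix.diagonal (β ∘ e.symm), Matrix.diagonal fun i => (β (e.symm i))⁻¹, ?_, ?_, ?_⟩
    · rw [Matrix.det_diagonal, isUnit_iff_ne_zero]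
      exact Finset.prod_ne_zero_iff.2 fun i _ => hβ _
    · rw [Matrix.det_diagonal, isUnit_iff_ne_zero]
      exact Finset.prod_ne_zero_iff.2 fun i _ => inv_ne_zero (hβ _)
    · rw [Matrix.diagonal_map (map_zero _), Matrix.diagonal_map (map_zero _)]
      ext1 i j
      rw [Matrix.mul_diagonal, Matrix.diagonal_mul, Matrix.map_apply, Matrix.submatrix_apply]
      exact key (e.symm i) (e.symm j)

end Pool.Agent.HS38.GT
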