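import Pool.Agent.HS38.GT.Stm8
import Pool.Agent.HS38.GT.RegLow

/-!
# Separation properties (all values)
-/

set_option autoImplicit false

namespace Pool.Agent.HS38.GT

open MvPolynomial Finset Pool.Agent.Helper1x.EQ

theorem t_SEPG : S_SEPG := by
  refine ⟨?_, ?_⟩
  · intro F _ V A _ _ _ _ H t hg U hU U' hU' a a' h i α K hK hi K' hK' hi'
    have h1 : wt t U a = wt t U' a' := h t rfl
    have h3 : ∏ K ∈ H, ∏ i ∈ K, ∏ α, t K i α ^ (ex U a K i α - ex U' a' K i α) = 1 := by
      have e : ∀ (K : Finset V) (i : V) (α : A), t K i α ^ (ex U a K i α - ex U' a' K i α) =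
          t K i α ^ ex U a K i α / t K i α ^ ex U' a' K i α := by
        intro K i α
        rw [div_eq_mul_inv, ← _root_.zpow_sub]
      simp only [e, Finset.prod_div_distrib]
      rw [wt_eq_prodF hU, wt_eq_prodF hU', h1, div_self']
    have h4 := hg.2 (fun K i α => ex U a K i α - ex U' a' K i α) (fun K i α => by
      unfold ex
      split_ifs <;> simp) h3 i α K hK hi K' hK' hi'
    constructor <;> intro h5 <;> omega
  · intro F _ V A _ _ _ _ H s hs U hU U' hU' a a' h i α K hK hi K' hK' hi'
    have h1 := h (elem s i α K K') ⟨i, α, K, hK, hi, K', hK', hi', rfl⟩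
    rw [wt_elem s α hi hi', wt_elem s α hi hi'] at h1
    have key : ∀ (P Q : Prop) [Decidable P] [Decidable Q],
        ((if P then (1 : ℤ) else 0) = (if Q then 1 else 0)) ↔
          (if P then s else 1) * (if Q then s⁻¹ else 1) = 1 := by
      intro P Q _ _
      by_cases hP : P <;> by_cases hQ : Q <;> simp [hP, hQ, hs]
    unfold ex
    rw [key, key, h1]

end Pool.Agent.HS38.GT
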