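import Pool.Agent.HS38.GT.Stm6

/-!
# Piece SLC of project GT, part 5 (helper55): straight-line programs are circuits
-/

set_option autoImplicit false
set_option linter.unusedSectionVars false

namespace Pool.Agent.HS38.GT

open MvPolynomial Finset Pool.Agent.Helper1x.EQ Pool.Agent.H20VP

namespace SLC

variable {K X : Type} [Field K]

/-- transport of a label -/
def gm {N N' : Type} (f : N → N') : Gate K X N → Gate K X N'
  | .var x => .var x
  | .const c => .const c
  | .add l => .add (l.map f)
  | .mul a b => .mul (f a) (f b)

lemma gm_preds {N N' : Type} (f : N → N') (g : Gate K X N) : (gm f g).preds = g.preds.map f := by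
  cases g <;> rfl

lemma gm_value {N N' : Type} (f : N → N') (g : Gate K X N) (φ : N' → MvPolynomial X K) :
    (gm f g).value φ = g.value (fun n => φ (f n)) := by
  cases g with
  | var x => rfl
  | const c => rfl
  | add l =>
    show ((l.map f).map φ).sum = (l.map fun n => φ (f n)).sum
    rw [List.map_map]
    rfl
  | mul a b => rfl

/-- labels with predecessors in a subtype -/
lemma gm_lift {N : Type} (P : N → Prop) (g : Gate K X N) (h : ∀ m ∈ g.preds, P m) :
    ∃ g' : Gate K X {m // P m}, gm (fun m => m.1) g' = g := by
  cases g with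
  | var x => exact ⟨.var x, rfl⟩
  | const c => exact ⟨.const c, rfl⟩
  | add l =>
    refine ⟨.add (l.attachWith P h), ?_⟩
    show Gate.add ((l.attachWith P h).map fun m => m.1) = Gate.add l
    congr 1
    exact List.attachWith_map_subtype_val h
  | mul a b =>
    exact ⟨.mul ⟨a, h a (List.mem_cons_self ..)⟩
      ⟨b, h b (List.mem_cons_of_mem _ (List.mem_cons_self ..))⟩, rfl⟩

/-- the numbering of a straight-line program -/
lemma numbering (l : List (MvPolynomial X K)) (hl : SL l) :
    ∃ (N : Type) (_ : Fintype N) (gate : N → Gate K X N) (φ : N → MvPolynomial X K) (rk : N → ℕ),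
      Fintype.card N ≤ l.length ∧ (∀ n, φ n = (gate n).value φ) ∧ (∀ n, φ n ∈ l) ∧
      (∀ f ∈ l, ∃ n, φ n = f) ∧ (∀ n, ∀ m ∈ (gate n).preds, rk m < rk n) ∧
      ∀ n l', gate n = .add l' → l'.length = 2 := by
  induction l with
  | nil =>
    exact ⟨Empty, inferInstance, fun n => n.elim, fun n => n.elim, fun n => n.elim, by simp,
      fun n => n.elim, fun n => n.elim, fun f hf => absurd hf (List.not_mem_nil),
      fun n => n.elim, fun n => n.elim⟩
  | cons p l ih =>
    obtain ⟨N, i1, gate, φ, rk, h1, h2, h3, h4, h5, h6⟩ := ih hl.1
    obtain ⟨g₀, e1, e2⟩ : ∃ g₀ : Gate K X N, p = g₀.value φ ∧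
        ∀ l', g₀ = .add l' → l'.length = 2 := by
      rcases hl.2 with ⟨x, hx⟩ | ⟨b, hb⟩ | ⟨g, hg, h, hh, hs | hp⟩
      · exact ⟨.var x, hx, fun l' h => by cases h⟩
      · exact ⟨.const b, hb, fun l' h => by cases h⟩
      · obtain ⟨m, rfl⟩ := h4 g hg
        obtain ⟨m', rfl⟩ := h4 h hh
        refine ⟨.add [m, m'], ?_, fun l' h => ?_⟩
        · rw [hs]
          show _ = φ m + (φ m' + 0)
          rw [add_zero]
        · cases h
          rfl
      · obtain ⟨m, rfl⟩ := h4 g hg
        obtain ⟨m', rfl⟩ := h4 h hh
        exact ⟨.mul m m', hp, fun l' h => by cases h⟩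
    let φ' : Option N → MvPolynomial X K := fun n => n.elim p φ
    let gate' : Option N → Gate K X (Option N) := fun n => n.elim (gm some g₀) fun n => gm some (gate n)
    let rk' : Option N → ℕ := fun n => n.elim (∑ m, rk m + 1) rk
    have hφ' : (fun n => φ' (some n)) = φ := rfl
    refine ⟨Option N, inferInstance, gate', φ', rk', ?_, ?_, ?_, ?_, ?_, ?_⟩
    · rw [Fintype.card_option, List.length_cons]
      omega
    · rintro (_ | n)
      · show p = (gm some g₀).value φ'
        rw [gm_value, hφ', ← e1]
      · show φ n = (gm some (gate n)).value φ'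
        rw [gm_value, hφ', ← h2]
    · rintro (_ | n)
      · exact List.mem_cons_self ..
      · exact List.mem_cons_of_mem _ (h3 n)
    · intro f hf
      rcases List.mem_cons.1 hf with rfl | hf
      · exact ⟨none, rfl⟩
      · obtain ⟨n, hn⟩ := h4 f hf
        exact ⟨some n, hn⟩
    · rintro (_ | n) m hm
      · change m ∈ (gm some g₀).preds at hm
        rw [gm_preds] at hm
        obtain ⟨m', -, rfl⟩ := List.mem_map.1 hm
        show rk m' < ∑ m, rk m + 1
        exact Nat.lt_succ_of_le (Finset.single_le_sum (fun _ _ => Nat.zero_le _)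
          (Finset.mem_univ m'))
      · change m ∈ (gm some (gate n)).preds at hm
        rw [gm_preds] at hm
        obtain ⟨m', hm', rfl⟩ := List.mem_map.1 hm
        exact h5 n m' hm'
    · rintro (_ | n) l' hl'
      · change gm some g₀ = _ at hl'
        cases g₀ with
        | var x => cases hl'
        | const c => cases hl'
        | add l'' =>
          cases hl'
          rw [List.length_map]
          exact e2 l'' rfl
        | mul a b => cases hl'
      · change gm some (gate n) = _ at hl'
        cases hg : gate n with
        | var x => rw [hg] at hl'; cases hl'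
        | const c => rw [hg] at hl'; cases hl'
        | add l'' =>
          rw [hg] at hl'
          cases hl'
          rw [List.length_map]
          exact h6 n l'' hg
        | mul a b => rw [hg] at hl'; cases hl'

end SLC

open SLC in
theorem t_SLC : S_SLC := by
  classical
  intro K X _ l hl f hf
  obtain ⟨N, i1, gate, φ, rk, h1, h2, h3, h4, h5, h6⟩ := numbering l hl
  obtain ⟨o, ho⟩ := h4 f hf
  let Ed : N → N → Prop := fun a b => a ∈ (gate b).preds
  let P : N → Prop := fun n => Relation.ReflTransGen Ed n o
  have hP : ∀ n : N, P n → ∀ m ∈ (gate n).preds, P m := fun n hn m hm =>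
    Relation.ReflTransGen.head hm hn
  choose g' hg' using fun n : {n // P n} => gm_lift P (gate n.1) (hP n.1 n.2)
  have hpr : ∀ n m : {n // P n}, m ∈ (g' n).preds ↔ m.1 ∈ (gate n.1).preds := by
    intro n m
    rw [← hg' n, gm_preds, List.mem_map]
    constructor
    · intro h
      exact ⟨m, h, rfl⟩
    · rintro ⟨m', h, e⟩
      have : m' = m := Subtype.ext e
      rwa [this] at h
  have hrk : ∀ n : N, P n → rk n ≤ rk o := by
    intro n hn
    induction hn using Relation.ReflTransGen.head_induction_on with
    | refl => exact le_rfl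
    | head h _ ih => exact (h5 _ _ h).le.trans ih
  have hac : ∀ n m : {n // P n},
      Relation.TransGen (fun a b => a ∈ (g' b).preds) n m → rk n.1 < rk m.1 := by
    intro n m h
    induction h with
    | single h => exact h5 _ _ ((hpr _ _).1 h)
    | tail _ h ih => exact ih.trans (h5 _ _ ((hpr _ _).1 h))
  let Q : Circuit K X :=
    { N := {n // P n}
      fin := inferInstance
      gate := g'
      out := ⟨o, Relation.ReflTransGen.refl⟩
      acyclic := fun n h => lt_irrefl _ (hac n n h)
      sink := by
        intro n
        constructor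
        · intro h
          by_contra hne
          have hno : n.1 ≠ o := fun e => hne (Subtype.ext e)
          obtain ⟨m, hm, hmo⟩ : ∃ m, Ed n.1 m ∧ Relation.ReflTransGen Ed m o := by
            rcases Relation.ReflTransGen.cases_head n.2 with h | h
            · exact absurd h hno
            · exact h
          exact h ⟨m, hmo⟩ ((hpr _ _).2 hm)
        · rintro rfl m hm
          have := h5 _ _ ((hpr _ _).1 hm)
          exact absurd (hrk m.1 m.2) (not_le.2 this) }
  refine ⟨Q, fun n => φ n.1, ?_, ?_, ?_, ho, fun n => h3 n.1⟩
  · intro n l' hl'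
    have h := hg' n
    rw [show g' n = .add l' from hl'] at h
    have h7 := h6 n.1 _ h.symm
    rwa [List.length_map] at h7
  · show @Fintype.card {n // P n} _ ≤ _
    exact (Fintype.card_subtype_le P).trans h1
  · intro n
    show φ n.1 = (g' n).value _
    rw [h2, ← hg' n, gm_value]

end Pool.Agent.HS38.GT
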