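import Pool.Agent.HS38.GT.Stm7
import Pool.Agent.HS38.GT.SLC

/-!
# Piece SKC of project GT, part 5: skew straight-line programs are weakly skew circuits
-/

set_option autoImplicit false
set_option linter.unusedSectionVars false

namespace Pool.Agent.HS38.GT

open MvPolynomial Finset Pool.Agent.Helper1x.EQ Pool.Agent.H20VP

namespace SKC

open SLC

variable {K X : Type} [Field K]

/-- the embedding of the old nodes -/
def ss {N : Type} (n : N) : Option (Option N) := some (some n)

lemma ss_inj {N : Type} {a b : N} (h : ss a = ss b) : a = b :=
  Option.some.inj (Option.some.inj h)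

/-- the data of one step -/
structure Data {N : Type} (l : List (MvPolynomial X K)) (gate : N → Gate K X N)
    (φ : N → MvPolynomial X K) (rk : N → ℕ) (St : N → Prop) : Prop where
  val : ∀ n, φ n = (gate n).value φ
  mem : ∀ n, φ n ∈ l ∨ ∃ x, φ n = MvPolynomial.X x
  ex : ∀ f ∈ l, ∃ n, St n ∧ φ n = f
  rank : ∀ n, ∀ m ∈ (gate n).preds, rk m < rk n
  two : ∀ n l', gate n = .add l' → l'.length = 2
  skew : ∀ n a b, gate n = .mul a b → (gate b).preds = [] ∧ ¬ St b ∧ a ≠ b ∧
    ∀ m, b ∈ (gate m).preds → m = n

/-- the new gates of one step -/
structure New {N : Type} (p : MvPolynomial X K) (φ : N → MvPolynomial X K) (St : N → Prop)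
    (e₀ : Gate K X N) (q : MvPolynomial X K) (G : Gate K X (Option (Option N))) : Prop where
  a1 : q = e₀.value φ
  a2 : ∀ m ∈ e₀.preds, St m
  a3 : ∀ a b, e₀ ≠ .mul a b
  a4 : ∀ l', e₀ = .add l' → l'.length = 2
  b1 : p = G.value (fun n : Option (Option N) => n.elim p fun n => n.elim q φ)
  b2 : ∀ m ∈ G.preds, (∃ n, St n ∧ m = ss n) ∨ m = some none
  b3 : ∀ a b, G = .mul a b → b = some none ∧ a ≠ b ∧ e₀.preds = []
  b4 : ∀ l', G = .add l' → l'.length = 2
  c : q = p ∨ ∃ x, q = MvPolynomial.X x

/-- steps which are not products -/
lemma new_of {N : Type} (p : MvPolynomial X K) (φ : N → MvPolynomial X K) (St : N → Prop)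
    (g₀ : Gate K X N) (h1 : p = g₀.value φ) (h2 : ∀ m ∈ g₀.preds, St m)
    (h3 : ∀ a b, g₀ ≠ .mul a b) (h4 : ∀ l', g₀ = .add l' → l'.length = 2) :
    New p φ St g₀ p (gm ss g₀) := by
  refine ⟨h1, h2, h3, h4, ?_, ?_, ?_, ?_, Or.inl rfl⟩
  · rw [gm_value]
    exact h1
  · intro m hm
    rw [gm_preds] at hm
    obtain ⟨m', hm', rfl⟩ := List.mem_map.1 hm
    exact Or.inl ⟨m', h2 m' hm', rfl⟩
  · intro a b h
    cases g₀ with
    | var x => cases h
    | const c => cases h
    | add l'' => cases h
    | mul a b => exact absurd rfl (h3 a b)
  · intro l' h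
    cases g₀ with
    | var x => cases h
    | const c => cases h
    | add l'' =>
      cases h
      rw [List.length_map]
      exact h4 l'' rfl
    | mul a b => cases h

/-- the numbering of a skew straight-line program -/
lemma numbering (l : List (MvPolynomial X K)) (hl : SK l) :
    ∃ (N : Type) (_ : Fintype N) (gate : N → Gate K X N) (φ : N → MvPolynomial X K) (rk : N → ℕ)
      (St : N → Prop), Fintype.card N ≤ 2 * l.length ∧ Data l gate φ rk St := by
  induction l with
  | nil =>
    exact ⟨Empty, inferInstance, fun n => n.elim, fun n => n.elim, fun n => n.elim,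
      fun n => n.elim, by simp, ⟨fun n => n.elim, fun n => n.elim,
        fun f hf => absurd hf (List.not_mem_nil), fun n => n.elim, fun n => n.elim,
        fun n => n.elim⟩⟩
  | cons p l ih =>
    obtain ⟨N, i1, gate, φ, rk, St, h1, h2, h3, h4, h5, h6, h7⟩ := ih hl.1
    -- the new gates
    obtain ⟨e₀, q, G, hN⟩ : ∃ (e₀ : Gate K X N) (q : MvPolynomial X K)
        (G : Gate K X (Option (Option N))), New p φ St e₀ q G := by
      rcases hl.2 with ⟨x, hx⟩ | ⟨b, hb⟩ | ⟨g, hg, h, hh, hs⟩ | ⟨g, hg, x, hp⟩
      · exact ⟨_, _, _, new_of p φ St (.var x) hx (fun m hm => absurd hm (List.not_mem_nil))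
          (fun a b h => by cases h) (fun l' h => by cases h)⟩
      · exact ⟨_, _, _, new_of p φ St (.const b) hb (fun m hm => absurd hm (List.not_mem_nil))
          (fun a b h => by cases h) (fun l' h => by cases h)⟩
      · obtain ⟨m, hm, rfl⟩ := h4 g hg
        obtain ⟨m', hm', rfl⟩ := h4 h hh
        refine ⟨_, _, _, new_of p φ St (.add [m, m']) ?_ ?_ (fun a b h => by cases h)
          (fun l' h => ?_)⟩
        · rw [hs]
          show _ = φ m + (φ m' + 0)
          rw [add_zero]
        · intro n hn
          change n ∈ [m, m'] at hn
          rcases List.mem_pair.1 hn with rfl | rfl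
          · exact hm
          · exact hm'
        · cases h
          rfl
      · obtain ⟨m, hm, rfl⟩ := h4 g hg
        refine ⟨.var x, MvPolynomial.X x, .mul (ss m) (some none), rfl,
          fun m hm => absurd hm (List.not_mem_nil), fun a b h => (by cases h),
          fun l' h => (by cases h), hp, ?_, ?_, fun l' h => (by cases h), Or.inr ⟨x, rfl⟩⟩
        · intro n hn
          change n ∈ [ss m, some none] at hn
          rcases List.mem_pair.1 hn with rfl | rfl
          · exact Or.inl ⟨m, hm, rfl⟩
          · exact Or.inr rfl
        · intro a b h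
          cases h
          exact ⟨rfl, fun h => (by cases h), rfl⟩
    obtain ⟨a1, a2, a3, a4, b1, b2, b3, b4, hc⟩ := hN
    let φ' : Option (Option N) → MvPolynomial X K := fun n => n.elim p fun n => n.elim q φ
    let gate' : Option (Option N) → Gate K X (Option (Option N)) := fun n => n.elim G
      fun n => n.elim (gm ss e₀) fun n => gm ss (gate n)
    let rk' : Option (Option N) → ℕ := fun n => n.elim (∑ m, rk m + 2)
      fun n => n.elim (∑ m, rk m + 1) rk
    let St' : Option (Option N) → Prop := fun n => n.elim True fun n => n.elim False St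
    have hφ' : (fun n => φ' (ss n)) = φ := rfl
    have hrk : ∀ m, rk m ≤ ∑ m, rk m := fun m =>
      Finset.single_le_sum (fun _ _ => Nat.zero_le _) (Finset.mem_univ m)
    refine ⟨Option (Option N), inferInstance, gate', φ', rk', St', ?_, ?_, ?_, ?_, ?_, ?_, ?_⟩
    · rw [Fintype.card_option, Fintype.card_option, List.length_cons]
      omega
    · rintro (_ | _ | n)
      · exact b1
      · show q = (gm ss e₀).value φ'
        rw [gm_value, hφ', ← a1]
      · show φ n = (gm ss (gate n)).value φ'
        rw [gm_value, hφ', ← h2]
    · rintro (_ | _ | n)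
      · exact Or.inl (List.mem_cons_self ..)
      · show q ∈ p :: l ∨ _
        rcases hc with h | h
        · left
          rw [h]
          exact List.mem_cons_self ..
        · exact Or.inr h
      · rcases h3 n with h | h
        · exact Or.inl (List.mem_cons_of_mem _ h)
        · exact Or.inr h
    · intro f hf
      rcases List.mem_cons.1 hf with rfl | hf
      · exact ⟨none, trivial, rfl⟩
      · obtain ⟨n, hn, hn'⟩ := h4 f hf
        exact ⟨ss n, hn, hn'⟩
    · rintro (_ | _ | n) m hm
      · rcases b2 m hm with ⟨m', -, rfl⟩ | rfl
        · show rk m' < ∑ m, rk m + 2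
          have := hrk m'
          omega
        · show ∑ m, rk m + 1 < ∑ m, rk m + 2
          omega
      · change m ∈ (gm ss e₀).preds at hm
        rw [gm_preds] at hm
        obtain ⟨m', -, rfl⟩ := List.mem_map.1 hm
        show rk m' < ∑ m, rk m + 1
        have := hrk m'
        omega
      · change m ∈ (gm ss (gate n)).preds at hm
        rw [gm_preds] at hm
        obtain ⟨m', hm', rfl⟩ := List.mem_map.1 hm
        exact h5 n m' hm'
    · rintro (_ | _ | n) l' hl'
      · exact b4 l' hl'
      · change gm ss e₀ = _ at hl'
        cases e₀ with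
        | var x => cases hl'
        | const c => cases hl'
        | add l'' =>
          cases hl'
          rw [List.length_map]
          exact a4 l'' rfl
        | mul a b => cases hl'
      · change gm ss (gate n) = _ at hl'
        cases hg : gate n with
        | var x => rw [hg] at hl'; cases hl'
        | const c => rw [hg] at hl'; cases hl'
        | add l'' =>
          rw [hg] at hl'
          cases hl'
          rw [List.length_map]
          exact h6 n l'' hg
        | mul a b => rw [hg] at hl'; cases hl'
    · rintro (_ | _ | n) a b hab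
      · obtain ⟨rfl, hne, he⟩ := b3 a b hab
        refine ⟨?_, fun h => h, hne, ?_⟩
        · show (gm ss e₀).preds = []
          rw [gm_preds, he]
          rfl
        · rintro (_ | _ | m) hm
          · rfl
          · change some none ∈ (gm ss e₀).preds at hm
            rw [gm_preds, he] at hm
            exact absurd hm (List.not_mem_nil)
          · change some none ∈ (gm ss (gate m)).preds at hm
            rw [gm_preds] at hm
            obtain ⟨m', -, h⟩ := List.mem_map.1 hm
            cases h
      · change gm ss e₀ = _ at hab
        cases e₀ with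
        | var x => cases hab
        | const c => cases hab
        | add l'' => cases hab
        | mul a b => exact absurd rfl (a3 a b)
      · change gm ss (gate n) = _ at hab
        cases hg : gate n with
        | var x => rw [hg] at hab; cases hab
        | const c => rw [hg] at hab; cases hab
        | add l'' => rw [hg] at hab; cases hab
        | mul a₀ b₀ =>
          rw [hg] at hab
          cases hab
          obtain ⟨k1, k2, k3, k4⟩ := h7 n a₀ b₀ hg
          refine ⟨?_, k2, fun h => k3 (ss_inj h), ?_⟩
          · show (gm ss (gate b₀)).preds = []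
            rw [gm_preds, k1]
            rfl
          · rintro (_ | _ | m) hm
            · rcases b2 _ hm with ⟨m', hm', h⟩ | h
              · exact absurd (ss_inj h ▸ hm') k2
              · cases h
            · change ss b₀ ∈ (gm ss e₀).preds at hm
              rw [gm_preds] at hm
              obtain ⟨m', hm', h⟩ := List.mem_map.1 hm
              exact absurd (ss_inj h ▸ a2 m' hm') k2
            · change ss b₀ ∈ (gm ss (gate m)).preds at hm
              rw [gm_preds] at hm
              obtain ⟨m', hm', h⟩ := List.mem_map.1 hm
              have h' := k4 m (ss_inj h ▸ hm')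
              rw [h']

end SKC

open SLC SKC in
theorem t_SKC : S_SKC := by
  classical
  intro K X _ l hl f hf
  obtain ⟨N, i1, gate, φ, rk, St, h1, h2, h3, h4, h5, h6, h7⟩ := SKC.numbering l hl
  obtain ⟨o, hoS, ho⟩ := h4 f hf
  let Ed : N → N → Prop := fun a b => a ∈ (gate b).preds
  let P : N → Prop := fun n => Relation.ReflTransGen Ed n o
  have hP : ∀ n : N, P n → ∀ m ∈ (gate n).preds, P m := fun n hn m hm =>
    Relation.ReflTransGen.head hm hn
  choose g' hg' using fun n : {n // P n} => gm_lift P (gate n.1) (hP n.1 n.2)
  have hpr : ∀ n m : {n // P n}, m ∈ (g' n).preds ↔ m.1 ∈ (gate n.1).preds := by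
    intro n m
    rw [← hg' n, gm_preds, List.mem_map]
    constructor
    · intro h
      exact ⟨m, h, rfl⟩
    · rintro ⟨m', h, e⟩
      have : m' = m := Subtype.ext e
      rwa [this] at h
  have hrk : ∀ n : N, P n → rk n ≤ rk o := by
    intro n hn
    induction hn using Relation.ReflTransGen.head_induction_on with
    | refl => exact le_rfl
    | head h _ ih => exact (h5 _ _ h).le.trans ih
  have hac : ∀ n m : {n // P n},
      Relation.TransGen (fun a b => a ∈ (g' b).preds) n m → rk n.1 < rk m.1 := by
    intro n m h
    induction h with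
    | single h => exact h5 _ _ ((hpr _ _).1 h)
    | tail _ h ih => exact ih.trans (h5 _ _ ((hpr _ _).1 h))
  let Q : Circuit K X :=
    { N := {n // P n}
      fin := inferInstance
      gate := g'
      out := ⟨o, Relation.ReflTransGen.refl⟩
      acyclic := fun n h => lt_irrefl _ (hac n n h)
      sink := by
        intro n
        constructor
        · intro h
          by_contra hne
          have hno : n.1 ≠ o := fun e => hne (Subtype.ext e)
          obtain ⟨m, hm, hmo⟩ : ∃ m, Ed n.1 m ∧ Relation.ReflTransGen Ed m o := by
            rcases Relation.ReflTransGen.cases_head n.2 with h | h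
            · exact absurd h hno
            · exact h
          exact h ⟨m, hmo⟩ ((hpr _ _).2 hm)
        · rintro rfl m hm
          have := h5 _ _ ((hpr _ _).1 hm)
          exact absurd (hrk m.1 m.2) (not_le.2 this) }
  refine ⟨Q, fun n => φ n.1, ?_, ?_, ?_, ?_, ho, fun n => h3 n.1⟩
  · intro n l' hl'
    have h := hg' n
    rw [show g' n = .add l' from hl'] at h
    have h7 := h6 n.1 _ h.symm
    rwa [List.length_map] at h7
  · intro g a b hab
    right
    have hgg := hg' g
    rw [show g' g = .mul a b from hab] at hgg
    obtain ⟨k1, k2, k3, k4⟩ := h7 g.1 a.1 b.1 hgg.symm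
    have hbelow : ∀ n, Q.Below n b → n = b := by
      intro n hn
      rcases Relation.ReflTransGen.cases_tail hn with h | ⟨m, -, hm⟩
      · exact h.symm
      · have := (hpr _ _).1 hm
        rw [k1] at this
        exact absurd this (List.not_mem_nil)
    refine ⟨fun h => k3 (congrArg Subtype.val h).symm, fun n m hn _ hnm => ?_⟩
    obtain rfl := hbelow n hn
    exact ⟨rfl, Subtype.ext (k4 m.1 ((hpr _ _).1 hnm))⟩
  · show @Fintype.card {n // P n} _ ≤ _
    exact (Fintype.card_subtype_le P).trans h1
  · intro n
    show φ n.1 = (g' n).value _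
    rw [h2, ← hg' n, gm_value]

end Pool.Agent.HS38.GT
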