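import Pool.Agent.HS38.GT.Stm6

/-!
# Project GT, part 5 continued: gauge homogeneous weakly skew circuits, upper bound

Files as before: `Pool/Agent/HS38/GT/<Name>.lean` proves `theorem Pool.Agent.HS38.GT.t_<NAME> : S_<NAME>`.
-/

set_option autoImplicit false

namespace Pool.Agent.HS38.GT

open MvPolynomial Finset Pool.Agent.Helper1x.EQ Pool.Agent.H20VP

/-- a skew straight-line program, the last step first: each step is a variable, a constant, the sum of two earlier steps or
the product of an earlier step and a variable -/
def SK {K X : Type} [Field K] : List (MvPolynomial X K) → Prop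
  | [] => True
  | p :: l => SK l ∧ ((∃ x, p = MvPolynomial.X x) ∨ (∃ b, p = C b) ∨ (∃ g ∈ l, ∃ h ∈ l, p = g + h) ∨
      ∃ g ∈ l, ∃ x, p = g * MvPolynomial.X x)

/-- SKC (skew straight-line programs are weakly skew circuits; independent of the rest of the project). Proof. As SLC in `Stm6.lean`.
Number the steps `0, …, s - 1` (first step `0`). Nodes: `Fin s ⊕ Fin s`, `inl n` is the step `n`; `inr n` is a private input node
for the variable of the product step `n` (gate `var x`; for the other `n` any constant gate, these nodes are not used). The
gate of a product step `n`, `G n = G g * X x`, `g < n`, is `mul (inl g) (inr n)`. Let `o` be the number of `f` and `N` the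
subtype of the nodes with a directed path to `inl o` (`Relation.ReflTransGen`); restrict the gates to `N`. `inl o` is the only
sink: another node of `N` has a successor in `N`; `inl o` has none (the numbers increase along the edges between `inl` nodes and
`inr n → inl n`; rank `2 n + 1` for `inl n` and `2 n` for `inr n`). Weakly skew: for `mul (inl g) (inr n)` the node `inr n` has no
predecessors, so `Below n₁ (inr n)` only for `n₁ = inr n`, and its only edge goes to `inl n`. -/
def S_SKC : Prop := ∀ (K X : Type) [Field K] (l : List (MvPolynomial X K)), SK l → ∀ f ∈ l,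
  ∃ (Q : Circuit K X) (φ : Q.N → MvPolynomial X K), Q.FanInTwo ∧ Q.WeaklySkew ∧ Q.size ≤ 2 * l.length ∧
    (∀ n, φ n = (Q.gate n).value φ) ∧ φ Q.out = f ∧ ∀ n, φ n ∈ l ∨ ∃ x, φ n = MvPolynomial.X x

/-- LSK (upper bound for skew programs: elimination along a row of the scopes). Proof. Let the list of `lwidth H` be given
(`Nat.sInf_mem`), `U` one of its suffixes (a set of scopes), `c_U = cut H U`, `priv U` the set of the variables all of whose
scopes are in `U` and which are in a scope of `U`. With `E` of `Cup.lean` (sum over the assignments which agree with `b` outside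
a set) let `T U b = E (priv U) b (∏_{K ∈ U} X (restr K ·))`; it depends only on the values of `b` on `c_U`. For a scope `K ∉ U`,
`U' = insert K U`: `priv U' = priv U ∪ J`, `J = (c_U ∪ K) \ cut H U'`, disjoint from `priv U`, and `K` does not meet `priv U`; so
`T U' b = ∑_d T U d * X (restr K d)` over the assignments `d` which agree with `b` outside `J` (`Cup.E_fub`). For all values of `b`
on `cut H U'` (all other values fixed) these are at most `q ^ |c_U ∪ K| ≤ q ^ (lwidth H + K.card)` products and as many
additions. Begin with `U = {K}`: `T {K} b` is a sum of variables, altogether at most `q ^ K.card` variables and additions.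
`T H b = Z`. The terms of the sum for `T U' b` are eigenvectors of `scale (gauge t)` with the same eigenvalue
`∏_{i ∈ cut H U'} ∏_{K' ∈ U', i ∈ K'} t K' i (b i)`, so the partial sums are eigenvectors too. -/
def S_LSK : Prop := ∀ (F : Type) [Field F] (V A : Type) [Fintype V] [DecidableEq V] [Fintype A] [DecidableEq A]
  [Nonempty A] (H : Finset (Finset V)), H.Nonempty → (∀ i, ∃ K ∈ H, i ∈ K) →
  ∃ l : List (MvPolynomial (V → Option A) F), SK l ∧
    (∀ p ∈ l, ∀ t : Finset V → V → A → Fˣ, IsGauge H t → Eig (gauge t) p) ∧ Z F A H ∈ l ∧
    l.length ≤ 2 * (∑ K ∈ H, Fintype.card A ^ K.card) * Fintype.card A ^ lwidth H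

end Pool.Agent.HS38.GT
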