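import Pool.Agent.HS38.GT.Stm6

/-! Project GT, piece TRC: contraction width of the blown-up tree. -/

set_option autoImplicit false

namespace Pool.Agent.HS38.GT

open MvPolynomial Finset

namespace TRC

/-- `u` is a descendant of `v` -/
def D (v u : ℕ) : Prop := ∃ s : ℕ, u / 2 ^ s = v

theorem D_refl (v : ℕ) : D v v := ⟨0, by simp⟩

theorem D_up {v u : ℕ} (h : D v (u / 2)) : D v u := by
  obtain ⟨s, hs⟩ := h
  exact ⟨s + 1, by rw [pow_succ, mul_comm, ← Nat.div_div_eq_div_mul]; exact hs⟩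

theorem D_down {v u : ℕ} (h : D v u) (hne : u ≠ v) : D v (u / 2) := by
  obtain ⟨s, hs⟩ := h
  cases s with
  | zero => simp at hs; exact absurd hs hne
  | succ s =>
    refine ⟨s, ?_⟩
    rw [pow_succ, mul_comm, ← Nat.div_div_eq_div_mul] at hs
    exact hs

theorem D_half {w u : ℕ} (h : D w u) : D (w / 2) u := by
  obtain ⟨s, hs⟩ := h
  exact ⟨s + 1, by rw [pow_succ, ← Nat.div_div_eq_div_mul, hs]⟩

theorem D_disj {a b u : ℕ} (ha : D a u) (hb : D b u) (hne : a ≠ b) (h1 : b < 2 * a)
    (h2 : a < 2 * b) : False := by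
  obtain ⟨s, hs⟩ := ha
  obtain ⟨s', hs'⟩ := hb
  have key : ∀ (a b s d : ℕ), u / 2 ^ s = a → u / 2 ^ (s + d) = b → a ≠ b → a < 2 * b → False := by
    intro a b s d ha hb hne h2
    rw [pow_add, ← Nat.div_div_eq_div_mul, ha] at hb
    cases d with
    | zero => simp at hb; exact hne hb
    | succ d =>
      rw [pow_succ, mul_comm, ← Nat.div_div_eq_div_mul] at hb
      have := Nat.div_le_self (a / 2) (2 ^ d)
      omega
  rcases le_total s s' with h | h
  · obtain ⟨d, rfl⟩ := Nat.exists_eq_add_of_le h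
    exact key a b s d hs hs' hne h2
  · obtain ⟨d, rfl⟩ := Nat.exists_eq_add_of_le h
    exact key b a s' d hs' hs (Ne.symm hne) h1

theorem D_child {v u : ℕ} (h : D v u) (hne : u ≠ v) : D (2 * v) u ∨ D (2 * v + 1) u := by
  obtain ⟨s, hs⟩ := h
  cases s with
  | zero => simp at hs; exact absurd hs hne
  | succ s =>
    rw [pow_succ, ← Nat.div_div_eq_div_mul] at hs
    have : u / 2 ^ s = 2 * v ∨ u / 2 ^ s = 2 * v + 1 := by omega
    rcases this with h | h
    · exact Or.inl ⟨s, h⟩
    · exact Or.inr ⟨s, h⟩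

theorem D_one {u : ℕ} (h : 1 ≤ u) : D 1 u := by
  refine ⟨Nat.log 2 u, ?_⟩
  have h1 : 2 ^ Nat.log 2 u ≤ u := Nat.pow_log_le_self 2 (by omega)
  have h2 : u < 2 ^ (Nat.log 2 u + 1) := Nat.lt_pow_succ_log_self (by norm_num) u
  rw [pow_succ] at h2
  apply Nat.div_eq_of_lt_le <;> omega

theorem mem_TH {h r : ℕ} {K : Finset (TV h r)} : K ∈ TH h r ↔ ∃ x y : TV h r, x ≠ y ∧
    (x.1.1 = y.1.1 ∨ x.1.1 = y.1.1 / 2) ∧ K = {x, y} := by
  unfold TH
  rw [Finset.mem_image]
  constructor
  · rintro ⟨p, hp, rfl⟩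
    exact ⟨p.1, p.2, (Finset.mem_filter.1 hp).2.1, (Finset.mem_filter.1 hp).2.2, rfl⟩
  · rintro ⟨x, y, h1, h2, rfl⟩
    exact ⟨(x, y), Finset.mem_filter.2 ⟨Finset.mem_univ _, h1, h2⟩, rfl⟩

/-- the variables of the vertex `v` -/
def Wv (h r v : ℕ) : Finset (TV h r) := univ.filter fun x => x.1.1 = v

theorem mem_Wv {h r v : ℕ} {x : TV h r} : x ∈ Wv h r v ↔ x.1.1 = v := by
  unfold Wv; simp

theorem Wv_card (h r v : ℕ) : (Wv h r v).card ≤ r := by
  have : (Wv h r v).card ≤ (univ : Finset (Fin r)).card := by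
    apply Finset.card_le_card_of_injOn (fun x => x.2) (fun _ _ => Finset.mem_univ _)
    intro x hx y hy hxy
    rw [Finset.mem_coe, mem_Wv] at hx hy
    apply Prod.ext
    · apply Subtype.ext
      rw [hx, hy]
    · exact hxy
  simpa using this

section

variable {V : Type} [Fintype V] [DecidableEq V]

theorem cut_union (H U U' : Finset (Finset V)) : cut H (U ∪ U') ⊆ cut H U ∪ cut H U' := by
  intro i hi
  unfold cut at hi
  rw [Finset.mem_filter] at hi
  obtain ⟨-, ⟨K, hK, hiK⟩, K', hK', hiK'⟩ := hi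
  rw [Finset.mem_sdiff, Finset.mem_union, not_or] at hK'
  rw [Finset.mem_union] at hK ⊢
  unfold cut
  rw [Finset.mem_filter, Finset.mem_filter]
  rcases hK with hK | hK
  · exact Or.inl ⟨Finset.mem_univ _, ⟨K, hK, hiK⟩, K', Finset.mem_sdiff.2 ⟨hK'.1, hK'.2.1⟩, hiK'⟩
  · exact Or.inr ⟨Finset.mem_univ _, ⟨K, hK, hiK⟩, K', Finset.mem_sdiff.2 ⟨hK'.1, hK'.2.2⟩, hiK'⟩

theorem cut_single (H : Finset (Finset V)) (K : Finset V) : cut H {K} ⊆ K := by
  intro i hi
  unfold cut at hi
  rw [Finset.mem_filter] at hi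
  obtain ⟨-, ⟨K', hK, hiK⟩, -⟩ := hi
  rw [Finset.mem_singleton] at hK
  rwa [← hK]

theorem fold (H : Finset (Finset V)) (W : Finset V) (w : ℕ) (hW : W.card ≤ w) (T : CTree V)
    (hT : T.Proper) (hTw : T.width H ≤ w) (hcut : cut H T.leaves ⊆ W) (S : Finset (Finset V))
    (hS : ∀ K ∈ S, K ⊆ W) :
    ∃ T' : CTree V, T'.Proper ∧ T'.width H ≤ w ∧ T'.leaves = T.leaves ∪ S ∧ cut H T'.leaves ⊆ W := by
  induction S using Finset.induction_on with
  | empty => exact ⟨T, hT, hTw, by simp, hcut⟩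
  | insert K S hK ih =>
    obtain ⟨T', h1, h2, h3, h4⟩ := ih (fun K' hK' => hS K' (Finset.mem_insert_of_mem hK'))
    have hKW := hS K (Finset.mem_insert_self _ _)
    by_cases hKT : K ∈ T'.leaves
    · refine ⟨T', h1, h2, ?_, h4⟩
      rw [Finset.union_insert, ← h3, Finset.insert_eq_of_mem hKT]
    · have hc : cut H T'.leaves ∪ cut H {K} ⊆ W :=
        Finset.union_subset h4 ((cut_single H K).trans hKW)
      refine ⟨.node T' (.leaf K), ⟨h1, trivial, ?_⟩, ?_, ?_, ?_⟩
      · exact Finset.disjoint_singleton_right.2 hKT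
      · change max (cut H T'.leaves ∪ cut H {K}).card (max (T'.width H) 0) ≤ w
        exact max_le ((Finset.card_le_card hc).trans hW) (max_le h2 (Nat.zero_le _))
      · change T'.leaves ∪ {K} = _
        rw [h3, Finset.union_assoc]
        congr 1
        rw [Finset.union_comm, ← Finset.insert_eq]
      · exact (cut_union H T'.leaves {K}).trans hc

end

open Classical in
/-- the scopes in the subtree of `v` -/
noncomputable def E (h r v : ℕ) : Finset (Finset (TV h r)) := (TH h r).filter fun K => ∀ x ∈ K, D v x.1.1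

theorem mem_E {h r v : ℕ} {K : Finset (TV h r)} : K ∈ E h r v ↔ K ∈ TH h r ∧ ∀ x ∈ K, D v x.1.1 := by
  classical
  unfold E
  rw [Finset.mem_filter]

theorem cut_E (h r w : ℕ) : cut (TH h r) (E h r w) ⊆ Wv h r w := by
  intro i hi
  unfold cut at hi
  rw [Finset.mem_filter] at hi
  obtain ⟨-, ⟨K, hK, hiK⟩, K', hK', hiK'⟩ := hi
  rw [mem_Wv]
  by_contra hne
  rw [Finset.mem_sdiff] at hK'
  apply hK'.2
  rw [mem_E]
  refine ⟨hK'.1, ?_⟩
  have hDi : D w i.1.1 := (mem_E.1 hK).2 i hiK
  obtain ⟨x, y, -, hxy, rfl⟩ := mem_TH.1 hK'.1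
  rw [Finset.mem_insert, Finset.mem_singleton] at hiK'
  have hboth : D w x.1.1 ∧ D w y.1.1 := by
    rcases hxy with hxy | hxy
    · rcases hiK' with rfl | rfl
      · exact ⟨hDi, hxy ▸ hDi⟩
      · exact ⟨hxy ▸ hDi, hDi⟩
    · rcases hiK' with rfl | rfl
      · refine ⟨hDi, ?_⟩
        rw [hxy] at hDi
        exact D_up hDi
      · refine ⟨?_, hDi⟩
        rw [hxy]
        exact D_down hDi hne
  intro z hz
  rw [Finset.mem_insert, Finset.mem_singleton] at hz
  rcases hz with rfl | rfl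
  · exact hboth.1
  · exact hboth.2

theorem claim (h r : ℕ) (hr : 2 ≤ r) (t : ℕ) : ∀ v : ℕ, 1 ≤ v → 2 ^ h ≤ v * 2 ^ t →
    (v + 1) * 2 ^ t ≤ 2 ^ (h + 1) →
    ∃ T : CTree (TV h r), T.Proper ∧ T.width (TH h r) ≤ 3 * r ∧ T.leaves = E h r v := by
  induction t with
  | zero =>
    intro v hv h1 h2
    rw [pow_zero, mul_one] at h1 h2
    have hvm : v ∈ Finset.Ico 1 (2 ^ (h + 1)) := Finset.mem_Ico.2 ⟨hv, by omega⟩
    let x0 : TV h r := (⟨v, hvm⟩, ⟨0, by omega⟩)
    let x1 : TV h r := (⟨v, hvm⟩, ⟨1, by omega⟩)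
    have hne : x0 ≠ x1 := by
      intro he
      have := congrArg (fun z : TV h r => z.2.1) he
      simp [x0, x1] at this
    have hD : ∀ x : TV h r, D v x.1.1 → x.1.1 = v := by
      intro x hx
      by_contra hne
      have h3 := D_down hx hne
      have h4 := (Finset.mem_Ico.1 x.1.2).2
      obtain ⟨s, hs⟩ := h3
      have := Nat.div_le_self (x.1.1 / 2) (2 ^ s)
      have h5 : 2 ^ (h + 1) = 2 ^ h * 2 := pow_succ 2 h
      omega
    have hK0 : ({x0, x1} : Finset (TV h r)) ∈ E h r v := by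
      rw [mem_E]
      refine ⟨mem_TH.2 ⟨x0, x1, hne, Or.inl rfl, rfl⟩, ?_⟩
      intro x hx
      rw [Finset.mem_insert, Finset.mem_singleton] at hx
      rcases hx with rfl | rfl
      · exact D_refl v
      · exact D_refl v
    have hsub : ∀ K ∈ E h r v, K ⊆ Wv h r v := by
      intro K hK x hx
      rw [mem_Wv]
      exact hD x ((mem_E.1 hK).2 x hx)
    obtain ⟨T', h1', h2', h3', -⟩ := fold (TH h r) (Wv h r v) (3 * r)
      ((Wv_card h r v).trans (by omega)) (.leaf {x0, x1}) trivial (Nat.zero_le _)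
      ((cut_single _ _).trans (hsub _ hK0)) (E h r v) hsub
    refine ⟨T', h1', h2', ?_⟩
    rw [h3']
    exact Finset.union_eq_right.2 (Finset.singleton_subset_iff.2 hK0)
  | succ t ih =>
    intro v hv h1 h2
    rw [pow_succ] at h1
    have h2' : (v + 1) * (2 ^ t * 2) ≤ 2 ^ (h + 1) := by rw [← pow_succ]; exact h2
    have hpos : 0 < 2 ^ t := Nat.pos_of_ne_zero (by positivity)
    obtain ⟨T1, a1, a2, a3⟩ := ih (2 * v) (by omega) (by nlinarith) (by nlinarith)
    obtain ⟨T2, b1, b2, b3⟩ := ih (2 * v + 1) (by omega) (by nlinarith) (by nlinarith)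
    set W := Wv h r v ∪ (Wv h r (2 * v) ∪ Wv h r (2 * v + 1)) with hW
    have hWc : W.card ≤ 3 * r := by
      rw [hW]
      have c1 := Wv_card h r v
      have c2 := Wv_card h r (2 * v)
      have c3 := Wv_card h r (2 * v + 1)
      have d1 := Finset.card_union_le (Wv h r v) (Wv h r (2 * v) ∪ Wv h r (2 * v + 1))
      have d2 := Finset.card_union_le (Wv h r (2 * v)) (Wv h r (2 * v + 1))
      omega
    have hc1 : cut (TH h r) (E h r (2 * v)) ∪ cut (TH h r) (E h r (2 * v + 1)) ⊆ W := by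
      apply Finset.union_subset
      · exact (cut_E h r _).trans (fun x hx => Finset.mem_union_right _ (Finset.mem_union_left _ hx))
      · exact (cut_E h r _).trans (fun x hx => Finset.mem_union_right _ (Finset.mem_union_right _ hx))
    have hdisj : Disjoint T1.leaves T2.leaves := by
      rw [a3, b3, Finset.disjoint_left]
      intro K hK hK'
      obtain ⟨x, y, -, -, rfl⟩ := mem_TH.1 (mem_E.1 hK).1
      have e1 := (mem_E.1 hK).2 x (Finset.mem_insert_self _ _)
      have e2 := (mem_E.1 hK').2 x (Finset.mem_insert_self _ _)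
      exact D_disj e1 e2 (by omega) (by omega) (by omega)
    classical
    obtain ⟨T', h1', h2', h3', -⟩ := fold (TH h r) W (3 * r) hWc (.node T1 T2)
      ⟨a1, b1, hdisj⟩
      (by
        change max (cut (TH h r) T1.leaves ∪ cut (TH h r) T2.leaves).card _ ≤ _
        rw [a3, b3]
        exact max_le ((Finset.card_le_card hc1).trans hWc) (max_le a2 b2))
      (by
        change cut (TH h r) (T1.leaves ∪ T2.leaves) ⊆ W
        rw [a3, b3]
        exact (cut_union _ _ _).trans hc1)
      ((E h r v).filter fun K => K ⊆ W) (fun K hK => (Finset.mem_filter.1 hK).2)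
    refine ⟨T', h1', h2', ?_⟩
    rw [h3']
    change (T1.leaves ∪ T2.leaves) ∪ _ = _
    rw [a3, b3]
    ext K
    rw [Finset.mem_union, Finset.mem_union, Finset.mem_filter]
    constructor
    · rintro ((hK | hK) | hK)
      · rw [mem_E] at hK ⊢
        refine ⟨hK.1, fun x hx => ?_⟩
        have := D_half (hK.2 x hx)
        rwa [Nat.mul_div_cancel_left v (by norm_num)] at this
      · rw [mem_E] at hK ⊢
        refine ⟨hK.1, fun x hx => ?_⟩
        have := D_half (hK.2 x hx)
        have e : (2 * v + 1) / 2 = v := by omega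
        rwa [e] at this
      · exact hK.1
    · intro hK
      have hK2 := mem_E.1 hK
      obtain ⟨x, y, hne, hxy, rfl⟩ := mem_TH.1 hK2.1
      have hx : D v x.1.1 := hK2.2 x (by simp)
      have hy : D v y.1.1 := hK2.2 y (by simp)
      have hmem : ∀ w, D w x.1.1 → D w y.1.1 → ({x, y} : Finset (TV h r)) ∈ E h r w := by
        intro w hwx hwy
        rw [mem_E]
        refine ⟨hK2.1, ?_⟩
        intro z hz
        rw [Finset.mem_insert, Finset.mem_singleton] at hz
        rcases hz with rfl | rfl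
        · exact hwx
        · exact hwy
      have hWm : ∀ z : TV h r, z.1.1 = v ∨ z.1.1 = 2 * v ∨ z.1.1 = 2 * v + 1 → z ∈ W := by
        intro z hz
        rw [hW, Finset.mem_union, Finset.mem_union, mem_Wv, mem_Wv, mem_Wv]
        exact hz
      by_cases hxv : x.1.1 = v
      · right
        refine ⟨hK, ?_⟩
        have hyv : y.1.1 = v ∨ y.1.1 = 2 * v ∨ y.1.1 = 2 * v + 1 := by
          rcases hxy with hxy | hxy <;> omega
        intro z hz
        rw [Finset.mem_insert, Finset.mem_singleton] at hz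
        rcases hz with rfl | rfl
        · exact hWm _ (Or.inl hxv)
        · exact hWm _ hyv
      · left
        rcases D_child hx hxv with hc | hc
        · left
          apply hmem _ hc
          rcases hxy with hxy | hxy
          · rw [← hxy]; exact hc
          · rw [hxy] at hc; exact D_up hc
        · right
          apply hmem _ hc
          rcases hxy with hxy | hxy
          · rw [← hxy]; exact hc
          · rw [hxy] at hc; exact D_up hc

end TRC

theorem t_TRC : S_TRC := by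
  intro h r hr
  obtain ⟨T, h1, h2, h3⟩ := TRC.claim h r hr h 1 le_rfl (by rw [one_mul]) (by
    rw [pow_succ]; omega)
  have h4 : T.leaves = TH h r := by
    rw [h3]
    ext K
    rw [TRC.mem_E]
    refine ⟨fun h => h.1, fun h => ⟨h, fun x _ => TRC.D_one (Finset.mem_Ico.1 x.1.2).1⟩⟩
  have h5 : cwidth (TH h r) ≤ T.width (TH h r) := Nat.sInf_le ⟨T, h1, h4, rfl⟩
  exact h5.trans h2

end Pool.Agent.HS38.GT
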