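import Pool.Agent.HS38.GT.Stm6

/-!
# Project GT, part 5, piece TRG: the blown-up tree
-/

set_option autoImplicit false

namespace Pool.Agent.HS38.GT

open MvPolynomial Finset Pool.Agent.Helper1x.EQ Pool.Agent.H20VP

namespace TRG

theorem mem_TH {h r : ℕ} {K : Finset (TV h r)} :
    K ∈ TH h r ↔ ∃ x y : TV h r, x ≠ y ∧ (x.1.1 = y.1.1 ∨ x.1.1 = y.1.1 / 2) ∧ K = {x, y} := by
  unfold TH
  rw [Finset.mem_image]
  constructor
  · rintro ⟨p, hp, rfl⟩
    rw [Finset.mem_filter] at hp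
    exact ⟨p.1, p.2, hp.2.1, hp.2.2, rfl⟩
  · rintro ⟨x, y, hxy, h1, rfl⟩
    exact ⟨(x, y), Finset.mem_filter.2 ⟨Finset.mem_univ _, hxy, h1⟩, rfl⟩

theorem two_le_of_mem {α : Type} [DecidableEq α] {s : Finset α} {x y : α} (hxy : x ≠ y) (hx : x ∈ s) (hy : y ∈ s) :
    2 ≤ s.card := by
  rw [← Finset.card_pair hxy]
  exact Finset.card_le_card (by
    intro z hz
    rw [Finset.mem_insert, Finset.mem_singleton] at hz
    rcases hz with rfl | rfl
    · exact hx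
    · exact hy)

theorem mem_cut {V : Type} [Fintype V] [DecidableEq V] {H U : Finset (Finset V)} {i : V} :
    i ∈ cut H U ↔ (∃ K ∈ U, i ∈ K) ∧ ∃ K ∈ H \ U, i ∈ K := by
  unfold cut
  rw [Finset.mem_filter]
  exact ⟨fun h => h.2, fun h => ⟨Finset.mem_univ _, h⟩⟩

end TRG

open TRG in
theorem t_TRG (hT : S_TYP) : S_TRG := by
  intro h r hr
  have hpow : 2 ≤ 2 ^ (h + 1) := by
    rw [pow_succ]
    have : 1 ≤ 2 ^ h := Nat.one_le_two_pow
    omega
  refine ⟨?_, ?_, ?_, ?_, ?_⟩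
  · intro U hU hUn hUH
    by_contra hcon
    have h1 := hT h r hr U hU {u | 1 ≤ u ∧ u < 2 ^ (h + 1)} 1 ⟨le_rfl, by omega⟩ (fun u hu => hu)
      (fun u hu hu1 => ⟨by have := hu.1; omega, by have := hu.2; omega⟩)
      (fun u hu => by
        by_contra hno
        push Not at hno
        apply hcon
        have hu' : u ∈ Finset.Ico 1 (2 ^ (h + 1)) := Finset.mem_Ico.2 hu
        refine two_le_of_mem (x := ((⟨u, hu'⟩, ⟨0, by omega⟩) : TV h r)) (y := (⟨u, hu'⟩, ⟨1, by omega⟩)) ?_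
          (hno _ rfl) (hno _ rfl)
        intro h0
        have h2 := congrArg (fun z : TV h r => z.2.1) h0
        simp at h2)
    have hall : ∀ x : TV h r, x.1.1 ∈ {u | 1 ≤ u ∧ u < 2 ^ (h + 1)} := fun x => Finset.mem_Ico.1 x.1.2
    rcases h1 with h1 | h1
    · obtain ⟨K, hK⟩ : (TH h r \ U).Nonempty := by
        rw [Finset.sdiff_nonempty]
        intro h2
        exact hUH (Finset.Subset.antisymm hU h2)
      obtain ⟨x, y, hxy, -, hKe⟩ := mem_TH.1 (Finset.mem_sdiff.1 hK).1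
      apply hcon
      refine two_le_of_mem hxy ?_ ?_
      · exact mem_cut.2 ⟨h1 x (hall x), K, hK, by rw [hKe]; simp⟩
      · exact mem_cut.2 ⟨h1 y (hall y), K, hK, by rw [hKe]; simp⟩
    · obtain ⟨K, hK⟩ := hUn
      obtain ⟨x, y, hxy, -, hKe⟩ := mem_TH.1 (hU hK)
      apply hcon
      refine two_le_of_mem hxy ?_ ?_
      · exact mem_cut.2 ⟨⟨K, hK, by rw [hKe]; simp⟩, h1 x (hall x)⟩
      · exact mem_cut.2 ⟨⟨K, hK, by rw [hKe]; simp⟩, h1 y (hall y)⟩
  · intro i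
    have : Nontrivial (Fin r) := Fin.nontrivial_iff_two_le.2 hr
    obtain ⟨k, hk⟩ := exists_ne i.2
    refine ⟨{i, (i.1, k)}, mem_TH.2 ⟨i, (i.1, k), ?_, Or.inl rfl, rfl⟩, by simp⟩
    intro h0
    exact hk (congrArg Prod.snd h0).symm
  · intro K hK
    obtain ⟨x, y, hxy, -, rfl⟩ := mem_TH.1 hK
    exact Finset.card_pair hxy
  · unfold TH
    refine Finset.card_image_le.trans ((Finset.card_filter_le _ _).trans ?_)
    rw [Finset.card_univ, Fintype.card_prod, Fintype.card_prod, Fintype.card_fin, Fintype.card_coe, Nat.card_Ico,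
      ← pow_two]
    exact Nat.pow_le_pow_left (Nat.mul_le_mul_right _ (Nat.sub_le _ _)) 2
  · intro hh
    have hpow2 : 4 ≤ 2 ^ (h + 1) := by
      calc 4 = 2 ^ 2 := by norm_num
        _ ≤ 2 ^ (h + 1) := Nat.pow_le_pow_right (by norm_num) (by omega)
    have m1 : 1 ∈ Finset.Ico 1 (2 ^ (h + 1)) := Finset.mem_Ico.2 ⟨le_rfl, by omega⟩
    have m2 : 2 ∈ Finset.Ico 1 (2 ^ (h + 1)) := Finset.mem_Ico.2 ⟨by omega, by omega⟩
    have hne : ∀ (v w : {v : ℕ // v ∈ Finset.Ico 1 (2 ^ (h + 1))}),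
        ((v, ⟨0, by omega⟩) : TV h r) ≠ (w, ⟨1, by omega⟩) := by
      intro v w h0
      have h2 := congrArg (fun z : TV h r => z.2.1) h0
      simp at h2
    refine two_le_of_mem (x := ({(⟨1, m1⟩, ⟨0, by omega⟩), (⟨1, m1⟩, ⟨1, by omega⟩)} : Finset (TV h r)))
      (y := {(⟨2, m2⟩, ⟨0, by omega⟩), (⟨2, m2⟩, ⟨1, by omega⟩)}) ?_ ?_ ?_
    · intro h0
      have h1 : ((⟨1, m1⟩, ⟨0, by omega⟩) : TV h r) ∈
          ({(⟨2, m2⟩, ⟨0, by omega⟩), (⟨2, m2⟩, ⟨1, by omega⟩)} : Finset (TV h r)) := by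
        rw [← h0]
        simp
      rw [Finset.mem_insert, Finset.mem_singleton] at h1
      rcases h1 with h1 | h1
      · have h2 := congrArg (fun z : TV h r => z.1.1) h1
        simp at h2
      · have h2 := congrArg (fun z : TV h r => z.1.1) h1
        simp at h2
    · exact mem_TH.2 ⟨_, _, hne _ _, Or.inl rfl, rfl⟩
    · exact mem_TH.2 ⟨_, _, hne _ _, Or.inl rfl, rfl⟩

end Pool.Agent.HS38.GT
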