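import Pool.Agent.HS38.GT.TRC

/-! Project GT, piece TRL: linear width of the blown-up tree. -/

set_option autoImplicit false

namespace Pool.Agent.HS38.GT

open MvPolynomial Finset

namespace TRL

open TRC

theorem mem_cut {V : Type} [Fintype V] [DecidableEq V] {H U : Finset (Finset V)} {i : V} :
    i ∈ cut H U ↔ (∃ K ∈ U, i ∈ K) ∧ ∃ K ∈ H \ U, i ∈ K := by
  unfold cut; simp

theorem first {α : Type} (P : List α → Prop) : ∀ l : List α, ¬ P [] → P l →
    ∃ (K : α) (s : List α), (K :: s) <:+ l ∧ ¬ P s ∧ P (K :: s) := by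
  intro l h0
  induction l with
  | nil => intro h; exact absurd h h0
  | cons K l ih =>
    intro h
    by_cases hl : P l
    · obtain ⟨K', s, h1, h2, h3⟩ := ih hl
      exact ⟨K', s, h1.trans (List.suffix_cons K l), h2, h3⟩
    · exact ⟨K, l, List.suffix_rfl, hl, h⟩

open Classical in
/-- variables of the cut in the subtree of `v` -/
noncomputable def CD (h r v : ℕ) (U : Finset (Finset (TV h r))) : Finset (TV h r) :=
  (cut (TH h r) U).filter fun x => D v x.1.1

theorem mem_CD {h r v : ℕ} {U : Finset (Finset (TV h r))} {x : TV h r} :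
    x ∈ CD h r v U ↔ x ∈ cut (TH h r) U ∧ D v x.1.1 := by
  classical
  unfold CD
  rw [Finset.mem_filter]

theorem Wv_card_eq (h r v : ℕ) (hv : v ∈ Finset.Ico 1 (2 ^ (h + 1))) : (Wv h r v).card = r := by
  have h1 : Wv h r v = (univ : Finset (Fin r)).image fun k => ((⟨v, hv⟩, k) : TV h r) := by
    ext x
    rw [mem_Wv, Finset.mem_image]
    constructor
    · intro hx
      refine ⟨x.2, Finset.mem_univ _, ?_⟩
      apply Prod.ext
      · exact Subtype.ext hx.symm
      · rfl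
    · rintro ⟨k, -, rfl⟩
      rfl
  rw [h1, Finset.card_image_of_injective]
  · simp
  · intro a b hab
    exact congrArg Prod.snd hab

theorem one (h r : ℕ) (hr : 2 ≤ r) (l : List (Finset (TV h r))) (hl : l.toFinset = TH h r) (v : ℕ)
    (hv : 1 ≤ v) (hv2 : (v + 1) * 2 ≤ 2 ^ (h + 1)) :
    ∃ s, s <:+ l ∧ r ≤ (CD h r v s.toFinset).card := by
  classical
  have hvm : v ∈ Finset.Ico 1 (2 ^ (h + 1)) := Finset.mem_Ico.2 ⟨hv, by omega⟩
  have h2vm : 2 * v ∈ Finset.Ico 1 (2 ^ (h + 1)) := Finset.mem_Ico.2 ⟨by omega, by omega⟩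
  set S : Finset (TV h r) := Wv h r v ∪ Wv h r (2 * v) with hS
  have hScard : S.card = 2 * r := by
    rw [hS, Finset.card_union_of_disjoint, Wv_card_eq h r v hvm, Wv_card_eq h r _ h2vm, two_mul]
    rw [Finset.disjoint_left]
    intro x hx hx'
    rw [mem_Wv] at hx hx'
    omega
  have hpair : ∀ x ∈ S, ∀ y ∈ S, x ≠ y → ({x, y} : Finset (TV h r)) ∈ TH h r := by
    intro x hx y hy hne
    rw [hS, Finset.mem_union, mem_Wv, mem_Wv] at hx hy
    rw [mem_TH]
    rcases hx with hx | hx <;> rcases hy with hy | hy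
    · exact ⟨x, y, hne, Or.inl (by omega), rfl⟩
    · exact ⟨x, y, hne, Or.inr (by omega), rfl⟩
    · exact ⟨y, x, hne.symm, Or.inr (by omega), Finset.pair_comm _ _⟩
    · exact ⟨x, y, hne, Or.inl (by omega), rfl⟩
  let P : List (Finset (TV h r)) → Prop := fun s =>
    ∃ x ∈ S, ∀ K ∈ TH h r, x ∈ K → K ∈ s.toFinset
  have hSne : ∃ x ∈ S, ∃ y ∈ S, x ≠ y := by
    have : 1 < S.card := by omega
    obtain ⟨x, hx, y, hy, hxy⟩ := Finset.one_lt_card.1 this
    exact ⟨x, hx, y, hy, hxy⟩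
  have hother : ∀ x ∈ S, ∃ y ∈ S, x ≠ y := by
    intro x hx
    have : 1 < S.card := by omega
    obtain ⟨y, hy, hne⟩ := Finset.exists_mem_ne this x
    exact ⟨y, hy, hne.symm⟩
  have hP0 : ¬ P [] := by
    rintro ⟨x, hx, hK⟩
    obtain ⟨y, hy, hne⟩ := hother x hx
    have := hK _ (hpair x hx y hy hne) (by simp)
    simp at this
  have hP1 : P l := by
    obtain ⟨x, hx, -⟩ := hSne
    exact ⟨x, hx, fun K hK _ => by rw [hl]; exact hK⟩
  obtain ⟨K, s, hs, hns, x, hx, hfin⟩ := first P l hP0 hP1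
  refine ⟨s, (List.suffix_cons K s).trans hs, ?_⟩
  -- x in K
  have hKH : K ∈ TH h r := by
    rw [← hl, List.mem_toFinset]
    exact hs.mem (by simp)
  have hnot : ∀ y ∈ S, ∃ K' ∈ TH h r \ s.toFinset, y ∈ K' := by
    intro y hy
    by_contra hcon
    push Not at hcon
    apply hns
    refine ⟨y, hy, fun K' hK' hyK' => ?_⟩
    by_contra hK's
    exact hcon K' (Finset.mem_sdiff.2 ⟨hK', hK's⟩) hyK'
  have hxK : x ∈ K := by
    obtain ⟨K', hK', hxK'⟩ := hnot x hx
    rw [Finset.mem_sdiff] at hK'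
    have := hfin K' hK'.1 hxK'
    rw [List.toFinset_cons, Finset.mem_insert] at this
    rcases this with e | e
    · rw [← e]; exact hxK'
    · exact absurd e hK'.2
  have hsub : S \ K ⊆ CD h r v s.toFinset := by
    intro y hy
    rw [Finset.mem_sdiff] at hy
    have hyx : x ≠ y := by rintro rfl; exact hy.2 hxK
    rw [mem_CD]
    constructor
    · rw [mem_cut]
      refine ⟨⟨{x, y}, ?_, by simp⟩, hnot y hy.1⟩
      have := hfin {x, y} (hpair x hx y hy.1 hyx) (by simp)
      rw [List.toFinset_cons, Finset.mem_insert] at this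
      rcases this with e | e
      · exact absurd (by rw [← e]; simp) hy.2
      · exact e
    · have := hy.1
      rw [hS, Finset.mem_union, mem_Wv, mem_Wv] at this
      rcases this with e | e
      · rw [e]; exact D_refl v
      · rw [e]
        have := D_half (D_refl (2 * v))
        rwa [Nat.mul_div_cancel_left v (by norm_num)] at this
  have hKc : K.card ≤ 2 := by
    obtain ⟨a, b, -, -, rfl⟩ := mem_TH.1 hKH
    exact Finset.card_le_two
  have h1 := Finset.card_le_card hsub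
  have h2 := Finset.le_card_sdiff K S
  omega

theorem step (h r : ℕ) (hr : 2 ≤ r) (hT : S_TYP) (l : List (Finset (TV h r)))
    (hl : l.toFinset = TH h r) (v k : ℕ) (hk : 1 ≤ k) (hv : 1 ≤ v) (hv2 : v < 2 ^ (h + 1))
    (m a b : ℕ) (sm sa sb : List (Finset (TV h r))) (hma : m / 4 = v) (ha : a / 4 = v)
    (hb : b / 4 = v) (hne1 : m ≠ a) (hne2 : m ≠ b)
    (hsm : sm <:+ l) (hsam : sa <:+ sm) (hsmb : sm <:+ sb)
    (h1 : r * k ≤ (CD h r m sm.toFinset).card) (h2 : r * k ≤ (CD h r a sa.toFinset).card)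
    (h3 : r * k ≤ (CD h r b sb.toFinset).card) :
    r * (k + 1) ≤ (CD h r v sm.toFinset).card := by
  classical
  have hquad : ∀ a u : ℕ, a / 4 = v → D a u → D v u := by
    intro a u ha hu
    have := D_half (D_half hu)
    rw [Nat.div_div_eq_div_mul, ha] at this
    exact this
  have hUH : sm.toFinset ⊆ TH h r := by
    rw [← hl]
    intro K hK
    rw [List.mem_toFinset] at hK ⊢
    exact hsm.mem hK
  have ham : sa.toFinset ⊆ sm.toFinset := by
    intro K hK
    rw [List.mem_toFinset] at hK ⊢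
    exact hsam.mem hK
  have hmb : sm.toFinset ⊆ sb.toFinset := by
    intro K hK
    rw [List.mem_toFinset] at hK ⊢
    exact hsmb.mem hK
  set R : Set ℕ := {u | u < 2 ^ (h + 1) ∧ D v u ∧ ¬ D m u} with hR
  set CR : Finset (TV h r) := (cut (TH h r) sm.toFinset).filter fun x => x.1.1 ∈ R with hCR
  have hrk : r ≤ r * k := Nat.le_mul_of_pos_right r hk
  have hmain : r ≤ CR.card := by
    by_contra hlt
    push Not at hlt
    have hpos : ∀ u, D v u → 1 ≤ u := by
      rintro u ⟨s, hs⟩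
      have := Nat.div_le_self u (2 ^ s)
      omega
    have hvR : v ∈ R := by
      refine ⟨hv2, D_refl v, ?_⟩
      rintro ⟨s, hs⟩
      have := Nat.div_le_self v (2 ^ s)
      omega
    have hdown : ∀ u ∈ R, u ≠ v → u / 2 ∈ R := by
      intro u hu hne
      refine ⟨?_, D_down hu.2.1 hne, fun hh => hu.2.2 (D_up hh)⟩
      have := hu.1
      omega
    have hfree : ∀ u ∈ R, ∃ x : TV h r, x.1.1 = u ∧ x ∉ cut (TH h r) sm.toFinset := by
      intro u hu
      by_contra hcon
      push Not at hcon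
      have hum : u ∈ Finset.Ico 1 (2 ^ (h + 1)) := Finset.mem_Ico.2 ⟨hpos u hu.2.1, hu.1⟩
      have hsub : Wv h r u ⊆ CR := by
        intro x hx
        rw [mem_Wv] at hx
        rw [hCR, Finset.mem_filter]
        exact ⟨hcon x hx, by rw [hx]; exact hu⟩
      have := Finset.card_le_card hsub
      rw [Wv_card_eq h r u hum] at this
      omega
    rcases hT h r hr sm.toFinset hUH R v hvR (fun u hu => ⟨hpos u hu.2.1, hu.1⟩) hdown hfree with
      hc | hc
    · -- all in scopes of U: use b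
      have hsub : CD h r b sb.toFinset ⊆ CR := by
        intro x hx
        rw [mem_CD, mem_cut] at hx
        obtain ⟨⟨-, K, hK, hxK⟩, hDx⟩ := hx
        have hxR : x.1.1 ∈ R := by
          refine ⟨(Finset.mem_Ico.1 x.1.2).2, hquad b _ hb hDx, fun hh => ?_⟩
          exact D_disj hh hDx hne2 (by omega) (by omega)
        rw [hCR, Finset.mem_filter, mem_cut]
        refine ⟨⟨hc x hxR, K, ?_, hxK⟩, hxR⟩
        rw [Finset.mem_sdiff] at hK ⊢
        exact ⟨hK.1, fun hh => hK.2 (hmb hh)⟩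
      have := Finset.card_le_card hsub
      omega
    · have hsub : CD h r a sa.toFinset ⊆ CR := by
        intro x hx
        rw [mem_CD, mem_cut] at hx
        obtain ⟨⟨⟨K, hK, hxK⟩, -⟩, hDx⟩ := hx
        have hxR : x.1.1 ∈ R := by
          refine ⟨(Finset.mem_Ico.1 x.1.2).2, hquad a _ ha hDx, fun hh => ?_⟩
          exact D_disj hh hDx hne1 (by omega) (by omega)
        rw [hCR, Finset.mem_filter, mem_cut]
        exact ⟨⟨⟨K, ham hK, hxK⟩, hc x hxR⟩, hxR⟩
      have := Finset.card_le_card hsub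
      omega
  have hdisj : Disjoint CR (CD h r m sm.toFinset) := by
    rw [Finset.disjoint_left]
    intro x hx hx'
    rw [hCR, Finset.mem_filter] at hx
    rw [mem_CD] at hx'
    exact hx.2.2.2 hx'.2
  have hsub : CR ∪ CD h r m sm.toFinset ⊆ CD h r v sm.toFinset := by
    intro x hx
    rw [Finset.mem_union] at hx
    rw [mem_CD]
    rcases hx with hx | hx
    · rw [hCR, Finset.mem_filter] at hx
      exact ⟨hx.1, hx.2.2.1⟩
    · rw [mem_CD] at hx
      exact ⟨hx.1, hquad m _ hma hx.2⟩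
  have h4 := Finset.card_le_card hsub
  rw [Finset.card_union_of_disjoint hdisj] at h4
  have h5 : r * (k + 1) = r * k + r := by ring
  omega

theorem three (h r : ℕ) (hr : 2 ≤ r) (hT : S_TYP) (l : List (Finset (TV h r)))
    (hl : l.toFinset = TH h r) (v k : ℕ) (hk : 1 ≤ k) (hv : 1 ≤ v) (hv2 : v < 2 ^ (h + 1))
    (hex : ∀ m, m = 4 * v ∨ m = 4 * v + 1 ∨ m = 4 * v + 2 →
      ∃ s, s <:+ l ∧ r * k ≤ (CD h r m s.toFinset).card) :
    ∃ s, s <:+ l ∧ r * (k + 1) ≤ (CD h r v s.toFinset).card := by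
  obtain ⟨s0, a0, b0⟩ := hex (4 * v) (by omega)
  obtain ⟨s1, a1, b1⟩ := hex (4 * v + 1) (by omega)
  obtain ⟨s2, a2, b2⟩ := hex (4 * v + 2) (by omega)
  have e0 : (4 * v) / 4 = v := by omega
  have e1 : (4 * v + 1) / 4 = v := by omega
  have e2 : (4 * v + 2) / 4 = v := by omega
  rcases List.suffix_or_suffix_of_suffix a0 a1 with h01 | h01 <;>
    rcases List.suffix_or_suffix_of_suffix a1 a2 with h12 | h12 <;>
    rcases List.suffix_or_suffix_of_suffix a0 a2 with h02 | h02
  · exact ⟨s1, a1, step h r hr hT l hl v k hk hv hv2 (4 * v + 1) (4 * v) (4 * v + 2) s1 s0 s2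
      e1 e0 e2 (by omega) (by omega) a1 h01 h12 b1 b0 b2⟩
  · exact ⟨s1, a1, step h r hr hT l hl v k hk hv hv2 (4 * v + 1) (4 * v) (4 * v + 2) s1 s0 s2
      e1 e0 e2 (by omega) (by omega) a1 h01 h12 b1 b0 b2⟩
  · exact ⟨s2, a2, step h r hr hT l hl v k hk hv hv2 (4 * v + 2) (4 * v) (4 * v + 1) s2 s0 s1
      e2 e0 e1 (by omega) (by omega) a2 h02 h12 b2 b0 b1⟩
  · exact ⟨s0, a0, step h r hr hT l hl v k hk hv hv2 (4 * v) (4 * v + 2) (4 * v + 1) s0 s2 s1
      e0 e2 e1 (by omega) (by omega) a0 h02 h01 b0 b2 b1⟩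
  · exact ⟨s0, a0, step h r hr hT l hl v k hk hv hv2 (4 * v) (4 * v + 1) (4 * v + 2) s0 s1 s2
      e0 e1 e2 (by omega) (by omega) a0 h01 h02 b0 b1 b2⟩
  · exact ⟨s2, a2, step h r hr hT l hl v k hk hv hv2 (4 * v + 2) (4 * v + 1) (4 * v) s2 s1 s0
      e2 e1 e0 (by omega) (by omega) a2 h12 h02 b2 b1 b0⟩
  · exact ⟨s1, a1, step h r hr hT l hl v k hk hv hv2 (4 * v + 1) (4 * v + 2) (4 * v) s1 s2 s0
      e1 e2 e0 (by omega) (by omega) a1 h12 h01 b1 b2 b0⟩
  · exact ⟨s1, a1, step h r hr hT l hl v k hk hv hv2 (4 * v + 1) (4 * v + 2) (4 * v) s1 s2 s0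
      e1 e2 e0 (by omega) (by omega) a1 h12 h01 b1 b2 b0⟩

theorem claim (h r : ℕ) (hr : 2 ≤ r) (hT : S_TYP) (l : List (Finset (TV h r)))
    (hl : l.toFinset = TH h r) (t : ℕ) : ∀ v : ℕ, 1 ≤ v → (v + 1) * 2 ^ t ≤ 2 ^ (h + 1) →
    ∃ s, s <:+ l ∧ r * ((t + 1) / 2) ≤ (CD h r v s.toFinset).card := by
  induction t using Nat.strong_induction_on with
  | _ t ih =>
    intro v hv h2
    have hpos : 0 < 2 ^ t := Nat.pos_of_ne_zero (by positivity)
    match t, ih, h2, hpos with
    | 0, _, _, _ => exact ⟨[], List.nil_suffix, by simp⟩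
    | 1, _, h2, _ =>
      rw [pow_one] at h2
      obtain ⟨s, h3, h4⟩ := one h r hr l hl v hv h2
      exact ⟨s, h3, by simpa using h4⟩
    | 2, _, h2, _ =>
      obtain ⟨s, h3, h4⟩ := one h r hr l hl v hv (by omega)
      exact ⟨s, h3, by simpa using h4⟩
    | (t + 3), ih, h2, _ =>
      have e : (t + 3 + 1) / 2 = (t + 1 + 1) / 2 + 1 := by omega
      rw [e]
      have hpos1 : 0 < 2 ^ (t + 1) := Nat.pos_of_ne_zero (by positivity)
      have e3 : 2 ^ (t + 3) = 4 * 2 ^ (t + 1) := by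
        rw [show t + 3 = (t + 1) + 2 from rfl, pow_add]; ring
      rw [e3] at h2
      refine three h r hr hT l hl v _ (by omega) hv (by nlinarith) ?_
      intro m hm
      exact ih (t + 1) (by omega) m (by omega) (by
        have : m + 1 ≤ 4 * (v + 1) := by omega
        calc (m + 1) * 2 ^ (t + 1) ≤ (4 * (v + 1)) * 2 ^ (t + 1) := Nat.mul_le_mul_right _ this
          _ = (v + 1) * (4 * 2 ^ (t + 1)) := by ring
          _ ≤ _ := h2)

end TRL

theorem t_TRL (hT : S_TYP) : S_TRL := by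
  intro h r hr
  classical
  have hne : {w | ∃ l : List (Finset (TV h r)), l.Nodup ∧ l.toFinset = TH h r ∧
      ∀ s, s <:+ l → (cut (TH h r) s.toFinset).card ≤ w}.Nonempty := by
    refine ⟨Fintype.card (TV h r), (TH h r).toList, Finset.nodup_toList _, Finset.toList_toFinset _, ?_⟩
    intro s _
    exact Finset.card_le_univ _
  obtain ⟨l, -, hl, hs⟩ := Nat.sInf_mem hne
  have hs' : ∀ s, s <:+ l → (cut (TH h r) s.toFinset).card ≤ lwidth (TH h r) := hs
  obtain ⟨s, h1, h2⟩ := TRL.claim h r hr hT l hl h 1 le_rfl (by rw [pow_succ]; omega)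
  have h3 : (TRL.CD h r 1 s.toFinset).card ≤ (cut (TH h r) s.toFinset).card := by
    apply Finset.card_le_card
    intro x hx
    exact (TRL.mem_CD.1 hx).1
  exact h2.trans (h3.trans (hs' s h1))

end Pool.Agent.HS38.GT
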