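import Pool.Agent.HS38.GT.Stm6

/-!
# Piece TRN (helper61): numbers
-/

set_option autoImplicit false

namespace Pool.Agent.HS38.GT

namespace TRN

lemma sq_le (h : ℕ) : h ^ 2 ≤ 2 ^ (h + 1) := by
  induction h with
  | zero => norm_num
  | succ h ih =>
    rcases Nat.lt_or_ge h 3 with h3 | h3
    · interval_cases h <;> norm_num
    · have e : 2 ^ (h + 1 + 1) = 2 * 2 ^ (h + 1) := by rw [pow_succ _ (h + 1)]; ring
      rw [e]
      nlinarith

end TRN

open TRN in
theorem t_TRN : S_TRN := by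
  constructor
  · rintro n h m hn rfl hm
    obtain ⟨h, hh⟩ : ∃ h, h = Nat.log 2 n := ⟨_, rfl⟩
    rw [← hh] at hm ⊢
    have h1 : 2 ^ h ≤ n := by
      rw [hh]
      exact Nat.pow_log_le_self 2 (by omega)
    have h2 : h ^ 2 ≤ 2 * n := by
      refine (sq_le h).trans ?_
      rw [pow_succ]
      omega
    have h3 : m ≤ 8 * n ^ 3 := by
      refine hm.trans ?_
      calc (2 ^ (h + 1) * h) ^ 2 = 4 * ((2 ^ h) ^ 2 * h ^ 2) := by rw [pow_succ]; ring
        _ ≤ 4 * (n ^ 2 * (2 * n)) := by gcongr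
        _ = 8 * n ^ 3 := by ring
    refine ⟨h3, ?_⟩
    have h4 : 2 ^ (3 * h) ≤ n ^ 3 := by
      rw [mul_comm, pow_mul]
      exact Nat.pow_le_pow_left h1 3
    have h5 : 64 ≤ n ^ 3 := by
      calc 64 = 4 ^ 3 := by norm_num
        _ ≤ n ^ 3 := Nat.pow_le_pow_left hn 3
    calc 2 * (m - 1) * 2 ^ (3 * h) + 2 * (m * 4) ≤ 2 * (8 * n ^ 3) * n ^ 3 +
          2 * (8 * n ^ 3 * 4) := by
          gcongr
          omega
      _ = 16 * (n ^ 3 * n ^ 3) + 64 * n ^ 3 := by ring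
      _ ≤ 16 * (n ^ 3 * n ^ 3) + n ^ 3 * n ^ 3 := by gcongr
      _ = 17 * n ^ 6 := by ring
  · intro c
    obtain ⟨k, hk⟩ : ∃ k, k = 4 * c + 4 := ⟨_, rfl⟩
    refine ⟨2 ^ k, ?_, ?_⟩
    · calc 4 = 2 ^ 2 := by norm_num
        _ ≤ 2 ^ k := Nat.pow_le_pow_right (by norm_num) (by omega)
    · rw [Nat.log_pow (by norm_num), show (k + 1) / 2 = 2 * c + 2 by omega, ← pow_mul]
      have h1 : c < 2 ^ c := Nat.lt_two_pow_self
      have h2 : 1 ≤ 2 ^ (k * c) := Nat.one_le_two_pow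
      calc c * 2 ^ (k * c) + c ≤ c * 2 ^ (k * c) + c * 2 ^ (k * c) := by
            gcongr
            exact Nat.le_mul_of_pos_right c (by omega)
        _ = 2 * c * 2 ^ (k * c) := by ring
        _ < 2 * 2 ^ c * 2 ^ (k * c) := by gcongr
        _ = 2 ^ (c + 1 + k * c) := by rw [pow_add, pow_succ]; ring
        _ ≤ 2 ^ (k * (2 * c + 2)) := Nat.pow_le_pow_right (by norm_num) (by
            have : k * (2 * c + 2) = k * c + k * c + 2 * k := by ring
            rw [this]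
            have : c ≤ k * c := Nat.le_mul_of_pos_left c (by omega)
            omega)

end Pool.Agent.HS38.GT
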