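import Pool.Agent.HS38.GT.Stm6

/-!
# Project GT, part 5, piece TYP (helper41)
-/

set_option autoImplicit false

namespace Pool.Agent.HS38.GT

namespace TYP

open Finset

lemma mem_TH {h r : ℕ} {x y : TV h r} (hxy : x ≠ y) (h1 : x.1.1 = y.1.1 ∨ x.1.1 = y.1.1 / 2) :
    ({x, y} : Finset (TV h r)) ∈ TH h r := by
  unfold TH
  rw [Finset.mem_image]
  exact ⟨(x, y), Finset.mem_filter.2 ⟨Finset.mem_univ _, hxy, h1⟩, rfl⟩

/-- the main part, for `A = U` or `A = H \ U` -/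
lemma main {h r : ℕ} (hr : 2 ≤ r) (A : Finset (Finset (TV h r))) (R : Set ℕ) (v : ℕ)
    (hR : ∀ u ∈ R, 1 ≤ u ∧ u < 2 ^ (h + 1)) (hp : ∀ u ∈ R, u ≠ v → u / 2 ∈ R)
    (hc : ∀ u ∈ R, ∃ x : TV h r, x.1.1 = u ∧
      ((∀ K ∈ TH h r, x ∈ K → K ∈ A) ∨ (∀ K ∈ TH h r, x ∈ K → K ∉ A)))
    (xv : TV h r) (hxv : xv.1.1 = v) (hv : ∀ K ∈ TH h r, xv ∈ K → K ∈ A) :
    ∀ y : TV h r, y.1.1 ∈ R → ∃ K ∈ A, y ∈ K := by
  have key : ∀ u, u ∈ R → ∃ x : TV h r, x.1.1 = u ∧ ∀ K ∈ TH h r, x ∈ K → K ∈ A := by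
    intro u
    induction u using Nat.strong_induction_on with
    | _ u ih =>
      intro hu
      by_cases huv : u = v
      · exact ⟨xv, by rw [hxv, huv], hv⟩
      · have h1 := (hR u hu).1
        obtain ⟨x', hx', hP⟩ := ih (u / 2) (by omega) (hp u hu huv)
        obtain ⟨x, hx, h2⟩ := hc u hu
        refine ⟨x, hx, ?_⟩
        rcases h2 with h2 | h2
        · exact h2
        · exfalso
          have hne : x' ≠ x := by
            rintro rfl
            omega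
          have h3 : ({x', x} : Finset (TV h r)) ∈ TH h r := mem_TH hne (Or.inr (by rw [hx', hx]))
          exact h2 _ h3 (by simp) (hP _ h3 (by simp))
  intro y hy
  obtain ⟨x, hx, hP⟩ := key _ hy
  by_cases hxy : x = y
  · subst hxy
    obtain ⟨j, hj⟩ : ∃ j : Fin r, j ≠ x.2 := by
      by_cases h0 : x.2 = ⟨0, by omega⟩
      · exact ⟨⟨1, by omega⟩, by rw [h0]; simp⟩
      · exact ⟨⟨0, by omega⟩, fun h => h0 h.symm⟩
    have hne : x ≠ (x.1, j) := by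
      intro h
      exact hj (congrArg Prod.snd h).symm
    have h3 : ({x, (x.1, j)} : Finset (TV h r)) ∈ TH h r := mem_TH hne (Or.inl rfl)
    exact ⟨_, hP _ h3 (by simp), by simp⟩
  · have h3 : ({x, y} : Finset (TV h r)) ∈ TH h r := mem_TH hxy (Or.inl hx)
    exact ⟨_, hP _ h3 (by simp), by simp⟩

end TYP

theorem t_TYP : S_TYP := by
  classical
  intro h r hr U hU R v hv hR hp hc
  have hc' : ∀ u ∈ R, ∃ x : TV h r, x.1.1 = u ∧
      ((∀ K ∈ TH h r, x ∈ K → K ∈ U) ∨ (∀ K ∈ TH h r, x ∈ K → K ∉ U)) := by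
    intro u hu
    obtain ⟨x, hx, h1⟩ := hc u hu
    refine ⟨x, hx, ?_⟩
    by_contra h2
    push Not at h2
    obtain ⟨⟨K, hK, hxK, hKU⟩, K', hK', hxK', hKU'⟩ := h2
    apply h1
    simp only [cut, Finset.mem_filter, Finset.mem_univ, true_and, Finset.mem_sdiff]
    exact ⟨⟨K', hKU', hxK'⟩, K, ⟨hK, hKU⟩, hxK⟩
  obtain ⟨xv, hxv, h1⟩ := hc' v hv
  rcases h1 with h1 | h1
  · left
    exact TYP.main hr U R v hR hp hc' xv hxv h1
  · right
    refine TYP.main hr (TH h r \ U) R v hR hp ?_ xv hxv ?_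
    · intro u hu
      obtain ⟨x, hx, h2⟩ := hc' u hu
      refine ⟨x, hx, ?_⟩
      rcases h2 with h2 | h2
      · right
        intro K hK hxK h3
        exact (Finset.mem_sdiff.1 h3).2 (h2 K hK hxK)
      · left
        intro K hK hxK
        exact Finset.mem_sdiff.2 ⟨hK, h2 K hK hxK⟩
    · intro K hK hxK
      exact Finset.mem_sdiff.2 ⟨hK, h1 K hK hxK⟩

end Pool.Agent.HS38.GT
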