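import Pool.Agent.HS38.GT.Stm6
import Pool.Agent.Helper1x.EQ.WS
import Pool.Agent.Helper1x.EQ.Circ

/-!
# WSK: weakly skew circuits with eigenvectors at the nodes give equivariant determinants
-/

set_option autoImplicit false

namespace Pool.Agent.HS38.GT.WSK

open MvPolynomial Finset Pool.Agent.Helper1x.EQ Pool.Agent.H20VP

lemma weight_eq {K X : Type} [Field K] (c : X → Kˣ) (m : X →₀ ℕ) :
    (((Additive.toMul (Finsupp.weight (fun x => Additive.ofMul (c x)) m) : Kˣ) : K)) =
      m.prod fun x n => ((c x : Kˣ) : K) ^ n := by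
  rw [Finsupp.weight_apply, Finsupp.sum, toMul_sum, Units.coe_prod, Finsupp.prod]
  refine Finset.prod_congr rfl fun x _ => ?_
  rw [toMul_nsmul, toMul_ofMul, Units.val_pow_eq_pow_val]

lemma hom_of_eig {K X : Type} [Field K] (c : X → Kˣ) (p : MvPolynomial X K)
    (h : Eig (fun x => ((c x : Kˣ) : K)) p) :
    ∃ d, MvPolynomial.IsWeightedHomogeneous (fun x => Additive.ofMul (c x)) p d := by
  by_cases hp : p = 0
  · exact ⟨0, hp ▸ MvPolynomial.isWeightedHomogeneous_zero K _ _⟩
  obtain ⟨b, hb⟩ := h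
  have h1 : ∀ m, coeff m p ≠ 0 → (m.prod fun x n => ((c x : Kˣ) : K) ^ n) = b := by
    intro m hm
    have h2 := congrArg (coeff m) hb
    rw [Helper1x.EQ.coeff_scale, coeff_C_mul] at h2
    exact mul_right_cancel₀ hm h2
  obtain ⟨m0, hm0⟩ := MvPolynomial.ne_zero_iff.1 hp
  refine ⟨Finsupp.weight (fun x => Additive.ofMul (c x)) m0, fun m hm => ?_⟩
  apply Additive.toMul.injective
  apply Units.ext
  rw [weight_eq, weight_eq, h1 m hm, h1 m0 hm0]

end Pool.Agent.HS38.GT.WSK

namespace Pool.Agent.HS38.GT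

open MvPolynomial Finset Pool.Agent.Helper1x.EQ Pool.Agent.H20VP

theorem t_WSK : S_WSK := by
  intro K X _ c Q f hQ hE
  obtain ⟨φ, hφ, ho, hE⟩ := hE
  obtain ⟨ι, hι, hι', M, a, b, hcard, hdeg, hdet, hM, -⟩ :=
    ws_det (fun x => Additive.ofMul (c x)) Q hQ φ hφ (fun n => WSK.hom_of_eig c (φ n) (hE n))
  let e : ι ≃ Fin (Q.size + 1) := Fintype.equivFinOfCardEq hcard
  let χ : Multiplicative (Additive Kˣ) →* Kˣ :=
    { toFun := fun g => Additive.toMul (Multiplicative.toAdd g)
      map_one' := rfl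
      map_mul' := fun _ _ => rfl }
  refine ⟨Matrix.reindex e e M, ⟨fun i j => hdeg _ _, ?_⟩, ?_⟩
  · rw [Matrix.det_reindex_self, hdet, ho]
  · have h1 := equivariant_of_graded (RingHom.id K) (fun x => Additive.ofMul (c x)) χ
      (M := Matrix.reindex e e M) (a := fun i => a (e.symm i)) (b := fun j => b (e.symm j))
      (fun i j => hM _ _)
    have h2 : (Matrix.reindex e e M).map (MvPolynomial.map (RingHom.id K)) = Matrix.reindex e e M := by
      ext1 i j
      simp [MvPolynomial.map_id]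
    rw [h2] at h1
    exact h1

end Pool.Agent.HS38.GT
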