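import Pool.Agent.HS38.GT.Stm8
import Pool.Agent.HS38.GT.WSK
import Pool.Agent.Helper1x.EQ.WS
import Pool.Agent.Helper1x.EQ.Circ

/-!
# WSKT: weakly skew circuits with common eigenvectors at the nodes give equivariant determinants
-/

set_option autoImplicit false

namespace Pool.Agent.HS38.GT.WSKT

open MvPolynomial Finset Pool.Agent.Helper1x.EQ Pool.Agent.H20VP

lemma weight_pi {K X : Type} [Field K] (T : Set (X → Kˣ)) (m : X →₀ ℕ) (c : T) :
    Finsupp.weight (fun x => fun c : T => Additive.ofMul (c.1 x)) m c =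
      Finsupp.weight (fun x => Additive.ofMul (c.1 x)) m := by
  rw [Finsupp.weight_apply, Finsupp.weight_apply, Finsupp.sum, Finsupp.sum, Finset.sum_apply]
  rfl

lemma hom_of_eig {K X : Type} [Field K] (T : Set (X → Kˣ)) (p : MvPolynomial X K)
    (h : ∀ c ∈ T, Eig (fun x => ((c x : Kˣ) : K)) p) :
    ∃ d : T → Additive Kˣ,
      MvPolynomial.IsWeightedHomogeneous (fun x => fun c : T => Additive.ofMul (c.1 x)) p d := by
  by_cases hp : p = 0
  · exact ⟨0, hp ▸ MvPolynomial.isWeightedHomogeneous_zero K _ _⟩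
  obtain ⟨m0, hm0⟩ := MvPolynomial.ne_zero_iff.1 hp
  refine ⟨Finsupp.weight (fun x => fun c : T => Additive.ofMul (c.1 x)) m0, fun m hm => ?_⟩
  funext c
  obtain ⟨d, hd⟩ := WSK.hom_of_eig c.1 p (h c.1 c.2)
  rw [weight_pi, weight_pi, hd hm, hd hm0]

lemma hom_pi {K X : Type} [Field K] (T : Set (X → Kˣ)) (p : MvPolynomial X K) (d : T → Additive Kˣ)
    (h : MvPolynomial.IsWeightedHomogeneous (fun x => fun c : T => Additive.ofMul (c.1 x)) p d) (c : T) :
    MvPolynomial.IsWeightedHomogeneous (fun x => Additive.ofMul (c.1 x)) p (d c) := by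
  intro m hm
  rw [← weight_pi, h hm]

/-- a graded matrix is equivariant, with the transpose not needed -/
lemma strict_of_graded {K X ι : Type} [Field K] [Fintype ι] [DecidableEq ι] (c : X → Kˣ)
    {M : Matrix ι ι (MvPolynomial X K)} {a b : ι → Additive Kˣ}
    (hM : ∀ i j, MvPolynomial.IsWeightedHomogeneous (fun x => Additive.ofMul (c x)) (M i j) (a i + b j)) :
    Strict2 (fun x => ((c x : Kˣ) : K)) M := by
  classical
  refine ⟨Matrix.diagonal fun i => ((Additive.toMul (a i) : Kˣ) : K),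
    Matrix.diagonal fun i => ((Additive.toMul (b i) : Kˣ) : K), ?_, ?_, ?_⟩
  · rw [Matrix.det_diagonal, ← Units.coe_prod]
    exact Units.isUnit _
  · rw [Matrix.det_diagonal, ← Units.coe_prod]
    exact Units.isUnit _
  · have hdiag : ∀ v : ι → K, ((Matrix.diagonal v).map MvPolynomial.C : Matrix ι ι (MvPolynomial X K)) =
        Matrix.diagonal fun i => MvPolynomial.C (v i) := by
      intro v
      rw [Matrix.diagonal_map (map_zero _)]
    rw [hdiag, hdiag]
    ext1 i j
    rw [Matrix.mul_diagonal, Matrix.diagonal_mul, Matrix.map_apply]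
    ext m
    rw [Helper1x.EQ.coeff_scale, coeff_mul_C, MvPolynomial.coeff_C_mul, ← WSK.weight_eq]
    by_cases h : MvPolynomial.coeff m (M i j) = 0
    · rw [h, mul_zero, mul_zero, zero_mul]
    · rw [hM i j h, toMul_add, Units.val_mul]
      ring

end Pool.Agent.HS38.GT.WSKT

namespace Pool.Agent.HS38.GT

open MvPolynomial Finset Pool.Agent.Helper1x.EQ Pool.Agent.H20VP

theorem t_WSKT : S_WSKT := by
  intro K X _ T Q f hQ hE
  obtain ⟨φ, hφ, ho, hE⟩ := hE
  obtain ⟨ι, hι, hι', M, a, b, hcard, hdeg, hdet, hM, -⟩ :=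
    ws_det (fun x => fun c : T => Additive.ofMul (c.1 x)) Q hQ φ hφ
      (fun n => WSKT.hom_of_eig T (φ n) (fun c hc => hE c hc n))
  let e : ι ≃ Fin (Q.size + 1) := Fintype.equivFinOfCardEq hcard
  refine ⟨Matrix.reindex e e M, ⟨fun i j => hdeg _ _, ?_⟩, ?_⟩
  · rw [Matrix.det_reindex_self, hdet, ho]
  · intro c hc
    exact WSKT.strict_of_graded c (M := Matrix.reindex e e M)
      (a := fun i => a (e.symm i) ⟨c, hc⟩) (b := fun j => b (e.symm j) ⟨c, hc⟩)
      (fun i j => WSKT.hom_pi T _ _ (hM _ _) ⟨c, hc⟩)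

end Pool.Agent.HS38.GT
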