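import Pool.Agent.HS38.GT.Bord
import Pool.Agent.HS38.GT.Stm7
import Pool.Agent.HS38.GT.CLCF
import Pool.Agent.HS38.GT.SEPG
import Pool.Agent.HS38.GT.WSKT
import Pool.Agent.HS38.GT.CUP2
import Pool.Agent.HS38.GT.SLC
import Pool.Agent.HS38.GT.SKC
import Pool.Agent.HS38.GT.LWC
import Pool.Agent.HS38.GT.TRL
import Pool.Agent.HS38.GT.TRC
import Pool.Agent.HS38.GT.TRG
import Pool.Agent.HS38.GT.TYP
import Pool.Agent.HS38.GT.TRN
import Pool.Agent.HS38.GT.ZDG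
import Pool.Agent.HS38.GT.GEN4
import Pool.Agent.HS38.GT.Lup2
import Pool.Agent.HS38.GT.LLow
import Pool.Agent.HS38.GT.Minc

/-!
# Gauge homogeneous circuits, weakly skew circuits and determinants: assembly
-/

set_option autoImplicit false

namespace Pool.Agent.HS38.GT

open MvPolynomial Finset Pool.Agent.Helper1x.EQ Pool.Agent.H20VP

/-- the circuit computes `f`, and the polynomials at all nodes are eigenvectors of all the substitutions in `T` -/
def HomCircuit {K X : Type} [Field K] (T : Set (X → K)) (Q : Circuit K X) (f : MvPolynomial X K) : Prop :=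
  ∃ φ : Q.N → MvPolynomial X K, (∀ n, φ n = (Q.gate n).value φ) ∧ φ Q.out = f ∧ ∀ c ∈ T, ∀ n, Eig c (φ n)

/-- all gauge substitutions -/
def gauges (F A : Type) {V : Type} [Field F] [Fintype V] [DecidableEq V] [Fintype A] [DecidableEq A]
    (H : Finset (Finset V)) : Set ((V → Option A) → F) :=
  {c | ∃ t : Finset V → V → A → Fˣ, IsGauge H t ∧ c = gauge t}

/-- the elementary gauge substitutions with the number `s` -/
def elementary {F : Type} (A : Type) {V : Type} [Field F] [Fintype V] [DecidableEq V] [Fintype A] [DecidableEq A]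
    (H : Finset (Finset V)) (s : Fˣ) : Set ((V → Option A) → F) :=
  {c | ∃ (i : V) (α : A), ∃ K ∈ H, i ∈ K ∧ ∃ K' ∈ H, i ∈ K' ∧ c = gauge (elem s i α K K')}

section

variable {F V A : Type} [Field F] [Fintype V] [DecidableEq V] [Fintype A] [DecidableEq A] {H : Finset (Finset V)}

theorem scale_Z {c : (V → Option A) → F} (hc : c ∈ gauges F A H) : scale c (Z F A H) = Z F A H := by
  obtain ⟨t, ht, rfl⟩ := hc
  unfold Z
  rw [map_sum]
  refine Finset.sum_congr rfl fun a _ => ?_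
  rw [map_prod]
  simp only [scale_X]
  rw [Finset.prod_mul_distrib, ← map_prod]
  have h1 : ∏ K ∈ H, gauge t (restr K a) = 1 := by
    have h2 := prod_gauge t H a
    rw [Finset.prod_image (fun K _ K' _ h => restr_inj h), wt_full ht] at h2
    exact h2
  rw [h1, map_one, one_mul]

theorem contains_Z (hH : ∀ i, ∃ K ∈ H, i ∈ K) : Contains H (Z F A H) := fun a => Clow.coeff_Z hH a

theorem up_circuit [Nonempty A] (hne : H.Nonempty) (hH : ∀ i, ∃ K ∈ H, i ∈ K) :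
    ∃ Q : Circuit F (V → Option A), Q.FanInTwo ∧
      Q.size ≤ 2 * (H.card - 1) * Fintype.card A ^ cwidth H + 2 * ∑ K ∈ H, Fintype.card A ^ K.card ∧
      HomCircuit (gauges F A H) Q (Z F A H) := by
  obtain ⟨l, h1, h2, h3, h4⟩ := t_CUP2 F V A H hne hH
  obtain ⟨Q, φ, h5, h6, h7, h8, h9⟩ := t_SLC F (V → Option A) l h1 _ h3
  refine ⟨Q, h5, h6.trans h4, φ, h7, h8, ?_⟩
  rintro c ⟨t, ht, rfl⟩ n
  exact h2 _ (h9 n) t ht

theorem up_ws (hLSK : S_LSK) [Nonempty A] (hne : H.Nonempty) (hH : ∀ i, ∃ K ∈ H, i ∈ K) :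
    ∃ Q : Circuit F (V → Option A), Q.FanInTwo ∧ Q.WeaklySkew ∧
      Q.size ≤ 4 * (∑ K ∈ H, Fintype.card A ^ K.card) * Fintype.card A ^ lwidth H ∧
      HomCircuit (gauges F A H) Q (Z F A H) := by
  obtain ⟨l, h1, h2, h3, h4⟩ := hLSK F V A H hne hH
  obtain ⟨Q, φ, h5, h5', h6, h7, h8, h9⟩ := t_SKC F (V → Option A) l h1 _ h3
  refine ⟨Q, h5, h5', ?_, φ, h7, h8, ?_⟩
  · calc Q.size ≤ 2 * l.length := h6
      _ ≤ 2 * (2 * (∑ K ∈ H, Fintype.card A ^ K.card) * Fintype.card A ^ lwidth H) := Nat.mul_le_mul_left _ h4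
      _ = 4 * (∑ K ∈ H, Fintype.card A ^ K.card) * Fintype.card A ^ lwidth H := by ring
  · rintro c ⟨t, ht, rfl⟩ n
    rcases h9 n with h | ⟨x, h⟩
    · exact h2 _ h t ht
    · rw [h]
      exact ⟨gauge t x, scale_X _ _⟩

theorem up_det [Nonempty A] (hne : H.Nonempty) (hH : ∀ i, ∃ K ∈ H, i ∈ K) :
    ∃ m : ℕ, m ≤ (H.card - 1) * Fintype.card A ^ lwidth H + 1 ∧
      ∃ M : Matrix (Fin m) (Fin m) (MvPolynomial (V → Option A) F), IsDetRep M (Z F A H) ∧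
        ∀ c ∈ gauges F A H, Strict2 c M := by
  obtain ⟨m, hm, M, h1, -, h2⟩ := t_LUP2 F V A H hne hH
  refine ⟨m, hm, M, h1, ?_⟩
  rintro c ⟨t, ht, rfl⟩
  exact h2 t ht

/-- lower bound for circuits -/
theorem low_circuit [Nonempty A] (h2 : 2 ≤ H.card) (hH : ∀ i, ∃ K ∈ H, i ∈ K) {T : Set ((V → Option A) → F)}
    (hT : (∃ t : Finset V → V → A → Fˣ, Generic4 H t ∧ T = {gauge t}) ∨ ∃ s : Fˣ, s ≠ 1 ∧ T = elementary A H s)
    {f : MvPolynomial (V → Option A) F} (hf : Contains H f) {Q : Circuit F (V → Option A)} (hQ : HomCircuit T Q f) :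
    Fintype.card A ^ cwidth H ≤ muls Q := by
  obtain ⟨φ, h3, h4, h5⟩ := hQ
  rcases hT with ⟨t, ht, rfl⟩ | ⟨s, hs, rfl⟩
  · refine t_CLCF F V A H {t} f h2 hH (t_SEPG.1 F V A H t ht) hf Q ⟨φ, h3, h4, ?_⟩
    intro t' ht' n
    rw [Set.mem_singleton_iff] at ht'
    rw [ht']
    exact h5 _ (Set.mem_singleton _) n
  · refine t_CLCF F V A H (elemsA A H s) f h2 hH (t_SEPG.2 F V A H s hs) hf Q ⟨φ, h3, h4, ?_⟩
    rintro t' ⟨i, α, K, hK, hi, K', hK', hi', rfl⟩ n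
    exact h5 _ ⟨i, α, K, hK, hi, K', hK', hi', rfl⟩ n

/-- lower bounds for determinants -/
theorem low_det (hne : H.Nonempty) (hH : ∀ i, ∃ K ∈ H, i ∈ K) (h1 : CutGe H 1) (hA : 2 ≤ Fintype.card A)
    (hq : 3 ≤ Fintype.card A ∨ CutGe H 2) {t : Finset V → V → A → Fˣ} (ht : Generic4 H t)
    {f : MvPolynomial (V → Option A) F} (hf : Contains H f) {k d m : ℕ}
    {M : Matrix (Fin m) (Fin m) (MvPolynomial (V → Option A) F)} (hk : ∀ K ∈ H, K.card ≤ k)
    (hdeg : ∀ i j, (M i j).totalDegree ≤ d + 1) (hdet : M.det = f) (hEq : Equivariant (gauge t) M) :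
    Fintype.card A ^ (lwidth H - k * d) ≤ m ^ 2 ∧
      (constantCoeff f = 0 → Fintype.card A ^ (lwidth H - k * d) ≤ m) := by
  have hq' : 3 ≤ Fintype.card A ∨ 2 ≤ Fintype.card A ∧ CutGe H 2 := hq.imp id fun h => ⟨hA, h⟩
  constructor
  · have h3 := lower_sq hH h1 hq' ht hk hdeg (by rw [hdet]; exact hf) hEq hne
    rwa [Fintype.card_fin] at h3
  · intro h0
    have h3 := exact_lower_f hH h1 hq' ht hk hdeg (by rw [hdet]; exact hf) (by rw [hdet]; exact h0) hEq hne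
    rwa [Fintype.card_fin] at h3

/-- lower bounds for weakly skew circuits -/
theorem low_ws (hne : H.Nonempty) (hH : ∀ i, ∃ K ∈ H, i ∈ K) (h1 : CutGe H 1) (hA : 2 ≤ Fintype.card A)
    (hq : 3 ≤ Fintype.card A ∨ CutGe H 2) {t : Finset V → V → A → Fˣ} (ht : Generic4 H t)
    {f : MvPolynomial (V → Option A) F} (hf : Contains H f) {Q : Circuit F (V → Option A)} (hws : Q.WeaklySkew)
    (hQ : HomCircuit {gauge t} Q f) :
    Fintype.card A ^ lwidth H ≤ (Q.size + 1) ^ 2 ∧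
      (constantCoeff f = 0 → Fintype.card A ^ lwidth H ≤ Q.size + 1) := by
  obtain ⟨φ, h3, h4, h5⟩ := hQ
  set c : (V → Option A) → Fˣ := fun β => ∏ i, (β i).elim 1 (t (scope β) i) with hc
  have hgc : gauge t = fun x => ((c x : Fˣ) : F) := rfl
  obtain ⟨M, hM, hM2⟩ := t_WSKT F (V → Option A) {c} Q f hws ⟨φ, h3, h4, by
    intro c' hc' n
    rw [Set.mem_singleton_iff] at hc'
    rw [hc']
    exact h5 _ (Set.mem_singleton _) n⟩
  obtain ⟨B, C', hB, hC, h6⟩ := hM2 c (Set.mem_singleton _)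
  have h7 := low_det hne hH h1 hA hq ht hf (k := Fintype.card V) (d := 0) (M := M) (fun K _ => Finset.card_le_univ K)
    (by simpa using hM.1) hM.2 ⟨B, C', hB, hC, Or.inl h6⟩
  simpa using h7

/-- lower bounds with elementary symmetries -/
theorem low_det_elem (hne : H.Nonempty) (hH : ∀ i, ∃ K ∈ H, i ∈ K) (hA : 2 ≤ Fintype.card A) {s : Fˣ} (hs : s ≠ 1)
    {m : ℕ} {M : Matrix (Fin m) (Fin m) (MvPolynomial (V → Option A) F)} (hM : IsDetRep M (Z F A H))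
    (hEq : ∀ c ∈ elementary A H s, Strict2 c M) : (Fintype.card A - 1) ^ lwidth H ≤ H.card * m := by
  obtain ⟨o⟩ : Nonempty A := Fintype.card_pos_iff.1 (by omega)
  rcases Nat.eq_zero_or_pos (lwidth H) with h0 | h0
  · rw [h0, pow_zero]
    have hm : 0 < m := by
      rw [Nat.pos_iff_ne_zero]
      rintro rfl
      have h1 := congrArg constantCoeff hM.2
      rw [constantCoeff_Z F hne, Matrix.det_isEmpty, map_one] at h1
      exact one_ne_zero h1
    exact Nat.mul_pos (Finset.card_pos.2 hne) hm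
  · have h1 := lin_lower t_NLIST t_MINC hH o (sep_elems (F := F) H univ o hs) hM.1 hM.2 (by
      rintro t ⟨i, -, α, -, K, hK, hi, K', hK', hi', rfl⟩
      exact hEq _ ⟨i, α, K, hK, hi, K', hK', hi', rfl⟩) le_rfl h0
    simpa using h1

theorem low_ws_elem (hne : H.Nonempty) (hH : ∀ i, ∃ K ∈ H, i ∈ K) (hA : 2 ≤ Fintype.card A) {s : Fˣ} (hs : s ≠ 1)
    {Q : Circuit F (V → Option A)} (hws : Q.WeaklySkew) (hQ : HomCircuit (elementary A H s) Q (Z F A H)) :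
    (Fintype.card A - 1) ^ lwidth H ≤ H.card * (Q.size + 1) := by
  obtain ⟨φ, h3, h4, h5⟩ := hQ
  set T : Set ((V → Option A) → Fˣ) := {c | (fun x => ((c x : Fˣ) : F)) ∈ elementary A H s} with hT
  obtain ⟨M, hM, hM2⟩ := t_WSKT F (V → Option A) T Q _ hws ⟨φ, h3, h4, fun c hc n => h5 _ hc n⟩
  refine low_det_elem hne hH hA hs hM ?_
  rintro c ⟨i, α, K, hK, hi, K', hK', hi', rfl⟩
  have h6 := hM2 (fun β => ∏ j, (β j).elim 1 (elem s i α K K' (scope β) j)) (by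
    rw [hT]
    exact ⟨i, α, K, hK, hi, K', hK', hi', rfl⟩)
  exact h6

end

/-! ### the family -/

/-- the network of the family -/
def net (n : ℕ) : Finset (Finset (TV (Nat.log 2 n) (Nat.log 2 n))) := TH (Nat.log 2 n) (Nat.log 2 n)

theorem log_ge {n : ℕ} (hn : 4 ≤ n) : 2 ≤ Nat.log 2 n := by
  have h := Nat.log_mono_right (b := 2) hn
  have h4 : Nat.log 2 4 = 2 := by
    rw [show (4 : ℕ) = 2 ^ 2 by norm_num]
    exact Nat.log_pow (by norm_num) 2
  omega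

theorem net_card {n : ℕ} (hn : 4 ≤ n) : (net n).card ≤ 8 * n ^ 3 :=
  (t_TRN.1 n (Nat.log 2 n) _ hn rfl (t_TRG t_TYP _ _ (log_ge hn)).2.2.2.1).1

theorem net_props {n : ℕ} (hn : 4 ≤ n) : 2 ≤ (net n).card ∧ CutGe (net n) 2 ∧ (∀ i, ∃ K ∈ net n, i ∈ K) ∧
    (∀ K ∈ net n, K.card = 2) ∧ cwidth (net n) ≤ 3 * Nat.log 2 n ∧
    Nat.log 2 n * ((Nat.log 2 n + 1) / 2) ≤ lwidth (net n) := by
  have h := t_TRG t_TYP (Nat.log 2 n) (Nat.log 2 n) (log_ge hn)
  exact ⟨h.2.2.2.2 (by have := log_ge hn; omega), h.1, h.2.1, h.2.2.1, t_TRC _ _ (log_ge hn),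
    t_TRL t_TYP _ _ (log_ge hn)⟩

theorem net_sum {n : ℕ} (hn : 4 ≤ n) (q : ℕ) : ∑ K ∈ net n, q ^ K.card = (net n).card * q ^ 2 := by
  rw [Finset.sum_congr rfl fun K hK => by rw [(net_props hn).2.2.2.1 K hK], Finset.sum_const, smul_eq_mul]

theorem net_size {n : ℕ} (hn : 4 ≤ n) {q : ℕ} (hq : 2 ≤ q) :
    2 * ((net n).card - 1) * q ^ cwidth (net n) + 2 * ∑ K ∈ net n, q ^ K.card ≤ 32 * n ^ (3 * Nat.clog 2 q + 3) := by
  rw [net_sum hn]
  set e := Nat.clog 2 q with he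
  have h1 := net_card hn
  have h2 := (net_props hn).2.2.2.2.1
  have hqe : q ≤ 2 ^ e := Nat.le_pow_clog (by norm_num) q
  have hL : 2 ^ Nat.log 2 n ≤ n := Nat.pow_log_le_self 2 (by omega)
  have h3 : q ^ cwidth (net n) ≤ n ^ (3 * e) := by
    calc q ^ cwidth (net n) ≤ q ^ (3 * Nat.log 2 n) := Nat.pow_le_pow_right (by omega) h2
      _ ≤ (2 ^ e) ^ (3 * Nat.log 2 n) := Nat.pow_le_pow_left hqe _
      _ = (2 ^ Nat.log 2 n) ^ (3 * e) := by rw [← pow_mul, ← pow_mul]; congr 1; ring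
      _ ≤ n ^ (3 * e) := Nat.pow_le_pow_left hL _
  have h4 : q ^ 2 ≤ n ^ (3 * e) := by
    calc q ^ 2 ≤ (2 ^ e) ^ 2 := Nat.pow_le_pow_left hqe _
      _ = 4 ^ e := by rw [← pow_mul, mul_comm, pow_mul]; norm_num
      _ ≤ n ^ e := Nat.pow_le_pow_left hn _
      _ ≤ n ^ (3 * e) := Nat.pow_le_pow_right (by omega) (by omega)
  have h5 : 2 * ((net n).card - 1) * q ^ cwidth (net n) ≤ 2 * (8 * n ^ 3) * n ^ (3 * e) :=
    Nat.mul_le_mul (Nat.mul_le_mul_left _ ((Nat.sub_le _ _).trans h1)) h3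
  have h6 : 2 * ((net n).card * q ^ 2) ≤ 2 * (8 * n ^ 3 * n ^ (3 * e)) :=
    Nat.mul_le_mul_left _ (Nat.mul_le_mul h1 h4)
  calc _ ≤ 2 * (8 * n ^ 3) * n ^ (3 * e) + 2 * (8 * n ^ 3 * n ^ (3 * e)) := Nat.add_le_add h5 h6
    _ = 32 * n ^ (3 * e + 3) := by rw [pow_add]; ring

end Pool.Agent.HS38.GT
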