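import Pool.Agent.HS38.GT.Stm4

/-!
# Project GT, part 4, piece GBAS: bases of generalized eigenvectors adapted to an intertwiner
-/

set_option autoImplicit false

namespace Pool.Agent.HS38.GT

namespace GBAS

open Module Submodule

variable {K : Type} [Field K] {ι : Type} [Fintype ι] [DecidableEq ι] {V : Type} [AddCommGroup V] [Module K V]
  [FiniteDimensional K V]

/-- extension of a linearly independent family with values in `G` -/
theorem extend_fam (G : Set V) (T : Finset ι) (w : ι → V) (hli : LinearIndepOn K w (T : Set ι)) (hG : ∀ l ∈ T, w l ∈ G)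
    (T' : Finset ι) (hT : T ⊆ T') (hcard : T'.card ≤ finrank K (span K G)) :
    ∃ w' : ι → V, (∀ l ∈ T, w' l = w l) ∧ LinearIndepOn K w' (T' : Set ι) ∧ ∀ l ∈ T', w' l ∈ G := by
  induction h : (T' \ T).card generalizing T' with
  | zero =>
    have h1 : T' ⊆ T := by
      rwa [Finset.card_eq_zero, Finset.sdiff_eq_empty_iff_subset] at h
    have h2 : T = T' := Finset.Subset.antisymm hT h1
    subst h2
    exact ⟨w, fun _ _ => rfl, hli, hG⟩
  | succ n ih =>
    obtain ⟨a, ha⟩ : (T' \ T).Nonempty := by
      rw [← Finset.card_pos]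
      omega
    rw [Finset.mem_sdiff] at ha
    have h1 : T ⊆ T'.erase a := fun x hx => Finset.mem_erase.2 ⟨fun h0 => ha.2 (h0 ▸ hx), hT hx⟩
    have h2 : (T'.erase a \ T).card = n := by
      have h3 : T'.erase a \ T = (T' \ T).erase a := by
        ext x
        simp only [Finset.mem_sdiff, Finset.mem_erase]
        tauto
      rw [h3, Finset.card_erase_of_mem (Finset.mem_sdiff.2 ha), h]
      rfl
    have hlt : (T'.erase a).card < T'.card := Finset.card_erase_lt_of_mem ha.1
    obtain ⟨w', hw1, hw2, hw3⟩ := ih (T'.erase a) h1 (by omega) h2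
    have h4 : ∃ g ∈ G, g ∉ span K (w' '' (T'.erase a : Finset ι)) := by
      by_contra hcon
      push Not at hcon
      have h5 : span K G ≤ span K (w' '' (T'.erase a : Finset ι)) := span_le.2 hcon
      have h6 := Submodule.finrank_mono h5
      have h7 : finrank K (span K (w' '' (T'.erase a : Finset ι))) ≤ (T'.erase a).card := by
        classical
        have h8 : w' '' (T'.erase a : Finset ι) = (((T'.erase a).image w' : Finset V) : Set V) := by
          rw [Finset.coe_image]
        rw [h8]
        exact (finrank_span_finset_le_card _).trans Finset.card_image_le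
      omega
    obtain ⟨g, hg, hgs⟩ := h4
    have hT' : T' = insert a (T'.erase a) := (Finset.insert_erase ha.1).symm
    refine ⟨Function.update w' a g, ?_, ?_, ?_⟩
    · intro l hl
      have h0 : l ≠ a := by
        rintro rfl
        exact ha.2 hl
      rw [Function.update_of_ne h0]
      exact hw1 l hl
    · have h9 : ∀ l ∈ ((T'.erase a : Finset ι) : Set ι), Function.update w' a g l = w' l := by
        intro l hl
        rw [Function.update_of_ne (fun h0 => (Finset.mem_erase.1 hl).1 h0)]
      rw [hT', Finset.coe_insert, linearIndepOn_insert (by simp)]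
      refine ⟨?_, ?_⟩
      · exact (linearIndepOn_congr h9).2 hw2
      · rw [Function.update_self, Set.image_congr h9]
        exact hgs
    · intro l hl
      by_cases h0 : l = a
      · rw [h0, Function.update_self]
        exact hg
      · rw [Function.update_of_ne h0]
        exact hw3 l (Finset.mem_erase.2 ⟨h0, hl⟩)

/-- the vectors in a maximal generalized eigenspace -/
def GV (d : End K V) : Set V := {v | ∃ μ, v ∈ d.maxGenEigenspace μ}

theorem span_inf [IsAlgClosed K] (d : End K V) (p : Submodule K V) (hp : ∀ x ∈ p, d x ∈ p) :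
    span K (GV d ∩ p) = p := by
  apply le_antisymm
  · rw [span_le]
    exact Set.inter_subset_right
  · have h1 := Submodule.inf_iSup_genEigenspace (f := d) (p := p) hp ⊤
    have h2 : ⨆ μ, d.genEigenspace μ ⊤ = ⊤ := Module.End.iSup_maxGenEigenspace_eq_top d
    rw [h2, inf_top_eq] at h1
    conv_lhs => rw [h1]
    apply iSup_le
    intro μ x hx
    rw [Submodule.mem_inf] at hx
    exact subset_span ⟨⟨μ, hx.2⟩, hx.1⟩

theorem span_GV [IsAlgClosed K] (d : End K V) : span K (GV d) = ⊤ := by
  have h1 := span_inf d ⊤ (fun _ _ => Submodule.mem_top)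
  simpa using h1

theorem gen_intertwine {d b n : End K V} {χ : K} (h : b ∘ₗ n = χ • (n ∘ₗ d)) (μ : K) {v : V}
    (hv : v ∈ d.maxGenEigenspace μ) : n v ∈ b.maxGenEigenspace (χ * μ) := by
  rw [Module.End.mem_maxGenEigenspace] at hv ⊢
  obtain ⟨k, hk⟩ := hv
  refine ⟨k, ?_⟩
  have h1 : ∀ x, (b - (χ * μ) • (1 : End K V)) (n x) = χ • n ((d - μ • (1 : End K V)) x) := by
    intro x
    have h2 : b (n x) = χ • n (d x) := by
      have := congrArg (fun f => f x) h
      simpa using this
    simp only [LinearMap.sub_apply, LinearMap.smul_apply, Module.End.one_apply, h2, map_sub, map_smul, smul_sub,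
      smul_smul]
  have h3 : ∀ (m : ℕ) (x : V), ((b - (χ * μ) • (1 : End K V)) ^ m) (n x) =
      χ ^ m • n (((d - μ • (1 : End K V)) ^ m) x) := by
    intro m
    induction m with
    | zero => intro x; simp
    | succ m ih =>
      intro x
      rw [pow_succ, Module.End.mul_apply, h1, map_smul, ih, smul_smul, ← pow_succ', pow_succ (d - μ • (1 : End K V)),
        Module.End.mul_apply]
  rw [h3, hk, map_zero, smul_zero]

theorem eig_ne_zero {d : End K V} (hd : Function.Injective d) {v : V} (hv : v ≠ 0) {μ : K}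
    (h : v ∈ d.maxGenEigenspace μ) : μ ≠ 0 := by
  rintro rfl
  rw [Module.End.mem_maxGenEigenspace] at h
  obtain ⟨k, hk⟩ := h
  rw [zero_smul, sub_zero] at hk
  apply hv
  have h1 : ∀ (m : ℕ) (x : V), (d ^ m) x = 0 → x = 0 := by
    intro m
    induction m with
    | zero => intro x hx; simpa using hx
    | succ m ih =>
      intro x hx
      rw [pow_succ, Module.End.mul_apply] at hx
      exact hd (by rw [ih _ hx, map_zero])
  exact h1 k v hk

theorem eig_unique {d : End K V} {v : V} (hv : v ≠ 0) {μ ν : K} (h : v ∈ d.maxGenEigenspace μ)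
    (h' : v ∈ d.maxGenEigenspace ν) : μ = ν := by
  by_contra hne
  have h1 := (Module.End.independent_maxGenEigenspace d).pairwiseDisjoint hne
  exact hv (Submodule.disjoint_def.1 h1 v h h')

/-- the coordinates of a generalized eigenvector in a basis of generalized eigenvectors -/
theorem coord_zero {b : End K V} {w : ι → V} (hw : LinearIndependent K w) {β : ι → K}
    (hβ : ∀ l, w l ∈ b.maxGenEigenspace (β l)) {μ : K} {c : ι → K} (hc : ∑ l, c l • w l ∈ b.maxGenEigenspace μ) {l : ι}
    (hl : β l ≠ μ) : c l = 0 := by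
  classical
  have h1 := Module.End.independent_maxGenEigenspace b μ
  have h2 : ∑ l, c l • w l = ∑ l ∈ Finset.univ.filter (fun l => β l = μ), c l • w l +
      ∑ l ∈ Finset.univ.filter (fun l => ¬ β l = μ), c l • w l := (Finset.sum_filter_add_sum_filter_not _ _ _).symm
  have h3 : ∑ l ∈ Finset.univ.filter (fun l => ¬ β l = μ), c l • w l ∈ b.maxGenEigenspace μ := by
    have h4 : ∑ l ∈ Finset.univ.filter (fun l => ¬ β l = μ), c l • w l =
        ∑ l, c l • w l - ∑ l ∈ Finset.univ.filter (fun l => β l = μ), c l • w l := by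
      rw [h2]; abel
    rw [h4]
    refine Submodule.sub_mem _ hc (Submodule.sum_mem _ fun i hi => Submodule.smul_mem _ _ ?_)
    have := hβ i
    rwa [(Finset.mem_filter.1 hi).2] at this
  have h5 : ∑ l ∈ Finset.univ.filter (fun l => ¬ β l = μ), c l • w l ∈
      ⨆ (ν : K) (_ : ν ≠ μ), b.maxGenEigenspace ν := by
    refine Submodule.sum_mem _ fun i hi => Submodule.smul_mem _ _ ?_
    have h6 := (Finset.mem_filter.1 hi).2
    exact Submodule.mem_iSup_of_mem (β i) (Submodule.mem_iSup_of_mem h6 (hβ i))
  have h7 := Submodule.disjoint_def.1 h1 _ h3 h5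
  exact (linearIndependent_iff'.1 hw) _ c h7 l (Finset.mem_filter.2 ⟨Finset.mem_univ _, hl⟩)

end GBAS

open GBAS Module Submodule in
theorem t_GBAS : S_GBAS := by
  intro K _ _ ι _ _ L B D hB hD hBL
  classical
  set d : End K (ι → K) := D.mulVecLin with hd
  set b : End K (ι → K) := B.mulVecLin with hb
  set ℓ : End K (ι → K) := L.mulVecLin with hℓ
  have hbl : b ∘ₗ ℓ = ℓ ∘ₗ d := by
    rw [hb, hℓ, hd, ← Matrix.mulVecLin_mul, ← Matrix.mulVecLin_mul, hBL]
  have hbl' : b ∘ₗ ℓ = (1 : K) • (ℓ ∘ₗ d) := by rw [one_smul, hbl]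
  have hdinj : Function.Injective d := by
    rw [hd, Matrix.coe_mulVecLin]
    exact Matrix.mulVec_injective_of_isUnit ((Matrix.isUnit_iff_isUnit_det D).2 hD)
  have hbinj : Function.Injective b := by
    rw [hb, Matrix.coe_mulVecLin]
    exact Matrix.mulVec_injective_of_isUnit ((Matrix.isUnit_iff_isUnit_det B).2 hB)
  have hker : ∀ x ∈ LinearMap.ker ℓ, d x ∈ LinearMap.ker ℓ := by
    intro x hx
    rw [LinearMap.mem_ker] at hx ⊢
    have := congrArg (fun f => f x) hbl
    simp only [LinearMap.comp_apply] at this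
    rw [← this, hx, map_zero]
  have hrank : finrank K (LinearMap.ker ℓ) + L.rank = Fintype.card ι := by
    have h1 := LinearMap.finrank_range_add_finrank_ker ℓ
    rw [Module.finrank_fintype_fun_eq_card] at h1
    have h2 : L.rank = finrank K (LinearMap.range ℓ) := rfl
    omega
  -- the index set of the kernel
  obtain ⟨Sp, -, hSp⟩ := Finset.exists_subset_card_eq (s := (Finset.univ : Finset ι))
    (n := finrank K (LinearMap.ker ℓ)) (by rw [Finset.card_univ]; omega)
  -- basis of the kernel
  obtain ⟨v0, -, hv01, hv02⟩ := extend_fam (K := K) (GV d ∩ (LinearMap.ker ℓ : Set (ι → K))) (∅ : Finset ι)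
    (fun _ => 0) (by simp) (by simp) Sp (Finset.empty_subset _) (by rw [span_inf d _ hker, hSp])
  -- basis of the source
  obtain ⟨v, hv1, hv2, hv3⟩ := extend_fam (K := K) (GV d) Sp v0 hv01 (fun l hl => (hv02 l hl).1) Finset.univ
    (Finset.subset_univ _) (by rw [span_GV, finrank_top, Module.finrank_fintype_fun_eq_card, Finset.card_univ])
  rw [Finset.coe_univ, linearIndepOn_univ_iff] at hv2
  have hvker : ∀ l ∈ Sp, ℓ (v l) = 0 := fun l hl => by
    rw [hv1 l hl]
    exact LinearMap.mem_ker.1 (hv02 l hl).2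
  -- the span of the first vectors is the kernel
  have hspan : span K (v '' (Sp : Set ι)) = LinearMap.ker ℓ := by
    apply Submodule.eq_of_le_of_finrank_le
    · rw [span_le]
      rintro _ ⟨l, hl, rfl⟩
      exact LinearMap.mem_ker.2 (hvker l hl)
    · rw [← hSp]
      have h1 : LinearIndependent K (fun l : Sp => v l) := hv2.comp _ Subtype.val_injective
      have h2 := finrank_span_eq_card h1
      rw [Fintype.card_coe] at h2
      have h3 : Set.range (fun l : Sp => v l) = v '' (Sp : Set ι) := by
        ext x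
        simp
      rw [h3] at h2
      exact h2.ge
  have hdisj : Disjoint (span K (v '' ((Finset.univ \ Sp : Finset ι) : Set ι))) (LinearMap.ker ℓ) := by
    rw [← hspan]
    apply hv2.disjoint_span_image
    rw [Finset.disjoint_coe]
    exact Finset.sdiff_disjoint
  have hlin : LinearIndepOn K (fun l => ℓ (v l)) ((Finset.univ \ Sp : Finset ι) : Set ι) := by
    have h1 : LinearIndepOn K v ((Finset.univ \ Sp : Finset ι) : Set ι) := hv2.linearIndepOn _
    refine h1.map (f := ℓ) ?_
    have h2 : Set.range (fun x : ((Finset.univ \ Sp : Finset ι) : Set ι) => v x) =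
        v '' ((Finset.univ \ Sp : Finset ι) : Set ι) := (Set.image_eq_range _ _).symm
    rw [h2]
    exact hdisj
  choose! ψ0 hψ0 using fun l => (hv3 l (Finset.mem_univ l) : ∃ μ, v l ∈ d.maxGenEigenspace μ)
  -- basis of the target
  obtain ⟨w, hw1, hw2, hw3⟩ := extend_fam (K := K) (GV b) (Finset.univ \ Sp) (fun l => ℓ (v l)) hlin
    (fun l _ => ⟨1 * ψ0 l, gen_intertwine hbl' _ (hψ0 l)⟩) Finset.univ
    (Finset.subset_univ _) (by rw [span_GV, finrank_top, Module.finrank_fintype_fun_eq_card, Finset.card_univ])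
  rw [Finset.coe_univ, linearIndepOn_univ_iff] at hw2
  choose! β0 hβ0 using fun l => (hw3 l (Finset.mem_univ l) : ∃ μ, w l ∈ b.maxGenEigenspace μ)
  have hψn : ∀ l, ψ0 l ≠ 0 := fun l => eig_ne_zero hdinj (hv2.ne_zero l) (hψ0 l)
  have hβn : ∀ l, β0 l ≠ 0 := fun l => eig_ne_zero hbinj (hw2.ne_zero l) (hβ0 l)
  have hβψ : ∀ l, l ∉ Sp → β0 l = ψ0 l := by
    intro l hl
    have h1 : w l = ℓ (v l) := hw1 l (by simp [hl])
    have h2 := gen_intertwine hbl' _ (hψ0 l)
    rw [one_mul, ← h1] at h2
    exact eig_unique (hw2.ne_zero l) (hβ0 l) h2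
  -- the matrices
  set Q : Matrix ι ι K := Matrix.of fun i l => v l i with hQ
  set W : Matrix ι ι K := Matrix.of fun i l => w l i with hW
  have hQu : IsUnit Q.det := by
    rw [← Matrix.isUnit_iff_isUnit_det, ← Matrix.linearIndependent_cols_iff_isUnit]
    exact hv2
  have hWu : IsUnit W.det := by
    rw [← Matrix.isUnit_iff_isUnit_det, ← Matrix.linearIndependent_cols_iff_isUnit]
    exact hw2
  have hPW : W⁻¹ * W = 1 := Matrix.nonsing_inv_mul _ hWu
  have hWP : W * W⁻¹ = 1 := Matrix.mul_nonsing_inv _ hWu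
  refine ⟨W⁻¹, Q, fun l => Units.mk0 (ψ0 l) (hψn l), fun l => Units.mk0 (β0 l) (hβn l), Sp, ?_, hQu, by rw [hSp, hrank],
    ?_, ?_, ?_⟩
  · rw [Matrix.isUnit_nonsing_inv_det_iff]
    exact hWu
  · have h1 : L * Q = W * Matrix.diagonal (fun l => if l ∈ Sp then (0 : K) else 1) := by
      ext i l
      rw [Matrix.mul_diagonal]
      have h2 : (L * Q) i l = ℓ (v l) i := by
        rw [Matrix.mul_apply, hℓ]
        rfl
      rw [h2]
      by_cases hl : l ∈ Sp
      · rw [hvker l hl, if_pos hl, mul_zero]
        rfl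
      · rw [if_neg hl, mul_one, ← hw1 l (by simp [hl])]
        rfl
    rw [Matrix.mul_assoc, h1, ← Matrix.mul_assoc, hPW, Matrix.one_mul]
  · intro l hl
    apply Units.ext
    exact hβψ l hl
  · intro N χ hχ hN l a hla
    by_contra hcon
    apply hla
    set n : End K (ι → K) := N.mulVecLin with hn
    have hbn : b ∘ₗ n = χ • (n ∘ₗ d) := by
      rw [hb, hn, hd, ← Matrix.mulVecLin_mul, ← Matrix.mulVecLin_mul, hN]
      apply LinearMap.ext
      intro x
      rw [LinearMap.smul_apply, Matrix.mulVecLin_apply, Matrix.mulVecLin_apply, Matrix.smul_mulVec]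
    have h1 := gen_intertwine hbn _ (hψ0 a)
    have h2 : n (v a) = ∑ l, (W⁻¹ * N * Q) l a • w l := by
      have h3 : N * Q = W * (W⁻¹ * N * Q) := by
        rw [← Matrix.mul_assoc, ← Matrix.mul_assoc, hWP, Matrix.one_mul]
      funext i
      have h4 : n (v a) i = (N * Q) i a := by
        rw [Matrix.mul_apply, hn]
        rfl
      rw [h4, h3, Matrix.mul_apply, Finset.sum_apply]
      refine Finset.sum_congr rfl fun l _ => ?_
      rw [Pi.smul_apply, smul_eq_mul, mul_comm]
      rfl
    rw [h2] at h1
    exact coord_zero hw2 hβ0 h1 (fun h0 => hcon (by simpa using h0))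

end Pool.Agent.HS38.GT
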