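import Pool.Agent.HS38.GT.GenAux
import Pool.Agent.Helper1x.EQ.Gen

/-!
# Project GT, piece GEN1: generic gauge families over infinite fields
-/

set_option autoImplicit false

namespace Pool.Agent.HS38.GT

open Finset GenAux

theorem t_GEN1 : S_GEN1 := by
  intro F _ _ V A _ _ _ _ H o
  classical
  obtain ⟨p, hp⟩ := Pool.Agent.Helper1x.EQ.exists_generic F (Finset V × V) A 4
  let p' : Finset V → V → A → Fˣ := fun K i α => if α = o then 1 else p (K, i) α
  have hpo : ∀ K i, p' K i o = 1 := fun K i => if_pos rfl
  refine ⟨GenAux.mk H p', isGauge_mk H p', ?_, ?_⟩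
  · intro K i
    unfold GenAux.mk
    split_ifs
    · exact prod_eq_one fun K' _ => by rw [hpo, inv_one]
    · exact hpo K i
    · rfl
  · intro e he hprod i α hα
    rw [prod_all] at hprod
    let a : (Finset V × V) → A → ℤ := fun x α =>
      if x.1 ∈ R H x.2 ∧ α ≠ o then e x.1 x.2 α - e (k0 H x.2) x.2 α else 0
    have ha : ∀ x α, |a x α| ≤ ((4 : ℕ) : ℤ) := by
      intro x α
      show |if x.1 ∈ R H x.2 ∧ α ≠ o then e x.1 x.2 α - e (k0 H x.2) x.2 α else 0| ≤ _
      split_ifs
      · have h1 := he x.1 x.2 α
        have h2 := he (k0 H x.2) x.2 α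
        rw [abs_le] at h1 h2 ⊢
        constructor
        · push_cast
          linarith [h1.1, h2.2]
        · push_cast
          linarith [h1.2, h2.1]
      · rw [abs_zero]
        exact Int.natCast_nonneg _
    have hprod2 : ∏ x : Finset V × V, ∏ α, p x α ^ a x α = 1 := by
      rw [← hprod, Fintype.prod_prod_type, prod_comm]
      refine prod_congr rfl fun i _ => ?_
      rw [prod_comm]
      rw [← prod_erase univ (a := o)]
      · refine prod_congr rfl fun α hα => ?_
        have hαo : α ≠ o := ne_of_mem_erase hα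
        rw [← prod_subset (subset_univ (R H i))]
        · refine prod_congr rfl fun K hK => ?_
          show p (K, i) α ^ (if K ∈ R H i ∧ α ≠ o then e K i α - e (k0 H i) i α else 0) =
            (if α = o then 1 else p (K, i) α) ^ _
          rw [if_pos ⟨hK, hαo⟩, if_neg hαo]
        · intro K _ hK
          show p (K, i) α ^ (if K ∈ R H i ∧ α ≠ o then e K i α - e (k0 H i) i α else 0) = 1
          rw [if_neg (fun h => hK h.1), zpow_zero]
      · refine prod_eq_one fun K _ => ?_
        show p (K, i) o ^ (if K ∈ R H i ∧ o ≠ o then e K i o - e (k0 H i) i o else 0) = 1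
        rw [if_neg (fun h => h.2 rfl), zpow_zero]
    have h0 := hp a ha hprod2
    have key : ∀ K ∈ H, i ∈ K → e K i α = e (k0 H i) i α := by
      intro K hK hi
      by_cases hk : K = k0 H i
      · rw [← hk]
      · have hR : K ∈ R H i := mem_erase.2 ⟨hk, mem_S.2 ⟨hK, hi⟩⟩
        have h1 : a (K, i) α = 0 := by rw [h0]; rfl
        have h2 : (if K ∈ R H i ∧ α ≠ o then e K i α - e (k0 H i) i α else 0) = 0 := h1
        rw [if_pos ⟨hR, hα⟩] at h2
        linarith
    intro K hK hi K' hK' hi'
    rw [key K hK hi, key K' hK' hi']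

end Pool.Agent.HS38.GT
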