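import Pool.Agent.HS38.GT.GenAux

/-!
# Project GT, piece GEN2: free gauge families in characteristic zero
-/

set_option autoImplicit false

namespace Pool.Agent.HS38.GT

open Finset GenAux

namespace GEN2x

/-- distinct primes are multiplicatively independent -/
theorem indep {F J : Type} [Field F] [CharZero F] [Fintype J] (q : J → ℕ) (hq : ∀ j, (q j).Prime)
    (hinj : Function.Injective q) (D : J → ℤ) (h : ∏ j, ((q j : F)) ^ D j = 1) : ∀ j, D j = 0 := by
  classical
  have hne : ∀ j, (q j : F) ≠ 0 := fun j => Nat.cast_ne_zero.2 (hq j).ne_zero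
  have h1 : ∏ j, (q j : F) ^ (D j).toNat = ∏ j, (q j : F) ^ (-D j).toNat := by
    have h2 : ∏ j, (q j : F) ^ (D j).toNat = (∏ j, (q j : F) ^ (-D j).toNat) * ∏ j, ((q j : F)) ^ D j := by
      rw [← prod_mul_distrib]
      refine prod_congr rfl fun j _ => ?_
      rw [← zpow_natCast, ← zpow_natCast, ← zpow_add₀ (hne j)]
      congr 1
      omega
    rw [h2, h, mul_one]
  have h3 : ∏ j, (q j) ^ (D j).toNat = ∏ j, (q j) ^ (-D j).toNat := by
    have h4 : ((∏ j, (q j) ^ (D j).toNat : ℕ) : F) = ((∏ j, (q j) ^ (-D j).toNat : ℕ) : F) := by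
      push_cast
      exact h1
    exact Nat.cast_injective h4
  have hfac : ∀ (a : J → ℕ) (k : J), (∏ j, (q j) ^ a j).factorization (q k) = a k := by
    intro a k
    rw [Nat.factorization_prod_apply (fun j _ => pow_ne_zero _ (hq j).ne_zero)]
    rw [sum_eq_single k]
    · rw [Nat.Prime.factorization_pow (hq k), Finsupp.single_eq_same]
    · intro j _ hj
      rw [Nat.Prime.factorization_pow (hq j), Finsupp.single_eq_of_ne]
      exact fun h => hj (hinj h.symm)
    · intro h
      exact absurd (mem_univ k) h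
  intro j
  have h5 := hfac (fun j => (D j).toNat) j
  have h6 := hfac (fun j => (-D j).toNat) j
  rw [h3, h6] at h5
  omega

variable {F : Type} [Field F] {V A : Type} [Fintype V] [DecidableEq V] [Fintype A] [DecidableEq A]

theorem one_scope (t : Finset V → V → A → Fˣ) (u : (V → Option A) →₀ ℕ) (i : V) :
    ∏ β : V → Option A, ((β i).elim 1 (t (scope β) i)) ^ u β =
      ∏ K : Finset V, ∏ α : A, t K i α ^ (cnt K i α u) := by
  have h1 : ∀ K : Finset V, ∀ α : A, t K i α ^ (cnt K i α u) =
      ∏ β : V → Option A, if scope β = K ∧ β i = some α then t K i α ^ u β else 1 := by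
    intro K α
    unfold cnt
    rw [← prod_filter, ← prod_pow_eq_pow_sum]
  simp_rw [h1]
  have h2 : ∏ K : Finset V, ∏ α : A, ∏ β : V → Option A,
      (if scope β = K ∧ β i = some α then t K i α ^ u β else 1) =
      ∏ β : V → Option A, ∏ K : Finset V, ∏ α : A,
      (if scope β = K ∧ β i = some α then t K i α ^ u β else 1) := by
    rw [prod_comm (s := univ (α := V → Option A))]
    exact prod_congr rfl fun K _ => prod_comm
  rw [h2]
  refine prod_congr rfl fun β _ => ?_
  rw [prod_eq_single (scope β)]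
  · cases hβ : β i with
    | none =>
      simp
    | some a =>
      rw [prod_eq_single a]
      · simp
      · intro b _ hb
        rw [if_neg]
        rintro ⟨-, h⟩
        exact hb (Option.some.inj h).symm
      · intro h
        exact absurd (mem_univ a) h
  · intro K _ hK
    refine prod_eq_one fun α _ => ?_
    rw [if_neg]
    rintro ⟨h, -⟩
    exact hK h.symm
  · intro h
    exact absurd (mem_univ _) h

theorem prod_gauge (H : Finset (Finset V)) (t : Finset V → V → A → Fˣ)
    (ht : ∀ K i α, K ∉ S H i → t K i α = 1) (u : (V → Option A) →₀ ℕ) :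
    (u.prod fun x n => gauge t x ^ n) =
      ((∏ K ∈ H, ∏ i ∈ K, ∏ α : A, t K i α ^ ((cnt K i α u : ℕ) : ℤ) : Fˣ) : F) := by
  have h1 : (u.prod fun x n => gauge t x ^ n) =
      ((∏ β : V → Option A, ∏ i : V, ((β i).elim 1 (t (scope β) i)) ^ u β : Fˣ) : F) := by
    rw [Finsupp.prod_fintype _ _ (fun x => pow_zero _), Units.coe_prod]
    refine prod_congr rfl fun β _ => ?_
    unfold gauge
    rw [← Units.val_pow_eq_pow_val, prod_pow]
  rw [h1, prod_comm, prod_swap]
  congr 1
  refine prod_congr rfl fun i _ => ?_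
  rw [one_scope, ← prod_subset (subset_univ (S H i))]
  · refine prod_congr rfl fun K _ => prod_congr rfl fun α _ => ?_
    rw [zpow_natCast]
  · intro K _ hK
    refine prod_eq_one fun α _ => ?_
    rw [ht K i α hK, one_pow]

end GEN2x

open GEN2x in
theorem t_GEN2 : S_GEN2 := by
  intro F _ _ V A _ _ _ _ H
  classical
  let q : Finset V × V × A → ℕ := fun j => Nat.nth Nat.Prime (Fintype.equivFin (Finset V × V × A) j)
  have hq : ∀ j, (q j).Prime := fun j => Nat.prime_nth_prime _
  have hinj : Function.Injective q := by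
    intro j j' h
    have h1 := Nat.nth_injective Nat.infinite_setOfPred_prime h
    exact (Fintype.equivFin _).injective (Fin.ext h1)
  let p : Finset V → V → A → Fˣ := fun K i α =>
    Units.mk0 (q (K, i, α) : F) (Nat.cast_ne_zero.2 (hq _).ne_zero)
  refine ⟨GenAux.mk H p, isGauge_mk H p, fun β => Units.ne_zero _, fun u v huv => ?_⟩
  rw [prod_gauge H (GenAux.mk H p) (fun K i α h => mk_out p α h),
    prod_gauge H (GenAux.mk H p) (fun K i α h => mk_out p α h)] at huv
  have h1 := Units.ext huv
  rw [prod_all H p univ (fun K i α => ((cnt K i α u : ℕ) : ℤ)),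
    prod_all H p univ (fun K i α => ((cnt K i α v : ℕ) : ℤ))] at h1
  let D : Finset V → V → A → ℤ := fun K i α => if K ∈ R H i then
    ((cnt K i α u : ℤ) - cnt (k0 H i) i α u) - ((cnt K i α v : ℤ) - cnt (k0 H i) i α v) else 0
  have h2 : ∏ i : V, ∏ α : A, ∏ K : Finset V, p K i α ^ D K i α = 1 := by
    have h3 : ∏ i : V, ∏ α : A, ∏ K : Finset V, p K i α ^ D K i α =
        ∏ i : V, ∏ α : A, ∏ K ∈ R H i, ((p K i α ^ ((cnt K i α u : ℤ) - cnt (k0 H i) i α u)) *
          (p K i α ^ ((cnt K i α v : ℤ) - cnt (k0 H i) i α v))⁻¹) := by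
      refine prod_congr rfl fun i _ => prod_congr rfl fun α _ => ?_
      rw [← prod_subset (subset_univ (R H i))]
      · refine prod_congr rfl fun K hK => ?_
        show p K i α ^ (if K ∈ R H i then _ else _) = _
        rw [if_pos hK, ← zpow_neg, ← zpow_add, sub_eq_add_neg]
      · intro K _ hK
        show p K i α ^ (if K ∈ R H i then _ else _) = 1
        rw [if_neg hK, zpow_zero]
    rw [h3]
    simp_rw [prod_mul_distrib, prod_inv_distrib]
    rw [h1, mul_inv_cancel]
  have h4 : ∏ j : Finset V × V × A, ((q j : F)) ^ (D j.1 j.2.1 j.2.2) = 1 := by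
    rw [Fintype.prod_prod_type, prod_comm' (s := univ) (t := fun _ => univ) (t' := univ)
      (s' := fun _ => univ) (by simp), Fintype.prod_prod_type]
    have h5 := congrArg (Units.val) h2
    rw [Units.val_one] at h5
    rw [← h5]
    simp only [Units.coe_prod, Units.val_zpow_eq_zpow_val]
    rfl
  have h6 := indep q hq hinj (fun j => D j.1 j.2.1 j.2.2) h4
  intro i α
  have key : ∀ K ∈ H, i ∈ K → (cnt K i α u : ℤ) - cnt (k0 H i) i α u =
      (cnt K i α v : ℤ) - cnt (k0 H i) i α v := by
    intro K hK hi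
    by_cases hk : K = k0 H i
    · rw [← hk, sub_self, sub_self]
    · have hR : K ∈ R H i := mem_erase.2 ⟨hk, mem_S.2 ⟨hK, hi⟩⟩
      have h7 : (if K ∈ R H i then ((cnt K i α u : ℤ) - cnt (k0 H i) i α u) -
        ((cnt K i α v : ℤ) - cnt (k0 H i) i α v) else 0) = 0 := h6 (K, i, α)
      rw [if_pos hR] at h7
      linarith
  intro K hK hi K' hK' hi'
  have h8 := key K hK hi
  have h9 := key K' hK' hi'
  linarith

end Pool.Agent.HS38.GT
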