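import Pool.Agent.HS38.GT.Stm3
import Pool.Agent.HS38.GT.GenAux
import Pool.Agent.Helper1x.EQ.Gen

/-!
# Project GT, piece GEN3: generic gauge families over infinite fields (without the normalisation at one value)
-/

set_option autoImplicit false

namespace Pool.Agent.HS38.GT

open Finset GenAux

theorem t_GEN3 : S_GEN3 := by
  intro F _ _ V A _ _ _ _ H
  classical
  obtain ⟨p, hp⟩ := Pool.Agent.Helper1x.EQ.exists_generic F (Finset V × V) A 4
  let p' : Finset V → V → A → Fˣ := fun K i α => p (K, i) α
  refine ⟨GenAux.mk H p', isGauge_mk H p', ?_⟩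
  intro e he hprod i α
  rw [prod_all] at hprod
  let a : (Finset V × V) → A → ℤ := fun x α =>
    if x.1 ∈ R H x.2 then e x.1 x.2 α - e (k0 H x.2) x.2 α else 0
  have ha : ∀ x α, |a x α| ≤ ((4 : ℕ) : ℤ) := by
    intro x α
    show |if x.1 ∈ R H x.2 then e x.1 x.2 α - e (k0 H x.2) x.2 α else 0| ≤ _
    split_ifs
    · have h1 := he x.1 x.2 α
      have h2 := he (k0 H x.2) x.2 α
      rw [abs_le] at h1 h2 ⊢
      constructor
      · push_cast
        linarith [h1.1, h2.2]
      · push_cast
        linarith [h1.2, h2.1]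
    · rw [abs_zero]
      exact Int.natCast_nonneg _
  have hprod2 : ∏ x : Finset V × V, ∏ α, p x α ^ a x α = 1 := by
    rw [← hprod, Fintype.prod_prod_type, prod_comm]
    refine prod_congr rfl fun i _ => ?_
    rw [prod_comm]
    refine prod_congr rfl fun α _ => ?_
    rw [← prod_subset (subset_univ (R H i))]
    · refine prod_congr rfl fun K hK => ?_
      show p (K, i) α ^ (if K ∈ R H i then e K i α - e (k0 H i) i α else 0) =
        p (K, i) α ^ _
      rw [if_pos hK]
    · intro K _ hK
      show p (K, i) α ^ (if K ∈ R H i then e K i α - e (k0 H i) i α else 0) = 1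
      rw [if_neg hK, zpow_zero]
  have h0 := hp a ha hprod2
  have key : ∀ K ∈ H, i ∈ K → e K i α = e (k0 H i) i α := by
    intro K hK hi
    by_cases hk : K = k0 H i
    · rw [← hk]
    · have hR : K ∈ R H i := mem_erase.2 ⟨hk, mem_S.2 ⟨hK, hi⟩⟩
      have h1 : a (K, i) α = 0 := by rw [h0]; rfl
      have h2 : (if K ∈ R H i then e K i α - e (k0 H i) i α else 0) = 0 := h1
      rw [if_pos hR] at h2
      linarith
  intro K hK hi K' hK' hi'
  rw [key K hK hi, key K' hK' hi']

end Pool.Agent.HS38.GT
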