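import Pool.Agent.HS38.GT.Stm2

/-!
# Project GT, part 2, piece GW: graphs without large holes have large linear width
-/

set_option autoImplicit false

namespace Pool.Agent.HS38.GT.GW

open Finset

variable {V : Type} [Fintype V] [DecidableEq V]

/-- all scopes of `i` are in `U` -/
def PP (H U : Finset (Finset V)) : Finset V := univ.filter fun i => ∀ K ∈ H, i ∈ K → K ∈ U

/-- no scope of `i` is in `U` -/
def QQ (H U : Finset (Finset V)) : Finset V := univ.filter fun i => ∀ K ∈ H, i ∈ K → K ∉ U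

theorem mem_PP {H U : Finset (Finset V)} {i : V} : i ∈ PP H U ↔ ∀ K ∈ H, i ∈ K → K ∈ U := by
  simp [PP]

theorem mem_QQ {H U : Finset (Finset V)} {i : V} : i ∈ QQ H U ↔ ∀ K ∈ H, i ∈ K → K ∉ U := by
  simp [QQ]

theorem find (H : Finset (Finset V)) (hcov : ∀ i : V, ∃ K ∈ H, i ∈ K) (s : ℕ) (hs : 1 ≤ s) :
    ∀ t : List (Finset V), s ≤ (PP H t.toFinset).card →
      ∃ (K : Finset V) (t' : List (Finset V)), (K :: t') <:+ t ∧ (PP H t'.toFinset).card < s ∧
        s ≤ (PP H (K :: t').toFinset).card := by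
  intro t
  induction t with
  | nil =>
    intro h
    exfalso
    have h1 : PP H ([] : List (Finset V)).toFinset = ∅ := by
      rw [Finset.eq_empty_iff_forall_notMem]
      intro i hi
      obtain ⟨K, hK, hiK⟩ := hcov i
      have := mem_PP.1 hi K hK hiK
      simp at this
    rw [h1, card_empty] at h
    omega
  | cons K t ih =>
    intro h
    by_cases h1 : (PP H t.toFinset).card < s
    · exact ⟨K, t, List.suffix_refl _, h1, h⟩
    · obtain ⟨K', t', h2, h3, h4⟩ := ih (not_lt.1 h1)
      exact ⟨K', t', h2.trans (List.suffix_cons _ _), h3, h4⟩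

end Pool.Agent.HS38.GT.GW

namespace Pool.Agent.HS38.GT

open Finset Pool.Agent.HS38.GT.GW

theorem t_GW : S_GW := by
  intro V _ _ H s hcard hcov hXY
  by_cases h2s : Fintype.card V ≤ 2 * s
  · rw [Nat.sub_eq_zero_of_le h2s]
    exact Nat.zero_le _
  have hs : 1 ≤ s := by
    by_contra h0
    obtain ⟨x, hx, -⟩ := hXY ∅ ∅ (disjoint_empty_left _) (by simp; omega) (by simp; omega)
    simp at hx
  have hne : {w | ∃ l : List (Finset V), l.Nodup ∧ l.toFinset = H ∧
      ∀ s, s <:+ l → (cut H s.toFinset).card ≤ w}.Nonempty :=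
    ⟨Fintype.card V, H.toList, H.nodup_toList, by simp, fun s _ => card_le_univ _⟩
  obtain ⟨l, hl, hlH, hcut⟩ := Nat.sInf_mem hne
  have hPl : s ≤ (PP H l.toFinset).card := by
    have : PP H l.toFinset = univ := by
      rw [Finset.eq_univ_iff_forall]
      intro i
      rw [mem_PP, hlH]
      exact fun K hK _ => hK
    rw [this, card_univ]
    omega
  obtain ⟨K, t, hsuf, hP, hP'⟩ := find H hcov s hs l hPl
  have hKH : K ∈ H := by
    rw [← hlH, List.mem_toFinset]
    exact hsuf.subset (List.mem_cons_self)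
  have htl : t <:+ l := (List.suffix_cons K t).trans hsuf
  have hQ' : (QQ H (K :: t).toFinset).card < s := by
    by_contra hcon
    obtain ⟨x, hx, y, hy, hxy⟩ := hXY (PP H (K :: t).toFinset) (QQ H (K :: t).toFinset) (by
      rw [Finset.disjoint_left]
      intro i h1 h2
      obtain ⟨K₀, h3, h4⟩ := hcov i
      exact mem_QQ.1 h2 K₀ h3 h4 (mem_PP.1 h1 K₀ h3 h4)) hP' (not_lt.1 hcon)
    exact mem_QQ.1 hy _ hxy (by simp) (mem_PP.1 hx _ hxy (by simp))
  have hQ : (QQ H t.toFinset).card ≤ (QQ H (K :: t).toFinset).card + 2 := by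
    have h1 : QQ H t.toFinset ⊆ QQ H (K :: t).toFinset ∪ K := by
      intro i hi
      rw [mem_union]
      by_cases hiK : i ∈ K
      · exact Or.inr hiK
      · left
        rw [mem_QQ] at hi ⊢
        intro K₀ h3 h4 h5
        rw [List.toFinset_cons, mem_insert] at h5
        rcases h5 with h5 | h5
        · exact hiK (h5 ▸ h4)
        · exact hi K₀ h3 h4 h5
    refine (card_le_card h1).trans ((card_union_le _ _).trans ?_)
    rw [hcard K hKH]
  have hall : (univ : Finset V) ⊆ cut H t.toFinset ∪ (PP H t.toFinset ∪ QQ H t.toFinset) := by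
    intro i _
    rw [mem_union, mem_union]
    by_cases h1 : i ∈ PP H t.toFinset
    · exact Or.inr (Or.inl h1)
    by_cases h2 : i ∈ QQ H t.toFinset
    · exact Or.inr (Or.inr h2)
    left
    rw [mem_PP] at h1
    rw [mem_QQ] at h2
    push Not at h1 h2
    obtain ⟨K₀, h3, h4, h5⟩ := h1
    obtain ⟨K₁, h6, h7, h8⟩ := h2
    rw [cut, mem_filter]
    exact ⟨mem_univ _, ⟨K₁, h8, h7⟩, K₀, mem_sdiff.2 ⟨h3, h5⟩, h4⟩
  have h3 := (card_le_card hall).trans ((card_union_le _ _).trans
    (Nat.add_le_add_left (card_union_le _ _) _))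
  rw [card_univ] at h3
  have h4 := hcut t htl
  have h5 : (cut H t.toFinset).card ≤ lwidth H := h4
  omega

end Pool.Agent.HS38.GT
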