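import Pool.Agent.HS38.GT.Stm

/-!
# INV: factors of a program which is invariant under a generic substitution are homogeneous
-/

set_option autoImplicit false

namespace Pool.Agent.HS38.GT.INV

open MvPolynomial Finset Pool.Agent.Helper1x.EQ

lemma aux {F σ : Type} [Field F] [DecidableEq σ] (c : σ → F) (hc : ∀ x, c x ≠ 0)
    (l : List (MvPolynomial σ F × MvPolynomial σ F)) (hl : Inv c l) (p : MvPolynomial σ F)
    (hp : ∃ s ∈ l, p = s.1 ∨ p = s.2) :
    ∃ N : ℕ, 1 ≤ N ∧ ∀ u ∈ p.support, ∀ u' ∈ p.support,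
      (u.prod fun x n => c x ^ n) ^ N = (u'.prod fun x n => c x ^ n) ^ N := by
  obtain ⟨w, hw⟩ : ∃ w : (σ →₀ ℕ) → F, w = fun u => u.prod fun x n => c x ^ n := ⟨_, rfl⟩
  have hw0 : ∀ u, w u ≠ 0 := by
    intro u
    rw [hw]
    exact Finset.prod_ne_zero_iff.2 fun x _ => pow_ne_zero _ (hc x)
  have hfin : Finite {q : MvPolynomial σ F // ∃ s ∈ l, q = s.1 ∨ q = s.2} := by
    classical
    refine Set.Finite.to_subtype ?_
    refine Set.Finite.subset (Finset.finite_toSet ((l.map Prod.fst ++ l.map Prod.snd).toFinset)) ?_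
    rintro q ⟨s, hs, rfl | rfl⟩
    · rw [mem_coe, List.mem_toFinset, List.mem_append]
      exact Or.inl (List.mem_map.2 ⟨s, hs, rfl⟩)
    · rw [mem_coe, List.mem_toFinset, List.mem_append]
      exact Or.inr (List.mem_map.2 ⟨s, hs, rfl⟩)
  have hn : ∀ n : ℕ, ∃ q : {q : MvPolynomial σ F // ∃ s ∈ l, q = s.1 ∨ q = s.2}, ∃ b : F,
      ∀ u, w u ^ n * coeff u p = b * coeff u q.1 := by
    intro n
    induction n with
    | zero => exact ⟨⟨p, hp⟩, 1, fun u => by rw [pow_zero]⟩
    | succ n ih =>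
      obtain ⟨⟨q, s, hs, hq⟩, b, h⟩ := ih
      obtain ⟨s', hs', q', hq', b', h'⟩ := hl s hs q hq
      refine ⟨⟨q', s', hs', hq'⟩, b * b', fun u => ?_⟩
      have h1 := congrArg (coeff u) h'
      rw [coeff_scale, coeff_C_mul] at h1
      have h2 : w u * coeff u q = b' * coeff u q' := by
        rw [hw]
        exact h1
      have h3 := h u
      simp only at h3
      calc w u ^ (n + 1) * coeff u p = w u * (w u ^ n * coeff u p) := by ring
        _ = b * (w u * coeff u q) := by rw [h3]; ring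
        _ = b * b' * coeff u q' := by rw [h2]; ring
  choose q b hqb using hn
  obtain ⟨n, n', hne, heq⟩ := Finite.exists_ne_map_eq_of_infinite q
  have key : ∀ n n' : ℕ, n < n' → q n = q n' → ∃ N : ℕ, 1 ≤ N ∧ ∀ u ∈ p.support, ∀ u' ∈ p.support,
      w u ^ N = w u' ^ N := by
    intro n n' hlt heq
    refine ⟨n' - n, by omega, ?_⟩
    have h1 : ∀ u ∈ p.support, b n ≠ 0 ∧ w u ^ (n' - n) * b n = b n' := by
      intro u hu
      have hu' : coeff u p ≠ 0 := mem_support_iff.1 hu
      have h2 := hqb n u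
      have h3 := hqb n' u
      rw [← heq] at h3
      have h4 : w u ^ n * coeff u p ≠ 0 := mul_ne_zero (pow_ne_zero _ (hw0 u)) hu'
      rw [h2] at h4
      have h5 : b n ≠ 0 := left_ne_zero_of_mul h4
      have h6 : coeff u (q n).1 ≠ 0 := right_ne_zero_of_mul h4
      refine ⟨h5, ?_⟩
      have h7 : w u ^ n' = w u ^ (n' - n) * w u ^ n := by rw [← pow_add]; congr 1; omega
      rw [h7, mul_assoc, h2, ← mul_assoc] at h3
      exact mul_right_cancel₀ h6 h3
    intro u hu u' hu'
    obtain ⟨h2, h3⟩ := h1 u hu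
    obtain ⟨_, h4⟩ := h1 u' hu'
    exact mul_right_cancel₀ h2 (h3.trans h4.symm)
  rw [hw] at key
  rcases lt_or_gt_of_ne hne with h | h
  · exact key n n' h heq
  · exact key n' n h heq.symm

variable {V A : Type} [Fintype V] [DecidableEq V] [Fintype A] [DecidableEq A]

lemma cnt_smul (K : Finset V) (i : V) (α : A) (N : ℕ) (u : (V → Option A) →₀ ℕ) :
    cnt K i α (N • u) = N * cnt K i α u := by
  unfold cnt
  rw [mul_sum]
  exact sum_congr rfl fun β _ => by rw [Finsupp.smul_apply, smul_eq_mul]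

lemma prod_smul {F : Type} [Field F] (c : (V → Option A) → F) (N : ℕ) (u : (V → Option A) →₀ ℕ) :
    ((N • u).prod fun x n => c x ^ n) = (u.prod fun x n => c x ^ n) ^ N := by
  rw [Finsupp.prod_fintype _ _ (fun _ => pow_zero _), Finsupp.prod_fintype _ _ (fun _ => pow_zero _), ← prod_pow]
  exact prod_congr rfl fun x _ => by rw [Finsupp.smul_apply, smul_eq_mul, mul_comm, pow_mul]

lemma hom {F : Type} [Field F] (H : Finset (Finset V)) (c : (V → Option A) → F) (hF : Free H c)
    (l : List (MvPolynomial (V → Option A) F × MvPolynomial (V → Option A) F)) (hl : Inv c l)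
    (p : MvPolynomial (V → Option A) F) (hp : ∃ s ∈ l, p = s.1 ∨ p = s.2) : Hom H p := by
  obtain ⟨N, hN, h⟩ := aux c hF.1 l hl p hp
  intro u hu u' hu' i α K hK hiK K' hK' hiK'
  have h1 : ((N • u).prod fun x n => c x ^ n) = ((N • u').prod fun x n => c x ^ n) := by
    rw [prod_smul, prod_smul, h u hu u' hu']
  have h2 := hF.2 (N • u) (N • u') h1 i α K hK hiK K' hK' hiK'
  rw [cnt_smul, cnt_smul, cnt_smul, cnt_smul] at h2
  push_cast at h2
  have h3 : (N : ℤ) * ((cnt K i α u : ℤ) - cnt K' i α u) = N * ((cnt K i α u' : ℤ) - cnt K' i α u') := by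
    linarith
  exact mul_left_cancel₀ (by omega) h3

end Pool.Agent.HS38.GT.INV

namespace Pool.Agent.HS38.GT

theorem t_INV : S_INV := by
  intro F _ V A _ _ _ _ H c hF l hl s hs
  exact ⟨INV.hom H c hF l hl s.1 ⟨s, hs, Or.inl rfl⟩, INV.hom H c hF l hl s.2 ⟨s, hs, Or.inr rfl⟩⟩

end Pool.Agent.HS38.GT
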