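import Pool.Agent.HS38.GT.Stm4
import Pool.Agent.HS38.GT.GW
import Pool.Agent.HS38.GT.DCount

/-!
# Project GT, part 4, piece KU: the linear width of all `k`-subsets
-/

set_option autoImplicit false

namespace Pool.Agent.HS38.GT.KU

open Finset Pool.Agent.HS38.GT.GW

variable {V : Type} [Fintype V] [DecidableEq V]

theorem mem_cut {H U : Finset (Finset V)} {i : V} :
    i ∈ cut H U ↔ (∃ K ∈ U, i ∈ K) ∧ ∃ K ∈ H \ U, i ∈ K := by
  simp [cut]

theorem cutge {k : ℕ} (hk : 2 ≤ k) (hkn : k < Fintype.card V) : CutGe (scopes V k) 2 := by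
  intro U hU hne hneq
  by_cases hP : ∀ i : V, ∃ K ∈ scopes V k \ U, i ∈ K
  · obtain ⟨K, hK⟩ := hne
    have h1 : K ⊆ cut (scopes V k) U := fun i hi => mem_cut.2 ⟨⟨K, hK, hi⟩, hP i⟩
    have h2 := card_le_card h1
    rw [mem_scopes.1 (hU hK)] at h2
    omega
  · push Not at hP
    obtain ⟨i₀, hi₀⟩ := hP
    have hQ : ∀ i : V, ∃ K ∈ U, i ∈ K := by
      intro i
      obtain ⟨K, hK, h1, h2⟩ := scopes_pair hk hkn.le i₀ i
      refine ⟨K, ?_, h2⟩
      by_contra hKU
      exact hi₀ K (mem_sdiff.2 ⟨hK, hKU⟩) h1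
    have hex : ∃ K ∈ scopes V k, K ∉ U := by
      by_contra hcon
      push Not at hcon
      exact hneq (Subset.antisymm hU hcon)
    obtain ⟨K, hK, hKU⟩ := hex
    have h1 : K ⊆ cut (scopes V k) U := fun i hi => mem_cut.2 ⟨hQ i, ⟨K, mem_sdiff.2 ⟨hK, hKU⟩, hi⟩⟩
    have h2 := card_le_card h1
    rw [mem_scopes.1 hK] at h2
    omega

/-- the step of the list where a variable is completed -/
theorem step {k : ℕ} (hk : 2 ≤ k) (hkn : k < Fintype.card V) :
    ∃ (K : Finset V) (U : Finset (Finset V)) (i₀ : V), K ∈ scopes V k ∧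
      (∀ i, ∃ K' ∈ scopes V k \ U, i ∈ K') ∧ (∀ K' ∈ scopes V k, i₀ ∈ K' → K' ≠ K → K' ∈ U) ∧
      (cut (scopes V k) U).card ≤ lwidth (scopes V k) := by
  have hcov : ∀ i : V, ∃ K ∈ scopes V k, i ∈ K := fun i => by
    obtain ⟨K, h1, h2, -⟩ := scopes_pair hk hkn.le i i
    exact ⟨K, h1, h2⟩
  have hne : {w | ∃ l : List (Finset V), l.Nodup ∧ l.toFinset = scopes V k ∧
      ∀ s, s <:+ l → (cut (scopes V k) s.toFinset).card ≤ w}.Nonempty :=
    ⟨Fintype.card V, (scopes V k).toList, (scopes V k).nodup_toList, by simp, fun s _ => card_le_univ _⟩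
  obtain ⟨l, hl, hlH, hcut⟩ := Nat.sInf_mem hne
  have hPl : 1 ≤ (PP (scopes V k) l.toFinset).card := by
    have : PP (scopes V k) l.toFinset = univ := by
      rw [Finset.eq_univ_iff_forall]
      intro i
      rw [mem_PP, hlH]
      exact fun K hK _ => hK
    rw [this, card_univ]
    omega
  obtain ⟨K, t, hsuf, hP, hP'⟩ := find (scopes V k) hcov 1 le_rfl l hPl
  obtain ⟨i₀, hi₀⟩ := card_pos.1 hP'
  refine ⟨K, t.toFinset, i₀, ?_, ?_, ?_, ?_⟩
  · rw [← hlH, List.mem_toFinset]
    exact hsuf.subset (List.mem_cons_self)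
  · intro i
    have h1 : i ∉ PP (scopes V k) t.toFinset := by
      rw [Nat.lt_one_iff, card_eq_zero] at hP
      rw [hP]
      exact notMem_empty _
    rw [mem_PP] at h1
    push Not at h1
    obtain ⟨K', h2, h3, h4⟩ := h1
    exact ⟨K', mem_sdiff.2 ⟨h2, h4⟩, h3⟩
  · intro K' h1 h2 h3
    have h4 := mem_PP.1 hi₀ K' h1 h2
    rw [List.toFinset_cons, mem_insert] at h4
    exact h4.resolve_left h3
  · exact hcut t ((List.suffix_cons K t).trans hsuf)

theorem ex_other {k : ℕ} (hk : 3 ≤ k) (hkn : k < Fintype.card V) (K : Finset V) {i j : V} (hij : i ≠ j) :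
    ∃ K' ∈ scopes V k, i ∈ K' ∧ j ∈ K' ∧ K' ≠ K := by
  have h1 := card_two (k := k) (by omega) hij
  have h2 : 2 ≤ (Fintype.card V - 2).choose (k - 2) := by
    obtain ⟨n, hn⟩ : ∃ n, Fintype.card V - 2 = n + 1 := ⟨Fintype.card V - 3, by omega⟩
    obtain ⟨m, hm⟩ : ∃ m, k - 2 = m + 1 := ⟨k - 3, by omega⟩
    rw [hn, hm, Nat.choose_succ_succ']
    have h4 : 0 < n.choose m := Nat.choose_pos (by omega)
    have h5 : 0 < n.choose (m + 1) := Nat.choose_pos (by omega)
    omega
  have h3 : 1 < ((scopes V k).filter fun K => i ∈ K ∧ j ∈ K).card := by omega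
  obtain ⟨K', hK', hne⟩ := Finset.exists_mem_ne h3 K
  rw [mem_filter] at hK'
  exact ⟨K', hK'.1, hK'.2.1, hK'.2.2, hne⟩

end Pool.Agent.HS38.GT.KU

namespace Pool.Agent.HS38.GT

open Finset Pool.Agent.HS38.GT.KU

theorem t_KU : S_KU := by
  intro V _ _ k hk hkn
  obtain ⟨K, U, i₀, hK, hP, hful, hcut⟩ := step hk hkn
  have h3 : 3 ≤ k → Fintype.card V ≤ lwidth (scopes V k) := by
    intro hk3
    refine le_trans ?_ hcut
    have h4 : cut (scopes V k) U = univ := by
      rw [Finset.eq_univ_iff_forall]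
      intro j
      rw [mem_cut]
      refine ⟨?_, hP j⟩
      by_cases hj : i₀ = j
      · obtain ⟨j', hj'⟩ : ∃ j' : V, i₀ ≠ j' := by
          by_contra hcon
          push Not at hcon
          have : Fintype.card V ≤ 1 := Fintype.card_le_one_iff.2 fun a b => (hcon a).symm.trans (hcon b)
          omega
        obtain ⟨K', h5, h6, -, h8⟩ := ex_other hk3 hkn K hj'
        exact ⟨K', hful K' h5 h6 h8, hj ▸ h6⟩
      · obtain ⟨K', h5, h6, h7, h8⟩ := ex_other hk3 hkn K hj
        exact ⟨K', hful K' h5 h6 h8, h7⟩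
    rw [h4, card_univ]
  refine ⟨cutge hk hkn, ?_, h3⟩
  rcases Nat.lt_or_ge 2 k with hk3 | hk2
  · exact (Nat.sub_le _ _).trans (h3 hk3)
  have hk2' : k = 2 := le_antisymm hk2 hk
  subst hk2'
  refine le_trans ?_ hcut
  have hK2 := mem_scopes.1 hK
  -- all the variables which are not in `K \ {i₀}` are in the cut
  have hsub : ∀ j : V, (j ∉ K ∨ j = i₀ ∨ i₀ ∉ K) → j ∈ cut (scopes V 2) U := by
    intro j hj
    rw [mem_cut]
    refine ⟨?_, hP j⟩
    by_cases hji : j = i₀
    · subst hji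
      obtain ⟨j', hj1, hj2⟩ : ∃ j' : V, j' ≠ j ∧ ({j, j'} : Finset V) ≠ K := by
        by_cases hjK : j ∈ K
        · obtain ⟨j', hj'⟩ : ∃ j' : V, j' ∉ K := by
            by_contra hcon
            push Not at hcon
            have h5 : (univ : Finset V) ⊆ K := fun x _ => hcon x
            have h6 := card_le_card h5
            rw [card_univ] at h6
            omega
          exact ⟨j', fun h => hj' (h ▸ hjK), fun h => hj' (h ▸ by simp)⟩
        · obtain ⟨j', hj'⟩ : ∃ j' : V, j' ≠ j := by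
            by_contra hcon
            push Not at hcon
            have : Fintype.card V ≤ 1 := Fintype.card_le_one_iff.2 fun a b => (hcon a).trans (hcon b).symm
            omega
          exact ⟨j', hj', fun h => hjK (h ▸ by simp)⟩
      exact ⟨{j, j'}, hful _ (by rw [mem_scopes, card_pair hj1.symm]) (by simp) hj2, by simp⟩
    · refine ⟨{i₀, j}, hful _ ?_ (by simp) ?_, by simp⟩
      · rw [mem_scopes, card_pair (Ne.symm hji)]
      · intro h
        rcases hj with h1 | h1 | h1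
        · exact h1 (h ▸ by simp)
        · exact hji h1
        · exact h1 (h ▸ by simp)
  by_cases hiK : i₀ ∈ K
  · have h5 : univ \ K.erase i₀ ⊆ cut (scopes V 2) U := by
      intro j hj
      rw [mem_sdiff, mem_erase, not_and_or, not_not] at hj
      exact hsub j (hj.2.elim (fun h => Or.inr (Or.inl h)) Or.inl)
    have h6 := card_le_card h5
    rw [card_sdiff_of_subset (subset_univ _), card_univ, card_erase_of_mem hiK, hK2] at h6
    exact h6
  · have h5 : (univ : Finset V) ⊆ cut (scopes V 2) U := fun j _ => hsub j (Or.inr (Or.inr hiK))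
    have h6 := card_le_card h5
    rw [card_univ] at h6
    omega

end Pool.Agent.HS38.GT
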