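import Pool.Agent.HS38.GT.Stm7
import Pool.Agent.HS38.GT.Cup

/-!
# Piece LSK (helper12): upper bound for skew programs along a row of the scopes
-/

set_option autoImplicit false
set_option linter.unusedSectionVars false

namespace Pool.Agent.HS38.GT

open MvPolynomial Finset Pool.Agent.Helper1x.EQ

namespace LSK

section prog

variable {F σ : Type} [Field F]

lemma sumstep (P : MvPolynomial σ F → Prop) (hP : ∀ p q, P p → P q → P (p + q))
    (l₀ : List (MvPolynomial σ F)) (h₀ : SK l₀) : ∀ fs : List (MvPolynomial σ F), fs ≠ [] →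
    (∀ f ∈ fs, f ∈ l₀ ∧ P f) → ∃ l₁ : List (MvPolynomial σ F), l₁.length + 1 ≤ fs.length ∧
      SK (l₁ ++ l₀) ∧ fs.sum ∈ l₁ ++ l₀ ∧ (∀ p ∈ l₁, P p) ∧ P fs.sum := by
  intro fs
  induction fs with
  | nil => intro h; exact absurd rfl h
  | cons f fs ih =>
    intro _ hf
    by_cases hfs : fs = []
    · subst hfs
      have h1 := hf f (List.mem_cons_self ..)
      refine ⟨[], by simp, by simpa using h₀, ?_, fun p hp => absurd hp (List.not_mem_nil), ?_⟩
      · rw [List.sum_singleton, List.nil_append]; exact h1.1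
      · rw [List.sum_singleton]; exact h1.2
    · obtain ⟨l₁, h1, h2, h3, h4, h5⟩ := ih hfs fun g hg => hf g (List.mem_cons_of_mem _ hg)
      have h6 := hf f (List.mem_cons_self ..)
      have h7 : P (f + fs.sum) := hP _ _ h6.2 h5
      refine ⟨(f + fs.sum) :: l₁, ?_, ?_, ?_, ?_, ?_⟩
      · simp only [List.length_cons]
        omega
      · refine ⟨h2, Or.inr (Or.inr (Or.inl ⟨f, List.mem_append_right _ h6.1, fs.sum, h3, rfl⟩))⟩
      · rw [List.sum_cons]
        exact List.mem_cons_self ..
      · intro p hp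
        rcases List.mem_cons.1 hp with rfl | hp
        · exact h7
        · exact h4 p hp
      · rw [List.sum_cons]; exact h7

lemma manysums {γ : Type} (P : γ → MvPolynomial σ F → Prop)
    (hP : ∀ g p q, P g p → P g q → P g (p + q)) (l₀ : List (MvPolynomial σ F)) (h₀ : SK l₀)
    (fs : γ → List (MvPolynomial σ F)) : ∀ Γ : List γ,
    (∀ g ∈ Γ, fs g ≠ [] ∧ ∀ f ∈ fs g, f ∈ l₀ ∧ P g f) → ∃ l₁ : List (MvPolynomial σ F),
      l₁.length + Γ.length ≤ (Γ.map fun g => (fs g).length).sum ∧ SK (l₁ ++ l₀) ∧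
      (∀ g ∈ Γ, (fs g).sum ∈ l₁ ++ l₀) ∧ ∀ p ∈ l₁, ∃ g, P g p := by
  intro Γ
  induction Γ with
  | nil =>
    intro _
    exact ⟨[], by simp, by simpa using h₀, fun g hg => absurd hg (List.not_mem_nil),
      fun p hp => absurd hp (List.not_mem_nil)⟩
  | cons g Γ ih =>
    intro h
    obtain ⟨l₁, h1, h2, h3, h4⟩ := ih fun g' hg' => h g' (List.mem_cons_of_mem _ hg')
    obtain ⟨h5, h6⟩ := h g (List.mem_cons_self ..)
    obtain ⟨l₂, g1, g2, g3, g4, -⟩ := sumstep (P g) (hP g) (l₁ ++ l₀) h2 (fs g) h5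
      fun f hf => ⟨List.mem_append_right _ (h6 f hf).1, (h6 f hf).2⟩
    refine ⟨l₂ ++ l₁, ?_, ?_, ?_, ?_⟩
    · rw [List.length_append, List.length_cons, List.map_cons, List.sum_cons]
      omega
    · rw [List.append_assoc]; exact g2
    · intro g' hg'
      rw [List.append_assoc]
      rcases List.mem_cons.1 hg' with rfl | hg'
      · exact g3
      · exact List.mem_append_right _ (h3 g' hg')
    · intro p hp
      rcases List.mem_append.1 hp with hp | hp
      · exact ⟨g, g4 p hp⟩
      · exact h4 p hp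

lemma sk_prods (l : List (MvPolynomial σ F)) (hl : SK l) : ∀ L : List (MvPolynomial σ F),
    (∀ p ∈ L, ∃ g ∈ l, ∃ x, p = g * X x) → SK (L ++ l) := by
  intro L
  induction L with
  | nil => intro _; simpa using hl
  | cons p L ih =>
    intro h
    obtain ⟨g, hg, x, hx⟩ := h p (List.mem_cons_self ..)
    exact ⟨ih fun q hq => h q (List.mem_cons_of_mem _ hq),
      Or.inr (Or.inr (Or.inr ⟨g, List.mem_append_right _ hg, x, hx⟩))⟩

end prog

section ten

open Cup

variable {V A : Type} [Fintype V] [DecidableEq V] [Fintype A] [DecidableEq A] (F : Type) [Field F]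
  (H : Finset (Finset V))

/-- the eigenvalue -/
noncomputable def chi {F : Type} [Field F] (t : Finset V → V → A → Fˣ) (U : Finset (Finset V)) (a : V → A) : F :=
  ∏ K ∈ U, gauge t (restr K a)

lemma chi_eq {F : Type} [Field F] {H : Finset (Finset V)} {t : Finset V → V → A → Fˣ}
    (ht : IsGauge H t) {U : Finset (Finset V)} (hU : U ⊆ H) {a b : V → A}
    (h : ∀ i, i ∉ inn H U → a i = b i) : chi t U a = chi t U b := by
  unfold chi
  rw [Finset.prod_congr rfl fun K _ => Dup.gauge_restr t K a,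
    Finset.prod_congr rfl fun K _ => Dup.gauge_restr t K b, ← Units.coe_prod, ← Units.coe_prod]
  congr 1
  have h1 : ∀ a : V → A, ∏ K ∈ U, ∏ i ∈ K, t K i (a i) =
      ∏ i, ∏ K ∈ U.filter (fun K => i ∈ K), t K i (a i) := by
    intro a
    have h2 : ∀ K ∈ U, ∏ i ∈ K, t K i (a i) = ∏ i, if i ∈ K then t K i (a i) else 1 := by
      intro K _
      rw [Finset.prod_ite_mem, Finset.univ_inter]
    rw [Finset.prod_congr rfl h2, Finset.prod_comm]
    refine Finset.prod_congr rfl fun i _ => ?_
    rw [← Finset.prod_filter]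
  rw [h1, h1]
  refine Finset.prod_congr rfl fun i _ => ?_
  by_cases hi : i ∈ inn H U
  · have h3 : U.filter (fun K => i ∈ K) = H.filter (fun K => i ∈ K) := by
      ext K
      rw [Finset.mem_filter, Finset.mem_filter]
      rw [mem_inn] at hi
      exact ⟨fun h => ⟨hU h.1, h.2⟩, fun h => ⟨hi.2 K h.1 h.2, h.2⟩⟩
    rw [h3, ht i (a i), ht i (b i)]
  · rw [h i hi]

lemma scale_pr (t : Finset V → V → A → Fˣ) (U : Finset (Finset V)) (a : V → A) :
    scale (gauge t) (pr F U a) = C (chi t U a) * pr F U a := by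
  unfold pr chi
  rw [map_prod, map_prod, ← Finset.prod_mul_distrib]
  refine Finset.prod_congr rfl fun K _ => ?_
  rw [scale, aeval_X]

/-- an eigenvector for all gauges with the eigenvalue of `b` -/
def PE (U : Finset (Finset V)) (b : V → A) (p : MvPolynomial (V → Option A) F) : Prop :=
  ∀ t : Finset V → V → A → Fˣ, IsGauge H t → scale (gauge t) p = C (chi t U b) * p

lemma PE_add {U : Finset (Finset V)} {b : V → A} {p q : MvPolynomial (V → Option A) F}
    (hp : PE F H U b p) (hq : PE F H U b q) : PE F H U b (p + q) := by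
  intro t ht
  rw [map_add, hp t ht, hq t ht, mul_add]

lemma PE_E {U : Finset (Finset V)} (hU : U ⊆ H) {J : Finset V} (hJ : J ⊆ inn H U) {b d : V → A}
    (hd : ∀ i, i ∉ inn H U → d i = b i) : PE F H U b (E J d (pr F U)) := by
  intro t ht
  unfold E
  rw [map_sum, Finset.mul_sum]
  refine Finset.sum_congr rfl fun a ha => ?_
  rw [Finset.mem_filter] at ha
  rw [scale_pr, chi_eq ht hU fun i hi => (ha.2 i fun h => hi (hJ h)).trans (hd i hi)]

lemma PE_eig {U : Finset (Finset V)} {b : V → A} {p : MvPolynomial (V → Option A) F}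
    (hp : PE F H U b p) (t : Finset V → V → A → Fˣ) (ht : IsGauge H t) : Eig (gauge t) p :=
  ⟨_, hp t ht⟩

variable {H}

lemma inn_insert {U : Finset (Finset V)} {K : Finset V} (hU : U ⊆ H) (hK : K ∈ H) (hKU : K ∉ U) :
    inn H (insert K U) = (cut H U ∪ K) \ cut H (insert K U) ∪ inn H U := by
  ext i
  rw [Finset.mem_union, Finset.mem_sdiff, Finset.mem_union, mem_inn, mem_inn, mem_cut, mem_cut]
  constructor
  · rintro ⟨⟨K', hK', hi⟩, h⟩
    by_cases c : (∃ K ∈ U, i ∈ K) ∧ ∀ K ∈ H, i ∈ K → K ∈ U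
    · exact Or.inr c
    · left
      refine ⟨?_, ?_⟩
      · by_cases hiK : i ∈ K
        · exact Or.inr hiK
        · left
          rcases Finset.mem_insert.1 hK' with rfl | hK'
          · exact absurd hi hiK
          · refine ⟨⟨K', hK', hi⟩, ?_⟩
            by_contra hcon
            apply c
            refine ⟨⟨K', hK', hi⟩, fun K₂ hK₂ hi₂ => ?_⟩
            by_contra hn
            exact hcon ⟨K₂, hK₂, hn, hi₂⟩
      · rintro ⟨-, K₂, h1, h2, h3⟩
        exact h2 (h K₂ h1 h3)
  · rintro (⟨h, h'⟩ | ⟨⟨K', hK', hi⟩, h⟩)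
    · have h3 : ∃ K' ∈ insert K U, i ∈ K' := by
        rcases h with ⟨⟨K', hK', hi⟩, -⟩ | hi
        · exact ⟨K', Finset.mem_insert_of_mem hK', hi⟩
        · exact ⟨K, Finset.mem_insert_self _ _, hi⟩
      refine ⟨h3, fun K₂ hK₂ hi₂ => ?_⟩
      by_contra hn
      exact h' ⟨h3, K₂, hK₂, hn, hi₂⟩
    · exact ⟨⟨K', Finset.mem_insert_of_mem hK', hi⟩, fun K₂ h1 h2 =>
        Finset.mem_insert_of_mem (h K₂ h1 h2)⟩

lemma inn_disj {U : Finset (Finset V)} {K : Finset V} (hU : U ⊆ H) (hK : K ∈ H) (hKU : K ∉ U) :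
    Disjoint ((cut H U ∪ K) \ cut H (insert K U)) (inn H U) := by
  rw [Finset.disjoint_left]
  intro i hi hi'
  rw [Finset.mem_sdiff, Finset.mem_union, mem_cut] at hi
  rw [mem_inn] at hi'
  rcases hi.1 with ⟨-, K₂, h1, h2, h3⟩ | h
  · exact h2 (hi'.2 K₂ h1 h3)
  · exact hKU (hi'.2 K hK h)

lemma prod_eq {U : Finset (Finset V)} {K : Finset V} (hK : K ∈ H) (hKU : K ∉ U) (d : V → A) :
    T F H U d * X (restr K d) = E (inn H U) d (pr F (insert K U)) := by
  unfold T E
  rw [Finset.sum_mul]
  refine Finset.sum_congr rfl fun a ha => ?_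
  rw [Finset.mem_filter] at ha
  unfold pr
  rw [Finset.prod_insert hKU, mul_comm]
  congr 2
  funext i
  unfold restr
  by_cases hi : i ∈ K
  · rw [if_pos hi, if_pos hi, ha.2 i]
    intro h
    rw [mem_inn] at h
    exact hKU (h.2 K hK hi)
  · rw [if_neg hi, if_neg hi]

lemma T_insert {U : Finset (Finset V)} {K : Finset V} (hU : U ⊆ H) (hK : K ∈ H) (hKU : K ∉ U)
    (b : V → A) : T F H (insert K U) b = E ((cut H U ∪ K) \ cut H (insert K U)) b
      fun d => T F H U d * X (restr K d) := by
  conv_lhs => unfold T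
  rw [inn_insert hU hK hKU, E_fub (inn_disj hU hK hKU)]
  congr 1
  funext d
  exact (prod_eq F hK hKU d).symm

lemma card_agree (J : Finset V) (b : V → A) :
    (univ.filter (fun a : V → A => ∀ i, i ∉ J → a i = b i)).card = Fintype.card A ^ J.card := by
  have h1 : univ.filter (fun a : V → A => ∀ i, i ∉ J → a i = b i) =
      Fintype.piFinset fun i => if i ∈ J then univ else {b i} := by
    ext a
    rw [Finset.mem_filter, Fintype.mem_piFinset]
    constructor
    · rintro ⟨-, h⟩ i
      split_ifs with hi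
      · exact Finset.mem_univ _
      · rw [Finset.mem_singleton]; exact h i hi
    · intro h
      refine ⟨Finset.mem_univ _, fun i hi => ?_⟩
      have := h i
      rw [if_neg hi, Finset.mem_singleton] at this
      exact this
  rw [h1, Fintype.card_piFinset]
  have h2 : ∀ i, (if i ∈ J then (univ : Finset A) else {b i}).card =
      if i ∈ J then Fintype.card A else 1 := by
    intro i
    split_ifs
    · exact Finset.card_univ
    · exact Finset.card_singleton _
  rw [Finset.prod_congr rfl fun i _ => h2 i, Finset.prod_ite_mem, Finset.univ_inter,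
    Finset.prod_const]

lemma PE_prod {U : Finset (Finset V)} {K : Finset V} (hU : U ⊆ H) (hK : K ∈ H) (hKU : K ∉ U)
    (b d : V → A) (hd : ∀ i, i ∉ (cut H U ∪ K) \ cut H (insert K U) → d i = b i) :
    PE F H (insert K U) b (T F H U d * X (restr K d)) := by
  have h1 := inn_insert hU hK hKU
  have h2 := prod_eq F hK hKU d
  have h3 : inn H U ⊆ inn H (insert K U) := by rw [h1]; exact Finset.subset_union_right
  have h4 := PE_E F H (Finset.insert_subset hK hU) h3 (b := b) (d := d) (by
    intro i hi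
    apply hd
    intro h
    apply hi
    rw [h1]
    exact Finset.mem_union_left _ h)
  rw [← h2] at h4
  exact h4

lemma step [Nonempty A] {U : Finset (Finset V)} {K : Finset V} (hU : U ⊆ H) (hK : K ∈ H)
    (hKU : K ∉ U) (l : List (MvPolynomial (V → Option A) F)) (hl : SK l)
    (hE : ∀ p ∈ l, ∀ t : Finset V → V → A → Fˣ, IsGauge H t → Eig (gauge t) p)
    (hT : ∀ b : V → A, T F H U b ∈ l) : ∃ l' : List (MvPolynomial (V → Option A) F), SK l' ∧
      (∀ p ∈ l', ∀ t : Finset V → V → A → Fˣ, IsGauge H t → Eig (gauge t) p) ∧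
      (∀ b : V → A, T F H (insert K U) b ∈ l') ∧
      l'.length + 1 ≤ l.length + 2 * Fintype.card A ^ (cut H U ∪ K).card := by
  obtain ⟨a₀⟩ := ‹Nonempty A›
  have hA : 0 < Fintype.card A := Fintype.card_pos_iff.2 ⟨a₀⟩
  obtain ⟨W, hW⟩ : ∃ W, W = cut H U ∪ K := ⟨_, rfl⟩
  obtain ⟨W', hW'⟩ : ∃ W', W' = cut H (insert K U) := ⟨_, rfl⟩
  have hWW : W' ⊆ W := by
    intro i hi
    rw [hW', mem_cut] at hi
    obtain ⟨⟨K', hK', hi'⟩, K₂, h1, h2, h3⟩ := hi
    rw [hW, Finset.mem_union]
    rcases Finset.mem_insert.1 hK' with rfl | hK'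
    · exact Or.inr hi'
    · exact Or.inl ((mem_cut H).2 ⟨⟨K', hK', hi'⟩, K₂, h1,
        fun h => h2 (Finset.mem_insert_of_mem h), h3⟩)
  obtain ⟨ext, hext⟩ : ∃ ext : ({i // i ∈ W} → A) → V → A, ∀ (d : V → A) (i : V), i ∈ W →
      ext (fun i => d i) i = d i :=
    ⟨fun c i => if h : i ∈ W then c ⟨i, h⟩ else a₀, fun d i hi => dif_pos hi⟩
  obtain ⟨ext', hext'⟩ : ∃ ext' : ({i // i ∈ W'} → A) → V → A, ∀ (d : V → A) (i : V), i ∈ W' →
      ext' (fun i => d i) i = d i :=
    ⟨fun c i => if h : i ∈ W' then c ⟨i, h⟩ else a₀, fun d i hi => dif_pos hi⟩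
  obtain ⟨pd, hpd0⟩ : ∃ pd : (V → A) → MvPolynomial (V → Option A) F, pd = fun d =>
    T F H U d * X (restr K d) := ⟨_, rfl⟩
  have hpd : ∀ d, pd d = pd (ext fun i => d i) := by
    intro d
    have e1 : T F H U d = T F H U (ext fun i => d i) := T_dep F H fun i hi => by
      rw [hext d i (by rw [hW]; exact Finset.mem_union_left _ hi)]
    have e2 : restr K d = restr K (ext fun i => d i) := by
      funext i
      unfold restr
      by_cases hi : i ∈ K
      · rw [if_pos hi, if_pos hi, hext d i (by rw [hW]; exact Finset.mem_union_right _ hi)]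
      · rw [if_neg hi, if_neg hi]
    rw [hpd0]
    simp only
    rw [← e1, ← e2]
  obtain ⟨L, hL0⟩ : ∃ L, L = (univ : Finset ({i // i ∈ W} → A)).toList.map fun c => pd (ext c) :=
    ⟨_, rfl⟩
  have hLlen : L.length = Fintype.card A ^ W.card := by
    rw [hL0, List.length_map, Finset.length_toList, Finset.card_univ, Fintype.card_fun,
      Fintype.card_coe]
  have hLm : ∀ d, pd d ∈ L := fun d => by
    rw [hpd, hL0]
    exact List.mem_map_of_mem (Finset.mem_toList.2 (Finset.mem_univ _))
  have hLin : ∀ p ∈ L, ∃ d, p = pd d := by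
    intro p hp
    rw [hL0] at hp
    obtain ⟨c, -, rfl⟩ := List.mem_map.1 hp
    exact ⟨_, rfl⟩
  have hL : SK (L ++ l) := by
    apply sk_prods l hl
    intro p hp
    obtain ⟨d, hd⟩ := hLin p hp
    refine ⟨_, hT d, restr K d, ?_⟩
    rw [hd, hpd0]
  have hPEd : ∀ b d : V → A, (∀ i, i ∉ W \ W' → d i = b i) → PE F H (insert K U) b (pd d) := by
    intro b d hd
    rw [hpd0]
    rw [hW, hW'] at hd
    exact PE_prod F hU hK hKU b d hd
  have hTI : ∀ b, T F H (insert K U) b = E (W \ W') b pd := by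
    intro b
    rw [hpd0, hW, hW']
    exact T_insert F hU hK hKU b
  obtain ⟨fs, hfs⟩ : ∃ fs : ({i // i ∈ W'} → A) → List (MvPolynomial (V → Option A) F), ∀ c, fs c =
    (univ.filter (fun a : V → A => ∀ i, i ∉ W \ W' → a i = ext' c i)).toList.map pd :=
    ⟨_, fun _ => rfl⟩
  obtain ⟨l₁, g1, g2, g3, g4⟩ := manysums (fun c => PE F H (insert K U) (ext' c))
    (fun c p q hp hq => PE_add F H hp hq) (L ++ l) hL fs
    (univ : Finset ({i // i ∈ W'} → A)).toList (by
      intro c _
      refine ⟨?_, ?_⟩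
      · intro h
        have h1 : ext' c ∈ univ.filter (fun a : V → A => ∀ i, i ∉ W \ W' → a i = ext' c i) :=
          Finset.mem_filter.2 ⟨Finset.mem_univ _, fun _ _ => rfl⟩
        have h2 := List.mem_map_of_mem (f := pd) (Finset.mem_toList.2 h1)
        rw [← hfs, h] at h2
        exact absurd h2 (List.not_mem_nil)
      · intro f hf
        rw [hfs] at hf
        obtain ⟨d, hd, rfl⟩ := List.mem_map.1 hf
        rw [Finset.mem_toList, Finset.mem_filter] at hd
        exact ⟨List.mem_append_left _ (hLm d), hPEd _ _ hd.2⟩)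
  refine ⟨l₁ ++ (L ++ l), g2, ?_, ?_, ?_⟩
  · intro p hp t ht
    rcases List.mem_append.1 hp with hp | hp
    · obtain ⟨c, hc⟩ := g4 p hp
      exact PE_eig F H hc t ht
    · rcases List.mem_append.1 hp with hp | hp
      · obtain ⟨d, hd⟩ := hLin p hp
        rw [hd]
        exact PE_eig F H (hPEd d d fun _ _ => rfl) t ht
      · exact hE p hp t ht
  · intro b
    have e1 : T F H (insert K U) b = T F H (insert K U) (ext' fun i => b i) :=
      T_dep F H fun i hi => by
        rw [hext' b i (by rw [hW']; exact hi)]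
    rw [e1, hTI]
    have h1 := g3 (fun i => b i) (Finset.mem_toList.2 (Finset.mem_univ _))
    have h2 : (fs fun i => b i).sum = E (W \ W') (ext' fun i => b i) pd := by
      rw [hfs, Finset.sum_map_toList]
      rfl
    rw [h2] at h1
    exact h1
  · have h1 : ((univ : Finset ({i // i ∈ W'} → A)).toList.map fun c => (fs c).length).sum =
        Fintype.card A ^ W.card := by
      have h2 : ∀ c, (fs c).length = Fintype.card A ^ (W \ W').card := by
        intro c
        rw [hfs, List.length_map, Finset.length_toList, card_agree]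
      simp only [h2]
      rw [List.map_const', List.sum_replicate, Finset.length_toList, Finset.card_univ,
        Fintype.card_fun, Fintype.card_coe, smul_eq_mul, ← pow_add,
        Finset.card_sdiff_of_subset hWW]
      congr 1
      have := Finset.card_le_card hWW
      omega
    rw [h1, Finset.length_toList, Finset.card_univ, Fintype.card_fun, Fintype.card_coe] at g1
    have h3 : 0 < Fintype.card A ^ W'.card := Nat.pow_pos hA
    rw [List.length_append, List.length_append, hLlen, ← hW]
    omega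

lemma E_empty (b : V → A) (f : (V → A) → MvPolynomial (V → Option A) F) :
    E (∅ : Finset V) b f = f b := by
  unfold E
  rw [Finset.sum_eq_single_of_mem b]
  · exact Finset.mem_filter.2 ⟨Finset.mem_univ _, fun _ _ => rfl⟩
  · intro a ha hne
    rw [Finset.mem_filter] at ha
    exact absurd (funext fun i => ha.2 i (Finset.notMem_empty i)) hne

lemma prog [Nonempty A] (w : ℕ) : ∀ L : List (Finset V), L.Nodup → (∀ K ∈ L, K ∈ H) →
    (∀ s, s <:+ L → (cut H s.toFinset).card ≤ w) →
    ∃ l : List (MvPolynomial (V → Option A) F), SK l ∧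
      (∀ p ∈ l, ∀ t : Finset V → V → A → Fˣ, IsGauge H t → Eig (gauge t) p) ∧
      (∀ b : V → A, T F H L.toFinset b ∈ l) ∧
      l.length ≤ 1 + 2 * (∑ K ∈ L.toFinset, Fintype.card A ^ K.card) * Fintype.card A ^ w ∧
      (L ≠ [] → l.length ≤ 2 * (∑ K ∈ L.toFinset, Fintype.card A ^ K.card) * Fintype.card A ^ w) := by
  intro L
  induction L with
  | nil =>
    intro _ _ _
    refine ⟨[C 1], ⟨trivial, Or.inr (Or.inl ⟨1, rfl⟩)⟩, ?_, ?_, by simp, fun h => absurd rfl h⟩
    · intro p hp t _
      rw [List.mem_singleton] at hp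
      subst hp
      exact ⟨1, by simp⟩
    · intro b
      rw [List.mem_singleton, List.toFinset_nil]
      have h1 : inn H (∅ : Finset (Finset V)) = ∅ := by
        ext i
        rw [mem_inn]
        simp
      unfold T
      rw [h1, E_empty]
      unfold pr
      rw [Finset.prod_empty, map_one]
  | cons K L ih =>
    intro hnd hH hw
    rw [List.nodup_cons] at hnd
    obtain ⟨l, h1, h2, h3, h4, -⟩ := ih hnd.2 (fun K' hK' => hH K' (List.mem_cons_of_mem _ hK'))
      fun s hs => hw s (hs.trans (List.suffix_cons _ _))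
    have hKU : K ∉ L.toFinset := by rw [List.mem_toFinset]; exact hnd.1
    obtain ⟨l', g1, g2, g3, g4⟩ := step F (H := H) (U := L.toFinset) (K := K)
      (fun K' hK' => hH K' (List.mem_cons_of_mem _ (List.mem_toFinset.1 hK')))
      (hH K (List.mem_cons_self ..)) hKU l h1 h2 h3
    have hA : 0 < Fintype.card A := Fintype.card_pos
    have h5 : (cut H L.toFinset ∪ K).card ≤ K.card + w := by
      have := hw L (List.suffix_cons _ _)
      have h6 := Finset.card_union_le (cut H L.toFinset) K
      omega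
    have h7 : Fintype.card A ^ (cut H L.toFinset ∪ K).card ≤
        Fintype.card A ^ K.card * Fintype.card A ^ w := by
      rw [← pow_add]
      exact Nat.pow_le_pow_right hA h5
    have h8 : l'.length ≤ 2 * (∑ K ∈ (K :: L).toFinset, Fintype.card A ^ K.card) *
        Fintype.card A ^ w := by
      rw [List.toFinset_cons, Finset.sum_insert hKU]
      nlinarith
    refine ⟨l', g1, g2, ?_, by omega, fun _ => h8⟩
    rw [List.toFinset_cons]
    exact g3

end ten

end LSK

open LSK in
theorem t_LSK : S_LSK := by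
  intro F _ V A _ _ _ _ _ H hH hcov
  obtain ⟨L, h1, h2, h3⟩ : lwidth H ∈ {w | ∃ l : List (Finset V), l.Nodup ∧ l.toFinset = H ∧
      ∀ s, s <:+ l → (cut H s.toFinset).card ≤ w} := by
    refine Nat.sInf_mem ⟨Fintype.card V, H.toList, Finset.nodup_toList H, Finset.toList_toFinset H, ?_⟩
    intro s _
    exact Finset.card_le_univ _
  obtain ⟨l, g1, g2, g3, -, g5⟩ := prog (A := A) F (H := H) (lwidth H) L h1
    (fun K hK => by rw [← h2]; exact List.mem_toFinset.2 hK) h3
  rw [h2] at g3 g5
  refine ⟨l, g1, g2, ?_, g5 ?_⟩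
  · obtain ⟨a₀⟩ := ‹Nonempty A›
    have h4 : Cup.T F H H (fun _ => a₀) = Z F A H := by
      unfold Cup.T Cup.E Z
      refine Finset.sum_congr ?_ fun _ _ => rfl
      rw [Finset.filter_true_of_mem]
      intro a _ i hi
      exact absurd ((Cup.mem_inn H).2 ⟨hcov i, fun K hK _ => hK⟩) hi
    rw [← h4]
    exact g3 _
  · rintro rfl
    rw [List.toFinset_nil] at h2
    subst h2
    exact absurd hH Finset.not_nonempty_empty

end Pool.Agent.HS38.GT
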