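import Pool.Agent.HS38.GT.Stm10
import Pool.Agent.HS38.GT.LSK
import Pool.Agent.HS38.GT.CUP3

/-!
# Piece LSK3 (helper38; adapted from `LSK.lean` of helper12 and `CUP3.lean` of helper23)
-/

set_option autoImplicit false
set_option linter.unusedSectionVars false

namespace Pool.Agent.HS38.GT

open MvPolynomial Finset Pool.Agent.Helper1x.EQ

namespace LSK3

section ten

open Cup LSK

variable {V A : Type} [Fintype V] [DecidableEq V] [Fintype A] [DecidableEq A] (F : Type) [Field F]
  (H : Finset (Finset V))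

/-- the property of all steps -/
def Good (p : MvPolynomial (V → Option A) F) : Prop :=
  (∀ t : Finset V → V → A → Fˣ, IsGauge H t → Eig (gauge t) p) ∧ Hom H p

/-- both properties -/
def PH (U : Finset (Finset V)) (b : V → A) (p : MvPolynomial (V → Option A) F) : Prop :=
  PE F H U b p ∧ CUP3.HomV F H U b p

lemma PH_add {U : Finset (Finset V)} {b : V → A} {p q : MvPolynomial (V → Option A) F}
    (hp : PH F H U b p) (hq : PH F H U b q) : PH F H U b (p + q) :=
  ⟨PE_add F H hp.1 hq.1, CUP3.HomV.add F H hp.2 hq.2⟩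

lemma PH_good {U : Finset (Finset V)} {b : V → A} {p : MvPolynomial (V → Option A) F}
    (hp : PH F H U b p) : Good F H p :=
  ⟨fun t ht => PE_eig F H hp.1 t ht, CUP3.HomV.hom F H hp.2⟩

lemma homV_E {U : Finset (Finset V)} {J : Finset V} (hJ : J ⊆ inn H U) {b d : V → A}
    (hd : ∀ i, i ∉ inn H U → d i = b i) : CUP3.HomV F H U b (E J d (pr F U)) := by
  unfold E
  refine Finset.sum_induction _ (CUP3.HomV F H U b) (fun p q hp hq => CUP3.HomV.add F H hp hq) ?_ ?_
  · intro u hu
    rw [MvPolynomial.support_zero] at hu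
    exact absurd hu (Finset.notMem_empty u)
  · intro a ha
    rw [Finset.mem_filter] at ha
    exact CUP3.homV_pr F H fun i hi => (ha.2 i fun h => hi (hJ h)).trans (hd i hi)

variable {H}

lemma PH_prod {U : Finset (Finset V)} {K : Finset V} (hU : U ⊆ H) (hK : K ∈ H) (hKU : K ∉ U)
    (b d : V → A) (hd : ∀ i, i ∉ (cut H U ∪ K) \ cut H (insert K U) → d i = b i) :
    PH F H (insert K U) b (T F H U d * X (restr K d)) := by
  refine ⟨PE_prod F hU hK hKU b d hd, ?_⟩
  have h1 := inn_insert hU hK hKU
  have h2 := prod_eq F hK hKU d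
  have h3 : inn H U ⊆ inn H (insert K U) := by rw [h1]; exact Finset.subset_union_right
  have h4 := homV_E F H h3 (b := b) (d := d) (by
    intro i hi
    apply hd
    intro h
    apply hi
    rw [h1]
    exact Finset.mem_union_left _ h)
  rw [← h2] at h4
  exact h4

lemma step [Nonempty A] {U : Finset (Finset V)} {K : Finset V} (hU : U ⊆ H) (hK : K ∈ H)
    (hKU : K ∉ U) (l : List (MvPolynomial (V → Option A) F)) (hl : SK l)
    (hE : ∀ p ∈ l, Good F H p)
    (hT : ∀ b : V → A, T F H U b ∈ l) : ∃ l' : List (MvPolynomial (V → Option A) F), SK l' ∧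
      (∀ p ∈ l', Good F H p) ∧
      (∀ b : V → A, T F H (insert K U) b ∈ l') ∧
      l'.length + 1 ≤ l.length + 2 * Fintype.card A ^ (cut H U ∪ K).card := by
  obtain ⟨a₀⟩ := ‹Nonempty A›
  have hA : 0 < Fintype.card A := Fintype.card_pos_iff.2 ⟨a₀⟩
  obtain ⟨W, hW⟩ : ∃ W, W = cut H U ∪ K := ⟨_, rfl⟩
  obtain ⟨W', hW'⟩ : ∃ W', W' = cut H (insert K U) := ⟨_, rfl⟩
  have hWW : W' ⊆ W := by
    intro i hi
    rw [hW', mem_cut] at hi
    obtain ⟨⟨K', hK', hi'⟩, K₂, h1, h2, h3⟩ := hi
    rw [hW, Finset.mem_union]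
    rcases Finset.mem_insert.1 hK' with rfl | hK'
    · exact Or.inr hi'
    · exact Or.inl ((mem_cut H).2 ⟨⟨K', hK', hi'⟩, K₂, h1,
        fun h => h2 (Finset.mem_insert_of_mem h), h3⟩)
  obtain ⟨ext, hext⟩ : ∃ ext : ({i // i ∈ W} → A) → V → A, ∀ (d : V → A) (i : V), i ∈ W →
      ext (fun i => d i) i = d i :=
    ⟨fun c i => if h : i ∈ W then c ⟨i, h⟩ else a₀, fun d i hi => dif_pos hi⟩
  obtain ⟨ext', hext'⟩ : ∃ ext' : ({i // i ∈ W'} → A) → V → A, ∀ (d : V → A) (i : V), i ∈ W' →
      ext' (fun i => d i) i = d i :=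
    ⟨fun c i => if h : i ∈ W' then c ⟨i, h⟩ else a₀, fun d i hi => dif_pos hi⟩
  obtain ⟨pd, hpd0⟩ : ∃ pd : (V → A) → MvPolynomial (V → Option A) F, pd = fun d =>
    T F H U d * X (restr K d) := ⟨_, rfl⟩
  have hpd : ∀ d, pd d = pd (ext fun i => d i) := by
    intro d
    have e1 : T F H U d = T F H U (ext fun i => d i) := T_dep F H fun i hi => by
      rw [hext d i (by rw [hW]; exact Finset.mem_union_left _ hi)]
    have e2 : restr K d = restr K (ext fun i => d i) := by
      funext i
      unfold restr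
      by_cases hi : i ∈ K
      · rw [if_pos hi, if_pos hi, hext d i (by rw [hW]; exact Finset.mem_union_right _ hi)]
      · rw [if_neg hi, if_neg hi]
    rw [hpd0]
    simp only
    rw [← e1, ← e2]
  obtain ⟨L, hL0⟩ : ∃ L, L = (univ : Finset ({i // i ∈ W} → A)).toList.map fun c => pd (ext c) :=
    ⟨_, rfl⟩
  have hLlen : L.length = Fintype.card A ^ W.card := by
    rw [hL0, List.length_map, Finset.length_toList, Finset.card_univ, Fintype.card_fun,
      Fintype.card_coe]
  have hLm : ∀ d, pd d ∈ L := fun d => by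
    rw [hpd, hL0]
    exact List.mem_map_of_mem (Finset.mem_toList.2 (Finset.mem_univ _))
  have hLin : ∀ p ∈ L, ∃ d, p = pd d := by
    intro p hp
    rw [hL0] at hp
    obtain ⟨c, -, rfl⟩ := List.mem_map.1 hp
    exact ⟨_, rfl⟩
  have hL : SK (L ++ l) := by
    apply sk_prods l hl
    intro p hp
    obtain ⟨d, hd⟩ := hLin p hp
    refine ⟨_, hT d, restr K d, ?_⟩
    rw [hd, hpd0]
  have hPEd : ∀ b d : V → A, (∀ i, i ∉ W \ W' → d i = b i) → PH F H (insert K U) b (pd d) := by
    intro b d hd
    rw [hpd0]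
    rw [hW, hW'] at hd
    exact PH_prod F hU hK hKU b d hd
  have hTI : ∀ b, T F H (insert K U) b = E (W \ W') b pd := by
    intro b
    rw [hpd0, hW, hW']
    exact T_insert F hU hK hKU b
  obtain ⟨fs, hfs⟩ : ∃ fs : ({i // i ∈ W'} → A) → List (MvPolynomial (V → Option A) F), ∀ c, fs c =
    (univ.filter (fun a : V → A => ∀ i, i ∉ W \ W' → a i = ext' c i)).toList.map pd :=
    ⟨_, fun _ => rfl⟩
  obtain ⟨l₁, g1, g2, g3, g4⟩ := manysums (fun c => PH F H (insert K U) (ext' c))
    (fun c p q hp hq => PH_add F H hp hq) (L ++ l) hL fs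
    (univ : Finset ({i // i ∈ W'} → A)).toList (by
      intro c _
      refine ⟨?_, ?_⟩
      · intro h
        have h1 : ext' c ∈ univ.filter (fun a : V → A => ∀ i, i ∉ W \ W' → a i = ext' c i) :=
          Finset.mem_filter.2 ⟨Finset.mem_univ _, fun _ _ => rfl⟩
        have h2 := List.mem_map_of_mem (f := pd) (Finset.mem_toList.2 h1)
        rw [← hfs, h] at h2
        exact absurd h2 (List.not_mem_nil)
      · intro f hf
        rw [hfs] at hf
        obtain ⟨d, hd, rfl⟩ := List.mem_map.1 hf
        rw [Finset.mem_toList, Finset.mem_filter] at hd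
        exact ⟨List.mem_append_left _ (hLm d), hPEd _ _ hd.2⟩)
  refine ⟨l₁ ++ (L ++ l), g2, ?_, ?_, ?_⟩
  · intro p hp
    rcases List.mem_append.1 hp with hp | hp
    · obtain ⟨c, hc⟩ := g4 p hp
      exact PH_good F H hc
    · rcases List.mem_append.1 hp with hp | hp
      · obtain ⟨d, hd⟩ := hLin p hp
        rw [hd]
        exact PH_good F H (hPEd d d fun _ _ => rfl)
      · exact hE p hp
  · intro b
    have e1 : T F H (insert K U) b = T F H (insert K U) (ext' fun i => b i) :=
      T_dep F H fun i hi => by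
        rw [hext' b i (by rw [hW']; exact hi)]
    rw [e1, hTI]
    have h1 := g3 (fun i => b i) (Finset.mem_toList.2 (Finset.mem_univ _))
    have h2 : (fs fun i => b i).sum = E (W \ W') (ext' fun i => b i) pd := by
      rw [hfs, Finset.sum_map_toList]
      rfl
    rw [h2] at h1
    exact h1
  · have h1 : ((univ : Finset ({i // i ∈ W'} → A)).toList.map fun c => (fs c).length).sum =
        Fintype.card A ^ W.card := by
      have h2 : ∀ c, (fs c).length = Fintype.card A ^ (W \ W').card := by
        intro c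
        rw [hfs, List.length_map, Finset.length_toList, card_agree]
      simp only [h2]
      rw [List.map_const', List.sum_replicate, Finset.length_toList, Finset.card_univ,
        Fintype.card_fun, Fintype.card_coe, smul_eq_mul, ← pow_add,
        Finset.card_sdiff_of_subset hWW]
      congr 1
      have := Finset.card_le_card hWW
      omega
    rw [h1, Finset.length_toList, Finset.card_univ, Fintype.card_fun, Fintype.card_coe] at g1
    have h3 : 0 < Fintype.card A ^ W'.card := Nat.pow_pos hA
    rw [List.length_append, List.length_append, hLlen, ← hW]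
    omega

lemma prog [Nonempty A] (w : ℕ) : ∀ L : List (Finset V), L.Nodup → (∀ K ∈ L, K ∈ H) →
    (∀ s, s <:+ L → (cut H s.toFinset).card ≤ w) →
    ∃ l : List (MvPolynomial (V → Option A) F), SK l ∧
      (∀ p ∈ l, Good F H p) ∧
      (∀ b : V → A, T F H L.toFinset b ∈ l) ∧
      l.length ≤ 1 + 2 * (∑ K ∈ L.toFinset, Fintype.card A ^ K.card) * Fintype.card A ^ w ∧
      (L ≠ [] → l.length ≤ 2 * (∑ K ∈ L.toFinset, Fintype.card A ^ K.card) * Fintype.card A ^ w) := by
  intro L
  induction L with
  | nil =>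
    intro _ _ _
    refine ⟨[C 1], ⟨trivial, Or.inr (Or.inl ⟨1, rfl⟩)⟩, ?_, ?_, by simp, fun h => absurd rfl h⟩
    · intro p hp
      rw [List.mem_singleton] at hp
      subst hp
      refine ⟨fun t _ => ⟨1, by simp⟩, ?_⟩
      have h0 : ∀ u ∈ (C 1 : MvPolynomial (V → Option A) F).support, u = 0 := by
        intro u hu
        rw [MvPolynomial.mem_support_iff, MvPolynomial.coeff_C] at hu
        by_contra hne
        rw [if_neg (Ne.symm hne)] at hu
        exact hu rfl
      intro u hu u' hu' i α K hK hi K' hK' hi'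
      rw [h0 u hu, h0 u' hu']
    · intro b
      rw [List.mem_singleton, List.toFinset_nil]
      have h1 : inn H (∅ : Finset (Finset V)) = ∅ := by
        ext i
        rw [mem_inn]
        simp
      unfold T
      rw [h1, E_empty]
      unfold pr
      rw [Finset.prod_empty, map_one]
  | cons K L ih =>
    intro hnd hH hw
    rw [List.nodup_cons] at hnd
    obtain ⟨l, h1, h2, h3, h4, -⟩ := ih hnd.2 (fun K' hK' => hH K' (List.mem_cons_of_mem _ hK'))
      fun s hs => hw s (hs.trans (List.suffix_cons _ _))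
    have hKU : K ∉ L.toFinset := by rw [List.mem_toFinset]; exact hnd.1
    obtain ⟨l', g1, g2, g3, g4⟩ := step F (H := H) (U := L.toFinset) (K := K)
      (fun K' hK' => hH K' (List.mem_cons_of_mem _ (List.mem_toFinset.1 hK')))
      (hH K (List.mem_cons_self ..)) hKU l h1 h2 h3
    have hA : 0 < Fintype.card A := Fintype.card_pos
    have h5 : (cut H L.toFinset ∪ K).card ≤ K.card + w := by
      have := hw L (List.suffix_cons _ _)
      have h6 := Finset.card_union_le (cut H L.toFinset) K
      omega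
    have h7 : Fintype.card A ^ (cut H L.toFinset ∪ K).card ≤
        Fintype.card A ^ K.card * Fintype.card A ^ w := by
      rw [← pow_add]
      exact Nat.pow_le_pow_right hA h5
    have h8 : l'.length ≤ 2 * (∑ K ∈ (K :: L).toFinset, Fintype.card A ^ K.card) *
        Fintype.card A ^ w := by
      rw [List.toFinset_cons, Finset.sum_insert hKU]
      nlinarith
    refine ⟨l', g1, g2, ?_, by omega, fun _ => h8⟩
    rw [List.toFinset_cons]
    exact g3

end ten

end LSK3

open LSK3 in
theorem t_LSK3 : S_LSK3 := by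
  intro F _ V A _ _ _ _ _ H hH hcov
  obtain ⟨L, h1, h2, h3⟩ : lwidth H ∈ {w | ∃ l : List (Finset V), l.Nodup ∧ l.toFinset = H ∧
      ∀ s, s <:+ l → (cut H s.toFinset).card ≤ w} := by
    refine Nat.sInf_mem ⟨Fintype.card V, H.toList, Finset.nodup_toList H, Finset.toList_toFinset H, ?_⟩
    intro s _
    exact Finset.card_le_univ _
  obtain ⟨l, g1, g2, g3, -, g5⟩ := prog (A := A) F (H := H) (lwidth H) L h1
    (fun K hK => by rw [← h2]; exact List.mem_toFinset.2 hK) h3
  rw [h2] at g3 g5
  refine ⟨l, g1, g2, ?_, g5 ?_⟩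
  · obtain ⟨a₀⟩ := ‹Nonempty A›
    have h4 : Cup.T F H H (fun _ => a₀) = Z F A H := by
      unfold Cup.T Cup.E Z
      refine Finset.sum_congr ?_ fun _ _ => rfl
      rw [Finset.filter_true_of_mem]
      intro a _ i hi
      exact absurd ((Cup.mem_inn H).2 ⟨hcov i, fun K hK _ => hK⟩) hi
    rw [← h4]
    exact g3 _
  · rintro rfl
    rw [List.toFinset_nil] at h2
    subst h2
    exact absurd hH Finset.not_nonempty_empty

end Pool.Agent.HS38.GT
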