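import Pool.Agent.HS38.GT.Class

/-!
# The statements of the main theorem
-/

set_option autoImplicit false

namespace Pool.Agent.HS38.GT

open MvPolynomial Pool.Agent.Helper1x.EQ Pool.Agent.H20VP

section

variable (F : Type) {V : Type} (A : Type) [Field F] [Fintype V] [DecidableEq V] [Fintype A] [DecidableEq A]
  (H : Finset (Finset V))

/-- The gauge substitutions are symmetries of the partition function `Z F A H`; generic ones exist over infinite fields and
free ones exist in characteristic zero. -/
def GaugeSymmetries : Prop :=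
  (∀ c ∈ gauges F A H, scale c (Z F A H) = Z F A H) ∧
  (Infinite F → ∃ t : Finset V → V → A → Fˣ, Generic4 H t) ∧
  (CharZero F → ∃ t : Finset V → V → A → Fˣ, FreeGauge H t)

/-- Circuits have size about `q ^ cwidth H`: there is a symmetric circuit of this size for the partition function, and
`q ^ cwidth H` multiplications are necessary in the symmetric circuits for all polynomials which contain its monomials, also
if the symmetry is only under the elementary gauge substitutions with one number `s ≠ 1` (for example changes of signs). -/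
def CircuitBounds : Prop :=
  (∃ Q : Circuit F (V → Option A), Q.FanInTwo ∧
    Q.size ≤ 2 * (H.card - 1) * Fintype.card A ^ cwidth H + 2 * ∑ K ∈ H, Fintype.card A ^ K.card ∧
    GradedCircuit H Q (Z F A H) ∧ HomCircuit (gauges F A H) Q (Z F A H)) ∧
  ∀ (f : MvPolynomial (V → Option A) F) (Q : Circuit F (V → Option A)), Contains H f →
    (Symmetric H Q f ∨ ∃ s : Fˣ, s ≠ 1 ∧ HomCircuit (elementary A H s) Q f) → Fintype.card A ^ cwidth H ≤ muls Q

/-- Weakly skew circuits have size about `q ^ lwidth H`: there is a symmetric weakly skew circuit of this size for the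
partition function, and symmetric weakly skew circuits for polynomials which contain its monomials have at least about this
size. Under the elementary gauge substitutions with one number `s ≠ 1` they have size at least `(q - 1) ^ lwidth H / |H|`. -/
def WeaklySkewBounds : Prop :=
  (∃ Q : Circuit F (V → Option A), Q.FanInTwo ∧ Q.WeaklySkew ∧
    Q.size ≤ 4 * (∑ K ∈ H, Fintype.card A ^ K.card) * Fintype.card A ^ lwidth H ∧
    GradedCircuit H Q (Z F A H) ∧ HomCircuit (gauges F A H) Q (Z F A H)) ∧
  (CutGe H 1 → (3 ≤ Fintype.card A ∨ CutGe H 2) →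
    ∀ (f : MvPolynomial (V → Option A) F) (Q : Circuit F (V → Option A)), Contains H f → Q.WeaklySkew →
      Symmetric H Q f →
      Fintype.card A ^ lwidth H ≤ (Q.size + 1) ^ 2 ∧ (constantCoeff f = 0 → Fintype.card A ^ lwidth H ≤ Q.size + 1)) ∧
  ∀ (s : Fˣ) (Q : Circuit F (V → Option A)), s ≠ 1 → Q.WeaklySkew → HomCircuit (elementary A H s) Q (Z F A H) →
    (Fintype.card A - 1) ^ lwidth H ≤ H.card * (Q.size + 1)

/-- Determinants have size about `q ^ lwidth H`: there is a determinantal representation of this size of the partition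
function which is equivariant under all gauge substitutions, and for polynomials which contain its monomials the equivariance
under one generic gauge substitution forces about this size, also for entries of higher degree. Under the elementary gauge
substitutions with one number `s ≠ 1` the size is at least `(q - 1) ^ lwidth H / |H|`. -/
def DeterminantBounds : Prop :=
  (∃ m : ℕ, m ≤ (H.card - 1) * Fintype.card A ^ lwidth H + 1 ∧
    ∃ M : Matrix (Fin m) (Fin m) (MvPolynomial (V → Option A) F), IsDetRep M (Z F A H) ∧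
      ∀ c ∈ gauges F A H, Strict2 c M) ∧
  (CutGe H 1 → (3 ≤ Fintype.card A ∨ CutGe H 2) →
    ∀ (k d m : ℕ) (f : MvPolynomial (V → Option A) F) (M : Matrix (Fin m) (Fin m) (MvPolynomial (V → Option A) F))
      (t : Finset V → V → A → Fˣ), Contains H f → (∀ K ∈ H, K.card ≤ k) → (∀ i j, (M i j).totalDegree ≤ d + 1) →
      M.det = f → Generic4 H t → Equivariant (HS38.GT.gauge t) M →
      Fintype.card A ^ (lwidth H - k * d) ≤ m ^ 2 ∧
        (constantCoeff f = 0 → Fintype.card A ^ (lwidth H - k * d) ≤ m)) ∧
  ∀ (s : Fˣ) (m : ℕ) (M : Matrix (Fin m) (Fin m) (MvPolynomial (V → Option A) F)), s ≠ 1 → IsDetRep M (Z F A H) →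
    (∀ c ∈ elementary A H s, Strict2 c M) → (Fintype.card A - 1) ^ lwidth H ≤ H.card * m

end

section

variable {F V A : Type} [Field F] [Fintype V] [DecidableEq V] [Fintype A] [DecidableEq A] {H : Finset (Finset V)}

theorem gaugeSymmetries : GaugeSymmetries F A H :=
  ⟨fun c hc => scale_Z hc, fun _ => t_GEN4 F V A H, fun _ => exists_free⟩

theorem circuitBounds (hC : S_CUP3) (h2 : 2 ≤ H.card) (hH : ∀ i, ∃ K ∈ H, i ∈ K) (hA : 2 ≤ Fintype.card A) :
    CircuitBounds F A H := by
  have hne : H.Nonempty := Finset.card_pos.1 (by omega)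
  have : Nonempty A := Fintype.card_pos_iff.1 (by omega)
  refine ⟨up_circuit3 hC hne hH, ?_⟩
  rintro f Q hf (hQ | ⟨s, hs, hQ⟩)
  · exact low_circuit_sym h2 hH hf hQ
  · exact low_circuit h2 hH (Or.inr ⟨s, hs, rfl⟩) hf hQ

theorem weaklySkewBounds (hL : S_LSK3) (hne : H.Nonempty) (hH : ∀ i, ∃ K ∈ H, i ∈ K) (hA : 2 ≤ Fintype.card A) :
    WeaklySkewBounds F A H := by
  have : Nonempty A := Fintype.card_pos_iff.1 (by omega)
  refine ⟨up_ws3 hL hne hH, ?_, ?_⟩
  · intro h1 hq f Q hf hws hQ
    exact low_ws_sym hne hH h1 hA hq hf hws hQ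
  · intro s Q hs hws hQ
    exact low_ws_elem hne hH hA hs hws hQ

theorem determinantBounds (hne : H.Nonempty) (hH : ∀ i, ∃ K ∈ H, i ∈ K) (hA : 2 ≤ Fintype.card A) :
    DeterminantBounds F A H := by
  have : Nonempty A := Fintype.card_pos_iff.1 (by omega)
  refine ⟨up_det hne hH, ?_, ?_⟩
  · intro h1 hq k d m f M t hf hk hdeg hdet ht hEq
    exact low_det hne hH h1 hA hq ht hf hk hdeg hdet hEq
  · intro s m M hs hM hEq
    exact low_det_elem hne hH hA hs hM hEq

end

section

variable (F A : Type) [Field F] [Fintype A] [DecidableEq A] {V : ℕ → Type} [∀ n, Fintype (V n)] [∀ n, DecidableEq (V n)]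
  (H : ∀ n, Finset (Finset (V n)))

/-- The classification of a sequence of networks: the partition functions have symmetric circuits of polynomial size if and
only if `q ^ cwidth` is polynomially bounded; they have symmetric weakly skew circuits of polynomial size if and only if
`q ^ lwidth` is polynomially bounded; and the same holds for determinantal representations which are equivariant under one
generic gauge substitution. -/
def Classified : Prop :=
  ((∃ c, ∀ n, ∃ Q : Circuit F (V n → Option A), Symmetric (H n) Q (Z F A (H n)) ∧ Q.size ≤ n ^ c + c) ↔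
    PolyBounded fun n => Fintype.card A ^ cwidth (H n)) ∧
  ((∃ c, ∀ n, ∃ Q : Circuit F (V n → Option A), Q.WeaklySkew ∧ Symmetric (H n) Q (Z F A (H n)) ∧ Q.size ≤ n ^ c + c) ↔
    PolyBounded fun n => Fintype.card A ^ lwidth (H n)) ∧
  ∀ t : ∀ n, Finset (V n) → V n → A → Fˣ, (∀ n, Generic4 (H n) (t n)) →
    ((∃ c, ∀ n, ∃ m ≤ n ^ c + c, ∃ M : Matrix (Fin m) (Fin m) (MvPolynomial (V n → Option A) F),
      IsDetRep M (Z F A (H n)) ∧ Equivariant (HS38.GT.gauge (t n)) M) ↔
      PolyBounded fun n => Fintype.card A ^ lwidth (H n))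

end

/-- `net n` has `8 n ^ 3` binary constraints, is connected after the removal of any variable, and has the contraction width at
most `3 log₂ n` and the linear width at least about `(log₂ n) ^ 2 / 2`. -/
def NetWidths (n : ℕ) : Prop :=
  2 ≤ (net n).card ∧ (net n).card ≤ 8 * n ^ 3 ∧ (∀ K ∈ net n, K.card = 2) ∧ (∀ i, ∃ K ∈ net n, i ∈ K) ∧
    CutGe (net n) 2 ∧ cwidth (net n) ≤ 3 * Nat.log 2 n ∧ Nat.log 2 n * ((Nat.log 2 n + 1) / 2) ≤ lwidth (net n)

/-- The partition function of `net n` has polynomial degree and number of variables and symmetric circuits of polynomial size,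
but its symmetric weakly skew circuits and its determinantal representations equivariant under a generic gauge substitution
have size `n ^ Ω(log n)`. -/
def NetSeparation (F A : Type) [Field F] [Fintype A] [DecidableEq A] (n : ℕ) : Prop :=
  (Z F A (net n)).totalDegree ≤ 8 * n ^ 3 ∧ (Z F A (net n)).vars.card ≤ 8 * n ^ 3 * Fintype.card A ^ 2 ∧
  (∃ Q : Circuit F (TV (Nat.log 2 n) (Nat.log 2 n) → Option A), Q.FanInTwo ∧
    Q.size ≤ 32 * n ^ (3 * Nat.clog 2 (Fintype.card A) + 3) ∧
    GradedCircuit (net n) Q (Z F A (net n)) ∧ HomCircuit (gauges F A (net n)) Q (Z F A (net n))) ∧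
  (∀ Q : Circuit F (TV (Nat.log 2 n) (Nat.log 2 n) → Option A), Q.WeaklySkew → Symmetric (net n) Q (Z F A (net n)) →
    Fintype.card A ^ (Nat.log 2 n * ((Nat.log 2 n + 1) / 2)) ≤ Q.size + 1) ∧
  ∀ (m : ℕ) (M : Matrix (Fin m) (Fin m) (MvPolynomial (TV (Nat.log 2 n) (Nat.log 2 n) → Option A) F))
    (t : Finset (TV (Nat.log 2 n) (Nat.log 2 n)) → TV (Nat.log 2 n) (Nat.log 2 n) → A → Fˣ),
    IsDetRep M (Z F A (net n)) → Generic4 (net n) t → Equivariant (HS38.GT.gauge t) M →
    Fintype.card A ^ (Nat.log 2 n * ((Nat.log 2 n + 1) / 2)) ≤ m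

theorem netWidths {n : ℕ} (hn : 4 ≤ n) : NetWidths n := by
  obtain ⟨h1, h2, h3, h4, h5, h6⟩ := net_props hn
  exact ⟨h1, net_card hn, h4, h3, h2, h5, h6⟩

theorem netSeparation (hC : S_CUP3) {F A : Type} [Field F] [Fintype A] [DecidableEq A] {n : ℕ}
    (hA : 2 ≤ Fintype.card A) (hn : 4 ≤ n) : NetSeparation F A n := by
  obtain ⟨h1, h2, h3, h4, h5, h6⟩ := net_props hn
  have hne : (net n).Nonempty := Finset.card_pos.1 (by omega)
  have : Nonempty A := Fintype.card_pos_iff.1 (by omega)
  have hz := t_ZDG F (TV (Nat.log 2 n) (Nat.log 2 n)) A (net n)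
  have h7 : CutGe (net n) 1 := fun U hU hUn hUne => le_trans (by norm_num) (h2 U hU hUn hUne)
  refine ⟨hz.1.trans (net_card hn), ?_, ?_, ?_, ?_⟩
  · refine hz.2.trans ?_
    rw [net_sum hn]
    exact Nat.mul_le_mul_right _ (net_card hn)
  · obtain ⟨Q, h8, h9, h10⟩ := up_circuit3 (F := F) (A := A) hC hne h3
    exact ⟨Q, h8, h9.trans (net_size hn hA), h10⟩
  · intro Q hws hQ
    refine le_trans (Nat.pow_le_pow_right (by omega) h6) ?_
    exact (low_ws_sym hne h3 h7 hA (Or.inr h2) (contains_Z h3) hws hQ).2 (constantCoeff_Z F hne)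
  · intro m M t hM ht hEq
    refine le_trans (Nat.pow_le_pow_right (by omega) h6) ?_
    have h8 := (low_det hne h3 h7 hA (Or.inr h2) ht (contains_Z h3) (k := 2) (d := 0) (M := M)
      (fun K hK => (h4 K hK).le) (by simpa using hM.1) hM.2 hEq).2 (constantCoeff_Z F hne)
    simpa using h8

end Pool.Agent.HS38.GT
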