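import Pool.Agent.HS38.GT.Stm4
import Pool.Agent.HS38.GT.RegLow
import Pool.Agent.HS38.GT.ChainD

/-!
# Piece PERM of project GT, part 4 (helper99)
-/

set_option autoImplicit false

namespace Pool.Agent.HS38.GT

open MvPolynomial Finset Pool.Agent.Helper1x.EQ

namespace PERM

theorem split_two {X : Type*} [DecidableEq X] {S : Finset X} {p q : X →₀ ℕ} (h : p + q = mono S) :
    ∃ S₁ S₂ : Finset X, p = mono S₁ ∧ q = mono S₂ ∧ Disjoint S₁ S₂ ∧ S₁ ∪ S₂ = S := by
  obtain ⟨-, -, hq⟩ := mono_split h
  have h' : q + p = mono S := by rw [add_comm]; exact h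
  obtain ⟨-, -, hp⟩ := mono_split h'
  set S₁ := S \ q.support
  set S₂ := S \ p.support
  have h1 : ∀ x, (if x ∈ S₁ then 1 else 0) + (if x ∈ S₂ then 1 else 0) = if x ∈ S then 1 else 0 := by
    intro x
    rw [← mono_apply, ← mono_apply, ← mono_apply, ← hp, ← hq, ← Finsupp.add_apply, h]
  refine ⟨S₁, S₂, hp, hq, ?_, ?_⟩
  · rw [Finset.disjoint_left]
    intro x hx1 hx2
    have := h1 x
    rw [if_pos hx1, if_pos hx2] at this
    split_ifs at this <;> omega
  · ext x
    rw [Finset.mem_union]
    have := h1 x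
    by_cases hx1 : x ∈ S₁ <;> by_cases hx2 : x ∈ S₂ <;> by_cases hx : x ∈ S <;> simp_all

theorem split_prod {F : Type*} [Field F] {X ι : Type*} [DecidableEq X] [DecidableEq ι]
    (f : ι → MvPolynomial X F) (s : Finset ι) :
    ∀ S : Finset X, coeff (mono S) (∏ l ∈ s, f l) ≠ 0 →
      ∃ T : ι → Finset X, (∀ l ∈ s, coeff (mono (T l)) (f l) ≠ 0) ∧
        (∀ l ∈ s, ∀ l' ∈ s, l ≠ l' → Disjoint (T l) (T l')) ∧ (∀ l ∈ s, T l ⊆ S) ∧
        ∀ x ∈ S, ∃ l ∈ s, x ∈ T l := by
  induction s using Finset.induction_on with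
  | empty =>
    intro S hS
    rw [Finset.prod_empty, coeff_one] at hS
    have h1 : (0 : X →₀ ℕ) = mono S := by
      by_contra hne
      rw [if_neg hne] at hS
      exact hS rfl
    have hSe : S = ∅ := by
      rw [Finset.eq_empty_iff_forall_notMem]
      intro x hx
      have := DFunLike.congr_fun h1 x
      rw [mono_apply, if_pos hx] at this
      simp at this
    refine ⟨fun _ => ∅, by simp, by simp, by simp, ?_⟩
    rw [hSe]; simp
  | insert l s hl ih =>
    intro S hS
    rw [Finset.prod_insert hl, coeff_mul] at hS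
    obtain ⟨⟨p, q⟩, hpq, hne⟩ := Finset.exists_ne_zero_of_sum_ne_zero hS
    rw [Finset.HasAntidiagonal.mem_antidiagonal] at hpq
    replace hpq : p + q = mono S := hpq
    obtain ⟨S₁, S₂, hp, hq, hdis, hun⟩ := split_two hpq
    have hne1 : coeff p (f l) ≠ 0 := left_ne_zero_of_mul hne
    have hne2 : coeff q (∏ l ∈ s, f l) ≠ 0 := right_ne_zero_of_mul hne
    rw [hp] at hne1
    rw [hq] at hne2
    obtain ⟨T, hT1, hT2, hT3, hT4⟩ := ih S₂ hne2
    have hne' : ∀ m ∈ s, m ≠ l := fun m hm h => hl (h ▸ hm)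
    refine ⟨fun m => if m = l then S₁ else T m, ?_, ?_, ?_, ?_⟩
    · intro m hm
      rcases Finset.mem_insert.1 hm with rfl | hm
      · simpa using hne1
      · simpa [hne' m hm] using hT1 m hm
    · intro m hm m' hm' hmm
      by_cases h1 : m = l
      · have h2 : m' ≠ l := fun h => hmm (h1.trans h.symm)
        have h3 : m' ∈ s := (Finset.mem_insert.1 hm').resolve_left h2
        simp only [h1, if_true, h2, if_false]
        exact Finset.disjoint_of_subset_right (hT3 m' h3) hdis
      · have h3 : m ∈ s := (Finset.mem_insert.1 hm).resolve_left h1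
        by_cases h2 : m' = l
        · simp only [h2, if_true, h1, if_false]
          exact (Finset.disjoint_of_subset_right (hT3 m h3) hdis).symm
        · have h4 : m' ∈ s := (Finset.mem_insert.1 hm').resolve_left h2
          simp only [h1, h2, if_false]
          exact hT2 m h3 m' h4 hmm
    · intro m hm
      rcases Finset.mem_insert.1 hm with rfl | hm
      · simp only [if_true]
        rw [← hun]; exact Finset.subset_union_left
      · simp only [hne' m hm, if_false]
        rw [← hun]; exact (hT3 m hm).trans Finset.subset_union_right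
    · intro x hx
      rw [← hun, Finset.mem_union] at hx
      rcases hx with hx | hx
      · exact ⟨l, Finset.mem_insert_self _ _, by simpa using hx⟩
      · obtain ⟨m, hm, hxm⟩ := hT4 x hx
        exact ⟨m, Finset.mem_insert_of_mem hm, by simpa [hne' m hm] using hxm⟩

end PERM

open PERM in
theorem t_PERM : S_PERM := by
  intro F _ V A _ _ _ _ ι _ _ H hH N κ hκ hdet a
  have h1 : coeff (mono (H.image fun K => restr K a)) N.det ≠ 0 := by
    rw [hdet, coeff_C_mul, coeff_ZH hH a, mul_one]
    exact hκ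
  rw [Matrix.det_apply, coeff_sum] at h1
  obtain ⟨σ₀, -, h2⟩ := Finset.exists_ne_zero_of_sum_ne_zero h1
  have h3 : coeff (mono (H.image fun K => restr K a)) (∏ i, N (σ₀ i) i) ≠ 0 := by
    intro h0
    apply h2
    rw [Units.smul_def, zsmul_eq_mul]
    rcases Int.units_eq_one_or (Equiv.Perm.sign σ₀) with h4 | h4 <;> rw [h4] <;> simp [h0]
  obtain ⟨T, hT1, hT2, hT3, hT4⟩ := split_prod (fun i => N (σ₀ i) i) univ _ h3
  refine ⟨σ₀.symm, fun l => H.filter fun K => restr K a ∈ T (σ₀.symm l),
    fun l => Finset.filter_subset _ _, ?_, ?_, ?_⟩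
  · intro l l' hll
    rw [Finset.disjoint_left]
    intro K hK hK'
    have h4 := hT2 (σ₀.symm l) (Finset.mem_univ _) (σ₀.symm l') (Finset.mem_univ _)
      (fun h => hll (σ₀.symm.injective h))
    exact Finset.disjoint_left.1 h4 (Finset.mem_filter.1 hK).2 (Finset.mem_filter.1 hK').2
  · intro K hK
    obtain ⟨i, -, hi⟩ := hT4 (restr K a) (Finset.mem_image_of_mem _ hK)
    exact ⟨σ₀ i, Finset.mem_filter.2 ⟨hK, by simpa using hi⟩⟩
  · intro l
    have h4 : ((H.filter fun K => restr K a ∈ T (σ₀.symm l)).image fun K => restr K a) =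
        T (σ₀.symm l) := by
      ext x
      rw [Finset.mem_image]
      constructor
      · rintro ⟨K, hK, rfl⟩
        exact (Finset.mem_filter.1 hK).2
      · intro hx
        obtain ⟨K, hK, rfl⟩ := Finset.mem_image.1 (hT3 _ (Finset.mem_univ _) hx)
        exact ⟨K, Finset.mem_filter.2 ⟨hK, hx⟩, rfl⟩
    rw [h4]
    have h5 := hT1 (σ₀.symm l) (Finset.mem_univ _)
    simpa using h5

end Pool.Agent.HS38.GT
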