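import Pool.Agent.HS38.GT.Final5
import Pool.Agent.HS38.GT.GEN2

/-!
# Circuits whose nodes are permuted by a gauge symmetry
-/

set_option autoImplicit false

namespace Pool.Agent.HS38.GT

open MvPolynomial Finset Pool.Agent.Helper1x.EQ Pool.Agent.H20VP

/-- There are no multiplicative relations between the numbers `t K i α`, `K ∈ H`, `i ∈ K`, besides the consequences of
`IsGauge`. -/
def FreeGauge {F V A : Type} [Field F] [Fintype V] [DecidableEq V] [Fintype A] [DecidableEq A] (H : Finset (Finset V))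
    (t : Finset V → V → A → Fˣ) : Prop :=
  IsGauge H t ∧
    ∀ e : Finset V → V → A → ℤ, ∏ K ∈ H, ∏ i ∈ K, ∏ α, t K i α ^ e K i α = 1 →
      ∀ i, ∀ α, ∀ K ∈ H, i ∈ K → ∀ K' ∈ H, i ∈ K' → e K i α = e K' i α

/-- the circuit computes `f`, and the substitution `x ↦ c x` permutes the polynomials at the nodes up to scalars: it maps
each of them to a scalar multiple of one of them -/
def PermCircuit {K X : Type} [Field K] (c : X → K) (Q : Circuit K X) (f : MvPolynomial X K) : Prop :=
  ∃ φ : Q.N → MvPolynomial X K, (∀ n, φ n = (Q.gate n).value φ) ∧ φ Q.out = f ∧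
    ∀ n, ∃ (n' : Q.N) (b : K), scale c (φ n) = C b * φ n'

/-- the symmetric circuits for `f`: the polynomials at the nodes are eigenvectors of a generic gauge symmetry, or they are
permuted up to scalars by a free gauge symmetry -/
def SymCircuit {F V A : Type} [Field F] [Fintype V] [DecidableEq V] [Fintype A] [DecidableEq A] (H : Finset (Finset V))
    (Q : Circuit F (V → Option A)) (f : MvPolynomial (V → Option A) F) : Prop :=
  (∃ t : Finset V → V → A → Fˣ, Generic4 H t ∧ HomCircuit {HS38.GT.gauge t} Q f) ∨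
    ∃ t : Finset V → V → A → Fˣ, FreeGauge H t ∧ PermCircuit (HS38.GT.gauge t) Q f

namespace PermC

theorem pigeon {F X N : Type} [Field F] [Finite N] (c : X → F) (hc : ∀ x, c x ≠ 0) (φ : N → MvPolynomial X F)
    (hφ : ∀ n, ∃ (n' : N) (b : F), scale c (φ n) = C b * φ n') (n₀ : N) :
    ∃ r : ℕ, 1 ≤ r ∧ ∀ u ∈ (φ n₀).support, ∀ u' ∈ (φ n₀).support,
      (u.prod fun x n => c x ^ n) ^ r = (u'.prod fun x n => c x ^ n) ^ r := by
  obtain ⟨w, hw⟩ : ∃ w : (X →₀ ℕ) → F, w = fun u => u.prod fun x n => c x ^ n := ⟨_, rfl⟩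
  have hw0 : ∀ u, w u ≠ 0 := by
    intro u
    rw [hw]
    exact Finset.prod_ne_zero_iff.2 fun x _ => pow_ne_zero _ (hc x)
  set p := φ n₀ with hp
  have hn : ∀ n : ℕ, ∃ q : N, ∃ b : F, ∀ u, w u ^ n * coeff u p = b * coeff u (φ q) := by
    intro n
    induction n with
    | zero => exact ⟨n₀, 1, fun u => by rw [pow_zero]⟩
    | succ n ih =>
      obtain ⟨q, b, h⟩ := ih
      obtain ⟨q', b', h'⟩ := hφ q
      refine ⟨q', b * b', fun u => ?_⟩
      have h1 := congrArg (coeff u) h'
      rw [Helper1x.EQ.coeff_scale, coeff_C_mul] at h1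
      have h2 : w u * coeff u (φ q) = b' * coeff u (φ q') := by
        rw [hw]
        exact h1
      have h3 := h u
      calc w u ^ (n + 1) * coeff u p = w u * (w u ^ n * coeff u p) := by ring
        _ = b * (w u * coeff u (φ q)) := by rw [h3]; ring
        _ = b * b' * coeff u (φ q') := by rw [h2]; ring
  choose q b hqb using hn
  obtain ⟨n, n', hne, heq⟩ := Finite.exists_ne_map_eq_of_infinite q
  have key : ∀ n n' : ℕ, n < n' → q n = q n' → ∃ N : ℕ, 1 ≤ N ∧ ∀ u ∈ p.support, ∀ u' ∈ p.support,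
      w u ^ N = w u' ^ N := by
    intro n n' hlt heq
    refine ⟨n' - n, by omega, ?_⟩
    have h1 : ∀ u ∈ p.support, b n ≠ 0 ∧ w u ^ (n' - n) * b n = b n' := by
      intro u hu
      have hu' : coeff u p ≠ 0 := mem_support_iff.1 hu
      have h2 := hqb n u
      have h3 := hqb n' u
      rw [← heq] at h3
      have h4 : w u ^ n * coeff u p ≠ 0 := mul_ne_zero (pow_ne_zero _ (hw0 u)) hu'
      rw [h2] at h4
      have h5 : b n ≠ 0 := left_ne_zero_of_mul h4
      have h6 : coeff u (φ (q n)) ≠ 0 := right_ne_zero_of_mul h4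
      refine ⟨h5, ?_⟩
      have h7 : w u ^ n' = w u ^ (n' - n) * w u ^ n := by rw [← pow_add]; congr 1; omega
      rw [h7, mul_assoc, h2, ← mul_assoc] at h3
      exact mul_right_cancel₀ h6 h3
    intro u hu u' hu'
    obtain ⟨h2, h3⟩ := h1 u hu
    obtain ⟨_, h4⟩ := h1 u' hu'
    exact mul_right_cancel₀ h2 (h3.trans h4.symm)
  rw [hw] at key
  rcases lt_or_gt_of_ne hne with h | h
  · exact key n n' h heq
  · exact key n' n h heq.symm

/-- eigenvectors from equal weights -/
theorem eig_of {F X : Type} [Field F] (c : X → F) (p : MvPolynomial X F)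
    (h : ∀ u ∈ p.support, ∀ u' ∈ p.support, (u.prod fun x n => c x ^ n) = (u'.prod fun x n => c x ^ n)) : Eig c p := by
  by_cases hp : p = 0
  · exact ⟨0, by rw [hp, map_zero, mul_zero]⟩
  obtain ⟨u₀, hu₀⟩ := MvPolynomial.support_nonempty.2 hp
  refine ⟨u₀.prod fun x n => c x ^ n, ?_⟩
  ext u
  rw [Helper1x.EQ.coeff_scale, coeff_C_mul]
  by_cases hu : u ∈ p.support
  · rw [h u hu u₀ hu₀]
  · rw [notMem_support_iff.1 hu, mul_zero, mul_zero]

end PermC

variable {F V A : Type} [Field F] [Fintype V] [DecidableEq V] [Fintype A] [DecidableEq A] {H : Finset (Finset V)}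

theorem FreeGauge.pow {t : Finset V → V → A → Fˣ} (h : FreeGauge H t) {r : ℕ} (hr : 1 ≤ r) :
    Generic4 H fun K i α => t K i α ^ r := by
  refine ⟨fun i α => ?_, fun e _ he => ?_⟩
  · rw [Finset.prod_pow, h.1 i α, one_pow]
  · have h1 := h.2 (fun K i α => (r : ℤ) * e K i α) (by
      rw [← he]
      refine Finset.prod_congr rfl fun K _ => Finset.prod_congr rfl fun i _ => Finset.prod_congr rfl fun α _ => ?_
      rw [_root_.zpow_mul, zpow_natCast])
    intro i α K hK hi K' hK' hi'
    have h2 := h1 i α K hK hi K' hK' hi'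
    exact mul_left_cancel₀ (by omega) h2

theorem gauge_pow (t : Finset V → V → A → Fˣ) (r : ℕ) (β : V → Option A) :
    HS38.GT.gauge (fun K i α => t K i α ^ r) β = HS38.GT.gauge t β ^ r := by
  unfold HS38.GT.gauge
  rw [← Units.val_pow_eq_pow_val, ← Finset.prod_pow]
  congr 1
  refine Finset.prod_congr rfl fun i _ => ?_
  cases β i <;> simp

/-- a symmetric circuit has eigenvectors at its nodes -/
theorem SymCircuit.hom {Q : Circuit F (V → Option A)} {f : MvPolynomial (V → Option A) F} (h : SymCircuit H Q f) :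
    ∃ t : Finset V → V → A → Fˣ, Generic4 H t ∧ HomCircuit {HS38.GT.gauge t} Q f := by
  rcases h with h | ⟨t, ht, φ, h1, h2, h3⟩
  · exact h
  have hfin : Finite Q.N := @Finite.of_fintype _ Q.fin
  have hc : ∀ x, HS38.GT.gauge t x ≠ 0 := fun x => Units.ne_zero _
  choose r hr1 hr2 using fun n => PermC.pigeon (HS38.GT.gauge t) hc φ h3 n
  let _ : Fintype Q.N := Q.fin
  set R := ∏ n : Q.N, r n with hR
  have hR1 : 1 ≤ R := Nat.one_le_iff_ne_zero.2 (Finset.prod_ne_zero_iff.2 fun n _ => by have := hr1 n; omega)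
  refine ⟨fun K i α => t K i α ^ R, ht.pow hR1, φ, h1, h2, ?_⟩
  intro c hcT n
  rw [Set.mem_singleton_iff] at hcT
  rw [hcT]
  apply PermC.eig_of
  intro u hu u' hu'
  have h4 : ∀ v : (V → Option A) →₀ ℕ, (v.prod fun x n => HS38.GT.gauge (fun K i α => t K i α ^ R) x ^ n) =
      ((v.prod fun x n => HS38.GT.gauge t x ^ n) ^ r n) ^ (R / r n) := by
    intro v
    have h5 : r n * (R / r n) = R := Nat.mul_div_cancel' (Finset.dvd_prod_of_mem _ (Finset.mem_univ n))
    rw [← pow_mul, h5, Finsupp.prod, Finsupp.prod, ← Finset.prod_pow]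
    refine Finset.prod_congr rfl fun x _ => ?_
    rw [gauge_pow, ← pow_mul, ← pow_mul, mul_comm]
  rw [h4, h4, hr2 n u hu u' hu']

open GEN2x in
/-- free gauge symmetries exist in characteristic zero -/
theorem exists_free [CharZero F] : ∃ t : Finset V → V → A → Fˣ, FreeGauge H t := by
  classical
  let q : Finset V × V × A → ℕ := fun j => Nat.nth Nat.Prime (Fintype.equivFin (Finset V × V × A) j)
  have hq : ∀ j, (q j).Prime := fun j => Nat.prime_nth_prime _
  have hinj : Function.Injective q := by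
    intro j j' h
    have h1 := Nat.nth_injective Nat.infinite_setOfPred_prime h
    exact (Fintype.equivFin _).injective (Fin.ext h1)
  let p : Finset V → V → A → Fˣ := fun K i α =>
    Units.mk0 (q (K, i, α) : F) (Nat.cast_ne_zero.2 (hq _).ne_zero)
  refine ⟨GenAux.mk H p, GenAux.isGauge_mk H p, fun e h1 => ?_⟩
  rw [GenAux.prod_all H p univ e] at h1
  let D : Finset V → V → A → ℤ := fun K i α => if K ∈ GenAux.R H i then e K i α - e (GenAux.k0 H i) i α else 0
  have h2 : ∏ i : V, ∏ α : A, ∏ K : Finset V, p K i α ^ D K i α = 1 := by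
    rw [← h1]
    refine Finset.prod_congr rfl fun i _ => Finset.prod_congr rfl fun α _ => ?_
    rw [← Finset.prod_subset (Finset.subset_univ (GenAux.R H i))]
    · refine Finset.prod_congr rfl fun K hK => ?_
      show p K i α ^ (if K ∈ GenAux.R H i then _ else _) = _
      rw [if_pos hK]
    · intro K _ hK
      show p K i α ^ (if K ∈ GenAux.R H i then _ else _) = 1
      rw [if_neg hK, zpow_zero]
  have h4 : ∏ j : Finset V × V × A, ((q j : F)) ^ (D j.1 j.2.1 j.2.2) = 1 := by
    rw [Fintype.prod_prod_type, Finset.prod_comm' (s := univ) (t := fun _ => univ) (t' := univ)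
      (s' := fun _ => univ) (by simp), Fintype.prod_prod_type]
    have h5 := congrArg (Units.val) h2
    rw [Units.val_one] at h5
    rw [← h5]
    simp only [Units.coe_prod, Units.val_zpow_eq_zpow_val]
    rfl
  have h6 := indep q hq hinj (fun j => D j.1 j.2.1 j.2.2) h4
  intro i α
  have key : ∀ K ∈ H, i ∈ K → e K i α = e (GenAux.k0 H i) i α := by
    intro K hK hi
    by_cases hk : K = GenAux.k0 H i
    · rw [← hk]
    · have hR : K ∈ GenAux.R H i := Finset.mem_erase.2 ⟨hk, GenAux.mem_S.2 ⟨hK, hi⟩⟩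
      have h7 : (if K ∈ GenAux.R H i then e K i α - e (GenAux.k0 H i) i α else 0) = 0 := h6 (K, i, α)
      rw [if_pos hR] at h7
      linarith
  intro K hK hi K' hK' hi'
  rw [key K hK hi, key K' hK' hi']

end Pool.Agent.HS38.GT
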