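import Pool.Agent.HS38.GT.Stm2

/-!
# Piece RAND of project GT: sparse graphs without large holes exist
-/

set_option autoImplicit false

namespace Pool.Agent.HS38.GT.RAND

open Finset
open scoped Classical

theorem exists_f {ε : ℝ} (hε : 0 < ε) (hε1 : ε < 1) {C₁ : ℕ} (hC : 4 * (1 - ε ^ 2) ^ C₁ < 1) {n : ℕ}
    (hn : 2 ≤ n) : ∃ f : Fin (C₁ * n) → Fin n × Fin n, ∀ X Y : Finset (Fin n), ε * n ≤ X.card →
      ε * n ≤ Y.card → ∃ j, (f j).1 ∈ X ∧ (f j).2 ∈ Y := by
  by_contra hcon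
  push Not at hcon
  set P : Finset (Finset (Fin n) × Finset (Fin n)) :=
    univ.filter fun p => ε * n ≤ p.1.card ∧ ε * n ≤ p.2.card with hP
  have hn0 : (0 : ℝ) < n := by positivity
  have hsq : (0 : ℝ) ≤ 1 - ε ^ 2 := by nlinarith
  have h1 : (univ : Finset (Fin (C₁ * n) → Fin n × Fin n)) ⊆
      P.biUnion fun p => Fintype.piFinset fun _ => (p.1 ×ˢ p.2)ᶜ := by
    intro f _
    obtain ⟨X, Y, hX, hY, h⟩ := hcon f
    rw [Finset.mem_biUnion]
    refine ⟨(X, Y), Finset.mem_filter.2 ⟨Finset.mem_univ _, hX, hY⟩, ?_⟩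
    rw [Fintype.mem_piFinset]
    intro j
    rw [Finset.mem_compl, Finset.mem_product]
    rintro ⟨h2, h3⟩
    exact h j h2 h3
  have h2 := (Finset.card_le_card h1).trans Finset.card_biUnion_le
  have h3 : ∀ p ∈ P, ((Fintype.piFinset fun _ : Fin (C₁ * n) => (p.1 ×ˢ p.2)ᶜ).card : ℝ) ≤
      ((1 - ε ^ 2) * (n : ℝ) ^ 2) ^ (C₁ * n) := by
    intro p hp
    rw [hP, Finset.mem_filter] at hp
    rw [Fintype.card_piFinset_const, Nat.cast_pow]
    apply pow_le_pow_left₀ (Nat.cast_nonneg _)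
    rw [Finset.card_compl, Finset.card_product, Fintype.card_prod, Fintype.card_fin,
      Nat.cast_sub (Nat.mul_le_mul ((Finset.card_le_univ _).trans (by simp))
        ((Finset.card_le_univ _).trans (by simp)))]
    push_cast
    have h4 : (ε * n) * (ε * n) ≤ (p.1.card : ℝ) * p.2.card :=
      mul_le_mul hp.2.1 hp.2.2 (by positivity) (Nat.cast_nonneg _)
    nlinarith
  have h4 : ((n : ℝ) ^ 2) ^ (C₁ * n) ≤ 4 ^ n * ((1 - ε ^ 2) * (n : ℝ) ^ 2) ^ (C₁ * n) := by
    have h5 : ((univ : Finset (Fin (C₁ * n) → Fin n × Fin n)).card : ℝ) = ((n : ℝ) ^ 2) ^ (C₁ * n) := by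
      rw [Finset.card_univ, Fintype.card_fun, Fintype.card_prod, Fintype.card_fin, Fintype.card_fin]
      push_cast
      rw [sq]
    rw [← h5]
    calc ((univ : Finset (Fin (C₁ * n) → Fin n × Fin n)).card : ℝ) ≤
        ∑ p ∈ P, ((Fintype.piFinset fun _ : Fin (C₁ * n) => (p.1 ×ˢ p.2)ᶜ).card : ℝ) := by
          exact_mod_cast h2
      _ ≤ ∑ p ∈ P, ((1 - ε ^ 2) * (n : ℝ) ^ 2) ^ (C₁ * n) := Finset.sum_le_sum h3
      _ = (P.card : ℝ) * ((1 - ε ^ 2) * (n : ℝ) ^ 2) ^ (C₁ * n) := by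
          rw [Finset.sum_const, nsmul_eq_mul]
      _ ≤ 4 ^ n * ((1 - ε ^ 2) * (n : ℝ) ^ 2) ^ (C₁ * n) := by
          apply mul_le_mul_of_nonneg_right _ (by positivity)
          have h6 : P.card ≤ 4 ^ n := by
            refine (Finset.card_le_univ P).trans ?_
            rw [Fintype.card_prod, Fintype.card_finset, Fintype.card_fin, ← pow_add, ← two_mul,
              pow_mul]
            norm_num
          exact_mod_cast h6
  have h5 : (0 : ℝ) < ((n : ℝ) ^ 2) ^ (C₁ * n) := by positivity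
  have h6 : (4 : ℝ) ^ n * ((1 - ε ^ 2) * (n : ℝ) ^ 2) ^ (C₁ * n) =
      (4 * (1 - ε ^ 2) ^ C₁) ^ n * ((n : ℝ) ^ 2) ^ (C₁ * n) := by
    rw [mul_pow ((1 : ℝ) - ε ^ 2), mul_pow (4 : ℝ), ← pow_mul (1 - ε ^ 2)]
    ring
  rw [h6] at h4
  have h7 : (4 * (1 - ε ^ 2) ^ C₁) ^ n < 1 :=
    pow_lt_one₀ (by positivity) hC (by omega)
  have h8 := mul_lt_mul_of_pos_right h7 h5
  rw [one_mul] at h8
  exact absurd h4 (not_le.2 h8)

end Pool.Agent.HS38.GT.RAND

namespace Pool.Agent.HS38.GT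

open Finset RAND
open scoped Classical

theorem t_RAND : S_RAND := by
  intro ε hε hε1
  obtain ⟨C₁, hC₁⟩ := exists_pow_lt_of_lt_one (show (0 : ℝ) < 1 / 4 by norm_num)
    (show 1 - ε ^ 2 < 1 by nlinarith)
  have hC : 4 * (1 - ε ^ 2) ^ C₁ < 1 := by linarith
  refine ⟨C₁ + 1, 2, fun n hn => ?_⟩
  obtain ⟨f, hf⟩ := exists_f hε hε1 hC hn
  have : NeZero n := ⟨by omega⟩
  have hs : ∀ i : Fin n, ∃ j : Fin n, j ≠ i := by
    intro i
    by_cases hi : i = 0
    · refine ⟨⟨1, by omega⟩, ?_⟩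
      rw [hi]
      intro h
      have := congrArg Fin.val h
      simp at this
    · exact ⟨0, fun h => hi h.symm⟩
  choose s hs using hs
  refine ⟨((univ : Finset (Fin (C₁ * n))).image fun j => ({(f j).1, (f j).2} : Finset (Fin n))).filter
    (fun K => K.card = 2) ∪ (univ : Finset (Fin n)).image fun i => ({i, s i} : Finset (Fin n)), ?_, ?_, ?_, ?_⟩
  · refine (Finset.card_union_le _ _).trans ?_
    have h1 := (Finset.card_filter_le ((univ : Finset (Fin (C₁ * n))).image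
      fun j => ({(f j).1, (f j).2} : Finset (Fin n))) (fun K => K.card = 2)).trans
      Finset.card_image_le
    have h2 : ((univ : Finset (Fin n)).image fun i => ({i, s i} : Finset (Fin n))).card ≤ _ :=
      Finset.card_image_le
    rw [Finset.card_univ, Fintype.card_fin] at h1 h2
    have h3 : (C₁ + 1) * n = C₁ * n + n := by ring
    rw [h3]
    exact Nat.add_le_add h1 h2
  · intro K hK
    rcases Finset.mem_union.1 hK with h | h
    · exact (Finset.mem_filter.1 h).2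
    · obtain ⟨i, _, rfl⟩ := Finset.mem_image.1 h
      exact Finset.card_pair (hs i).symm
  · intro i
    exact ⟨_, Finset.mem_union_right _ (Finset.mem_image_of_mem _ (Finset.mem_univ i)),
      Finset.mem_insert_self _ _⟩
  · intro X Y hd hX hY
    obtain ⟨j, h1, h2⟩ := hf X Y hX hY
    refine ⟨(f j).1, h1, (f j).2, h2, Finset.mem_union_left _ (Finset.mem_filter.2
      ⟨Finset.mem_image_of_mem _ (Finset.mem_univ j), Finset.card_pair fun h => ?_⟩)⟩
    exact Finset.disjoint_left.1 hd h1 (h ▸ h2)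

end Pool.Agent.HS38.GT
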