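import Pool.Agent.HS38.GT.Fam

/-!
# Two separating families: the square of a generic gauge symmetry, and the elementary gauge symmetries
-/

set_option autoImplicit false

namespace Pool.Agent.HS38.GT

open MvPolynomial Finset Pool.Agent.Helper1x.EQ

variable {V A : Type} [Fintype V] [DecidableEq V] [Fintype A] [DecidableEq A]

/-- the square of `t` -/
def sqg {F : Type} [Field F] (t : Finset V → V → A → Fˣ) : Finset V → V → A → Fˣ := fun K i α => t K i α * t K i α

omit [Fintype V] [Fintype A] [DecidableEq V] [DecidableEq A] in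
theorem wt_sqg {F : Type} [Field F] (t : Finset V → V → A → Fˣ) (U : Finset (Finset V)) (a : V → A) :
    wt (sqg t) U a = wt t U a ^ 2 := by
  unfold wt sqg
  simp only [Finset.prod_mul_distrib, sq]

omit [Fintype A] [DecidableEq A] in
theorem gauge_sqg {F : Type} [Field F] (t : Finset V → V → A → Fˣ) (β : V → Option A) :
    gauge (sqg t) β = gauge t β * gauge t β := by
  unfold gauge
  rw [← Units.val_mul, ← Finset.prod_mul_distrib]
  congr 1
  refine Finset.prod_congr rfl fun i _ => ?_
  cases h : β i with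
  | none => simp
  | some α => rfl

theorem sep_generic {F : Type} [Field F] {H : Finset (Finset V)} {o : A} {t : Finset V → V → A → Fˣ}
    (hg : Generic H o t) : Sep H univ o {sqg t} := by
  refine ⟨?_, ?_⟩
  · rintro t' rfl K i
    simp [sqg, hg.2.1]
  · intro U hU U' hU' a a' h i _ α hα K hK hi K' hK' hi'
    have h1 := h (sqg t) rfl
    rw [wt_sqg, wt_sqg] at h1
    have h2 := gen_pow hg hU hU' a a' h1 i α hα K hK hi K' hK' hi'
    constructor <;> intro h3 <;> omega

omit [Fintype A] in
theorem strict_sq {F : Type} [Field F] {ι : Type*} [Fintype ι] [DecidableEq ι] {t : Finset V → V → A → Fˣ}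
    {M : Matrix ι ι (MvPolynomial (V → Option A) F)} (h : Equivariant (gauge t) M) : Strict (gauge (sqg t)) M := by
  obtain ⟨B, C', hB, hC, h1⟩ := h.square
  refine ⟨B, C', hB, hC, ?_⟩
  have h2 : gauge (sqg t) = fun x => gauge t x * gauge t x := funext (gauge_sqg t)
  rw [h2]
  exact h1

/-- the elementary gauge symmetry: the variables of the partial assignments with scope `K` and value `α` at `i` are
multiplied by `s`, and those with scope `K'` and value `α` at `i` by `s⁻¹` -/
def elem {F : Type} [Field F] (s : Fˣ) (i : V) (α : A) (K K' : Finset V) : Finset V → V → A → Fˣ := fun L j β =>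
  if j = i ∧ β = α then (if L = K then s else 1) * (if L = K' then s⁻¹ else 1) else 1

omit [Fintype V] [Fintype A] in
theorem wt_elem {F : Type} [Field F] (s : Fˣ) {i : V} (α : A) {K K' : Finset V} (hi : i ∈ K) (hi' : i ∈ K')
    (U : Finset (Finset V)) (a : V → A) :
    wt (elem s i α K K') U a =
      (if K ∈ U ∧ a i = α then s else 1) * (if K' ∈ U ∧ a i = α then s⁻¹ else 1) := by
  unfold wt elem
  have h1 : ∀ L ∈ U, (∏ j ∈ L, if j = i ∧ a j = α then (if L = K then s else 1) * (if L = K' then s⁻¹ else 1) else 1) =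
      (if L = K ∧ a i = α then s else 1) * (if L = K' ∧ a i = α then s⁻¹ else 1) := by
    intro L _
    by_cases hiL : i ∈ L
    · rw [Finset.prod_eq_single i]
      · by_cases ha : a i = α <;> simp [ha]
      · intro j _ hj
        rw [if_neg]
        exact fun h => hj h.1
      · intro h
        exact absurd hiL h
    · rw [Finset.prod_eq_one]
      · have e1 : L ≠ K := by rintro rfl; exact hiL hi
        have e2 : L ≠ K' := by rintro rfl; exact hiL hi'
        simp [e1, e2]
      · intro j hj
        rw [if_neg]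
        rintro ⟨rfl, -⟩
        exact hiL hj
  rw [Finset.prod_congr rfl h1, Finset.prod_mul_distrib]
  by_cases ha : a i = α
  · simp only [ha, and_true]
    rw [Finset.prod_ite_eq' U K, Finset.prod_ite_eq' U K']
  · simp [ha]

omit [Fintype V] [Fintype A] in
theorem isGauge_elem {F : Type} [Field F] (s : Fˣ) {i : V} (α : A) {K K' : Finset V} {H : Finset (Finset V)}
    (hK : K ∈ H) (hK' : K' ∈ H) (hi : i ∈ K) (hi' : i ∈ K') : IsGauge H (elem (F := F) s i α K K') := by
  intro j β
  unfold elem
  by_cases h : j = i ∧ β = α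
  · obtain ⟨rfl, rfl⟩ := h
    simp only [and_self, if_true]
    rw [Finset.prod_mul_distrib, Finset.prod_ite_eq', Finset.prod_ite_eq',
      if_pos (Finset.mem_filter.2 ⟨hK, hi⟩), if_pos (Finset.mem_filter.2 ⟨hK', hi'⟩), mul_inv_cancel]
  · simp [h]

/-- the elementary gauge symmetries at the variables in `W` -/
def elems {F : Type} [Field F] (H : Finset (Finset V)) (W : Finset V) (o : A) (s : Fˣ) :
    Set (Finset V → V → A → Fˣ) :=
  {t | ∃ i ∈ W, ∃ α, α ≠ o ∧ ∃ K ∈ H, i ∈ K ∧ ∃ K' ∈ H, i ∈ K' ∧ t = elem s i α K K'}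

omit [Fintype V] [Fintype A] in
theorem sep_elems {F : Type} [Field F] (H : Finset (Finset V)) (W : Finset V) (o : A) {s : Fˣ} (hs : s ≠ 1) :
    Sep H W o (elems (F := F) H W o s) := by
  refine ⟨?_, ?_⟩
  · rintro t ⟨i, -, α, hα, K, -, -, K', -, -, rfl⟩ L j
    unfold elem
    rw [if_neg]
    rintro ⟨-, h⟩
    exact hα h.symm
  · intro U hU U' hU' a a' h i hiW α hα K hK hi K' hK' hi'
    have h1 := h (elem s i α K K') ⟨i, hiW, α, hα, K, hK, hi, K', hK', hi', rfl⟩
    rw [wt_elem s α hi hi', wt_elem s α hi hi'] at h1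
    have key : ∀ (P Q : Prop) [Decidable P] [Decidable Q],
        ((if P then (1 : ℤ) else 0) = (if Q then 1 else 0)) ↔ (if P then s else 1) * (if Q then s⁻¹ else 1) = 1 := by
      intro P Q _ _
      by_cases hP : P <;> by_cases hQ : Q <;> simp [hP, hQ, hs]
    unfold ex
    rw [key, key, h1]

end Pool.Agent.HS38.GT
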