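import Pool.Agent.HS38.GT.Stm2

/-!
# Project GT, part 3 (helper38): regular determinantal representations, the exact theorem for every constraint hypergraph

Files as in part 2: `Pool/Agent/HS38/GT/<Name>.lean` proves `theorem Pool.Agent.HS38.GT.t_<NAME> : S_<NAME>`.
-/

set_option autoImplicit false

namespace Pool.Agent.HS38.GT

open MvPolynomial Finset Pool.Agent.Helper1x.EQ

section

variable {V A : Type} [Fintype V] [DecidableEq V] [Fintype A] [DecidableEq A]

/-- There are no multiplicative relations with exponents of absolute value at most two between the numbers `t K i α`,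
`K ∈ H`, `i ∈ K`, besides the consequences of `IsGauge`. -/
def GenericF {F : Type} [Field F] (H : Finset (Finset V)) (t : Finset V → V → A → Fˣ) : Prop :=
  IsGauge H t ∧
    ∀ e : Finset V → V → A → ℤ, (∀ K i α, |e K i α| ≤ 2) →
      ∏ K ∈ H, ∏ i ∈ K, ∏ α, t K i α ^ e K i α = 1 →
      ∀ i, ∀ α, ∀ K ∈ H, i ∈ K → ∀ K' ∈ H, i ∈ K' → e K i α = e K' i α

/-- a regular representation: the constant part of the matrix has corank one -/
def Regular {K X ι : Type*} [Field K] [Fintype ι] [DecidableEq ι] (M : Matrix ι ι (MvPolynomial X K)) : Prop :=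
  (M.map MvPolynomial.constantCoeff).rank + 1 = Fintype.card ι

end

/-- GEN3 (as GEN1 (file `GEN1.lean`, `GenAux.lean`), without the value `o`). Proof. For every `i` choose a scope `K_i ∈ H` containing
`i` (if there is one). `t K i α = g ^ E K i α` with one unit `g` (`exists_unit`), super-increasing `E K i α` for `K ∈ H`, `i ∈ K`,
`K ≠ K_i` (powers of `9`), `E K_i i α = - ∑_{K ≠ K_i} E K i α`. -/
def S_GEN3 : Prop := ∀ (F : Type) [Field F] [Infinite F] (V A : Type) [Fintype V] [DecidableEq V] [Fintype A]
  [DecidableEq A] (H : Finset (Finset V)), ∃ t : Finset V → V → A → Fˣ, GenericF H t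

/-- LUP2 (as LUP, and the matrix is regular). Proof. The matrix of LUP has the constant part `diag (0, -1, …, -1)` (and `(0)` if
`D = 1`); `Matrix.rank_diagonal`. -/
def S_LUP2 : Prop := ∀ (F : Type) [Field F] (V A : Type) [Fintype V] [DecidableEq V] [Fintype A] [DecidableEq A]
  [Nonempty A] (H : Finset (Finset V)), H.Nonempty → (∀ i, ∃ K ∈ H, i ∈ K) →
  ∃ m : ℕ, m ≤ (H.card - 1) * Fintype.card A ^ lwidth H + 1 ∧
    ∃ M : Matrix (Fin m) (Fin m) (MvPolynomial (V → Option A) F),
      IsDetRep M (Z F A H) ∧ Regular M ∧ ∀ t : Finset V → V → A → Fˣ, IsGauge H t → Strict2 (gauge t) M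

end Pool.Agent.HS38.GT
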