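import Pool.Agent.HS38.GT.LLow
import Pool.Agent.HS38.GT.Stm3
import Pool.Agent.HS38.GT.SepFam

/-!
# Regular gauge equivariant determinantal representations: the exact lower bound
-/

set_option autoImplicit false

namespace Pool.Agent.HS38.GT

open Matrix Pool.Agent.Helper1x.EQ

section alg

variable {K ι X : Type*} [Field K] [Fintype ι] [DecidableEq ι]

theorem det_eq_zero_of_rank {L : Matrix ι ι K} (h : L.rank + 1 = Fintype.card ι) : L.det = 0 := by
  by_contra hcon
  have h1 : IsUnit L := (Matrix.isUnit_iff_isUnit_det _).2 (isUnit_iff_ne_zero.2 hcon)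
  have h2 := Matrix.rank_of_isUnit L h1
  omega

theorem adjugate_ne_zero_of_rank {L : Matrix ι ι K} (h : L.rank + 1 = Fintype.card ι) : L.adjugate ≠ 0 := by
  classical
  obtain ⟨T₁, T₂, D, hD⟩ := Matrix.Pivot.exists_list_transvec_mul_mul_list_transvec_eq_diagonal L
  set P := (T₁.map Matrix.TransvectionStruct.toMatrix).prod with hP
  set Q := (T₂.map Matrix.TransvectionStruct.toMatrix).prod with hQ
  have hPd : P.det = 1 := Matrix.TransvectionStruct.det_toMatrix_prod T₁
  have hQd : Q.det = 1 := Matrix.TransvectionStruct.det_toMatrix_prod T₂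
  have hPu : IsUnit P.det := by rw [hPd]; exact isUnit_one
  have hQu : IsUnit Q.det := by rw [hQd]; exact isUnit_one
  intro h0
  have h1 : (P * L * Q).adjugate = 0 := by
    rw [Matrix.adjugate_mul_distrib, Matrix.adjugate_mul_distrib, h0, Matrix.zero_mul, Matrix.mul_zero]
  rw [hD, Matrix.adjugate_diagonal] at h1
  have h2 : (Matrix.diagonal D).rank = L.rank := by
    rw [← hD, Matrix.rank_mul_eq_left_of_isUnit_det _ _ hQu, Matrix.rank_mul_eq_right_of_isUnit_det _ _ hPu]
  rw [Matrix.rank_diagonal] at h2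
  have h3 : ∃ i, D i = 0 := by
    by_contra hcon
    push Not at hcon
    have h4 : Fintype.card {i // D i ≠ 0} = Fintype.card ι := by
      rw [Fintype.card_subtype]
      rw [Finset.filter_true_of_mem (fun i _ => hcon i), Finset.card_univ]
    omega
  obtain ⟨i, hi⟩ := h3
  have h4 : ∀ j, j ≠ i → D j ≠ 0 := by
    intro j hj hj0
    have h5 : Fintype.card {i // D i ≠ 0} = (Finset.univ.filter fun i => D i ≠ 0).card := Fintype.card_subtype _
    have h6 : (Finset.univ.filter fun i => D i ≠ 0) ⊆ (Finset.univ.erase i).erase j := by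
      intro x hx
      rw [Finset.mem_filter] at hx
      rw [Finset.mem_erase, Finset.mem_erase]
      refine ⟨?_, ?_, Finset.mem_univ _⟩
      · rintro rfl; exact hx.2 hj0
      · rintro rfl; exact hx.2 hi
    have h7 := Finset.card_le_card h6
    rw [Finset.card_erase_of_mem (Finset.mem_erase.2 ⟨hj, Finset.mem_univ _⟩),
      Finset.card_erase_of_mem (Finset.mem_univ _), Finset.card_univ] at h7
    have h8 : 2 ≤ Fintype.card ι := by
      have := Finset.card_le_card (Finset.subset_univ ({i, j} : Finset ι))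
      rwa [Finset.card_pair (Ne.symm hj), Finset.card_univ] at this
    omega
  have h5 := congrFun (congrFun h1 i) i
  rw [Matrix.diagonal_apply_eq, Matrix.zero_apply] at h5
  rw [Finset.prod_eq_zero_iff] at h5
  obtain ⟨j, hj, hj0⟩ := h5
  exact h4 j (Finset.ne_of_mem_erase hj) hj0

theorem vecMul_aeval {B : Matrix ι ι K} {w : ι → K} {μ : K} (h : w ᵥ* B = μ • w) (p : Polynomial K) :
    w ᵥ* (Polynomial.aeval B p) = p.eval μ • w := by
  induction p using Polynomial.induction_on' with
  | add p q hp hq => rw [map_add, Matrix.vecMul_add, hp, hq, Polynomial.eval_add, add_smul]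
  | monomial n a =>
    have h1 : ∀ n : ℕ, w ᵥ* (B ^ n) = μ ^ n • w := by
      intro n
      induction n with
      | zero => simp
      | succ n ih =>
        rw [pow_succ, ← Matrix.vecMul_vecMul, ih, Matrix.smul_vecMul, h, smul_smul, pow_succ]
    rw [Polynomial.aeval_monomial, Polynomial.eval_monomial, Matrix.algebraMap_eq_diagonal]
    have h2 : (Matrix.diagonal (algebraMap K (ι → K) a) * B ^ n) = a • B ^ n := by
      ext i j
      rw [Matrix.diagonal_mul]
      simp
    rw [h2, Matrix.vecMul_smul, h1, smul_smul]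

theorem pow_intertwine {D A B : Matrix ι ι K} {χ μ : K} (h : D * A = χ • (A * B)) (r : ℕ) :
    (D - (χ * μ) • (1 : Matrix ι ι K)) ^ r * A = χ ^ r • (A * (B - μ • (1 : Matrix ι ι K)) ^ r) := by
  induction r with
  | zero => simp
  | succ r ih =>
    have h1 : (D - (χ * μ) • (1 : Matrix ι ι K)) * A = χ • (A * (B - μ • (1 : Matrix ι ι K))) := by
      rw [Matrix.sub_mul, h, Matrix.mul_sub, smul_sub, Matrix.smul_mul, Matrix.one_mul, Matrix.mul_smul, Matrix.mul_one,
        smul_smul]
    rw [pow_succ, Matrix.mul_assoc, h1, Matrix.mul_smul, ← Matrix.mul_assoc, ih, Matrix.smul_mul, smul_smul,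
      Matrix.mul_assoc, ← pow_succ, ← pow_succ']

variable [DecidableEq X]

/-- Descent for a regular matrix. -/
theorem chain_r {dd : ℕ} {N : Matrix ι ι (MvPolynomial X K)} (hdeg : ∀ i j, (N i j).totalDegree ≤ dd)
    (hreg : Regular N) {c : X → K} {B C : Matrix ι ι K} (hB : IsUnit B.det) (hC : IsUnit C.det)
    (hN : N.map (scale c) = B.map MvPolynomial.C * N * C.map MvPolynomial.C) {S₀ : Finset X}
    (hS₀ : MvPolynomial.coeff (mono S₀) N.det ≠ 0) (hcS₀ : ∏ x ∈ S₀, c x = 1) :
    ∃ μ : K, μ ≠ 0 ∧ ∀ S : Finset X, MvPolynomial.coeff (mono S) N.det ≠ 0 →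
      (∀ S' ⊆ S, S' ≠ S → MvPolynomial.coeff (mono S') N.det = 0) →
      (∀ S' ⊆ S, S'.Nonempty → S' ≠ S → ∏ x ∈ S', c x ≠ 1) →
      ∀ Good : Finset X → Prop, Good S → ¬ Good ∅ →
      ∃ S₁ S₂ : Finset X, S₁ ⊆ S₂ ∧ S₂ ⊆ S ∧ (S₂ \ S₁).card ≤ dd ∧ Good S₂ ∧ ¬ Good S₁ ∧
        ∃ y : ι → K, y ≠ 0 ∧ C⁻¹ *ᵥ y = (μ * ∏ x ∈ S₁, c x) • y := by
  classical
  set L : Matrix ι ι K := N.map (MvPolynomial.coeff 0) with hL
  have hLr : L.rank + 1 = Fintype.card ι := by
    have h1 : L = N.map MvPolynomial.constantCoeff := rfl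
    rw [h1]
    exact hreg
  have hLdet := det_eq_zero_of_rank hLr
  have hLadj := adjugate_ne_zero_of_rank hLr
  obtain ⟨i₁, j₁, hij⟩ : ∃ i j, L.adjugate i j ≠ 0 := by
    by_contra hcon
    push Not at hcon
    exact hLadj (Matrix.ext hcon)
  -- kernel and cokernel
  have hcol : ∀ l, L *ᵥ (fun k => L.adjugate k l) = 0 := by
    intro l
    funext k
    have h6 := congrFun (congrFun (Matrix.mul_adjugate L) k) l
    rw [hLdet, zero_smul] at h6
    simpa [Matrix.mul_apply, Matrix.mulVec, dotProduct] using h6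
  set u : ι → K := fun k => L.adjugate k j₁ with hu_def
  have hu0 : u ≠ 0 := fun h => hij (congrFun h i₁)
  have hu : L *ᵥ u = 0 := hcol j₁
  have hker : ∀ x, L *ᵥ x = 0 → ∃ a : K, x = a • u := fun x hx => kernel_line hij hx hu hu0
  choose w hw using fun l => hker _ (hcol l)
  have hR : ∀ k l, L.adjugate k l = u k * w l := by
    intro k l
    have := congrFun (hw l) k
    simp only [Pi.smul_apply, smul_eq_mul] at this
    rw [this, mul_comm]
  have hui : u i₁ ≠ 0 := hij
  have hw0 : w ≠ 0 := by
    intro h0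
    apply hij
    rw [hR, h0]
    simp
  have hwL : w ᵥ* L = 0 := by
    funext k
    have h6 := congrFun (congrFun (Matrix.adjugate_mul L) i₁) k
    rw [hLdet, zero_smul, Matrix.mul_apply] at h6
    simp only [hR, mul_assoc, ← Finset.mul_sum] at h6
    have h7 := (mul_eq_zero.1 h6).resolve_left hui
    simpa [Matrix.vecMul, dotProduct] using h7
  -- the determinants
  have hmapC : ∀ S : Matrix ι ι K, (S.map MvPolynomial.C : Matrix ι ι (MvPolynomial X K)).det = MvPolynomial.C S.det := by
    intro S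
    rw [RingHom.map_det, RingHom.mapMatrix_apply]
  have hdetBC : B.det * C.det = 1 := by
    have h1 := congrArg Matrix.det hN
    rw [Matrix.det_mul, Matrix.det_mul, hmapC, hmapC] at h1
    have h2 : (N.map (scale c)).det = scale c N.det := ((scale c).map_det N).symm
    rw [h2] at h1
    have h3 := congrArg (MvPolynomial.coeff (mono S₀)) h1
    have e : MvPolynomial.C B.det * N.det * MvPolynomial.C C.det = MvPolynomial.C (B.det * C.det) * N.det := by
      rw [map_mul]
      ring
    rw [e, coeff_scale, mono_prod, hcS₀, MvPolynomial.coeff_C_mul, one_mul] at h3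
    have h4 : (B.det * C.det - 1) * MvPolynomial.coeff (mono S₀) N.det = 0 := by
      rw [sub_mul, one_mul, ← h3, sub_self]
    exact sub_eq_zero.1 ((mul_eq_zero.1 h4).resolve_right hS₀)
  set D : Matrix ι ι K := C⁻¹ with hDdef
  -- the coefficient matrices of the adjugate
  set Adj : (X →₀ ℕ) → Matrix ι ι K := fun m => N.adjugate.map (MvPolynomial.coeff m) with hAdj
  have hAdj0 : Adj 0 = L.adjugate := by
    have h1 := (MvPolynomial.constantCoeff (σ := X) (R := K)).map_adjugate N
    exact h1
  have hmapmul : ∀ (S T : Matrix ι ι K), (S * T).map MvPolynomial.C =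
      (S.map MvPolynomial.C * T.map MvPolynomial.C : Matrix ι ι (MvPolynomial X K)) := by
    intro S T
    ext1 i j
    simp [Matrix.mul_apply, map_sum]
  have hadjeq : N.adjugate.map (scale c) * B.map MvPolynomial.C = D.map MvPolynomial.C * N.adjugate := by
    have h1 := congrArg Matrix.adjugate hN
    rw [Matrix.adjugate_mul_distrib, Matrix.adjugate_mul_distrib] at h1
    have h2 : (N.map (scale c)).adjugate = N.adjugate.map (scale c) := by
      have := (scale c).map_adjugate N
      exact this.symm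
    have hBadj : (B.map MvPolynomial.C : Matrix ι ι (MvPolynomial X K)).adjugate = B.adjugate.map MvPolynomial.C := by
      have := (MvPolynomial.C : K →+* MvPolynomial X K).map_adjugate B
      exact this.symm
    have hCadj : (C.map MvPolynomial.C : Matrix ι ι (MvPolynomial X K)).adjugate = C.adjugate.map MvPolynomial.C := by
      have := (MvPolynomial.C : K →+* MvPolynomial X K).map_adjugate C
      exact this.symm
    rw [h2, hBadj, hCadj] at h1
    rw [h1]
    have h3 : C.adjugate = C.det • D := by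
      rw [hDdef, Matrix.inv_def, smul_smul, Ring.mul_inverse_cancel _ hC, one_smul]
    have h4 : (B.adjugate.map MvPolynomial.C * B.map MvPolynomial.C : Matrix ι ι (MvPolynomial X K)) =
        ((B.det • (1 : Matrix ι ι K)).map MvPolynomial.C) := by
      rw [← hmapmul, Matrix.adjugate_mul]
    rw [Matrix.mul_assoc, Matrix.mul_assoc, h4, h3]
    ext1 i j
    have e1 : ((B.det • (1 : Matrix ι ι K)).map MvPolynomial.C : Matrix ι ι (MvPolynomial X K)) =
        (MvPolynomial.C B.det : MvPolynomial X K) • (1 : Matrix ι ι (MvPolynomial X K)) := by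
      ext1 a b
      simp only [Matrix.map_apply, Matrix.smul_apply, smul_eq_mul, map_mul, Matrix.one_apply]
      split_ifs <;> simp
    have e2 : ((C.det • D).map MvPolynomial.C : Matrix ι ι (MvPolynomial X K)) =
        (MvPolynomial.C C.det : MvPolynomial X K) • D.map MvPolynomial.C := by
      ext1 a b
      simp only [Matrix.map_apply, Matrix.smul_apply, smul_eq_mul, map_mul]
    rw [e1, e2, Matrix.mul_smul, Matrix.mul_one, Matrix.smul_mul, Matrix.mul_smul, smul_smul, ← map_mul,
      mul_comm C.det, hdetBC, map_one, one_smul]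
  have hAdjm : ∀ m : X →₀ ℕ, D * Adj m = (m.prod fun x n => c x ^ n) • (Adj m * B) := by
    intro m
    ext i j
    have h1 := congrArg (MvPolynomial.coeff m) (congrFun (congrFun hadjeq i) j)
    rw [Matrix.mul_apply, Matrix.mul_apply, MvPolynomial.coeff_sum, MvPolynomial.coeff_sum] at h1
    simp only [Matrix.map_apply, coeff_mul_C, MvPolynomial.coeff_C_mul, coeff_scale] at h1
    rw [Matrix.mul_apply, Matrix.smul_apply, Matrix.mul_apply, smul_eq_mul, Finset.mul_sum]
    simp only [hAdj, Matrix.map_apply]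
    rw [← h1]
    exact Finset.sum_congr rfl fun k _ => by ring
  -- the eigenvalue
  have h0 : D * L.adjugate = L.adjugate * B := by
    have h1 := hAdjm 0
    rw [hAdj0] at h1
    simpa using h1
  obtain ⟨μ, hμw, hμu⟩ : ∃ μ : K, w ᵥ* B = μ • w ∧ D *ᵥ u = μ • u := by
    have h1 : ∀ k l, (D *ᵥ u) k * w l = u k * (w ᵥ* B) l := by
      intro k l
      have h2 := congrFun (congrFun h0 k) l
      rw [Matrix.mul_apply, Matrix.mul_apply] at h2
      simp only [hR] at h2
      rw [Matrix.mulVec, Matrix.vecMul, dotProduct, dotProduct, Finset.sum_mul, Finset.mul_sum]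
      rw [show ∑ i, D k i * u i * w l = ∑ x, D k x * (u x * w l) from Finset.sum_congr rfl fun x _ => by ring, h2]
      exact Finset.sum_congr rfl fun x _ => by ring
    refine ⟨(D *ᵥ u) i₁ / u i₁, ?_, ?_⟩
    · funext l
      rw [Pi.smul_apply, smul_eq_mul]
      have h2 := h1 i₁ l
      field_simp
      rw [h2]
      ring
    · obtain ⟨l, hl⟩ : ∃ l, w l ≠ 0 := by
        by_contra hcon
        push Not at hcon
        exact hw0 (funext hcon)
      have h4 : (w ᵥ* B) l = (D *ᵥ u) i₁ / u i₁ * w l := by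
        have h2 := h1 i₁ l
        field_simp
        rw [h2]
        ring
      funext k
      rw [Pi.smul_apply, smul_eq_mul]
      have h3 := h1 k l
      rw [h4] at h3
      have h5 : (D *ᵥ u) k * w l = (D *ᵥ u) i₁ / u i₁ * u k * w l := by rw [h3]; ring
      exact mul_right_cancel₀ hl h5
  have hμ0 : μ ≠ 0 := by
    intro h
    apply hw0
    have h1 : (w ᵥ* B) ᵥ* B⁻¹ = w := by
      rw [Matrix.vecMul_vecMul, Matrix.mul_nonsing_inv _ hB, Matrix.vecMul_one]
    rw [← h1, hμw, h, zero_smul, Matrix.zero_vecMul]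
  -- the projection
  obtain ⟨g, hg1, hg2⟩ := Polynomial.exists_eq_pow_rootMultiplicity_mul_and_not_dvd B.charpoly
    (Matrix.charpoly_monic B).ne_zero μ
  set r := Polynomial.rootMultiplicity μ B.charpoly with hr
  set G : Matrix ι ι K := Polynomial.aeval B g with hG
  have hBG : (B - μ • (1 : Matrix ι ι K)) ^ r * G = 0 := by
    have h1 := Matrix.aeval_self_charpoly B
    rw [hg1, map_mul, map_pow, map_sub, Polynomial.aeval_X, Polynomial.aeval_C, Algebra.algebraMap_eq_smul_one] at h1
    exact h1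
  have hwG : w ᵥ* G = g.eval μ • w := vecMul_aeval hμw g
  have hgμ : g.eval μ ≠ 0 := by
    intro h
    exact hg2 (Polynomial.dvd_iff_isRoot.2 h)
  have hwG0 : w ᵥ* G ≠ 0 := by
    rw [hwG]
    intro h
    rcases smul_eq_zero.1 h with h1 | h1
    · exact hgμ h1
    · exact hw0 h1
  set y : Finset X → Matrix ι ι K := fun S => Adj (mono S) * G with hy
  have hyD : ∀ S : Finset X, (D - ((∏ x ∈ S, c x) * μ) • (1 : Matrix ι ι K)) ^ r * y S = 0 := by
    intro S
    have h1 := hAdjm (mono S)
    rw [mono_prod] at h1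
    rw [hy]
    simp only
    rw [← Matrix.mul_assoc, pow_intertwine h1, Matrix.smul_mul, Matrix.mul_assoc, hBG, Matrix.mul_zero, smul_zero]
  have heig : ∀ S : Finset X, y S ≠ 0 → ∃ z : ι → K, z ≠ 0 ∧ D *ᵥ z = (μ * ∏ x ∈ S, c x) • z := by
    intro S hS
    have h1 : (D - ((∏ x ∈ S, c x) * μ) • (1 : Matrix ι ι K)).det = 0 := by
      by_contra hcon
      apply hS
      have h2 : IsUnit ((D - ((∏ x ∈ S, c x) * μ) • (1 : Matrix ι ι K)) ^ r).det := by
        rw [Matrix.det_pow]
        exact (isUnit_iff_ne_zero.2 hcon).pow r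
      have h3 := congrArg (fun Z => ((D - ((∏ x ∈ S, c x) * μ) • (1 : Matrix ι ι K)) ^ r)⁻¹ * Z) (hyD S)
      simp only [Matrix.mul_zero] at h3
      rwa [← Matrix.mul_assoc, Matrix.nonsing_inv_mul _ h2, Matrix.one_mul] at h3
    obtain ⟨z, hz0, hz⟩ := Matrix.exists_mulVec_eq_zero_iff.2 h1
    refine ⟨z, hz0, ?_⟩
    rw [Matrix.sub_mulVec, Matrix.smul_mulVec, Matrix.one_mulVec, sub_eq_zero] at hz
    rw [hz, mul_comm]
  -- the equation for the coefficients
  have hcoeff : ∀ m : X →₀ ℕ, (∀ a b, a + b = m → a ≠ 0 → a.degree ≤ dd → Adj b * G = 0) →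
      L * (Adj m * G) = MvPolynomial.coeff m N.det • G := by
    intro m hm
    have h1 : ∀ i j, ∑ p ∈ Finset.HasAntidiagonal.antidiagonal m, ∑ k, MvPolynomial.coeff p.1 (N i k) * Adj p.2 k j =
        MvPolynomial.coeff m N.det * (1 : Matrix ι ι K) i j := by
      intro i j
      have h2 := congrArg (MvPolynomial.coeff m) (congrFun (congrFun (Matrix.mul_adjugate N) i) j)
      rw [Matrix.mul_apply, MvPolynomial.coeff_sum] at h2
      simp only [MvPolynomial.coeff_mul] at h2
      rw [Finset.sum_comm] at h2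
      rw [hAdj]
      simp only [Matrix.map_apply]
      rw [h2, Matrix.smul_apply, smul_eq_mul, Matrix.one_apply, Matrix.one_apply]
      split_ifs <;> simp
    have h2 : ∑ p ∈ Finset.HasAntidiagonal.antidiagonal m, (N.map (MvPolynomial.coeff p.1) : Matrix ι ι K) * Adj p.2 =
        MvPolynomial.coeff m N.det • (1 : Matrix ι ι K) := by
      ext i j
      rw [Matrix.sum_apply, Matrix.smul_apply, smul_eq_mul, ← h1]
      refine Finset.sum_congr rfl fun p _ => ?_
      rw [Matrix.mul_apply]
      rfl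
    have h3 := congrArg (fun Z => Z * G) h2
    simp only [Finset.sum_mul, Matrix.smul_mul, Matrix.one_mul] at h3
    rw [← h3, Finset.sum_eq_single (0, m)]
    · rw [Matrix.mul_assoc]
    · rintro ⟨a, b⟩ hab hne
      rw [Finset.HasAntidiagonal.mem_antidiagonal] at hab
      simp only at hab ⊢
      by_cases ha : a = 0
      · exfalso
        apply hne
        rw [ha, zero_add] at hab
        rw [ha, hab]
      by_cases hda : a.degree ≤ dd
      · rw [Matrix.mul_assoc, hm a b hab ha hda, Matrix.mul_zero]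
      · have h4 : (N.map (MvPolynomial.coeff a) : Matrix ι ι K) = 0 := by
          ext i j
          rw [Matrix.map_apply, Matrix.zero_apply]
          by_contra hcon
          exact hda (degree_le_of_coeff (hdeg i j) hcon)
        rw [h4, Matrix.zero_mul, Matrix.zero_mul]
    · intro h
      exfalso
      apply h
      rw [Finset.HasAntidiagonal.mem_antidiagonal]
      simp
  refine ⟨μ, hμ0, ?_⟩
  intro S hS hlow hgen Good hGood hGood0
  have hsplit : ∀ S' ⊆ S, (∀ R ⊆ S', R.Nonempty → R.card ≤ dd → y (S' \ R) = 0) →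
      L * y S' = MvPolynomial.coeff (mono S') N.det • G := by
    intro S' _ h
    refine hcoeff (mono S') fun a b hab ha hda => ?_
    obtain ⟨h1, h2, h3⟩ := mono_split hab
    rw [h3]
    refine h _ h1 ?_ (by rw [← h2]; exact hda)
    rw [Finsupp.support_nonempty_iff]
    exact ha
  have hA : ∃ R ⊆ S, R.Nonempty ∧ R.card ≤ dd ∧ y (S \ R) ≠ 0 := by
    by_contra hcon
    push Not at hcon
    have h1 := hsplit S le_rfl hcon
    have h2 : w ᵥ* (L * y S) = w ᵥ* (MvPolynomial.coeff (mono S) N.det • G) := by rw [h1]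
    rw [← Matrix.vecMul_vecMul, hwL, Matrix.zero_vecMul, Matrix.vecMul_smul] at h2
    rcases smul_eq_zero.1 h2.symm with h3 | h3
    · exact hS h3
    · exact hwG0 h3
  have hB' : ∀ S' ⊆ S, S'.Nonempty → S' ≠ S → y S' ≠ 0 → ∃ R ⊆ S', R.Nonempty ∧ R.card ≤ dd ∧ y (S' \ R) ≠ 0 := by
    intro S' h1 h2 h3 h4
    by_contra hcon
    push Not at hcon
    have h5 := hsplit S' h1 hcon
    rw [hlow S' h1 h3, zero_smul] at h5
    apply h4
    -- the columns are in the kernel
    have h6 : ∀ l, ∃ a : K, (fun k => y S' k l) = a • u := by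
      intro l
      apply hker
      funext k
      have h7 := congrFun (congrFun h5 k) l
      rw [Matrix.mul_apply, Matrix.zero_apply] at h7
      simpa [Matrix.mulVec, dotProduct] using h7
    choose a ha using h6
    have h7 := hyD S'
    have h8 : ∀ n : ℕ, (D - ((∏ x ∈ S', c x) * μ) • (1 : Matrix ι ι K)) ^ n *ᵥ u =
        (μ - (∏ x ∈ S', c x) * μ) ^ n • u := by
      intro n
      induction n with
      | zero => simp
      | succ n ih =>
        rw [pow_succ, ← Matrix.mulVec_mulVec, Matrix.sub_mulVec, hμu, Matrix.smul_mulVec, Matrix.one_mulVec, ← sub_smul,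
          Matrix.mulVec_smul, ih, smul_smul, pow_succ, mul_comm]
    have h9 : μ - (∏ x ∈ S', c x) * μ ≠ 0 := by
      intro h
      have h10 : (1 - ∏ x ∈ S', c x) * μ = 0 := by rw [sub_mul, one_mul]; exact h
      rcases mul_eq_zero.1 h10 with h11 | h11
      · exact hgen S' h1 h2 h3 (sub_eq_zero.1 h11).symm
      · exact hμ0 h11
    ext k l
    have h10 : (D - ((∏ x ∈ S', c x) * μ) • (1 : Matrix ι ι K)) ^ r *ᵥ (fun k => y S' k l) = 0 := by
      funext k'
      have h11 := congrFun (congrFun h7 k') l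
      rw [Matrix.mul_apply, Matrix.zero_apply] at h11
      simpa [Matrix.mulVec, dotProduct] using h11
    rw [ha, Matrix.mulVec_smul, h8] at h10
    have h11 : y S' k l = (a l • u) k := congrFun (ha l) k
    rw [h11, Matrix.zero_apply]
    rcases smul_eq_zero.1 h10 with h12 | h12
    · rw [h12, zero_smul]; rfl
    · rcases smul_eq_zero.1 h12 with h13 | h13
      · exact absurd h13 (pow_ne_zero _ h9)
      · exact absurd h13 hu0
  have hC' : ∀ n : ℕ, ∀ S' ⊆ S, S'.card = n → S' ≠ S → y S' ≠ 0 → Good S' →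
      ∃ S₁ S₂ : Finset X, S₁ ⊆ S₂ ∧ S₂ ⊆ S ∧ (S₂ \ S₁).card ≤ dd ∧ Good S₂ ∧ ¬ Good S₁ ∧
          ∃ z : ι → K, z ≠ 0 ∧ D *ᵥ z = (μ * ∏ x ∈ S₁, c x) • z := by
    intro n
    induction n using Nat.strong_induction_on with
    | _ n ih =>
      intro S' h1 h2 h3 h4 h5
      have hne : S'.Nonempty := by
        rw [Finset.nonempty_iff_ne_empty]
        intro h0
        rw [h0] at h5
        exact hGood0 h5
      obtain ⟨R, hR1, hR2, hR3, hR4⟩ := hB' S' h1 hne h3 h4
      have hlt : (S' \ R).card < S'.card := by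
        rw [Finset.card_sdiff_of_subset hR1]
        have := Finset.card_pos.2 hR2
        have := Finset.card_pos.2 hne
        omega
      by_cases hg : Good (S' \ R)
      · refine ih (S' \ R).card (by omega) (S' \ R) (Finset.sdiff_subset.trans h1) rfl ?_ hR4 hg
        intro h0
        rw [h0] at hlt
        have := Finset.card_le_card h1
        omega
      · refine ⟨S' \ R, S', Finset.sdiff_subset, h1, ?_, h5, hg, heig _ hR4⟩
        rw [Finset.sdiff_sdiff_eq_self hR1]
        exact hR3
  obtain ⟨R, hR1, hR2, hR3, hR4⟩ := hA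
  have hlt : (S \ R).card < S.card := by
    rw [Finset.card_sdiff_of_subset hR1]
    have := Finset.card_pos.2 hR2
    have := Finset.card_le_card hR1
    omega
  by_cases hg : Good (S \ R)
  · refine hC' _ (S \ R) Finset.sdiff_subset rfl ?_ hR4 hg
    intro h0
    rw [h0] at hlt
    exact lt_irrefl _ hlt
  · refine ⟨S \ R, S, Finset.sdiff_subset, le_rfl, ?_, hGood, hg, heig _ hR4⟩
    rw [Finset.sdiff_sdiff_eq_self hR1]
    exact hR3

end alg

end Pool.Agent.HS38.GT
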