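import Pool.Agent.HS38.GT.SepFam
import Pool.Agent.HS38.GT.Stm3

/-!
# Project GT, part 4 (helper38): the exact theorem without a regularity hypothesis

Goal: for every connected constraint hypergraph `H` (for `q = 2` without cut variable) every gauge equivariant
determinantal representation of the counting polynomial is regular (the constant part of the matrix has corank one), so
`q ^ lwidth H ≤ m` by `RegLow.lean`.

Files as before: `Pool/Agent/HS38/GT/<Name>.lean` proves `theorem Pool.Agent.HS38.GT.t_<NAME> : S_<NAME>` (import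
`Pool.Agent.HS38.GT.Stm4`, private lemmas in the namespace `Pool.Agent.HS38.GT.<NAME>`).

`wt t U a = ∏ K ∈ U, ∏ i ∈ K, t K i (a i)` and its rules (`gauge_restr`, `prod_gauge`, `restr_inj`, `restr_injective`, `mono_inj`,
`ex`) are in `DLow.lean`, `wt_eq_prodF`, `gen_powF`, `wt_full`, `coeff_ZH` in `RegLow.lean`, `mono_split` in `ChainD.lean`.
-/

set_option autoImplicit false

namespace Pool.Agent.HS38.GT

open MvPolynomial Finset Pool.Agent.Helper1x.EQ

section

variable {V A : Type} [Fintype V] [DecidableEq V] [Fintype A] [DecidableEq A]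

/-- There are no multiplicative relations with exponents of absolute value at most four between the numbers `t K i α`,
`K ∈ H`, `i ∈ K`, besides the consequences of `IsGauge`. -/
def Generic4 {F : Type} [Field F] (H : Finset (Finset V)) (t : Finset V → V → A → Fˣ) : Prop :=
  IsGauge H t ∧
    ∀ e : Finset V → V → A → ℤ, (∀ K i α, |e K i α| ≤ 4) →
      ∏ K ∈ H, ∏ i ∈ K, ∏ α, t K i α ^ e K i α = 1 →
      ∀ i, ∀ α, ∀ K ∈ H, i ∈ K → ∀ K' ∈ H, i ∈ K' → e K i α = e K' i α

/-- every nonempty proper set of scopes shares at least `r` variables with the other scopes -/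
def CutGe (H : Finset (Finset V)) (r : ℕ) : Prop := ∀ U ⊆ H, U.Nonempty → U ≠ H → r ≤ (cut H U).card

end

/-- GEN4 (as GEN3 (file `GEN3.lean`), with the bound `4` instead of `2`: powers of `17` instead of `9`, or whatever is used
there). -/
def S_GEN4 : Prop := ∀ (F : Type) [Field F] [Infinite F] (V A : Type) [Fintype V] [DecidableEq V] [Fintype A]
  [DecidableEq A] (H : Finset (Finset V)), ∃ t : Finset V → V → A → Fˣ, Generic4 H t

/-- BC (base change to the algebraic closure). Proof. `K = AlgebraicClosure F`, `f = algebraMap F K`, `t' K i α = Units.map f (t K i α)`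
(`Units.map` is injective, so `Generic4` is inherited), `M' = M.map (MvPolynomial.map f)`; `MvPolynomial.totalDegree_map_le`,
`RingHom.map_det`, `map` of `Z` is `Z`, `scale` commutes with `MvPolynomial.map`; determinants of `B.map f`, `C.map f` are
units. -/
def S_BC : Prop := ∀ (F : Type) [Field F] (V A : Type) [Fintype V] [DecidableEq V] [Fintype A] [DecidableEq A]
  (ι : Type) [Fintype ι] [DecidableEq ι] (H : Finset (Finset V)) (t : Finset V → V → A → Fˣ)
  (M : Matrix ι ι (MvPolynomial (V → Option A) F)), Generic4 H t → (∀ i j, (M i j).totalDegree ≤ 1) →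
  M.det = Z F A H → Equivariant (gauge t) M →
  ∃ (K : Type) (_ : Field K) (_ : IsAlgClosed K) (t' : Finset V → V → A → Kˣ)
    (M' : Matrix ι ι (MvPolynomial (V → Option A) K)),
    Generic4 H t' ∧ (∀ i j, (M' i j).totalDegree ≤ 1) ∧ M'.det = Z K A H ∧ Equivariant (gauge t') M'

/-- GBAS (graded bases). Proof. Linear maps `L, D : K^ι → K^ι`, `B : K^ι → K^ι`, `B L = L D`. Let `G_D` be the set of the vectors
which are in a maximal generalized eigenspace of `D`; it spans `K^ι` (`Module.End.iSup_maxGenEigenspace_eq_top`). The kernel `N`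
of `L` is invariant under `D`, so `G_D ∩ N` spans `N` (generalized eigenspaces of the restriction,
`Module.End.genEigenspace_restrict`, or directly: if `v = ∑ v_λ ∈ N` then `L v = ∑ L v_λ` with `L v_λ` in the generalized
eigenspaces of `B`, which are independent, so `L v_λ = 0`). Choose a linearly independent `b_N ⊆ G_D ∩ N` spanning `N`
(`exists_linearIndependent_extension`, from the empty set), extend it to a basis `b_E ⊆ G_D` of `K^ι`. `L` is injective on
`b_E \ b_N` and maps it to a linearly independent subset of `G_B` (`L` maps the generalized eigenspace of `D` for `λ` into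
that of `B` for `λ`), which is extended to a basis `b_W ⊆ G_B`. `b_E`, `b_W` have `card ι` elements; choose an enumeration
`ι ≃ b_E`, and `ι ≃ b_W` which agrees with `L` on `b_E \ b_N`; `Sp` = the indices of `b_N`, `Sp.card = card ι - rank L`. `Q` has the
columns `b_E`, `P` is the inverse of the matrix with columns `b_W`, `ψ`, `β` the eigenvalues (not zero since `B`, `D` are
invertible; a nonzero vector is in only one generalized eigenspace). (4) If `B N = χ N D` then
`(B - χ λ)^r N = χ^r N (D - λ)^r` (see `pow_intertwine` in `Reg.lean`), so `N` maps the generalized eigenspace for `λ` of `D` into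
that for `χ λ` of `B`, and the coordinates of a vector in the generalized eigenspace for `κ` with respect to the elements of
`b_W` with other eigenvalues are zero (independence of the generalized eigenspaces). -/
def S_GBAS : Prop := ∀ (K : Type) [Field K] [IsAlgClosed K] (ι : Type) [Fintype ι] [DecidableEq ι]
  (L B D : Matrix ι ι K), IsUnit B.det → IsUnit D.det → B * L = L * D →
  ∃ (P Q : Matrix ι ι K) (ψ β : ι → Kˣ) (Sp : Finset ι), IsUnit P.det ∧ IsUnit Q.det ∧
    Sp.card + L.rank = Fintype.card ι ∧
    P * L * Q = Matrix.diagonal (fun l => if l ∈ Sp then (0 : K) else 1) ∧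
    (∀ l, l ∉ Sp → β l = ψ l) ∧
    ∀ (N : Matrix ι ι K) (χ : K), χ ≠ 0 → B * N = χ • (N * D) → ∀ l b, (P * N * Q) l b ≠ 0 → ((β l : Kˣ) : K) = χ * ψ b

/-- PERM (from the determinant to permutations). Proof. The coefficient of `mono (H.image (restr · a))` in `Z` is `1`
(`coeff_ZH` in `RegLow.lean`). `Matrix.det_apply`; so for some permutation the coefficient of this monomial in
`∏ l, N (τ l) l` is not zero. Lemma (induction on the finset `s`): if `coeff (mono S) (∏ l ∈ s, f l) ≠ 0` then there are
pairwise disjoint sets `S_l`, `l ∈ s`, with union `S` and `coeff (mono S_l) (f l) ≠ 0` (`coeff_mul`; a summand of `mono S` is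
`mono` of a subset, `mono_split` in `ChainD.lean`). Every subset of `H.image (restr · a)` is `U.image (restr · a)` for exactly one
`U ⊆ H` (`restr_injective`). -/
def S_PERM : Prop := ∀ (F : Type) [Field F] (V A : Type) [Fintype V] [DecidableEq V] [Fintype A] [DecidableEq A]
  (ι : Type) [Fintype ι] [DecidableEq ι] (H : Finset (Finset V)), (∀ i, ∃ K ∈ H, i ∈ K) →
  ∀ (N : Matrix ι ι (MvPolynomial (V → Option A) F)) (κ : F), κ ≠ 0 → N.det = C κ * Z F A H →
  ∀ a : V → A, ∃ (σ : Equiv.Perm ι) (U : ι → Finset (Finset V)), (∀ l, U l ⊆ H) ∧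
    (∀ l l', l ≠ l' → Disjoint (U l) (U l')) ∧ (∀ K ∈ H, ∃ l, K ∈ U l) ∧
    ∀ l, coeff (mono ((U l).image fun K => restr K a)) (N l (σ l)) ≠ 0

/-- RET (first return). Proof. For `l ∈ Sp` let `n l ≥ 1` be the least number with `(σ ^ n) l ∈ Sp` (`Nat.find`; `σ` has finite order)
and `π l = (σ ^ n l) l`, `U' l` the union of the `U ((σ ^ s) l)`, `0 ≤ s < n l`. If `(σ ^ s) l = (σ ^ s') l'` with
`s < n l`, `s' < n l'` (or with `s = n l`, `s' = n l'`), say `s ≤ s'`, then `l = (σ ^ (s' - s)) l'`, so `s' - s = 0` by the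
minimality of `n l'` and `l = l'`. So `π` is injective, hence a permutation, and the sets `U' l` are disjoint; they are not
empty since `U l` is not empty. `β l = wt(U l)² ψ (σ l)`, and `ψ (σ l) = β (σ l)` as long as `σ l ∉ Sp`, so by induction
`β l = wt (U' l)² ψ (π l)` (`wt` of a disjoint union is the product). The set `R` of the indices which are not of the form
`(σ ^ s) l`, `l ∈ Sp`, `s < n l` is invariant under `σ` and disjoint from `Sp`, so `∏_{r ∈ R} wt (U r)² = ∏_{r ∈ R} β r / ψ (σ r) = 1`,
so the union of the `U r`, `r ∈ R`, is empty or `H`; it is not `H` since `U l ≠ ∅` for an `l ∈ Sp`. So the `U' l` cover `H`. -/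
def S_RET : Prop := ∀ (F : Type) [Field F] (V A : Type) [Fintype V] [DecidableEq V] [Fintype A] [DecidableEq A]
  (ι : Type) [Fintype ι] [DecidableEq ι] (H : Finset (Finset V)) (t : Finset V → V → A → Fˣ) (a : V → A),
  (∀ U ⊆ H, wt t U a ^ 2 = 1 → U = ∅ ∨ U = H) →
  ∀ (ψ β : ι → Fˣ) (Sp : Finset ι), Sp.Nonempty → (∀ l, l ∉ Sp → β l = ψ l) →
  ∀ (σ : Equiv.Perm ι) (U : ι → Finset (Finset V)), (∀ l, U l ⊆ H) → (∀ l l', l ≠ l' → Disjoint (U l) (U l')) →
    (∀ K ∈ H, ∃ l, K ∈ U l) → (∀ l ∈ Sp, (U l).Nonempty) → (∀ l, β l = wt t (U l) a ^ 2 * ψ (σ l)) →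
  ∃ (π : Equiv.Perm Sp) (U' : Sp → Finset (Finset V)), (∀ l, U' l ⊆ H ∧ (U' l).Nonempty) ∧
    (∀ l l', l ≠ l' → Disjoint (U' l) (U' l')) ∧ (∀ K ∈ H, ∃ l, K ∈ U' l) ∧
    ∀ l : Sp, β l = wt t (U' l) a ^ 2 * ψ (π l)

/-- CON (combinatorial contradiction). Proof. Let `c = card σ ≥ 2`. Take two assignments `a¹`, `a²` which are different at every
variable (`2 ≤ card A`), with `π_1, U¹`, `π_2, U²`. Let `τ = π_2 π_1⁻¹`. For `l` and `b = π_1 l`: `ψ (τ b) / ψ b = wt(U¹ l, a¹)² / wt(U² l, a²)²`.
Take the product over the `l` with `π_1 l` in an orbit of `τ`: `wt(𝒰¹, a¹)² = wt(𝒰², a²)²`, `𝒰^j` the union of these `U^j l`; by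
`Generic4` (exponents `2 (ex 𝒰¹ a¹ - ex 𝒰² a²)`, at the value `a¹ i`) for every `i` the set `𝒰¹` contains all or none of the scopes which
contain `i`; so `cut H 𝒰¹ = ∅`, and since `𝒰¹` is not empty, `𝒰¹ = H` (`CutGe H 1`); so the orbit is everything. Hence, with a fixed
`b_0` and `b_s = τ^s b_0`, `s < c`, these are all elements, and with `l_s = π_1⁻¹ b_s`, `A_s = ⋃_{r < s} U¹ l_r`, `B_s = ⋃_{r < s} U² l_r`:
`ψ b_s = ψ b_0 wt(A_s, a¹)² / wt(B_s, a²)²`. For `s < s' < c` the set `B_s' \ B_s` is not empty and not `H`, and the same for `A`.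
Case `3 ≤ card A`: let `a³` be different from `a¹`, `a²` at every variable. For `l = l_s` let `π_3 l = b_s'`. Then
`wt(U³ l, a³)² ψ b_s' = β l = wt(U¹ l, a¹)² ψ b_s`. At the values `a² i`: `B_s'` and `B_s` differ at the scopes containing `i` by a
constant, for all `i`, so `s = s'`. Then at the values `a¹ i`: `U¹ l` contains all or none of the scopes containing `i`, for all
`i`, so `cut H (U¹ l) = ∅`, a contradiction (`U¹ l` is not empty and not `H` as `c ≥ 2`).
Case `CutGe H 2`: for every variable `i` take the assignment `a` which is `a² i` at `i` and `a¹ j` at `j ≠ i`, and its `π`, `U`. For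
`l = l_s` let `π l = b_s'`: `wt(U l, a)² ψ b_s' = wt(U¹ l, a¹)² ψ b_s`. At the values `a² j`, `j ≠ i`: `B_s'` and `B_s` differ at the
scopes containing `j` by a constant. If `s ≠ s'` then the difference (a set) has its cut in `{i}`, contradiction to `CutGe H 2`.
So `s = s'`, and at the value `a¹ i` (which `a` does not have at `i`): `U¹ l` contains all or none of the scopes containing `i`. This
holds for all `i`, so `cut H (U¹ l) = ∅`, a contradiction. (All exponents are at most `4` in absolute value: write the relations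
without denominators as `∏ t K i α ^ e K i α = 1` with `e = 2 (…)`, where `…` is a sum of at most two `ex` at each value minus at
most two.) -/
def S_CON : Prop := ∀ (F : Type) [Field F] (V A : Type) [Fintype V] [DecidableEq V] [Fintype A] [DecidableEq A]
  (H : Finset (Finset V)) (t : Finset V → V → A → Fˣ), Generic4 H t → (∀ i, ∃ K ∈ H, i ∈ K) → CutGe H 1 →
  (3 ≤ Fintype.card A ∨ 2 ≤ Fintype.card A ∧ CutGe H 2) →
  ∀ (σ : Type) [Fintype σ] [DecidableEq σ] (ψ β : σ → Fˣ),
    (∀ a : V → A, ∃ (π : Equiv.Perm σ) (U : σ → Finset (Finset V)), (∀ l, U l ⊆ H ∧ (U l).Nonempty) ∧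
      (∀ l l', l ≠ l' → Disjoint (U l) (U l')) ∧ (∀ K ∈ H, ∃ l, K ∈ U l) ∧
      ∀ l, β l = wt t (U l) a ^ 2 * ψ (π l)) →
    Fintype.card σ ≤ 1

/-- KU (all scopes with `k` elements). Proof. For `U ⊆ H = scopes V k` let `P` be the set of the `i` all of whose scopes are in `U`, `Q`
the set of the `i` none of whose scopes is in `U`; every `i` is in `P`, in `Q` or in `cut H U`. Two variables are in a common
scope, so `P = ∅` or `Q = ∅`. (1) If `P = ∅` and `K ∈ U` then the variables in `K` are in `cut H U`; if `Q = ∅` and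
`K ∈ H \ U` too. (2), (3): `lwidth H` is attained by a list (`Nat.sInf_mem`). Take the longest suffix whose set `U` has
`P = ∅`; `U ≠ H`; for the next one, `insert K U`, there is a variable `i₀` all of whose scopes are in `insert K U`. For
`k ≥ 3` every `j ≠ i₀` is in a scope different from `K` which contains `i₀` (there are `(n-2).choose (k-2) ≥ 2` scopes containing
both; `card_two` in `DCount.lean`), so `j ∉ Q`, and `i₀ ∉ Q`, so `cut H U = univ`. For `k = 2` the same for all `j` except the
other element of `K`. -/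
def S_KU : Prop := ∀ (V : Type) [Fintype V] [DecidableEq V] (k : ℕ), 2 ≤ k → k < Fintype.card V →
  CutGe (scopes V k) 2 ∧ Fintype.card V - 1 ≤ lwidth (scopes V k) ∧ (3 ≤ k → Fintype.card V ≤ lwidth (scopes V k))

/-- SP2 (sparse graphs without cut vertex with large linear width). Proof. Take `H₀` from `S_RAND` for `ε / 3` and add the pairs
`{i, i + 1}`, `{n - 1, 0}` (a cycle). `S_GW` with `s = ⌈ε n / 3⌉₊`: `n - 2 s ≤ lwidth H`, and `(1 - ε) n ≤ n - 2 s` for large `n`.
`CutGe H 2`: with `P`, `Q` as in KU: there is no scope `{x, y}` with `x ∈ P`, `y ∈ Q`. Let `(cut H U).card ≤ 1`. If `P = ∅` then an element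
of `U` has both elements in the cut, if `Q = ∅` then an element of `H \ U` has; contradiction. So `P`, `Q` are not empty; the
cycle without the at most one element of the cut is connected (go around from the element of the cut, or from an element
of `P`), so it has an edge from `P` to `Q`; contradiction. -/
def S_SP2 : Prop := ∀ ε : ℝ, 0 < ε → ε < 1 → ∃ C n₀ : ℕ, ∀ n : ℕ, n₀ ≤ n →
  ∃ H : Finset (Finset (Fin n)), H.card ≤ C * n ∧ (∀ K ∈ H, K.card = 2) ∧ (∀ i, ∃ K ∈ H, i ∈ K) ∧ CutGe H 2 ∧
    (1 - ε) * n ≤ lwidth H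

end Pool.Agent.HS38.GT
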