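import Pool.Agent.HS38.GT.RegLow
import Pool.Agent.HS38.GT.Stm4

/-!
# Gauge equivariant determinantal representations are regular
-/

set_option autoImplicit false

namespace Pool.Agent.HS38.GT

open MvPolynomial Finset Pool.Agent.Helper1x.EQ

variable {V A : Type} [Fintype V] [DecidableEq V] [Fintype A] [DecidableEq A]

omit [Fintype V] [DecidableEq A] in
theorem Generic4.toF {F : Type} [Field F] {H : Finset (Finset V)} {t : Finset V → V → A → Fˣ} (h : Generic4 H t) :
    GenericF H t :=
  ⟨h.1, fun e he => h.2 e fun K i α => (he K i α).trans (by norm_num)⟩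

/-- a set of scopes of weight one is trivial -/
theorem trivial_of_wt {F : Type} [Field F] {H : Finset (Finset V)} {t : Finset V → V → A → Fˣ} (hg : Generic4 H t)
    (h1 : CutGe H 1) (a : V → A) (U : Finset (Finset V)) (hU : U ⊆ H) (h : wt t U a ^ 2 = 1) : U = ∅ ∨ U = H := by
  classical
  by_contra hcon
  push Not at hcon
  have h2 := h1 U hU hcon.1 hcon.2
  obtain ⟨i, hi⟩ := Finset.card_pos.1 h2
  rw [cut, Finset.mem_filter] at hi
  obtain ⟨-, ⟨K₁, hK₁, hiK₁⟩, K₂, hK₂, hiK₂⟩ := hi
  rw [Finset.mem_sdiff] at hK₂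
  have h3 : wt t U a ^ 2 = wt t (∅ : Finset (Finset V)) a ^ 2 := by
    rw [h]
    simp [wt]
  have h4 := gen_powF hg.toF hU (Finset.empty_subset _) a a h3 i (a i) K₁ (hU hK₁) hiK₁ K₂ hK₂.1 hiK₂
  simp [ex, hK₁, hK₂.2] at h4

theorem constantCoeff_Z (F : Type) [Field F] {H : Finset (Finset V)} (hne : H.Nonempty) :
    constantCoeff (Z F A H) = 0 := by
  obtain ⟨K, hK⟩ := hne
  unfold Z
  rw [map_sum]
  apply Finset.sum_eq_zero
  intro a _
  rw [map_prod]
  exact Finset.prod_eq_zero hK (by simp)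

theorem regular_of (hG : S_GBAS) (hP : S_PERM) (hR : S_RET) (hC : S_CON) {K : Type} [Field K] [IsAlgClosed K]
    {ι : Type} [Fintype ι] [DecidableEq ι] {H : Finset (Finset V)} (hH1 : ∀ i, ∃ K ∈ H, i ∈ K) (hne : H.Nonempty)
    (h1 : CutGe H 1) (hq : 3 ≤ Fintype.card A ∨ 2 ≤ Fintype.card A ∧ CutGe H 2)
    {t : Finset V → V → A → Kˣ} (hg : Generic4 H t) {M : Matrix ι ι (MvPolynomial (V → Option A) K)}
    (hdet : M.det = Z K A H) (hEq : Equivariant (gauge t) M) : Regular M := by
  classical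
  obtain ⟨B, C', hB, hC', hN⟩ := strict_sq hEq
  set c : (V → Option A) → K := gauge (sqg t) with hc
  have hc0 : ∀ x, c x ≠ 0 := fun x => Units.ne_zero _
  set D : Matrix ι ι K := C'⁻¹ with hD
  have hDu : IsUnit D.det := by rw [hD, Matrix.isUnit_nonsing_inv_det_iff]; exact hC'
  set L : Matrix ι ι K := M.map constantCoeff with hL
  -- the coefficients
  have hcoef : ∀ m : (V → Option A) →₀ ℕ, B * M.map (coeff m) = (m.prod fun x n => c x ^ n) • (M.map (coeff m) * D) := by
    intro m
    have h2 : (m.prod fun x n => c x ^ n) • M.map (coeff m) = B * M.map (coeff m) * C' := by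
      ext i j
      have h3 := congrArg (coeff m) (congrFun (congrFun hN i) j)
      rw [Matrix.map_apply, coeff_scale] at h3
      rw [Matrix.smul_apply, Matrix.map_apply, smul_eq_mul, h3, Matrix.mul_apply, Matrix.mul_apply, coeff_sum]
      refine Finset.sum_congr rfl fun k _ => ?_
      rw [Matrix.map_apply, coeff_mul_C, Matrix.mul_apply, Matrix.mul_apply, coeff_sum]
      congr 1
      refine Finset.sum_congr rfl fun k' _ => ?_
      rw [Matrix.map_apply, coeff_C_mul, Matrix.map_apply]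
    rw [← Matrix.smul_mul, h2, Matrix.mul_assoc, hD, Matrix.mul_nonsing_inv _ hC', Matrix.mul_one]
  have hL0 : M.map (coeff 0) = L := rfl
  have hBL : B * L = L * D := by
    have h2 := hcoef 0
    rw [hL0] at h2
    simpa using h2
  obtain ⟨P, Q, ψ, β, Sp, hPu, hQu, hcard, hdiag, hoff, hgr⟩ := hG K ι L B D hB hDu hBL
  set N : Matrix ι ι (MvPolynomial (V → Option A) K) := P.map MvPolynomial.C * M * Q.map MvPolynomial.C with hNdef
  have hmapC : ∀ S : Matrix ι ι K, (S.map MvPolynomial.C : Matrix ι ι (MvPolynomial (V → Option A) K)).det =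
      MvPolynomial.C S.det := by
    intro S
    rw [RingHom.map_det, RingHom.mapMatrix_apply]
  have hNdet : N.det = MvPolynomial.C (P.det * Q.det) * Z K A H := by
    rw [hNdef, Matrix.det_mul, Matrix.det_mul, hmapC, hmapC, hdet, map_mul]
    ring
  have hNc : ∀ m l b, coeff m (N l b) = (P * M.map (coeff m) * Q) l b := by
    intro m l b
    rw [hNdef, Matrix.mul_apply, Matrix.mul_apply, coeff_sum]
    refine Finset.sum_congr rfl fun k _ => ?_
    rw [Matrix.map_apply, coeff_mul_C, Matrix.mul_apply, Matrix.mul_apply, coeff_sum]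
    congr 1
    refine Finset.sum_congr rfl fun k' _ => ?_
    rw [Matrix.map_apply, coeff_C_mul, Matrix.map_apply]
  have hκ : P.det * Q.det ≠ 0 := mul_ne_zero hPu.ne_zero hQu.ne_zero
  -- the special indices
  have hSpne : Sp.Nonempty := by
    rw [Finset.nonempty_iff_ne_empty]
    intro h0
    have h2 : P * L * Q = 1 := by
      rw [hdiag, h0]
      simp
    have h3 := congrArg Matrix.det h2
    rw [Matrix.det_mul, Matrix.det_mul, Matrix.det_one] at h3
    have h4 : L.det = 0 := by
      have h5 := RingHom.map_det (constantCoeff (σ := V → Option A) (R := K)) M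
      rw [RingHom.mapMatrix_apply] at h5
      rw [hL, ← h5, hdet]
      exact constantCoeff_Z K hne
    rw [h4, mul_zero, zero_mul] at h3
    exact zero_ne_one h3
  have hkey : ∀ a : V → A, ∃ (π : Equiv.Perm Sp) (U' : Sp → Finset (Finset V)), (∀ l, U' l ⊆ H ∧ (U' l).Nonempty) ∧
      (∀ l l', l ≠ l' → Disjoint (U' l) (U' l')) ∧ (∀ K ∈ H, ∃ l, K ∈ U' l) ∧
      ∀ l : Sp, β l = wt t (U' l) a ^ 2 * ψ (π l) := by
    intro a
    obtain ⟨σ, U, hU1, hU2, hU3, hU4⟩ := hP K V A ι H hH1 N _ hκ hNdet a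
    refine hR K V A ι H t a (trivial_of_wt hg h1 a) ψ β Sp hSpne hoff σ U hU1 hU2 hU3 ?_ ?_
    · intro l hl
      rw [Finset.nonempty_iff_ne_empty]
      intro h0
      have h2 := hU4 l
      rw [h0, Finset.image_empty] at h2
      have h3 : mono (∅ : Finset (V → Option A)) = 0 := by simp [mono]
      rw [h3, hNc, hL0, hdiag, Matrix.diagonal_apply] at h2
      by_cases h4 : l = σ l
      · rw [if_pos h4, if_pos hl] at h2
        exact h2 rfl
      · rw [if_neg h4] at h2
        exact h2 rfl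
    · intro l
      have h2 := hU4 l
      rw [hNc] at h2
      have hχ : ((mono ((U l).image fun K => restr K a)).prod fun x n => c x ^ n) ≠ 0 := by
        rw [Finsupp.prod]
        exact Finset.prod_ne_zero_iff.2 fun x _ => pow_ne_zero _ (hc0 x)
      have h3 := hgr _ _ hχ (hcoef _) l (σ l) h2
      rw [mono_prod, hc, prod_gauge, wt_sqg] at h3
      exact Units.ext (by rw [h3, Units.val_mul])
  have hle := hC K V A H t hg hH1 h1 hq Sp (fun l => ψ l) (fun l => β l) hkey
  rw [Fintype.card_coe] at hle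
  have hge := Finset.card_pos.2 hSpne
  unfold Regular
  have : L.rank + 1 = Fintype.card ι := by omega
  exact this

/-- **The exact lower bound.** -/
theorem exact_lower (hG : S_GBAS) (hP : S_PERM) (hR : S_RET) (hC : S_CON) (hBC : S_BC) {F : Type} [Field F]
    {ι : Type} [Fintype ι] [DecidableEq ι] {H : Finset (Finset V)} (hH1 : ∀ i, ∃ K ∈ H, i ∈ K)
    (h1 : CutGe H 1) (hq : 3 ≤ Fintype.card A ∨ 2 ≤ Fintype.card A ∧ CutGe H 2)
    {t : Finset V → V → A → Fˣ} (hg : Generic4 H t) {M : Matrix ι ι (MvPolynomial (V → Option A) F)}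
    (hdeg : ∀ i j, (M i j).totalDegree ≤ 1) (hdet : M.det = Z F A H) (hEq : Equivariant (gauge t) M)
    (hne : H.Nonempty) : Fintype.card A ^ lwidth H ≤ Fintype.card ι := by
  obtain ⟨K, hK1, hK2, t', M', hg', hdeg', hdet', hEq'⟩ := hBC F V A ι H t M hg hdeg hdet hEq
  exact reg_lower hH1 (fun U hU hUn hUne => Finset.card_pos.1 (h1 U hU hUn hUne)) hg'.toF hdeg'
    (regular_of hG hP hR hC hH1 hne h1 hq hg' hdet' hEq') hdet' hEq'

end Pool.Agent.HS38.GT
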