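import Pool.Agent.HS38.GT.Stm4

/-!
# Piece RET: the first return of a permutation to a subset
-/

set_option autoImplicit false

namespace Pool.Agent.HS38.GT

open MvPolynomial Finset Pool.Agent.Helper1x.EQ

namespace RET

section

variable {ι : Type} [Fintype ι] [DecidableEq ι] (Sp : Finset ι) (σ : Equiv.Perm ι)

theorem ret (l : ι) (hl : l ∈ Sp) : ∃ n, 1 ≤ n ∧ (σ ^ n) l ∈ Sp :=
  ⟨orderOf σ, orderOf_pos σ, by rw [pow_orderOf_eq_one]; exact hl⟩

/-- the time of the first return -/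
noncomputable def nr (l : ι) (hl : l ∈ Sp) : ℕ := Nat.find (ret Sp σ l hl)

theorem nr_pos (l : ι) (hl : l ∈ Sp) : 1 ≤ nr Sp σ l hl := (Nat.find_spec (ret Sp σ l hl)).1

theorem nr_mem (l : ι) (hl : l ∈ Sp) : (σ ^ nr Sp σ l hl) l ∈ Sp :=
  (Nat.find_spec (ret Sp σ l hl)).2

theorem nr_min (l : ι) (hl : l ∈ Sp) {m : ℕ} (h1 : 1 ≤ m) (h2 : (σ ^ m) l ∈ Sp) :
    nr Sp σ l hl ≤ m := Nat.find_min' (ret Sp σ l hl) ⟨h1, h2⟩

variable {Sp σ}

theorem key {l l' : ι} (hl : l ∈ Sp) (hl' : l' ∈ Sp) {s s' : ℕ} (hss : s ≤ s')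
    (hs' : s' ≤ nr Sp σ l' hl') (h : (σ ^ s) l = (σ ^ s') l') :
    (s = s' ∧ l = l') ∨ (s = 0 ∧ s' = nr Sp σ l' hl') := by
  have h1 : l = (σ ^ (s' - s)) l' := by
    have h2 : σ ^ s' = σ ^ s * σ ^ (s' - s) := by rw [← pow_add]; congr 1; omega
    rw [h2, Equiv.Perm.mul_apply] at h
    exact (σ ^ s).injective h
  rcases Nat.eq_zero_or_pos (s' - s) with h3 | h3
  · left
    rw [h3, pow_zero, Equiv.Perm.one_apply] at h1
    exact ⟨by omega, h1⟩
  · right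
    have h4 := nr_min Sp σ l' hl' (m := s' - s) h3 (by rw [← h1]; exact hl)
    omega

theorem key2 {l l' : ι} (hl : l ∈ Sp) (hl' : l' ∈ Sp) {s s' : ℕ}
    (hs : s < nr Sp σ l hl) (hs' : s' < nr Sp σ l' hl') (h : (σ ^ s) l = (σ ^ s') l') :
    s = s' ∧ l = l' := by
  rcases le_total s s' with h1 | h1
  · rcases key hl hl' h1 hs'.le h with h2 | ⟨_, h2⟩
    · exact h2
    · omega
  · rcases key hl' hl h1 hs.le h.symm with h2 | ⟨_, h2⟩
    · exact ⟨h2.1.symm, h2.2.symm⟩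
    · omega

theorem key3 {l l' : ι} (hl : l ∈ Sp) (hl' : l' ∈ Sp)
    (h : (σ ^ nr Sp σ l hl) l = (σ ^ nr Sp σ l' hl') l') : l = l' := by
  have p1 := nr_pos Sp σ l hl
  have p2 := nr_pos Sp σ l' hl'
  rcases le_total (nr Sp σ l hl) (nr Sp σ l' hl') with h1 | h1
  · rcases key hl hl' h1 le_rfl h with h2 | ⟨h2, _⟩
    · exact h2.2
    · omega
  · rcases key hl' hl h1 le_rfl h.symm with h2 | ⟨h2, _⟩
    · exact h2.2.symm
    · omega

variable (Sp σ) in
/-- the first return map -/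
noncomputable def pi0 (l : Sp) : Sp := ⟨(σ ^ nr Sp σ l.1 l.2) l.1, nr_mem Sp σ l.1 l.2⟩

theorem pi0_inj : Function.Injective (pi0 Sp σ) := by
  intro l l' h
  have h1 := congrArg Subtype.val h
  exact Subtype.ext (key3 l.2 l'.2 h1)

variable (Sp σ) in
open Classical in
/-- the places which are visited -/
noncomputable def TT : Finset ι :=
  univ.filter fun r => ∃ (l : ι) (hl : l ∈ Sp) (s : ℕ), s < nr Sp σ l hl ∧ (σ ^ s) l = r

theorem mem_TT {r : ι} : r ∈ TT Sp σ ↔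
    ∃ (l : ι) (hl : l ∈ Sp) (s : ℕ), s < nr Sp σ l hl ∧ (σ ^ s) l = r := by
  unfold TT
  rw [mem_filter]
  exact ⟨fun h => h.2, fun h => ⟨mem_univ _, h⟩⟩

theorem Sp_sub_TT {l : ι} (hl : l ∈ Sp) : l ∈ TT Sp σ :=
  mem_TT.2 ⟨l, hl, 0, nr_pos Sp σ l hl, rfl⟩

theorem TT_inv {r : ι} (hr : r ∈ TT Sp σ) : σ r ∈ TT Sp σ := by
  obtain ⟨l, hl, s, hs, rfl⟩ := mem_TT.1 hr
  have h1 : σ ((σ ^ s) l) = (σ ^ (s + 1)) l := by
    rw [pow_succ', Equiv.Perm.mul_apply]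
  rw [h1]
  rcases Nat.lt_or_ge (s + 1) (nr Sp σ l hl) with h2 | h2
  · exact mem_TT.2 ⟨l, hl, s + 1, h2, rfl⟩
  · have h3 : s + 1 = nr Sp σ l hl := by omega
    rw [h3]
    exact Sp_sub_TT (nr_mem Sp σ l hl)

theorem TT_map : (TT Sp σ).map σ.toEmbedding = TT Sp σ := by
  refine eq_of_subset_of_card_le ?_ (by rw [card_map])
  intro r hr
  obtain ⟨r', hr', rfl⟩ := mem_map.1 hr
  exact TT_inv hr'

theorem TTc_iff {r : ι} : r ∉ TT Sp σ ↔ σ r ∉ TT Sp σ := by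
  constructor
  · intro h1 h2
    rw [← TT_map] at h2
    obtain ⟨r', hr', h3⟩ := mem_map.1 h2
    have h4 : r' = r := σ.injective h3
    exact h1 (h4 ▸ hr')
  · intro h1 h2
    exact h1 (TT_inv h2)

end

end RET

open RET in
theorem t_RET : S_RET := by
  classical
  intro F _ V A _ _ _ _ ι _ _ H t a hH ψ β Sp hSp hβψ σ U hUH hUd hUc hUn hβ
  have huniq : ∀ {l l' : ι} {K : Finset V}, K ∈ U l → K ∈ U l' → l = l' := by
    intro l l' K h1 h2
    by_contra h3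
    exact disjoint_left.1 (hUd l l' h3) h1 h2
  have hwtU : ∀ (s : Finset ι), wt t (s.biUnion U) a = ∏ r ∈ s, wt t (U r) a := by
    intro s
    unfold wt
    rw [prod_biUnion]
    intro l _ l' _ hll
    exact hUd l l' hll
  set U' : Sp → Finset (Finset V) := fun l =>
    ((range (nr Sp σ l.1 l.2)).image fun s => (σ ^ s) l.1).biUnion U with hU'
  have hmem : ∀ (l : Sp) (K : Finset V), K ∈ U' l ↔ ∃ s < nr Sp σ l.1 l.2, K ∈ U ((σ ^ s) l.1) := by
    intro l K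
    rw [hU']
    simp only [mem_biUnion, mem_image, mem_range]
    constructor
    · rintro ⟨r, ⟨s, hs, rfl⟩, hK⟩
      exact ⟨s, hs, hK⟩
    · rintro ⟨s, hs, hK⟩
      exact ⟨_, ⟨s, hs, rfl⟩, hK⟩
  refine ⟨Equiv.ofBijective (pi0 Sp σ) (Finite.injective_iff_bijective.1 pi0_inj), U',
    fun l => ⟨fun K hK => ?_, ?_⟩, fun l l' hll => ?_, fun K hK => ?_, fun l => ?_⟩
  · obtain ⟨s, _, h1⟩ := (hmem l K).1 hK
    exact hUH _ h1
  · obtain ⟨K, hK⟩ := hUn l.1 l.2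
    exact ⟨K, (hmem l K).2 ⟨0, nr_pos Sp σ l.1 l.2, hK⟩⟩
  · rw [disjoint_left]
    intro K h1 h2
    obtain ⟨s, hs, h3⟩ := (hmem l K).1 h1
    obtain ⟨s', hs', h4⟩ := (hmem l' K).1 h2
    exact hll (Subtype.ext (key2 l.2 l'.2 hs hs' (huniq h3 h4)).2)
  · -- cover
    set R : Finset ι := univ.filter fun r => r ∉ TT Sp σ with hR
    have hRβ : ∏ r ∈ R, wt t (U r) a ^ 2 = 1 := by
      have h1 : ∀ r ∈ R, wt t (U r) a ^ 2 = ψ r / ψ (σ r) := by
        intro r hr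
        have h2 : r ∉ TT Sp σ := (mem_filter.1 hr).2
        have h3 : r ∉ Sp := fun h => h2 (Sp_sub_TT h)
        rw [← hβψ r h3, hβ r, mul_div_cancel_right]
      rw [prod_congr rfl h1, prod_div_distrib]
      have h4 : ∏ r ∈ R, ψ (σ r) = ∏ r ∈ R, ψ r := by
        refine prod_bijective σ σ.bijective ?_ fun r _ => rfl
        intro r
        rw [hR, mem_filter, mem_filter]
        exact ⟨fun h => ⟨mem_univ _, TTc_iff.1 h.2⟩, fun h => ⟨mem_univ _, TTc_iff.2 h.2⟩⟩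
      rw [h4, div_self']
    rw [prod_pow, ← hwtU] at hRβ
    have hW : R.biUnion U = ∅ := by
      rcases hH _ (biUnion_subset.2 fun r _ => hUH r) hRβ with h1 | h1
      · exact h1
      · exfalso
        obtain ⟨l, hl⟩ := hSp
        obtain ⟨K', hK'⟩ := hUn l hl
        have h2 : K' ∈ R.biUnion U := by rw [h1]; exact hUH l hK'
        obtain ⟨r, hr, h3⟩ := mem_biUnion.1 h2
        have h4 := huniq hK' h3
        subst h4
        exact (mem_filter.1 hr).2 (Sp_sub_TT hl)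
    obtain ⟨r, hr⟩ := hUc K hK
    have h1 : r ∈ TT Sp σ := by
      by_contra h2
      have h3 : K ∈ R.biUnion U := mem_biUnion.2 ⟨r, mem_filter.2 ⟨mem_univ _, h2⟩, hr⟩
      rw [hW] at h3
      exact notMem_empty _ h3
    obtain ⟨l, hl, s, hs, rfl⟩ := mem_TT.1 h1
    exact ⟨⟨l, hl⟩, (hmem _ _).2 ⟨s, hs, hr⟩⟩
  · have h1 : wt t (U' l) a = ∏ s ∈ range (nr Sp σ l.1 l.2), wt t (U ((σ ^ s) l.1)) a := by
      rw [hU']
      dsimp only
      rw [hwtU, prod_image]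
      intro s hs s' hs' h
      exact (key2 l.2 l.2 (mem_range.1 (mem_coe.1 hs)) (mem_range.1 (mem_coe.1 hs')) h).1
    have h2 : ∀ m, 1 ≤ m → m ≤ nr Sp σ l.1 l.2 →
        β l.1 = (∏ s ∈ range m, wt t (U ((σ ^ s) l.1)) a) ^ 2 * ψ ((σ ^ m) l.1) := by
      intro m
      induction m with
      | zero => intro h; omega
      | succ m ih =>
        intro _ hm
        rcases Nat.eq_zero_or_pos m with h3 | h3
        · subst h3
          rw [range_one, prod_singleton]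
          exact hβ l.1
        · rw [ih h3 (by omega), prod_range_succ, mul_pow, mul_assoc]
          congr 1
          have h4 : (σ ^ m) l.1 ∉ Sp := by
            intro h5
            have := nr_min Sp σ l.1 l.2 h3 h5
            omega
          rw [← hβψ _ h4, hβ, pow_succ' σ m, Equiv.Perm.mul_apply]
    rw [h1]
    exact h2 _ (nr_pos Sp σ l.1 l.2) le_rfl

end Pool.Agent.HS38.GT
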