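import Pool.Agent.HS38.GT.Stm4

set_option autoImplicit false

namespace Pool.Agent.HS38.GT

open MvPolynomial Finset Pool.Agent.Helper1x.EQ

/-- BC2 (as BC, for entries of any degree; BC follows). -/
def S_BC2 : Prop := ∀ (F : Type) [Field F] (V A : Type) [Fintype V] [DecidableEq V] [Fintype A] [DecidableEq A]
  (ι : Type) [Fintype ι] [DecidableEq ι] (H : Finset (Finset V)) (t : Finset V → V → A → Fˣ)
  (M : Matrix ι ι (MvPolynomial (V → Option A) F)), Generic4 H t →
  M.det = Z F A H → Equivariant (gauge t) M →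
  ∃ (K : Type) (_ : Field K) (_ : IsAlgClosed K) (t' : Finset V → V → A → Kˣ)
    (M' : Matrix ι ι (MvPolynomial (V → Option A) K)),
    Generic4 H t' ∧ (∀ i j, (M' i j).totalDegree ≤ (M i j).totalDegree) ∧ M'.det = Z K A H ∧
      Equivariant (gauge t') M'

end Pool.Agent.HS38.GT
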