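import Pool.Agent.HS38.GT.RegAuto
import Pool.Agent.HS38.GT.Stm5
import Pool.Agent.HS38.GT.GBAS
import Pool.Agent.HS38.GT.PERM
import Pool.Agent.HS38.GT.Ret
import Pool.Agent.HS38.GT.ConPiece
import Pool.Agent.HS38.GT.BC2

/-!
# The exact lower bound for determinants with entries of arbitrary degree
-/

set_option autoImplicit false

namespace Pool.Agent.HS38.GT

open MvPolynomial Finset Pool.Agent.Helper1x.EQ

variable {V A : Type} [Fintype V] [DecidableEq V] [Fintype A] [DecidableEq A]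

/-- **The lower bound.** -/
theorem exact_lower_d {F : Type} [Field F]
    {ι : Type} [Fintype ι] [DecidableEq ι] {H : Finset (Finset V)} (hH1 : ∀ i, ∃ K ∈ H, i ∈ K)
    (h1 : CutGe H 1) (hq : 3 ≤ Fintype.card A ∨ 2 ≤ Fintype.card A ∧ CutGe H 2)
    {t : Finset V → V → A → Fˣ} (hg : Generic4 H t) {M : Matrix ι ι (MvPolynomial (V → Option A) F)} {d k : ℕ}
    (hk : ∀ K ∈ H, K.card ≤ k)
    (hdeg : ∀ i j, (M i j).totalDegree ≤ d + 1) (hdet : M.det = Z F A H) (hEq : Equivariant (gauge t) M)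
    (hne : H.Nonempty) : Fintype.card A ^ (lwidth H - k * d) ≤ Fintype.card ι := by
  obtain ⟨K, hK1, hK2, t', M', hg', hdeg', hdet', hEq'⟩ := t_BC2 F V A ι H t M hg hdet hEq
  exact reg_lower_d hH1 hk (fun U hU hUn hUne => Finset.card_pos.1 (h1 U hU hUn hUne)) hg'.toF
    (fun i j => (hdeg' i j).trans (hdeg i j))
    (regular_of t_GBAS t_PERM t_RET t_CON hH1 hne h1 hq hg' hdet' hEq') hdet' hEq'

/-- **The exact lower bound for affine entries.** -/
theorem exact_lower_0 {F : Type} [Field F]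
    {ι : Type} [Fintype ι] [DecidableEq ι] {H : Finset (Finset V)} (hH1 : ∀ i, ∃ K ∈ H, i ∈ K)
    (h1 : CutGe H 1) (hq : 3 ≤ Fintype.card A ∨ 2 ≤ Fintype.card A ∧ CutGe H 2)
    {t : Finset V → V → A → Fˣ} (hg : Generic4 H t) {M : Matrix ι ι (MvPolynomial (V → Option A) F)}
    (hdeg : ∀ i j, (M i j).totalDegree ≤ 1) (hdet : M.det = Z F A H) (hEq : Equivariant (gauge t) M)
    (hne : H.Nonempty) : Fintype.card A ^ lwidth H ≤ Fintype.card ι := by
  have h := exact_lower_d (d := 0) (k := Fintype.card V) hH1 h1 hq hg (fun K _ => Finset.card_le_univ K) (by simpa using hdeg)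
    hdet hEq hne
  simpa using h

end Pool.Agent.HS38.GT
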