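import Pool.Agent.HS38.GT.RegF

/-!
# Gauge equivariant matrices whose determinant contains the monomials of the counting polynomial
-/

set_option autoImplicit false

namespace Pool.Agent.HS38.GT

open MvPolynomial Finset Pool.Agent.Helper1x.EQ

variable {V A : Type} [Fintype V] [DecidableEq V] [Fintype A] [DecidableEq A]

open PERM in
/-- from the determinant to permutations -/
theorem perm_f {F : Type} [Field F] {ι : Type} [Fintype ι] [DecidableEq ι] (H : Finset (Finset V))
    (N : Matrix ι ι (MvPolynomial (V → Option A) F)) (a : V → A)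
    (h1 : coeff (mono (H.image fun K => restr K a)) N.det ≠ 0) :
    ∃ (σ : Equiv.Perm ι) (U : ι → Finset (Finset V)), (∀ l, U l ⊆ H) ∧
      (∀ l l', l ≠ l' → Disjoint (U l) (U l')) ∧ (∀ K ∈ H, ∃ l, K ∈ U l) ∧
      ∀ l, coeff (mono ((U l).image fun K => restr K a)) (N l (σ l)) ≠ 0 := by
  rw [Matrix.det_apply, coeff_sum] at h1
  obtain ⟨σ₀, -, h2⟩ := Finset.exists_ne_zero_of_sum_ne_zero h1
  have h3 : coeff (mono (H.image fun K => restr K a)) (∏ i, N (σ₀ i) i) ≠ 0 := by
    intro h0
    apply h2
    rw [Units.smul_def, zsmul_eq_mul]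
    rcases Int.units_eq_one_or (Equiv.Perm.sign σ₀) with h4 | h4 <;> rw [h4] <;> simp [h0]
  obtain ⟨T, hT1, hT2, hT3, hT4⟩ := split_prod (fun i => N (σ₀ i) i) univ _ h3
  refine ⟨σ₀.symm, fun l => H.filter fun K => restr K a ∈ T (σ₀.symm l),
    fun l => Finset.filter_subset _ _, ?_, ?_, ?_⟩
  · intro l l' hll
    rw [Finset.disjoint_left]
    intro K hK hK'
    have h4 := hT2 (σ₀.symm l) (Finset.mem_univ _) (σ₀.symm l') (Finset.mem_univ _)
      (fun h => hll (σ₀.symm.injective h))
    exact Finset.disjoint_left.1 h4 (Finset.mem_filter.1 hK).2 (Finset.mem_filter.1 hK').2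
  · intro K hK
    obtain ⟨i, -, hi⟩ := hT4 (restr K a) (Finset.mem_image_of_mem _ hK)
    exact ⟨σ₀ i, Finset.mem_filter.2 ⟨hK, by simpa using hi⟩⟩
  · intro l
    have h4 : ((H.filter fun K => restr K a ∈ T (σ₀.symm l)).image fun K => restr K a) =
        T (σ₀.symm l) := by
      ext x
      rw [Finset.mem_image]
      constructor
      · rintro ⟨K, hK, rfl⟩
        exact (Finset.mem_filter.1 hK).2
      · intro hx
        obtain ⟨K, hK, rfl⟩ := Finset.mem_image.1 (hT3 _ (Finset.mem_univ _) hx)
        exact ⟨K, Finset.mem_filter.2 ⟨hK, hx⟩, rfl⟩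
    rw [h4]
    have h5 := hT1 (σ₀.symm l) (Finset.mem_univ _)
    simpa using h5

theorem regular_of_f {K : Type} [Field K] [IsAlgClosed K]
    {ι : Type} [Fintype ι] [DecidableEq ι] {H : Finset (Finset V)} (hH1 : ∀ i, ∃ K ∈ H, i ∈ K) (hne : H.Nonempty)
    (h1 : CutGe H 1) (hq : 3 ≤ Fintype.card A ∨ 2 ≤ Fintype.card A ∧ CutGe H 2)
    {t : Finset V → V → A → Kˣ} (hg : Generic4 H t) {M : Matrix ι ι (MvPolynomial (V → Option A) K)}
    (hf : ∀ a : V → A, coeff (mono (H.image fun K => restr K a)) M.det ≠ 0)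
    (hconst : constantCoeff M.det = 0) (hEq : Equivariant (gauge t) M) : Regular M := by
  classical
  obtain ⟨B, C', hB, hC', hN⟩ := strict_sq hEq
  set c : (V → Option A) → K := gauge (sqg t) with hc
  have hc0 : ∀ x, c x ≠ 0 := fun x => Units.ne_zero _
  set D : Matrix ι ι K := C'⁻¹ with hD
  have hDu : IsUnit D.det := by rw [hD, Matrix.isUnit_nonsing_inv_det_iff]; exact hC'
  set L : Matrix ι ι K := M.map constantCoeff with hL
  -- the coefficients
  have hcoef : ∀ m : (V → Option A) →₀ ℕ, B * M.map (coeff m) = (m.prod fun x n => c x ^ n) • (M.map (coeff m) * D) := by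
    intro m
    have h2 : (m.prod fun x n => c x ^ n) • M.map (coeff m) = B * M.map (coeff m) * C' := by
      ext i j
      have h3 := congrArg (coeff m) (congrFun (congrFun hN i) j)
      rw [Matrix.map_apply, coeff_scale] at h3
      rw [Matrix.smul_apply, Matrix.map_apply, smul_eq_mul, h3, Matrix.mul_apply, Matrix.mul_apply, coeff_sum]
      refine Finset.sum_congr rfl fun k _ => ?_
      rw [Matrix.map_apply, coeff_mul_C, Matrix.mul_apply, Matrix.mul_apply, coeff_sum]
      congr 1
      refine Finset.sum_congr rfl fun k' _ => ?_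
      rw [Matrix.map_apply, coeff_C_mul, Matrix.map_apply]
    rw [← Matrix.smul_mul, h2, Matrix.mul_assoc, hD, Matrix.mul_nonsing_inv _ hC', Matrix.mul_one]
  have hL0 : M.map (coeff 0) = L := rfl
  have hBL : B * L = L * D := by
    have h2 := hcoef 0
    rw [hL0] at h2
    simpa using h2
  obtain ⟨P, Q, ψ, β, Sp, hPu, hQu, hcard, hdiag, hoff, hgr⟩ := t_GBAS K ι L B D hB hDu hBL
  set N : Matrix ι ι (MvPolynomial (V → Option A) K) := P.map MvPolynomial.C * M * Q.map MvPolynomial.C with hNdef
  have hmapC : ∀ S : Matrix ι ι K, (S.map MvPolynomial.C : Matrix ι ι (MvPolynomial (V → Option A) K)).det =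
      MvPolynomial.C S.det := by
    intro S
    rw [RingHom.map_det, RingHom.mapMatrix_apply]
  have hNdet : N.det = MvPolynomial.C (P.det * Q.det) * M.det := by
    rw [hNdef, Matrix.det_mul, Matrix.det_mul, hmapC, hmapC, map_mul]
    ring
  have hNc : ∀ m l b, coeff m (N l b) = (P * M.map (coeff m) * Q) l b := by
    intro m l b
    rw [hNdef, Matrix.mul_apply, Matrix.mul_apply, coeff_sum]
    refine Finset.sum_congr rfl fun k _ => ?_
    rw [Matrix.map_apply, coeff_mul_C, Matrix.mul_apply, Matrix.mul_apply, coeff_sum]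
    congr 1
    refine Finset.sum_congr rfl fun k' _ => ?_
    rw [Matrix.map_apply, coeff_C_mul, Matrix.map_apply]
  have hκ : P.det * Q.det ≠ 0 := mul_ne_zero hPu.ne_zero hQu.ne_zero
  -- the special indices
  have hSpne : Sp.Nonempty := by
    rw [Finset.nonempty_iff_ne_empty]
    intro h0
    have h2 : P * L * Q = 1 := by
      rw [hdiag, h0]
      simp
    have h3 := congrArg Matrix.det h2
    rw [Matrix.det_mul, Matrix.det_mul, Matrix.det_one] at h3
    have h4 : L.det = 0 := by
      have h5 := RingHom.map_det (constantCoeff (σ := V → Option A) (R := K)) M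
      rw [RingHom.mapMatrix_apply] at h5
      rw [hL, ← h5]
      exact hconst
    rw [h4, mul_zero, zero_mul] at h3
    exact zero_ne_one h3
  have hkey : ∀ a : V → A, ∃ (π : Equiv.Perm Sp) (U' : Sp → Finset (Finset V)), (∀ l, U' l ⊆ H ∧ (U' l).Nonempty) ∧
      (∀ l l', l ≠ l' → Disjoint (U' l) (U' l')) ∧ (∀ K ∈ H, ∃ l, K ∈ U' l) ∧
      ∀ l : Sp, β l = wt t (U' l) a ^ 2 * ψ (π l) := by
    intro a
    obtain ⟨σ, U, hU1, hU2, hU3, hU4⟩ := perm_f H N a (by rw [hNdet, coeff_C_mul]; exact mul_ne_zero hκ (hf a))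
    refine t_RET K V A ι H t a (trivial_of_wt hg h1 a) ψ β Sp hSpne hoff σ U hU1 hU2 hU3 ?_ ?_
    · intro l hl
      rw [Finset.nonempty_iff_ne_empty]
      intro h0
      have h2 := hU4 l
      rw [h0, Finset.image_empty] at h2
      have h3 : mono (∅ : Finset (V → Option A)) = 0 := by simp [mono]
      rw [h3, hNc, hL0, hdiag, Matrix.diagonal_apply] at h2
      by_cases h4 : l = σ l
      · rw [if_pos h4, if_pos hl] at h2
        exact h2 rfl
      · rw [if_neg h4] at h2
        exact h2 rfl
    · intro l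
      have h2 := hU4 l
      rw [hNc] at h2
      have hχ : ((mono ((U l).image fun K => restr K a)).prod fun x n => c x ^ n) ≠ 0 := by
        rw [Finsupp.prod]
        exact Finset.prod_ne_zero_iff.2 fun x _ => pow_ne_zero _ (hc0 x)
      have h3 := hgr _ _ hχ (hcoef _) l (σ l) h2
      rw [mono_prod, hc, prod_gauge, wt_sqg] at h3
      exact Units.ext (by rw [h3, Units.val_mul])
  have hle := t_CON K V A H t hg hH1 h1 hq Sp (fun l => ψ l) (fun l => β l) hkey
  rw [Fintype.card_coe] at hle
  have hge := Finset.card_pos.2 hSpne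
  unfold Regular
  have : L.rank + 1 = Fintype.card ι := by omega
  exact this


theorem mono_eq_sum (H : Finset (Finset V)) (a : V → A) :
    mono (H.image fun K => restr K a) = ∑ K ∈ H, Finsupp.single (restr K a) 1 := by
  unfold mono
  rw [Finset.sum_image (fun K _ K' _ h => restr_inj h)]

/-- **The lower bound**, for every polynomial with the monomials of the counting polynomial. -/
theorem exact_lower_f {F : Type} [Field F] {ι : Type} [Fintype ι] [DecidableEq ι] {H : Finset (Finset V)}
    (hH1 : ∀ i, ∃ K ∈ H, i ∈ K) (h1 : CutGe H 1) (hq : 3 ≤ Fintype.card A ∨ 2 ≤ Fintype.card A ∧ CutGe H 2)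
    {t : Finset V → V → A → Fˣ} (hg : Generic4 H t) {M : Matrix ι ι (MvPolynomial (V → Option A) F)} {d k : ℕ}
    (hk : ∀ K ∈ H, K.card ≤ k) (hdeg : ∀ i j, (M i j).totalDegree ≤ d + 1)
    (hf : ∀ a : V → A, coeff (∑ K ∈ H, Finsupp.single (restr K a) 1) M.det ≠ 0) (hconst : constantCoeff M.det = 0)
    (hEq : Equivariant (gauge t) M) (hne : H.Nonempty) : Fintype.card A ^ (lwidth H - k * d) ≤ Fintype.card ι := by
  have hf' : ∀ a : V → A, coeff (mono (H.image fun K => restr K a)) M.det ≠ 0 := by
    intro a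
    rw [mono_eq_sum]
    exact hf a
  set f := algebraMap F (AlgebraicClosure F) with hfdef
  have hinj : Function.Injective f := f.injective
  have hf2 : ∀ a : V → A, coeff (mono (H.image fun K => restr K a)) (M.map (MvPolynomial.map f)).det ≠ 0 := by
    intro a h
    rw [BC.det_map, MvPolynomial.coeff_map] at h
    exact hf' a (hinj (h.trans (map_zero f).symm))
  have hc2 : constantCoeff (M.map (MvPolynomial.map f)).det = 0 := by
    rw [BC.det_map, MvPolynomial.constantCoeff_map, hconst, map_zero]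
  have hg2 := BC.generic_map f H t hg
  have hE2 := BC.equiv_map f (gauge t) _ (BC.gauge_map f t) M hEq
  exact reg_lower_f hH1 hk (fun U hU hUn hUne => Finset.card_pos.1 (h1 U hU hUn hUne)) hg2.toF
    (fun i j => (BC.degree_map f _).trans (hdeg i j))
    (regular_of_f hH1 hne h1 hq hg2 hf2 hc2 hE2) hf2 hE2

end Pool.Agent.HS38.GT
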