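import Pool.Agent.HS38.GT.RegAuto2

/-!
# The lower bound for all polynomials with the monomials of the counting polynomial
-/

set_option autoImplicit false

namespace Pool.Agent.HS38.GT

open MvPolynomial Finset Pool.Agent.Helper1x.EQ

variable {V A : Type} [Fintype V] [DecidableEq V] [Fintype A] [DecidableEq A]

/-- **Regular representations**, entries of degree at most `d + 1`, scopes with at most `k` elements, for every
polynomial with the monomials of the counting polynomial. -/
theorem reg_lower_f {F : Type} [Field F] {ι : Type*} [Fintype ι] [DecidableEq ι] {H : Finset (Finset V)}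
    (hH1 : ∀ i, ∃ K ∈ H, i ∈ K) {k d : ℕ} (hk : ∀ K ∈ H, K.card ≤ k) (hcon : ∀ U ⊆ H, U.Nonempty → U ≠ H → (cut H U).Nonempty)
    {t : Finset V → V → A → Fˣ} (hg : GenericF H t)
    {M : Matrix ι ι (MvPolynomial (V → Option A) F)} (hdeg : ∀ i j, (M i j).totalDegree ≤ d + 1) (hreg : Regular M)
    (hf : ∀ a : V → A, coeff (mono (H.image fun K => restr K a)) M.det ≠ 0) (hEq : Equivariant (gauge t) M) :
    Fintype.card A ^ (lwidth H - k * d) ≤ Fintype.card ι := by
  classical
  rcases Nat.eq_zero_or_pos (lwidth H - k * d) with h00 | h00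
  · rw [h00, pow_zero]
    unfold Regular at hreg
    omega
  have h0 : 0 < lwidth H := by omega
  rcases isEmpty_or_nonempty A with hA | hA
  · rw [Fintype.card_eq_zero, zero_pow (by omega)]
    exact Nat.zero_le _
  obtain ⟨o⟩ := hA
  set w := lwidth H with hw
  set w₁ := w - k * d with hw₁
  obtain ⟨B, C', hB, hC, hN⟩ := strict_sq hEq
  have hwt : ∀ (U : Finset (Finset V)) (a : V → A), ∏ x ∈ U.image (fun K => restr K a), gauge (sqg t) x =
      ((wt t U a ^ 2 : Fˣ) : F) := by
    intro U a
    rw [prod_gauge, wt_sqg]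
  have hSa : ∀ (a : V → A), ∀ S' ⊆ H.image (fun K => restr K a),
      S' = (H.filter fun K => restr K a ∈ S').image (fun K => restr K a) := by
    intro a S' hS'
    ext x
    rw [Finset.mem_image]
    constructor
    · intro hx
      obtain ⟨K, hK, rfl⟩ := Finset.mem_image.1 (hS' hx)
      exact ⟨K, Finset.mem_filter.2 ⟨hK, hx⟩, rfl⟩
    · rintro ⟨K, hK, rfl⟩
      exact (Finset.mem_filter.1 hK).2
  have hprop : ∀ (a : V → A), ∀ S' ⊆ H.image (fun K => restr K a), S'.Nonempty → S' ≠ H.image (fun K => restr K a) →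
      ∏ x ∈ S', gauge (sqg t) x ≠ 1 := by
    intro a
    intro S' hS' hne hneq
    rw [hSa a S' hS'] at hne hneq ⊢
    set U := H.filter fun K => restr K a ∈ S' with hU
    rw [hwt]
    intro h1
    have h2 : wt t U a ^ 2 = wt t (∅ : Finset (Finset V)) a ^ 2 := by
      have h3 : wt t (∅ : Finset (Finset V)) a = 1 := by simp [wt]
      rw [h3, one_pow]
      exact Units.ext (by rw [h1]; rfl)
    have h3 := gen_powF hg (Finset.filter_subset _ _) (Finset.empty_subset _) a a h2
    obtain ⟨i, hi⟩ := hcon U (Finset.filter_subset _ _) ((Finset.image_nonempty).1 hne) (by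
      intro h4
      apply hneq
      rw [h4])
    rw [cut, Finset.mem_filter] at hi
    obtain ⟨-, ⟨K₁, hK₁, hiK₁⟩, K₂, hK₂, hiK₂⟩ := hi
    rw [Finset.mem_sdiff] at hK₂
    have h5 := h3 i (a i) K₁ (Finset.filter_subset _ _ hK₁) hiK₁ K₂ hK₂.1 hiK₂
    rw [← hU] at h5
    simp [ex, hK₁, hK₂.2] at h5
  have hdetS : scale (gauge (sqg t)) M.det = MvPolynomial.C (B.det * C'.det) * M.det := by
    have h1 := congrArg Matrix.det hN
    rw [Matrix.det_mul, Matrix.det_mul] at h1
    have h2 : (M.map (scale (gauge (sqg t)))).det = scale (gauge (sqg t)) M.det := by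
      have h3 := (AlgHom.map_det (scale (gauge (sqg t))) M)
      rw [h3]
      rfl
    have hmapC : ∀ S : Matrix ι ι F, (S.map MvPolynomial.C : Matrix ι ι (MvPolynomial (V → Option A) F)).det =
        MvPolynomial.C S.det := by
      intro S
      rw [RingHom.map_det, RingHom.mapMatrix_apply]
    rw [h2, hmapC, hmapC] at h1
    rw [h1, map_mul]
    ring
  have hcoefS : ∀ m : (V → Option A) →₀ ℕ, (m.prod fun x n => gauge (sqg t) x ^ n) * coeff m M.det =
      (B.det * C'.det) * coeff m M.det := by
    intro m
    have h1 := congrArg (coeff m) hdetS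
    rwa [coeff_scale, coeff_C_mul] at h1
  have hone : B.det * C'.det = 1 := by
    have h1 := hcoefS (mono (H.image fun K => restr K (fun _ => o)))
    rw [mono_prod, hwt, wt_full hg.1, one_pow] at h1
    have h2 := mul_right_cancel₀ (hf (fun _ => o)) h1
    rw [← h2]
    rfl
  have hlow : ∀ (a : V → A), ∀ S' ⊆ H.image (fun K => restr K a), S' ≠ H.image (fun K => restr K a) →
      coeff (mono S') M.det = 0 := by
    intro a S' h1 h2
    rcases S'.eq_empty_or_nonempty with h3 | h3
    · rw [h3]
      have h4 : mono (∅ : Finset (V → Option A)) = 0 := by simp [mono]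
      rw [h4]
      have h5 := RingHom.map_det (constantCoeff (σ := V → Option A) (R := F)) M
      rw [RingHom.mapMatrix_apply] at h5
      have h6 := det_eq_zero_of_rank (L := M.map constantCoeff) hreg
      rw [h6] at h5
      exact h5
    · by_contra h4
      have h5 := hcoefS (mono S')
      rw [mono_prod, hone] at h5
      exact hprop a S' h1 h3 h2 (mul_right_cancel₀ h4 h5)
  obtain ⟨μ, hμ0, hch⟩ := chain_r hdeg hreg hB hC hN (S₀ := H.image fun K => restr K (fun _ => o))
    (hf _)
    (by rw [hwt, wt_full hg.1, one_pow]; rfl)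
  have hcutH : cut H H = ∅ := by
    ext i
    simp [cut]
  have hstep : ∀ a : V → A, ∃ U ⊆ H, w₁ ≤ (cut H U).card ∧ μ * ((wt t U a ^ 2 : Fˣ) : F) ∈
      (C'⁻¹).charpoly.roots.toFinset := by
    intro a
    have hfull : (H.filter fun K => restr K a ∈ H.image (fun K => restr K a)) = H := by
      rw [Finset.filter_true_of_mem]
      exact fun K hK => Finset.mem_image_of_mem _ hK
    obtain ⟨S₁, S₂, h12, h2S, hcard, hgood, hbad, y, hy0, hy⟩ := hch (H.image fun K => restr K a)
      (hf a)
      (fun S' h1 h2 => hlow a S' h1 h2)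
      (hprop a)
      (fun S' => UpN H univ w H (H.filter fun K => restr K a ∈ S'))
      (by
        show UpN H univ w H _
        rw [hfull]
        exact UpN.top (by rw [hcutH, Finset.empty_inter, Finset.card_empty]; exact h0))
      (by
        show ¬ UpN H univ w H _
        have : (H.filter fun K => restr K a ∈ (∅ : Finset (V → Option A))) = ∅ := by simp
        rw [this]
        intro h
        have h1 := t_NLIST V H w (h.narrow (Narrow.empty h0))
        omega)
    have h2 : (fun S' => UpN H univ w H (H.filter fun K => restr K a ∈ S')) S₂ := hgood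
    have h1 : ¬ (fun S' => UpN H univ w H (H.filter fun K => restr K a ∈ S')) S₁ := hbad
    simp only at h1 h2
    refine ⟨H.filter fun K => restr K a ∈ S₁, Finset.filter_subset _ _, ?_, ?_⟩
    · by_contra hcon2
      push Not at hcon2
      apply h1
      have hsub : (H.filter fun K => restr K a ∈ S₁) ⊆ H.filter fun K => restr K a ∈ S₂ := by
        intro K hK
        rw [Finset.mem_filter] at hK ⊢
        exact ⟨hK.1, h12 hK.2⟩
      refine upN_down hk h2 (Finset.filter_subset _ _) d _ hsub ?_ (by omega)
      refine le_trans ?_ hcard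
      apply Finset.card_le_card_of_injOn (fun K => restr K a)
      · intro K hK
        rw [Finset.mem_coe, Finset.mem_sdiff, Finset.mem_filter, Finset.mem_filter] at hK
        rw [Finset.mem_coe, Finset.mem_sdiff]
        exact ⟨hK.1.2, fun h => hK.2 ⟨hK.1.1, h⟩⟩
      · intro K _ K' _ h
        exact restr_inj h
    · have h3 := root_of_eigen hy0 hy
      rw [hSa a S₁ (h12.trans h2S), hwt] at h3
      exact h3
  choose U hUH hUc hUr using hstep
  have hR : ((C'⁻¹).charpoly.roots.toFinset).card ≤ Fintype.card ι := by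
    refine (Multiset.toFinset_card_le _).trans ?_
    refine (Polynomial.card_roots' _).trans ?_
    rw [Matrix.charpoly_natDegree_eq_dim]
  have hwn : w₁ ≤ Fintype.card V := le_trans (Nat.sub_le _ _) (lwidth_le H)
  have hfib : ∀ r ∈ (C'⁻¹).charpoly.roots.toFinset,
      ((univ : Finset (V → A)).filter fun a => μ * ((wt t (U a) a ^ 2 : Fˣ) : F) = r).card ≤
        Fintype.card A ^ (Fintype.card V - w₁) := by
    intro r _
    rcases ((univ : Finset (V → A)).filter fun a => μ * ((wt t (U a) a ^ 2 : Fˣ) : F) = r).eq_empty_or_nonempty with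
      h5 | ⟨a, ha⟩
    · rw [h5, Finset.card_empty]
      exact Nat.zero_le _
    obtain ⟨c, hc1, hc2⟩ := Finset.exists_subset_card_eq (hUc a)
    have h6 : ((univ : Finset (V → A)).filter fun a => μ * ((wt t (U a) a ^ 2 : Fˣ) : F) = r) ⊆
        Fintype.piFinset fun i => if i ∈ c then {a i} else univ := by
      intro a' ha'
      rw [Fintype.mem_piFinset]
      intro i
      split_ifs with hi
      · rw [Finset.mem_singleton]
        have h7 : wt t (U a) a ^ 2 = wt t (U a') a' ^ 2 := by
          have h8 := (Finset.mem_filter.1 ha).2.trans (Finset.mem_filter.1 ha').2.symm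
          exact Units.ext (mul_left_cancel₀ hμ0 h8)
        have hic := hc1 hi
        rw [cut, Finset.mem_filter] at hic
        obtain ⟨-, ⟨K₁, hK₁, hiK₁⟩, K₂, hK₂, hiK₂⟩ := hic
        rw [Finset.mem_sdiff] at hK₂
        have h8 := gen_powF hg (hUH a) (hUH a') a a' h7 i (a i) K₁ (hUH a hK₁) hiK₁ K₂ hK₂.1 hiK₂
        by_contra hcon2
        simp [ex, hK₁, hK₂.2, hcon2] at h8
      · exact Finset.mem_univ _
    refine (Finset.card_le_card h6).trans ?_
    rw [Fintype.card_piFinset]
    have h7 : ∀ i, (if i ∈ c then ({a i} : Finset A) else univ).card = if i ∈ c then 1 else Fintype.card A := by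
      intro i
      split_ifs
      · exact Finset.card_singleton _
      · exact Finset.card_univ
    rw [Finset.prod_congr rfl fun i _ => h7 i, Finset.prod_ite, Finset.prod_const_one, one_mul, Finset.prod_const]
    have h8 : (univ.filter fun i => ¬ i ∈ c) = cᶜ := by ext; simp
    rw [h8, Finset.card_compl, hc2]
  have h1 := Finset.card_le_mul_card_image_of_maps_to (s := (univ : Finset (V → A)))
    (t := (C'⁻¹).charpoly.roots.toFinset) (f := fun a => μ * ((wt t (U a) a ^ 2 : Fˣ) : F)) (fun a _ => hUr a) _ hfib
  rw [Finset.card_univ, Fintype.card_fun] at h1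
  have h2 : Fintype.card A ^ Fintype.card V ≤ Fintype.card A ^ (Fintype.card V - w₁) * Fintype.card ι :=
    h1.trans (Nat.mul_le_mul_left _ hR)
  have h3 : Fintype.card A ^ Fintype.card V = Fintype.card A ^ (Fintype.card V - w₁) * Fintype.card A ^ w₁ := by
    rw [← pow_add]
    congr 1
    omega
  rw [h3] at h2
  exact Nat.le_of_mul_le_mul_left h2 (pow_pos (Fintype.card_pos_iff.2 ⟨o⟩) _)


end Pool.Agent.HS38.GT
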