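import Pool.Agent.HS38.GT.Stm4
import Pool.Agent.HS38.GT.Rand
import Pool.Agent.HS38.GT.GW

/-!
# Piece SP2 (helper61): sparse graphs without cut vertex with large linear width
-/

set_option autoImplicit false

namespace Pool.Agent.HS38.GT

open Finset

namespace SP2

variable {n : ℕ}

/-- the element `a + j` modulo `n` -/
def w (hn : 0 < n) (a : Fin n) (j : ℕ) : Fin n := ⟨(a.val + j) % n, Nat.mod_lt _ hn⟩

lemma w_zero (hn : 0 < n) (a : Fin n) : w hn a 0 = a := by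
  apply Fin.ext
  show (a.val + 0) % n = a.val
  rw [Nat.add_zero, Nat.mod_eq_of_lt a.2]

lemma w_w (hn : 0 < n) (a : Fin n) (j k : ℕ) : w hn (w hn a j) k = w hn a (j + k) := by
  apply Fin.ext
  show ((a.val + j) % n + k) % n = (a.val + (j + k)) % n
  rw [Nat.mod_add_mod, Nat.add_assoc]

lemma w_ex (hn : 0 < n) (a b : Fin n) : ∃ k < n, w hn a k = b := by
  refine ⟨(b.val + n - a.val) % n, Nat.mod_lt _ hn, Fin.ext ?_⟩
  show (a.val + (b.val + n - a.val) % n) % n = b.val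
  have h1 := a.2
  rw [Nat.add_mod_mod, show a.val + (b.val + n - a.val) = b.val + n by omega,
    Nat.add_mod_right, Nat.mod_eq_of_lt b.2]

lemma w_n (hn : 0 < n) (a : Fin n) : w hn a n = a := by
  apply Fin.ext
  show (a.val + n) % n = a.val
  rw [Nat.add_mod_right, Nat.mod_eq_of_lt a.2]

lemma w_inj (hn : 0 < n) (a : Fin n) {j k : ℕ} (hj : j < n) (hk : k < n)
    (h : w hn a j = w hn a k) : j = k := by
  have h1 : (a.val + j) % n = (a.val + k) % n := congrArg Fin.val h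
  have h2 : j ≡ k [MOD n] := Nat.ModEq.add_left_cancel' a.val h1
  exact Nat.ModEq.eq_of_lt_of_lt h2 hj hk

/-- walking from `P` to `Q` one meets the cut -/
lemma walk (hn : 0 < n) {P Q c : Fin n → Prop} (hall : ∀ i, P i ∨ Q i ∨ c i)
    (hPQ : ∀ i, P i → ¬ Q i) (hE : ∀ i, P i → ¬ Q (w hn i 1)) (a : Fin n) (k : ℕ) (hP : P a)
    (hQ : Q (w hn a k)) : ∃ j, 0 < j ∧ j < k ∧ c (w hn a j) := by
  by_contra hcon
  push Not at hcon
  have h1 : ∀ j, j < k → P (w hn a j) := by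
    intro j
    induction j with
    | zero => intro _; rw [w_zero]; exact hP
    | succ j ih =>
      intro hj
      have h2 := ih (by omega)
      rcases hall (w hn a (j + 1)) with h3 | h3 | h3
      · exact h3
      · rw [← w_w hn a j 1] at h3
        exact absurd h3 (hE _ h2)
      · exact absurd h3 (hcon (j + 1) (Nat.succ_pos j) hj)
  rcases Nat.eq_zero_or_pos k with h0 | h0
  · subst h0
    rw [w_zero] at hQ
    exact hPQ a hP hQ
  · obtain ⟨k', rfl⟩ : ∃ k', k = k' + 1 := ⟨k - 1, by omega⟩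
    have h2 := h1 k' (Nat.lt_succ_self _)
    rw [← w_w hn a k' 1] at hQ
    exact hE _ h2 hQ

lemma cutGe {H : Finset (Finset (Fin n))} (hn : 0 < n) (h2 : ∀ K ∈ H, K.card = 2)
    (hE : ∀ i, {i, w hn i 1} ∈ H) : CutGe H 2 := by
  intro U hU hUne hUH
  by_contra hcon
  have hmem : ∀ i, i ∈ cut H U ↔ (∃ K ∈ U, i ∈ K) ∧ ∃ K ∈ H \ U, i ∈ K := by
    intro i
    unfold cut
    rw [Finset.mem_filter]
    exact ⟨fun h => h.2, fun h => ⟨Finset.mem_univ _, h⟩⟩
  have hone : ∀ i ∈ cut H U, ∀ j ∈ cut H U, i = j := by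
    have : (cut H U).card ≤ 1 := by omega
    exact fun i hi j hj => Finset.card_le_one.1 this i hi j hj
  let P : Fin n → Prop := fun i => ∀ K ∈ H, i ∈ K → K ∈ U
  let Q : Fin n → Prop := fun i => ∀ K ∈ H, i ∈ K → K ∉ U
  have hall : ∀ i, P i ∨ Q i ∨ i ∈ cut H U := by
    intro i
    by_cases h3 : P i
    · exact Or.inl h3
    · by_cases h4 : Q i
      · exact Or.inr (Or.inl h4)
      · refine Or.inr (Or.inr ?_)
        rw [hmem]
        simp only [P, Q] at h3 h4
        push Not at h3 h4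
        obtain ⟨K, hK, hiK, hKU⟩ := h3
        obtain ⟨K', hK', hiK', hKU'⟩ := h4
        exact ⟨⟨K', hKU', hiK'⟩, K, Finset.mem_sdiff.2 ⟨hK, hKU⟩, hiK⟩
  have hcov : ∀ i : Fin n, i ∈ ({i, w hn i 1} : Finset (Fin n)) := fun i => by simp
  have hPQ : ∀ i, P i → ¬ Q i := fun i hP hQ =>
    hQ _ (hE i) (hcov i) (hP _ (hE i) (hcov i))
  have hE1 : ∀ i, P i → ¬ Q (w hn i 1) := fun i hP hQ =>
    hQ _ (hE i) (by simp) (hP _ (hE i) (hcov i))
  have hE2 : ∀ i, Q i → ¬ P (w hn i 1) := fun i hQ hP =>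
    hQ _ (hE i) (hcov i) (hP _ (hE i) (by simp))
  -- elements of P and Q
  have hex : ∀ K ∈ H, ∃ i ∈ K, i ∉ cut H U := by
    intro K hK
    obtain ⟨x, y, hxy, rfl⟩ := Finset.card_eq_two.1 (h2 K hK)
    by_contra h3
    push Not at h3
    exact hxy (hone x (h3 x (by simp)) y (h3 y (by simp)))
  obtain ⟨p, hp⟩ : ∃ p, P p := by
    obtain ⟨K, hK⟩ := hUne
    obtain ⟨i, hiK, hi⟩ := hex K (hU hK)
    rcases hall i with h3 | h3 | h3
    · exact ⟨i, h3⟩
    · exact absurd hK (h3 K (hU hK) hiK)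
    · exact absurd h3 hi
  obtain ⟨q, hq⟩ : ∃ q, Q q := by
    obtain ⟨K, hK, hKU⟩ : ∃ K ∈ H, K ∉ U := by
      by_contra h3
      push Not at h3
      exact hUH (Finset.Subset.antisymm hU h3)
    obtain ⟨i, hiK, hi⟩ := hex K hK
    rcases hall i with h3 | h3 | h3
    · exact absurd (h3 K hK hiK) hKU
    · exact ⟨i, h3⟩
    · exact absurd h3 hi
  obtain ⟨k, hkn, hk⟩ := w_ex hn p q
  obtain ⟨j, hj0, hjk, hj⟩ := walk hn (c := fun i => i ∈ cut H U) hall hPQ hE1 p k hp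
    (by rw [hk]; exact hq)
  have hback : w hn q (n - k) = p := by
    rw [← hk, w_w, show k + (n - k) = n by omega, w_n]
  obtain ⟨j', hj0', hjk', hj'⟩ := walk hn (P := Q) (Q := P) (c := fun i => i ∈ cut H U)
    (fun i => by
      rcases hall i with h3 | h3 | h3
      · exact Or.inr (Or.inl h3)
      · exact Or.inl h3
      · exact Or.inr (Or.inr h3)) (fun i hQ hP => hPQ i hP hQ) hE2 q (n - k) hq
    (by rw [hback]; exact hp)
  have h3 := hone _ hj _ hj'
  rw [← hk, w_w] at h3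
  have h4 := w_inj hn p (by omega) (by omega) h3
  omega

end SP2

open SP2 in
theorem t_SP2 : S_SP2 := by
  intro ε h0 h1
  obtain ⟨C, n₀, hR⟩ := t_RAND (ε / 3) (by positivity) (by linarith)
  refine ⟨C + 1, max (max n₀ 2) ⌈6 / ε⌉₊, fun n hn => ?_⟩
  have hn0 : n₀ ≤ n := (le_max_left _ _).trans ((le_max_left _ _).trans hn)
  have hn2 : 2 ≤ n := (le_max_right n₀ 2).trans ((le_max_left _ _).trans hn)
  have hn6 : 6 / ε ≤ n := (Nat.le_ceil _).trans (by exact_mod_cast (le_max_right _ _).trans hn)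
  obtain ⟨H₀, hc, hK, hi, hXY⟩ := hR n hn0
  have hnpos : 0 < n := by omega
  obtain ⟨H, hH⟩ : ∃ H : Finset (Finset (Fin n)), H = H₀ ∪ univ.image fun i => {i, w hnpos i 1} :=
    ⟨_, rfl⟩
  have hE : ∀ i, {i, w hnpos i 1} ∈ H := by
    intro i
    rw [hH, Finset.mem_union]
    exact Or.inr (Finset.mem_image.2 ⟨i, Finset.mem_univ _, rfl⟩)
  have h2 : ∀ K ∈ H, K.card = 2 := by
    intro K hKH
    rw [hH, Finset.mem_union] at hKH
    rcases hKH with h | h
    · exact hK K h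
    · obtain ⟨i, -, rfl⟩ := Finset.mem_image.1 h
      refine Finset.card_pair fun h3 => ?_
      rw [← w_zero hnpos i, w_w] at h3
      exact absurd (w_inj hnpos i (by omega) (by omega) h3) (by omega)
  have hcov : ∀ i, ∃ K ∈ H, i ∈ K := fun i => ⟨_, hE i, by simp⟩
  refine ⟨H, ?_, h2, hcov, cutGe hnpos h2 hE, ?_⟩
  · rw [hH]
    refine (Finset.card_union_le _ _).trans ?_
    have h3 : (univ.image fun i : Fin n => ({i, w hnpos i 1} : Finset (Fin n))).card ≤ n := by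
      refine Finset.card_image_le.trans ?_
      rw [Finset.card_univ, Fintype.card_fin]
    rw [Nat.add_mul, Nat.one_mul]
    exact Nat.add_le_add hc h3
  · have h3 := t_GW (Fin n) H ⌈ε / 3 * n⌉₊ h2 hcov (by
      intro X Y hd hX hY
      obtain ⟨x, hx, y, hy, hxy⟩ := hXY X Y hd
        ((Nat.le_ceil _).trans (by exact_mod_cast hX)) ((Nat.le_ceil _).trans (by exact_mod_cast hY))
      exact ⟨x, hx, y, hy, by rw [hH]; exact Finset.mem_union_left _ hxy⟩)
    rw [Fintype.card_fin] at h3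
    have h4 : (⌈ε / 3 * n⌉₊ : ℝ) < ε / 3 * n + 1 := Nat.ceil_lt_add_one (by positivity)
    have h5 : (n : ℝ) ≤ lwidth H + 2 * ⌈ε / 3 * n⌉₊ := by
      have : n ≤ lwidth H + 2 * ⌈ε / 3 * n⌉₊ := by omega
      exact_mod_cast this
    rw [div_le_iff₀ h0] at hn6
    nlinarith
end Pool.Agent.HS38.GT
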