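import Pool.Agent.HS38.GT.Stm

set_option autoImplicit false

namespace Pool.Agent.HS38.GT

open MvPolynomial Finset Pool.Agent.Helper1x.EQ

/-- Piece SAT. -/
theorem t_SAT : S_SAT := by
  intro F _ V A _ _ _ _ H Φ
  unfold Z
  rw [map_sum]
  have h : ∀ a : V → A, eval (fun β => if β ∈ Φ then (0 : F) else 1) (∏ K ∈ H, X (restr K a)) =
      if ∀ K ∈ H, restr K a ∉ Φ then 1 else 0 := by
    intro a
    rw [map_prod]
    simp only [eval_X]
    split_ifs with h
    · refine prod_eq_one (fun K hK => ?_)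
      rw [if_neg (h K hK)]
    · push Not at h
      obtain ⟨K, hK, hK2⟩ := h
      exact prod_eq_zero hK (by rw [if_pos hK2])
  rw [sum_congr rfl (fun a _ => h a), sum_boole]

end Pool.Agent.HS38.GT
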