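import Pool.Agent.HS38.GT.Defs

/-!
# Project GT (helper38): gauge symmetric computations of the counting polynomials of #CSP and #k-SAT

Statements of the pieces, with proofs. A file `Pool/Agent/HS38/GT/<Name>.lean` proves
`theorem Pool.Agent.HS38.GT.t_<NAME> : S_<NAME>`.
-/

set_option autoImplicit false

namespace Pool.Agent.HS38.GT

open MvPolynomial Finset Pool.Agent.Helper1x.EQ

/-- SAT (easy). A clause is given by the partial assignment which falsifies it. At the point whose coordinate at `β` is `0`
if the clause `β` is present (`β ∈ Φ`) and `1` otherwise the value of the counting polynomial is the number of the assignments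
which satisfy all clauses of `Φ` with scope in `H`. Proof. `map_sum`, `map_prod`; a product of zeros and ones is one iff all
factors are one; `Finset.sum_boole`. -/
def S_SAT : Prop := ∀ (F : Type) [Field F] (V A : Type) [Fintype V] [DecidableEq V] [Fintype A] [DecidableEq A]
  (H : Finset (Finset V)) (Φ : Finset (V → Option A)),
  eval (fun β => if β ∈ Φ then (0 : F) else 1) (Z F A H) =
    ((univ.filter fun a : V → A => ∀ K ∈ H, restr K a ∉ Φ).card : F)

/-- CLOW (lower bound for programs). Proof. Let `m a U` be the monomial `∏_{K ∈ U} X (restr K a)`, i.e.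
`mono (U.image (restr · a))` of `Helper1x/EQ/Chain.lean`. (a) the coefficient of `m a H` in `Z F A H` is `1` (every variable
is in a scope, so `a` is determined). (b) if `coeff u f ≠ 0` for an `f ∈ Sp l` then `u = 0`, or `u` is a single variable, or
`coeff u (s.1 * s.2) ≠ 0` for an `s ∈ l`. (c) if `coeff (m a U) (g * h) ≠ 0`, `U ⊆ H`, then `U` is the disjoint union of
`U₁`, `U₂` with `coeff (m a U₁) g ≠ 0`, `coeff (m a U₂) h ≠ 0` (`coeff_mul`; a summand of `m a U` is `m a U₁`). (d) Fix `w`,
`a`. Claim, by induction on the list `l` (valid, strong form: for all `f ∈ Sp l`): if `coeff (m a U) f ≠ 0`, `U ⊆ H` nonempty,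
then there are `s ∈ l` and disjoint nonempty `U₁, U₂ ⊆ H` with `coeff (m a U₁) s.1 ≠ 0`, `coeff (m a U₂) s.2 ≠ 0` and
`w ≤ (cut H U₁ ∪ cut H U₂).card`, or there is a proper tree with leaves `U` all of whose nodes have less than `w` variables
in `cut ∪ cut`. (By (b), (c) for the first list entry `s` or by the induction hypothesis; if `U₁` or `U₂` is empty pass to
`s.2` or `s.1 ∈ Sp l'` with the same `U`.) (e) For `U = H`, `w = cwidth H`, `2 ≤ H.card` the tree is impossible (it is a node,
so `1 ≤ w` and its width is `< w`). So every `a` has such an `s`; choose `s`, `U₁`, `U₂`. If `a, a'` have the same `s` then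
they agree on `cut H U₁ ∪ cut H U₂`: for `i ∈ cut H U₁` there are `K ∈ U₁`, `K' ∈ H \ U₁` containing `i`, and
`cnt K i (a i) - cnt K' i (a i)` is `1` for `m a U₁`, so it is `1` for `m a' U₁'`, so `a' i = a i`. So at most
`|A| ^ (|V| - w)` assignments `a` have the same `s`, and `|A| ^ |V| ≤ l.length * |A| ^ (|V| - w)`. (If `s` occurs twice in
`l` nothing changes: count the elements of `l.toFinset`.) -/
def S_CLOW : Prop := ∀ (F : Type) [Field F] (V A : Type) [Fintype V] [DecidableEq V] [Fintype A] [DecidableEq A]
  [Nonempty A] (H : Finset (Finset V)), 2 ≤ H.card → (∀ i, ∃ K ∈ H, i ∈ K) →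
  ∀ l : List (MvPolynomial (V → Option A) F × MvPolynomial (V → Option A) F), Valid l →
    (∀ s ∈ l, Hom H s.1 ∧ Hom H s.2) → Z F A H ∈ Sp l → Fintype.card A ^ cwidth H ≤ l.length

/-- CUP (upper bound for programs: contraction of the tensor network). Proof. Take a tree of width `cwidth H`
(`Nat.sInf_mem`; a proper tree with leaves `H` exists). For a set `U ⊆ H` and `b : V → A` put
`T U b = ∑_{a ∈ S U b} ∏_{K ∈ U} X (restr K a)`, `S U b` = the `a` with `a i = b i` for all `i` in `cut H U` and for all `i`
which are in no scope of `U`. It depends only on the values of `b` on `cut H U` (the other `i` do not matter since the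
`X (restr K a)`, `K ∈ U`, only see the variables of `U`). `T U b` is homogeneous (for `i ∈ cut H U` the number `cnt K i α` is
`1` iff `K ∈ U` and `b i = α`; for other `i` all or none of the scopes containing `i` are in `U`) and `Z F A H = T H b`
(every `i` is in a scope and none is in `cut H H`). For disjoint `U₁, U₂`, `U = U₁ ∪ U₂`, `W = cut H U₁ ∪ cut H U₂`:
`T U b` is the sum, over the `d : W → A` (extended by `b`, or by a fixed value, outside `W`) which agree with `b` on `cut H U`
[and are canonical at the variables in no scope of `U`: none of them is in `W`], of `T U₁ d * T U₂ d`. So with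
`|A| ^ W.card ≤ |A| ^ width` products all `T U b` are obtained from all `T U₁ d`, `T U₂ d`; a leaf needs no product; the number
of nodes is `H.card - 1`. Programs can be concatenated: `Valid (l ++ l')` and `Sp l ≤ Sp (l ++ l')`, `Sp l' ≤ Sp (l ++ l')`. -/
def S_CUP : Prop := ∀ (F : Type) [Field F] (V A : Type) [Fintype V] [DecidableEq V] [Fintype A] [DecidableEq A]
  [Nonempty A] (H : Finset (Finset V)), H.Nonempty → (∀ i, ∃ K ∈ H, i ∈ K) →
  ∃ l : List (MvPolynomial (V → Option A) F × MvPolynomial (V → Option A) F), Valid l ∧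
    (∀ s ∈ l, Hom H s.1 ∧ Hom H s.2) ∧ Z F A H ∈ Sp l ∧ l.length ≤ (H.card - 1) * Fintype.card A ^ cwidth H

/-- CW (contraction width of all scopes with `k` elements). Proof. `≤` is trivial (`cut ∪ cut ⊆ univ`; a proper tree with
leaves any given nonempty set exists). `≥`: say that `U` has a full variable if there is an `i` such that all scopes
containing `i` are in `U`. `H` itself has one, a leaf has none (`i` is in at least two scopes since `2 ≤ k < |V|`). So by
induction the tree has a node with leaves `U = U₁ ∪ U₂` such that `U` has a full variable `i₀` and `U₁`, `U₂` have none. Every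
`i ≠ i₀` is in a scope `K ∋ i, i₀` of `U`, so in `U₁` or `U₂`, and not all scopes containing `i` are in this `U_j`: `i` is in
`cut H U_j`. Also `i₀` is in `cut H U₁` (some scope containing `i₀` is in `U₁`, otherwise all of them are in `U₂`, and not
all). -/
def S_CW : Prop := ∀ (V : Type) [Fintype V] [DecidableEq V] (k : ℕ), 2 ≤ k → k < Fintype.card V →
  cwidth (scopes V k) = Fintype.card V

/-- the only multiplicative relations between the numbers `c β` are the necessary ones -/
def Free {F : Type} [Field F] {V A : Type} [Fintype V] [DecidableEq V] [Fintype A] [DecidableEq A]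
    (H : Finset (Finset V)) (c : (V → Option A) → F) : Prop :=
  (∀ β, c β ≠ 0) ∧ ∀ u v : (V → Option A) →₀ ℕ, (u.prod fun x n => c x ^ n) = (v.prod fun x n => c x ^ n) →
    ∀ i α, ∀ K ∈ H, i ∈ K → ∀ K' ∈ H, i ∈ K' →
      (cnt K i α u : ℤ) - cnt K' i α u = cnt K i α v - cnt K' i α v

/-- the set of factors of the list of product steps is invariant, up to scalars, under the substitution `x ↦ c x` -/
def Inv {F σ : Type} [Field F] (c : σ → F) (l : List (MvPolynomial σ F × MvPolynomial σ F)) : Prop :=
  ∀ s ∈ l, ∀ p, (p = s.1 ∨ p = s.2) → ∃ s' ∈ l, ∃ q, (q = s'.1 ∨ q = s'.2) ∧ ∃ b : F, scale c p = C b * q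

/-- INV. Proof. `scale c` is injective (all `c β ≠ 0`; `coeff_scale`). Let `p ≠ 0` be a factor; then `scale c ^ n p = C b_n * q_n`
with a factor `q_n ≠ 0` and `b_n ≠ 0` for all `n` (induction), so by the pigeonhole principle there are `n < n'` with
`q_n = q_n'`, so `scale c ^ n' p = C b * scale c ^ n p`; by injectivity (cancel `scale c ^ n`) `scale c ^ N p = C b * p`,
`N = n' - n ≥ 1`. Compare coefficients at `u, u' ∈ p.support`: `∏ c ^ (N u) = b = ∏ c ^ (N u')`; `Free` for `N u`, `N u'`, and
`cnt K i α (N • u) = N * cnt K i α u`; divide by `N`. -/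
def S_INV : Prop := ∀ (F : Type) [Field F] (V A : Type) [Fintype V] [DecidableEq V] [Fintype A] [DecidableEq A]
  (H : Finset (Finset V)) (c : (V → Option A) → F), Free H c →
  ∀ l : List (MvPolynomial (V → Option A) F × MvPolynomial (V → Option A) F), Inv c l →
    ∀ s ∈ l, Hom H s.1 ∧ Hom H s.2

/-- GEN2. Proof. For every `i` choose a scope `K_i ∈ H` containing `i` (if there is one), and distinct primes `p K i α` for
`K ∈ H`, `i ∈ K`, `K ≠ K_i`. `t K i α = p K i α`, `t K_i i α = ∏_{K ≠ K_i} (p K i α)⁻¹` and `t K i α = 1` in all other cases. Then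
`∏ gauge t β ^ u β = ∏_{i, α, K ≠ K_i} (p K i α) ^ (cnt K i α u - cnt K_i i α u)`; independence of the primes in `ℚ ⊆ F`. -/
def S_GEN2 : Prop := ∀ (F : Type) [Field F] [CharZero F] (V A : Type) [Fintype V] [DecidableEq V] [Fintype A]
  [DecidableEq A] (H : Finset (Finset V)), ∃ t : Finset V → V → A → Fˣ, IsGauge H t ∧ Free H (gauge t)

/-- GEN1. Proof. As GEN2, with powers of one unit `g` (`exists_unit` of `Helper1x/EQ/Gen.lean`) instead of primes:
`t K i α = g ^ E K i α`, `E` super-increasing for `K ≠ K_i`, `α ≠ o` (e.g. powers of `9`), `E K_i i α = - ∑_{K ≠ K_i} E K i α`,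
`E K i o = 0`; `balanced` of the same file for the differences `e K i α - e K_i i α` of absolute value at most `4`. -/
def S_GEN1 : Prop := ∀ (F : Type) [Field F] [Infinite F] (V A : Type) [Fintype V] [DecidableEq V] [Fintype A]
  [DecidableEq A] (H : Finset (Finset V)) (o : A), ∃ t : Finset V → V → A → Fˣ, Generic H o t

/-- DUP (upper bound for determinants). Proof. Enumerate `H` as `K_1, …, K_D`. Rows and columns: a root and the pairs `(a, j)`,
`a : V → A`, `1 ≤ j < D`. Entries: `(root, (a, 1)) ↦ X (restr K_1 a)`, `((a, j), (a, j)) ↦ 1` (or `-1`),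
`((a, j), (a, j + 1)) ↦ X (restr K_{j+1} a)`, `((a, D - 1), root) ↦ X (restr K_D a)`, up to signs. Its determinant is
`± ∑_a ∏_j X (restr K_j a)` (block form; remove the sign from the first row). Equivariance: diagonal `B = diag b`, `C = B⁻¹` with
`b root = 1`, `b (a, j) = ∏_{l ≤ j} (gauge t (restr K_l a))⁻¹`; the product over all `l ≤ D` is one by `IsGauge`. If `H.card = 1`
the matrix has the single entry `Z F A H`. -/
def S_DUP : Prop := ∀ (F : Type) [Field F] (V A : Type) [Fintype V] [DecidableEq V] [Fintype A] [DecidableEq A]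
  (H : Finset (Finset V)), H.Nonempty →
  ∃ M : Matrix (Fin ((H.card - 1) * Fintype.card A ^ Fintype.card V + 1))
      (Fin ((H.card - 1) * Fintype.card A ^ Fintype.card V + 1)) (MvPolynomial (V → Option A) F),
    IsDetRep M (Z F A H) ∧ ∀ t : Finset V → V → A → Fˣ, IsGauge H t → Equivariant (gauge t) M

end Pool.Agent.HS38.GT
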