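import Pool.Agent.HS38.GT.Stm9
import Pool.Agent.HS38.GT.Stm7

/-!
# Project GT, part 5 continued: the upper bounds with gauge homogeneous steps over every field
-/

set_option autoImplicit false

namespace Pool.Agent.HS38.GT

open MvPolynomial Finset Pool.Agent.Helper1x.EQ Pool.Agent.H20VP

/-- CUP3 (`S_CUP2` with the additional property `Hom H p` of all steps `p`). Proof. In `CUP2.lean` use in addition to `EigV F H U b p` the
property `HomV F H U b p`: for all `u ∈ p.support` and all `i`, `α`, `K, K' ∈ H` containing `i`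
`cnt K i α u - cnt K' i α u = ex U b K i α - ex U b K' i α` (`ex` in `DLow.lean`; `[K ∈ U][b i = α] - [K' ∈ U][b i = α]`). It is
preserved by sums (`support_add`); for `pr F U a` the only monomial is `Clow.mm a U` and `Clow.cnt_mm` gives `cnt`, and for
`i ∈ inn H U` both differences are `0`; for products of `U₁`, `U₂` disjoint `cnt` is additive (`support_mul`). `HomV` implies
`Hom H p`. -/
def S_CUP3 : Prop := ∀ (F : Type) [Field F] (V A : Type) [Fintype V] [DecidableEq V] [Fintype A] [DecidableEq A]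
  [Nonempty A] (H : Finset (Finset V)), H.Nonempty → (∀ i, ∃ K ∈ H, i ∈ K) →
  ∃ l : List (MvPolynomial (V → Option A) F), SL l ∧
    (∀ p ∈ l, (∀ t : Finset V → V → A → Fˣ, IsGauge H t → Eig (gauge t) p) ∧ Hom H p) ∧ Z F A H ∈ l ∧
    l.length ≤ 2 * (H.card - 1) * Fintype.card A ^ cwidth H + 2 * ∑ K ∈ H, Fintype.card A ^ K.card

/-- LSK3 (`S_LSK` with the additional property `Hom H p` of all steps `p`, as CUP3). -/
def S_LSK3 : Prop := ∀ (F : Type) [Field F] (V A : Type) [Fintype V] [DecidableEq V] [Fintype A] [DecidableEq A]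
  [Nonempty A] (H : Finset (Finset V)), H.Nonempty → (∀ i, ∃ K ∈ H, i ∈ K) →
  ∃ l : List (MvPolynomial (V → Option A) F), SK l ∧
    (∀ p ∈ l, (∀ t : Finset V → V → A → Fˣ, IsGauge H t → Eig (gauge t) p) ∧ Hom H p) ∧ Z F A H ∈ l ∧
    l.length ≤ 2 * (∑ K ∈ H, Fintype.card A ^ K.card) * Fintype.card A ^ lwidth H

end Pool.Agent.HS38.GT
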