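import Pool.Agent.HS38.GT.Stm4
import Pool.Agent.H20VP.Defs

/-!
# Project GT, part 5 (helper38): gauge homogeneous circuits, the classification of VP and VP_ws for constraint networks

Goal (hard MP_f18ce0_lc, VP versus VP_ws): for every constraint network `H` and one generic gauge symmetry, circuits whose
nodes are eigenvectors have size about `q ^ cwidth H`, weakly skew circuits and determinants size about `q ^ lwidth H`, and
`lwidth H ≤ cwidth H * (log₂ |H| + 1)`; this is attained for binary trees blown up by cliques.

Files as before: `Pool/Agent/HS38/GT/<Name>.lean` proves `theorem Pool.Agent.HS38.GT.t_<NAME> : S_<NAME>` (import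
`Pool.Agent.HS38.GT.Stm6`, private lemmas in the namespace `Pool.Agent.HS38.GT.<NAME>`).

`Circuit`, `Gate`, `Circuit.size`, `Circuit.WeaklySkew`, `Circuit.FanInTwo`, `Circuit.Edge`, `Circuit.Below` are in
`Pool/Agent/H20VP/Defs.lean`; `scale c` (the substitution `x ↦ c x`) in `Pool/Agent/Helper1x/EQ`.
-/

set_option autoImplicit false

namespace Pool.Agent.HS38.GT

open MvPolynomial Finset Pool.Agent.Helper1x.EQ Pool.Agent.H20VP

/-- `p` is an eigenvector of the substitution `x ↦ c x` -/
def Eig {K X : Type} [Field K] (c : X → K) (p : MvPolynomial X K) : Prop := ∃ b : K, scale c p = C b * p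

/-- the circuit computes `f`, and the polynomials at all its nodes are eigenvectors of the substitution `x ↦ c x` -/
def EigComputes {K X : Type} [Field K] (c : X → K) (Q : Circuit K X) (f : MvPolynomial X K) : Prop :=
  ∃ φ : Q.N → MvPolynomial X K, (∀ n, φ n = (Q.gate n).value φ) ∧ φ Q.out = f ∧ ∀ n, Eig c (φ n)

/-- the number of multiplication gates -/
noncomputable def muls {K X : Type} (Q : Circuit K X) : ℕ := Nat.card {n : Q.N // ∃ a b, Q.gate n = .mul a b}

/-- a straight-line program, the last step first: each step is a variable, a constant, or the sum or the product of two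
earlier steps -/
def SL {K X : Type} [Field K] : List (MvPolynomial X K) → Prop
  | [] => True
  | p :: l => SL l ∧ ((∃ x, p = MvPolynomial.X x) ∨ (∃ b, p = C b) ∨ ∃ g ∈ l, ∃ h ∈ l, p = g + h ∨ p = g * h)

/-- the vertices of the complete binary tree of height `h` (the numbers `1, …, 2 ^ (h + 1) - 1`, the parent of `v` is `v / 2`),
each replaced by `r` variables -/
abbrev TV (h r : ℕ) : Type := {v : ℕ // v ∈ Finset.Ico 1 (2 ^ (h + 1))} × Fin r

/-- the binary constraints between different variables of the same tree vertex or of a tree vertex and its parent -/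
def TH (h r : ℕ) : Finset (Finset (TV h r)) :=
  (univ.filter fun p : TV h r × TV h r => p.1 ≠ p.2 ∧ (p.1.1.1 = p.2.1.1 ∨ p.1.1.1 = p.2.1.1 / 2)).image
    fun p => {p.1, p.2}

/-- CLC (lower bound for circuits; adapt `Clow.lean`). Proof. `φ n` are the polynomials at the nodes, `τ` a rank of the nodes
(`exists_rank` in `Helper1x/EQ/WS.lean`). Let `w = cwidth H`, `1 ≤ w` (else: there is at least one multiplication gate, otherwise all
`φ n` have only monomials of degree at most `1`, but `mm a H` has degree `H.card ≥ 2`). (1) By induction on `τ n`: if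
`coeff (mm a U) (φ n) ≠ 0`, `U ⊆ H` nonempty, then there are a multiplication gate `g` with inputs `x, y` and sets
`U₁, U₂ ⊆ H` with `coeff (mm a U₁) (φ x) ≠ 0`, `coeff (mm a U₂) (φ y) ≠ 0`, `w ≤ (cut H U₁ ∪ cut H U₂).card`, or there is a
proper tree with leaves `U` and width `< w` (as `Clow.claim`: variable: leaf; constant: impossible; addition: one of the summands
has the monomial; multiplication: `Clow.coeff_mm_mul`; if `U₁` or `U₂` is empty pass to the other factor). (2) For `n = Q.out`,
`U = H` the tree is impossible, so every `a` has such a gate. (3) If `a`, `a'` have the same gate then they agree on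
`cut H U₁ ∪ cut H U₂`: `φ x` is an eigenvector of `scale (gauge t)`, so the two monomials `mm a U₁`, `mm a' U₁'` have the same
weight (`coeff_scale`), `∏_{K ∈ U₁} ∏_{i ∈ K} t K i (a i) = ∏_{K ∈ U₁'} ∏_{i ∈ K} t K i (a' i)` (`gauge_restr` in `DLow.lean`), this is
a relation with exponents `[K ∈ U₁][a i = α] - [K ∈ U₁'][a' i = α]` of absolute value at most `1`; by `Generic4` they are the same
for all `K ∈ H` containing `i`; for `i ∈ cut H U₁` there are `K ∈ U₁` and `K' ∈ H \ U₁` containing `i`; at `α = a i`:
`1 - [K ∈ U₁'][a' i = a i] = 0 - [K' ∈ U₁'][a' i = a i]`, so `a' i = a i`. (4) Count as in `t_CLOW` (`Clow.card_agree`). -/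
def S_CLC : Prop := ∀ (F : Type) [Field F] (V A : Type) [Fintype V] [DecidableEq V] [Fintype A] [DecidableEq A]
  [Nonempty A] (H : Finset (Finset V)) (t : Finset V → V → A → Fˣ), 2 ≤ H.card → (∀ i, ∃ K ∈ H, i ∈ K) →
  Generic4 H t → ∀ Q : Circuit F (V → Option A), EigComputes (gauge t) Q (Z F A H) →
  Fintype.card A ^ cwidth H ≤ muls Q

/-- SLC (straight-line programs are circuits). Proof. Number the steps: `G : Fin l.length → MvPolynomial X K` (the last element of
the list is number `0`, or use the position in the list reversed), and for each number `n` a gate label with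
predecessors `< n` and `G n = value` (by induction on the list; e.g. prove: for `SL l` there is `gate : ℕ → Gate K X ℕ` with
`∀ n < l.length, ∀ m ∈ (gate n).preds, m < n` and `l.reverse.getD n 0 = (gate n).value (fun m => l.reverse.getD m 0)`, additions with
two predecessors). Let `o` be the number of `f`, and `N` the subtype of the numbers `n < l.length` with a directed path from
`n` to `o` (`Relation.ReflTransGen`). Restrict the gates to `N` (a predecessor of an element of `N` is in `N`; choose for each
`n : N` the gate label with `N`-valued predecessors). `o` is the only sink: an element of `N` different from `o` has a path to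
`o`, so a successor in `N`; `o` has no successor in `N` (it would have a path to `o`, but edges increase the number). Acyclic:
edges increase the number. `size ≤ l.length`: `Fintype.card_le_of_injective`. -/
def S_SLC : Prop := ∀ (K X : Type) [Field K] (l : List (MvPolynomial X K)), SL l → ∀ f ∈ l,
  ∃ (Q : Circuit K X) (φ : Q.N → MvPolynomial X K), Q.FanInTwo ∧ Q.size ≤ l.length ∧
    (∀ n, φ n = (Q.gate n).value φ) ∧ φ Q.out = f ∧ ∀ n, φ n ∈ l

/-- CUP2 (upper bound for straight-line programs; adapt `Cup.lean`, where only product steps are counted). Proof. As `S_CUP`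
(file `Stm.lean`): `T U b` as there. A leaf `K`: for each of the `q ^ |cut H {K}|` values of `b` on `cut H {K}` the sum of the
`X (restr K a)`, altogether at most `q ^ K.card` variables and at most `q ^ K.card` additions. A node `U = U₁ ∪ U₂`,
`W = cut H U₁ ∪ cut H U₂`: `q ^ |W|` products `T U₁ d * T U₂ d` and at most `q ^ |W|` additions. All the terms of the sum for
`T U b` are eigenvectors of `scale (gauge t)` with the same eigenvalue
`∏_{i ∈ cut H U} ∏_{K ∈ U, i ∈ K} t K i (b i)` (`IsGauge` for the variables all of whose scopes are in `U`), so the partial sums are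
eigenvectors too. Useful: if `f_1, …, f_k ∈ l` are eigenvectors with the same eigenvalue for each `t` then `k - 1` further
steps give the sum; `SL l → SL l' → SL (l ++ l')`. -/
def S_CUP2 : Prop := ∀ (F : Type) [Field F] (V A : Type) [Fintype V] [DecidableEq V] [Fintype A] [DecidableEq A]
  [Nonempty A] (H : Finset (Finset V)), H.Nonempty → (∀ i, ∃ K ∈ H, i ∈ K) →
  ∃ l : List (MvPolynomial (V → Option A) F), SL l ∧
    (∀ p ∈ l, ∀ t : Finset V → V → A → Fˣ, IsGauge H t → Eig (gauge t) p) ∧ Z F A H ∈ l ∧
    l.length ≤ 2 * (H.card - 1) * Fintype.card A ^ cwidth H + 2 * ∑ K ∈ H, Fintype.card A ^ K.card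

/-- WSK (weakly skew circuits with eigenvectors at the nodes give equivariant determinants). Proof. `ws_det` (file
`Pool/Agent/Helper1x/EQ/WS.lean`, import it) with `Γ = Additive Kˣ`, `w x = Additive.ofMul (c x)`: an eigenvector `p ≠ 0`,
`scale c p = C b * p`, is weighted homogeneous of degree `Additive.ofMul b` (`coeff_scale`: `∏ c ^ m = b` for every monomial `m` of
`p`; `p = 0`: any degree). `equivariant_of_graded` (file `Circ.lean` there) with `f = RingHom.id K` and the obvious
`χ : Multiplicative (Additive Kˣ) →* Kˣ`; `MvPolynomial.map_id`. Reindex the matrix by `Fin (Q.size + 1)` (`Matrix.reindex`,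
`Fintype.equivFinOfCardEq`; or copy what is done elsewhere in `Helper1x/EQ`). -/
def S_WSK : Prop := ∀ (K X : Type) [Field K] (c : X → Kˣ) (Q : Circuit K X) (f : MvPolynomial X K), Q.WeaklySkew →
  EigComputes (fun x => ((c x : Kˣ) : K)) Q f →
  ∃ M : Matrix (Fin (Q.size + 1)) (Fin (Q.size + 1)) (MvPolynomial X K),
    IsDetRep M f ∧ Equivariant (fun x => ((c x : Kˣ) : K)) M

/-- LWC (linear width and contraction width). Proof. By induction on the tree `T` (proper, leaves `S`), for fixed `w`: if
`T.width H ≤ w` and `(cut H T.leaves).card ≤ w` then there is a list `l` without repetitions, `l.toFinset = T.leaves`, with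
`(cut H s.toFinset).card ≤ w * (Nat.log 2 T.leaves.card + 1)` for all suffixes `s` of `l`. Leaf `K`: `[K]`. Node `T₁`, `T₂`: the
width of `T` contains `(cut H T₁.leaves ∪ cut H T₂.leaves).card`, so the hypotheses hold for `T₁`, `T₂`; let `T₁` be the one with
more leaves (w.l.o.g.), take `l = l₂ ++ l₁`. A suffix of `l` is a suffix of `l₁` or `s ++ l₁`, `s` a suffix of `l₂`; and
`cut H (S₁ ∪ S') ⊆ cut H S₁ ∪ cut H S'`, so its cut has at most `w + w * (log₂ |S₂| + 1)` elements, and `2 |S₂| ≤ |S|` gives
`log₂ |S₂| + 1 ≤ log₂ |S|`. Take the tree of `cwidth H` (`Nat.sInf_mem`; a proper tree with leaves `H` exists, see `CW.lean`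
or `Cup.lean`; for `2 ≤ H.card`), `cut H H = ∅`. Then `Nat.sInf_le`. -/
def S_LWC : Prop := ∀ (V : Type) [Fintype V] [DecidableEq V] (H : Finset (Finset V)), H.Nonempty →
  lwidth H ≤ cwidth H * (Nat.log 2 H.card + 1)

/-- TYP (types of bags). A variable `x ∉ cut H U` is in scopes of `U` only (type P) or in no scope of `U` (type Q). Proof. Every variable
is in a scope (`2 ≤ r`). Let `x_v` be the variable of `v` outside the cut; suppose that it has type P. Then every `u ∈ R` has a
variable of type P, by strong induction on `u`: for `u ≠ v` let `x'` be one of `u / 2 ∈ R` and `x` a variable of `u` outside the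
cut; `{x', x}` is a scope (`u / 2 ≠ u` since `1 ≤ u`), it is in `U`, so `x` has type P. Then every variable `y` of `u ∈ R` is in a scope of
`U`: if `x` is the variable of type P of `u` then `y = x`, or `{x, y}` is a scope and in `U`. The case of type Q is the same with
`H \ U`. -/
def S_TYP : Prop := ∀ h r : ℕ, 2 ≤ r → ∀ U ⊆ TH h r, ∀ (R : Set ℕ) (v : ℕ), v ∈ R →
  (∀ u ∈ R, 1 ≤ u ∧ u < 2 ^ (h + 1)) → (∀ u ∈ R, u ≠ v → u / 2 ∈ R) →
  (∀ u ∈ R, ∃ x : TV h r, x.1.1 = u ∧ x ∉ cut (TH h r) U) →
  (∀ x : TV h r, x.1.1 ∈ R → ∃ K ∈ U, x ∈ K) ∨ (∀ x : TV h r, x.1.1 ∈ R → ∃ K ∈ TH h r \ U, x ∈ K)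

/-- TRL (linear width of the blown-up tree). Proof. `lwidth (TH h r)` is attained by a list `l` (`Nat.sInf_mem`; the set is not
empty). For `v ≥ 1`, `(v + 1) * 2 ^ t ≤ 2 ^ (h + 1)` let `R v t = {u | ∃ s ≤ t, u / 2 ^ s = v}` (the subtree of `v` of height `t`).
Claim: there is a suffix `s` of `l` (a time) with `r * ((t + 1) / 2) ≤` the number of the `x ∈ cut H s.toFinset` with
`x.1.1 ∈ R v t`. `t = 0` is trivial. `t = 1`: consider the `2 r` variables of `v` and `2 v`, any two of them form a scope; take
the longest suffix `U` at which none of them is finished (all scopes containing it in `U`); `U ≠ H`; with the next scope `K` one of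
them, `x`, is finished, so all the others except at most one (in `K`) are in a scope of `U`, so they and not finished:
at least `2 r - 2 ≥ r` are in the cut. `t = 2` follows from `t = 1` (`R v 1 ⊆ R v 2`). Step from `t ≥ 1` to `t + 2`: the three subtrees
`R (4 v) t`, `R (4 v + 1) t`, `R (4 v + 2) t` are disjoint, they have times; let `B_a, B_m, B_b` be these subtrees in the order
of the times (suffixes of one list are comparable). Let `R = R v (t + 2) \ B_m`; it contains `v`, and `u / 2 ∈ R` for `u ∈ R`,
`u ≠ v`; it contains `B_a` and `B_b`. Let `U` be the set at the time of `B_m`. If less than `r` variables of `R` are in `cut H U` then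
every `u ∈ R` has a variable outside the cut; by TYP all variables of `R` are in scopes of `U`, or all are in scopes of `H \ U`. In
the first case the at least `r * ((t + 1) / 2) ≥ r` variables of `B_b` which are in the cut at the time of `B_b` (later) are in a
scope of `H \ U`, so in `cut H U`, contradiction. In the second case the same with `B_a`. So at least `r` variables of `R` and
`r * ((t + 1) / 2)` variables of `B_m` are in `cut H U`. Finally `v = 1`, `t = h`. -/
def S_TRL : Prop := ∀ h r : ℕ, 2 ≤ r → r * ((h + 1) / 2) ≤ lwidth (TH h r)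

/-- TRC (contraction width of the blown-up tree). Proof. Lemma FOLD: if `T` is proper, `cut H T.leaves ⊆ W`, `S` a set of scopes
`K ⊆ W`, then there is a proper tree with leaves `T.leaves ∪ S` and width at most `max (T.width H) W.card` (induction on `S`; for
`K ∉ T.leaves` pass to `node T (leaf K)`: `cut H {K} ⊆ K ⊆ W`, `cut H (T.leaves ∪ {K}) ⊆ W`). For `v ≥ 1`, `(v + 1) * 2 ^ t ≤ 2 ^ (h + 1)`
let `R v t = {u | ∃ s ≤ t, u / 2 ^ s = v}` and `E v t` the set of the scopes with both variables in `R v t`. Claim: there is a proper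
tree with leaves `E v t` and width at most `3 r`. `t = 0`: start with the leaf `{(v,0), (v,1)}` and FOLD with `W` = the variables of
`v`. `t + 1`: `cut H (E (2 v) t)` is contained in the variables of `2 v`: the scopes containing a variable of `u ∈ R (2 v) t`,
`u ≠ 2 v`, have both variables in `R (2 v) t`. Start with `node T_{2v} T_{2v+1}` and FOLD with `W` = the variables of `v`, `2 v`,
`2 v + 1`: every scope in `E v (t + 1)` is in `E (2 v) t` or in `E (2 v + 1) t` or contained in `W`. At the end `v = 1`, `t = h`. -/
def S_TRC : Prop := ∀ h r : ℕ, 2 ≤ r → cwidth (TH h r) ≤ 3 * r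

/-- TRG. Proof. Let `U ⊆ H = TH h r` be nonempty, `U ≠ H`, and suppose that `(cut H U).card ≤ 1`. Every tree vertex has a variable
outside the cut (`2 ≤ r`). TYP with `R` = all tree vertices, `v = 1`: every variable is in a scope of `U`, or every variable is in a
scope of `H \ U`. In the first case take a scope `{x, y}` in `H \ U`: `x`, `y` are in the cut. In the second case take a
scope `{x, y} ∈ U`. The other parts are clear (`Finset.card_image_le`, the filter is a subset of `univ`, or better). -/
def S_TRG : Prop := ∀ h r : ℕ, 2 ≤ r → CutGe (TH h r) 2 ∧ (∀ i, ∃ K ∈ TH h r, i ∈ K) ∧ (∀ K ∈ TH h r, K.card = 2) ∧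
  (TH h r).card ≤ (2 ^ (h + 1) * r) ^ 2 ∧ (1 ≤ h → 2 ≤ (TH h r).card)

/-- TRN (numbers). Proof. `h ^ 2 ≤ 2 ^ (h + 1)` for all `h`, `2 ^ h ≤ n`: `(2 ^ (h + 1) * h) ^ 2 ≤ 4 n ^ 2 * 2 n = 8 n ^ 3`. -/
def S_TRN : Prop := (∀ n h m : ℕ, 4 ≤ n → h = Nat.log 2 n → m ≤ (2 ^ (h + 1) * h) ^ 2 →
    m ≤ 8 * n ^ 3 ∧ 2 * (m - 1) * 2 ^ (3 * h) + 2 * (m * 4) ≤ 17 * n ^ 6) ∧
  ∀ c : ℕ, ∃ n : ℕ, 4 ≤ n ∧ c * n ^ c + c < 2 ^ (Nat.log 2 n * ((Nat.log 2 n + 1) / 2))

/-- ZDG. Proof. Every monomial of `Z` is a product of `H.card` variables `X (restr K a)`, `K ∈ H`; for each `K` there are at most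
`q ^ K.card` different `restr K a`. -/
def S_ZDG : Prop := ∀ (F : Type) [Field F] (V A : Type) [Fintype V] [DecidableEq V] [Fintype A] [DecidableEq A]
  (H : Finset (Finset V)), (Z F A H).totalDegree ≤ H.card ∧
    (Z F A H).vars.card ≤ ∑ K ∈ H, Fintype.card A ^ K.card

end Pool.Agent.HS38.GT
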