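import Pool.Agent.HS38.GT.Stm6
import Pool.Agent.HS38.GT.SepFam

/-!
# Project GT, part 5 continued: families of symmetries (for instance finite groups of sign changes)

Files as before: `Pool/Agent/HS38/GT/<Name>.lean` proves `theorem Pool.Agent.HS38.GT.t_<NAME> : S_<NAME>`.
-/

set_option autoImplicit false

namespace Pool.Agent.HS38.GT

open MvPolynomial Finset Pool.Agent.Helper1x.EQ Pool.Agent.H20VP

section

variable {V A : Type} [Fintype V] [DecidableEq V] [Fintype A] [DecidableEq A]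

/-- the family `T` of gauge symmetries separates the scopes (all values; `Sep` without the value `o`) -/
def SepA {F : Type} [Field F] (H : Finset (Finset V)) (T : Set (Finset V → V → A → Fˣ)) : Prop :=
  ∀ U ⊆ H, ∀ U' ⊆ H, ∀ a a' : V → A, (∀ t ∈ T, wt t U a = wt t U' a') →
    ∀ i, ∀ α, ∀ K ∈ H, i ∈ K → ∀ K' ∈ H, i ∈ K' →
      (ex U a K i α = ex U a K' i α ↔ ex U' a' K i α = ex U' a' K' i α)

/-- the elementary gauge symmetries with the number `s` -/
def elemsA {F : Type} [Field F] (A : Type) [DecidableEq A] (H : Finset (Finset V)) (s : Fˣ) :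
    Set (Finset V → V → A → Fˣ) :=
  {t | ∃ (i : V) (α : A), ∃ K ∈ H, i ∈ K ∧ ∃ K' ∈ H, i ∈ K' ∧ t = elem s i α K K'}

end

/-- CLCT (`S_CLC` for families; the proof is the same, in (3) use `SepA` instead of `Generic4`: the weights of the two monomials
are the same for all `t ∈ T`; for `i ∈ cut H U₁` take `K ∈ U₁`, `K' ∈ H \ U₁`, `α = a i`: `ex U₁ a K i α = 1 ≠ 0 = ex U₁ a K' i α`, so
`ex U₁' a' K i α ≠ ex U₁' a' K' i α`, so `a' i = α`). `S_CLC` follows from `S_CLCT` and the first part of `S_SEPG`. -/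
def S_CLCT : Prop := ∀ (F : Type) [Field F] (V A : Type) [Fintype V] [DecidableEq V] [Fintype A] [DecidableEq A]
  [Nonempty A] (H : Finset (Finset V)) (T : Set (Finset V → V → A → Fˣ)), 2 ≤ H.card → (∀ i, ∃ K ∈ H, i ∈ K) →
  SepA H T → ∀ Q : Circuit F (V → Option A),
  (∃ φ : Q.N → MvPolynomial (V → Option A) F, (∀ n, φ n = (Q.gate n).value φ) ∧ φ Q.out = Z F A H ∧
    ∀ t ∈ T, ∀ n, Eig (gauge t) (φ n)) →
  Fintype.card A ^ cwidth H ≤ muls Q

/-- SEPG. Proof. (1) `wt t U a = ∏ K ∈ U, ∏ i ∈ K, t K i (a i) = ∏ K ∈ H, ∏ i ∈ K, ∏ α, t K i α ^ ex U a K i α` (`wt_eq_prodF` in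
`RegLow.lean`); if `wt t U a = wt t U' a'` then `Generic4` for the differences `ex U a K i α - ex U' a' K i α`. (See
`gen_powF` in `RegLow.lean`, which has the squares.) (2) As `sep_elems` in `SepFam.lean`, without the condition on `o`. -/
def S_SEPG : Prop := (∀ (F : Type) [Field F] (V A : Type) [Fintype V] [DecidableEq V] [Fintype A] [DecidableEq A]
    (H : Finset (Finset V)) (t : Finset V → V → A → Fˣ), Generic4 H t → SepA H {t}) ∧
  ∀ (F : Type) [Field F] (V A : Type) [Fintype V] [DecidableEq V] [Fintype A] [DecidableEq A]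
    (H : Finset (Finset V)) (s : Fˣ), s ≠ 1 → SepA H (elemsA A H s)

/-- WSKT (`S_WSK` for families). Proof. As `S_WSK`, with `Γ = T → Additive Kˣ` (`T` a set of vectors `c`), `w x c = Additive.ofMul (c x)`;
for each `c ∈ T` the character `γ ↦ γ c` gives `M (c x) = B M (x) C` with diagonal `B`, `C` (the proof of `equivariant_of_graded`
gives the first alternative). -/
def S_WSKT : Prop := ∀ (K X : Type) [Field K] (T : Set (X → Kˣ)) (Q : Circuit K X) (f : MvPolynomial X K), Q.WeaklySkew →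
  (∃ φ : Q.N → MvPolynomial X K, (∀ n, φ n = (Q.gate n).value φ) ∧ φ Q.out = f ∧
    ∀ c ∈ T, ∀ n, Eig (fun x => ((c x : Kˣ) : K)) (φ n)) →
  ∃ M : Matrix (Fin (Q.size + 1)) (Fin (Q.size + 1)) (MvPolynomial X K),
    IsDetRep M f ∧ ∀ c ∈ T, Strict2 (fun x => ((c x : Kˣ) : K)) M

end Pool.Agent.HS38.GT
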