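import Pool.Agent.HS38.GT.Stm8
import Pool.Agent.HS38.GT.Clow

/-!
# Project GT, part 5 continued: lower bounds for all polynomials with the monomials of the counting polynomial
-/

set_option autoImplicit false

namespace Pool.Agent.HS38.GT

open MvPolynomial Finset Pool.Agent.Helper1x.EQ Pool.Agent.H20VP

/-- all the monomials `∏_{K ∈ H} X (restr K a)` occur in `f` -/
def Contains {F V A : Type} [Field F] [Fintype V] [DecidableEq V] [Fintype A] [DecidableEq A] (H : Finset (Finset V))
    (f : MvPolynomial (V → Option A) F) : Prop :=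
  ∀ a : V → A, coeff (∑ K ∈ H, Finsupp.single (restr K a) 1) f ≠ 0

/-- CLCF (`S_CLCT` for every polynomial `f` with these monomials; `∑ K ∈ H, single (restr K a) 1` is `Clow.mm a H`; in the proof of
`S_CLC`, `S_CLCT` the polynomial `Z` is used only through `Clow.coeff_Z`). -/
def S_CLCF : Prop := ∀ (F : Type) [Field F] (V A : Type) [Fintype V] [DecidableEq V] [Fintype A] [DecidableEq A]
  [Nonempty A] (H : Finset (Finset V)) (T : Set (Finset V → V → A → Fˣ)) (f : MvPolynomial (V → Option A) F),
  2 ≤ H.card → (∀ i, ∃ K ∈ H, i ∈ K) → SepA H T → Contains H f → ∀ Q : Circuit F (V → Option A),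
  (∃ φ : Q.N → MvPolynomial (V → Option A) F, (∀ n, φ n = (Q.gate n).value φ) ∧ φ Q.out = f ∧
    ∀ t ∈ T, ∀ n, Eig (gauge t) (φ n)) →
  Fintype.card A ^ cwidth H ≤ muls Q

end Pool.Agent.HS38.GT
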