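import Pool.Agent.HS38.GT.FinF
import Pool.Agent.HS38.GT.Stm10

/-!
# The upper bounds over every field
-/

set_option autoImplicit false

namespace Pool.Agent.HS38.GT

open MvPolynomial Finset Pool.Agent.Helper1x.EQ Pool.Agent.H20VP

variable {F V A : Type} [Field F] [Fintype V] [DecidableEq V] [Fintype A] [DecidableEq A] {H : Finset (Finset V)}

theorem up_circuit3 (hC : S_CUP3) [Nonempty A] (hne : H.Nonempty) (hH : ∀ i, ∃ K ∈ H, i ∈ K) :
    ∃ Q : Circuit F (V → Option A), Q.FanInTwo ∧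
      Q.size ≤ 2 * (H.card - 1) * Fintype.card A ^ cwidth H + 2 * ∑ K ∈ H, Fintype.card A ^ K.card ∧
      GradedCircuit H Q (Z F A H) ∧ HomCircuit (gauges F A H) Q (Z F A H) := by
  obtain ⟨l, h1, h2, h3, h4⟩ := hC F V A H hne hH
  obtain ⟨Q, φ, h5, h6, h7, h8, h9⟩ := t_SLC F (V → Option A) l h1 _ h3
  refine ⟨Q, h5, h6.trans h4, ⟨φ, h7, h8, fun n => (h2 _ (h9 n)).2⟩, φ, h7, h8, ?_⟩
  rintro c ⟨t, ht, rfl⟩ n
  exact (h2 _ (h9 n)).1 t ht

omit [DecidableEq V] in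
theorem hom_X [DecidableEq V] (x : V → Option A) : Hom H (X x : MvPolynomial (V → Option A) F) := by
  intro u hu u' hu'
  rw [MvPolynomial.support_X, Finset.mem_singleton] at hu hu'
  rw [hu, hu']
  intro i α K _ _ K' _ _
  rfl

theorem up_ws3 (hL : S_LSK3) [Nonempty A] (hne : H.Nonempty) (hH : ∀ i, ∃ K ∈ H, i ∈ K) :
    ∃ Q : Circuit F (V → Option A), Q.FanInTwo ∧ Q.WeaklySkew ∧
      Q.size ≤ 4 * (∑ K ∈ H, Fintype.card A ^ K.card) * Fintype.card A ^ lwidth H ∧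
      GradedCircuit H Q (Z F A H) ∧ HomCircuit (gauges F A H) Q (Z F A H) := by
  obtain ⟨l, h1, h2, h3, h4⟩ := hL F V A H hne hH
  obtain ⟨Q, φ, h5, h5', h6, h7, h8, h9⟩ := t_SKC F (V → Option A) l h1 _ h3
  refine ⟨Q, h5, h5', ?_, ⟨φ, h7, h8, fun n => ?_⟩, φ, h7, h8, ?_⟩
  · calc Q.size ≤ 2 * l.length := h6
      _ ≤ 2 * (2 * (∑ K ∈ H, Fintype.card A ^ K.card) * Fintype.card A ^ lwidth H) := Nat.mul_le_mul_left _ h4
      _ = 4 * (∑ K ∈ H, Fintype.card A ^ K.card) * Fintype.card A ^ lwidth H := by ring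
  · rcases h9 n with h | ⟨x, h⟩
    · exact (h2 _ h).2
    · rw [h]
      exact hom_X x
  · rintro c ⟨t, ht, rfl⟩ n
    rcases h9 n with h | ⟨x, h⟩
    · exact (h2 _ h).1 t ht
    · rw [h]
      exact ⟨HS38.GT.gauge t x, scale_X _ _⟩

end Pool.Agent.HS38.GT
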