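import Pool.Agent.HS38.GT.Stm6

set_option autoImplicit false

namespace Pool.Agent.HS38.GT

open MvPolynomial Finset

theorem t_ZDG : S_ZDG := by
  intro F _ V A _ _ _ _ H
  classical
  constructor
  · unfold Z
    refine totalDegree_finsetSum_le fun a _ => ?_
    refine (totalDegree_finsetProd _ _).trans ?_
    refine (Finset.sum_le_card_nsmul _ _ 1 fun K _ => ?_).trans (by simp)
    exact (totalDegree_X _).le
  · have h1 : (Z F A H).vars ⊆ H.biUnion fun K => (univ : Finset (V → A)).image (restr K) := by
      unfold Z
      refine (vars_sum_subset _ _).trans ?_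
      intro x hx
      rw [Finset.mem_biUnion] at hx
      obtain ⟨a, _, ha⟩ := hx
      have h2 := vars_prod (s := H) (fun K => (X (restr K a) : MvPolynomial (V → Option A) F)) ha
      rw [Finset.mem_biUnion] at h2 ⊢
      obtain ⟨K, hK, hxK⟩ := h2
      refine ⟨K, hK, ?_⟩
      rw [vars_X, Finset.mem_singleton] at hxK
      rw [hxK]
      exact Finset.mem_image_of_mem _ (Finset.mem_univ _)
    refine (Finset.card_le_card h1).trans (Finset.card_biUnion_le.trans (Finset.sum_le_sum fun K _ => ?_))
    have h3 : (univ : Finset (V → A)).image (restr K) ⊆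
        (univ : Finset (K → A)).image fun b => fun i => if h : i ∈ K then some (b ⟨i, h⟩) else none := by
      intro x hx
      rw [Finset.mem_image] at hx ⊢
      obtain ⟨a, _, rfl⟩ := hx
      refine ⟨fun i => a i, Finset.mem_univ _, ?_⟩
      funext i
      unfold restr
      split_ifs <;> rfl
    refine (Finset.card_le_card h3).trans (Finset.card_image_le.trans ?_)
    rw [Finset.card_univ, Fintype.card_fun, Fintype.card_coe]

end Pool.Agent.HS38.GT
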